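import Pool.Agent.Lib_helper45.JO.Defs2
import Pool.Agent.Lib_helper87.JOL.KDV
import Pool.Agent.Lib_helper87.JOL.KPR
import Pool.Agent.Lib_helper87.JOL.KAN

/-!
# Project JO, part FM: the K-Bessel function (block K1, from part L3)
-/

set_option autoImplicit false

namespace Pool.Agent.JO.FM

open Complex Filter Topology MeasureTheory Set
open UpperHalfPlane hiding I
open Pool.Agent.JOL
open scoped MatrixGroups ComplexConjugate

theorem KK_int (μ : ℂ) {x : ℝ} (hx : 0 < x) :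
    Integrable (fun u : ℝ => cexp (-(x : ℂ) * (Real.cosh u : ℝ) + μ * u)) :=
  kbd_int_pr μ x hx

theorem KK_neg (μ : ℂ) (x : ℝ) : KK (-μ) x = KK μ x := kdv_neg_pr μ x

theorem KK_real {ν : ℂ} (h : GoodNu ν) (x : ℝ) : (KK ν x).im = 0 := by
  have h1 := kdv_conj_pr ν x
  have h2 : KK (conj ν) x = KK ν x := by
    rcases h.real_or with h0 | h0
    · rw [Complex.conj_eq_iff_im.2 h0]
    · have : conj ν = -ν := by
        apply Complex.ext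
        · simp [h0]
        · simp
      rw [this, KK_neg]
  rw [h2] at h1
  exact Complex.conj_eq_iff_im.1 h1

theorem KK_bound (μ : ℂ) {b : ℝ} (hb : |μ.re| < b) :
    ∃ C : ℝ, ∀ x : ℝ, 0 < x → ‖KK μ x‖ ≤ C * x ^ (-b) * Real.exp (-(x / 2)) := by
  obtain ⟨C, _, h⟩ := kbd_bound_pr μ b (lt_of_le_of_lt (abs_nonneg _) hb) hb.le
  exact ⟨C, h⟩

theorem KK_bound_real {δ : ℝ} (hδ : 0 < δ) :
    ∃ C : ℝ, ∀ x : ℝ, 0 < x → ‖KK (δ : ℂ) x‖ ≤ C * x ^ (-δ) * Real.exp (-(x / 2)) := by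
  obtain ⟨C, _, h⟩ := kbd_bound_pr (δ : ℂ) δ hδ (by simp [abs_of_pos hδ])
  exact ⟨C, h⟩

theorem KK_deriv (μ : ℂ) {x : ℝ} (hx : 0 < x) :
    HasDerivAt (KK μ) (-(KK (μ + 1) x + KK (μ - 1) x) / 2) x := by
  have h := kdv_deriv_pr μ x hx
  rwa [add_comm (KK (μ - 1) x)] at h

theorem KK_rec (μ : ℂ) {x : ℝ} (hx : 0 < x) :
    KK (μ + 1) x - KK (μ - 1) x = 2 * μ / x * KK μ x := kdv_rec_pr μ x hx

theorem KK_asymp (μ : ℂ) :
    Tendsto (fun x : ℝ => ((√x * Real.exp x : ℝ) : ℂ) * KK μ x) atTop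
      (𝓝 ((√(Real.pi / 2) : ℝ) : ℂ)) := kan_asymp_pr μ

theorem kk_mellin {ν : ℂ} (hν : GoodNu ν) {s : ℂ} (hs : 2 * ν.re < s.re) :
    IntegrableOn (fun x : ℝ => KK ν x ^ 2 * (x : ℂ) ^ (s - 1)) (Ioi 0) ∧
    ∫ x in Ioi (0 : ℝ), KK ν x ^ 2 * (x : ℂ) ^ (s - 1) = kap ν s := by
  have h0 : |ν.re| + |ν.re| < s.re := by
    rw [abs_of_nonneg hν.nonneg]
    linarith
  have h1 := kpr_int_pr ν ν s h0
  have h2 := kpr_mellin_pr ν ν s h0
  have e : (fun x : ℝ => KK ν x ^ 2 * (x : ℂ) ^ (s - 1)) =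
      fun x : ℝ => KK ν x * KK ν x * (x : ℂ) ^ (s - 1) := by
    funext x
    rw [sq]
  rw [e]
  refine ⟨h1, ?_⟩
  rw [h2]
  unfold kap
  have e1 : (s + ν + ν) / 2 = s / 2 + ν := by ring
  have e2 : (s - ν - ν) / 2 = s / 2 - ν := by ring
  have e3 : (s + ν - ν) / 2 = s / 2 := by ring
  have e4 : (s - ν + ν) / 2 = s / 2 := by ring
  rw [e1, e2, e3, e4]
  ring

end Pool.Agent.JO.FM
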