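import Pool.Agent.Lib_helper45.JO.Defs2

/-!
# JO FM block A1 (helper37): the differential equation of the Fourier coefficients
-/

set_option autoImplicit false

namespace Pool.Agent.JO.FM

open Complex Filter Topology MeasureTheory Set
open UpperHalfPlane hiding I
open scoped MatrixGroups ComplexConjugate

/-- the upper half plane as a subset of `ℂ` -/
def a1_U : Set ℂ := {z | 0 < z.im}

theorem a1_open : IsOpen a1_U := isOpen_lt continuous_const continuous_im

/-- the point `x + iy` -/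
noncomputable def a1_pt (x y : ℝ) : ℂ := (x : ℂ) + y * I

theorem a1_im (x y : ℝ) : (a1_pt x y).im = y := by simp [a1_pt]

theorem a1_mem {x y : ℝ} (hy : 0 < y) : a1_pt x y ∈ a1_U := by
  show 0 < (a1_pt x y).im
  rwa [a1_im]

theorem a1_cont : Continuous (fun q : ℝ × ℝ => a1_pt q.1 q.2) := by
  unfold a1_pt
  fun_prop

theorem a1_dx (x y : ℝ) : HasDerivAt (fun x : ℝ => a1_pt x y) 1 x := by
  unfold a1_pt
  exact (Complex.ofRealCLM.hasDerivAt (x := x)).add_const _

theorem a1_dy (x y : ℝ) : HasDerivAt (fun y : ℝ => a1_pt x y) I y := by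
  unfold a1_pt
  have h := ((Complex.ofRealCLM.hasDerivAt (x := y)).mul_const I).const_add (x : ℂ)
  refine h.congr_deriv ?_
  simp

/-- derivatives along the lines -/
theorem a1_hx {h : ℂ → ℂ} (hh : ContDiffOn ℝ 1 h a1_U) {y : ℝ} (hy : 0 < y) (x : ℝ) :
    HasDerivAt (fun x : ℝ => h (a1_pt x y)) (fderiv ℝ h (a1_pt x y) 1) x := by
  have h1 : DifferentiableAt ℝ h (a1_pt x y) :=
    (hh.contDiffAt (a1_open.mem_nhds (a1_mem hy))).differentiableAt (by norm_num)
  exact h1.hasFDerivAt.comp_hasDerivAt x (a1_dx x y)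

theorem a1_hy {h : ℂ → ℂ} (hh : ContDiffOn ℝ 1 h a1_U) {y : ℝ} (hy : 0 < y) (x : ℝ) :
    HasDerivAt (fun y : ℝ => h (a1_pt x y)) (fderiv ℝ h (a1_pt x y) I) y := by
  have h1 : DifferentiableAt ℝ h (a1_pt x y) :=
    (hh.contDiffAt (a1_open.mem_nhds (a1_mem hy))).differentiableAt (by norm_num)
  exact h1.hasFDerivAt.comp_hasDerivAt y (a1_dy x y)

theorem a1_fd {h : ℂ → ℂ} (hh : ContDiffOn ℝ 1 h a1_U) (v : ℂ) :
    ContinuousOn (fun z => fderiv ℝ h z v) a1_U := by
  have h1 : ContDiffOn ℝ 0 (fderiv ℝ h) a1_U := hh.fderiv_of_isOpen a1_open (by norm_num)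
  exact h1.continuousOn.clm_apply continuousOn_const

theorem a1_param {h : ℂ → ℂ} (hh : ContDiffOn ℝ 1 h a1_U) {E : ℝ → ℂ} (hE : Continuous E)
    {P y : ℝ} (hP : 0 ≤ P) (hy : 0 < y) :
    HasDerivAt (fun y : ℝ => ∫ x in (0 : ℝ)..P, h (a1_pt x y) * E x)
      (∫ x in (0 : ℝ)..P, fderiv ℝ h (a1_pt x y) I * E x) y := by
  have hpos : ∀ η ∈ Metric.ball y (y / 2), y / 2 < η ∧ η < 3 * y / 2 := by
    intro η hη
    rw [Metric.mem_ball, Real.dist_eq, abs_lt] at hη
    constructor <;> linarith [hη.1, hη.2]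
  obtain ⟨C, hC⟩ := (isCompact_Icc.prod isCompact_Icc :
    IsCompact (Icc (0 : ℝ) P ×ˢ Icc (y / 2) (3 * y / 2))).exists_bound_of_continuousOn
    (f := fun q : ℝ × ℝ => fderiv ℝ h (a1_pt q.1 q.2) I * E q.1) (by
      refine ContinuousOn.mul ?_ (hE.comp continuous_fst).continuousOn
      refine (a1_fd hh I).comp a1_cont.continuousOn ?_
      intro q hq
      exact a1_mem (lt_of_lt_of_le (by positivity) hq.2.1))
  have hcx : ∀ η, 0 < η → Continuous (fun x : ℝ => h (a1_pt x η) * E x) := by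
    intro η hη
    refine Continuous.mul ?_ hE
    rw [← continuousOn_univ]
    refine hh.continuousOn.comp ?_ (fun x _ => a1_mem hη)
    exact (a1_cont.comp (by fun_prop : Continuous fun x : ℝ => (x, η))).continuousOn
  have hcx' : Continuous (fun x : ℝ => fderiv ℝ h (a1_pt x y) I * E x) := by
    refine Continuous.mul ?_ hE
    rw [← continuousOn_univ]
    refine (a1_fd hh I).comp ?_ (fun x _ => a1_mem hy)
    exact (a1_cont.comp (by fun_prop : Continuous fun x : ℝ => (x, y))).continuousOn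
  refine (intervalIntegral.hasDerivAt_integral_of_dominated_loc_of_deriv_le
    (F := fun (η : ℝ) (x : ℝ) => h (a1_pt x η) * E x)
    (F' := fun (η : ℝ) (x : ℝ) => fderiv ℝ h (a1_pt x η) I * E x)
    (bound := fun _ => C)
    (Metric.ball_mem_nhds y (half_pos hy)) ?_ ?_ ?_ ?_ ?_ ?_).2
  · filter_upwards [lt_mem_nhds hy] with η hη
    exact (hcx η hη).aestronglyMeasurable
  · exact (hcx y hy).intervalIntegrable _ _
  · exact hcx'.aestronglyMeasurable
  · refine Eventually.of_forall fun x hx η hη => ?_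
    rw [uIoc_of_le hP] at hx
    obtain ⟨h1, h2⟩ := hpos η hη
    exact hC (x, η) ⟨⟨hx.1.le, hx.2⟩, ⟨h1.le, h2.le⟩⟩
  · exact intervalIntegrable_const
  · refine Eventually.of_forall fun x _ η hη => ?_
    obtain ⟨h1, _⟩ := hpos η hη
    exact (a1_hy hh (by linarith [half_pos hy]) x).mul_const (E x)

/-- integration by parts for periodic functions -/
theorem a1_parts {u u' : ℝ → ℂ} (hu : ∀ x, HasDerivAt u (u' x) x) (hc : Continuous u') {P κ : ℝ}
    (hper : u P = u 0) (hκ : cexp (-(κ * P : ℝ) * I) = 1) :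
    ∫ x in (0 : ℝ)..P, u' x * cexp (-(κ * x : ℝ) * I) =
      I * κ * ∫ x in (0 : ℝ)..P, u x * cexp (-(κ * x : ℝ) * I) := by
  have hE : ∀ x : ℝ, HasDerivAt (fun x : ℝ => cexp (-(κ * x : ℝ) * I))
      (-(I * κ) * cexp (-(κ * x : ℝ) * I)) x := by
    intro x
    have h1 : HasDerivAt (fun x : ℝ => -((κ * x : ℝ) : ℂ) * I) (-(I * κ)) x := by
      have h2 := (((hasDerivAt_id x).const_mul κ).ofReal_comp.neg).mul_const I
      refine h2.congr_deriv ?_
      push_cast
      ring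
    refine h1.cexp.congr_deriv ?_
    ring
  have hcE : Continuous (fun x : ℝ => cexp (-(κ * x : ℝ) * I)) := by fun_prop
  have key := intervalIntegral.integral_deriv_mul_eq_sub (a := (0 : ℝ)) (b := P)
    (fun x _ => hu x) (fun x _ => hE x) (hc.intervalIntegrable _ _)
    ((hcE.const_mul _).intervalIntegrable _ _)
  rw [hper, hκ] at key
  have e0 : cexp (-(κ * 0 : ℝ) * I) = 1 := by simp
  rw [e0, sub_self] at key
  have hcu : Continuous u := continuous_iff_continuousAt.2 fun x => (hu x).continuousAt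
  have hc1 : Continuous (fun x : ℝ => u' x * cexp (-(κ * x : ℝ) * I)) := hc.mul hcE
  have hc2 : Continuous (fun x : ℝ => u x * (-(I * κ) * cexp (-(κ * x : ℝ) * I))) :=
    hcu.mul (hcE.const_mul _)
  rw [intervalIntegral.integral_add (hc1.intervalIntegrable _ _)
    (hc2.intervalIntegrable _ _)] at key
  have e1 : ∫ x in (0 : ℝ)..P, u x * (-(I * κ) * cexp (-(κ * x : ℝ) * I)) =
      -(I * κ) * ∫ x in (0 : ℝ)..P, u x * cexp (-(κ * x : ℝ) * I) := by
    rw [← intervalIntegral.integral_const_mul]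
    refine intervalIntegral.integral_congr fun x _ => ?_
    ring
  rw [e1] at key
  linear_combination key

/-! ## the partial derivatives -/

theorem a1_ofC {z : ℂ} (hz : z ∈ a1_U) : ((ofComplex z : ℍ) : ℂ) = z := by
  have hz' : 0 < z.im := hz
  rw [ofComplex_apply_of_im_pos hz']

theorem a1_dX {F : ℍ → ℂ} {z : ℂ} (hz : z ∈ a1_U)
    (hd : DifferentiableAt ℝ (fun z => F (ofComplex z)) z) :
    dX F (ofComplex z) = fderiv ℝ (fun z => F (ofComplex z)) z 1 := by
  unfold dX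
  rw [a1_ofC hz]
  have h1 : HasDerivAt (fun t : ℝ => z + (t : ℂ)) 1 0 :=
    (Complex.ofRealCLM.hasDerivAt (x := (0 : ℝ))).const_add z
  have h2 : HasFDerivAt (fun z => F (ofComplex z)) (fderiv ℝ (fun z => F (ofComplex z)) z)
      (z + ((0 : ℝ) : ℂ)) := by
    rw [ofReal_zero, add_zero]
    exact hd.hasFDerivAt
  exact (h2.comp_hasDerivAt 0 h1).deriv

theorem a1_dY {F : ℍ → ℂ} {z : ℂ} (hz : z ∈ a1_U)
    (hd : DifferentiableAt ℝ (fun z => F (ofComplex z)) z) :
    dY F (ofComplex z) = fderiv ℝ (fun z => F (ofComplex z)) z I := by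
  unfold dY
  rw [a1_ofC hz]
  have h1 : HasDerivAt (fun t : ℝ => z + (t : ℂ) * I) I 0 := by
    refine (((Complex.ofRealCLM.hasDerivAt (x := (0 : ℝ))).mul_const I).const_add z).congr_deriv ?_
    simp
  have h2 : HasFDerivAt (fun z => F (ofComplex z)) (fderiv ℝ (fun z => F (ofComplex z)) z)
      (z + ((0 : ℝ) : ℂ) * I) := by
    rw [ofReal_zero, zero_mul, add_zero]
    exact hd.hasFDerivAt
  exact (h2.comp_hasDerivAt 0 h1).deriv

/-- the integral defining the Fourier coefficient -/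
theorem a1_fc {P : ℕ} {F : ℍ → ℂ} (n : ℤ) (y : ℝ) : fc P F n y = ((P : ℝ)⁻¹ : ℝ) *
    ∫ x in (0 : ℝ)..P, (fun z => F (ofComplex z)) (a1_pt x y) *
      cexp (-((2 * Real.pi * n / P) * x : ℝ) * I) := by
  unfold fc pz a1_pt
  congr 1
  refine intervalIntegral.integral_congr fun x _ => ?_
  simp only
  congr 3
  push_cast
  ring

theorem a1_expP {P : ℕ} (hP : 0 < P) (n : ℤ) :
    cexp (-((2 * Real.pi * n / P) * (P : ℝ) : ℝ) * I) = 1 := by
  have hP' : (P : ℝ) ≠ 0 := by exact_mod_cast hP.ne'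
  rw [Complex.exp_eq_one_iff]
  refine ⟨-n, ?_⟩
  have e : (2 * Real.pi * n / P) * (P : ℝ) = 2 * Real.pi * n := by field_simp
  rw [e]
  push_cast
  ring

theorem fc_ode_pr {P k : ℕ} {ev : ℝ} {F : ℍ → ℂ} (hP : 0 < P) (h : PerEig P k ev F) (n : ℤ) :
    ∃ b' : ℝ → ℂ, ∀ y, 0 < y → HasDerivAt (fc P F n) (b' y) y ∧
      HasDerivAt b' ((((2 * Real.pi * n / P) ^ 2 - k * (2 * Real.pi * n / P) / y - ev / y ^ 2 : ℝ)
        : ℂ) * fc P F n y) y := by
  set g : ℂ → ℂ := fun z => F (ofComplex z) with hg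
  set κ : ℝ := 2 * Real.pi * n / P with hκ
  have hg2 : ContDiffOn ℝ 2 g a1_U := h.smooth
  have hg1 : ContDiffOn ℝ 1 g a1_U := hg2.of_le (by norm_num)
  have hfd : ContDiffOn ℝ 1 (fderiv ℝ g) a1_U := hg2.fderiv_of_isOpen a1_open (by norm_num)
  set gx : ℂ → ℂ := fun z => fderiv ℝ g z 1 with hgx
  set gy : ℂ → ℂ := fun z => fderiv ℝ g z I with hgy
  have hgx1 : ContDiffOn ℝ 1 gx a1_U := hfd.clm_apply contDiffOn_const
  have hgy1 : ContDiffOn ℝ 1 gy a1_U := hfd.clm_apply contDiffOn_const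
  have hdiff : ∀ {u : ℂ → ℂ}, ContDiffOn ℝ 1 u a1_U → ∀ z ∈ a1_U, DifferentiableAt ℝ u z :=
    fun hu z hz => (hu.contDiffAt (a1_open.mem_nhds hz)).differentiableAt (by norm_num)
  -- the partial derivatives of `F`
  have hX : ∀ z ∈ a1_U, dX F (ofComplex z) = gx z := fun z hz => a1_dX hz (hdiff hg1 z hz)
  have hY : ∀ z ∈ a1_U, dY F (ofComplex z) = gy z := fun z hz => a1_dY hz (hdiff hg1 z hz)
  have hXX : ∀ z ∈ a1_U, dX (dX F) (ofComplex z) = fderiv ℝ gx z 1 := by
    intro z hz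
    have h1 : (fun z => dX F (ofComplex z)) =ᶠ[𝓝 z] gx := by
      filter_upwards [a1_open.mem_nhds hz] with w hw
      exact hX w hw
    rw [a1_dX hz ((hdiff hgx1 z hz).congr_of_eventuallyEq h1), h1.fderiv_eq]
  have hYY : ∀ z ∈ a1_U, dY (dY F) (ofComplex z) = fderiv ℝ gy z I := by
    intro z hz
    have h1 : (fun z => dY F (ofComplex z)) =ᶠ[𝓝 z] gy := by
      filter_upwards [a1_open.mem_nhds hz] with w hw
      exact hY w hw
    rw [a1_dY hz ((hdiff hgy1 z hz).congr_of_eventuallyEq h1), h1.fderiv_eq]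
  -- the equation
  have heq : ∀ z ∈ a1_U, fderiv ℝ gy z I = -fderiv ℝ gx z 1 - ev / (z.im : ℂ) ^ 2 * g z +
      I * k / z.im * gx z := by
    intro z hz
    have hz' : (0 : ℝ) < z.im := hz
    have h1 := h.eigen (ofComplex z)
    unfold lap at h1
    rw [hXX z hz, hYY z hz, hX z hz] at h1
    have h2 : (ofComplex z : ℍ).im = z.im := by
      rw [← coe_im, a1_ofC hz]
    rw [h2] at h1
    have h3 : (z.im : ℂ) ≠ 0 := by exact_mod_cast hz'.ne'
    have h4 : F (ofComplex z) = g z := rfl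
    rw [h4] at h1
    field_simp
    linear_combination h1
  set E : ℝ → ℂ := fun x => cexp (-(κ * x : ℝ) * I) with hE
  have hEc : Continuous E := by rw [hE]; fun_prop
  have hP0 : (0 : ℝ) ≤ P := Nat.cast_nonneg P
  -- periodicity
  have hperg : ∀ x y : ℝ, 0 < y → g (a1_pt (x + P) y) = g (a1_pt x y) := by
    intro x y hy
    have h1 := h.per x y hy
    unfold pz at h1
    rw [hg]
    unfold a1_pt
    exact h1
  have hperx : ∀ x y : ℝ, 0 < y → gx (a1_pt (x + P) y) = gx (a1_pt x y) := by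
    intro x y hy
    have h1 := a1_hx hg1 hy (x + P)
    have h2 : HasDerivAt (fun x : ℝ => g (a1_pt (x + P) y)) (gx (a1_pt (x + P) y)) x :=
      h1.comp_add_const x (P : ℝ)
    have h3 : (fun x : ℝ => g (a1_pt (x + P) y)) = fun x : ℝ => g (a1_pt x y) := by
      funext x
      exact hperg x y hy
    rw [h3] at h2
    exact h2.unique (a1_hx hg1 hy x)
  have hcx : ∀ (u : ℂ → ℂ), ContinuousOn u a1_U → ∀ y : ℝ, 0 < y →
      Continuous (fun x : ℝ => u (a1_pt x y)) := by
    intro u hu y hy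
    rw [← continuousOn_univ]
    refine hu.comp ?_ (fun x _ => a1_mem hy)
    exact (a1_cont.comp (by fun_prop : Continuous fun x : ℝ => (x, y))).continuousOn
  -- integration by parts
  have hpar1 : ∀ y : ℝ, 0 < y → ∫ x in (0 : ℝ)..P, gx (a1_pt x y) * E x =
      I * κ * ∫ x in (0 : ℝ)..P, g (a1_pt x y) * E x := by
    intro y hy
    refine a1_parts (u := fun x => g (a1_pt x y)) (fun x => a1_hx hg1 hy x)
      (hcx gx hgx1.continuousOn y hy) ?_ (a1_expP hP n)
    have := hperg 0 y hy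
    rwa [zero_add] at this
  have hpar2 : ∀ y : ℝ, 0 < y → ∫ x in (0 : ℝ)..P, fderiv ℝ gx (a1_pt x y) 1 * E x =
      I * κ * ∫ x in (0 : ℝ)..P, gx (a1_pt x y) * E x := by
    intro y hy
    refine a1_parts (u := fun x => gx (a1_pt x y)) (fun x => a1_hx hgx1 hy x)
      (hcx _ (a1_fd hgx1 1) y hy) ?_ (a1_expP hP n)
    have := hperx 0 y hy
    rwa [zero_add] at this
  refine ⟨fun y => ((P : ℝ)⁻¹ : ℝ) * ∫ x in (0 : ℝ)..P, gy (a1_pt x y) * E x, fun y hy => ?_⟩
  constructor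
  · have h1 := (a1_param hg1 hEc hP0 hy).const_mul ((((P : ℝ)⁻¹ : ℝ)) : ℂ)
    have h2 : fc P F n = fun y => (((P : ℝ)⁻¹ : ℝ) : ℂ) * ∫ x in (0 : ℝ)..P, g (a1_pt x y) * E x := by
      funext y
      exact a1_fc n y
    rw [h2]
    exact h1
  · have h1 := (a1_param hgy1 hEc hP0 hy).const_mul ((((P : ℝ)⁻¹ : ℝ)) : ℂ)
    refine h1.congr_deriv ?_
    rw [a1_fc]
    have h2 : ∫ x in (0 : ℝ)..P, fderiv ℝ gy (a1_pt x y) I * E x =
        -(∫ x in (0 : ℝ)..P, fderiv ℝ gx (a1_pt x y) 1 * E x) -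
          ev / (y : ℂ) ^ 2 * (∫ x in (0 : ℝ)..P, g (a1_pt x y) * E x) +
          I * k / y * ∫ x in (0 : ℝ)..P, gx (a1_pt x y) * E x := by
      have c1 : Continuous (fun x : ℝ => fderiv ℝ gx (a1_pt x y) 1 * E x) :=
        (hcx _ (a1_fd hgx1 1) y hy).mul hEc
      have c2 : Continuous (fun x : ℝ => g (a1_pt x y) * E x) := (hcx g hg1.continuousOn y hy).mul hEc
      have c3 : Continuous (fun x : ℝ => gx (a1_pt x y) * E x) :=
        (hcx gx hgx1.continuousOn y hy).mul hEc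
      have d1 : Continuous (fun x : ℝ => -(fderiv ℝ gx (a1_pt x y) 1 * E x)) := c1.neg
      have d2 : Continuous (fun x : ℝ => (ev : ℂ) / (y : ℂ) ^ 2 * (g (a1_pt x y) * E x)) :=
        c2.const_mul _
      have d3 : Continuous (fun x : ℝ => I * (k : ℂ) / y * (gx (a1_pt x y) * E x)) :=
        c3.const_mul _
      have d4 : Continuous (fun x : ℝ => -(fderiv ℝ gx (a1_pt x y) 1 * E x) -
          (ev : ℂ) / (y : ℂ) ^ 2 * (g (a1_pt x y) * E x)) := d1.sub d2
      rw [← intervalIntegral.integral_const_mul, ← intervalIntegral.integral_const_mul,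
        ← intervalIntegral.integral_neg, ← intervalIntegral.integral_sub
          (d1.intervalIntegrable _ _) (d2.intervalIntegrable _ _),
        ← intervalIntegral.integral_add
          (d4.intervalIntegrable _ _) (d3.intervalIntegrable _ _)]
      refine intervalIntegral.integral_congr fun x _ => ?_
      rw [heq _ (a1_mem hy), a1_im]
      ring
    rw [h2, hpar2 y hy, hpar1 y hy]
    have h3 : ∫ x in (0 : ℝ)..P, (fun z => F (ofComplex z)) (a1_pt x y) *
        cexp (-((2 * Real.pi * n / P) * x : ℝ) * I) = ∫ x in (0 : ℝ)..P, g (a1_pt x y) * E x := rfl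
    rw [h3]
    have hy' : (y : ℂ) ≠ 0 := by exact_mod_cast hy.ne'
    push_cast
    have hI : I * I = -1 := I_mul_I
    field_simp
    ring_nf
    rw [I_sq]
    ring

theorem fc_tendsto_pr {P k : ℕ} {ev : ℝ} {F : ℍ → ℂ} (hP : 0 < P) (h : PerEig P k ev F) (n : ℤ) :
    Tendsto (fc P F n) atTop (𝓝 0) := by
  rw [Metric.tendsto_atTop]
  intro ε hε
  have h1 : ∀ᶠ z in atImInfty, ‖F z‖ < ε / 2 := by
    have h2 := h.cusp.eventually (Metric.ball_mem_nhds (0 : ℂ) (half_pos hε))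
    filter_upwards [h2] with z hz
    rwa [dist_zero_right] at hz
  obtain ⟨A, hA⟩ := (atImInfty_mem _).1 h1
  refine ⟨max A 1, fun y hy => ?_⟩
  have hy1 : 1 ≤ y := (le_max_right _ _).trans hy
  have hyA : A ≤ y := (le_max_left _ _).trans hy
  have hy0 : 0 < y := by linarith
  rw [dist_zero_right]
  unfold fc
  have hP' : (0 : ℝ) < P := by exact_mod_cast hP
  have h2 : ‖∫ x in (0 : ℝ)..P, F (pz x y) * cexp (-(2 * Real.pi * n * x / P : ℝ) * I)‖ ≤
      ε / 2 * |(P : ℝ) - 0| := by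
    refine intervalIntegral.norm_integral_le_of_norm_le_const fun x _ => ?_
    have h3 : ‖cexp (-(2 * Real.pi * n * x / P : ℝ) * I)‖ = 1 := by
      rw [← ofReal_neg, Complex.norm_exp_ofReal_mul_I]
    rw [norm_mul, h3, mul_one]
    refine (hA (pz x y) ?_).le
    unfold pz
    rw [← coe_im]
    have h4 : ((x : ℂ) + y * I) ∈ a1_U := a1_mem hy0
    rw [a1_ofC h4]
    have h5 : ((x : ℂ) + y * I).im = y := a1_im x y
    rw [h5]
    exact hyA
  rw [norm_mul, norm_real, Real.norm_eq_abs, abs_of_pos (inv_pos.2 hP')]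
  rw [sub_zero, abs_of_pos hP'] at h2
  calc (P : ℝ)⁻¹ * _ ≤ (P : ℝ)⁻¹ * (ε / 2 * P) := by gcongr
    _ = ε / 2 := by field_simp
    _ < ε := half_lt_self hε

end Pool.Agent.JO.FM

namespace Pool.Agent.JO.FM

theorem fc_ode : type_of% @fc_ode_pr := @fc_ode_pr
theorem fc_tendsto : type_of% @fc_tendsto_pr := @fc_tendsto_pr

end Pool.Agent.JO.FM
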