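import Pool.Agent.Lib_helper45.JO.Defs2

/-! # Project JO, part FM, block O3 (helper2) -/

set_option autoImplicit false

namespace Pool.Agent.JO.FM

open Complex Filter Topology MeasureTheory Set
open UpperHalfPlane hiding I
open scoped MatrixGroups ComplexConjugate

/-- a function with `y f' = s f`, `Re s > 0`, which tends to zero vanishes -/
theorem o3_first {f f' : ℝ → ℂ} {s : ℂ} (hs : 0 < s.re)
    (hf : ∀ y, 0 < y → HasDerivAt f (f' y) y) (h : ∀ y : ℝ, 0 < y → (y : ℂ) * f' y = s * f y)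
    (h0 : Tendsto f atTop (𝓝 0)) : ∀ y, 0 < y → f y = 0 := by
  have hq : ∀ y : ℝ, 0 < y → HasDerivAt (fun y : ℝ => f y * (y : ℂ) ^ (-s)) 0 y := by
    intro y hy
    have hyc : (y : ℂ) ≠ 0 := by exact_mod_cast hy.ne'
    have h1 : HasDerivAt (fun z : ℂ => z ^ (-s)) ((-s) * (y : ℂ) ^ (-s - 1)) (y : ℂ) := by
      have := (hasDerivAt_id (y : ℂ)).cpow_const (c := -s)
        (by simp only [id]; exact Complex.ofReal_mem_slitPlane.2 hy)
      simpa using this
    have h2 : HasDerivAt (fun y : ℝ => (y : ℂ) ^ (-s)) ((-s) * (y : ℂ) ^ (-s - 1)) y :=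
      h1.comp_ofReal
    have h3 := (hf y hy).mul h2
    have h4 : f' y * (y : ℂ) ^ (-s) + f y * (-s * (y : ℂ) ^ (-s - 1)) = 0 := by
      have h5 : (y : ℂ) ^ (-s - 1) = (y : ℂ) ^ (-s) / y := by
        rw [Complex.cpow_sub _ _ hyc, Complex.cpow_one]
      rw [h5]
      have h6 := h y hy
      have h7 : f' y = s * f y / y := by
        rw [eq_div_iff hyc]
        linear_combination h6
      rw [h7]
      ring
    rw [h4] at h3
    exact h3
  have hconst : ∀ y z : ℝ, 0 < y → y ≤ z → f z * (z : ℂ) ^ (-s) = f y * (y : ℂ) ^ (-s) := by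
    intro y z hy hyz
    have h1 := (convex_Icc y z).norm_image_sub_le_of_norm_hasDerivWithin_le (C := 0)
      (f := fun y : ℝ => f y * (y : ℂ) ^ (-s)) (f' := fun _ => 0)
      (fun x hx => (hq x (hy.trans_le hx.1)).hasDerivWithinAt) (fun x _ => by simp)
      (left_mem_Icc.2 hyz) (right_mem_Icc.2 hyz)
    rw [zero_mul] at h1
    exact sub_eq_zero.1 (norm_le_zero_iff.1 h1)
  intro y hy
  have hlim : Tendsto (fun z : ℝ => ‖f z * (z : ℂ) ^ (-s)‖) atTop (𝓝 0) := by
    have hn : Tendsto (fun z : ℝ => ‖f z‖) atTop (𝓝 0) := by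
      simpa using h0.norm
    refine squeeze_zero' (Eventually.of_forall fun z => norm_nonneg _) ?_ hn
    filter_upwards [eventually_ge_atTop (1 : ℝ)] with z hz
    rw [norm_mul, Complex.norm_cpow_eq_rpow_re_of_pos (by linarith)]
    have : z ^ (-s).re ≤ 1 := by
      apply Real.rpow_le_one_of_one_le_of_nonpos hz
      rw [Complex.neg_re]
      linarith
    calc ‖f z‖ * z ^ (-s).re ≤ ‖f z‖ * 1 := mul_le_mul_of_nonneg_left this (norm_nonneg _)
      _ = ‖f z‖ := mul_one _
  have hev : (fun z : ℝ => ‖f z * (z : ℂ) ^ (-s)‖) =ᶠ[atTop]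
      fun _ => ‖f y * (y : ℂ) ^ (-s)‖ := by
    filter_upwards [eventually_ge_atTop y] with z hz
    rw [hconst y z hy hz]
  have h1 : Tendsto (fun _ : ℝ => ‖f y * (y : ℂ) ^ (-s)‖) atTop (𝓝 0) := hlim.congr' hev
  have h2 : ‖f y * (y : ℂ) ^ (-s)‖ = 0 := tendsto_nhds_unique tendsto_const_nhds h1
  rw [norm_eq_zero, mul_eq_zero] at h2
  rcases h2 with h2 | h2
  · exact h2
  · exfalso
    have hyc : (y : ℂ) ≠ 0 := by exact_mod_cast hy.ne'
    rw [Complex.cpow_eq_zero_iff] at h2
    exact hyc h2.1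

theorem o3_yb {ev : ℝ} (hev : 0 < ev) {b b' : ℝ → ℂ}
    (h1 : ∀ y, 0 < y → HasDerivAt b (b' y) y)
    (h2 : ∀ y, 0 < y → HasDerivAt b' (((-(ev / y ^ 2) : ℝ) : ℂ) * b y) y)
    (h3 : Tendsto b atTop (𝓝 0)) : Tendsto (fun y : ℝ => (y : ℂ) * b' y) atTop (𝓝 0) := by
  rw [Metric.tendsto_atTop] at h3 ⊢
  intro e he
  obtain ⟨Y, hY⟩ := h3 (e / (4 + 2 * ev)) (by positivity)
  set ε : ℝ := e / (4 + 2 * ev) with hε
  have hε0 : 0 < ε := by positivity
  refine ⟨max Y 1, fun y hy => ?_⟩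
  have hyY : Y ≤ y := (le_max_left _ _).trans hy
  have hy1 : 1 ≤ y := (le_max_right _ _).trans hy
  have hy0 : 0 < y := by linarith
  have hb : ∀ t, y ≤ t → ‖b t‖ ≤ ε := by
    intro t ht
    have := hY t (hyY.trans ht)
    rw [dist_zero_right] at this
    exact this.le
  -- first step
  have s1 : ∀ t ∈ Icc y (2 * y), ‖b' t - b' y‖ ≤ ev * ε / y := by
    intro t ht
    have := (convex_Icc y (2 * y)).norm_image_sub_le_of_norm_hasDerivWithin_le
      (C := ev * ε / y ^ 2) (f := b') (f' := fun t => ((-(ev / t ^ 2) : ℝ) : ℂ) * b t)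
      (fun x hx => (h2 x (hy0.trans_le hx.1)).hasDerivWithinAt) (fun x hx => by
        rw [norm_mul, Complex.norm_real, Real.norm_eq_abs, abs_neg,
          abs_of_nonneg (by positivity)]
        have hx0 : 0 < x := hy0.trans_le hx.1
        have i1 : ev / x ^ 2 ≤ ev / y ^ 2 := by
          apply div_le_div_of_nonneg_left hev.le (by positivity)
          exact pow_le_pow_left₀ hy0.le hx.1 2
        calc ev / x ^ 2 * ‖b x‖ ≤ ev / y ^ 2 * ε :=
              mul_le_mul i1 (hb x hx.1) (norm_nonneg _) (by positivity)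
          _ = ev * ε / y ^ 2 := by ring) (left_mem_Icc.2 (by linarith)) ht
    refine this.trans ?_
    rw [Real.norm_eq_abs, abs_of_nonneg (by linarith [ht.1])]
    have : t - y ≤ y := by linarith [ht.2]
    calc ev * ε / y ^ 2 * (t - y) ≤ ev * ε / y ^ 2 * y :=
          mul_le_mul_of_nonneg_left this (by positivity)
      _ = ev * ε / y := by field_simp
  have s2 := (convex_Icc y (2 * y)).norm_image_sub_le_of_norm_hasDerivWithin_le
    (C := ev * ε / y) (f := fun t : ℝ => b t - (t : ℂ) * b' y)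
    (f' := fun t => b' t - b' y)
    (fun x hx => by
      have i1 := h1 x (hy0.trans_le hx.1)
      have i2 : HasDerivAt (fun t : ℝ => (t : ℂ) * b' y) (1 * b' y) x :=
        (Complex.ofRealCLM.hasDerivAt (x := x)).mul_const (b' y)
      rw [one_mul] at i2
      exact (i1.sub i2).hasDerivWithinAt) (fun x hx => s1 x hx)
    (left_mem_Icc.2 (by linarith)) (right_mem_Icc.2 (by linarith))
  have e1 : ‖(2 * y - y : ℝ)‖ = y := by
    rw [Real.norm_eq_abs, abs_of_nonneg (by linarith)]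
    ring
  rw [e1] at s2
  have e2 : ev * ε / y * y = ev * ε := by field_simp
  rw [e2] at s2
  have e3 : (y : ℂ) * b' y = b (2 * y) - b y -
      ((b (2 * y) - ((2 * y : ℝ) : ℂ) * b' y) - (b y - (y : ℂ) * b' y)) := by
    push_cast
    ring
  rw [dist_zero_right, e3]
  have n1 := hb (2 * y) (by linarith)
  have n2 := hb y le_rfl
  have n3 := norm_sub_le (b (2 * y) - b y)
    ((b (2 * y) - ((2 * y : ℝ) : ℂ) * b' y) - (b y - (y : ℂ) * b' y))
  have n4 := norm_sub_le (b (2 * y)) (b y)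
  have e4 : (2 + ev) * ε = e / 2 := by
    rw [hε]
    field_simp
    ring
  have : ‖b (2 * y) - b y -
      ((b (2 * y) - ((2 * y : ℝ) : ℂ) * b' y) - (b y - (y : ℂ) * b' y))‖ ≤ (2 + ev) * ε := by
    linarith
  linarith

theorem ode_zero_pr {ev : ℝ} (hev : 0 < ev) {b b' : ℝ → ℂ}
    (h1 : ∀ y, 0 < y → HasDerivAt b (b' y) y)
    (h2 : ∀ y, 0 < y → HasDerivAt b' (((-(ev / y ^ 2) : ℝ) : ℂ) * b y) y)
    (h3 : Tendsto b atTop (𝓝 0)) : ∀ y, 0 < y → b y = 0 := by
  obtain ⟨d, hd⟩ := IsAlgClosed.exists_pow_nat_eq (((1 / 4 - ev : ℝ) : ℂ)) (n := 2) (by norm_num)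
  -- the two roots have positive real part
  have hroot : ∀ s : ℂ, s * s - s + ev = 0 → 0 < s.re := by
    intro s hs
    have hre := congrArg Complex.re hs
    have him := congrArg Complex.im hs
    simp only [Complex.add_re, Complex.sub_re, Complex.mul_re, Complex.add_im, Complex.sub_im,
      Complex.mul_im, Complex.ofReal_re, Complex.ofReal_im, Complex.zero_re, Complex.zero_im]
      at hre him
    have h4 : s.im * (2 * s.re - 1) = 0 := by linarith
    rcases mul_eq_zero.1 h4 with h5 | h5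
    · rw [h5] at hre
      nlinarith [sq_nonneg s.re]
    · linarith
  have hr1 : 0 < (1 / 2 + d).re := hroot _ (by
    have : d ^ 2 = 1 / 4 - ev := by rw [hd]; push_cast; ring
    linear_combination this)
  have hr2 : 0 < (1 / 2 - d).re := hroot _ (by
    have : d ^ 2 = 1 / 4 - ev := by rw [hd]; push_cast; ring
    linear_combination this)
  have hyb := o3_yb hev h1 h2 h3
  have hd2 : d ^ 2 = 1 / 4 - ev := by rw [hd]; push_cast; ring
  -- p = y b' - s₂ b
  have hp : ∀ y : ℝ, 0 < y → (y : ℂ) * b' y - (1 / 2 - d) * b y = 0 := by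
    refine o3_first (f := fun y : ℝ => (y : ℂ) * b' y - (1 / 2 - d) * b y)
      (f' := fun y : ℝ => (1 * b' y + (y : ℂ) * (((-(ev / y ^ 2) : ℝ) : ℂ) * b y)) -
        (1 / 2 - d) * b' y) hr1 ?_ ?_ ?_
    · intro y hy
      have i2 : HasDerivAt (fun t : ℝ => (t : ℂ)) 1 y := Complex.ofRealCLM.hasDerivAt (x := y)
      exact (i2.mul (h2 y hy)).sub ((h1 y hy).const_mul (1 / 2 - d))
    · intro y hy
      have hyc : (y : ℂ) ≠ 0 := by exact_mod_cast hy.ne'
      push_cast
      field_simp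
      linear_combination (b y) * hd2 * (-4)
    · have := hyb.sub (h3.const_mul (1 / 2 - d))
      simpa using this
  refine o3_first hr2 h1 (fun y hy => ?_) h3
  have := hp y hy
  linear_combination this

end Pool.Agent.JO.FM

namespace Pool.Agent.JO.FM

theorem ode_zero : type_of% @ode_zero_pr := @ode_zero_pr

end Pool.Agent.JO.FM
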