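import Pool.Agent.Lib_helper45.JO.Defs2

/-!
# Project JO, part FM, block A3: Maass forms are bounded
-/

set_option autoImplicit false

namespace Pool.Agent.JO.FM

open Complex Filter Topology MeasureTheory Set
open UpperHalfPlane hiding I
open scoped MatrixGroups ComplexConjugate

theorem a3_cont {N : ℕ} {χ : DirichletCharacter ℂ N} {k : ℕ} {ev : ℝ} {f : ℍ → ℂ}
    (h : IsMaassForm N χ k ev f) : Continuous f := by
  have h1 := h.smooth.continuousOn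
  have h2 : Continuous (fun z : ℍ => f (ofComplex (z : ℂ))) := by
    refine h1.comp_continuous UpperHalfPlane.continuous_coe ?_
    intro z
    exact z.im_pos
  have h3 : (fun z : ℍ => f (ofComplex (z : ℂ))) = f := by
    funext z
    rw [ofComplex_apply]
  rwa [h3] at h2

theorem a3_smul (g : SL(2, ℤ)) : Continuous (fun z : ℍ => g • z) := by
  have := continuous_const_smul (T := ℍ) ((Matrix.SpecialLinearGroup.mapGL ℝ) g)
  exact this

theorem a3_one {N : ℕ} {χ : DirichletCharacter ℂ N} {k : ℕ} {ev : ℝ} {f : ℍ → ℂ}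
    (h : IsMaassForm N χ k ev f) (τ : SL(2, ℤ)) :
    ∃ C : ℝ, ∀ w ∈ ModularGroup.fd, ‖f (τ • w)‖ ≤ C := by
  have h1 : ∀ᶠ z in atImInfty, ‖f (τ • z)‖ ≤ 1 := by
    have := (h.cusp τ).norm
    rw [norm_zero] at this
    exact this.eventually (eventually_le_nhds one_pos)
  obtain ⟨A, hA⟩ := (atImInfty_mem _).1 h1
  have hc : Continuous (fun w : ℍ => f (τ • w)) := (a3_cont h).comp (a3_smul τ)
  obtain ⟨C, hC⟩ := (ModularGroup.isCompact_truncatedFundamentalDomain A).exists_bound_of_continuousOn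
    hc.continuousOn
  refine ⟨max 1 C, fun w hw => ?_⟩
  rcases le_total A w.im with h2 | h2
  · exact (hA w h2).trans (le_max_left _ _)
  · exact (hC w ⟨hw, h2⟩).trans (le_max_right _ _)

theorem a3_gamma {N : ℕ} {χ : DirichletCharacter ℂ N} {k : ℕ} {ev : ℝ} {f : ℍ → ℂ}
    (h : IsMaassForm N χ k ev f) (γ : SL(2, ℤ)) (hγ : (N : ℤ) ∣ γ 1 0) (z : ℍ) :
    ‖f (γ • z)‖ ≤ ‖f z‖ := by
  rw [h.automorphic γ hγ z, norm_mul, norm_mul, norm_pow]
  have h1 : ‖χ ((γ 1 1 : ℤ) : ZMod N)‖ ≤ 1 := DirichletCharacter.norm_le_one χ _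
  have h2 : ‖denom γ z / ‖denom γ z‖‖ ≤ 1 := by
    rw [norm_div, Complex.norm_real, norm_norm]
    exact div_self_le_one _
  have h3 : ‖denom γ z / ‖denom γ z‖‖ ^ k ≤ 1 := pow_le_one₀ (norm_nonneg _) h2
  calc ‖χ ((γ 1 1 : ℤ) : ZMod N)‖ * ‖denom γ z / ‖denom γ z‖‖ ^ k * ‖f z‖ ≤ 1 * 1 * ‖f z‖ := by
        gcongr
    _ = ‖f z‖ := by ring

theorem maass_bdd_pr {N : ℕ} [NeZero N] {χ : DirichletCharacter ℂ N} {k : ℕ} {ev : ℝ} {f : ℍ → ℂ}
    (h : IsMaassForm N χ k ev f) : ∃ C : ℝ, ∀ z, ‖f z‖ ≤ C := by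
  set R : SL(2, ℤ) →* SL(2, ZMod N) :=
    Matrix.SpecialLinearGroup.map (Int.castRingHom (ZMod N)) with hR
  have h1 : ∀ s : SL(2, ZMod N), ∃ C : ℝ, ∀ σ : SL(2, ℤ), R σ = s → ∀ w ∈ ModularGroup.fd,
      ‖f (σ • w)‖ ≤ C := by
    intro s
    by_cases hs : ∃ τ, R τ = s
    · obtain ⟨τ, hτ⟩ := hs
      obtain ⟨C, hC⟩ := a3_one h τ
      refine ⟨C, fun σ hσ w hw => ?_⟩
      have h2 : R (σ * τ⁻¹) = 1 := by
        rw [map_mul, map_inv, hσ, hτ, mul_inv_cancel]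
      have h3 : (N : ℤ) ∣ (σ * τ⁻¹) 1 0 := by
        have h4 : (R (σ * τ⁻¹)) 1 0 = (1 : SL(2, ZMod N)) 1 0 := by rw [h2]
        rw [hR, Matrix.SpecialLinearGroup.map_apply_coe, RingHom.mapMatrix_apply,
          Matrix.map_apply] at h4
        rw [← ZMod.intCast_zmod_eq_zero_iff_dvd]
        simpa using h4
      have h5 := a3_gamma h (σ * τ⁻¹) h3 (τ • w)
      rw [← mul_smul, inv_mul_cancel_right] at h5
      exact h5.trans (hC w hw)
    · refine ⟨0, fun σ hσ => ?_⟩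
      exact absurd ⟨σ, hσ⟩ hs
  choose C hC using h1
  obtain ⟨B, hB⟩ := (Set.finite_range C).bddAbove
  refine ⟨B, fun z => ?_⟩
  obtain ⟨g, hg⟩ := ModularGroup.exists_smul_mem_fd z
  have h6 := hC (R g⁻¹) g⁻¹ rfl (g • z) hg
  rw [inv_smul_smul] at h6
  exact h6.trans (hB ⟨_, rfl⟩)


end Pool.Agent.JO.FM

namespace Pool.Agent.JO.FM

theorem maass_bdd : type_of% @maass_bdd_pr := @maass_bdd_pr

end Pool.Agent.JO.FM
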