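import Pool.Agent.Lib_helper45.JO.Defs2

/-!
# Project JO, part FM, block A2: slash and period
-/

set_option autoImplicit false

namespace Pool.Agent.JO.FM

open Complex Filter Topology MeasureTheory Set
open UpperHalfPlane hiding I
open scoped MatrixGroups ComplexConjugate

theorem a2_open : IsOpen {z : ℂ | 0 < z.im} := isOpen_lt continuous_const Complex.continuous_im

/-- the derivatives in terms of the real differential -/
theorem a2_dir {h : ℍ → ℂ} {H : ℂ → ℂ} (he : ∀ w : ℍ, h w = H w) {z : ℍ}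
    (hH : DifferentiableAt ℝ H (z : ℂ)) :
    dX h z = fderiv ℝ H z 1 ∧ dY h z = fderiv ℝ H z I := by
  have key : ∀ w : ℂ, 0 < w.im → h (ofComplex w) = H w := by
    intro w hw
    rw [he, ofComplex_apply_of_im_pos hw]
  constructor
  · unfold dX
    have h2 : HasDerivAt (fun t : ℝ => (z : ℂ) + t) 1 0 :=
      (Complex.ofRealCLM.hasDerivAt (x := 0)).const_add (z : ℂ)
    have h3 : HasFDerivAt H (fderiv ℝ H (z : ℂ)) ((z : ℂ) + (0 : ℝ)) := by
      simpa using hH.hasFDerivAt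
    have h4 := h3.comp_hasDerivAt (0 : ℝ) h2
    have h5 : (fun t : ℝ => h (ofComplex ((z : ℂ) + t))) =ᶠ[𝓝 0] H ∘ fun t : ℝ => (z : ℂ) + t := by
      filter_upwards with t
      apply key
      simp [z.im_pos]
    exact (h4.congr_of_eventuallyEq h5).deriv
  · unfold dY
    have h2 : HasDerivAt (fun t : ℝ => (z : ℂ) + t * I) I 0 := by
      simpa using ((Complex.ofRealCLM.hasDerivAt (x := 0)).mul_const I).const_add (z : ℂ)
    have h3 : HasFDerivAt H (fderiv ℝ H (z : ℂ)) ((z : ℂ) + (0 : ℝ) * I) := by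
      simpa using hH.hasFDerivAt
    have h4 := h3.comp_hasDerivAt (0 : ℝ) h2
    have h5 : (fun t : ℝ => h (ofComplex ((z : ℂ) + t * I))) =ᶠ[𝓝 0]
        H ∘ fun t : ℝ => (z : ℂ) + t * I := by
      have h6 : Ioi (-z.im) ∈ 𝓝 (0 : ℝ) := Ioi_mem_nhds (by simp [z.im_pos])
      filter_upwards [h6] with t ht
      apply key
      have ht' : -z.im < t := ht
      have : 0 < z.im + t := by linarith
      simpa using this
    exact (h4.congr_of_eventuallyEq h5).deriv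

/-- the Laplacian of weight `0` -/
theorem a2_lap {g : ℍ → ℂ} (hg : ContDiffOn ℝ 2 (fun z : ℂ => g (ofComplex z)) {z | 0 < z.im})
    (z : ℍ) : lap 0 g z = (z.im : ℂ) ^ 2 *
      (fderiv ℝ (fun w => fderiv ℝ (fun z : ℂ => g (ofComplex z)) w 1) z 1 +
        fderiv ℝ (fun w => fderiv ℝ (fun z : ℂ => g (ofComplex z)) w I) z I) := by
  set G : ℂ → ℂ := fun z : ℂ => g (ofComplex z) with hG
  have h1 : ∀ w : ℍ, DifferentiableAt ℝ G (w : ℂ) := fun w =>
    (hg.differentiableOn (by norm_num)).differentiableAt (a2_open.mem_nhds w.im_pos)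
  have h2 : ∀ w : ℍ, g w = G w := fun w => by rw [hG]; simp
  have h3 : DifferentiableAt ℝ (fderiv ℝ G) (z : ℂ) := by
    have := (hg.fderiv_of_isOpen a2_open (m := 1) (by norm_num)).differentiableOn (by norm_num)
    exact this.differentiableAt (a2_open.mem_nhds z.im_pos)
  have h4 : ∀ v : ℂ, DifferentiableAt ℝ (fun w => fderiv ℝ G w v) (z : ℂ) := fun v =>
    h3.clm_apply (differentiableAt_const v)
  unfold lap
  rw [(a2_dir (h := dX g) (H := fun w => fderiv ℝ G w 1)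
    (fun w => (a2_dir h2 (h1 w)).1) (h4 1)).1,
    (a2_dir (h := dY g) (H := fun w => fderiv ℝ G w I)
    (fun w => (a2_dir h2 (h1 w)).2) (h4 I)).2]
  simp

/-- the Moebius transformation -/
noncomputable def a2_m (σ : SL(2, ℤ)) (w : ℂ) : ℂ :=
  ((σ 0 0 : ℤ) * w + (σ 0 1 : ℤ)) / ((σ 1 0 : ℤ) * w + (σ 1 1 : ℤ))

/-- its derivative -/
noncomputable def a2_d (σ : SL(2, ℤ)) (w : ℂ) : ℂ :=
  1 / (((σ 1 0 : ℤ) : ℂ) * w + (σ 1 1 : ℤ)) ^ 2

theorem a2_coe (σ : SL(2, ℤ)) (z : ℍ) : ((σ • z : ℍ) : ℂ) = a2_m σ z := by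
  rw [coe_specialLinearGroup_apply]
  unfold a2_m
  simp

theorem a2_den (σ : SL(2, ℤ)) (z : ℍ) : ((σ 1 0 : ℤ) : ℂ) * z + (σ 1 1 : ℤ) ≠ 0 := by
  have := UpperHalfPlane.denom_ne_zero (σ : GL (Fin 2) ℝ) z
  rwa [ModularGroup.denom_apply] at this

theorem a2_den' (σ : SL(2, ℤ)) {w : ℂ} (hw : 0 < w.im) :
    ((σ 1 0 : ℤ) : ℂ) * w + (σ 1 1 : ℤ) ≠ 0 := a2_den σ ⟨w, hw⟩

theorem a2_der (σ : SL(2, ℤ)) {w : ℂ} (hw : 0 < w.im) : HasDerivAt (a2_m σ) (a2_d σ w) w := by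
  have h1 : HasDerivAt (fun w : ℂ => ((σ 0 0 : ℤ) : ℂ) * w + (σ 0 1 : ℤ)) (σ 0 0 : ℤ) w := by
    simpa using ((hasDerivAt_id w).const_mul ((σ 0 0 : ℤ) : ℂ)).add_const ((σ 0 1 : ℤ) : ℂ)
  have h2 : HasDerivAt (fun w : ℂ => ((σ 1 0 : ℤ) : ℂ) * w + (σ 1 1 : ℤ)) (σ 1 0 : ℤ) w := by
    simpa using ((hasDerivAt_id w).const_mul ((σ 1 0 : ℤ) : ℂ)).add_const ((σ 1 1 : ℤ) : ℂ)
  refine (h1.div h2 (a2_den' σ hw)).congr_deriv ?_
  unfold a2_d
  congr 1
  have hdet := σ.det_coe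
  rw [Matrix.det_fin_two] at hdet
  have hdet' : ((σ 0 0 : ℤ) : ℂ) * (σ 1 1 : ℤ) - (σ 0 1 : ℤ) * (σ 1 0 : ℤ) = 1 := by
    exact_mod_cast hdet
  linear_combination hdet'

theorem a2_comp (f : ℍ → ℂ) (σ : SL(2, ℤ)) {w : ℂ} (hw : 0 < w.im) :
    f (σ • ofComplex w) = f (ofComplex (a2_m σ w)) := by
  congr 1
  have h1 : w = ((ofComplex w : ℍ) : ℂ) := by
    rw [ofComplex_apply_of_im_pos hw]
  conv_rhs => rw [h1, ← a2_coe, ofComplex_apply]

theorem a2_maps (σ : SL(2, ℤ)) {w : ℂ} (hw : 0 < w.im) : 0 < (a2_m σ w).im := by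
  have h := (σ • (⟨w, hw⟩ : ℍ)).im_pos
  have h2 := a2_coe σ ⟨w, hw⟩
  rw [← UpperHalfPlane.coe_im, h2] at h
  exact h

theorem a2_smooth {f : ℍ → ℂ}
    (hf : ContDiffOn ℝ 2 (fun z : ℂ => f (ofComplex z)) {z | 0 < z.im}) (σ : SL(2, ℤ)) :
    ContDiffOn ℝ 2 (fun z : ℂ => f (σ • ofComplex z)) {z | 0 < z.im} := by
  have h0 : DifferentiableOn ℂ (a2_m σ) {z | 0 < z.im} := fun w hw =>
    (a2_der σ hw).differentiableAt.differentiableWithinAt
  have h1 : ContDiffOn ℝ 2 (a2_m σ) {z | 0 < z.im} :=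
    (h0.contDiffOn (n := 2) a2_open).restrict_scalars ℝ
  exact (hf.comp h1 (fun w hw => a2_maps σ hw)).congr (fun w hw => a2_comp f σ hw)

theorem a2_alg' (B : ℂ →L[ℝ] ℂ →L[ℝ] ℂ) (p q : ℝ) :
    B (p • (1 : ℂ) + q • I) (p • (1 : ℂ) + q • I) + B (-(q • (1 : ℂ)) + p • I)
      (-(q • (1 : ℂ)) + p • I) = ((p * p + q * q : ℝ) : ℂ) * (B 1 1 + B I I) := by
  simp only [map_add, map_neg, map_smul, add_apply, neg_apply, smul_apply]
  simp only [Complex.real_smul]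
  push_cast
  ring

theorem a2_alg (B : ℂ →L[ℝ] ℂ →L[ℝ] ℂ) (μ : ℂ) :
    B μ μ + B (μ * I) (μ * I) = (Complex.normSq μ : ℂ) * (B 1 1 + B I I) := by
  have h1 : μ = μ.re • (1 : ℂ) + μ.im • I := by
    apply Complex.ext <;> simp
  have h2 : μ * I = -(μ.im • (1 : ℂ)) + μ.re • I := by
    apply Complex.ext <;> simp
  have h3 := a2_alg' B μ.re μ.im
  rw [← h1, ← h2] at h3
  rw [h3, Complex.normSq_apply]

/-- the second derivative of a composition with a holomorphic function -/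
theorem a2_second {F G : ℂ → ℂ} {m m' : ℂ → ℂ} {m'' : ℂ} (hF : ContDiffOn ℝ 2 F {z | 0 < z.im})
    (hm : ∀ w : ℂ, 0 < w.im → 0 < (m w).im) (hd : ∀ w : ℂ, 0 < w.im → HasDerivAt m (m' w) w)
    (hG : ∀ w : ℂ, 0 < w.im → G w = F (m w)) {z : ℂ} (hz : 0 < z.im) (hd2 : HasDerivAt m' m'' z)
    (v : ℂ) : fderiv ℝ (fun w => fderiv ℝ G w v) z v =
      fderiv ℝ F (m z) (m'' * v * v) + fderiv ℝ (fderiv ℝ F) (m z) (m' z * v) (m' z * v) := by
  have hF1 : ∀ w : ℂ, 0 < w.im → DifferentiableAt ℝ F w := fun w hw =>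
    (hF.differentiableOn (by norm_num)).differentiableAt (a2_open.mem_nhds hw)
  have hF2 : DifferentiableAt ℝ (fderiv ℝ F) (m z) := by
    have := (hF.fderiv_of_isOpen a2_open (m := 1) (by norm_num)).differentiableOn (by norm_num)
    exact this.differentiableAt (a2_open.mem_nhds (hm z hz))
  have hmf : ∀ w : ℂ, 0 < w.im → HasFDerivAt m ((ContinuousLinearMap.toSpanSingleton ℂ
      (m' w)).restrictScalars ℝ) w := fun w hw => (hd w hw).hasFDerivAt.restrictScalars ℝ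
  have e1 : (fun w => fderiv ℝ G w v) =ᶠ[𝓝 z] fun w => fderiv ℝ F (m w) (m' w * v) := by
    filter_upwards [a2_open.mem_nhds hz] with w hw
    have h1 : G =ᶠ[𝓝 w] F ∘ m := by
      filter_upwards [a2_open.mem_nhds hw] with w' hw'
      exact hG w' hw'
    rw [h1.fderiv_eq, ((hF1 (m w) (hm w hw)).hasFDerivAt.comp w (hmf w hw)).fderiv]
    simp [mul_comm]
  rw [e1.fderiv_eq]
  have h2 : HasFDerivAt (fun w => fderiv ℝ F (m w))
      ((fderiv ℝ (fderiv ℝ F) (m z)).comp ((ContinuousLinearMap.toSpanSingleton ℂ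
      (m' z)).restrictScalars ℝ)) z := hF2.hasFDerivAt.comp z (hmf z hz)
  have h3 : HasFDerivAt (fun w => m' w * v) ((ContinuousLinearMap.toSpanSingleton ℂ
      (m'' * v)).restrictScalars ℝ) z := (hd2.mul_const v).hasFDerivAt.restrictScalars ℝ
  rw [(h2.clm_apply h3).fderiv]
  simp [mul_comm, mul_assoc]

theorem a2_inv {f : ℍ → ℂ} (hf : ContDiffOn ℝ 2 (fun z : ℂ => f (ofComplex z)) {z | 0 < z.im})
    (σ : SL(2, ℤ)) (z : ℍ) : lap 0 (fun w => f (σ • w)) z = lap 0 f (σ • z) := by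
  rw [a2_lap (a2_smooth hf σ), a2_lap hf]
  have hd2 : HasDerivAt (a2_d σ) (deriv (a2_d σ) z) (z : ℂ) := by
    apply DifferentiableAt.hasDerivAt
    unfold a2_d
    have h := a2_den σ z
    exact (differentiableAt_const (1 : ℂ)).div (by fun_prop) (pow_ne_zero 2 h)
  have key := a2_second (F := fun z : ℂ => f (ofComplex z)) (G := fun z : ℂ => f (σ • ofComplex z))
    hf (fun w hw => a2_maps σ hw) (fun w hw => a2_der σ hw) (fun w hw => a2_comp f σ hw)
    z.im_pos hd2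
  rw [key 1, key I, ← a2_coe]
  set F : ℂ → ℂ := fun z : ℂ => f (ofComplex z) with hFd
  have hF2 : DifferentiableAt ℝ (fderiv ℝ F) ((σ • z : ℍ) : ℂ) := by
    have := (hf.fderiv_of_isOpen a2_open (m := 1) (by norm_num)).differentiableOn (by norm_num)
    exact this.differentiableAt (a2_open.mem_nhds (σ • z).im_pos)
  have hv : ∀ v : ℂ, fderiv ℝ (fun w => fderiv ℝ F w v) ((σ • z : ℍ) : ℂ) v =
      fderiv ℝ (fderiv ℝ F) ((σ • z : ℍ) : ℂ) v v := by
    intro v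
    rw [(hF2.hasFDerivAt.clm_apply (hasFDerivAt_const v _)).fderiv]
    simp
  rw [hv 1, hv I]
  have him : ((σ • z).im : ℂ) ^ 2 = (z.im : ℂ) ^ 2 * (Complex.normSq (a2_d σ z) : ℂ) := by
    have : (σ • z).im ^ 2 = z.im ^ 2 * Complex.normSq (a2_d σ z) := by
      rw [ModularGroup.im_smul_eq_div_normSq, ModularGroup.denom_apply]
      unfold a2_d
      rw [map_div₀, map_one, map_pow, div_pow]
      ring
    exact_mod_cast this
  rw [him, mul_assoc ((z.im : ℂ) ^ 2), ← a2_alg (fderiv ℝ (fderiv ℝ F) ((σ • z : ℍ) : ℂ)) (a2_d σ z)]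
  congr 1
  have hI : deriv (a2_d σ) z * I * I = -(deriv (a2_d σ) z * 1 * 1) := by
    rw [mul_assoc, Complex.I_mul_I]
    ring
  rw [hI, map_neg, mul_one (a2_d σ z)]
  ring

theorem a2_pz {x y : ℝ} (hy : 0 < y) : ((pz x y : ℍ) : ℂ) = x + y * I := by
  unfold pz
  rw [ofComplex_apply_of_im_pos (by simpa using hy)]

theorem a2_shift (n : ℤ) {x y : ℝ} (hy : 0 < y) :
    pz (x + n) y = ModularGroup.T ^ n • pz x y := by
  apply UpperHalfPlane.ext'
  · rw [ModularGroup.re_T_zpow_smul]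
    rw [← UpperHalfPlane.coe_re, ← UpperHalfPlane.coe_re, a2_pz hy, a2_pz hy]
    simp
  · rw [ModularGroup.im_T_zpow_smul]
    rw [← UpperHalfPlane.coe_im, ← UpperHalfPlane.coe_im, a2_pz hy, a2_pz hy]
    simp

theorem perEig_slash_pr {N : ℕ} [NeZero N] {χ : DirichletCharacter ℂ N} {ev : ℝ} {f : ℍ → ℂ}
    (h : IsMaassForm N χ 0 ev f) (σ : SL(2, ℤ)) : PerEig N 0 ev (fun z => f (σ • z)) where
  smooth := a2_smooth h.smooth σ
  eigen z := by rw [a2_inv h.smooth σ z, h.eigen]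
  per x y hy := by
    have h1 := a2_shift N (x := x) hy
    push_cast at h1
    rw [h1]
    set w := pz x y
    have h2 : σ • (ModularGroup.T ^ (N : ℤ) • w) =
        (σ * ModularGroup.T ^ (N : ℤ) * σ⁻¹) • (σ • w) := by
      simp only [mul_smul, inv_smul_smul]
    show f (σ • (ModularGroup.T ^ (N : ℤ) • w)) = f (σ • w)
    rw [h2]
    have e10 : (σ * ModularGroup.T ^ (N : ℤ) * σ⁻¹ : SL(2, ℤ)) 1 0 = -(N * (σ 1 0) ^ 2) := by
      rw [Matrix.SpecialLinearGroup.coe_mul, Matrix.SpecialLinearGroup.coe_mul,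
        ModularGroup.coe_T_zpow, Matrix.SpecialLinearGroup.coe_inv, Matrix.adjugate_fin_two]
      simp [Matrix.mul_apply, Fin.sum_univ_two]
      ring
    have e11 : (σ * ModularGroup.T ^ (N : ℤ) * σ⁻¹ : SL(2, ℤ)) 1 1 = 1 + N * (σ 0 0 * σ 1 0) := by
      have hdet := σ.det_coe
      rw [Matrix.det_fin_two] at hdet
      rw [Matrix.SpecialLinearGroup.coe_mul, Matrix.SpecialLinearGroup.coe_mul,
        ModularGroup.coe_T_zpow, Matrix.SpecialLinearGroup.coe_inv, Matrix.adjugate_fin_two]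
      simp [Matrix.mul_apply, Fin.sum_univ_two]
      linear_combination hdet
    rw [h.automorphic _ (by rw [e10]; exact ⟨-(σ 1 0) ^ 2, by ring⟩), e11]
    simp
  cusp := h.cusp σ

theorem perEig_one_pr {N : ℕ} [NeZero N] {χ : DirichletCharacter ℂ N} {k : ℕ} {ev : ℝ} {f : ℍ → ℂ}
    (h : IsMaassForm N χ k ev f) : PerEig 1 k ev f where
  smooth := h.smooth
  eigen := h.eigen
  per x y hy := by
    have h1 := a2_shift 1 (x := x) hy
    rw [zpow_one] at h1
    push_cast at h1 ⊢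
    rw [h1, h.automorphic _ (by simp [ModularGroup.T]), ModularGroup.denom_apply]
    simp [ModularGroup.T]
  cusp := by
    have := h.cusp 1
    simpa using this


end Pool.Agent.JO.FM

namespace Pool.Agent.JO.FM

theorem perEig_slash : type_of% @perEig_slash_pr := @perEig_slash_pr
theorem perEig_one : type_of% @perEig_one_pr := @perEig_one_pr

end Pool.Agent.JO.FM
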