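import Pool.Agent.Lib_helper45.JO.Defs2

/-! # JO, part FM, block K4: a beta integral (helper47) -/

set_option autoImplicit false

namespace Pool.Agent.JO.FM

open Complex Filter Topology MeasureTheory Set
open UpperHalfPlane hiding I
open scoped MatrixGroups ComplexConjugate

theorem k4_cpow {x : ℝ} (hx : 0 < x) (a : ℂ) : (x : ℂ) ^ a = cexp ((Real.log x : ℝ) * a) := by
  rw [Complex.cpow_def_of_ne_zero (ofReal_ne_zero.2 hx.ne'), Complex.ofReal_log hx.le]

theorem k4_lgs (u : ℝ) : SP.lgs (2 * u) = Real.exp u / (2 * Real.cosh u) := by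
  unfold SP.lgs
  rw [Real.cosh_eq, div_eq_div_iff (by positivity) (by positivity)]
  have : Real.exp (-(2 * u)) * Real.exp u = Real.exp (-u) := by
    rw [← Real.exp_add]
    congr 1
    ring
  linear_combination (-1 : ℝ) * this

theorem k4_lgs' (u : ℝ) : 1 - SP.lgs (2 * u) = Real.exp (-u) / (2 * Real.cosh u) := by
  rw [k4_lgs, Real.cosh_eq]
  have h1 := Real.exp_pos u
  have h2 := Real.exp_pos (-u)
  field_simp
  ring

theorem k4_key (μ s : ℂ) (u : ℝ) :
    |SP.qq 1 (2 * u)| • (((SP.lgs (2 * u) : ℝ) : ℂ) ^ ((s + μ) / 2 - 1) *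
      (1 - ((SP.lgs (2 * u) : ℝ) : ℂ)) ^ ((s - μ) / 2 - 1)) =
    (2 : ℂ) ^ (-s) * (cexp (μ * u) * ((Real.cosh u : ℝ) : ℂ) ^ (-s)) := by
  have hp := SP.lgs_pos (2 * u)
  have hq : 0 < 1 - SP.lgs (2 * u) := by linarith [SP.lgs_lt (2 * u)]
  have hc := Real.cosh_pos u
  have hqq : 0 < SP.qq 1 (2 * u) := by rw [← SP.lgs_mul]; positivity
  rw [abs_of_pos hqq, ← SP.lgs_mul, Complex.real_smul]
  have e1 : (1 - ((SP.lgs (2 * u) : ℝ) : ℂ)) = (((1 - SP.lgs (2 * u) : ℝ)) : ℂ) := by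
    push_cast
    ring
  rw [e1]
  have hlp : Real.log (SP.lgs (2 * u)) = u - (Real.log 2 + Real.log (Real.cosh u)) := by
    rw [k4_lgs, Real.log_div (Real.exp_pos _).ne' (by positivity), Real.log_exp,
      Real.log_mul two_ne_zero hc.ne']
  have hlq : Real.log (1 - SP.lgs (2 * u)) = -u - (Real.log 2 + Real.log (Real.cosh u)) := by
    rw [k4_lgs', Real.log_div (Real.exp_pos _).ne' (by positivity), Real.log_exp,
      Real.log_mul two_ne_zero hc.ne']
  have hp' : ((SP.lgs (2 * u) : ℝ) : ℂ) = cexp (((u - (Real.log 2 + Real.log (Real.cosh u)) : ℝ)) : ℂ) := by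
    rw [← hlp, ← Complex.ofReal_exp, Real.exp_log hp]
  have hq' : (((1 - SP.lgs (2 * u) : ℝ)) : ℂ) =
      cexp (((-u - (Real.log 2 + Real.log (Real.cosh u)) : ℝ)) : ℂ) := by
    rw [← hlq, ← Complex.ofReal_exp, Real.exp_log hq]
  have h2 : (2 : ℂ) ^ (-s) = cexp ((Real.log 2 : ℝ) * (-s)) := by
    have := k4_cpow (x := 2) two_pos (-s)
    rw [← this]
    norm_num
  rw [k4_cpow hp, k4_cpow hq, k4_cpow hc, h2, hlp, hlq, Complex.ofReal_mul, hp', hq']
  simp only [← Complex.exp_add]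
  congr 1
  push_cast
  ring

theorem cosh_int_pr {μ s : ℂ} (hs : |μ.re| < s.re) :
    Integrable (fun u : ℝ => cexp (μ * u) * ((Real.cosh u : ℝ) : ℂ) ^ (-s)) ∧
    ∫ u : ℝ, cexp (μ * u) * ((Real.cosh u : ℝ) : ℂ) ^ (-s) =
      (2 : ℂ) ^ (s - 1) * Gamma ((s + μ) / 2) * Gamma ((s - μ) / 2) / Gamma s := by
  have hab := abs_lt.1 hs
  have ha : 0 < ((s + μ) / 2).re := by
    have : ((s + μ) / 2).re = (s.re + μ.re) / 2 := by
      rw [Complex.div_re]
      simp
      ring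
    rw [this]
    linarith
  have hb : 0 < ((s - μ) / 2).re := by
    have : ((s - μ) / 2).re = (s.re - μ.re) / 2 := by
      rw [Complex.div_re]
      simp
      ring
    rw [this]
    linarith
  have hs0 : 0 < s.re := (abs_nonneg _).trans_lt hs
  set g : ℝ → ℂ := fun x => (x : ℂ) ^ ((s + μ) / 2 - 1) * (1 - (x : ℂ)) ^ ((s - μ) / 2 - 1) with hg
  have hconv : IntegrableOn g (Ioo 0 1) := by
    have := Complex.betaIntegral_convergent ha hb
    rw [intervalIntegrable_iff_integrableOn_Ioo_of_le zero_le_one] at this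
    exact this
  have hi := integrableOn_image_iff_integrableOn_abs_deriv_smul (s := univ) (f := SP.lgs)
    (f' := fun τ => SP.qq 1 τ) MeasurableSet.univ (fun τ _ => (SP.lgs_deriv τ).hasDerivWithinAt)
    SP.lgs_inj g
  have he := integral_image_eq_integral_abs_deriv_smul (s := univ) (f := SP.lgs)
    (f' := fun τ => SP.qq 1 τ) MeasurableSet.univ (fun τ _ => (SP.lgs_deriv τ).hasDerivWithinAt)
    SP.lgs_inj g
  rw [SP.lgs_image, integrableOn_univ] at hi
  rw [SP.lgs_image, setIntegral_univ] at he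
  have hF := hi.1 hconv
  have hF2 := hF.comp_mul_left' (R := 2) two_ne_zero
  have hcong : (fun u : ℝ => |SP.qq 1 (2 * u)| • g (SP.lgs (2 * u))) =
      fun u : ℝ => (2 : ℂ) ^ (-s) * (cexp (μ * u) * ((Real.cosh u : ℝ) : ℂ) ^ (-s)) := by
    funext u
    exact k4_key μ s u
  have h2ne : (2 : ℂ) ^ (-s) ≠ 0 := by
    rw [Ne, Complex.cpow_eq_zero_iff]
    rintro ⟨h, -⟩
    exact two_ne_zero h
  have hI : Integrable (fun u : ℝ => (2 : ℂ) ^ (-s) *
      (cexp (μ * u) * ((Real.cosh u : ℝ) : ℂ) ^ (-s))) := by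
    rw [← hcong]
    exact hF2
  refine ⟨?_, ?_⟩
  · have h3 := hI.const_mul ((2 : ℂ) ^ (-s))⁻¹
    refine h3.congr (Eventually.of_forall fun u => ?_)
    simp only
    rw [← mul_assoc, inv_mul_cancel₀ h2ne, one_mul]
  · have h4 := Measure.integral_comp_mul_left (fun τ : ℝ => |SP.qq 1 τ| • g (SP.lgs τ)) 2
    rw [hcong, ← he, integral_const_mul] at h4
    have h5 : ∫ x in Ioo (0 : ℝ) 1, g x = Complex.betaIntegral ((s + μ) / 2) ((s - μ) / 2) := by
      rw [Complex.betaIntegral, intervalIntegral.integral_of_le zero_le_one,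
        integral_Ioc_eq_integral_Ioo]
    rw [h5] at h4
    have h6 := Complex.Gamma_mul_Gamma_eq_betaIntegral ha hb
    have h7 : (s + μ) / 2 + (s - μ) / 2 = s := by ring
    rw [h7] at h6
    have hG : Gamma s ≠ 0 := Complex.Gamma_ne_zero_of_re_pos hs0
    have h8 : |(2 : ℝ)⁻¹| = 2⁻¹ := abs_of_pos (by norm_num)
    rw [h8, Complex.real_smul] at h4
    have h9 : (2 : ℂ) ^ (s - 1) = ((2 : ℂ) ^ (-s))⁻¹ / 2 := by
      rw [Complex.cpow_sub _ _ two_ne_zero, Complex.cpow_one, Complex.cpow_neg, inv_inv]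
    rw [h9, eq_div_iff hG, mul_assoc _ (Gamma ((s + μ) / 2)), h6]
    have h10 : ∫ u : ℝ, cexp (μ * u) * ((Real.cosh u : ℝ) : ℂ) ^ (-s) =
        ((2 : ℂ) ^ (-s))⁻¹ * (((2⁻¹ : ℝ) : ℂ) * Complex.betaIntegral ((s + μ) / 2) ((s - μ) / 2)) := by
      rw [← h4, ← mul_assoc, inv_mul_cancel₀ h2ne, one_mul]
    rw [h10]
    push_cast
    ring

theorem Gamma_half_sq_pr (t : ℝ) : ‖Gamma (ha t)‖ ^ 2 = Real.pi / Real.cosh (Real.pi * t) := by
  have h1 := Complex.Gamma_mul_Gamma_one_sub (ha t)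
  have h2 : 1 - ha t = conj (ha t) := by
    unfold ha
    simp only [map_add, map_mul, Complex.conj_ofReal, Complex.conj_I, map_div₀, map_one,
      map_ofNat]
    ring
  rw [h2, Complex.Gamma_conj, Complex.mul_conj, Complex.normSq_eq_norm_sq] at h1
  have h3 : Complex.sin (Real.pi * ha t) = ((Real.cosh (Real.pi * t) : ℝ) : ℂ) := by
    have e : (Real.pi : ℂ) * ha t = Real.pi / 2 + (((Real.pi * t : ℝ)) : ℂ) * I := by
      unfold ha
      push_cast
      ring
    rw [e, add_comm, Complex.sin_add_pi_div_two, Complex.cos_mul_I, Complex.ofReal_cosh]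
  rw [h3] at h1
  exact_mod_cast h1

end Pool.Agent.JO.FM

namespace Pool.Agent.JO.FM

theorem cosh_int : type_of% @cosh_int_pr := @cosh_int_pr
theorem Gamma_half_sq : type_of% @Gamma_half_sq_pr := @Gamma_half_sq_pr

end Pool.Agent.JO.FM
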