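import Pool.Agent.Lib_helper45.JO.Defs2
import Pool.Agent.Lib_helper98.H4F.GG

/-! Project JO, part FM, block K5: the ratio of two Gamma functions. -/

set_option autoImplicit false

namespace Pool.Agent.JO.FM

open Complex Filter Topology MeasureTheory Set
open UpperHalfPlane hiding I
open scoped MatrixGroups ComplexConjugate

/-- the difference of the two kernels -/
noncomputable def k5_r (u : ℝ) : ℝ := (1 - Real.exp (-u)) ^ (-(1 / 2 : ℝ)) - u ^ (-(1 / 2 : ℝ))

/-- its derivative -/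
noncomputable def k5_r' (u : ℝ) : ℝ :=
  (1 / 2) * (u ^ (-(3 / 2 : ℝ)) - Real.exp (-u) * (1 - Real.exp (-u)) ^ (-(3 / 2 : ℝ)))

theorem k5_A_pos {u : ℝ} (hu : 0 < u) : 0 < 1 - Real.exp (-u) := by
  have : Real.exp (-u) < 1 := by
    rw [← Real.exp_zero]
    exact Real.exp_lt_exp.2 (by linarith)
  linarith

theorem k5_A_le (u : ℝ) : 1 - Real.exp (-u) ≤ u := by
  have := Real.add_one_le_exp (-u)
  linarith

theorem k5_deriv {u : ℝ} (hu : 0 < u) : HasDerivAt k5_r (k5_r' u) u := by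
  have hA := k5_A_pos hu
  have h1 : HasDerivAt (fun u : ℝ => 1 - Real.exp (-u)) (Real.exp (-u)) u := by
    have := ((hasDerivAt_neg u).exp).const_sub 1
    simpa using this
  have h2 := h1.rpow_const (p := -(1 / 2 : ℝ)) (Or.inl hA.ne')
  have h3 := (hasDerivAt_id u).rpow_const (p := -(1 / 2 : ℝ)) (Or.inl hu.ne')
  have h4 := h2.sub h3
  refine h4.congr_deriv ?_
  unfold k5_r'
  have e : (-(1 / 2 : ℝ)) - 1 = -(3 / 2 : ℝ) := by norm_num
  simp only [id] at *
  rw [e]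
  ring

theorem k5_nonneg {u : ℝ} (hu : 0 < u) : 0 ≤ k5_r' u := by
  have hA := k5_A_pos hu
  unfold k5_r'
  -- `u e^{-2u/3} ≤ 1 - e^{-u}`
  set v : ℝ := u / 3 with hv
  have hv0 : 0 < v := by positivity
  have huv : u = 3 * v := by rw [hv]; ring
  have h1 : 1 + 2 * v + (2 * v) ^ 2 / 2 ≤ Real.exp (2 * v) :=
    Real.quadratic_le_exp_of_nonneg (by positivity)
  have h2 : Real.exp (-v) ≤ 1 - v + v ^ 2 := by
    have h3 := Real.add_one_le_exp v
    have h4 : Real.exp (-v) * Real.exp v = 1 := by rw [← Real.exp_add]; simp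
    have h5 : 0 < Real.exp (-v) := Real.exp_pos _
    have h6 : Real.exp (-v) * (v + 1) ≤ 1 := by nlinarith
    have h7 : (1 : ℝ) ≤ (1 - v + v ^ 2) * (v + 1) := by nlinarith [pow_pos hv0 3]
    by_contra hcon
    push Not at hcon
    nlinarith
  have h3 : u * Real.exp (-(2 * v)) ≤ 1 - Real.exp (-u) := by
    have h4 : 3 * v ≤ Real.exp (2 * v) - Real.exp (-v) := by nlinarith
    have h5 : Real.exp (2 * v) * Real.exp (-(2 * v)) = 1 := by rw [← Real.exp_add]; simp
    have h6 : Real.exp (-v) * Real.exp (-(2 * v)) = Real.exp (-u) := by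
      rw [← Real.exp_add, huv]; ring_nf
    have h7 : 0 < Real.exp (-(2 * v)) := Real.exp_pos _
    have h8 := mul_le_mul_of_nonneg_right h4 h7.le
    rw [sub_mul, h5, h6] at h8
    rw [huv] at *
    linarith
  have h4 : Real.exp (-u) * (1 - Real.exp (-u)) ^ (-(3 / 2 : ℝ)) ≤ u ^ (-(3 / 2 : ℝ)) := by
    have h5 : (u * Real.exp (-(2 * v))) ^ (3 / 2 : ℝ) ≤ (1 - Real.exp (-u)) ^ (3 / 2 : ℝ) :=
      Real.rpow_le_rpow (by positivity) h3 (by norm_num)
    have h6 : (u * Real.exp (-(2 * v))) ^ (3 / 2 : ℝ) = u ^ (3 / 2 : ℝ) * Real.exp (-u) := by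
      rw [Real.mul_rpow hu.le (Real.exp_pos _).le, ← Real.exp_mul]
      congr 2
      rw [huv]; ring
    rw [h6] at h5
    have h7 : 0 < u ^ (3 / 2 : ℝ) := Real.rpow_pos_of_pos hu _
    have h8 : 0 < (1 - Real.exp (-u)) ^ (3 / 2 : ℝ) := Real.rpow_pos_of_pos hA _
    rw [Real.rpow_neg hA.le, Real.rpow_neg hu.le, ← div_eq_mul_inv, div_le_iff₀ h8,
      ← div_eq_inv_mul, le_div_iff₀ h7]
    linarith
  linarith

theorem k5_bd {u : ℝ} (hu : 0 < u) (hu1 : u ≤ 1) : 0 ≤ k5_r u ∧ k5_r u ≤ Real.sqrt u := by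
  have hA := k5_A_pos hu
  have hA1 := k5_A_le u
  set A := 1 - Real.exp (-u) with hAdef
  have e1 : A ^ (-(1 / 2 : ℝ)) = (Real.sqrt A)⁻¹ := by
    rw [Real.rpow_neg hA.le, Real.sqrt_eq_rpow]
  have e2 : u ^ (-(1 / 2 : ℝ)) = (Real.sqrt u)⁻¹ := by
    rw [Real.rpow_neg hu.le, Real.sqrt_eq_rpow]
  have sA : 0 < Real.sqrt A := Real.sqrt_pos.2 hA
  have su : 0 < Real.sqrt u := Real.sqrt_pos.2 hu
  have hle : Real.sqrt A ≤ Real.sqrt u := Real.sqrt_le_sqrt hA1
  have hr : k5_r u = (Real.sqrt A)⁻¹ - (Real.sqrt u)⁻¹ := by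
    unfold k5_r
    rw [← hAdef, e1, e2]
  have hAl : u / 2 ≤ A := by
    -- `e^{-u} ≤ 1 - u + u²/2`
    have h3 := Real.add_one_le_exp u
    have h4 : Real.exp (-u) * Real.exp u = 1 := by rw [← Real.exp_add]; simp
    have h5 : 0 < Real.exp (-u) := Real.exp_pos _
    have h6 : Real.exp (-u) * (u + 1) ≤ 1 := by nlinarith
    rw [hAdef]
    nlinarith
  have hAq : u - A ≤ u ^ 2 := by
    have h3 := Real.add_one_le_exp u
    have h4 : Real.exp (-u) * Real.exp u = 1 := by rw [← Real.exp_add]; simp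
    have h5 : 0 < Real.exp (-u) := Real.exp_pos _
    have h6 : Real.exp (-u) * (u + 1) ≤ 1 := by nlinarith
    rw [hAdef]
    by_contra hcon
    push Not at hcon
    nlinarith [mul_pos hu hu, mul_pos (mul_pos hu hu) hu]
  have qA : Real.sqrt A ^ 2 = A := Real.sq_sqrt hA.le
  have qu : Real.sqrt u ^ 2 = u := Real.sq_sqrt hu.le
  constructor
  · rw [hr]
    have := inv_anti₀ sA hle
    linarith
  · rw [hr]
    set a := Real.sqrt A
    set b := Real.sqrt u
    have hb1 : b ≤ 1 := by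
      rw [show (1 : ℝ) = Real.sqrt 1 by simp]
      exact Real.sqrt_le_sqrt hu1
    have key : b - a ≤ b * (a * b) := by
      -- (b - a)(b + a) ≤ b^4, and a ≥ b/2, so b (b+a) a ≥ ...
      have h1 : (b - a) * (b + a) ≤ b ^ 4 := by nlinarith
      have h2 : b ^ 2 / 2 ≤ a ^ 2 := by nlinarith
      have h3 : b / 2 ≤ a := by nlinarith
      have h4 : b ^ 4 ≤ b * (a * b) * (b + a) := by
        have h5 : b ^ 2 ≤ a * (b + a) := by nlinarith
        nlinarith [mul_pos su su]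
      by_contra hcon
      push Not at hcon
      nlinarith
    rw [inv_sub_inv sA.ne' su.ne', div_le_iff₀ (mul_pos sA su)]
    exact key

theorem k5_cont : ContinuousWithinAt k5_r (Ici 0) 0 := by
  have h0 : k5_r 0 = 0 := by
    unfold k5_r
    simp
  rw [ContinuousWithinAt, h0]
  have h1 : Tendsto (fun u : ℝ => Real.sqrt u) (𝓝[Ici 0] 0) (𝓝 0) := by
    have := (Real.continuous_sqrt.tendsto 0)
    rw [Real.sqrt_zero] at this
    exact this.mono_left nhdsWithin_le_nhds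
  refine squeeze_zero' ?_ ?_ h1
  · have : ∀ᶠ u : ℝ in 𝓝[Ici 0] 0, u ∈ Icc (0 : ℝ) 1 := by
      have := Icc_mem_nhdsGE (zero_lt_one' ℝ)
      exact this
    filter_upwards [this] with u hu
    rcases hu.1.eq_or_lt with h | h
    · rw [← h, h0]
    · exact (k5_bd h hu.2).1
  · have : ∀ᶠ u : ℝ in 𝓝[Ici 0] 0, u ∈ Icc (0 : ℝ) 1 := by
      have := Icc_mem_nhdsGE (zero_lt_one' ℝ)
      exact this
    filter_upwards [this] with u hu
    rcases hu.1.eq_or_lt with h | h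
    · rw [← h, h0]; simp
    · exact (k5_bd h hu.2).2

theorem k5_top : Tendsto k5_r atTop (𝓝 1) := by
  have h1 : Tendsto (fun u : ℝ => 1 - Real.exp (-u)) atTop (𝓝 1) := by
    have := (Real.tendsto_exp_neg_atTop_nhds_zero).const_sub 1
    simpa using this
  have h2 : Tendsto (fun u : ℝ => (1 - Real.exp (-u)) ^ (-(1 / 2 : ℝ))) atTop (𝓝 1) := by
    have := h1.rpow_const (p := -(1 / 2 : ℝ)) (Or.inl one_ne_zero)
    rwa [Real.one_rpow] at this
  have h3 : Tendsto (fun u : ℝ => u ^ (-(1 / 2 : ℝ))) atTop (𝓝 0) :=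
    tendsto_rpow_neg_atTop (by norm_num)
  have := h2.sub h3
  rwa [sub_zero] at this

theorem k5_int' : IntegrableOn k5_r' (Ioi 0) :=
  integrableOn_Ioi_deriv_of_nonneg k5_cont (fun _ hx => k5_deriv hx) (fun _ hx => k5_nonneg hx)
    k5_top

theorem k5_integral : ∫ u in Ioi (0 : ℝ), k5_r' u = 1 := by
  have := integral_Ioi_of_hasDerivAt_of_nonneg k5_cont (fun _ hx => k5_deriv hx)
    (fun _ hx => k5_nonneg hx) k5_top
  rw [this]
  unfold k5_r
  simp

/-- the Beta integral as a Laplace transform -/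
theorem k5_beta {z : ℂ} (hz : 0 < z.re) :
    IntegrableOn (fun u : ℝ => cexp (-(z * u)) * (((1 - Real.exp (-u)) ^ (-(1 / 2 : ℝ)) : ℝ) : ℂ))
      (Ioi 0) ∧
    ∫ u in Ioi (0 : ℝ), cexp (-(z * u)) * (((1 - Real.exp (-u)) ^ (-(1 / 2 : ℝ)) : ℝ) : ℂ) =
      betaIntegral z (1 / 2) := by
  have himg : (fun u : ℝ => Real.exp (-u)) '' (Ioi 0) = Ioo 0 1 := by
    ext x
    constructor
    · rintro ⟨u, hu, rfl⟩
      refine ⟨Real.exp_pos _, ?_⟩
      have := k5_A_pos (show (0 : ℝ) < u from hu)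
      linarith
    · rintro ⟨h0, h1⟩
      refine ⟨-Real.log x, ?_, ?_⟩
      · have := Real.log_neg h0 h1
        show 0 < -Real.log x
        linarith
      · simp only [neg_neg]
        exact Real.exp_log h0
  have hd : ∀ u ∈ Ioi (0 : ℝ), HasDerivWithinAt (fun u : ℝ => Real.exp (-u)) (-Real.exp (-u))
      (Ioi 0) u := by
    intro u _
    have := (hasDerivAt_neg u).exp
    refine HasDerivAt.hasDerivWithinAt ?_
    simpa using this
  have hinj : InjOn (fun u : ℝ => Real.exp (-u)) (Ioi 0) := by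
    intro a _ b _ h
    have := Real.exp_injective h
    linarith
  set g : ℝ → ℂ := fun x => (x : ℂ) ^ (z - 1) * (1 - x : ℂ) ^ ((1 / 2 : ℂ) - 1) with hg
  have hgi : IntegrableOn g (Ioo 0 1) := by
    have := betaIntegral_convergent (u := z) (v := 1 / 2) hz (by norm_num)
    rw [intervalIntegrable_iff_integrableOn_Ioo_of_le zero_le_one] at this
    exact this
  have hpt : ∀ u ∈ Ioi (0 : ℝ), |-Real.exp (-u)| • g (Real.exp (-u)) =
      cexp (-(z * u)) * (((1 - Real.exp (-u)) ^ (-(1 / 2 : ℝ)) : ℝ) : ℂ) := by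
    intro u hu
    have hu : (0 : ℝ) < u := hu
    have hA := k5_A_pos hu
    rw [abs_neg, abs_of_pos (Real.exp_pos _), hg]
    simp only
    rw [real_smul, ← mul_assoc]
    congr 1
    · have h1 : ((Real.exp (-u) : ℝ) : ℂ) ≠ 0 := ofReal_ne_zero.2 (Real.exp_pos _).ne'
      have h2 : ((Real.exp (-u) : ℝ) : ℂ) * ((Real.exp (-u) : ℝ) : ℂ) ^ (z - 1) =
          ((Real.exp (-u) : ℝ) : ℂ) ^ z := by
        rw [cpow_sub _ _ h1, cpow_one]
        field_simp
      rw [h2, cpow_def_of_ne_zero h1, ← ofReal_log (Real.exp_pos _).le, Real.log_exp]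
      congr 1
      push_cast
      ring
    · have e : (1 / 2 : ℂ) - 1 = ((-(1 / 2 : ℝ) : ℝ) : ℂ) := by push_cast; ring
      rw [e, ofReal_cpow hA.le]
      push_cast
      rfl
  constructor
  · rw [← himg, integrableOn_image_iff_integrableOn_abs_deriv_smul measurableSet_Ioi hd hinj] at hgi
    exact hgi.congr_fun hpt measurableSet_Ioi
  · have h1 := integral_image_eq_integral_abs_deriv_smul measurableSet_Ioi hd hinj g
    rw [himg] at h1
    rw [← setIntegral_congr_fun measurableSet_Ioi hpt, ← h1, betaIntegral,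
      intervalIntegral.integral_of_le zero_le_one, integral_Ioc_eq_integral_Ioo]

/-- the main estimate -/
theorem k5_main {z : ℂ} (hz : 0 < z.re) :
    ‖Gamma z * z ^ (1 / 2 : ℂ) / Gamma (z + 1 / 2) - 1‖ ≤ (Real.sqrt Real.pi)⁻¹ * ‖z‖ ^ (-(1 / 2 : ℝ)) := by
  have hz0 : z ≠ 0 := by
    rintro rfl
    simp at hz
  obtain ⟨hb1, hb2⟩ := k5_beta hz
  have hg1 : IntegrableOn (fun u : ℝ => cexp (-(z * u)) * ((u ^ (-(1 / 2 : ℝ)) : ℝ) : ℂ))
      (Ioi 0) := by
    have h := Pool.Agent.H4.gg_int' (a := 1 / 2) (r := z) (by norm_num) hz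
    refine IntegrableOn.congr_fun h ?_ measurableSet_Ioi
    intro u hu
    have hu : (0 : ℝ) < u := hu
    simp only
    rw [mul_comm, ofReal_cpow hu.le]
    congr 2
    push_cast
    ring
  have hg2 : ∫ u in Ioi (0 : ℝ), cexp (-(z * u)) * ((u ^ (-(1 / 2 : ℝ)) : ℝ) : ℂ) =
      (1 / z) ^ (1 / 2 : ℂ) * Gamma (1 / 2) := by
    rw [← Pool.Agent.H4.gg_integral (a := 1 / 2) (r := z) (by norm_num) hz]
    refine setIntegral_congr_fun measurableSet_Ioi ?_
    intro u hu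
    have hu : (0 : ℝ) < u := hu
    simp only
    rw [mul_comm, ofReal_cpow hu.le]
    congr 2
    push_cast
    ring
  have hri : IntegrableOn (fun u : ℝ => (k5_r u : ℂ) * cexp (-(z * u))) (Ioi 0) := by
    refine IntegrableOn.congr_fun (hb1.sub hg1) ?_ measurableSet_Ioi
    intro u _
    simp only [Pi.sub_apply]
    unfold k5_r
    push_cast
    ring
  have hreq : ∫ u in Ioi (0 : ℝ), (k5_r u : ℂ) * cexp (-(z * u)) =
      betaIntegral z (1 / 2) - (1 / z) ^ (1 / 2 : ℂ) * Gamma (1 / 2) := by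
    rw [← hb2, ← hg2, ← integral_sub hb1 hg1]
    refine setIntegral_congr_fun measurableSet_Ioi ?_
    intro u _
    simp only
    unfold k5_r
    push_cast
    ring
  have hr'i : IntegrableOn (fun u : ℝ => (k5_r' u : ℂ) * (-cexp (-(z * u)) / z)) (Ioi 0) := by
    have h1 : IntegrableOn (fun u : ℝ => k5_r' u * ‖z‖⁻¹) (Ioi 0) := k5_int'.mul_const _
    refine Integrable.mono' h1 ?_ ?_
    · refine AEStronglyMeasurable.mul ?_ ?_
      · exact (continuous_ofReal.comp_aestronglyMeasurable k5_int'.aestronglyMeasurable)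
      · exact (by fun_prop : Continuous (fun u : ℝ => -cexp (-(z * u)) / z)).aestronglyMeasurable
    · filter_upwards [ae_restrict_mem measurableSet_Ioi] with u hu
      have hu : (0 : ℝ) < u := hu
      rw [norm_mul, norm_real, Real.norm_of_nonneg (k5_nonneg hu), norm_div, norm_neg,
        Complex.norm_exp]
      refine mul_le_mul_of_nonneg_left ?_ (k5_nonneg hu)
      rw [div_eq_mul_inv]
      refine mul_le_of_le_one_left (by positivity) (Real.exp_le_one_iff.2 ?_)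
      rw [neg_re, mul_re, ofReal_re, ofReal_im, mul_zero, sub_zero]
      nlinarith
  have hv : ∀ u ∈ Ioi (0 : ℝ), HasDerivAt (fun u : ℝ => -cexp (-(z * u)) / z)
      (cexp (-(z * u))) u := by
    intro u _
    have h1 : HasDerivAt (fun u : ℝ => -(z * (u : ℂ))) (-z) u := by
      have := ((hasDerivAt_id u).ofReal_comp.const_mul (-z))
      simpa [neg_mul] using this
    have h2 := (h1.cexp.neg).div_const z
    refine h2.congr_deriv ?_
    field_simp
  have hparts := integral_Ioi_mul_deriv_eq_deriv_mul (a := (0 : ℝ)) (u := fun u => (k5_r u : ℂ))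
    (u' := fun u => (k5_r' u : ℂ)) (v := fun u : ℝ => -cexp (-(z * u)) / z)
    (v' := fun u : ℝ => cexp (-(z * u))) (a' := 0) (b' := 0)
    (fun u hu => (k5_deriv hu).ofReal_comp) hv hri hr'i ?_ ?_
  rotate_left
  · have h1 : Tendsto (fun u : ℝ => (k5_r u : ℂ)) (𝓝[>] 0) (𝓝 0) := by
      have h2 := k5_cont.mono_left (nhdsWithin_mono 0 (Ioi_subset_Ici_self))
      have h3 : k5_r 0 = 0 := by unfold k5_r; simp
      rw [h3] at h2
      have := (continuous_ofReal.tendsto (0 : ℝ)).comp h2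
      simpa [Function.comp_def] using this
    have h2 : Tendsto (fun u : ℝ => -cexp (-(z * u)) / z) (𝓝[>] 0) (𝓝 (-cexp (-(z * (0 : ℝ))) / z)) := by
      have : Continuous (fun u : ℝ => -cexp (-(z * u)) / z) := by fun_prop
      exact (this.tendsto 0).mono_left nhdsWithin_le_nhds
    have := h1.mul h2
    rw [zero_mul] at this
    exact this
  · have h1 : Tendsto (fun u : ℝ => (k5_r u : ℂ)) atTop (𝓝 1) := by
      have := (continuous_ofReal.tendsto (1 : ℝ)).comp k5_top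
      simpa [Function.comp_def] using this
    have h2 : Tendsto (fun u : ℝ => -cexp (-(z * u)) / z) atTop (𝓝 0) := by
      rw [tendsto_zero_iff_norm_tendsto_zero]
      have h3 : ∀ u : ℝ, ‖-cexp (-(z * u)) / z‖ = Real.exp (-(z.re * u)) * ‖z‖⁻¹ := by
        intro u
        rw [norm_div, norm_neg, Complex.norm_exp, div_eq_mul_inv]
        congr 2
        simp
      simp_rw [h3]
      have h4 : Tendsto (fun u : ℝ => Real.exp (-(z.re * u))) atTop (𝓝 0) := by
        refine Real.tendsto_exp_neg_atTop_nhds_zero.comp ?_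
        exact tendsto_id.const_mul_atTop hz
      have := h4.mul_const (‖z‖⁻¹)
      rwa [zero_mul] at this
    have := h1.mul h2
    rw [mul_zero] at this
    exact this
  rw [hreq, sub_zero, zero_sub] at hparts
  have hbound : ‖betaIntegral z (1 / 2) - (1 / z) ^ (1 / 2 : ℂ) * Gamma (1 / 2)‖ ≤ ‖z‖⁻¹ := by
    rw [hparts, norm_neg]
    refine (norm_integral_le_of_norm_le (g := fun u => k5_r' u * ‖z‖⁻¹) (k5_int'.mul_const _) ?_).trans ?_
    · filter_upwards [ae_restrict_mem measurableSet_Ioi] with u hu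
      have hu : (0 : ℝ) < u := hu
      rw [norm_mul, norm_real, Real.norm_of_nonneg (k5_nonneg hu), norm_div, norm_neg,
        Complex.norm_exp]
      refine mul_le_mul_of_nonneg_left ?_ (k5_nonneg hu)
      rw [div_eq_mul_inv]
      refine mul_le_of_le_one_left (by positivity) (Real.exp_le_one_iff.2 ?_)
      rw [neg_re, mul_re, ofReal_re, ofReal_im, mul_zero, sub_zero]
      nlinarith
    · rw [integral_mul_const, k5_integral, one_mul]
  have hG := Gamma_mul_Gamma_eq_betaIntegral (s := z) (t := 1 / 2) hz (by norm_num)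
  have hGn : Gamma (z + 1 / 2) ≠ 0 := Gamma_ne_zero_of_re_pos (by
    rw [add_re]; norm_num; linarith)
  have hGh : Gamma (1 / 2 : ℂ) = ((Real.sqrt Real.pi : ℝ) : ℂ) := by
    rw [Gamma_one_half_eq, Real.sqrt_eq_rpow, ofReal_cpow Real.pi_pos.le]
    push_cast
    rfl
  have hsp : 0 < Real.sqrt Real.pi := Real.sqrt_pos.2 Real.pi_pos
  have hGh0 : Gamma (1 / 2 : ℂ) ≠ 0 := by
    rw [hGh]
    exact ofReal_ne_zero.2 hsp.ne'
  have hroot : z ^ (1 / 2 : ℂ) * (1 / z) ^ (1 / 2 : ℂ) = 1 := by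
    have harg : z.arg ≠ Real.pi := by
      intro h
      rw [Complex.arg_eq_pi_iff] at h
      linarith [h.1]
    rw [one_div z, inv_cpow _ _ harg]
    refine mul_inv_cancel₀ ?_
    rw [Ne, cpow_eq_zero_iff]
    exact fun h => hz0 h.1
  have hid : Gamma z * z ^ (1 / 2 : ℂ) / Gamma (z + 1 / 2) - 1 =
      (Gamma (1 / 2 : ℂ))⁻¹ * (z ^ (1 / 2 : ℂ) *
        (betaIntegral z (1 / 2) - (1 / z) ^ (1 / 2 : ℂ) * Gamma (1 / 2))) := by
    have hB : betaIntegral z (1 / 2) = Gamma z * Gamma (1 / 2) / Gamma (z + 1 / 2) := by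
      rw [eq_div_iff hGn, mul_comm]; exact hG.symm
    rw [hB, mul_sub, ← mul_assoc (z ^ (1 / 2 : ℂ)) ((1 / z) ^ (1 / 2 : ℂ)), hroot, one_mul]
    generalize Gamma (z + 1 / 2) = g1 at *
    generalize Gamma (1 / 2 : ℂ) = g2 at *
    field_simp
  rw [hid, norm_mul, norm_mul, norm_inv, hGh, norm_real, Real.norm_of_nonneg hsp.le]
  refine mul_le_mul_of_nonneg_left ?_ (by positivity)
  have hzn : 0 < ‖z‖ := norm_pos_iff.2 hz0
  have hnorm : ‖z ^ (1 / 2 : ℂ)‖ = ‖z‖ ^ (1 / 2 : ℝ) := by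
    have : (1 / 2 : ℂ) = ((1 / 2 : ℝ) : ℂ) := by push_cast; rfl
    rw [this, norm_cpow_real]
  rw [hnorm, ← hGh]
  refine (mul_le_mul_of_nonneg_left hbound (by positivity)).trans ?_
  rw [← Real.rpow_neg_one ‖z‖, ← Real.rpow_add hzn]
  norm_num

theorem k5_sqrt {z : ℂ} (hz : 1 ≤ z.im) :
    ‖(z + 1) ^ (1 / 2 : ℂ) / z ^ (1 / 2 : ℂ) - 1‖ ≤ z.im⁻¹ := by
  have hz0 : z ≠ 0 := by
    rintro rfl
    simp at hz
    linarith
  have hw0 : z + 1 ≠ 0 := by
    intro h
    have : (z + 1).im = 0 := by rw [h]; simp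
    rw [add_im, one_im, add_zero] at this
    linarith
  set a := (z + 1) ^ (1 / 2 : ℂ) with ha
  set b := z ^ (1 / 2 : ℂ) with hb
  have ha2 : a ^ 2 = z + 1 := by
    rw [ha, ← cpow_nat_mul]
    simp
  have hb2 : b ^ 2 = z := by
    rw [hb, ← cpow_nat_mul]
    simp
  have hb0 : b ≠ 0 := by
    intro h
    rw [h] at hb2
    apply hz0
    rw [← hb2]; simp
  -- both square roots are in the first quadrant
  have hquad : ∀ w : ℂ, 0 < w.im → 0 ≤ (w ^ (1 / 2 : ℂ)).re ∧ 0 ≤ (w ^ (1 / 2 : ℂ)).im := by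
    intro w hw
    have hw0 : w ≠ 0 := by
      rintro rfl
      simp at hw
    have e : w ^ (1 / 2 : ℂ) = cexp (((1 / 2 : ℝ) : ℂ) * Complex.log w) := by
      rw [cpow_def_of_ne_zero hw0]
      congr 1
      push_cast
      ring
    have harg1 : 0 ≤ w.arg := (Complex.arg_nonneg_iff).2 hw.le
    have harg2 : w.arg ≤ Real.pi := Complex.arg_le_pi w
    rw [e, exp_re, exp_im, re_ofReal_mul, im_ofReal_mul, Complex.log_im]
    constructor
    · refine mul_nonneg (Real.exp_pos _).le (Real.cos_nonneg_of_mem_Icc ⟨?_, ?_⟩)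
      · linarith [Real.pi_pos]
      · linarith
    · refine mul_nonneg (Real.exp_pos _).le (Real.sin_nonneg_of_nonneg_of_le_pi ?_ ?_)
      · linarith
      · linarith [Real.pi_pos]
  obtain ⟨ar, ai⟩ := hquad (z + 1) (by rw [add_im, one_im, add_zero]; linarith)
  obtain ⟨br, bi⟩ := hquad z (by linarith)
  have hsum : ‖b‖ ≤ ‖a + b‖ := by
    rw [← sq_le_sq₀ (norm_nonneg _) (norm_nonneg _), ← normSq_eq_norm_sq, ← normSq_eq_norm_sq,
      normSq_apply, normSq_apply, add_re, add_im]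
    nlinarith [mul_nonneg ar br, mul_nonneg ai bi, mul_self_nonneg a.re, mul_self_nonneg a.im]
  have hbn : 0 < ‖b‖ := norm_pos_iff.2 hb0
  have hab0 : a + b ≠ 0 := norm_pos_iff.1 (hbn.trans_le hsum)
  have hdiff : a - b = 1 / (a + b) := by
    rw [eq_div_iff hab0]
    linear_combination ha2 - hb2
  have e : a / b - 1 = 1 / ((a + b) * b) := by
    have : a / b - 1 = (a - b) / b := by field_simp
    rw [this, hdiff]
    field_simp
  rw [e, norm_div, norm_one, norm_mul, one_div]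
  refine inv_anti₀ (by linarith) ?_
  have h1 : ‖b‖ ^ 2 = ‖z‖ := by rw [← norm_pow, hb2]
  have h2 : z.im ≤ ‖z‖ := (le_abs_self _).trans (Complex.abs_im_le_norm z)
  nlinarith

theorem Gamma_ratio_pr : ∃ C : ℝ, ∀ z : ℂ, -(1 / 2) ≤ z.re → z.re ≤ 2 → 1 ≤ z.im →
    ‖Gamma (z + 1 / 2) / (Gamma z * z ^ (1 / 2 : ℂ)) - 1‖ ≤ C * z.im ^ (-(1 / 2 : ℝ)) := by
  refine ⟨20, fun z h1 _ h3 => ?_⟩
  have him : 0 < z.im := by linarith
  have hz0 : z ≠ 0 := by
    rintro rfl
    simp at h3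
    linarith
  set w := z + 1 with hw
  have hwre : 0 < w.re := by rw [hw, add_re, one_re]; linarith
  have hwim : w.im = z.im := by rw [hw, add_im, one_im, add_zero]
  have hw0 : w ≠ 0 := by
    intro h
    rw [h] at hwre
    simp at hwre
  have hz2 : z + 1 / 2 ≠ 0 := by
    intro h
    have : (z + 1 / 2).im = 0 := by rw [h]; simp
    rw [add_im] at this
    norm_num at this
    linarith
  have hm := k5_main hwre
  have hwn : z.im ≤ ‖w‖ := by
    rw [← hwim]
    exact (le_abs_self _).trans (Complex.abs_im_le_norm w)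
  have hpow : ‖w‖ ^ (-(1 / 2 : ℝ)) ≤ z.im ^ (-(1 / 2 : ℝ)) :=
    Real.rpow_le_rpow_of_nonpos him hwn (by norm_num)
  set e : ℝ := z.im ^ (-(1 / 2 : ℝ)) with he
  have he0 : 0 < e := Real.rpow_pos_of_pos him _
  have he1 : e ≤ 1 := Real.rpow_le_one_of_one_le_of_nonpos h3 (by norm_num)
  have hinv : z.im⁻¹ ≤ e := by
    rw [← Real.rpow_neg_one]
    exact Real.rpow_le_rpow_of_exponent_le h3 (by norm_num)
  -- the three factors
  set R : ℂ := Gamma w * w ^ (1 / 2 : ℂ) / Gamma (w + 1 / 2) with hR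
  have hpi : (Real.sqrt Real.pi)⁻¹ ≤ 3 / 5 := by
    have h4 : (5 / 3 : ℝ) ≤ Real.sqrt Real.pi := by
      apply Real.le_sqrt_of_sq_le
      have := Real.pi_gt_three
      norm_num
      linarith
    have := inv_anti₀ (by norm_num) h4
    norm_num at this
    linarith
  have hR1 : ‖R - 1‖ ≤ 3 / 5 * e := by
    refine hm.trans ?_
    exact mul_le_mul hpi hpow (by positivity) (by norm_num)
  have hR2 : 2 / 5 ≤ ‖R‖ := by
    have h4 : 1 - ‖R - 1‖ ≤ ‖R‖ := by
      have h5 : ‖(1 : ℂ)‖ ≤ ‖R‖ + ‖R - 1‖ := by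
        have h6 : (1 : ℂ) = R - (R - 1) := by ring
        calc ‖(1 : ℂ)‖ = ‖R - (R - 1)‖ := by rw [← h6]
          _ ≤ ‖R‖ + ‖R - 1‖ := norm_sub_le _ _
      rw [norm_one] at h5
      linarith
    have : ‖R - 1‖ ≤ 3 / 5 := hR1.trans (by nlinarith)
    linarith
  have hR0 : R ≠ 0 := by
    intro h
    rw [h, norm_zero] at hR2
    norm_num at hR2
  have hRi : ‖R⁻¹ - 1‖ ≤ 3 / 2 * e := by
    have h4 : R⁻¹ - 1 = (1 - R) / R := by field_simp
    rw [h4, norm_div, div_le_iff₀ (by linarith), norm_sub_rev]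
    nlinarith
  have hS : ‖z / (z + 1 / 2) - 1‖ ≤ 1 / 2 * e := by
    have h4 : z / (z + 1 / 2) - 1 = -(1 / 2) / (z + 1 / 2) := by
      rw [div_sub_one hz2]; congr 1; ring
    rw [h4, norm_div, norm_neg]
    have h5 : z.im ≤ ‖z + 1 / 2‖ := by
      have h6 : (z + 1 / 2).im = z.im := by
        rw [add_im]; norm_num
      rw [← h6]
      exact (le_abs_self _).trans (Complex.abs_im_le_norm _)
    have h7 : ‖(1 / 2 : ℂ)‖ = 1 / 2 := by norm_num
    rw [h7, div_le_iff₀ (by linarith)]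
    have h8 : e * z.im ≥ 1 := by
      have : z.im⁻¹ * z.im = 1 := inv_mul_cancel₀ him.ne'
      nlinarith
    nlinarith
  have hT : ‖w ^ (1 / 2 : ℂ) / z ^ (1 / 2 : ℂ) - 1‖ ≤ e := (k5_sqrt h3).trans hinv
  set S : ℂ := z / (z + 1 / 2) with hSd
  set T : ℂ := w ^ (1 / 2 : ℂ) / z ^ (1 / 2 : ℂ) with hTd
  have hzr : z ^ (1 / 2 : ℂ) ≠ 0 := by
    rw [Ne, cpow_eq_zero_iff]
    exact fun h => hz0 h.1
  have hwr : w ^ (1 / 2 : ℂ) ≠ 0 := by
    rw [Ne, cpow_eq_zero_iff]
    exact fun h => hw0 h.1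
  have hGw : Gamma w = z * Gamma z := by rw [hw, Gamma_add_one z hz0]
  have hGw2 : Gamma (w + 1 / 2) = (z + 1 / 2) * Gamma (z + 1 / 2) := by
    have : w + 1 / 2 = (z + 1 / 2) + 1 := by rw [hw]; ring
    rw [this, Gamma_add_one _ hz2]
  have hGw0 : Gamma w ≠ 0 := Gamma_ne_zero_of_re_pos hwre
  have hGz0 : Gamma z ≠ 0 := by
    intro h
    rw [hGw, h, mul_zero] at hGw0
    exact hGw0 rfl
  have hGw20 : Gamma (w + 1 / 2) ≠ 0 := Gamma_ne_zero_of_re_pos (by
    rw [add_re]; norm_num; linarith)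
  have hGz2 : Gamma (z + 1 / 2) ≠ 0 := by
    intro h
    rw [hGw2, h, mul_zero] at hGw20
    exact hGw20 rfl
  have hQ : Gamma (z + 1 / 2) / (Gamma z * z ^ (1 / 2 : ℂ)) = R⁻¹ * S * T := by
    rw [hR, hSd, hTd, hGw, hGw2]
    generalize Gamma (z + 1 / 2) = g1 at *
    generalize z + 1 / 2 = g2 at *
    field_simp
  rw [hQ]
  have h5 : R⁻¹ * S * T - 1 = (R⁻¹ - 1) * S * T + (S - 1) * T + (T - 1) := by ring
  rw [h5]
  have hSn : ‖S‖ ≤ 3 / 2 := by
    have h6 : ‖S‖ ≤ ‖S - 1‖ + ‖(1 : ℂ)‖ := by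
      have : S = (S - 1) + 1 := by ring
      calc ‖S‖ = ‖(S - 1) + 1‖ := by rw [← this]
        _ ≤ _ := norm_add_le _ _
    rw [norm_one] at h6
    nlinarith
  have hTn : ‖T‖ ≤ 2 := by
    have h6 : ‖T‖ ≤ ‖T - 1‖ + ‖(1 : ℂ)‖ := by
      have : T = (T - 1) + 1 := by ring
      calc ‖T‖ = ‖(T - 1) + 1‖ := by rw [← this]
        _ ≤ _ := norm_add_le _ _
    rw [norm_one] at h6
    nlinarith
  have h6 : ‖(R⁻¹ - 1) * S * T‖ ≤ 3 / 2 * e * (3 / 2) * 2 := by
    rw [norm_mul, norm_mul]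
    gcongr
  have h7 : ‖(S - 1) * T‖ ≤ 1 / 2 * e * 2 := by
    rw [norm_mul]
    gcongr
  calc ‖(R⁻¹ - 1) * S * T + (S - 1) * T + (T - 1)‖
      ≤ ‖(R⁻¹ - 1) * S * T + (S - 1) * T‖ + ‖T - 1‖ := norm_add_le _ _
    _ ≤ ‖(R⁻¹ - 1) * S * T‖ + ‖(S - 1) * T‖ + ‖T - 1‖ := by
        gcongr
        exact norm_add_le _ _
    _ ≤ 3 / 2 * e * (3 / 2) * 2 + 1 / 2 * e * 2 + e := by gcongr
    _ ≤ 20 * e := by nlinarith


end Pool.Agent.JO.FM

namespace Pool.Agent.JO.FM

theorem Gamma_ratio : type_of% @Gamma_ratio_pr := @Gamma_ratio_pr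

end Pool.Agent.JO.FM
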