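import Pool.Agent.Lib_helper45.JO.Defs2

/-! Project JO, part FM, block C10: the divergence. -/

set_option autoImplicit false

namespace Pool.Agent.JO.FM

open Complex Filter Topology MeasureTheory Set
open UpperHalfPlane hiding I
open scoped MatrixGroups ComplexConjugate ENNReal

theorem c10_mp (g : SL(2, ℤ)) : MeasurePreserving (fun z : ℍ => g • z) volume volume := by
  have := measurePreserving_smul (Matrix.SpecialLinearGroup.mapGL ℝ g) (volume : Measure ℍ)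
  exact this

theorem c10_lint_H (F : ℂ → ℝ≥0∞) :
    ∫⁻ w : ℍ, F w = ∫⁻ z in {z : ℂ | 0 < z.im}, F z * ENNReal.ofReal (1 / z.im ^ 2) := by
  have hrange : Set.range UpperHalfPlane.coe = {z : ℂ | 0 < z.im} := by
    ext z
    constructor
    · rintro ⟨w, rfl⟩
      exact w.im_pos
    · intro hz
      exact ⟨⟨z, hz⟩, rfl⟩
  rw [volume_def]
  rw [lintegral_withDensity_eq_lintegral_mul_non_measurable]
  · have h1 := measurableEmbedding_coe.lintegral_map (μ := volume.comap UpperHalfPlane.coe)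
      (f := fun z : ℂ => F z * ENNReal.ofReal (1 / z.im ^ 2))
    rw [measurableEmbedding_coe.map_comap, hrange] at h1
    rw [h1]
    apply lintegral_congr
    intro w
    rw [Pi.mul_apply, mul_comm]
    congr 1
    rw [ENNReal.coe_nnreal_eq]
    congr 1
    push_cast
    rw [div_pow, one_pow]
    rfl
  · have h2 : Continuous (fun z : ℍ => (1 / NNReal.mk z.im z.im_pos.le : NNReal) ^ 2) := by
      refine .pow (.div₀ continuous_const ?_ ?_) _
      · exact continuous_im.subtype_mk _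
      · exact fun x ↦ NNReal.ne_iff.mp x.im_ne_zero
    exact h2.measurable.coe_nnreal_ennreal
  · exact Eventually.of_forall (fun z => ENNReal.coe_lt_top)

theorem c10_vol_pos {U : Set ℍ} (hU : IsOpen U) (hne : U.Nonempty) : 0 < volume U := by
  rw [volume_eq_lintegral]
  have hcU : IsOpen ((fun w : ℍ => (w : ℂ)) '' U) := isOpenEmbedding_coe.isOpenMap U hU
  have hm : Measurable fun z : ℂ => (((1 / ‖z.im‖₊) ^ 2 : NNReal) : ℝ≥0∞) := by
    refine Measurable.coe_nnreal_ennreal ?_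
    exact (measurable_const.div Complex.measurable_im.nnnorm).pow_const 2
  rw [setLIntegral_pos_iff hm]
  have hsub : (fun w : ℍ => (w : ℂ)) '' U ⊆
      Function.support (fun z : ℂ => (((1 / ‖z.im‖₊) ^ 2 : NNReal) : ℝ≥0∞)) ∩
        (fun w : ℍ => (w : ℂ)) '' U := by
    rintro _ ⟨w, hw, rfl⟩
    refine ⟨?_, w, hw, rfl⟩
    rw [Function.mem_support]
    have : w.im ≠ 0 := w.im_pos.ne'
    simp [this]
  exact lt_of_lt_of_le (hcU.measure_pos volume (hne.image _)) (measure_mono hsub)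

theorem c10_coe (g : SL(2, ℤ)) (z : ℍ) : ((g • z : ℍ) : ℂ) =
    ((g 0 0 : ℂ) * z + (g 0 1 : ℂ)) / ((g 1 0 : ℂ) * z + (g 1 1 : ℂ)) := by
  rw [coe_specialLinearGroup_apply]
  simp

theorem c10_im (g : SL(2, ℤ)) (z : ℍ) :
    (g • z).im = z.im / ‖(g 1 0 : ℂ) * z + (g 1 1 : ℂ)‖ ^ 2 := by
  rw [ModularGroup.im_smul_eq_div_normSq, Complex.normSq_eq_norm_sq]
  simp [denom]

theorem c10_den_pos (g : SL(2, ℤ)) (z : ℍ) : 0 < ‖(g 1 0 : ℂ) * z + (g 1 1 : ℂ)‖ := by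
  rw [norm_pos_iff]
  intro h
  have h1 := (g • z).im_pos
  rw [c10_im, h, norm_zero] at h1
  simp at h1

theorem c10_entry {m n : ℤ} {z : ℍ} {R y B : ℝ} (hy : 0 < y) (h1 : y ≤ z.im)
    (h2 : ‖(z : ℂ)‖ ≤ B) (h : ‖(m : ℂ) * z + n‖ ≤ R) :
    |(m : ℝ)| ≤ R / y ∧ |(n : ℝ)| ≤ R + R / y * B := by
  have hR : 0 ≤ R := (norm_nonneg _).trans h
  have h3 : |(m : ℝ)| * z.im ≤ R := by
    have e : ((m : ℂ) * z + n).im = m * z.im := by simp
    have h4 := Complex.abs_im_le_norm ((m : ℂ) * z + n)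
    rw [e, abs_mul, abs_of_pos z.im_pos] at h4
    exact h4.trans h
  have h5 : |(m : ℝ)| ≤ R / y := by
    rw [le_div_iff₀ hy]
    exact (mul_le_mul_of_nonneg_left h1 (abs_nonneg _)).trans h3
  refine ⟨h5, ?_⟩
  have e : (n : ℂ) = ((m : ℂ) * z + n) - (m : ℂ) * z := by ring
  have h6 : ‖(n : ℂ)‖ ≤ R + R / y * B := by
    rw [e]
    refine (norm_sub_le _ _).trans (add_le_add h ?_)
    rw [norm_mul]
    refine mul_le_mul ?_ h2 (norm_nonneg _) (by positivity)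
    rw [Complex.norm_intCast]
    exact h5
  rwa [Complex.norm_intCast] at h6

theorem c10_fin {y B : ℝ} (hy : 0 < y) : {g : SL(2, ℤ) | ∃ z : ℍ, y ≤ z.im ∧ ‖(z : ℂ)‖ ≤ B ∧
    y ≤ (g • z).im ∧ ‖((g • z : ℍ) : ℂ)‖ ≤ B}.Finite := by
  set R₁ : ℝ := √(B / y) with hR₁
  set S : ℝ := R₁ / y + (R₁ + R₁ / y * B) + (B * R₁ / y + (B * R₁ + B * R₁ / y * B)) with hS
  set n : ℤ := ⌈S⌉ with hn
  have hinj : Function.Injective (fun (g : SL(2, ℤ)) (i j : Fin 2) => g i j) := by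
    intro g h e
    ext i j
    exact congrFun (congrFun e i) j
  refine ((Set.finite_Icc (fun _ _ => -n : Fin 2 → Fin 2 → ℤ) (fun _ _ => n)).preimage
    hinj.injOn).subset ?_
  rintro g ⟨z, h1, h2, h3, h4⟩
  have hB : 0 ≤ B := (norm_nonneg _).trans h2
  have hd := c10_den_pos g z
  have hR₁0 : 0 ≤ R₁ := Real.sqrt_nonneg _
  have h5 : ‖(g 1 0 : ℂ) * z + (g 1 1 : ℂ)‖ ≤ R₁ := by
    rw [hR₁]
    refine Real.le_sqrt_of_sq_le ?_
    rw [le_div_iff₀ hy]
    have h6 := h3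
    rw [c10_im, le_div_iff₀ (by positivity)] at h6
    have h7 : z.im ≤ B := (Complex.abs_im_le_norm _ |> (le_abs_self _).trans).trans h2
    linarith
  have h6 : ‖(g 0 0 : ℂ) * z + (g 0 1 : ℂ)‖ ≤ B * R₁ := by
    have e : (g 0 0 : ℂ) * z + (g 0 1 : ℂ) =
        ((g • z : ℍ) : ℂ) * ((g 1 0 : ℂ) * z + (g 1 1 : ℂ)) := by
      rw [c10_coe, div_mul_cancel₀ _ (norm_pos_iff.1 hd)]
    rw [e, norm_mul]
    exact mul_le_mul h4 h5 (norm_nonneg _) hB
  obtain ⟨c1, c2⟩ := c10_entry hy h1 h2 h5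
  obtain ⟨c3, c4⟩ := c10_entry hy h1 h2 h6
  have p1 : 0 ≤ R₁ / y := by positivity
  have p2 : 0 ≤ R₁ + R₁ / y * B := by positivity
  have p3 : 0 ≤ B * R₁ / y := by positivity
  have p4 : 0 ≤ B * R₁ + B * R₁ / y * B := by positivity
  have key : ∀ i j : Fin 2, |g i j| ≤ n := by
    have hc : S ≤ (n : ℝ) := Int.le_ceil S
    have hcast : ∀ m : ℤ, |(m : ℝ)| ≤ S → |m| ≤ n := by
      intro m hm
      have : ((|m| : ℤ) : ℝ) ≤ n := by
        rw [Int.cast_abs]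
        exact hm.trans hc
      exact_mod_cast this
    intro i j
    apply hcast
    fin_cases i <;> fin_cases j
    · exact c3.trans (by rw [hS]; linarith)
    · exact c4.trans (by rw [hS]; linarith)
    · exact c1.trans (by rw [hS]; linarith)
    · exact c2.trans (by rw [hS]; linarith)
  rw [Set.mem_preimage, Set.mem_Icc]
  exact ⟨fun i j => (abs_le.1 (key i j)).1, fun i j => (abs_le.1 (key i j)).2⟩

/-- a matrix with given first column -/
theorem c10_exists (c a : ℕ) (hc : 1 < c) (h : a.Coprime c) :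
    ∃ g : SL(2, ℤ), g 0 0 = a ∧ g 1 0 = c ∧ 0 ≤ g 1 1 ∧ g 1 1 < c := by
  have : NeZero c := ⟨by omega⟩
  set d : ℕ := ((a : ZMod c)⁻¹).val with hd
  have h1 : ((a * d : ℕ) : ZMod c) = ((1 : ℕ) : ZMod c) := by
    push_cast
    rw [hd, ZMod.natCast_zmod_val]
    exact ZMod.coe_mul_inv_eq_one a h
  have h2 : (c : ℤ) ∣ (a : ℤ) * d - 1 := by
    have h3 := (ZMod.natCast_eq_natCast_iff _ _ _).1 h1
    have h4 := (Nat.modEq_iff_dvd.1 h3.symm)
    push_cast at h4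
    exact h4
  obtain ⟨b, hb⟩ := h2
  refine ⟨⟨!![(a : ℤ), b; (c : ℤ), (d : ℤ)], ?_⟩, rfl, rfl, ?_, ?_⟩
  · rw [Matrix.det_fin_two_of]
    linarith
  · exact Int.natCast_nonneg d
  · show (d : ℤ) < c
    exact_mod_cast ZMod.val_lt _

/-- the position of the translates -/
theorem c10_pos {g : SL(2, ℤ)} {a c : ℕ} (h0 : g 0 0 = a) (h1 : g 1 0 = c) (h2 : 0 ≤ g 1 1)
    (h3 : g 1 1 < c) (ha0 : 0 < a) (hac : a < c) {z : ℍ} {y B : ℝ} (hy : 0 < y) (hz1 : y ≤ z.im)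
    (hz2 : ‖(z : ℂ)‖ ≤ B) (hcy : 1 < c * y) :
    0 < (g • z).re ∧ (g • z).re ≤ 1 ∧ (g • z).im ≤ 1 ∧
      y / ((c : ℝ) ^ 2 * (B + 1) ^ 2) ≤ (g • z).im := by
  have hc0 : (0 : ℝ) < c := by exact_mod_cast (by omega : 0 < c)
  have hc1 : (1 : ℝ) ≤ c := by exact_mod_cast (by omega : 1 ≤ c)
  have hd := c10_den_pos g z
  have hg10 : (g 1 0 : ℂ) = c := by rw [h1]; simp
  have hg00 : (g 0 0 : ℂ) = a := by rw [h0]; simp
  rw [hg10] at hd
  have hB : 0 ≤ B := (norm_nonneg _).trans hz2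
  have hlow : c * y ≤ ‖(c : ℂ) * z + (g 1 1 : ℂ)‖ := by
    have e : ((c : ℂ) * z + (g 1 1 : ℂ)).im = c * z.im := by simp
    have h4 := Complex.abs_im_le_norm ((c : ℂ) * z + (g 1 1 : ℂ))
    rw [e, abs_of_pos (mul_pos hc0 z.im_pos)] at h4
    exact (mul_le_mul_of_nonneg_left hz1 hc0.le).trans h4
  have hup : ‖(c : ℂ) * z + (g 1 1 : ℂ)‖ ≤ c * (B + 1) := by
    refine (norm_add_le _ _).trans ?_
    rw [norm_mul, Complex.norm_natCast, Complex.norm_intCast]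
    have h5 : |((g 1 1 : ℤ) : ℝ)| ≤ c := by
      rw [abs_of_nonneg (by exact_mod_cast h2)]
      exact_mod_cast h3.le
    nlinarith
  have him : (g • z).im = z.im / ‖(c : ℂ) * z + (g 1 1 : ℂ)‖ ^ 2 := by
    rw [c10_im, hg10]
  -- the distance to `a / c`
  have hdet : (g 0 0 : ℂ) * (g 1 1 : ℂ) - (g 0 1 : ℂ) * (g 1 0 : ℂ) = 1 := by
    have := g.det_coe
    rw [Matrix.det_fin_two] at this
    exact_mod_cast this
  rw [hg10, hg00] at hdet
  have hdist : ((g • z : ℍ) : ℂ) - (a : ℂ) / c = -1 / (c * ((c : ℂ) * z + (g 1 1 : ℂ))) := by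
    rw [c10_coe, hg10, hg00]
    have hne := norm_pos_iff.1 hd
    have hcne : (c : ℂ) ≠ 0 := by exact_mod_cast hc0.ne'
    rw [div_sub_div _ _ hne hcne, div_eq_div_iff (mul_ne_zero hne hcne) (mul_ne_zero hcne hne)]
    linear_combination (-(c : ℂ) * ((c : ℂ) * z + (g 1 1 : ℂ))) * hdet
  have hnorm : ‖((g • z : ℍ) : ℂ) - (a : ℂ) / c‖ < 1 / c := by
    rw [hdist, norm_div, norm_neg, norm_one, norm_mul, Complex.norm_natCast,
      div_lt_div_iff₀ (by positivity) hc0]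
    nlinarith
  have hre := (Complex.abs_re_le_norm (((g • z : ℍ) : ℂ) - (a : ℂ) / c)).trans_lt hnorm
  have e1 : (((g • z : ℍ) : ℂ) - (a : ℂ) / c).re = (g • z).re - a / c := by
    rw [Complex.sub_re]
    congr 1
    rw [← Complex.ofReal_natCast, ← Complex.ofReal_natCast, ← Complex.ofReal_div,
      Complex.ofReal_re]
  rw [e1, abs_lt] at hre
  have ha1 : 1 / (c : ℝ) ≤ a / c := by
    gcongr
    exact_mod_cast ha0
  have ha2 : (a : ℝ) / c + 1 / c ≤ 1 := by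
    rw [← add_div, div_le_one hc0]
    exact_mod_cast hac
  refine ⟨by linarith, by linarith, ?_, ?_⟩
  · rw [him, div_le_one (by positivity)]
    have e : ((c : ℂ) * z + (g 1 1 : ℂ)).im = c * z.im := by simp
    have h4 := Complex.abs_im_le_norm ((c : ℂ) * z + (g 1 1 : ℂ))
    rw [e, abs_of_pos (mul_pos hc0 z.im_pos)] at h4
    have h5 : 1 ≤ ‖(c : ℂ) * z + (g 1 1 : ℂ)‖ := by linarith
    have h6 : z.im ≤ ‖(c : ℂ) * z + (g 1 1 : ℂ)‖ := by
      have := z.im_pos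
      nlinarith
    nlinarith
  · rw [him]
    have h7 : ‖(c : ℂ) * z + (g 1 1 : ℂ)‖ ^ 2 ≤ (c : ℝ) ^ 2 * (B + 1) ^ 2 := by
      rw [← mul_pow]
      exact pow_le_pow_left₀ (norm_nonneg _) hup 2
    exact div_le_div₀ z.im_pos.le hz1 (by positivity) h7

/-- the main lower bound -/
theorem c10_lower {φ : ℍ → ℝ} {N : ℕ}
    (hinv : ∀ γ : SL(2, ℤ), (N : ℤ) ∣ γ 1 0 → ∀ z : ℍ, φ (γ • z) = φ z)
    {c₀ y B : ℝ} (hc₀ : 0 ≤ c₀) (hy : 0 < y) {U : Set ℍ} (hU : MeasurableSet U)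
    (hUc : ∀ z ∈ U, c₀ ≤ φ z ∧ y ≤ z.im ∧ ‖(z : ℂ)‖ ≤ B) :
    ∃ M : ℝ≥0∞, M ≠ 0 ∧ M ≠ ⊤ ∧ ∀ {ι : Type} (F : Finset ι) (g : ι → SL(2, ℤ)) (κ : ι → ℝ≥0∞)
      (S : Set ℍ), Set.InjOn g F → (∀ i ∈ F, (N : ℤ) ∣ g i 1 0) →
      (∀ i ∈ F, ∀ u ∈ U, g i • u ∈ S ∧ κ i ≤ ENNReal.ofReal (g i • u).im) →
      M⁻¹ * ENNReal.ofReal c₀ * (∑ i ∈ F, κ i) * volume U ≤
        ∫⁻ w : ℍ, S.indicator (fun w => ENNReal.ofReal (φ w * w.im)) w := by
  classical
  have hfin := c10_fin (y := y) (B := B) hy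
  set H : Finset SL(2, ℤ) := hfin.toFinset with hH
  refine ⟨((H.card + 1 : ℕ) : ℝ≥0∞), by simp, ENNReal.natCast_ne_top _, ?_⟩
  intro ι F g κ S hinj hN hS
  set M : ℝ≥0∞ := ((H.card + 1 : ℕ) : ℝ≥0∞) with hM
  have hM0 : M ≠ 0 := by simp [hM]
  have hMt : M ≠ ⊤ := ENNReal.natCast_ne_top _
  have hpre : ∀ i, MeasurableSet {w : ℍ | (g i)⁻¹ • w ∈ U} := fun i =>
    (c10_mp (g i)⁻¹).measurable hU
  -- pointwise bound
  have hpt : ∀ w : ℍ, ∑ i ∈ F, {w : ℍ | (g i)⁻¹ • w ∈ U}.indicator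
      (fun w => M⁻¹ * ENNReal.ofReal c₀ * ENNReal.ofReal w.im) w ≤
      S.indicator (fun w => ENNReal.ofReal (φ w * w.im)) w := by
    intro w
    have e1 : ∑ i ∈ F, {w : ℍ | (g i)⁻¹ • w ∈ U}.indicator
        (fun w => M⁻¹ * ENNReal.ofReal c₀ * ENNReal.ofReal w.im) w =
        ((F.filter fun i => (g i)⁻¹ • w ∈ U).card : ℝ≥0∞) *
          (M⁻¹ * ENNReal.ofReal c₀ * ENNReal.ofReal w.im) := by
      rw [← nsmul_eq_mul, ← Finset.sum_const, Finset.sum_filter]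
      refine Finset.sum_congr rfl fun i _ => ?_
      rw [Set.indicator_apply]
      rfl
    rw [e1]
    rcases Finset.eq_empty_or_nonempty (F.filter fun i => (g i)⁻¹ • w ∈ U) with h | ⟨i₀, hi₀⟩
    · rw [h]
      simp
    · have hi := hi₀
      rw [Finset.mem_filter] at hi
      obtain ⟨hiF, hiU⟩ := hi
      have hw : g i₀ • ((g i₀)⁻¹ • w) = w := smul_inv_smul _ _
      have hwS : w ∈ S := by
        rw [← hw]
        exact (hS i₀ hiF _ hiU).1
      rw [Set.indicator_of_mem hwS]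
      have hφ : c₀ ≤ φ w := by
        rw [← hw, hinv _ (hN i₀ hiF)]
        exact (hUc _ hiU).1
      have hcard : (F.filter fun i => (g i)⁻¹ • w ∈ U).card ≤ H.card := by
        refine Finset.card_le_card_of_injOn (fun i => (g i)⁻¹ * g i₀) ?_ ?_
        · intro i hi
          rw [Finset.mem_coe, Finset.mem_filter] at hi
          rw [Finset.mem_coe, hH, Set.Finite.mem_toFinset]
          have e2 : ((g i)⁻¹ * g i₀) • ((g i₀)⁻¹ • w) = (g i)⁻¹ • w := by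
            rw [mul_smul, smul_inv_smul]
          refine ⟨(g i₀)⁻¹ • w, (hUc _ hiU).2.1, (hUc _ hiU).2.2, ?_, ?_⟩
          · rw [e2]
            exact (hUc _ hi.2).2.1
          · rw [e2]
            exact (hUc _ hi.2).2.2
        · intro i hi j hj he
          rw [Finset.mem_coe, Finset.mem_filter] at hi hj
          have h3 : (g i)⁻¹ = (g j)⁻¹ := mul_right_cancel he
          exact hinj hi.1 hj.1 (inv_injective h3)
      have hcardM : ((F.filter fun i => (g i)⁻¹ • w ∈ U).card : ℝ≥0∞) ≤ M := by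
        rw [hM]
        exact_mod_cast hcard.trans (Nat.le_succ _)
      calc ((F.filter fun i => (g i)⁻¹ • w ∈ U).card : ℝ≥0∞) *
            (M⁻¹ * ENNReal.ofReal c₀ * ENNReal.ofReal w.im)
          ≤ M * (M⁻¹ * ENNReal.ofReal c₀ * ENNReal.ofReal w.im) := by gcongr
        _ = ENNReal.ofReal c₀ * ENNReal.ofReal w.im := by
            rw [← mul_assoc, ← mul_assoc, ENNReal.mul_inv_cancel hM0 hMt, one_mul]
        _ = ENNReal.ofReal (c₀ * w.im) := (ENNReal.ofReal_mul hc₀).symm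
        _ ≤ _ := ENNReal.ofReal_le_ofReal (mul_le_mul_of_nonneg_right hφ w.im_pos.le)
  refine le_trans ?_ (lintegral_mono hpt)
  have him : Measurable fun w : ℍ => M⁻¹ * ENNReal.ofReal c₀ * ENNReal.ofReal w.im :=
    (UpperHalfPlane.continuous_im.measurable.ennreal_ofReal).const_mul _
  rw [lintegral_finsetSum _ fun i _ => him.indicator (hpre i)]
  rw [mul_assoc, Finset.sum_mul, Finset.mul_sum]
  refine Finset.sum_le_sum fun i hi => ?_
  have e3 : ∫⁻ w : ℍ, {w : ℍ | (g i)⁻¹ • w ∈ U}.indicator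
      (fun w => M⁻¹ * ENNReal.ofReal c₀ * ENNReal.ofReal w.im) w =
      ∫⁻ u : ℍ, U.indicator
        (fun u => M⁻¹ * ENNReal.ofReal c₀ * ENNReal.ofReal (g i • u).im) u := by
    rw [← (c10_mp (g i)).lintegral_comp (him.indicator (hpre i))]
    refine lintegral_congr fun u => ?_
    by_cases hu : u ∈ U
    · rw [Set.indicator_of_mem hu, Set.indicator_of_mem]
      show (g i)⁻¹ • (g i • u) ∈ U
      rwa [inv_smul_smul]
    · rw [Set.indicator_of_notMem hu, Set.indicator_of_notMem]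
      show ¬ (g i)⁻¹ • (g i • u) ∈ U
      rwa [inv_smul_smul]
  rw [e3, lintegral_indicator hU]
  calc M⁻¹ * ENNReal.ofReal c₀ * (κ i * volume U)
      = ∫⁻ _ in U, M⁻¹ * ENNReal.ofReal c₀ * κ i := by
        rw [lintegral_const, Measure.restrict_apply MeasurableSet.univ, Set.univ_inter, mul_assoc,
          mul_assoc, mul_assoc]
    _ ≤ _ := by
        refine setLIntegral_mono' hU fun u hu => ?_
        gcongr
        exact (hS i hi u hu).2

/-- the upper bound by the iterated integral -/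
theorem c10_upper {φ : ℍ → ℝ} (hc : Continuous φ) (h0 : ∀ z, 0 ≤ φ z) {Y₁ : ℝ} (hY : 0 < Y₁)
    (hY1 : Y₁ ≤ 1) :
    ∫⁻ w : ℍ, {w : ℍ | 0 < w.re ∧ w.re ≤ 1 ∧ Y₁ < w.im ∧ w.im ≤ 1}.indicator
      (fun w => ENNReal.ofReal (φ w * w.im)) w =
      ENNReal.ofReal (∫ Y in Y₁..1, (∫ x in (0 : ℝ)..1, φ (pz x Y)) / Y) := by
  set G : ℝ × ℝ → ℝ := fun p => φ (pz p.1 p.2) / p.2 with hG
  have hGc : ContinuousOn G (Icc 0 1 ×ˢ Icc Y₁ 1) := by
    refine ContinuousOn.div ?_ continuousOn_snd fun p hp => (hY.trans_le hp.2.1).ne'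
    refine hc.comp_continuousOn ?_
    show ContinuousOn (fun p : ℝ × ℝ => ofComplex ((p.1 : ℂ) + (p.2 : ℂ) * I)) _
    have hsrc : ContinuousOn (ofComplex : ℂ → ℍ) {z | 0 < z.im} := by
      have := (ofComplex : OpenPartialHomeomorph ℂ ℍ).continuousOn
      refine this.mono ?_
      intro z hz
      exact ⟨⟨z, hz⟩, mem_univ _, rfl⟩
    refine hsrc.comp (by fun_prop) ?_
    intro p hp
    show 0 < ((p.1 : ℂ) + (p.2 : ℂ) * I).im
    simp
    exact hY.trans_le hp.2.1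
  have hGi : IntegrableOn G (Ioc 0 1 ×ˢ Ioc Y₁ 1) (volume.prod volume) := by
    refine IntegrableOn.mono_set ?_ (Set.prod_mono Ioc_subset_Icc_self Ioc_subset_Icc_self)
    exact hGc.integrableOn_compact (isCompact_Icc.prod isCompact_Icc)
  -- the left side as an integral over `ℝ × ℝ`
  have e1 : ∫⁻ w : ℍ, {w : ℍ | 0 < w.re ∧ w.re ≤ 1 ∧ Y₁ < w.im ∧ w.im ≤ 1}.indicator
      (fun w => ENNReal.ofReal (φ w * w.im)) w =
      ∫⁻ p in Ioc 0 1 ×ˢ Ioc Y₁ 1, ENNReal.ofReal (G p) ∂(volume.prod volume) := by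
    set F : ℂ → ℝ≥0∞ := {z : ℂ | 0 < z.re ∧ z.re ≤ 1 ∧ Y₁ < z.im ∧ z.im ≤ 1}.indicator
      (fun z => ENNReal.ofReal (φ (ofComplex z) * z.im)) with hF
    have e2 : ∀ w : ℍ, {w : ℍ | 0 < w.re ∧ w.re ≤ 1 ∧ Y₁ < w.im ∧ w.im ≤ 1}.indicator
      (fun w => ENNReal.ofReal (φ w * w.im)) w = F w := by
      intro w
      rw [hF]
      by_cases hw : 0 < w.re ∧ w.re ≤ 1 ∧ Y₁ < w.im ∧ w.im ≤ 1
      · rw [Set.indicator_of_mem (by exact hw), Set.indicator_of_mem (by exact hw)]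
        simp only [ofComplex_apply]
        rfl
      · rw [Set.indicator_of_notMem (by exact hw), Set.indicator_of_notMem (by exact hw)]
    rw [lintegral_congr e2, c10_lint_H]
    have hms : MeasurableSet {z : ℂ | 0 < z.im} :=
      (isOpen_lt continuous_const Complex.continuous_im).measurableSet
    rw [← lintegral_indicator hms,
      ← Complex.volume_preserving_equiv_real_prod.symm.lintegral_comp_emb
        Complex.measurableEquivRealProd.symm.measurableEmbedding]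
    rw [← lintegral_indicator (measurableSet_Ioc.prod measurableSet_Ioc)]
    refine lintegral_congr fun p => ?_
    by_cases hp : p ∈ Ioc (0 : ℝ) 1 ×ˢ Ioc Y₁ 1
    · rw [Set.indicator_of_mem hp]
      have hz : Complex.measurableEquivRealProd.symm p = (p.1 : ℂ) + (p.2 : ℂ) * I := by
        apply Complex.ext <;> simp [Complex.measurableEquivRealProd]
      have hp2 : 0 < p.2 := hY.trans hp.2.1
      have him : ((p.1 : ℂ) + (p.2 : ℂ) * I).im = p.2 := by simp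
      have hre : ((p.1 : ℂ) + (p.2 : ℂ) * I).re = p.1 := by simp
      rw [hz, Set.indicator_of_mem (by rw [Set.mem_ofPred_eq, him]; exact hp2), hF,
        Set.indicator_of_mem, him]
      · rw [hG, ← ENNReal.ofReal_mul (mul_nonneg (h0 _) hp2.le)]
        congr 1
        show φ (pz p.1 p.2) * p.2 * (1 / p.2 ^ 2) = φ (pz p.1 p.2) / p.2
        field_simp
      · show 0 < _ ∧ _ ≤ 1 ∧ Y₁ < _ ∧ _ ≤ 1
        rw [him, hre]
        exact ⟨hp.1.1, hp.1.2, hp.2.1, hp.2.2⟩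
    · rw [Set.indicator_of_notMem hp]
      have h1 : F (Complex.measurableEquivRealProd.symm p) = 0 := by
        rw [hF, Set.indicator_of_notMem]
        rintro ⟨q1, q2, q3, q4⟩
        exact hp ⟨⟨q1, q2⟩, ⟨q3, q4⟩⟩
      rw [Set.indicator_apply, h1, zero_mul]
      split_ifs <;> rfl
  rw [e1, ← ofReal_integral_eq_lintegral_ofReal hGi]
  · congr 1
    have hGi' : Integrable G ((volume.restrict (Ioc 0 1)).prod (volume.restrict (Ioc Y₁ 1))) := by
      rw [Measure.prod_restrict]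
      exact hGi
    rw [intervalIntegral.integral_of_le hY1, ← Measure.prod_restrict,
      integral_prod_symm _ hGi']
    refine integral_congr_ae (Filter.Eventually.of_forall fun Y => ?_)
    show ∫ x in Ioc (0 : ℝ) 1, φ (pz x Y) / Y = (∫ x in (0 : ℝ)..1, φ (pz x Y)) / Y
    rw [intervalIntegral.integral_of_le zero_le_one, integral_div]
  · refine (ae_restrict_iff' (measurableSet_Ioc.prod measurableSet_Ioc)).2
      (Filter.Eventually.of_forall fun p hp => ?_)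
    exact div_nonneg (h0 _) (hY.trans hp.2.1).le

/-- C10: the divergence (this needs only invariance) -/
theorem diverge_pr {N : ℕ} [NeZero N] {φ : ℍ → ℝ} (hc : Continuous φ) (h0 : ∀ z, 0 ≤ φ z)
    (hinv : ∀ γ : SL(2, ℤ), (N : ℤ) ∣ γ 1 0 → ∀ z : ℍ, φ (γ • z) = φ z) (hne : ∃ z, φ z ≠ 0)
    (C : ℝ) : ∃ Y₀ : ℝ, 0 < Y₀ ∧ ∀ Y₁ : ℝ, 0 < Y₁ → Y₁ < Y₀ →
      C ≤ ∫ Y in Y₁..1, (∫ x in (0 : ℝ)..1, φ (pz x Y)) / Y := by
  classical
  obtain ⟨z₀, hz₀⟩ := hne
  have hpos : 0 < φ z₀ := lt_of_le_of_ne (h0 z₀) (Ne.symm hz₀)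
  set c₀ : ℝ := φ z₀ / 2 with hc₀
  set y : ℝ := z₀.im / 2 with hy
  set B : ℝ := ‖(z₀ : ℂ)‖ + 1 with hB
  have hc₀0 : 0 < c₀ := by positivity
  have hy0 : 0 < y := by
    have := z₀.im_pos
    positivity
  have hB0 : 0 ≤ B := by positivity
  set U : Set ℍ := {z | c₀ < φ z ∧ y < z.im ∧ ‖(z : ℂ)‖ < B} with hU
  have hUo : IsOpen U := by
    have h1 : IsOpen {z : ℍ | c₀ < φ z} := isOpen_lt continuous_const hc
    have h2 : IsOpen {z : ℍ | y < z.im} := isOpen_lt continuous_const UpperHalfPlane.continuous_im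
    have h3 : IsOpen {z : ℍ | ‖(z : ℂ)‖ < B} :=
      isOpen_lt UpperHalfPlane.continuous_coe.norm continuous_const
    exact h1.inter (h2.inter h3)
  have hUne : U.Nonempty := by
    refine ⟨z₀, ?_, ?_, ?_⟩
    · rw [hc₀]; linarith
    · rw [hy]; linarith [z₀.im_pos]
    · rw [hB]; linarith
  have hvol := c10_vol_pos hUo hUne
  obtain ⟨M, hM0, hMt, hlow⟩ := c10_lower (N := N) hinv hc₀0.le hy0 hUo.measurableSet
    (B := B) (fun z hz => ⟨hz.1.le, hz.2.1.le, hz.2.2.le⟩)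
  have hprod : 0 < M⁻¹ * ENNReal.ofReal c₀ * volume U := by
    refine ENNReal.mul_pos (mul_ne_zero (ENNReal.inv_ne_zero.2 hMt) ?_) hvol.ne'
    exact (ENNReal.ofReal_pos.2 hc₀0).ne'
  obtain ⟨a, ha0, ha1, ha2⟩ := ENNReal.lt_iff_exists_real_btwn.1 hprod
  have ha : 0 < a := ENNReal.ofReal_pos.1 ha1
  have hN1 : 1 ≤ N := Nat.one_le_iff_ne_zero.2 (NeZero.ne N)
  have hN0 : (0 : ℝ) < N := by exact_mod_cast hN1
  have hN1r : (1 : ℝ) ≤ N := by exact_mod_cast hN1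
  set D : ℝ := y / (2 * N ^ 2 * (B + 1) ^ 2) with hD
  have hD0 : 0 < D := by positivity
  -- the sum over primes
  set f : ℕ → ℝ := {p | Nat.Prime p}.indicator fun n => 1 / (n : ℝ) with hf
  have hf0 : ∀ n, 0 ≤ f n := fun n => Set.indicator_nonneg (fun _ _ => by positivity) n
  have hdiv := (not_summable_iff_tendsto_nat_atTop_of_nonneg hf0).1 not_summable_one_div_on_primes
  obtain ⟨p₀, hp₀⟩ := exists_nat_gt (1 / y)
  set p₁ : ℕ := max p₀ 2 with hp₁
  have hp₁y : ∀ p : ℕ, p₁ ≤ p → 1 < (N * p : ℕ) * y := by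
    intro p hp
    have h1 : (p₀ : ℝ) ≤ p := by exact_mod_cast (le_max_left _ _).trans hp
    have h2 : 1 / y < (N * p : ℕ) := by
      push_cast
      have h3 : (0 : ℝ) ≤ p := Nat.cast_nonneg p
      nlinarith
    rwa [div_lt_iff₀ hy0] at h2
  obtain ⟨m, hm1, hm2⟩ := (hdiv.eventually_ge_atTop
    (C / (a * D) + ∑ i ∈ Finset.range p₁, f i) |>.and (eventually_ge_atTop p₁)).exists
  set P : Finset ℕ := (Finset.Ico p₁ m).filter Nat.Prime with hP
  have hsumP : C / (a * D) ≤ ∑ p ∈ P, 1 / (p : ℝ) := by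
    have e1 : ∑ p ∈ P, 1 / (p : ℝ) = ∑ p ∈ Finset.Ico p₁ m, f p := by
      rw [hP, Finset.sum_filter]
      refine Finset.sum_congr rfl fun p _ => ?_
      rw [hf, Set.indicator_apply]
      rfl
    rw [e1, Finset.sum_Ico_eq_sub _ hm2]
    linarith
  have hm0 : (0 : ℝ) < m := by
    have : 2 ≤ m := (le_max_right _ _).trans hm2
    exact_mod_cast (by omega : 0 < m)
  -- the family of matrices
  have hex : ∀ i : (_ : ℕ) × ℕ, ∃ g : SL(2, ℤ), (1 < N * i.1 ∧ i.2.Coprime (N * i.1)) →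
      (g 0 0 = i.2 ∧ g 1 0 = ((N * i.1 : ℕ) : ℤ) ∧ 0 ≤ g 1 1 ∧ g 1 1 < ((N * i.1 : ℕ) : ℤ)) := by
    intro i
    by_cases h : 1 < N * i.1 ∧ i.2.Coprime (N * i.1)
    · obtain ⟨g, hg⟩ := c10_exists (N * i.1) i.2 h.1 h.2
      exact ⟨g, fun _ => hg⟩
    · exact ⟨1, fun h' => absurd h' h⟩
  choose g hg using hex
  set F : Finset ((_ : ℕ) × ℕ) := P.sigma fun p =>
    (Finset.range (N * p)).filter fun a => (N * p).Coprime a with hF
  have hFm : ∀ i ∈ F, p₁ ≤ i.1 ∧ i.1 < m ∧ i.1.Prime ∧ 1 < N * i.1 ∧ i.2.Coprime (N * i.1) ∧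
      i.2 < N * i.1 ∧ 0 < i.2 := by
    intro i hi
    rw [hF, Finset.mem_sigma, hP, Finset.mem_filter, Finset.mem_Ico, Finset.mem_filter,
      Finset.mem_range] at hi
    obtain ⟨⟨⟨h1, h2⟩, h3⟩, h4, h5⟩ := hi
    have h6 : 2 ≤ i.1 := h3.two_le
    have h7 : 1 < N * i.1 := by nlinarith
    refine ⟨h1, h2, h3, h7, h5.symm, h4, ?_⟩
    rcases Nat.eq_zero_or_pos i.2 with h8 | h8
    · rw [h8, Nat.coprime_zero_right] at h5
      omega
    · exact h8
  set κ : (_ : ℕ) × ℕ → ℝ≥0∞ := fun i =>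
    ENNReal.ofReal (y / (((N * i.1 : ℕ) : ℝ) ^ 2 * (B + 1) ^ 2)) with hκ
  have hginj : Set.InjOn g F := by
    intro i hi j hj he
    obtain ⟨-, -, -, i1, i2, -, -⟩ := hFm i hi
    obtain ⟨-, -, -, j1, j2, -, -⟩ := hFm j hj
    obtain ⟨gi1, gi2, -, -⟩ := hg i ⟨i1, i2⟩
    obtain ⟨gj1, gj2, -, -⟩ := hg j ⟨j1, j2⟩
    rw [he] at gi1 gi2
    have e1 : (i.2 : ℤ) = j.2 := gi1.symm.trans gj1
    have e2 : ((N * i.1 : ℕ) : ℤ) = ((N * j.1 : ℕ) : ℤ) := gi2.symm.trans gj2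
    have e3 : N * i.1 = N * j.1 := by exact_mod_cast e2
    have e4 : i.1 = j.1 := Nat.eq_of_mul_eq_mul_left hN1 e3
    have e5 : i.2 = j.2 := by exact_mod_cast e1
    exact Sigma.ext e4 (heq_of_eq e5)
  -- the sum of the weights
  have hsumκ : ENNReal.ofReal (D * ∑ p ∈ P, 1 / (p : ℝ)) ≤ ∑ i ∈ F, κ i := by
    rw [hF, Finset.sum_sigma, Finset.mul_sum,
      ENNReal.ofReal_sum_of_nonneg fun p _ => by positivity]
    refine Finset.sum_le_sum fun p hp => ?_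
    rw [hP, Finset.mem_filter, Finset.mem_Ico] at hp
    simp only [hκ]
    rw [Finset.sum_const, ← Nat.totient_eq_card_coprime, nsmul_eq_mul, ← ENNReal.ofReal_natCast,
      ← ENNReal.ofReal_mul (Nat.cast_nonneg _)]
    refine ENNReal.ofReal_le_ofReal ?_
    have h1 : p - 1 ≤ (N * p).totient := by
      calc p - 1 = p.totient := (Nat.totient_prime hp.2).symm
        _ ≤ N.totient * p.totient := Nat.le_mul_of_pos_left _ (Nat.totient_pos.2 hN1)
        _ ≤ _ := Nat.totient_super_multiplicative N p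
    have hp2 : 2 ≤ p := hp.2.two_le
    have h2 : (p : ℝ) / 2 ≤ (N * p).totient := by
      have h3 : p ≤ 2 * (N * p).totient := by omega
      have h4 : (p : ℝ) ≤ 2 * (N * p).totient := by exact_mod_cast h3
      linarith
    have hpr : (0 : ℝ) < p := by exact_mod_cast hp.2.pos
    calc D * (1 / p) = p / 2 * (y / (((N * p : ℕ) : ℝ) ^ 2 * (B + 1) ^ 2)) := by
          rw [hD]
          push_cast
          field_simp
      _ ≤ _ := mul_le_mul_of_nonneg_right h2 (by positivity)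
  refine ⟨min 1 (y / (((N * m : ℕ) : ℝ) ^ 2 * (B + 1) ^ 2)), by
    have : (0 : ℝ) < ((N * m : ℕ) : ℝ) := by push_cast; positivity
    positivity, fun Y₁ hY₁ hY₁' => ?_⟩
  have hY1 : Y₁ ≤ 1 := (hY₁'.trans_le (min_le_left _ _)).le
  have hup := c10_upper hc h0 hY₁ hY1
  have hl := hlow F g κ {w : ℍ | 0 < w.re ∧ w.re ≤ 1 ∧ Y₁ < w.im ∧ w.im ≤ 1} hginj
    (fun i hi => by
      obtain ⟨-, -, -, i1, i2, -, -⟩ := hFm i hi
      rw [(hg i ⟨i1, i2⟩).2.1]
      push_cast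
      exact Dvd.intro _ rfl)
    (fun i hi u hu => by
      obtain ⟨i0, im, i3, i1, i2, i4, i5⟩ := hFm i hi
      obtain ⟨g1, g2, g3, g4⟩ := hg i ⟨i1, i2⟩
      obtain ⟨q1, q2, q3, q4⟩ := c10_pos g1 g2 g3 g4 i5 i4 hy0 hu.2.1.le hu.2.2.le (hp₁y i.1 i0)
      refine ⟨⟨q1, q2, ?_, q3⟩, ENNReal.ofReal_le_ofReal q4⟩
      refine lt_of_lt_of_le (hY₁'.trans_le (min_le_right _ _)) (le_trans ?_ q4)
      have hc0 : (0 : ℝ) < ((N * i.1 : ℕ) : ℝ) := by exact_mod_cast (by omega : 0 < N * i.1)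
      have hcm : ((N * i.1 : ℕ) : ℝ) ≤ ((N * m : ℕ) : ℝ) := by
        exact_mod_cast Nat.mul_le_mul_left N im.le
      gcongr)
  rw [hup] at hl
  have hfin : ENNReal.ofReal C ≤
      ENNReal.ofReal (∫ Y in Y₁..1, (∫ x in (0 : ℝ)..1, φ (pz x Y)) / Y) := by
    refine le_trans ?_ hl
    calc ENNReal.ofReal C ≤ ENNReal.ofReal (a * (D * ∑ p ∈ P, 1 / (p : ℝ))) := by
          refine ENNReal.ofReal_le_ofReal ?_
          rw [div_le_iff₀ (by positivity)] at hsumP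
          linarith
      _ = ENNReal.ofReal a * ENNReal.ofReal (D * ∑ p ∈ P, 1 / (p : ℝ)) := ENNReal.ofReal_mul ha0
      _ ≤ (M⁻¹ * ENNReal.ofReal c₀ * volume U) * ∑ i ∈ F, κ i := mul_le_mul' ha2.le hsumκ
      _ = _ := by ring
  rwa [ENNReal.ofReal_le_ofReal_iff] at hfin
  refine intervalIntegral.integral_nonneg hY1 fun Y hY => div_nonneg ?_ (hY₁.trans_le hY.1).le
  exact intervalIntegral.integral_nonneg zero_le_one fun x _ => h0 _

end Pool.Agent.JO.FM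

namespace Pool.Agent.JO.FM

theorem diverge : type_of% @diverge_pr := @diverge_pr

end Pool.Agent.JO.FM
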