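import Pool.Agent.Lib_helper45.JO.Defs2

/-!
# Project JO, part FM: block D3
-/

set_option autoImplicit false

namespace Pool.Agent.JO.FM

open Complex Filter Topology MeasureTheory Set
open UpperHalfPlane hiding I
open scoped MatrixGroups ComplexConjugate

theorem d3_exp {w : ℂ} (hw : w.re ≤ 0) : ‖cexp w - 1‖ ≤ ‖w‖ := by
  have h := Convex.norm_image_sub_le_of_norm_hasDerivWithin_le (𝕜 := ℂ) (f := cexp) (f' := cexp)
    (C := 1) (s := {z : ℂ | z.re ≤ 0}) (x := 0) (y := w)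
    (fun x _ => (Complex.hasDerivAt_exp x).hasDerivWithinAt)
    (fun x hx => by
      rw [Complex.norm_exp]
      exact Real.exp_le_one_iff.2 hx) (convex_halfSpace_re_le 0) (by simp) hw
  simpa using h

/-- the ratio of the two kernels -/
theorem d3_cpow {n ρ : ℝ} (hn : 0 < n) (h0 : 0 < ρ) (h1 : ρ ≤ 1) {s : ℂ} (hs : 0 < s.re) :
    ‖((ρ * n : ℝ) : ℂ) ^ s - ((n : ℝ) : ℂ) ^ s‖ ≤ n ^ s.re * (‖s‖ * (1 / ρ - 1)) := by
  have e1 : ((ρ * n : ℝ) : ℂ) ^ s = ((ρ : ℝ) : ℂ) ^ s * ((n : ℝ) : ℂ) ^ s := by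
    rw [Complex.ofReal_mul, Complex.mul_cpow_ofReal_nonneg h0.le hn.le]
  have e2 : ((ρ * n : ℝ) : ℂ) ^ s - ((n : ℝ) : ℂ) ^ s =
      ((n : ℝ) : ℂ) ^ s * (((ρ : ℝ) : ℂ) ^ s - 1) := by rw [e1]; ring
  rw [e2, norm_mul, Complex.norm_cpow_eq_rpow_re_of_pos hn]
  refine mul_le_mul_of_nonneg_left ?_ (Real.rpow_nonneg hn.le _)
  have hρ0 : ((ρ : ℝ) : ℂ) ≠ 0 := by exact_mod_cast h0.ne'
  rw [Complex.cpow_def_of_ne_zero hρ0, ← Complex.ofReal_log h0.le]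
  have hlog : Real.log ρ ≤ 0 := Real.log_nonpos h0.le h1
  have h2 : (((Real.log ρ : ℝ) : ℂ) * s).re ≤ 0 := by
    rw [Complex.re_ofReal_mul]
    exact mul_nonpos_of_nonpos_of_nonneg hlog hs.le
  refine (d3_exp h2).trans ?_
  rw [norm_mul, Complex.norm_real, Real.norm_eq_abs, abs_of_nonpos hlog, mul_comm]
  refine mul_le_mul_of_nonneg_left ?_ (norm_nonneg s)
  have h3 := Real.one_sub_inv_le_log_of_pos h0
  rw [one_div]
  linarith

/-- the integrand of `(cos θ)^s AA s θ` -/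
theorem d3_ratio {θ : ℝ} (h : θ ∈ SP.II) (τ : ℝ) :
    ∃ ρ : ℝ, Real.cos θ ≤ ρ ∧ ρ ≤ 1 ∧ Real.cos θ * SP.qq (Real.cos θ) τ = ρ * SP.qq 1 τ := by
  have hc := SP.cos_pos' h
  have hc1 := Real.cos_le_one θ
  have ht := Real.one_le_cosh τ
  refine ⟨Real.cos θ * (Real.cosh τ + 1) / (Real.cosh τ + Real.cos θ), ?_, ?_, ?_⟩
  · rw [le_div_iff₀ (by linarith)]
    exact mul_le_mul_of_nonneg_left (by linarith) hc.le
  · rw [div_le_one (by linarith)]
    nlinarith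
  · unfold SP.qq
    have h1 : Real.cosh τ + 1 ≠ 0 := by linarith
    have h2 : Real.cosh τ + Real.cos θ ≠ 0 := by linarith
    field_simp

theorem d3_qq_le {c : ℝ} (hc : 0 ≤ c) (τ : ℝ) {σ : ℝ} (hσ : 0 < σ) :
    SP.qq c τ ^ σ ≤ Real.exp (-(σ * |τ|)) := by
  have h := SP.qq_bound hc τ (s := (σ : ℂ)) (by simpa using hσ)
  rw [Complex.norm_cpow_eq_rpow_re_of_pos (SP.qq_pos hc τ)] at h
  simpa using h

theorem d3_cont {c : ℝ} (hc : 0 ≤ c) (s : ℂ) :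
    Continuous (fun τ : ℝ => ((SP.qq c τ : ℝ) : ℂ) ^ s) := by
  refine Continuous.cpow (Complex.continuous_ofReal.comp ?_) continuous_const (fun τ => ?_)
  · unfold SP.qq
    refine continuous_const.div (by fun_prop) (fun τ => ?_)
    have := Real.cosh_pos τ
    positivity
  · exact Or.inl (by simpa using SP.qq_pos hc τ)

theorem d3_int {c : ℝ} (hc : 0 ≤ c) {s : ℂ} (hs : 0 < s.re) :
    Integrable (fun τ : ℝ => ((SP.qq c τ : ℝ) : ℂ) ^ s) :=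
  (SP.f2_int hs).mono' (d3_cont hc s).aestronglyMeasurable
    (ae_of_all _ fun τ => SP.qq_bound hc τ hs)

theorem d3_kk {θ : ℝ} (h : θ ∈ SP.II) (τ : ℝ) :
    Real.cos θ ≤ (Real.cos θ * Real.cosh τ + 1) / (Real.cosh τ + Real.cos θ) ∧
    (Real.cos θ * Real.cosh τ + 1) / (Real.cosh τ + Real.cos θ) ≤ 1 := by
  have hc := SP.cos_pos' h
  have hc1 := Real.cos_le_one θ
  have ht := Real.one_le_cosh τ
  constructor
  · rw [le_div_iff₀ (by linarith)]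
    nlinarith
  · rw [div_le_one (by linarith)]
    nlinarith

theorem d3_intB {θ : ℝ} (h : θ ∈ SP.II) {s : ℂ} (hs : 0 < s.re) :
    Integrable (fun τ : ℝ => ((SP.qq (Real.cos θ) τ : ℝ) : ℂ) ^ s *
      (((Real.cos θ * Real.cosh τ + 1) / (Real.cosh τ + Real.cos θ) : ℝ) : ℂ)) := by
  have hc := SP.cos_pos' h
  refine (SP.f2_int hs).mono' ?_ (ae_of_all _ fun τ => ?_)
  · refine ((d3_cont hc.le s).mul (Complex.continuous_ofReal.comp ?_)).aestronglyMeasurable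
    refine Continuous.div (by fun_prop) (by fun_prop) (fun τ => ?_)
    have := Real.cosh_pos τ
    linarith
  · rw [norm_mul, Complex.norm_real, Real.norm_eq_abs,
      abs_of_nonneg (hc.le.trans (d3_kk h τ).1)]
    calc _ ≤ Real.exp (-(s.re * |τ|)) * 1 :=
          mul_le_mul (SP.qq_bound hc.le τ hs) (d3_kk h τ).2 (hc.le.trans (d3_kk h τ).1)
            (Real.exp_pos _).le
      _ = _ := mul_one _

theorem d3_trig {θ : ℝ} (h : θ ∈ SP.II) : 1 / Real.cos θ - 1 ≤ Real.tan θ ∧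
    1 - Real.cos θ ^ 2 ≤ Real.tan θ ∧ 0 < Real.tan θ := by
  have hc := SP.cos_pos' h
  have hc1 := Real.cos_le_one θ
  have hs := SP.sin_pos' h
  have hs1 := Real.sin_le_one θ
  have h1 := Real.sin_sq_add_cos_sq θ
  rw [Real.tan_eq_sin_div_cos]
  refine ⟨?_, ?_, div_pos hs hc⟩
  · rw [div_sub_one hc.ne']
    refine div_le_div_of_nonneg_right ?_ hc.le
    nlinarith
  · rw [le_div_iff₀ hc]
    nlinarith [mul_pos hs hs, mul_pos hs hc]

/-- the estimate of one integrand -/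
theorem d3_one {θ : ℝ} (h : θ ∈ SP.II) {s : ℂ} (hs : 0 < s.re) (τ : ℝ) :
    ‖((Real.cos θ * SP.qq (Real.cos θ) τ : ℝ) : ℂ) ^ s - ((SP.qq 1 τ : ℝ) : ℂ) ^ s‖ ≤
      ‖s‖ * Real.tan θ * Real.exp (-(s.re * |τ|)) := by
  obtain ⟨ρ, h1, h2, h3⟩ := d3_ratio h τ
  have hc := SP.cos_pos' h
  have hn := SP.qq_pos zero_le_one τ
  rw [h3]
  refine (d3_cpow hn (hc.trans_le h1) h2 hs).trans ?_
  have h4 : 1 / ρ - 1 ≤ Real.tan θ :=
    (sub_le_sub_right (one_div_le_one_div_of_le hc h1) 1).trans (d3_trig h).1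
  calc SP.qq 1 τ ^ s.re * (‖s‖ * (1 / ρ - 1)) ≤
      Real.exp (-(s.re * |τ|)) * (‖s‖ * Real.tan θ) := by
        refine mul_le_mul (d3_qq_le zero_le_one τ hs)
          (mul_le_mul_of_nonneg_left h4 (norm_nonneg s)) ?_ (Real.exp_pos _).le
        refine mul_nonneg (norm_nonneg s) ?_
        have : 1 ≤ 1 / ρ := by
          rw [le_div_iff₀ (hc.trans_le h1)]
          linarith
        linarith
    _ = _ := by ring

theorem d3_m {θ : ℝ} (h : θ ∈ SP.II) {s : ℂ} (hs : 0 < s.re) (τ : ℝ) :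
    ‖((Real.cos θ * SP.qq (Real.cos θ) τ : ℝ) : ℂ) ^ s‖ ≤ Real.exp (-(s.re * |τ|)) := by
  obtain ⟨ρ, h1, h2, h3⟩ := d3_ratio h τ
  have hc := SP.cos_pos' h
  have hn := SP.qq_pos zero_le_one τ
  have hq := SP.qq_pos hc.le τ
  rw [Complex.norm_cpow_eq_rpow_re_of_pos (mul_pos hc hq), h3]
  refine (Real.rpow_le_rpow (mul_pos (hc.trans_le h1) hn).le ?_ hs.le).trans
    (d3_qq_le zero_le_one τ hs)
  exact mul_le_of_le_one_left hn.le h2

theorem d3_AA {θ : ℝ} (h : θ ∈ SP.II) {s : ℂ} (hs : 0 < s.re) :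
    ‖((Real.cos θ : ℝ) : ℂ) ^ s * SP.AA s θ - SP.bb s‖ ≤ 2 / s.re * (‖s‖ * Real.tan θ) := by
  have hc := SP.cos_pos' h
  rw [SP.AA, SP.bb, ← integral_const_mul,
    ← integral_sub ((d3_int hc.le hs).const_mul _) (d3_int zero_le_one hs)]
  refine (norm_integral_le_of_norm_le ((SP.f2_int hs).const_mul (‖s‖ * Real.tan θ))
    (ae_of_all _ fun τ => ?_)).trans (le_of_eq ?_)
  · have := d3_one h hs τ
    rwa [Complex.ofReal_mul, Complex.mul_cpow_ofReal_nonneg hc.le (SP.qq_pos hc.le τ).le] at this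
  · rw [integral_const_mul, SP.f2_integral hs]
    ring

theorem d3_BB {θ : ℝ} (h : θ ∈ SP.II) {s : ℂ} (hs : 0 < s.re) :
    ‖((Real.cos θ : ℝ) : ℂ) * (((Real.cos θ : ℝ) : ℂ) ^ s * SP.BB s θ) - SP.bb s‖ ≤
      2 / s.re * ((‖s‖ + 1) * Real.tan θ) := by
  have hc := SP.cos_pos' h
  have hc1 := Real.cos_le_one θ
  rw [SP.BB, SP.bb, ← integral_const_mul, ← integral_const_mul,
    ← integral_sub (((d3_intB h hs).const_mul _).const_mul _) (d3_int zero_le_one hs)]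
  refine (norm_integral_le_of_norm_le ((SP.f2_int hs).const_mul ((‖s‖ + 1) * Real.tan θ))
    (ae_of_all _ fun τ => ?_)).trans (le_of_eq ?_)
  · have h1 := d3_one h hs τ
    have h2 := d3_m h hs τ
    rw [Complex.ofReal_mul, Complex.mul_cpow_ofReal_nonneg hc.le (SP.qq_pos hc.le τ).le] at h1 h2
    set m : ℂ := ((Real.cos θ : ℝ) : ℂ) ^ s * ((SP.qq (Real.cos θ) τ : ℝ) : ℂ) ^ s with hm
    set k : ℝ := (Real.cos θ * Real.cosh τ + 1) / (Real.cosh τ + Real.cos θ) with hk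
    set n : ℂ := ((SP.qq 1 τ : ℝ) : ℂ) ^ s with hn
    have hk1 := (d3_kk h τ).1
    have hk2 := (d3_kk h τ).2
    have e : ((Real.cos θ : ℝ) : ℂ) * (((Real.cos θ : ℝ) : ℂ) ^ s *
        (((SP.qq (Real.cos θ) τ : ℝ) : ℂ) ^ s * ((k : ℝ) : ℂ))) - n =
        (m - n) - m * ((1 - Real.cos θ * k : ℝ) : ℂ) := by
      rw [hm]; push_cast; ring
    rw [e]
    refine (norm_sub_le _ _).trans ?_
    rw [norm_mul, Complex.norm_real, Real.norm_eq_abs]
    have h3 : |1 - Real.cos θ * k| ≤ Real.tan θ := by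
      rw [abs_of_nonneg (by nlinarith)]
      refine le_trans ?_ (d3_trig h).2.1
      nlinarith
    calc ‖m - n‖ + ‖m‖ * |1 - Real.cos θ * k| ≤ ‖s‖ * Real.tan θ * Real.exp (-(s.re * |τ|)) +
        Real.exp (-(s.re * |τ|)) * Real.tan θ :=
          add_le_add h1 (mul_le_mul h2 h3 (abs_nonneg _) (Real.exp_pos _).le)
      _ = _ := by ring
  · rw [integral_const_mul, SP.f2_integral hs]
    ring

/-- D3: the correction `(1+v²)^(-s/2) AA s θ - bb s`, `v = tan θ`, and its derivative -/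
theorem ff_tan_pr {θ₀ : ℝ} (hθ₀ : θ₀ ∈ SP.II) {R : ℝ} : ∃ C : ℝ, ∀ (s : ℂ) (θ : ℝ), 0 < s.re →
    1 / 8 ≤ s.re → ‖s‖ ≤ R → 0 < θ → θ ≤ θ₀ →
    ‖SP.ff s θ - SP.bb s * (Real.tan θ : ℂ) ^ s‖ ≤ C * Real.tan θ ^ (s.re + 1) ∧
    ‖SP.fp s θ * (Real.cos θ : ℂ) ^ 2 - s * SP.bb s * (Real.tan θ : ℂ) ^ (s - 1)‖ ≤
      C * Real.tan θ ^ s.re := by
  refine ⟨16 * (R + 1) * (R + 1), ?_⟩
  intro s θ hs hs8 hsR h0 hθ
  have h : θ ∈ SP.II := ⟨h0, hθ.trans_lt hθ₀.2⟩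
  have hc := SP.cos_pos' h
  have hsin := SP.sin_pos' h
  obtain ⟨-, -, ht⟩ := d3_trig h
  have hR : 0 ≤ R := (norm_nonneg s).trans hsR
  have hsin' : Real.sin θ = Real.tan θ * Real.cos θ := (Real.tan_mul_cos hc.ne').symm
  have h2σ : 2 / s.re ≤ 16 := by
    rw [div_le_iff₀ hs]
    linarith
  have hpow : ((Real.sin θ : ℝ) : ℂ) ^ s =
      ((Real.tan θ : ℝ) : ℂ) ^ s * ((Real.cos θ : ℝ) : ℂ) ^ s := by
    rw [hsin', Complex.ofReal_mul, Complex.mul_cpow_ofReal_nonneg ht.le hc.le]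
  have htc : ((Real.tan θ : ℝ) : ℂ) ≠ 0 := by exact_mod_cast ht.ne'
  have hcc : ((Real.cos θ : ℝ) : ℂ) ≠ 0 := by exact_mod_cast hc.ne'
  have hsc : ((Real.sin θ : ℝ) : ℂ) ≠ 0 := by exact_mod_cast hsin.ne'
  constructor
  · rw [SP.ff_eq_AA h, hpow]
    have e : ((Real.tan θ : ℝ) : ℂ) ^ s * ((Real.cos θ : ℝ) : ℂ) ^ s * SP.AA s θ -
        SP.bb s * ((Real.tan θ : ℝ) : ℂ) ^ s = ((Real.tan θ : ℝ) : ℂ) ^ s *
          (((Real.cos θ : ℝ) : ℂ) ^ s * SP.AA s θ - SP.bb s) := by ring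
    rw [e, norm_mul, Complex.norm_cpow_eq_rpow_re_of_pos ht, Real.rpow_add ht, Real.rpow_one]
    have h1 : 2 / s.re * (‖s‖ * Real.tan θ) ≤ 16 * (R + 1) * (R + 1) * Real.tan θ := by
      have h2 : 2 / s.re * ‖s‖ ≤ 16 * R := mul_le_mul h2σ hsR (norm_nonneg s) (by norm_num)
      have h3 : 16 * R ≤ 16 * (R + 1) * (R + 1) := by nlinarith
      calc 2 / s.re * (‖s‖ * Real.tan θ) = (2 / s.re * ‖s‖) * Real.tan θ := by ring
        _ ≤ _ := mul_le_mul_of_nonneg_right (h2.trans h3) ht.le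
    calc Real.tan θ ^ s.re * ‖((Real.cos θ : ℝ) : ℂ) ^ s * SP.AA s θ - SP.bb s‖ ≤
        Real.tan θ ^ s.re * (16 * (R + 1) * (R + 1) * Real.tan θ) :=
          mul_le_mul_of_nonneg_left ((d3_AA h hs).trans h1) (Real.rpow_nonneg ht.le _)
      _ = _ := by ring
  · have e : SP.fp s θ * ((Real.cos θ : ℝ) : ℂ) ^ 2 - s * SP.bb s *
        ((Real.tan θ : ℝ) : ℂ) ^ (s - 1) = s * (((Real.tan θ : ℝ) : ℂ) ^ (s - 1) *
          (((Real.cos θ : ℝ) : ℂ) * (((Real.cos θ : ℝ) : ℂ) ^ s * SP.BB s θ) - SP.bb s)) := by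
      rw [SP.fp_eq_BB h, hpow, Complex.cpow_sub _ _ htc, Complex.cpow_one, hsin',
        Complex.ofReal_mul]
      field_simp
    rw [e, norm_mul, norm_mul, Complex.norm_cpow_eq_rpow_re_of_pos ht, Complex.sub_re,
      Complex.one_re, Real.rpow_sub_one ht.ne']
    have h1 : 2 / s.re * ((‖s‖ + 1) * Real.tan θ) ≤ 16 * (R + 1) * Real.tan θ := by
      have h2 : 2 / s.re * (‖s‖ + 1) ≤ 16 * (R + 1) :=
        mul_le_mul h2σ (by linarith) (by positivity) (by norm_num)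
      calc 2 / s.re * ((‖s‖ + 1) * Real.tan θ) = (2 / s.re * (‖s‖ + 1)) * Real.tan θ := by ring
        _ ≤ _ := mul_le_mul_of_nonneg_right h2 ht.le
    have h3 : 0 < Real.tan θ ^ s.re := Real.rpow_pos_of_pos ht _
    calc ‖s‖ * (Real.tan θ ^ s.re / Real.tan θ *
        ‖((Real.cos θ : ℝ) : ℂ) * (((Real.cos θ : ℝ) : ℂ) ^ s * SP.BB s θ) - SP.bb s‖) ≤
        (R + 1) * (Real.tan θ ^ s.re / Real.tan θ * (16 * (R + 1) * Real.tan θ)) := by
          refine mul_le_mul (by linarith) ?_ (by positivity) (by positivity)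
          exact mul_le_mul_of_nonneg_left ((d3_BB h hs).trans h1) (by positivity)
      _ = _ := by field_simp

end Pool.Agent.JO.FM

namespace Pool.Agent.JO.FM

theorem ff_tan : type_of% @ff_tan_pr := @ff_tan_pr

end Pool.Agent.JO.FM
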