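import Pool.Agent.Lib_helper45.JO.Defs2

set_option autoImplicit false

namespace Pool.Agent.JO.FM

open Complex Filter Topology MeasureTheory Set
open UpperHalfPlane hiding I
open scoped MatrixGroups ComplexConjugate

theorem d4d_tan {θ₀ : ℝ} (hθ₀ : θ₀ ∈ SP.II) (α : ℝ) {θ : ℝ} (h0 : 0 < θ) (h1 : θ < θ₀) :
    Real.tan θ ^ α ≤ Real.cos θ₀ ^ (-|α|) * Real.sin θ ^ α := by
  have hII : θ ∈ SP.II := ⟨h0, h1.trans hθ₀.2⟩
  have hs := SP.sin_pos' hII
  have hc := SP.cos_pos' hII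
  have hc0 := SP.cos_pos' hθ₀
  have hcc : Real.cos θ₀ ≤ Real.cos θ :=
    Real.cos_le_cos_of_nonneg_of_le_pi h0.le (by linarith [hθ₀.2, Real.pi_pos]) h1.le
  rw [Real.tan_eq_sin_div_cos, Real.div_rpow hs.le hc.le, div_eq_mul_inv, ← Real.rpow_neg hc.le,
    mul_comm]
  apply mul_le_mul_of_nonneg_right _ (Real.rpow_nonneg hs.le _)
  calc Real.cos θ ^ (-α) ≤ Real.cos θ ^ (-|α|) :=
        Real.rpow_le_rpow_of_exponent_ge hc (Real.cos_le_one θ) (neg_le_neg (le_abs_self α))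
    _ ≤ Real.cos θ₀ ^ (-|α|) :=
        Real.rpow_le_rpow_of_nonpos hc0 hcc (by linarith [abs_nonneg α])

theorem d4d_sin {θ : ℝ} (h : θ ∈ SP.II) (p : ℝ) :
    Real.sin θ ^ p ≤ 2 ^ |p| * θ ^ p := by
  have hs := SP.sin_pos' h
  rcases le_total 0 p with hp | hp
  · have h1 := SP.sin_rpow_le h hp
    have h2 : (1 : ℝ) ≤ 2 ^ |p| := Real.one_le_rpow (by norm_num) (abs_nonneg p)
    have h3 := Real.rpow_nonneg h.1.le p
    nlinarith
  · calc Real.sin θ ^ p ≤ (θ / 2) ^ p :=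
          Real.rpow_le_rpow_of_nonpos (by linarith [h.1]) (SP.sin_ge h) hp
      _ = 2 ^ |p| * θ ^ p := by
          rw [Real.div_rpow h.1.le (by norm_num), abs_of_nonpos hp, Real.rpow_neg (by norm_num)]
          ring

theorem d4d_gen {θ₀ : ℝ} (hθ₀ : θ₀ ∈ SP.II) {G : ℂ → ℝ → ℂ} {y : ℝ → ℂ}
    (hm : AEStronglyMeasurable y (volume.restrict (Ioo 0 θ₀))) {C α β : ℝ}
    (hy : ∀ θ : ℝ, 0 < θ → θ < θ₀ → ‖y θ‖ ≤ C * Real.tan θ ^ α)
    (hG1 : ∀ s : ℂ, 0 < s.re → ContinuousOn (G s) SP.II)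
    (hG2 : ∀ θ ∈ SP.II, DifferentiableOn ℂ (fun s => G s θ) {s : ℂ | 0 < s.re})
    (hG3 : ∀ θ ∈ SP.II, ∀ s : ℂ, 0 < s.re →
      ‖G s θ‖ ≤ (‖s‖ + 1) * (2 / s.re) * Real.sin θ ^ (s.re - β)) :
    DifferentiableOn ℂ (fun s => ∫ θ in Ioo 0 θ₀, G s θ * y θ)
      {s | max 0 (β - 1 - α) < s.re ∧ 0 < s.im} := by
  refine SP.hol_int (volume.restrict (Ioo 0 θ₀)) (fun s θ => G s θ * y θ) _ ?_ ?_ ?_
  · intro s hs
    have hs0 : 0 < s.re := (le_max_left _ _).trans_lt hs.1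
    refine AEStronglyMeasurable.mul ?_ hm
    refine ContinuousOn.aestronglyMeasurable ?_ measurableSet_Ioo
    exact (hG1 s hs0).mono (fun θ h => SP.sub_II hθ₀ h)
  · refine (ae_restrict_iff' measurableSet_Ioo).mpr (ae_of_all _ fun θ h => ?_)
    have hII := SP.sub_II hθ₀ h
    exact ((hG2 θ hII).mono (fun s hs => (le_max_left _ _).trans_lt hs.1)).mul_const _
  · intro s hs
    set m : ℝ := max 0 (β - 1 - α) with hmdef
    have hm0 : 0 ≤ m := le_max_left _ _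
    have hm1 : β - 1 - α ≤ m := le_max_right _ _
    set r : ℝ := min ((s.re - m) / 2) s.im with hr
    have hr0 : 0 < r := lt_min (by linarith [hs.1]) hs.2
    have hr1 : r ≤ (s.re - m) / 2 := min_le_left _ _
    have hr2 : r ≤ s.im := min_le_right _ _
    set σ : ℝ := s.re - (s.re - m) / 2 with hσ
    have hσm : m < σ := by rw [hσ]; linarith [hs.1]
    have hσ0 : 0 < σ := by linarith
    have hre : ∀ z ∈ Metric.ball s r, σ < z.re ∧ 0 < z.im ∧ ‖z‖ ≤ ‖s‖ + r := by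
      intro z hz
      rw [Metric.mem_ball, dist_eq_norm] at hz
      have h1 := (Complex.abs_re_le_norm (z - s)).trans_lt hz
      have h2 := (Complex.abs_im_le_norm (z - s)).trans_lt hz
      rw [Complex.sub_re] at h1
      rw [Complex.sub_im] at h2
      have h3 := (abs_lt.mp h1).1
      have h4 := (abs_lt.mp h2).1
      have h5 : ‖z‖ ≤ ‖s‖ + ‖z - s‖ := by
        have := norm_add_le s (z - s)
        simpa using this
      refine ⟨by linarith, by linarith, by linarith⟩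
    refine ⟨r, hr0, fun z hz => ?_, fun θ => ((‖s‖ + r + 1) * (2 / σ)) *
      (|C| * Real.cos θ₀ ^ (-|α|)) * (2 ^ |σ - β + α| * θ ^ (σ - β + α)), ?_, ?_⟩
    · have h1 := hre z hz
      exact ⟨by linarith [h1.1], h1.2.1⟩
    · exact ((SP.integ_rpow (by linarith) hθ₀.1).const_mul _).const_mul _
    · refine (ae_restrict_iff' measurableSet_Ioo).mpr (ae_of_all _ fun θ h z hz => ?_)
      have hII := SP.sub_II hθ₀ h
      obtain ⟨h1, h2, h3⟩ := hre z hz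
      have hz0 : 0 < z.re := hσ0.trans h1
      have hS := SP.sin_pos' hII
      have hc0 := SP.cos_pos' hθ₀
      have e1 : ‖G z θ‖ ≤ (‖s‖ + r + 1) * (2 / σ) * Real.sin θ ^ (σ - β) := by
        refine (hG3 θ hII z hz0).trans ?_
        have e2 : Real.sin θ ^ (z.re - β) ≤ Real.sin θ ^ (σ - β) :=
          Real.rpow_le_rpow_of_exponent_ge hS (Real.sin_le_one θ) (by linarith)
        have e3 : 0 ≤ Real.sin θ ^ (z.re - β) := Real.rpow_nonneg hS.le _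
        have e4 : 2 / z.re ≤ 2 / σ := by gcongr
        have e5 : (‖z‖ + 1) * (2 / z.re) ≤ (‖s‖ + r + 1) * (2 / σ) := by
          apply mul_le_mul (by linarith) e4 (by positivity) (by positivity)
        exact mul_le_mul e5 e2 e3 (by positivity)
      have e6 : ‖y θ‖ ≤ (|C| * Real.cos θ₀ ^ (-|α|)) * Real.sin θ ^ α := by
        have htan : 0 < Real.tan θ := Real.tan_pos_of_pos_of_lt_pi_div_two hII.1 hII.2
        calc ‖y θ‖ ≤ C * Real.tan θ ^ α := hy θ h.1 h.2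
          _ ≤ |C| * Real.tan θ ^ α :=
              mul_le_mul_of_nonneg_right (le_abs_self C) (Real.rpow_nonneg htan.le _)
          _ ≤ |C| * (Real.cos θ₀ ^ (-|α|) * Real.sin θ ^ α) :=
              mul_le_mul_of_nonneg_left (d4d_tan hθ₀ α h.1 h.2) (abs_nonneg C)
          _ = _ := by ring
      rw [norm_mul]
      calc ‖G z θ‖ * ‖y θ‖ ≤ ((‖s‖ + r + 1) * (2 / σ) * Real.sin θ ^ (σ - β)) *
            ((|C| * Real.cos θ₀ ^ (-|α|)) * Real.sin θ ^ α) :=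
            mul_le_mul e1 e6 (norm_nonneg _) (by positivity)
        _ = ((‖s‖ + r + 1) * (2 / σ)) * (|C| * Real.cos θ₀ ^ (-|α|)) *
            Real.sin θ ^ (σ - β + α) := by
            rw [Real.rpow_add hS]
            ring
        _ ≤ ((‖s‖ + r + 1) * (2 / σ)) * (|C| * Real.cos θ₀ ^ (-|α|)) *
            (2 ^ |σ - β + α| * θ ^ (σ - β + α)) := by
            apply mul_le_mul_of_nonneg_left (d4d_sin hII _)
            positivity

theorem Dt_err_pr {θ₀ : ℝ} (hθ₀ : θ₀ ∈ SP.II) {y : ℝ → ℂ} (hm : AEStronglyMeasurable y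
    (volume.restrict (Ioo 0 θ₀))) {C α : ℝ} (hα : 1 / 2 < α)
    (hy : ∀ θ : ℝ, 0 < θ → θ < θ₀ → ‖y θ‖ ≤ C * Real.tan θ ^ α) :
    DifferentiableOn ℂ (Dt y θ₀) {s | max 0 (1 - α) < s.re ∧ 0 < s.im} := by
  have hG1 : ∀ s : ℂ, 0 < s.re →
      ContinuousOn (fun θ : ℝ => SP.ff s θ / ((Real.sin θ : ℝ) : ℂ) ^ 2) SP.II := by
    intro s hs
    refine (SP.cont_ff hs).div SP.cont_sin2 (fun θ h => ?_)
    have hS : ((Real.sin θ : ℝ) : ℂ) ≠ 0 := by exact_mod_cast (SP.sin_pos' h).ne'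
    positivity
  have hG2 : ∀ θ ∈ SP.II, DifferentiableOn ℂ
      (fun s : ℂ => SP.ff s θ / ((Real.sin θ : ℝ) : ℂ) ^ 2) {s : ℂ | 0 < s.re} :=
    fun θ h => (SP.ff_diff h).div_const _
  have hG3 : ∀ θ ∈ SP.II, ∀ s : ℂ, 0 < s.re →
      ‖SP.ff s θ / ((Real.sin θ : ℝ) : ℂ) ^ 2‖ ≤
        (‖s‖ + 1) * (2 / s.re) * Real.sin θ ^ (s.re - 2) := by
    intro θ h s hs
    have hS := SP.sin_pos' h
    rw [norm_div, norm_pow, Complex.norm_real, Real.norm_eq_abs, abs_of_pos hS,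
      Real.rpow_sub hS, Real.rpow_ofNat, ← mul_div_assoc]
    apply div_le_div_of_nonneg_right _ (by positivity)
    refine (SP.ff_norm_le h hs).trans ?_
    have h2 : 0 ≤ 2 / s.re * Real.sin θ ^ s.re := by positivity
    have h3 := norm_nonneg s
    nlinarith
  have key := d4d_gen hθ₀ (G := fun s θ => SP.ff s θ / ((Real.sin θ : ℝ) : ℂ) ^ 2) hm
    (β := 2) hy hG1 hG2 hG3
  have hset : {s : ℂ | max 0 (2 - 1 - α) < s.re ∧ 0 < s.im} =
      {s | max 0 (1 - α) < s.re ∧ 0 < s.im} := by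
    norm_num
  rw [hset] at key
  refine key.congr (fun s _ => ?_)
  unfold Dt
  apply integral_congr_ae
  refine Eventually.of_forall fun θ => ?_
  show SP.ff s θ * y θ / ((Real.sin θ : ℝ) : ℂ) ^ 2 = SP.ff s θ / ((Real.sin θ : ℝ) : ℂ) ^ 2 * y θ
  ring

theorem Dt_err'_pr {θ₀ : ℝ} (hθ₀ : θ₀ ∈ SP.II) {y : ℝ → ℂ} (hm : AEStronglyMeasurable y
    (volume.restrict (Ioo 0 θ₀))) {C α : ℝ} (hα : -(1 / 4) < α)
    (hy : ∀ θ : ℝ, 0 < θ → θ < θ₀ → ‖y θ‖ ≤ C * Real.tan θ ^ α) :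
    DifferentiableOn ℂ (fun s => ∫ θ in Ioo 0 θ₀, SP.fp s θ * y θ)
      {s | max 0 (-α) < s.re ∧ 0 < s.im} := by
  have hG3 : ∀ θ ∈ SP.II, ∀ s : ℂ, 0 < s.re →
      ‖SP.fp s θ‖ ≤ (‖s‖ + 1) * (2 / s.re) * Real.sin θ ^ (s.re - 1) := by
    intro θ h s hs
    have hS := SP.sin_pos' h
    rw [Real.rpow_sub hS, Real.rpow_one]
    refine (SP.fp_norm_le h hs).trans ?_
    have h2 : 0 ≤ 2 / s.re * (Real.sin θ ^ s.re / Real.sin θ) := by positivity
    nlinarith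
  have key := d4d_gen hθ₀ (G := SP.fp) hm (β := 1) hy
    (fun s hs θ h => (SP.fp_hasDeriv h hs).continuousAt.continuousWithinAt)
    (fun θ h => SP.fp_diff h) hG3
  have hset : {s : ℂ | max 0 (1 - 1 - α) < s.re ∧ 0 < s.im} =
      {s | max 0 (-α) < s.re ∧ 0 < s.im} := by
    norm_num
  rw [hset] at key
  exact key

end Pool.Agent.JO.FM

namespace Pool.Agent.JO.FM

theorem Dt_err : type_of% @Dt_err_pr := @Dt_err_pr
theorem Dt_err' : type_of% @Dt_err'_pr := @Dt_err'_pr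

end Pool.Agent.JO.FM
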