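import Pool.Agent.Lib_helper45.JO.Defs2
import Pool.Agent.Lib_helper45.JOM.K4

/-! JO, Maass frame, block PH2 -/

set_option autoImplicit false

namespace Pool.Agent.JO.FM

open Complex Filter Topology MeasureTheory Set
open UpperHalfPlane hiding I
open scoped MatrixGroups ComplexConjugate

theorem ph2_ev : ∀ᶠ θ : ℝ in 𝓝[<] (Real.pi / 2), θ ∈ SP.II ∧ 1 / 2 ≤ Real.sin θ := by
  have h1 : ∀ᶠ θ : ℝ in 𝓝[<] (Real.pi / 2), θ < Real.pi / 2 := self_mem_nhdsWithin
  have h2 : ∀ᶠ θ : ℝ in 𝓝 (Real.pi / 2), 0 < θ :=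
    lt_mem_nhds (by linarith [Real.pi_pos])
  have h3 : ∀ᶠ θ : ℝ in 𝓝 (Real.pi / 2), 1 / 2 < Real.sin θ := by
    have := Real.continuous_sin.tendsto (Real.pi / 2)
    rw [Real.sin_pi_div_two] at this
    exact this.eventually_const_lt (by norm_num)
  filter_upwards [h1, h2.filter_mono nhdsWithin_le_nhds, h3.filter_mono nhdsWithin_le_nhds]
    with θ a b c
  exact ⟨⟨b, a⟩, c.le⟩

theorem ph2_hh (τ : ℝ) : Tendsto (fun θ : ℝ => SP.hh τ θ) (𝓝[<] (Real.pi / 2))
    (𝓝 (1 / (2 * Real.cosh τ))) := by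
  have hc : 0 < Real.cosh τ := Real.cosh_pos τ
  have h : ContinuousAt (fun θ : ℝ => SP.hh τ θ) (Real.pi / 2) := by
    unfold SP.hh
    refine ContinuousAt.div (by fun_prop) (by fun_prop) ?_
    rw [Real.cos_pi_div_two]
    positivity
  have h2 := h.tendsto.mono_left (nhdsWithin_le_nhds (s := Iio (Real.pi / 2)))
  have h3 : SP.hh τ (Real.pi / 2) = 1 / (2 * Real.cosh τ) := by
    unfold SP.hh
    rw [Real.cos_pi_div_two, Real.sin_pi_div_two, add_zero]
  rwa [h3] at h2

theorem ph2_gg (τ : ℝ) : Tendsto (fun θ : ℝ => SP.gg τ θ) (𝓝[<] (Real.pi / 2))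
    (𝓝 (1 / Real.cosh τ)) := by
  have hc : 0 < Real.cosh τ := Real.cosh_pos τ
  have h : ContinuousAt (fun θ : ℝ => SP.gg τ θ) (Real.pi / 2) := by
    unfold SP.gg
    refine ContinuousAt.div (by fun_prop) (by fun_prop) ?_
    rw [Real.cos_pi_div_two, Real.sin_pi_div_two]
    positivity
  have h2 := h.tendsto.mono_left (nhdsWithin_le_nhds (s := Iio (Real.pi / 2)))
  have h3 : SP.gg τ (Real.pi / 2) = 1 / Real.cosh τ := by
    unfold SP.gg
    rw [Real.cos_pi_div_two, Real.sin_pi_div_two, add_zero, zero_mul, zero_add, one_mul]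
  rwa [h3] at h2

theorem ph2_cpow (τ : ℝ) (s : ℂ) : Tendsto (fun θ : ℝ => ((SP.hh τ θ : ℝ) : ℂ) ^ s)
    (𝓝[<] (Real.pi / 2)) (𝓝 (((1 / (2 * Real.cosh τ) : ℝ) : ℂ) ^ s)) := by
  have hc : 0 < 1 / (2 * Real.cosh τ) := by
    have := Real.cosh_pos τ
    positivity
  have h1 : ContinuousAt (fun x : ℂ => x ^ s) ((1 / (2 * Real.cosh τ) : ℝ) : ℂ) :=
    continuousAt_cpow_const (Or.inl (by rw [Complex.ofReal_re]; exact hc))
  exact h1.tendsto.comp ((Complex.continuous_ofReal.tendsto _).comp (ph2_hh τ))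

theorem ph2_split (τ : ℝ) (s : ℂ) : ((1 / (2 * Real.cosh τ) : ℝ) : ℂ) ^ s =
    (2 : ℂ) ^ (-s) * ((Real.cosh τ : ℝ) : ℂ) ^ (-s) := by
  have hc : 0 < Real.cosh τ := Real.cosh_pos τ
  rw [one_div, Complex.ofReal_inv, Complex.inv_cpow _ _ (by
    rw [Complex.arg_ofReal_of_nonneg (by positivity)]; exact Real.pi_pos.ne), ← Complex.cpow_neg,
    Complex.ofReal_mul, Complex.ofReal_ofNat]
  have := Complex.mul_cpow_ofReal_nonneg (a := 2) (b := Real.cosh τ) (by norm_num) hc.le (-s)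
  rwa [Complex.ofReal_ofNat] at this

theorem ff_half_pr {s : ℂ} (hs : 0 < s.re) :
    Tendsto (fun θ : ℝ => SP.ff s θ) (𝓝[<] (Real.pi / 2)) (𝓝 (ffH s)) ∧
    Tendsto (fun θ : ℝ => SP.fp s θ) (𝓝[<] (Real.pi / 2)) (𝓝 (fpH s)) := by
  have hs1 : 0 < (s + 1).re := by
    rw [add_re, one_re]
    linarith
  have h2 : (2 : ℂ) ≠ 0 := two_ne_zero
  constructor
  · have e : ffH s = ∫ τ : ℝ, ((1 / (2 * Real.cosh τ) : ℝ) : ℂ) ^ s := by
      have h := (cosh_int (μ := 0) (s := s) (by simpa using hs)).2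
      simp only [zero_mul, Complex.exp_zero, one_mul, add_zero, sub_zero] at h
      simp_rw [ph2_split]
      rw [integral_const_mul, h]
      unfold ffH
      have h3 : (2 : ℂ) ^ (-s) * (2 : ℂ) ^ (s - 1) = 1 / 2 := by
        rw [← Complex.cpow_add _ _ h2]
        have : -s + (s - 1) = -1 := by ring
        rw [this, Complex.cpow_neg_one]
        norm_num
      calc Gamma (s / 2) ^ 2 / (2 * Gamma s) = (1 / 2) * (Gamma (s / 2) * Gamma (s / 2) / Gamma s) := by
            ring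
        _ = _ := by rw [← h3]; ring
    rw [e]
    unfold SP.ff
    refine tendsto_integral_filter_of_dominated_convergence (fun τ => Real.exp (-(s.re * |τ|))) ?_ ?_
      (SP.f2_int hs) (Eventually.of_forall fun τ => ph2_cpow τ s)
    · filter_upwards [ph2_ev] with θ hθ
      exact (SP.f2_cont_cpow hθ.1 s).aestronglyMeasurable
    · filter_upwards [ph2_ev] with θ hθ
      refine Eventually.of_forall fun τ => ?_
      rw [SP.f2_norm hθ.1]
      refine (SP.f2_bound hθ.1 τ hs).trans ?_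
      have h4 : Real.sin θ ^ s.re ≤ 1 :=
        Real.rpow_le_one (by linarith [hθ.2]) (Real.sin_le_one θ) hs.le
      have h5 := Real.exp_pos (-(s.re * |τ|))
      nlinarith
  · have e : fpH s = s * ∫ τ : ℝ, ((1 / (2 * Real.cosh τ) : ℝ) : ℂ) ^ s *
        ((1 / Real.cosh τ : ℝ) : ℂ) := by
      have h := (cosh_int (μ := 0) (s := s + 1) (by simpa using hs1)).2
      simp only [zero_mul, Complex.exp_zero, one_mul, add_zero, sub_zero] at h
      have h6 : ∀ τ : ℝ, ((1 / (2 * Real.cosh τ) : ℝ) : ℂ) ^ s * ((1 / Real.cosh τ : ℝ) : ℂ) =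
          (2 : ℂ) ^ (-s) * ((Real.cosh τ : ℝ) : ℂ) ^ (-(s + 1)) := by
        intro τ
        have hc : ((Real.cosh τ : ℝ) : ℂ) ≠ 0 := by exact_mod_cast (Real.cosh_pos τ).ne'
        rw [ph2_split, neg_add, Complex.cpow_add _ _ hc, Complex.cpow_neg_one, one_div,
          Complex.ofReal_inv]
        ring
      simp_rw [h6]
      rw [integral_const_mul, h]
      unfold fpH
      have hs0 : s ≠ 0 := by
        intro h0
        rw [h0] at hs
        simp at hs
      have h7 : Gamma (s + 1) = s * Gamma s := Complex.Gamma_add_one s hs0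
      have hG : Gamma s ≠ 0 := Complex.Gamma_ne_zero_of_re_pos hs
      have h3 : (2 : ℂ) ^ (-s) * (2 : ℂ) ^ (s + 1 - 1) = 1 := by
        rw [← Complex.cpow_add _ _ h2]
        have : -s + (s + 1 - 1) = 0 := by ring
        rw [this, Complex.cpow_zero]
      rw [h7]
      calc Gamma ((s + 1) / 2) ^ 2 / Gamma s =
          s * (1 * (Gamma ((s + 1) / 2) * Gamma ((s + 1) / 2) / (s * Gamma s))) := by
            field_simp
        _ = s * (((2 : ℂ) ^ (-s) * (2 : ℂ) ^ (s + 1 - 1)) *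
            (Gamma ((s + 1) / 2) * Gamma ((s + 1) / 2) / (s * Gamma s))) := by rw [h3]
        _ = _ := by ring
    rw [e]
    unfold SP.fp
    refine Tendsto.const_mul s ?_
    refine tendsto_integral_filter_of_dominated_convergence
      (fun τ => Real.exp (-(s.re * |τ|)) * 2) ?_ ?_
      ((SP.f2_int hs).mul_const 2) (Eventually.of_forall fun τ => ?_)
    · filter_upwards [ph2_ev] with θ hθ
      refine ((SP.f2_cont_cpow hθ.1 s).mul ?_).aestronglyMeasurable
      exact Complex.continuous_ofReal.comp (SP.f2_cont_gg hθ.1)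
    · filter_upwards [ph2_ev] with θ hθ
      refine Eventually.of_forall fun τ => ?_
      rw [norm_mul, SP.f2_norm hθ.1, Complex.norm_real, Real.norm_eq_abs,
        abs_of_nonneg (SP.gg_nonneg hθ.1 τ)]
      refine mul_le_mul ?_ ?_ (SP.gg_nonneg hθ.1 τ) (Real.exp_pos _).le
      · refine (SP.f2_bound hθ.1 τ hs).trans ?_
        have h4 : Real.sin θ ^ s.re ≤ 1 :=
          Real.rpow_le_one (by linarith [hθ.2]) (Real.sin_le_one θ) hs.le
        have h5 := Real.exp_pos (-(s.re * |τ|))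
        nlinarith
      · refine (SP.gg_le hθ.1 τ).trans ?_
        rw [div_le_iff₀ (by linarith [hθ.2])]
        linarith [hθ.2]
    · exact (ph2_cpow τ s).mul ((Complex.continuous_ofReal.tendsto _).comp (ph2_gg τ))


end Pool.Agent.JO.FM

namespace Pool.Agent.JO.FM

theorem ff_half : type_of% @ff_half_pr := @ff_half_pr

end Pool.Agent.JO.FM
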