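import Pool.Agent.Lib_helper45.JO.Defs2

/-!
# Block PH3: two representations of the same function agree
-/

set_option autoImplicit false

namespace Pool.Agent.JO.FM

open Complex Filter Topology MeasureTheory Set
open UpperHalfPlane hiding I
open scoped MatrixGroups ComplexConjugate

theorem ph3_diff {ι : Type*} {lam : ι → ℝ} {c c' d d' : ι → ℝ → ℂ} {G : ℝ → ℂ}
    {A C : ℝ} (H₁ : SP.SolFam lam c c' G A C) (H₂ : SP.SolFam lam d d' G A C) :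
    SP.SolFam lam (fun i θ => c i θ - d i θ) (fun i θ => c' i θ - d' i θ) (fun _ => 0) A (2 * C) where
  A0 := H₁.A0
  d1 i θ h := (H₁.d1 i θ h).sub (H₂.d1 i θ h)
  d2 i θ h := by
    refine ((H₁.d2 i θ h).sub (H₂.d2 i θ h)).congr_deriv ?_
    ring
  s1 θ h := by
    refine Summable.of_nonneg_of_le (fun i => norm_nonneg _) (fun i => norm_sub_le _ _)
      ((H₁.s1 θ h).add (H₂.s1 θ h))
  b1 θ h := by
    have s : Summable (fun i => ‖c i θ - d i θ‖) :=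
      Summable.of_nonneg_of_le (fun i => norm_nonneg _) (fun i => norm_sub_le _ _)
        ((H₁.s1 θ h).add (H₂.s1 θ h))
    calc ∑' i, ‖c i θ - d i θ‖ ≤ ∑' i, (‖c i θ‖ + ‖d i θ‖) :=
          s.tsum_le_tsum (fun i => norm_sub_le _ _) ((H₁.s1 θ h).add (H₂.s1 θ h))
      _ = ∑' i, ‖c i θ‖ + ∑' i, ‖d i θ‖ := (H₁.s1 θ h).tsum_add (H₂.s1 θ h)
      _ ≤ C * θ ^ (-A) + C * θ ^ (-A) := add_le_add (H₁.b1 θ h) (H₂.b1 θ h)
      _ = 2 * C * θ ^ (-A) := by ring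
  s2 θ h := by
    refine Summable.of_nonneg_of_le (fun i => norm_nonneg _) (fun i => norm_sub_le _ _)
      ((H₁.s2 θ h).add (H₂.s2 θ h))
  b2 θ h := by
    have s : Summable (fun i => ‖c' i θ - d' i θ‖) :=
      Summable.of_nonneg_of_le (fun i => norm_nonneg _) (fun i => norm_sub_le _ _)
        ((H₁.s2 θ h).add (H₂.s2 θ h))
    calc ∑' i, ‖c' i θ - d' i θ‖ ≤ ∑' i, (‖c' i θ‖ + ‖d' i θ‖) :=
          s.tsum_le_tsum (fun i => norm_sub_le _ _) ((H₁.s2 θ h).add (H₂.s2 θ h))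
      _ = ∑' i, ‖c' i θ‖ + ∑' i, ‖d' i θ‖ := (H₁.s2 θ h).tsum_add (H₂.s2 θ h)
      _ ≤ C * θ ^ (-A) + C * θ ^ (-A) := add_le_add (H₁.b2 θ h) (H₂.b2 θ h)
      _ = 2 * C * θ ^ (-A) := by ring
  hG θ h := by
    have := (H₁.hG θ h).sub (H₂.hG θ h)
    rwa [sub_self] at this
  cG := continuousOn_const

theorem sol_unique_pr {ι : Type*} [Countable ι] {lam : ι → ℝ} {c c' d d' : ι → ℝ → ℂ} {G : ℝ → ℂ}
    {A C : ℝ} (hinj : Function.Injective lam) (H₁ : SP.SolFam lam c c' G A C)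
    (H₂ : SP.SolFam lam d d' G A C) (i : ι) (hi : 1 / 4 < lam i) {θ : ℝ} (hθ : θ ∈ SP.II) :
    c i θ = d i θ ∧ c' i θ = d' i θ := by
  have H := ph3_diff H₁ H₂
  have ho : (fun _ : ℝ => (0 : ℂ)) =o[𝓝[>] 0] (fun θ : ℝ => θ ^ (1 / 2 : ℝ)) :=
    Asymptotics.isLittleO_zero _ _
  have hz : ∀ t ∈ SP.II, c i t = d i t := fun t ht => sub_eq_zero.1 (H.main ho hinj i hi ht)
  refine ⟨hz θ hθ, ?_⟩
  have h1 : c i =ᶠ[𝓝 θ] d i := by
    filter_upwards [isOpen_Ioo.mem_nhds hθ] with t ht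
    exact hz t ht
  exact (H₁.d1 i θ hθ).unique ((H₂.d1 i θ hθ).congr_of_eventuallyEq h1)

end Pool.Agent.JO.FM

namespace Pool.Agent.JO.FM

theorem sol_unique : type_of% @sol_unique_pr := @sol_unique_pr

end Pool.Agent.JO.FM
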