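import Pool.Agent.Lib_helper45.JO.Defs2

/-! # Block K3: asymptotics of the K-Bessel function -/

set_option autoImplicit false

namespace Pool.Agent.JO.FM

open Complex Filter Topology MeasureTheory Set
open UpperHalfPlane hiding I
open scoped MatrixGroups ComplexConjugate

theorem k3_cosh_low (t : ℝ) : 1 + t ^ 2 / 2 ≤ Real.cosh t := by
  have h1 : Real.cosh t = 1 + 2 * Real.sinh (t / 2) ^ 2 := by
    have h := Real.cosh_two_mul (t / 2)
    have h2 : 2 * (t / 2) = t := by ring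
    rw [h2] at h
    rw [h, Real.cosh_sq]
    ring
  have h2 : (t / 2) ^ 2 ≤ Real.sinh (t / 2) ^ 2 := by
    rw [sq_le_sq]
    rcases le_total 0 (t / 2) with h | h
    · rw [abs_of_nonneg h, abs_of_nonneg (Real.sinh_nonneg_iff.2 h)]
      exact Real.self_le_sinh_iff.2 h
    · rw [abs_of_nonpos h, abs_of_nonpos (Real.sinh_nonpos_iff.2 h)]
      have := Real.sinh_le_self_iff.2 h
      linarith
  rw [h1]
  linarith

theorem k3_lim (w : ℝ) :
    Tendsto (fun x : ℝ => x * (Real.cosh (w / √x) - 1)) atTop (𝓝 (w ^ 2 / 2)) := by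
  -- squeeze
  have hup : Tendsto (fun x : ℝ => x * (Real.exp (w ^ 2 / 2 * x⁻¹) - 1)) atTop
      (𝓝 (w ^ 2 / 2)) := by
    have h0 : HasDerivAt (fun h : ℝ => Real.exp (w ^ 2 / 2 * h)) (w ^ 2 / 2) 0 := by
      have := ((hasDerivAt_id (0 : ℝ)).const_mul (w ^ 2 / 2)).exp
      simpa using this
    have h1 := h0.tendsto_slope_zero_right
    have h2 := h1.comp (tendsto_inv_atTop_nhdsGT_zero (𝕜 := ℝ))
    refine h2.congr fun x => ?_
    simp only [Function.comp_apply, zero_add, mul_zero, Real.exp_zero, inv_inv, smul_eq_mul]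
  refine tendsto_of_tendsto_of_tendsto_of_le_of_le' tendsto_const_nhds hup ?_ ?_
  · filter_upwards [eventually_gt_atTop (0 : ℝ)] with x hx
    have h := k3_cosh_low (w / √x)
    have hs : (w / √x) ^ 2 = w ^ 2 / x := by rw [div_pow, Real.sq_sqrt hx.le]
    rw [hs] at h
    have h3 : w ^ 2 / x / 2 ≤ Real.cosh (w / √x) - 1 := by linarith
    calc w ^ 2 / 2 = x * (w ^ 2 / x / 2) := by field_simp
      _ ≤ _ := mul_le_mul_of_nonneg_left h3 hx.le
  · filter_upwards [eventually_gt_atTop (0 : ℝ)] with x hx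
    have h := Real.cosh_le_exp_half_sq (w / √x)
    have hs : (w / √x) ^ 2 / 2 = w ^ 2 / 2 * x⁻¹ := by
      rw [div_pow, Real.sq_sqrt hx.le]
      field_simp
    rw [hs] at h
    exact mul_le_mul_of_nonneg_left (by linarith) hx.le

theorem k3_form (μ : ℂ) {x : ℝ} (hx : 0 < x) :
    ((√x * Real.exp x : ℝ) : ℂ) * KK μ x = (1 / 2) * ∫ w : ℝ,
      cexp (((-(x * (Real.cosh (w / √x) - 1)) : ℝ) : ℂ) + μ * ((w / √x : ℝ) : ℂ)) := by
  have hsx : 0 < √x := Real.sqrt_pos.2 hx
  have h1 := Measure.integral_comp_div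
    (fun u : ℝ => cexp (-(x : ℂ) * (Real.cosh u : ℝ) + μ * u)) (√x)
  rw [abs_of_pos hsx] at h1
  have h2 : ∀ w : ℝ, cexp (((-(x * (Real.cosh (w / √x) - 1)) : ℝ) : ℂ) +
      μ * ((w / √x : ℝ) : ℂ)) = (Real.exp x : ℂ) *
      cexp (-(x : ℂ) * (Real.cosh (w / √x) : ℝ) + μ * ((w / √x : ℝ) : ℂ)) := by
    intro w
    rw [Complex.ofReal_exp, ← Complex.exp_add]
    congr 1
    push_cast
    ring
  simp_rw [h2]
  rw [integral_const_mul, h1, Complex.real_smul]
  unfold KK
  push_cast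
  ring

theorem k3_KK_asymp (μ : ℂ) :
    Tendsto (fun x : ℝ => ((√x * Real.exp x : ℝ) : ℂ) * KK μ x) atTop
      (𝓝 ((√(Real.pi / 2) : ℝ) : ℂ)) := by
  have hlim : Tendsto (fun x : ℝ => ∫ w : ℝ,
      cexp (((-(x * (Real.cosh (w / √x) - 1)) : ℝ) : ℂ) + μ * ((w / √x : ℝ) : ℂ))) atTop
      (𝓝 (∫ w : ℝ, cexp (((-(w ^ 2 / 2) : ℝ) : ℂ)))) := by
    have hb : Integrable (fun w : ℝ =>
        Real.exp (-(w ^ 2 / 2) + |μ.re| * w) + Real.exp (-(w ^ 2 / 2) + -|μ.re| * w)) := by
      have hg : ∀ c : ℝ, Integrable (fun w : ℝ => Real.exp (-(w ^ 2 / 2) + c * w)) := by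
        intro c
        have h0 := integrable_exp_neg_mul_sq (b := 1 / 2) (by norm_num)
        have h1 := (h0.comp_sub_right c).const_mul (Real.exp (c ^ 2 / 2))
        refine h1.congr (Eventually.of_forall fun w => ?_)
        simp only
        rw [← Real.exp_add]
        congr 1
        ring
      exact (hg _).add (hg _)
    refine tendsto_integral_filter_of_dominated_convergence _ ?_ ?_ hb ?_
    · filter_upwards with x
      apply Continuous.aestronglyMeasurable
      have : Continuous (fun w : ℝ => Real.cosh (w / √x)) :=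
        Real.continuous_cosh.comp (continuous_id.div_const _)
      fun_prop
    · filter_upwards [eventually_ge_atTop (1 : ℝ)] with x hx
      refine Eventually.of_forall fun w => ?_
      have hx0 : 0 < x := by linarith
      have hsx : 1 ≤ √x := Real.one_le_sqrt.2 hx
      rw [Complex.norm_exp]
      have e1 : (((-(x * (Real.cosh (w / √x) - 1)) : ℝ) : ℂ) + μ * ((w / √x : ℝ) : ℂ)).re =
          -(x * (Real.cosh (w / √x) - 1)) + μ.re * (w / √x) := by
        rw [add_re, ofReal_re, re_mul_ofReal]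
      rw [e1]
      have h := k3_cosh_low (w / √x)
      have hs : (w / √x) ^ 2 = w ^ 2 / x := by rw [div_pow, Real.sq_sqrt hx0.le]
      rw [hs] at h
      have h3 : w ^ 2 / 2 ≤ x * (Real.cosh (w / √x) - 1) := by
        have h3 : w ^ 2 / x / 2 ≤ Real.cosh (w / √x) - 1 := by linarith
        calc w ^ 2 / 2 = x * (w ^ 2 / x / 2) := by field_simp
          _ ≤ _ := mul_le_mul_of_nonneg_left h3 hx0.le
      have h4 : μ.re * (w / √x) ≤ |μ.re| * |w| := by
        refine le_trans (le_abs_self _) ?_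
        rw [abs_mul, abs_div, abs_of_pos (by linarith : 0 < √x)]
        refine mul_le_mul_of_nonneg_left ?_ (abs_nonneg _)
        exact div_le_self (abs_nonneg _) hsx
      rcases le_total 0 w with hw | hw
      · rw [abs_of_nonneg hw] at h4
        have : Real.exp (-(x * (Real.cosh (w / √x) - 1)) + μ.re * (w / √x)) ≤
            Real.exp (-(w ^ 2 / 2) + |μ.re| * w) := Real.exp_le_exp.2 (by linarith)
        have h5 := (Real.exp_pos (-(w ^ 2 / 2) + -|μ.re| * w)).le
        linarith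
      · rw [abs_of_nonpos hw] at h4
        have : Real.exp (-(x * (Real.cosh (w / √x) - 1)) + μ.re * (w / √x)) ≤
            Real.exp (-(w ^ 2 / 2) + -|μ.re| * w) := Real.exp_le_exp.2 (by linarith)
        have h5 := (Real.exp_pos (-(w ^ 2 / 2) + |μ.re| * w)).le
        linarith
    · refine Eventually.of_forall fun w => ?_
      refine (Complex.continuous_exp.tendsto _).comp ?_
      have h1 : Tendsto (fun x : ℝ => (((-(x * (Real.cosh (w / √x) - 1)) : ℝ) : ℂ))) atTop
          (𝓝 (((-(w ^ 2 / 2) : ℝ) : ℂ))) :=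
        (Complex.continuous_ofReal.tendsto _).comp (k3_lim w).neg
      have h2 : Tendsto (fun x : ℝ => μ * ((w / √x : ℝ) : ℂ)) atTop (𝓝 (μ * ((0 : ℝ) : ℂ))) := by
        refine ((Complex.continuous_ofReal.tendsto _).comp ?_).const_mul μ
        exact tendsto_const_nhds.div_atTop Real.tendsto_sqrt_atTop
      have h3 := h1.add h2
      simpa using h3
  have hval : (1 / 2 : ℂ) * ∫ w : ℝ, cexp (((-(w ^ 2 / 2) : ℝ) : ℂ)) =
      ((√(Real.pi / 2) : ℝ) : ℂ) := by
    have h1 : (fun w : ℝ => cexp (((-(w ^ 2 / 2) : ℝ) : ℂ))) =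
        fun w : ℝ => ((Real.exp (-(1 / 2) * w ^ 2) : ℝ) : ℂ) := by
      funext w
      rw [Complex.ofReal_exp]
      congr 2
      ring
    rw [h1, show (∫ w : ℝ, ((Real.exp (-(1 / 2) * w ^ 2) : ℝ) : ℂ)) =
      ((∫ w : ℝ, Real.exp (-(1 / 2) * w ^ 2) : ℝ) : ℂ) from integral_ofReal, integral_gaussian]
    rw [show (1 / 2 : ℂ) = ((1 / 2 : ℝ) : ℂ) by push_cast; ring, ← Complex.ofReal_mul]
    congr 1
    rw [show Real.pi / (1 / 2) = 2 ^ 2 * (Real.pi / 2) by ring,
      Real.sqrt_mul (by norm_num), Real.sqrt_sq (by norm_num)]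
    ring
  rw [← hval]
  refine (hlim.const_mul (1 / 2 : ℂ)).congr' ?_
  filter_upwards [eventually_gt_atTop (0 : ℝ)] with x hx
  exact (k3_form μ hx).symm

theorem WW_low_pr {ν : ℂ} (h : GoodNu ν) :
    ∃ x₀ : ℝ, 1 ≤ x₀ ∧ ∀ x : ℝ, x₀ ≤ x → Real.exp (-x) ≤ (WW ν x).re := by
  have h1 := k3_KK_asymp ν
  have h2 : Tendsto (fun x : ℝ => (((√x * Real.exp x : ℝ) : ℂ) * KK ν x).re) atTop
      (𝓝 (√(Real.pi / 2))) := by
    have := (Complex.continuous_re.tendsto _).comp h1
    rw [Complex.ofReal_re] at this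
    exact this
  have h3 : 1 < √(Real.pi / 2) := by
    rw [Real.lt_sqrt (by norm_num)]
    have := Real.pi_gt_three
    linarith
  have h4 := (h2.eventually (lt_mem_nhds h3)).and (eventually_ge_atTop (1 : ℝ))
  obtain ⟨x₁, hx₁⟩ := eventually_atTop.1 h4
  refine ⟨max 1 x₁, le_max_left _ _, fun x hx => ?_⟩
  obtain ⟨h5, h6⟩ := hx₁ x (le_trans (le_max_right _ _) hx)
  have h7 : (((√x * Real.exp x : ℝ) : ℂ) * KK ν x).re = Real.exp x * (WW ν x).re := by
    unfold WW
    rw [Complex.re_ofReal_mul, Complex.re_ofReal_mul]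
    ring
  rw [h7] at h5
  have h8 : Real.exp (-x) * 1 ≤ Real.exp (-x) * (Real.exp x * (WW ν x).re) :=
    mul_le_mul_of_nonneg_left h5.le (Real.exp_pos _).le
  rw [← mul_assoc, ← Real.exp_add, neg_add_cancel, Real.exp_zero, one_mul, mul_one] at h8
  exact h8

end Pool.Agent.JO.FM

namespace Pool.Agent.JO.FM

theorem WW_low : type_of% @WW_low_pr := @WW_low_pr

end Pool.Agent.JO.FM
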