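import Pool.Agent.Lib_helper45.JO.Defs2
import Pool.Agent.Lib_helper45.JOM.K3

/-! JO, Maass frame, block A5 -/

set_option autoImplicit false

namespace Pool.Agent.JO.FM

open Complex Filter Topology MeasureTheory Set
open UpperHalfPlane hiding I
open scoped MatrixGroups ComplexConjugate

theorem a5_int {P : ℕ} (hP : 0 < P) (k : ℤ) :
    ∫ x in (0 : ℝ)..P, cexp ((2 * Real.pi * k * x / P : ℝ) * I) = if k = 0 then (P : ℂ) else 0 := by
  have hPr : (P : ℂ) ≠ 0 := by exact_mod_cast hP.ne'
  split_ifs with h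
  · subst h
    simp
  · have hk : (k : ℂ) ≠ 0 := by exact_mod_cast h
    have hc : (2 * Real.pi * k / P * I : ℂ) ≠ 0 := by
      have := Real.pi_ne_zero
      have h2 : (Real.pi : ℂ) ≠ 0 := by exact_mod_cast this
      refine mul_ne_zero (div_ne_zero (mul_ne_zero (mul_ne_zero two_ne_zero h2) hk) hPr) I_ne_zero
    have e1 : (fun x : ℝ => cexp ((2 * Real.pi * k * x / P : ℝ) * I)) =
        fun x : ℝ => cexp ((2 * Real.pi * k / P * I : ℂ) * x) := by
      funext x
      congr 1
      push_cast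
      ring
    rw [e1, integral_exp_mul_complex hc]
    have e2 : (2 * Real.pi * k / P * I : ℂ) * ((P : ℝ) : ℂ) = k * (2 * Real.pi * I) := by
      push_cast
      field_simp
    rw [e2, Complex.exp_int_mul_two_pi_mul_I]
    simp

theorem expn_fc_pr {P : ℕ} {ν : ℂ} {β : ℤ → ℂ} {F : ℍ → ℂ} (hP : 0 < P) (hν : GoodNu ν)
    (h : Expn P ν β F) (n : ℤ) {y : ℝ} (hy : 0 < y) :
    fc P F n y = β n * WW ν (2 * Real.pi * |(n : ℝ)| * y / P) := by
  have hPr : (P : ℂ) ≠ 0 := by exact_mod_cast hP.ne'
  set w : ℤ → ℂ := fun m => β m * WW ν (2 * Real.pi * |(m : ℝ)| * y / P) with hw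
  have hn1 : ∀ r : ℝ, ‖cexp ((r : ℝ) * I)‖ = 1 := fun r => Complex.norm_exp_ofReal_mul_I r
  have hn2 : ∀ r : ℝ, ‖cexp (-(r : ℝ) * I)‖ = 1 := by
    intro r
    have := Complex.norm_exp_ofReal_mul_I (-r)
    rwa [Complex.ofReal_neg] at this
  have hsw : Summable fun m => ‖w m‖ := by
    have h1 := (h.hasSum 0 y hy).summable.norm
    refine h1.congr fun m => ?_
    rw [norm_mul, hn1, mul_one]
  have hS : HasSum (fun m : ℤ => ∫ x in (0 : ℝ)..P,
      (w m * cexp ((2 * Real.pi * m * x / P : ℝ) * I)) * cexp (-(2 * Real.pi * n * x / P : ℝ) * I))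
      (∫ x in (0 : ℝ)..P, F (pz x y) * cexp (-(2 * Real.pi * n * x / P : ℝ) * I)) := by
    refine intervalIntegral.hasSum_integral_of_dominated_convergence (fun m _ => ‖w m‖) ?_ ?_ ?_ ?_ ?_
    · intro m
      refine Continuous.aestronglyMeasurable ?_
      fun_prop
    · intro m
      refine Eventually.of_forall fun x _ => ?_
      rw [norm_mul, norm_mul, hn1, hn2]
      simp
    · exact Eventually.of_forall fun x _ => hsw
    · exact intervalIntegrable_const
    · exact Eventually.of_forall fun x _ => (h.hasSum x y hy).mul_right _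
  have hT : ∀ m : ℤ, ∫ x in (0 : ℝ)..P,
      (w m * cexp ((2 * Real.pi * m * x / P : ℝ) * I)) * cexp (-(2 * Real.pi * n * x / P : ℝ) * I) =
      if m = n then w n * P else 0 := by
    intro m
    have e1 : (fun x : ℝ => (w m * cexp ((2 * Real.pi * m * x / P : ℝ) * I)) *
        cexp (-(2 * Real.pi * n * x / P : ℝ) * I)) =
        fun x : ℝ => w m * cexp ((2 * Real.pi * (m - n : ℤ) * x / P : ℝ) * I) := by
      funext x
      rw [mul_assoc, ← Complex.exp_add]
      congr 2
      push_cast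
      ring
    rw [e1, intervalIntegral.integral_const_mul, a5_int hP]
    by_cases hmn : m = n
    · subst hmn
      simp
    · rw [if_neg hmn, if_neg (sub_ne_zero.mpr hmn), mul_zero]
  simp_rw [hT] at hS
  have hU : HasSum (fun m : ℤ => if m = n then w n * P else 0) (w n * P) := hasSum_ite_eq n _
  have hE := hS.unique hU
  unfold fc
  rw [hE, hw]
  push_cast
  field_simp

theorem expn_unique_pr {P : ℕ} {ν : ℂ} {β β' : ℤ → ℂ} {F : ℍ → ℂ} (hP : 0 < P) (hν : GoodNu ν)
    (h : Expn P ν β F) (h' : Expn P ν β' F) : β = β' := by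
  funext n
  by_cases hn : n = 0
  · subst hn
    rw [h.zero, h'.zero]
  · obtain ⟨x₀, hx₀, hW⟩ := WW_low hν
    have hPr : (0 : ℝ) < P := by exact_mod_cast hP
    have hnr : 0 < |(n : ℝ)| := abs_pos.mpr (by exact_mod_cast hn)
    set y : ℝ := x₀ * P / (2 * Real.pi * |(n : ℝ)|) with hy
    have hy0 : 0 < y := by
      have := Real.pi_pos
      positivity
    have hx : 2 * Real.pi * |(n : ℝ)| * y / P = x₀ := by
      rw [hy]
      have := Real.pi_ne_zero
      field_simp
    have h1 := expn_fc_pr hP hν h n hy0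
    have h2 := expn_fc_pr hP hν h' n hy0
    rw [h1, hx] at h2
    have hne : WW ν x₀ ≠ 0 := by
      intro h0
      have := hW x₀ le_rfl
      rw [h0, Complex.zero_re] at this
      linarith [Real.exp_pos (-x₀)]
    exact mul_right_cancel₀ hne h2


end Pool.Agent.JO.FM

namespace Pool.Agent.JO.FM

theorem expn_fc : type_of% @expn_fc_pr := @expn_fc_pr
theorem expn_unique : type_of% @expn_unique_pr := @expn_unique_pr

end Pool.Agent.JO.FM
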