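import Pool.Agent.Lib_helper45.JO.Defs2

set_option autoImplicit false

namespace Pool.Agent.JO.FM

open Complex Filter Topology MeasureTheory Set
open UpperHalfPlane hiding I
open scoped MatrixGroups ComplexConjugate

/-! block A11 -/

/-- the involution on the residues -/
noncomputable def a11_tau (p N j : ℕ) : ℕ := (-(((N * j : ℕ) : ZMod p))⁻¹ : ZMod p).val

theorem a11_tau_mem {N p : ℕ} (hp : p.Prime) (hpN' : ¬ p ∣ N) {j : ℕ} (hj : j ∈ Finset.Ico 1 p) :
    a11_tau p N j ∈ Finset.Ico 1 p := by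
  have : Fact p.Prime := ⟨hp⟩
  rw [Finset.mem_Ico] at hj ⊢
  constructor
  · rw [Nat.one_le_iff_ne_zero, a11_tau, Ne, ZMod.val_eq_zero, neg_eq_zero, inv_eq_zero,
      ZMod.natCast_eq_zero_iff, hp.dvd_mul]
    rintro (h | h)
    · exact hpN' h
    · have := Nat.le_of_dvd (by omega) h
      omega
  · exact ZMod.val_lt _

theorem a11_tau_mul {N p : ℕ} (hp : p.Prime) (hpN' : ¬ p ∣ N) {j : ℕ} (hj : j ∈ Finset.Ico 1 p) :
    p ∣ N * j * a11_tau p N j + 1 := by
  have : Fact p.Prime := ⟨hp⟩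
  rw [Finset.mem_Ico] at hj
  rw [← ZMod.natCast_eq_zero_iff]
  have hne : ((N * j : ℕ) : ZMod p) ≠ 0 := by
    rw [Ne, ZMod.natCast_eq_zero_iff, hp.dvd_mul]
    rintro (h | h)
    · exact hpN' h
    · have := Nat.le_of_dvd (by omega) h
      omega
  rw [Nat.cast_add, Nat.cast_mul, a11_tau, ZMod.natCast_zmod_val, Nat.cast_one, mul_neg,
    mul_inv_cancel₀ hne]
  ring

theorem a11_tau_tau {N p : ℕ} (hp : p.Prime) (hpN' : ¬ p ∣ N) {j : ℕ} (hj : j ∈ Finset.Ico 1 p) :
    a11_tau p N (a11_tau p N j) = j := by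
  have : Fact p.Prime := ⟨hp⟩
  have hN : ((N : ℕ) : ZMod p) ≠ 0 := by
    rw [Ne, ZMod.natCast_eq_zero_iff]
    exact hpN'
  have hjj := hj
  rw [Finset.mem_Ico] at hj
  have hj0 : ((j : ℕ) : ZMod p) ≠ 0 := by
    rw [Ne, ZMod.natCast_eq_zero_iff]
    intro h
    have := Nat.le_of_dvd (by omega) h
    omega
  have h1 : (((a11_tau p N (a11_tau p N j) : ℕ)) : ZMod p) = j := by
    rw [a11_tau, ZMod.natCast_zmod_val, Nat.cast_mul, a11_tau, ZMod.natCast_zmod_val,
      Nat.cast_mul]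
    field_simp
  have h2 := congrArg ZMod.val h1
  rw [ZMod.val_natCast_of_lt (Finset.mem_Ico.mp (a11_tau_mem hp hpN'
    (a11_tau_mem hp hpN' hjj))).2, ZMod.val_natCast_of_lt hj.2] at h2
  exact h2

theorem a11_coe (z : ℂ) (hz : 0 < z.im) : ((ofComplex z : ℍ) : ℂ) = z := by
  rw [ofComplex_apply_of_im_pos hz]

theorem a11_heckeT_prime {N p : ℕ} [NeZero N] (χ : DirichletCharacter ℂ N) (hp : p.Prime)
    (f : ℍ → ℂ) (z : ℍ) :
    heckeT χ p f z = ((√(p : ℝ) : ℝ) : ℂ)⁻¹ *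
      (∑ b ∈ Finset.range p, f (ofComplex (((z : ℂ) + b) / p)) +
        χ (p : ZMod N) * f (ofComplex ((p : ℂ) * z))) := by
  unfold heckeT
  congr 1
  have e := Nat.sum_divisorsAntidiagonal (M := ℂ) (n := p) (fun i j : ℕ => χ (i : ZMod N) *
    ∑ b ∈ Finset.range j, f (ofComplex (((i : ℂ) * (z : ℂ) + b) / j)))
  rw [e, Nat.Prime.sum_divisors (α := ℂ) hp]
  simp [Nat.div_self hp.pos]
  ring

theorem a11_pz_coe (x : ℝ) {y : ℝ} (hy : 0 < y) : ((pz x y : ℍ) : ℂ) = (x : ℂ) + y * I := by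
  unfold pz
  exact a11_coe _ (by simpa using hy)

theorem hecke_one_pr {N p : ℕ} [NeZero N] {χ : DirichletCharacter ℂ N} {ev : ℝ} {f : ℍ → ℂ}
    {a : ℕ → ℂ} (h : IsHeckeMaass N χ 0 ev f a) (hp : p.Prime) (x y : ℝ) (hy : 0 < y) :
    ((√(p : ℝ) : ℝ) : ℂ)⁻¹ *
      (∑ b ∈ Finset.range p, f (pz ((x + (1 : ℕ) * b) / p) (y / p)) +
        χ (p : ZMod N) * f (pz (p * x) (p * y))) = a p * f (pz x y) := by
  have hpc : (p : ℂ) ≠ 0 := by exact_mod_cast hp.ne_zero
  rw [← h.hecke p hp.pos (pz x y), a11_heckeT_prime χ hp f]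
  congr 2
  · refine Finset.sum_congr rfl fun b _ => ?_
    congr 1
    rw [a11_pz_coe x hy]
    unfold pz
    congr 1
    push_cast
    field_simp
    ring
  · congr 2
    rw [a11_pz_coe x hy]
    unfold pz
    congr 1
    push_cast
    ring

theorem a11_S_coe (z : ℍ) : ((ModularGroup.S • z : ℍ) : ℂ) = -1 / (z : ℂ) := by
  rw [modular_S_smul]
  show (-(z : ℂ))⁻¹ = _
  rw [neg_div, one_div, inv_neg]

theorem hecke_inv_pr {N p : ℕ} [NeZero N] {χ : DirichletCharacter ℂ N} {ev : ℝ} {f : ℍ → ℂ}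
    {a : ℕ → ℂ} (h : IsHeckeMaass N χ 0 ev f a) (hp : p.Prime) (hpN : p ≡ 1 [MOD N])
    {g : ℍ → ℂ} (hg : ∀ z, g z = f (ModularGroup.S • z)) (x y : ℝ) (hy : 0 < y) :
    ((√(p : ℝ) : ℝ) : ℂ)⁻¹ *
      (∑ b ∈ Finset.range p, g (pz ((x + N * b) / p) (y / p)) + 1 * g (pz (p * x) (p * y))) =
        a p * g (pz x y) := by
  have hpc : (p : ℂ) ≠ 0 := by exact_mod_cast hp.ne_zero
  have hpr : (0 : ℝ) < p := by exact_mod_cast hp.pos
  have hpN' : ¬ p ∣ N := by
    intro hd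
    have h1 : p ≡ 1 [MOD p] := hpN.of_dvd hd
    have h2 : p % p = 1 % p := h1
    rw [Nat.mod_self, Nat.mod_eq_of_lt hp.one_lt] at h2
    exact absurd h2 (by norm_num)
  have hp1 : (p : ZMod N) = 1 := by
    have := (ZMod.natCast_eq_natCast_iff p 1 N).mpr hpN
    simpa using this
  have hχ : χ (p : ZMod N) = 1 := by
    rw [hp1, map_one]
  set w : ℍ := pz x y with hw
  have hwc : (w : ℂ) = x + y * I := a11_pz_coe x hy
  have hwim : 0 < (w : ℂ).im := w.im_pos
  have hw0 : (w : ℂ) ≠ 0 := by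
    intro h0
    rw [h0] at hwim
    simp at hwim
  set z : ℍ := ModularGroup.S • w with hz
  have hzc : (z : ℂ) = -1 / (w : ℂ) := a11_S_coe w
  have hzim : 0 < (z : ℂ).im := z.im_pos
  have hz0 : (z : ℂ) ≠ 0 := by
    intro h0
    rw [h0] at hzim
    simp at hzim
  have key := h.hecke p hp.pos z
  rw [a11_heckeT_prime χ hp f, hχ] at key
  rw [hg w, ← hz, ← key]
  congr 1
  have hdiv : ∀ c : ℂ, 0 < c.im → 0 < (c / p).im := by
    intro c hc
    rw [Complex.div_natCast_im]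
    exact div_pos hc hpr
  have hmulp : ∀ c : ℂ, 0 < c.im → 0 < ((p : ℂ) * c).im := by
    intro c hc
    rw [Complex.mul_im]
    simp only [Complex.natCast_re, Complex.natCast_im, zero_mul, add_zero]
    exact mul_pos hpr hc
  -- the term `b = 0` on the left
  have eA : g (pz ((x + N * (0 : ℕ)) / p) (y / p)) = f (ofComplex ((p : ℂ) * z)) := by
    rw [hg]
    congr 1
    refine UpperHalfPlane.ext ?_
    rw [a11_S_coe, a11_coe _ (hmulp _ hzim), a11_pz_coe _ (div_pos hy hpr), hzc, hwc]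
    rw [hwc] at hw0
    push_cast
    have e : (((x : ℂ) + N * 0) / p + y / p * I) = ((x : ℂ) + y * I) / p := by
      field_simp
      ring
    rw [e]
    field_simp
  have eB : g (pz (p * x) (p * y)) = f (ofComplex (((z : ℂ) + (0 : ℕ)) / p)) := by
    rw [hg]
    congr 1
    refine UpperHalfPlane.ext ?_
    rw [a11_S_coe, a11_coe _ (hdiv _ (by simpa using hzim)), a11_pz_coe _ (mul_pos hpr hy), hzc, hwc]
    rw [hwc] at hw0
    push_cast
    have e : ((p : ℂ) * (x : ℂ) + p * y * I) = p * ((x : ℂ) + y * I) := by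
      ring
    rw [e]
    field_simp
    ring
  have eC : ∀ b ∈ Finset.Ico 1 p, f (ofComplex (((z : ℂ) + (b : ℕ)) / p)) =
      g (pz ((x + N * (a11_tau p N b : ℕ)) / p) (y / p)) := by
    intro b hb
    obtain ⟨D, hD⟩ := a11_tau_mul hp hpN' hb
    have hDz : (N : ℤ) * b * (a11_tau p N b : ℕ) + 1 = p * D := by exact_mod_cast hD
    have hDc : (N : ℂ) * b * (a11_tau p N b : ℕ) + 1 = p * D := by exact_mod_cast hD
    set c : ℕ := a11_tau p N b with hc
    let γ : SL(2, ℤ) := ⟨!![(D : ℤ), (b : ℤ); (N : ℤ) * c, (p : ℤ)], by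
      rw [Matrix.det_fin_two_of]
      linear_combination (-1 : ℤ) * hDz⟩
    rw [hg]
    set u : ℍ := pz ((x + N * (c : ℕ)) / p) (y / p) with hu
    have huc : (u : ℂ) = ((w : ℂ) + N * c) / p := by
      rw [hu, a11_pz_coe _ (div_pos hy hpr), hwc]
      push_cast
      field_simp
      ring
    set v : ℍ := ModularGroup.S • u with hv
    have huim : 0 < (u : ℂ).im := u.im_pos
    have hu0 : (u : ℂ) ≠ 0 := by
      intro h0
      rw [h0] at huim
      simp at huim
    have hvc : (v : ℂ) = -1 / (u : ℂ) := a11_S_coe u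
    have hγv : γ • v = ofComplex (((z : ℂ) + (b : ℕ)) / p) := by
      refine UpperHalfPlane.ext ?_
      rw [a11_coe _ (hdiv _ (by simpa using hzim)), coe_specialLinearGroup_apply, hvc, hzc]
      have g00 : γ 0 0 = (D : ℤ) := rfl
      have g01 : γ 0 1 = (b : ℤ) := rfl
      have g10 : γ 1 0 = (N : ℤ) * c := rfl
      have g11 : γ 1 1 = (p : ℤ) := rfl
      rw [g00, g01, g10, g11]
      have hwu : (w : ℂ) = p * u - N * c := by
        rw [huc]
        field_simp
        ring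
      simp only [algebraMap_int_eq, eq_intCast]
      push_cast
      have hden : (N : ℂ) * c * (-1 / (u : ℂ)) + p = w / u := by
        rw [hwu]
        field_simp
        ring
      rw [hden, div_div_eq_mul_div, div_eq_div_iff hw0 hpc]
      have e2 : ((D : ℂ) * (-1 / (u : ℂ)) + b) * u = b * u - D := by
        field_simp
        ring
      rw [e2]
      have e3 : (-1 / (w : ℂ) + b) * w = b * w - 1 := by
        field_simp
        ring
      rw [e3, hwu]
      linear_combination hDc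
    rw [← hγv]
    have hN : (N : ℤ) ∣ γ 1 0 := ⟨c, rfl⟩
    have haut := h.automorphic γ hN v
    rw [haut]
    have g11 : γ 1 1 = (p : ℤ) := rfl
    rw [g11]
    have : (((p : ℤ)) : ZMod N) = (p : ZMod N) := by push_cast; rfl
    rw [this, hχ]
    simp
  have hsplit : ∀ F : ℕ → ℂ, ∑ b ∈ Finset.range p, F b = F 0 + ∑ b ∈ Finset.Ico 1 p, F b := by
    intro F
    rw [Finset.range_eq_Ico, Finset.sum_eq_sum_Ico_succ_bot hp.pos]
  rw [hsplit, hsplit, eA, one_mul, eB, one_mul]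
  have hsum : ∑ b ∈ Finset.Ico 1 p, g (pz ((x + N * (b : ℕ)) / p) (y / p)) =
      ∑ b ∈ Finset.Ico 1 p, f (ofComplex (((z : ℂ) + (b : ℕ)) / p)) := by
    refine Finset.sum_nbij' (a11_tau p N) (a11_tau p N) (fun b hb => a11_tau_mem hp hpN' hb)
      (fun b hb => a11_tau_mem hp hpN' hb) (fun b hb => a11_tau_tau hp hpN' hb)
      (fun b hb => a11_tau_tau hp hpN' hb) fun b hb => ?_
    rw [eC _ (a11_tau_mem hp hpN' hb), a11_tau_tau hp hpN' hb]
  rw [hsum]
  ring

end Pool.Agent.JO.FM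

namespace Pool.Agent.JO.FM

theorem hecke_inv : type_of% @hecke_inv_pr := @hecke_inv_pr
theorem hecke_one : type_of% @hecke_one_pr := @hecke_one_pr

end Pool.Agent.JO.FM
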