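import Pool.Agent.Lib_helper45.JO.Defs2

set_option autoImplicit false

namespace Pool.Agent.JO.FM

open Complex Filter Topology MeasureTheory Set
open UpperHalfPlane hiding I
open scoped MatrixGroups ComplexConjugate

/-- the reflection `-z̄` -/
noncomputable def a12r (z : ℍ) : ℍ := pz (-z.re) z.im

theorem a12_pz {x y : ℝ} (hy : 0 < y) : ((pz x y : ℍ) : ℂ) = (x : ℂ) + y * I := by
  unfold pz
  have h : 0 < ((x : ℂ) + y * I).im := by simpa using hy
  rw [ofComplex_apply_of_im_pos h]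

theorem a12_coe (z : ℍ) : (a12r z : ℂ) = -conj (z : ℂ) := by
  unfold a12r
  rw [a12_pz z.im_pos]
  apply Complex.ext <;> simp

theorem a12_eq (z : ℍ) : a12r z = ofComplex (-conj (z : ℂ)) := by
  rw [← a12_coe, ofComplex_apply]

theorem a12_of {w : ℂ} (hw : 0 < w.im) : a12r (ofComplex w) = ofComplex (-conj w) := by
  rw [a12_eq, ofComplex_apply_of_im_pos hw]

theorem a12_im (z : ℍ) : (a12r z).im = z.im := by
  have := congrArg Complex.im (a12_coe z)
  simpa using this

/-! ### derivatives -/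

theorem a12_lineX (g : ℍ → ℂ) (z : ℍ) :
    (fun t : ℝ => g (a12r (ofComplex ((z : ℂ) + t)))) =
      fun t : ℝ => (fun u : ℝ => g (ofComplex ((a12r z : ℂ) + u))) (-t) := by
  ext t
  have h : 0 < ((z : ℂ) + t).im := by simpa using z.im_pos
  rw [a12_of h, a12_coe]
  congr 2
  simp [map_add]
  ring

theorem a12_lineY (g : ℍ → ℂ) (z : ℍ) :
    (fun t : ℝ => g (a12r (ofComplex ((z : ℂ) + t * I)))) =ᶠ[𝓝 0]
      fun t : ℝ => g (ofComplex ((a12r z : ℂ) + t * I)) := by
  have h1 : ∀ᶠ t : ℝ in 𝓝 0, -z.im < t := lt_mem_nhds (by linarith [z.im_pos])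
  filter_upwards [h1] with t ht
  have h : 0 < ((z : ℂ) + t * I).im := by
    simp
    linarith
  rw [a12_of h, a12_coe]
  congr 2
  simp [map_add]
  ring

theorem a12_dX (g : ℍ → ℂ) (z : ℍ) : dX (fun z => g (a12r z)) z = -dX g (a12r z) := by
  unfold dX
  have h1 := deriv_comp_neg (fun u : ℝ => g (ofComplex ((a12r z : ℂ) + u))) (0 : ℝ)
  rw [neg_zero] at h1
  rw [a12_lineX]
  exact h1

theorem a12_dY (g : ℍ → ℂ) (z : ℍ) : dY (fun z => g (a12r z)) z = dY g (a12r z) := by
  unfold dY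
  exact (a12_lineY g z).deriv_eq

theorem a12_difX {g : ℍ → ℂ} {z : ℍ}
    (h : DifferentiableAt ℝ (fun t : ℝ => g (ofComplex ((a12r z : ℂ) + t))) 0) :
    DifferentiableAt ℝ (fun t : ℝ => g (a12r (ofComplex ((z : ℂ) + t)))) 0 := by
  rw [a12_lineX]
  have h1 : DifferentiableAt ℝ (fun u : ℝ => g (ofComplex ((a12r z : ℂ) + u))) (-0) := by
    rw [neg_zero]; exact h
  exact DifferentiableAt.comp (f := fun t : ℝ => -t) (0 : ℝ) h1 (by fun_prop)

theorem a12_difY {g : ℍ → ℂ} {z : ℍ}
    (h : DifferentiableAt ℝ (fun t : ℝ => g (ofComplex ((a12r z : ℂ) + t * I))) 0) :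
    DifferentiableAt ℝ (fun t : ℝ => g (a12r (ofComplex ((z : ℂ) + t * I)))) 0 :=
  (a12_lineY g z).differentiableAt_iff.2 h

theorem a12_linX {g h : ℍ → ℂ} {z : ℍ}
    (hg : DifferentiableAt ℝ (fun t : ℝ => g (ofComplex ((z : ℂ) + t))) 0)
    (hh : DifferentiableAt ℝ (fun t : ℝ => h (ofComplex ((z : ℂ) + t))) 0) (c e : ℂ) :
    dX (fun z => c * (g z + e * h z)) z = c * (dX g z + e * dX h z) := by
  unfold dX
  exact ((hg.hasDerivAt.add (hh.hasDerivAt.const_mul e)).const_mul c).deriv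

theorem a12_linY {g h : ℍ → ℂ} {z : ℍ}
    (hg : DifferentiableAt ℝ (fun t : ℝ => g (ofComplex ((z : ℂ) + t * I))) 0)
    (hh : DifferentiableAt ℝ (fun t : ℝ => h (ofComplex ((z : ℂ) + t * I))) 0) (c e : ℂ) :
    dY (fun z => c * (g z + e * h z)) z = c * (dY g z + e * dY h z) := by
  unfold dY
  exact ((hg.hasDerivAt.add (hh.hasDerivAt.const_mul e)).const_mul c).deriv

section

variable {f : ℍ → ℂ} (hs : ContDiffOn ℝ 2 (fun z : ℂ => f (ofComplex z)) {z | 0 < z.im})

theorem a12_open : IsOpen {z : ℂ | 0 < z.im} := isOpen_lt continuous_const continuous_im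

include hs

theorem a12_cda {w : ℂ} (hw : 0 < w.im) : ContDiffAt ℝ 2 (fun z : ℂ => f (ofComplex z)) w :=
  hs.contDiffAt (a12_open.mem_nhds hw)

theorem a12_line {w : ℂ} (hw : 0 < w.im) (v : ℂ) :
    HasDerivAt (fun t : ℝ => f (ofComplex (w + t * v)))
      (fderiv ℝ (fun z : ℂ => f (ofComplex z)) w v) 0 := by
  have h1 : HasDerivAt (fun t : ℝ => w + (t : ℂ) * v) v 0 := by
    have h2 : HasDerivAt (fun t : ℝ => (t : ℂ)) 1 0 := Complex.ofRealCLM.hasDerivAt
    simpa using (h2.mul_const v).const_add w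
  have h3 : HasFDerivAt (fun z : ℂ => f (ofComplex z))
      (fderiv ℝ (fun z : ℂ => f (ofComplex z)) w) (w + ((0 : ℝ) : ℂ) * v) := by
    simpa using ((a12_cda hs hw).differentiableAt (by norm_num)).hasFDerivAt
  exact h3.comp_hasDerivAt (0 : ℝ) h1

theorem a12_d1X (z : ℍ) : DifferentiableAt ℝ (fun t : ℝ => f (ofComplex ((z : ℂ) + t))) 0 := by
  have := (a12_line hs z.im_pos 1).differentiableAt
  simpa using this

theorem a12_d1Y (z : ℍ) :
    DifferentiableAt ℝ (fun t : ℝ => f (ofComplex ((z : ℂ) + t * I))) 0 :=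
  (a12_line hs z.im_pos I).differentiableAt

theorem a12_valX {w : ℂ} (hw : 0 < w.im) :
    dX f (ofComplex w) = fderiv ℝ (fun z : ℂ => f (ofComplex z)) w 1 := by
  have h1 := (a12_line hs hw 1).deriv
  unfold dX
  rw [ofComplex_apply_of_im_pos hw]
  simpa using h1

theorem a12_valY {w : ℂ} (hw : 0 < w.im) :
    dY f (ofComplex w) = fderiv ℝ (fun z : ℂ => f (ofComplex z)) w I := by
  have h1 := (a12_line hs hw I).deriv
  unfold dY
  rw [ofComplex_apply_of_im_pos hw]
  exact h1

theorem a12_dif2 {w : ℂ} (hw : 0 < w.im) (v : ℂ) :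
    DifferentiableAt ℝ (fun w : ℂ => fderiv ℝ (fun z : ℂ => f (ofComplex z)) w v) w := by
  have h1 : ContDiffAt ℝ 1 (fderiv ℝ (fun z : ℂ => f (ofComplex z))) w :=
    (a12_cda hs hw).fderiv_right (by norm_num)
  exact (h1.differentiableAt (by norm_num)).clm_apply (differentiableAt_const v)

theorem a12_d2X (z : ℍ) :
    DifferentiableAt ℝ (fun t : ℝ => dX f (ofComplex ((z : ℂ) + t))) 0 := by
  have h1 : (fun t : ℝ => dX f (ofComplex ((z : ℂ) + t))) =
      fun t : ℝ => (fun w : ℂ => fderiv ℝ (fun z : ℂ => f (ofComplex z)) w 1) ((z : ℂ) + t) := by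
    ext t
    have h : 0 < ((z : ℂ) + t).im := by simpa using z.im_pos
    exact a12_valX hs h
  rw [h1]
  have h2 : DifferentiableAt ℝ (fun w : ℂ => fderiv ℝ (fun z : ℂ => f (ofComplex z)) w 1)
      ((fun t : ℝ => (z : ℂ) + t) 0) := by
    simpa using a12_dif2 hs z.im_pos 1
  have h3 : DifferentiableAt ℝ (fun t : ℝ => (z : ℂ) + t) 0 :=
    (Complex.ofRealCLM.differentiableAt).const_add (z : ℂ)
  exact DifferentiableAt.comp (0 : ℝ) h2 h3

theorem a12_d2Y (z : ℍ) :
    DifferentiableAt ℝ (fun t : ℝ => dY f (ofComplex ((z : ℂ) + t * I))) 0 := by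
  have h1 : (fun t : ℝ => dY f (ofComplex ((z : ℂ) + t * I))) =ᶠ[𝓝 0]
      fun t : ℝ => (fun w : ℂ => fderiv ℝ (fun z : ℂ => f (ofComplex z)) w I)
        ((z : ℂ) + t * I) := by
    have h1 : ∀ᶠ t : ℝ in 𝓝 0, -z.im < t := lt_mem_nhds (by linarith [z.im_pos])
    filter_upwards [h1] with t ht
    have h : 0 < ((z : ℂ) + t * I).im := by
      simp
      linarith
    exact a12_valY hs h
  rw [h1.differentiableAt_iff]
  have h2 : DifferentiableAt ℝ (fun w : ℂ => fderiv ℝ (fun z : ℂ => f (ofComplex z)) w I)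
      ((fun t : ℝ => (z : ℂ) + t * I) 0) := by
    simpa using a12_dif2 hs z.im_pos I
  have h3 : DifferentiableAt ℝ (fun t : ℝ => (z : ℂ) + t * I) 0 :=
    ((Complex.ofRealCLM.differentiableAt).mul_const I).const_add (z : ℂ)
  exact DifferentiableAt.comp (0 : ℝ) h2 h3

theorem a12_lap (c e : ℂ) (z : ℍ) :
    lap 0 (fun z => c * (f z + e * f (a12r z))) z = c * (lap 0 f z + e * lap 0 f (a12r z)) := by
  have h1 : dX (fun z => c * (f z + e * f (a12r z))) =
      fun z => c * (dX f z + (-e) * dX f (a12r z)) := by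
    ext w
    rw [a12_linX (h := fun z => f (a12r z)) (a12_d1X hs w) (a12_difX (a12_d1X hs (a12r w))),
      a12_dX]
    ring
  have h2 : dY (fun z => c * (f z + e * f (a12r z))) =
      fun z => c * (dY f z + e * dY f (a12r z)) := by
    ext w
    rw [a12_linY (h := fun z => f (a12r z)) (a12_d1Y hs w) (a12_difY (a12_d1Y hs (a12r w))),
      a12_dY]
  have h3 : dX (fun z => c * (dX f z + (-e) * dX f (a12r z))) z =
      c * (dX (dX f) z + e * dX (dX f) (a12r z)) := by
    rw [a12_linX (h := fun z => dX f (a12r z)) (a12_d2X hs z) (a12_difX (a12_d2X hs (a12r z))),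
      a12_dX]
    ring
  have h4 : dY (fun z => c * (dY f z + e * dY f (a12r z))) z =
      c * (dY (dY f) z + e * dY (dY f) (a12r z)) := by
    rw [a12_linY (h := fun z => dY f (a12r z)) (a12_d2Y hs z) (a12_difY (a12_d2Y hs (a12r z))),
      a12_dY]
  unfold lap
  rw [h1, h2, h3, h4, a12_im]
  push_cast
  ring

end

/-! ### the matrices -/

/-- `(a, -b; -c, d)` -/
def a12g (γ : SL(2, ℤ)) : SL(2, ℤ) :=
  ⟨!![γ 0 0, -(γ 0 1); -(γ 1 0), γ 1 1], by
    have := γ.det_coe
    rw [Matrix.det_fin_two] at this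
    rw [Matrix.det_fin_two_of]
    linarith⟩

theorem a12_smul (γ : SL(2, ℤ)) (z : ℍ) : a12r (γ • z) = a12g γ • a12r z := by
  apply UpperHalfPlane.ext
  rw [a12_coe, coe_specialLinearGroup_apply, coe_specialLinearGroup_apply, a12_coe]
  simp only [a12g, map_div₀, map_add, map_mul, Matrix.SpecialLinearGroup.coe_mk, Matrix.of_apply,
    Matrix.cons_val', Matrix.cons_val_zero, Matrix.cons_val_one, Matrix.cons_val_fin_one,
    algebraMap_int_eq, eq_intCast, Int.cast_neg, ofReal_neg, ofReal_intCast,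
    map_intCast]
  rw [← neg_div]
  congr 1 <;> ring

/-! ### the Hecke operators -/

theorem a12_sum {E : Type*} [AddCommMonoid E] (F : ℤ → E) (d : ℕ) (hF : ∀ m, F (m + d) = F m) :
    ∑ b ∈ Finset.range d, F (-(b : ℤ)) = ∑ b ∈ Finset.range d, F b := by
  rcases d with _ | d
  · simp
  rw [Finset.sum_range_succ', Finset.sum_range_succ' (fun b : ℕ => F (b : ℤ))]
  congr 1
  rw [← Finset.sum_range_reflect]
  refine Finset.sum_congr rfl fun b hb => ?_
  rw [Finset.mem_range] at hb
  rw [← hF]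
  congr 1
  omega

theorem heckeMaass_parity_pr {N : ℕ} [NeZero N] {χ : DirichletCharacter ℂ N} {ev : ℝ} {f : ℍ → ℂ}
    {a : ℕ → ℂ} (h : IsHeckeMaass N χ 0 ev f a) {ε : ℝ} (hε : ε = 1 ∨ ε = -1) {c : ℂ}
    (hne : ∃ z : ℍ, c * (f z + ε * f (pz (-z.re) z.im)) ≠ 0) :
    IsHeckeMaass N χ 0 ev (fun z => c * (f z + ε * f (pz (-z.re) z.im))) a := by
  have hT : ∀ (w : ℂ), 0 < w.im → f (ofComplex (w + 1)) = f (ofComplex w) := by
    intro w hw
    have h1 := h.automorphic ModularGroup.T (by simp [ModularGroup.T]) (ofComplex w)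
    have h2 : ModularGroup.T • (ofComplex w) = ofComplex (w + 1) := by
      apply UpperHalfPlane.ext
      have hw1 : 0 < (w + 1).im := by simpa using hw
      rw [coe_specialLinearGroup_apply, ofComplex_apply_of_im_pos hw,
        ofComplex_apply_of_im_pos hw1]
      simp [ModularGroup.T]
    rw [h2] at h1
    simpa [ModularGroup.T] using h1
  change IsHeckeMaass N χ 0 ev (fun z => c * (f z + ε * f (a12r z))) a
  refine ⟨⟨?_, ?_, ?_, ?_⟩, h.weight, ?_, hne⟩
  · have h1 : ContDiffOn ℝ 2 (fun w : ℂ => f (ofComplex (-conj w))) {z | 0 < z.im} := by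
      refine ContDiffOn.comp (g := fun z : ℂ => f (ofComplex z)) (f := fun w : ℂ => -conj w)
        (t := {z | 0 < z.im}) h.smooth ?_ ?_
      · exact (Complex.conjCLE.contDiff.neg).contDiffOn
      · intro w hw
        simpa using hw
    have h2 : ContDiffOn ℝ 2 (fun w : ℂ => f (a12r (ofComplex w))) {z | 0 < z.im} :=
      h1.congr fun w hw => by rw [a12_of hw]
    exact contDiffOn_const.mul (h.smooth.add (contDiffOn_const.mul h2))
  · intro z
    rw [a12_lap h.smooth, h.eigen, h.eigen]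
    ring
  · intro γ hγ z
    have h1 := h.automorphic γ hγ z
    have h2 := h.automorphic (a12g γ) (by simpa [a12g] using hγ) (a12r z)
    have h3 : (a12g γ) 1 1 = γ 1 1 := by simp [a12g]
    rw [a12_smul, h1, h2, h3]
    simp only [pow_zero]
    ring
  · intro γ
    have h1 := h.cusp γ
    have hr : Tendsto a12r atImInfty atImInfty := by
      unfold atImInfty
      rw [tendsto_comap_iff]
      have : UpperHalfPlane.im ∘ a12r = UpperHalfPlane.im := by
        ext z; exact a12_im z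
      rw [this]
      exact tendsto_comap
    have h2 := (h.cusp (a12g γ)).comp hr
    have h3 : Tendsto (fun z : ℍ => c * (f (γ • z) + ε * f (a12g γ • a12r z))) atImInfty
        (𝓝 (c * (0 + ε * 0))) := (h1.add (h2.const_mul (ε : ℂ))).const_mul c
    simp only [mul_zero, add_zero] at h3
    refine h3.congr fun z => ?_
    rw [a12_smul]
  · intro n hn z
    have h1 := h.hecke n hn z
    have h2 := h.hecke n hn (a12r z)
    have h3 : heckeT χ n (fun z => f (a12r z)) z = heckeT χ n f (a12r z) := by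
      unfold heckeT
      congr 1
      refine Finset.sum_congr rfl fun p hp => ?_
      congr 1
      have hp' := Nat.mem_divisorsAntidiagonal.1 hp
      have hp1 : 0 < p.1 := Nat.pos_of_ne_zero fun h0 => hp'.2 (by rw [← hp'.1, h0, zero_mul])
      have hp2 : 0 < p.2 := Nat.pos_of_ne_zero fun h0 => hp'.2 (by rw [← hp'.1, h0, mul_zero])
      have hp1r : (0 : ℝ) < p.1 := by exact_mod_cast hp1
      have hp2r : (0 : ℝ) < p.2 := by exact_mod_cast hp2
      have hp2c : (p.2 : ℂ) ≠ 0 := by exact_mod_cast hp2.ne'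
      have him : ∀ (w : ℍ) (m : ℤ), 0 < (((p.1 : ℂ) * w + m) / p.2).im := by
        intro w m
        have e1 : (((p.1 : ℂ) * w + m) / p.2) = (((p.1 : ℝ) / p.2 : ℝ) : ℂ) * w +
            ((m / p.2 : ℝ) : ℂ) := by
          push_cast; field_simp
        rw [e1]
        simp only [add_im, im_ofReal_mul, ofReal_im, add_zero]
        exact mul_pos (div_pos hp1r hp2r) w.im_pos
      have hs := a12_sum (fun m : ℤ => f (ofComplex (((p.1 : ℂ) * (a12r z : ℍ) + m) / p.2))) p.2
        (by
          intro m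
          have e1 : (((p.1 : ℂ) * (a12r z : ℍ) + ((m + p.2 : ℤ) : ℂ)) / p.2) =
              (((p.1 : ℂ) * (a12r z : ℍ) + m) / p.2) + 1 := by
            push_cast; field_simp; ring
          rw [e1, hT _ (him _ _)])
      have hl : ∀ b : ℕ, f (a12r (ofComplex (((p.1 : ℂ) * z + b) / p.2))) =
          f (ofComplex (((p.1 : ℂ) * (a12r z : ℍ) + ((-(b : ℤ) : ℤ) : ℂ)) / p.2)) := by
        intro b
        have e2 := him z b
        simp only [Int.cast_natCast] at e2
        rw [a12_of e2, a12_coe]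
        congr 2
        simp only [map_div₀, map_add, map_mul, Complex.conj_natCast]
        push_cast
        rw [← neg_div]
        congr 1
        ring
      simp only [hl]
      rw [hs]
      simp only [Int.cast_natCast]
    have h4 : heckeT χ n (fun z => c * (f z + ε * f (a12r z))) z =
        c * (heckeT χ n f z + ε * heckeT χ n (fun z => f (a12r z)) z) := by
      unfold heckeT
      rw [mul_left_comm (ε : ℂ), ← mul_add, mul_left_comm c]
      congr 1
      rw [Finset.mul_sum, ← Finset.sum_add_distrib, Finset.mul_sum]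
      refine Finset.sum_congr rfl fun p _ => ?_
      rw [mul_left_comm (ε : ℂ), ← mul_add, mul_left_comm c]
      congr 1
      rw [Finset.mul_sum, ← Finset.sum_add_distrib, Finset.mul_sum]
    rw [h4, h3, h1, h2]
    ring

end Pool.Agent.JO.FM

namespace Pool.Agent.JO.FM

theorem heckeMaass_parity : type_of% @heckeMaass_parity_pr := @heckeMaass_parity_pr

end Pool.Agent.JO.FM
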