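import Pool.Agent.Lib_helper45.JO.Defs2
import Pool.Agent.Lib_helper45.JOM.KKA

/-! # JO, part FM, block K2: the functions `WW` (helper47) -/

set_option autoImplicit false

namespace Pool.Agent.JO.FM

open Complex Filter Topology MeasureTheory Set
open UpperHalfPlane hiding I
open scoped MatrixGroups ComplexConjugate

theorem k2_sqrt {x : ℝ} (hx : 0 < x) :
    HasDerivAt (fun y : ℝ => ((√y : ℝ) : ℂ)) (((√x : ℝ) : ℂ) / (2 * x)) x := by
  have h := (Real.hasDerivAt_sqrt hx.ne').ofReal_comp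
  have e : ((1 / (2 * √x) : ℝ) : ℂ) = ((√x : ℝ) : ℂ) / (2 * x) := by
    have h1 : √x * √x = x := Real.mul_self_sqrt hx.le
    have h2 : √x ≠ 0 := (Real.sqrt_pos.2 hx).ne'
    have h3 : (1 / (2 * √x) : ℝ) = √x / (2 * x) := by
      rw [div_eq_div_iff (by positivity) (by positivity)]
      linear_combination (-2) * h1
    rw [h3]
    push_cast
    ring
  rw [← e]
  exact h

/-- `W_ν' = ((1/2 - ν)/x) W_ν - W_{ν-1}` -/
theorem k2_dn (ν : ℂ) {x : ℝ} (hx : 0 < x) :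
    HasDerivAt (WW ν) ((1 / 2 - ν) / x * WW ν x - WW (ν - 1) x) x := by
  have hxc : (x : ℂ) ≠ 0 := ofReal_ne_zero.2 hx.ne'
  have h := (k2_sqrt hx).mul (KK_deriv ν hx)
  have hr := KK_rec ν hx
  have e : ((√x : ℝ) : ℂ) / (2 * x) * KK ν x + ((√x : ℝ) : ℂ) * (-(KK (ν + 1) x + KK (ν - 1) x) / 2) =
      (1 / 2 - ν) / x * WW ν x - WW (ν - 1) x := by
    have h1 : KK (ν + 1) x = KK (ν - 1) x + 2 * ν / x * KK ν x := by
      linear_combination hr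
    unfold WW
    rw [h1]
    field_simp
    ring
  rw [← e]
  exact h

/-- `W_ν' = ((1/2 + ν)/x) W_ν - W_{ν+1}` -/
theorem k2_up (ν : ℂ) {x : ℝ} (hx : 0 < x) :
    HasDerivAt (WW ν) ((1 / 2 + ν) / x * WW ν x - WW (ν + 1) x) x := by
  have hxc : (x : ℂ) ≠ 0 := ofReal_ne_zero.2 hx.ne'
  have h := (k2_sqrt hx).mul (KK_deriv ν hx)
  have hr := KK_rec ν hx
  have e : ((√x : ℝ) : ℂ) / (2 * x) * KK ν x + ((√x : ℝ) : ℂ) * (-(KK (ν + 1) x + KK (ν - 1) x) / 2) =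
      (1 / 2 + ν) / x * WW ν x - WW (ν + 1) x := by
    have h1 : KK (ν - 1) x = KK (ν + 1) x - 2 * ν / x * KK ν x := by
      linear_combination (-1 : ℂ) * hr
    unfold WW
    rw [h1]
    field_simp
    ring
  rw [← e]
  exact h

theorem WW_deriv_pr (ν : ℂ) {x : ℝ} (hx : 0 < x) :
    HasDerivAt (WW ν) (deriv (WW ν) x) x ∧
    HasDerivAt (deriv (WW ν)) ((1 + (ν ^ 2 - 1 / 4) / (x : ℂ) ^ 2) * WW ν x) x := by
  have hxc : (x : ℂ) ≠ 0 := ofReal_ne_zero.2 hx.ne'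
  refine ⟨(k2_dn ν hx).differentiableAt.hasDerivAt, ?_⟩
  have hev : deriv (WW ν) =ᶠ[𝓝 x] fun y : ℝ => (1 / 2 - ν) / (y : ℂ) * WW ν y - WW (ν - 1) y := by
    filter_upwards [Ioi_mem_nhds hx] with y hy
    exact (k2_dn ν hy).deriv
  refine HasDerivAt.congr_of_eventuallyEq ?_ hev
  have h1 : HasDerivAt (fun y : ℝ => (1 / 2 - ν) / (y : ℂ)) (-(1 / 2 - ν) / (x : ℂ) ^ 2) x := by
    have h0 : HasDerivAt (fun y : ℝ => (y : ℂ)) 1 x := by
      have := (hasDerivAt_id x).ofReal_comp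
      simpa using this
    have h2 := (h0.inv hxc).const_mul (1 / 2 - ν)
    have e : (1 / 2 - ν) * (-1 / (x : ℂ) ^ 2) = -(1 / 2 - ν) / (x : ℂ) ^ 2 := by ring
    rw [e] at h2
    exact h2
  have h3 := (h1.mul (k2_dn ν hx)).sub (k2_up (ν - 1) hx)
  rw [sub_add_cancel] at h3
  have e : -(1 / 2 - ν) / (x : ℂ) ^ 2 * WW ν x + (1 / 2 - ν) / (x : ℂ) *
      ((1 / 2 - ν) / x * WW ν x - WW (ν - 1) x) - ((1 / 2 + (ν - 1)) / x * WW (ν - 1) x - WW ν x) =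
      (1 + (ν ^ 2 - 1 / 4) / (x : ℂ) ^ 2) * WW ν x := by
    field_simp
    ring
  rw [← e]
  exact h3

theorem k2_norm (μ : ℂ) (x : ℝ) : ‖WW μ x‖ = x ^ (1 / 2 : ℝ) * ‖KK μ x‖ := by
  unfold WW
  rw [norm_mul, Complex.norm_real, Real.norm_eq_abs, abs_of_nonneg (Real.sqrt_nonneg x),
    Real.sqrt_eq_rpow]

theorem WW_bound_pr {ν : ℂ} (h : GoodNu ν) {b : ℝ} (hb : ν.re < b) :
    ∃ C : ℝ, ∀ x : ℝ, 0 < x → ‖WW ν x‖ ≤ C * x ^ (1 / 2 - b) * Real.exp (-(x / 2)) ∧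
      x * ‖deriv (WW ν) x‖ ≤ C * x ^ (1 / 2 - b) * Real.exp (-(x / 4)) ∧
      x ^ 2 * ‖deriv (deriv (WW ν)) x‖ ≤ C * x ^ (1 / 2 - b) * Real.exp (-(x / 4)) := by
  have h0 := h.nonneg
  have h1 := h.lt_half
  obtain ⟨C₁, hC₁⟩ := KK_bound ν (b := b) (by rw [abs_of_nonneg h0]; exact hb)
  obtain ⟨C₂, hC₂⟩ := KK_bound (ν - 1) (b := b + 1) (by
    rw [Complex.sub_re, Complex.one_re, abs_lt]
    constructor <;> linarith)
  set A : ℝ := |C₁| with hA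
  set B : ℝ := |C₂| with hB
  have hA0 : 0 ≤ A := abs_nonneg _
  have hB0 : 0 ≤ B := abs_nonneg _
  set E : ℝ := ‖(1 / 2 - ν : ℂ)‖ with hE
  set G : ℝ := ‖(ν ^ 2 - 1 / 4 : ℂ)‖ with hG
  have hE0 : 0 ≤ E := norm_nonneg _
  have hG0 : 0 ≤ G := norm_nonneg _
  -- the basic bounds
  have hW : ∀ x : ℝ, 0 < x → ‖WW ν x‖ ≤ A * x ^ (1 / 2 - b) * Real.exp (-(x / 2)) := by
    intro x hx
    rw [k2_norm ν x]
    have e : x ^ (1 / 2 - b) = x ^ (1 / 2 : ℝ) * x ^ (-b) := by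
      rw [← Real.rpow_add hx]
      rfl
    rw [e]
    have h2 : ‖KK ν x‖ ≤ A * x ^ (-b) * Real.exp (-(x / 2)) := by
      refine (hC₁ x hx).trans ?_
      have : C₁ ≤ A := le_abs_self _
      gcongr
    calc x ^ (1 / 2 : ℝ) * ‖KK ν x‖ ≤ x ^ (1 / 2 : ℝ) * (A * x ^ (-b) * Real.exp (-(x / 2))) := by
          gcongr
      _ = _ := by ring
  have hV : ∀ x : ℝ, 0 < x → x * ‖WW (ν - 1) x‖ ≤ B * x ^ (1 / 2 - b) * Real.exp (-(x / 2)) := by
    intro x hx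
    rw [k2_norm (ν - 1) x]
    have e : x ^ (1 / 2 - b) = x * x ^ (1 / 2 : ℝ) * x ^ (-(b + 1)) := by
      have h9 := Real.rpow_add hx 1 (1 / 2 + -(b + 1))
      rw [Real.rpow_one] at h9
      rw [mul_assoc, ← Real.rpow_add hx, ← h9]
      congr 1
      ring
    rw [e]
    have h2 : ‖KK (ν - 1) x‖ ≤ B * x ^ (-(b + 1)) * Real.exp (-(x / 2)) := by
      refine (hC₂ x hx).trans ?_
      have : C₂ ≤ B := le_abs_self _
      gcongr
    calc x * (x ^ (1 / 2 : ℝ) * ‖KK (ν - 1) x‖) ≤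
        x * (x ^ (1 / 2 : ℝ) * (B * x ^ (-(b + 1)) * Real.exp (-(x / 2)))) := by
          gcongr
      _ = _ := by ring
  refine ⟨(1 + E + G + 32) * A + B, fun x hx => ?_⟩
  have hxc : (x : ℂ) ≠ 0 := ofReal_ne_zero.2 hx.ne'
  have hp : 0 < x ^ (1 / 2 - b) := Real.rpow_pos_of_pos hx _
  have he2 : 0 < Real.exp (-(x / 2)) := Real.exp_pos _
  have he4 : 0 < Real.exp (-(x / 4)) := Real.exp_pos _
  have hee : Real.exp (-(x / 2)) ≤ Real.exp (-(x / 4)) := Real.exp_le_exp.2 (by linarith)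
  have hx2 : x ^ 2 * Real.exp (-(x / 2)) ≤ 32 * Real.exp (-(x / 4)) := by
    have e : Real.exp (-(x / 2)) = Real.exp (-(x / 4)) * Real.exp (-(x / 4)) := by
      rw [← Real.exp_add]
      congr 1
      ring
    have h3 : x ^ 2 * Real.exp (-(x / 4)) ≤ 32 := by
      rw [Real.exp_neg, ← div_eq_mul_inv, div_le_iff₀ (Real.exp_pos _)]
      have := Real.quadratic_le_exp_of_nonneg (x := x / 4) (by positivity)
      nlinarith
    rw [e]
    calc x ^ 2 * (Real.exp (-(x / 4)) * Real.exp (-(x / 4))) =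
        (x ^ 2 * Real.exp (-(x / 4))) * Real.exp (-(x / 4)) := by ring
      _ ≤ _ := mul_le_mul_of_nonneg_right h3 he4.le
  have hW1 := hW x hx
  have hV1 := hV x hx
  have hpe4 : 0 < x ^ (1 / 2 - b) * Real.exp (-(x / 4)) := by positivity
  have hpe2 : 0 < x ^ (1 / 2 - b) * Real.exp (-(x / 2)) := by positivity
  have hle : x ^ (1 / 2 - b) * Real.exp (-(x / 2)) ≤ x ^ (1 / 2 - b) * Real.exp (-(x / 4)) :=
    mul_le_mul_of_nonneg_left hee hp.le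
  set p := x ^ (1 / 2 - b) with hpdef
  set e2 := Real.exp (-(x / 2)) with he2def
  set e4 := Real.exp (-(x / 4)) with he4def
  refine ⟨?_, ?_, ?_⟩
  · calc ‖WW ν x‖ ≤ A * p * e2 := hW1
      _ = A * (p * e2) := by ring
      _ ≤ ((1 + E + G + 32) * A + B) * (p * e2) := by
          apply mul_le_mul_of_nonneg_right _ hpe2.le
          nlinarith [mul_nonneg hE0 hA0, mul_nonneg hG0 hA0]
      _ = _ := by ring
  · rw [(k2_dn ν hx).deriv]
    have h4 : x * ‖(1 / 2 - ν) / (x : ℂ) * WW ν x - WW (ν - 1) x‖ ≤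
        E * ‖WW ν x‖ + x * ‖WW (ν - 1) x‖ := by
      have h5 := norm_sub_le ((1 / 2 - ν) / (x : ℂ) * WW ν x) (WW (ν - 1) x)
      have h6 : ‖(1 / 2 - ν) / (x : ℂ) * WW ν x‖ = E / x * ‖WW ν x‖ := by
        rw [norm_mul, norm_div, Complex.norm_real, Real.norm_eq_abs, abs_of_pos hx]
      rw [h6] at h5
      calc x * ‖(1 / 2 - ν) / (x : ℂ) * WW ν x - WW (ν - 1) x‖ ≤
          x * (E / x * ‖WW ν x‖ + ‖WW (ν - 1) x‖) := mul_le_mul_of_nonneg_left h5 hx.le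
        _ = E * ‖WW ν x‖ + x * ‖WW (ν - 1) x‖ := by
            field_simp
    calc x * ‖(1 / 2 - ν) / (x : ℂ) * WW ν x - WW (ν - 1) x‖ ≤
        E * ‖WW ν x‖ + x * ‖WW (ν - 1) x‖ := h4
      _ ≤ E * (A * p * e2) + B * p * e2 := by gcongr
      _ = (E * A + B) * (p * e2) := by ring
      _ ≤ (E * A + B) * (p * e4) := mul_le_mul_of_nonneg_left hle (by positivity)
      _ ≤ ((1 + E + G + 32) * A + B) * (p * e4) := by
          apply mul_le_mul_of_nonneg_right _ hpe4.le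
          nlinarith [mul_nonneg hE0 hA0, mul_nonneg hG0 hA0]
      _ = _ := by ring
  · rw [(WW_deriv_pr ν hx).2.deriv]
    have h7 : x ^ 2 * ‖(1 + (ν ^ 2 - 1 / 4) / (x : ℂ) ^ 2) * WW ν x‖ ≤ (x ^ 2 + G) * ‖WW ν x‖ := by
      rw [norm_mul, ← mul_assoc]
      apply mul_le_mul_of_nonneg_right _ (norm_nonneg _)
      have h8 : ‖(1 + (ν ^ 2 - 1 / 4) / (x : ℂ) ^ 2 : ℂ)‖ ≤ 1 + G / x ^ 2 := by
        refine (norm_add_le _ _).trans ?_
        rw [norm_one, norm_div, norm_pow, Complex.norm_real, Real.norm_eq_abs, abs_of_pos hx]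
      calc x ^ 2 * ‖(1 + (ν ^ 2 - 1 / 4) / (x : ℂ) ^ 2 : ℂ)‖ ≤ x ^ 2 * (1 + G / x ^ 2) :=
            mul_le_mul_of_nonneg_left h8 (by positivity)
        _ = x ^ 2 + G := by field_simp
    calc x ^ 2 * ‖(1 + (ν ^ 2 - 1 / 4) / (x : ℂ) ^ 2) * WW ν x‖ ≤ (x ^ 2 + G) * ‖WW ν x‖ := h7
      _ ≤ (x ^ 2 + G) * (A * p * e2) := by gcongr
      _ = A * p * (x ^ 2 * e2) + G * A * (p * e2) := by ring
      _ ≤ A * p * (32 * e4) + G * A * (p * e4) := by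
          gcongr
      _ = ((32 + G) * A) * (p * e4) := by ring
      _ ≤ ((1 + E + G + 32) * A + B) * (p * e4) := by
          apply mul_le_mul_of_nonneg_right _ hpe4.le
          nlinarith [mul_nonneg hE0 hA0, mul_nonneg hG0 hA0]
      _ = _ := by ring

end Pool.Agent.JO.FM

namespace Pool.Agent.JO.FM

theorem WW_deriv : type_of% @WW_deriv_pr := @WW_deriv_pr
theorem WW_bound : type_of% @WW_bound_pr := @WW_bound_pr

end Pool.Agent.JO.FM
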