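import Pool.Agent.Lib_helper45.JO.Defs2
import Pool.Agent.Lib_helper45.JOM.A1
import Pool.Agent.Lib_helper45.JOM.K3
import Pool.Agent.Lib_helper45.JOM.KKA
import Pool.Agent.Lib_helper45.JOM.O2
import Pool.Agent.Lib_helper45.JOM.O3

/-! Project JO, part FM, block A4 (by helper14). Needs A1 O2 O3 K3 KK_bound. -/

set_option autoImplicit false
set_option linter.unusedSectionVars false

namespace Pool.Agent.JO.FM

open Complex Filter Topology MeasureTheory Set
open UpperHalfPlane hiding I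
open scoped MatrixGroups ComplexConjugate

theorem a4_cont {P k : ℕ} {ev : ℝ} {F : ℍ → ℂ} (h : PerEig P k ev F) {y : ℝ} (hy : 0 < y) :
    Continuous (fun x : ℝ => F (pz x y)) := by
  have h1 := h.smooth.continuousOn
  have h2 : Continuous (fun x : ℝ => (x : ℂ) + y * I) := by fun_prop
  exact h1.comp_continuous h2 (fun x => by simpa using hy)

theorem a4_per {P k : ℕ} {ev : ℝ} {F : ℍ → ℂ} (h : PerEig P k ev F) {y : ℝ} (hy : 0 < y) :
    Function.Periodic (fun x : ℝ => F (pz x y)) (P : ℝ) := fun x => h.per x y hy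

/-- the restriction to a horizontal line, as a function on the circle -/
noncomputable def a4_circ {P k : ℕ} {ev : ℝ} {F : ℍ → ℂ} (h : PerEig P k ev F) {y : ℝ}
    (hy : 0 < y) : C(AddCircle (P : ℝ), ℂ) :=
  ⟨(a4_per h hy).lift, continuous_coinduced_dom.mpr (a4_cont h hy)⟩

theorem a4_circ_coe {P k : ℕ} {ev : ℝ} {F : ℍ → ℂ} (h : PerEig P k ev F) {y : ℝ}
    (hy : 0 < y) (x : ℝ) : a4_circ h hy (x : AddCircle (P : ℝ)) = F (pz x y) :=
  Function.Periodic.lift_coe (a4_per h hy) x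

theorem a4_coeff {P k : ℕ} [Fact (0 < (P : ℝ))] {ev : ℝ} {F : ℍ → ℂ} (h : PerEig P k ev F) {y : ℝ}
    (hy : 0 < y) (n : ℤ) : fourierCoeff (a4_circ h hy) n = fc P F n y := by
  rw [fourierCoeff_eq_intervalIntegral _ n 0, zero_add, fc, Complex.real_smul, one_div]
  congr 1
  refine intervalIntegral.integral_congr fun x _ => ?_
  simp only [smul_eq_mul]
  rw [a4_circ_coe, fourier_coe_apply, mul_comm]
  congr 2
  push_cast
  ring

theorem a4_bessel {P k : ℕ} [Fact (0 < (P : ℝ))] {ev : ℝ} {F : ℍ → ℂ} (h : PerEig P k ev F) {y : ℝ}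
    (hy : 0 < y) {C : ℝ} (hC : ∀ z, ‖F z‖ ≤ C) (S : Finset ℤ) :
    ∑ n ∈ S, ‖fc P F n y‖ ^ 2 ≤ C ^ 2 := by
  have hs := hasSum_sq_fourierCoeff
    (ContinuousMap.toLp (E := ℂ) 2 AddCircle.haarAddCircle ℂ (a4_circ h hy))
  simp_rw [fourierCoeff_toLp, a4_coeff] at hs
  refine (sum_le_hasSum S (fun _ _ => sq_nonneg _) hs).trans ?_
  have h1 : ∀ᵐ t ∂(AddCircle.haarAddCircle (T := (P : ℝ))),
      ‖‖(ContinuousMap.toLp (E := ℂ) 2 AddCircle.haarAddCircle ℂ (a4_circ h hy)) t‖ ^ 2‖ ≤ C ^ 2 := by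
    filter_upwards [ContinuousMap.coeFn_toLp (E := ℂ) (p := 2) (𝕜 := ℂ)
      (AddCircle.haarAddCircle (T := (P : ℝ))) (a4_circ h hy)] with t ht
    rw [ht, norm_pow, norm_norm]
    have h2 : ‖a4_circ h hy t‖ ≤ C := by
      induction t using QuotientAddGroup.induction_on with
      | H x =>
        have h3 := a4_circ_coe h hy x
        rw [h3]
        exact hC _
    exact pow_le_pow_left₀ (norm_nonneg _) h2 2
  have h2 := norm_integral_le_of_norm_le_const h1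
  rw [probReal_univ, mul_one] at h2
  exact (le_abs_self _).trans h2

theorem a4_summ {c : ℝ} (hc : 0 < c) : Summable (fun m : ℤ => Real.exp (-(c * |(m : ℝ)|))) := by
  have h1 : Summable (fun n : ℕ => Real.exp (-(c * (n : ℝ)))) := by
    have h3 : (fun n : ℕ => Real.exp (-(c * (n : ℝ)))) = fun n : ℕ => Real.exp (-c) ^ n := by
      funext n
      rw [← Real.exp_nat_mul]
      congr 1
      ring
    rw [h3]
    exact summable_geometric_of_lt_one (Real.exp_nonneg _) (by rw [Real.exp_lt_one_iff]; linarith)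
  refine Summable.of_nat_of_neg ?_ ?_
  · simpa using h1
  · simpa using h1

theorem a4_WW {ν : ℂ} (hν : GoodNu ν) : ∃ C : ℝ, 0 ≤ C ∧ ∀ x : ℝ, 0 < x →
    ‖WW ν x‖ ≤ C * Real.exp (-(x / 2)) := by
  obtain ⟨C, hC⟩ := KK_bound ν (b := 1 / 2) (by
    rw [abs_of_nonneg hν.nonneg]
    exact hν.lt_half)
  refine ⟨|C|, abs_nonneg _, fun x hx => ?_⟩
  have h1 := hC x hx
  have hx' : 0 < √x := Real.sqrt_pos.2 hx
  rw [WW, norm_mul, Complex.norm_real, Real.norm_of_nonneg hx'.le]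
  calc √x * ‖KK ν x‖ ≤ √x * (C * x ^ (-(1 / 2) : ℝ) * Real.exp (-(x / 2))) :=
        mul_le_mul_of_nonneg_left h1 hx'.le
    _ = C * Real.exp (-(x / 2)) := by
        rw [Real.rpow_neg hx.le, ← Real.sqrt_eq_rpow]
        field_simp
    _ ≤ |C| * Real.exp (-(x / 2)) :=
        mul_le_mul_of_nonneg_right (le_abs_self _) (Real.exp_nonneg _)

theorem a4_coeffs {P : ℕ} {ν : ℂ} {ev : ℝ} {F : ℍ → ℂ} (hP : 0 < P) (hν : GoodNu ν)
    (hev : ν ^ 2 = 1 / 4 - ev) (h0 : 0 < ev) (h : PerEig P 0 ev F) :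
    ∃ β : ℤ → ℂ, β 0 = 0 ∧ ∀ (n : ℤ) (y : ℝ), 0 < y →
      fc P F n y = β n * WW ν (2 * Real.pi * |(n : ℝ)| * y / P) := by
  have hP' : (0 : ℝ) < P := by exact_mod_cast hP
  have key : ∀ n : ℤ, ∃ c : ℂ, (n = 0 → c = 0) ∧ ∀ y : ℝ, 0 < y →
      fc P F n y = c * WW ν (2 * Real.pi * |(n : ℝ)| * y / P) := by
    intro n
    obtain ⟨b', hb'⟩ := fc_ode hP h n
    rcases eq_or_ne n 0 with rfl | hn
    · refine ⟨0, fun _ => rfl, fun y hy => ?_⟩
      rw [zero_mul]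
      refine ode_zero h0 (b := fc P F 0) (b' := b') (fun y hy => (hb' y hy).1) (fun y hy => ?_)
        (fc_tendsto hP h 0) y hy
      have h1 := (hb' y hy).2
      have h2 : ((2 * Real.pi * ((0 : ℤ) : ℝ) / P) ^ 2 - ((0 : ℕ) : ℝ) *
          (2 * Real.pi * ((0 : ℤ) : ℝ) / P) / y - ev / y ^ 2 : ℝ) = -(ev / y ^ 2) := by
        simp
      rw [h2] at h1
      exact h1
    · have hn' : (0 : ℝ) < |(n : ℝ)| := abs_pos.2 (by exact_mod_cast hn)
      have hκ : 0 < 2 * Real.pi * |(n : ℝ)| / P := by positivity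
      obtain ⟨c, hc⟩ := ode_unique hν hev hκ (b := fc P F n) (b' := b')
        (fun y hy => (hb' y hy).1) (fun y hy => by
          have h1 := (hb' y hy).2
          have h2 : ((2 * Real.pi * (n : ℝ) / P) ^ 2 - ((0 : ℕ) : ℝ) *
              (2 * Real.pi * (n : ℝ) / P) / y - ev / y ^ 2 : ℝ) =
              (2 * Real.pi * |(n : ℝ)| / P) ^ 2 - ev / y ^ 2 := by
            rw [Nat.cast_zero, zero_mul, zero_div, sub_zero, div_pow, div_pow, mul_pow _ |(n : ℝ)|,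
              sq_abs, mul_pow _ (n : ℝ)]
          rw [h2] at h1
          exact h1) (fc_tendsto hP h n)
      refine ⟨c, fun h => absurd h hn, fun y hy => ?_⟩
      rw [hc y hy]
      congr 2
      ring
  choose β hβ using key
  exact ⟨β, (hβ 0).1 rfl, fun n => (hβ n).2⟩

/-- A4 -/
theorem expn_of_perEig_pr {P : ℕ} {ν : ℂ} {ev : ℝ} {F : ℍ → ℂ} (hP : 0 < P) (hν : GoodNu ν)
    (hev : ν ^ 2 = 1 / 4 - ev) (h0 : 0 < ev) (h : PerEig P 0 ev F)
    (hb : ∃ C : ℝ, ∀ z, ‖F z‖ ≤ C) : ∃ β : ℤ → ℂ, Expn P ν β F := by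
  have hP' : (0 : ℝ) < P := by exact_mod_cast hP
  have hfact : Fact (0 < (P : ℝ)) := ⟨hP'⟩
  obtain ⟨B, hB⟩ := hb
  obtain ⟨β, hβ0, hβ⟩ := a4_coeffs hP hν hev h0 h
  obtain ⟨x₀, hx₀, hW⟩ := WW_low hν
  have hx₀' : 0 < x₀ := lt_of_lt_of_le one_pos hx₀
  have hdy : ∀ M : ℕ, 0 < M → ∑ m ∈ Finset.Icc M (2 * M),
      (‖β (m : ℤ)‖ ^ 2 + ‖β (-(m : ℤ))‖ ^ 2) ≤ Real.exp (4 * x₀) * (B ^ 2 + B ^ 2) := by
    intro M hM
    have hM' : (0 : ℝ) < M := by exact_mod_cast hM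
    set y : ℝ := x₀ * P / (2 * Real.pi * M) with hy
    have hy0 : 0 < y := by positivity
    have hle : ∀ n : ℤ, (M : ℝ) ≤ |(n : ℝ)| → |(n : ℝ)| ≤ 2 * M →
        ‖β n‖ ^ 2 ≤ Real.exp (4 * x₀) * ‖fc P F n y‖ ^ 2 := by
      intro n h1 h2
      have h3 : 2 * Real.pi * |(n : ℝ)| * y / P = x₀ * (|(n : ℝ)| / M) := by
        rw [hy]
        have := Real.pi_pos
        field_simp
      have h4 : 1 ≤ |(n : ℝ)| / M := by rwa [one_le_div hM']
      have h5 : |(n : ℝ)| / M ≤ 2 := by rwa [div_le_iff₀ hM']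
      have h6 : x₀ ≤ x₀ * (|(n : ℝ)| / M) := by nlinarith
      have h7 : x₀ * (|(n : ℝ)| / M) ≤ 2 * x₀ := by nlinarith
      have h8 : Real.exp (-(2 * x₀)) ≤ ‖WW ν (x₀ * (|(n : ℝ)| / M))‖ :=
        ((Real.exp_le_exp.2 (by linarith)).trans (hW _ h6)).trans (Complex.re_le_norm _)
      rw [hβ n y hy0, h3, norm_mul, mul_pow]
      have h9 : 1 ≤ Real.exp (4 * x₀) * ‖WW ν (x₀ * (|(n : ℝ)| / M))‖ ^ 2 := by
        have h10 : Real.exp (4 * x₀) * Real.exp (-(2 * x₀)) ^ 2 = 1 := by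
          rw [← Real.exp_nat_mul, ← Real.exp_add]
          simp
          ring
        rw [← h10]
        exact mul_le_mul_of_nonneg_left (pow_le_pow_left₀ (Real.exp_nonneg _) h8 2)
          (Real.exp_nonneg _)
      nlinarith [sq_nonneg ‖β n‖]
    have hb1 := a4_bessel h hy0 hB ((Finset.Icc M (2 * M)).map
      ⟨fun m : ℕ => (m : ℤ), Nat.cast_injective⟩)
    have hb2 := a4_bessel h hy0 hB ((Finset.Icc M (2 * M)).map
      ⟨fun m : ℕ => -(m : ℤ), fun a b hab => by simpa using hab⟩)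
    rw [Finset.sum_map] at hb1 hb2
    simp only [Function.Embedding.coeFn_mk] at hb1 hb2
    calc ∑ m ∈ Finset.Icc M (2 * M), (‖β (m : ℤ)‖ ^ 2 + ‖β (-(m : ℤ))‖ ^ 2)
        ≤ ∑ m ∈ Finset.Icc M (2 * M), (Real.exp (4 * x₀) * ‖fc P F (m : ℤ) y‖ ^ 2 +
            Real.exp (4 * x₀) * ‖fc P F (-(m : ℤ)) y‖ ^ 2) := by
          refine Finset.sum_le_sum fun m hm => ?_
          rw [Finset.mem_Icc] at hm
          have h1 : (M : ℝ) ≤ m := by exact_mod_cast hm.1
          have h2 : (m : ℝ) ≤ 2 * M := by exact_mod_cast hm.2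
          have h3 : |(((m : ℤ)) : ℝ)| = m := by simp
          have h4 : |((-(m : ℤ) : ℤ) : ℝ)| = m := by simp
          exact add_le_add (hle _ (by rw [h3]; exact h1) (by rw [h3]; exact h2))
            (hle _ (by rw [h4]; exact h1) (by rw [h4]; exact h2))
      _ = Real.exp (4 * x₀) * (∑ m ∈ Finset.Icc M (2 * M), ‖fc P F (m : ℤ) y‖ ^ 2 +
            ∑ m ∈ Finset.Icc M (2 * M), ‖fc P F (-(m : ℤ)) y‖ ^ 2) := by
          rw [Finset.sum_add_distrib, ← Finset.mul_sum, ← Finset.mul_sum, mul_add]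
      _ ≤ _ := mul_le_mul_of_nonneg_left (add_le_add hb1 hb2) (Real.exp_nonneg _)
  set D : ℝ := Real.exp (4 * x₀) * (B ^ 2 + B ^ 2) with hD
  have hbd : ∀ n : ℤ, ‖β n‖ ≤ √D := by
    intro n
    rcases eq_or_ne n 0 with rfl | hn
    · rw [hβ0, norm_zero]
      exact Real.sqrt_nonneg _
    · have hM : 0 < n.natAbs := Int.natAbs_pos.2 hn
      have h1 := (Finset.single_le_sum (f := fun m : ℕ => ‖β (m : ℤ)‖ ^ 2 + ‖β (-(m : ℤ))‖ ^ 2)
        (fun m _ => by positivity)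
        (Finset.mem_Icc.2 ⟨le_rfl, by omega⟩ : n.natAbs ∈ Finset.Icc n.natAbs (2 * n.natAbs))).trans
        (hdy _ hM)
      refine Real.le_sqrt_of_sq_le ?_
      rcases Int.natAbs_eq n with h2 | h2
      · rw [← h2] at h1
        nlinarith [sq_nonneg ‖β (-n)‖]
      · have h3 : -((n.natAbs : ℕ) : ℤ) = n := h2.symm
        rw [h3] at h1
        nlinarith [sq_nonneg ‖β ((n.natAbs : ℕ) : ℤ)‖]
  refine ⟨β, hβ0, ⟨_, hdy⟩, fun x y hy => ?_⟩
  obtain ⟨C₁, hC₁, hW₁⟩ := a4_WW hν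
  have hsum : Summable (fourierCoeff (a4_circ h hy)) := by
    have h1 := ((a4_summ (c := Real.pi * y / P) (by
      have := Real.pi_pos
      positivity)).mul_left (√D * C₁))
    refine Summable.of_norm_bounded h1 fun n => ?_
    rw [a4_coeff, hβ n y hy, norm_mul]
    rcases eq_or_ne n 0 with rfl | hn
    · rw [hβ0, norm_zero, zero_mul]
      have := Real.sqrt_nonneg D
      positivity
    · have hn' : (0 : ℝ) < |(n : ℝ)| := abs_pos.2 (by exact_mod_cast hn)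
      have hX : 0 < 2 * Real.pi * |(n : ℝ)| * y / P := by
        have := Real.pi_pos
        positivity
      have h2 := hW₁ _ hX
      have h3 : -(2 * Real.pi * |(n : ℝ)| * y / P / 2) = -(Real.pi * y / P * |(n : ℝ)|) := by
        ring
      rw [h3] at h2
      rw [mul_assoc (√D)]
      exact mul_le_mul (hbd n) h2 (norm_nonneg _) (Real.sqrt_nonneg _)
  have h2 := has_pointwise_sum_fourier_series_of_summable hsum (x : AddCircle (P : ℝ))
  rw [a4_circ_coe] at h2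
  have h3 : (fun m : ℤ => β m * WW ν (2 * Real.pi * |(m : ℝ)| * y / P) *
      cexp ((2 * Real.pi * m * x / P : ℝ) * I)) =
      fun i => fourierCoeff (a4_circ h hy) i • fourier i (x : AddCircle (P : ℝ)) := by
    funext m
    rw [a4_coeff, hβ m y hy, smul_eq_mul, fourier_coe_apply]
    congr 2
    push_cast
    ring
  rw [h3]
  exact h2

end Pool.Agent.JO.FM

namespace Pool.Agent.JO.FM

theorem expn_of_perEig : type_of% @expn_of_perEig_pr := @expn_of_perEig_pr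

end Pool.Agent.JO.FM
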