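import Pool.Agent.Lib_helper45.JO.Defs2
import Pool.Agent.Lib_helper45.JOM.K2

/-!
# Project JO, part FM, block A6: exponential decay at `i∞`
-/

set_option autoImplicit false

namespace Pool.Agent.JO.FM

open Complex Filter Topology MeasureTheory Set
open UpperHalfPlane hiding I
open scoped MatrixGroups ComplexConjugate

theorem a6_sum {c : ℝ} (hc : 0 < c) : Summable (fun m : ℤ => Real.exp (-(c * |(m : ℝ)|))) := by
  have h1 : Summable (fun n : ℕ => Real.exp (-(c * (n : ℝ)))) := by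
    have h2 : (fun n : ℕ => Real.exp (-(c * (n : ℝ)))) = fun n : ℕ => (Real.exp (-c)) ^ n := by
      funext n
      rw [← Real.exp_nat_mul]
      congr 1
      ring
    rw [h2]
    exact summable_geometric_of_lt_one (Real.exp_pos _).le (Real.exp_lt_one_iff.2 (by linarith))
  refine Summable.of_nat_of_neg ?_ ?_
  · refine h1.congr fun n => ?_
    simp
  · refine h1.congr fun n => ?_
    simp

theorem a6_WW {ν : ℂ} (hν : GoodNu ν) : ∃ K : ℝ, 0 ≤ K ∧ ∀ x : ℝ, 0 < x →
    ‖WW ν x‖ ≤ K * Real.exp (-(x / 8)) ∧ x * ‖WW ν x‖ ≤ K * Real.exp (-(x / 8)) ∧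
      x * ‖deriv (WW ν) x‖ ≤ K * Real.exp (-(x / 8)) := by
  have hb1 : ν.re < (ν.re + 1 / 2) / 2 := by linarith [hν.lt_half]
  obtain ⟨C, hC⟩ := WW_bound hν hb1
  set a : ℝ := 1 / 2 - (ν.re + 1 / 2) / 2 with ha
  have ha0 : 0 ≤ a := by rw [ha]; linarith [hν.lt_half]
  have ha1 : a ≤ 1 := by rw [ha]; linarith [hν.nonneg]
  have hC0 : 0 ≤ C := by
    have h1 := (hC 1 one_pos).1
    have h2 : 0 < Real.exp (-(1 / 2) : ℝ) := Real.exp_pos _
    rw [Real.one_rpow, mul_one] at h1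
    by_contra hneg
    push Not at hneg
    have h3 := mul_neg_of_neg_of_pos hneg h2
    linarith [norm_nonneg (WW ν 1)]
  refine ⟨1024 * C, by positivity, fun x hx => ?_⟩
  obtain ⟨h1, h2, -⟩ := hC x hx
  have hxa : x ^ a ≤ 1 + x := by
    calc x ^ a ≤ (1 + x) ^ a := Real.rpow_le_rpow hx.le (by linarith) ha0
      _ ≤ (1 + x) ^ (1 : ℝ) := Real.rpow_le_rpow_of_exponent_le (by linarith) ha1
      _ = 1 + x := Real.rpow_one _
  have he : 1 + x ≤ 32 * Real.exp (x / 32) := by
    have := Real.add_one_le_exp (x / 32)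
    linarith
  have hxa2 : x ^ a ≤ 32 * Real.exp (x / 32) := hxa.trans he
  have hmul : ∀ u v : ℝ, Real.exp u * Real.exp v = Real.exp (u + v) := fun u v =>
    (Real.exp_add u v).symm
  have hpos : 0 ≤ x ^ a := by positivity
  have g1 : ‖WW ν x‖ ≤ 32 * C * Real.exp (-(x / 4)) := by
    calc ‖WW ν x‖ ≤ C * x ^ a * Real.exp (-(x / 2)) := h1
      _ ≤ C * (32 * Real.exp (x / 32)) * Real.exp (-(x / 2)) := by
          apply mul_le_mul_of_nonneg_right _ (Real.exp_pos _).le
          exact mul_le_mul_of_nonneg_left hxa2 hC0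
      _ = 32 * C * Real.exp (x / 32 + -(x / 2)) := by rw [← hmul]; ring
      _ ≤ 32 * C * Real.exp (-(x / 4)) := by
          apply mul_le_mul_of_nonneg_left _ (by positivity)
          exact Real.exp_le_exp.2 (by linarith)
  refine ⟨?_, ?_, ?_⟩
  · refine g1.trans ?_
    apply mul_le_mul (by linarith) (Real.exp_le_exp.2 (by linarith)) (Real.exp_pos _).le
      (by positivity)
  · calc x * ‖WW ν x‖ ≤ (32 * Real.exp (x / 32)) * (32 * C * Real.exp (-(x / 4))) := by
          apply mul_le_mul (by linarith) g1 (norm_nonneg _) (by positivity)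
      _ = 1024 * C * Real.exp (x / 32 + -(x / 4)) := by rw [← hmul]; ring
      _ ≤ 1024 * C * Real.exp (-(x / 8)) := by
          apply mul_le_mul_of_nonneg_left _ (by positivity)
          exact Real.exp_le_exp.2 (by linarith)
  · calc x * ‖deriv (WW ν) x‖ ≤ C * x ^ a * Real.exp (-(x / 4)) := h2
      _ ≤ C * (32 * Real.exp (x / 32)) * Real.exp (-(x / 4)) := by
          apply mul_le_mul_of_nonneg_right _ (Real.exp_pos _).le
          exact mul_le_mul_of_nonneg_left hxa2 hC0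
      _ = 32 * C * Real.exp (x / 32 + -(x / 4)) := by rw [← hmul]; ring
      _ ≤ 1024 * C * Real.exp (-(x / 8)) := by
          apply mul_le_mul (by linarith) (Real.exp_le_exp.2 (by linarith)) (Real.exp_pos _).le
            (by positivity)

theorem a6_coef {P : ℕ} {ν : ℂ} {β : ℤ → ℂ} {F : ℍ → ℂ} (h : Expn P ν β F) :
    ∃ B : ℝ, 0 ≤ B ∧ ∀ m, ‖β m‖ ≤ B := by
  obtain ⟨C, hC⟩ := h.dyad
  refine ⟨√C, Real.sqrt_nonneg _, fun m => ?_⟩
  rcases eq_or_ne m 0 with rfl | hm
  · rw [h.zero, norm_zero]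
    exact Real.sqrt_nonneg _
  · apply Real.le_sqrt_of_sq_le
    have hpos : 0 < m.natAbs := Int.natAbs_pos.2 hm
    have h1 := hC m.natAbs hpos
    have h2 : ‖β (m.natAbs : ℤ)‖ ^ 2 + ‖β (-(m.natAbs : ℤ))‖ ^ 2 ≤
        ∑ j ∈ Finset.Icc m.natAbs (2 * m.natAbs), (‖β (j : ℤ)‖ ^ 2 + ‖β (-(j : ℤ))‖ ^ 2) :=
      Finset.single_le_sum (f := fun j : ℕ => ‖β (j : ℤ)‖ ^ 2 + ‖β (-(j : ℤ))‖ ^ 2)
        (fun j _ => by positivity) (Finset.mem_Icc.2 ⟨le_rfl, by omega⟩)
    rcases Int.natAbs_eq m with h3 | h3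
    · rw [h3]
      have : 0 ≤ ‖β (-(m.natAbs : ℤ))‖ ^ 2 := by positivity
      linarith
    · rw [h3]
      have : 0 ≤ ‖β (m.natAbs : ℤ)‖ ^ 2 := by positivity
      linarith

/-- the three bounds for the terms -/
theorem a6_terms {P : ℕ} {ν : ℂ} {β : ℤ → ℂ} {F : ℍ → ℂ} (hP : 0 < P) (hν : GoodNu ν)
    (h : Expn P ν β F) : ∃ K c d : ℝ, 0 < c ∧ 0 < d ∧ ∀ (m : ℤ) (y : ℝ), 1 / 4 ≤ y →
      ‖β m‖ * ‖WW ν (2 * Real.pi * |(m : ℝ)| * y / P)‖ ≤
        K * Real.exp (-(c * y)) * Real.exp (-(d * |(m : ℝ)|)) ∧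
      ‖β m‖ * (2 * Real.pi * |(m : ℝ)| / P) * ‖WW ν (2 * Real.pi * |(m : ℝ)| * y / P)‖ ≤
        K * Real.exp (-(c * y)) * Real.exp (-(d * |(m : ℝ)|)) ∧
      ‖β m‖ * (2 * Real.pi * |(m : ℝ)| / P) * ‖deriv (WW ν) (2 * Real.pi * |(m : ℝ)| * y / P)‖ ≤
        K * Real.exp (-(c * y)) * Real.exp (-(d * |(m : ℝ)|)) := by
  obtain ⟨K₁, hK0, hK⟩ := a6_WW hν
  obtain ⟨B, hB0, hB⟩ := a6_coef h
  have hPr : (0 : ℝ) < P := by exact_mod_cast hP
  have hpi := Real.pi_pos
  set c₀ : ℝ := Real.pi / (4 * P) with hc₀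
  have hc0 : 0 < c₀ := by positivity
  refine ⟨B * (4 * K₁), c₀ / 2, c₀ / 8, by positivity, by positivity, fun m y hy => ?_⟩
  have hy0 : 0 < y := by linarith
  rcases eq_or_ne m 0 with rfl | hm
  · rw [h.zero, norm_zero]
    simp only [zero_mul]
    refine ⟨by positivity, by positivity, by positivity⟩
  · have hm1 : (1 : ℝ) ≤ |(m : ℝ)| := by
      have : 1 ≤ |m| := Int.one_le_abs hm
      exact_mod_cast this
    set x : ℝ := 2 * Real.pi * |(m : ℝ)| * y / P with hx
    have hx0 : 0 < x := by positivity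
    obtain ⟨g1, g2, g3⟩ := hK x hx0
    have hxe : Real.exp (-(x / 8)) ≤ Real.exp (-(c₀ / 2 * y)) * Real.exp (-(c₀ / 8 * |(m : ℝ)|)) := by
      rw [← Real.exp_add]
      apply Real.exp_le_exp.2
      have e1 : x / 8 = c₀ * (|(m : ℝ)| * y) := by
        rw [hx, hc₀]
        field_simp
        ring
      have e2 : y / 2 + |(m : ℝ)| / 8 ≤ |(m : ℝ)| * y := by nlinarith
      have e3 := mul_le_mul_of_nonneg_left e2 hc0.le
      rw [e1]
      linarith
    have hE : 0 ≤ Real.exp (-(c₀ / 2 * y)) * Real.exp (-(c₀ / 8 * |(m : ℝ)|)) := by positivity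
    have hxy : 2 * Real.pi * |(m : ℝ)| / P ≤ 4 * x := by
      have e4 : 2 * Real.pi * |(m : ℝ)| / P = x / y := by
        rw [hx]
        field_simp
      rw [e4, div_le_iff₀ hy0]
      nlinarith
    have hfin : ∀ t : ℝ, t ≤ 4 * K₁ * Real.exp (-(x / 8)) → ‖β m‖ * t ≤
        B * (4 * K₁) * Real.exp (-(c₀ / 2 * y)) * Real.exp (-(c₀ / 8 * |(m : ℝ)|)) := by
      intro t ht
      have h5 : t ≤ 4 * K₁ * (Real.exp (-(c₀ / 2 * y)) * Real.exp (-(c₀ / 8 * |(m : ℝ)|))) :=
        ht.trans (mul_le_mul_of_nonneg_left hxe (by positivity))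
      calc ‖β m‖ * t ≤ ‖β m‖ *
            (4 * K₁ * (Real.exp (-(c₀ / 2 * y)) * Real.exp (-(c₀ / 8 * |(m : ℝ)|)))) :=
            mul_le_mul_of_nonneg_left h5 (norm_nonneg _)
        _ ≤ B * (4 * K₁ * (Real.exp (-(c₀ / 2 * y)) * Real.exp (-(c₀ / 8 * |(m : ℝ)|)))) :=
            mul_le_mul_of_nonneg_right (hB m) (by positivity)
        _ = _ := by ring
    have hKe : 0 ≤ K₁ * Real.exp (-(x / 8)) := by positivity
    refine ⟨hfin _ ?_, ?_, ?_⟩
    · linarith
    · rw [mul_assoc]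
      refine hfin _ ?_
      calc 2 * Real.pi * |(m : ℝ)| / P * ‖WW ν x‖ ≤ 4 * x * ‖WW ν x‖ :=
            mul_le_mul_of_nonneg_right hxy (norm_nonneg _)
        _ = 4 * (x * ‖WW ν x‖) := by ring
        _ ≤ 4 * (K₁ * Real.exp (-(x / 8))) := by linarith
        _ = _ := by ring
    · rw [mul_assoc]
      refine hfin _ ?_
      calc 2 * Real.pi * |(m : ℝ)| / P * ‖deriv (WW ν) x‖ ≤ 4 * x * ‖deriv (WW ν) x‖ :=
            mul_le_mul_of_nonneg_right hxy (norm_nonneg _)
        _ = 4 * (x * ‖deriv (WW ν) x‖) := by ring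
        _ ≤ 4 * (K₁ * Real.exp (-(x / 8))) := by linarith
        _ = _ := by ring

/-- A6: exponential decay at `i∞` -/
theorem expn_decay_pr {P : ℕ} {ν : ℂ} {β : ℤ → ℂ} {F : ℍ → ℂ} (hP : 0 < P) (hν : GoodNu ν)
    (h : Expn P ν β F) : ∃ C c : ℝ, 0 < c ∧ ∀ z : ℍ, 1 / 2 ≤ z.im →
      ‖F z‖ ≤ C * Real.exp (-(c * z.im)) ∧ ‖dX F z‖ ≤ C * Real.exp (-(c * z.im)) ∧
      ‖dY F z‖ ≤ C * Real.exp (-(c * z.im)) := by
  obtain ⟨K, c, d, hc, hd, hK⟩ := a6_terms hP hν h
  have hS := a6_sum hd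
  set S : ℝ := ∑' m : ℤ, Real.exp (-(d * |(m : ℝ)|)) with hSdef
  have hPr : (0 : ℝ) < P := by exact_mod_cast hP
  have hpi := Real.pi_pos
  have hexp : ∀ t : ℝ, ‖cexp ((t : ℂ) * I)‖ = 1 := fun t => Complex.norm_exp_ofReal_mul_I t
  have hpz : ∀ z : ℍ, pz z.re z.im = z := by
    intro z
    unfold pz
    have : ((z.re : ℂ) + z.im * I) = (z : ℂ) := Complex.re_add_im (z : ℂ)
    rw [this, UpperHalfPlane.ofComplex_apply]
  refine ⟨K * S, c, hc, fun z hz => ?_⟩
  have hz0 : 0 < z.im := by linarith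
  have hu : Summable (fun m : ℤ => K * Real.exp (-(c * z.im)) * Real.exp (-(d * |(m : ℝ)|))) :=
    hS.mul_left _
  have hus : ∑' m : ℤ, K * Real.exp (-(c * z.im)) * Real.exp (-(d * |(m : ℝ)|)) =
      K * S * Real.exp (-(c * z.im)) := by
    rw [tsum_mul_left]
    ring
  have hz4 : 1 / 4 ≤ z.im := by linarith
  refine ⟨?_, ?_, ?_⟩
  · have h1 := (h.hasSum z.re z.im hz0).tsum_eq
    rw [hpz] at h1
    rw [← h1, ← hus]
    refine tsum_of_norm_bounded hu.hasSum fun m => ?_
    rw [norm_mul, norm_mul, hexp, mul_one]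
    exact (hK m z.im hz4).1
  · -- the derivative in `x`
    set g : ℤ → ℝ → ℂ := fun m t => β m * WW ν (2 * Real.pi * |(m : ℝ)| * z.im / P) *
      cexp ((2 * Real.pi * m * (z.re + t) / P : ℝ) * I) with hg
    set g' : ℤ → ℝ → ℂ := fun m t => β m * WW ν (2 * Real.pi * |(m : ℝ)| * z.im / P) *
      (cexp ((2 * Real.pi * m * (z.re + t) / P : ℝ) * I) * ((2 * Real.pi * m / P : ℝ) * I)) with hg'
    have hF : ∀ t : ℝ, F (ofComplex ((z : ℂ) + t)) = ∑' m, g m t := by
      intro t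
      rw [hg, (h.hasSum (z.re + t) z.im hz0).tsum_eq]
      unfold pz
      congr 2
      have h2 : (z : ℂ) = z.re + z.im * I := (Complex.re_add_im (z : ℂ)).symm
      conv_lhs => rw [h2]
      push_cast
      ring
    have hder : ∀ (m : ℤ) (t : ℝ), HasDerivAt (g m) (g' m t) t := by
      intro m t
      have h3 : HasDerivAt (fun t : ℝ => ((2 * Real.pi * m * (z.re + t) / P : ℝ) : ℂ) * I)
          ((2 * Real.pi * m / P : ℝ) * I) t := by
        have h4 : HasDerivAt (fun t : ℝ => (2 * Real.pi * m * (z.re + t) / P : ℝ))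
            (2 * Real.pi * m / P) t := by
          have h5 := (((hasDerivAt_id t).const_add z.re).const_mul (2 * Real.pi * m)).div_const
            (P : ℝ)
          simpa using h5
        exact h4.ofReal_comp.mul_const I
      exact (h3.cexp).const_mul _
    have hb : ∀ (m : ℤ) (t : ℝ), ‖g' m t‖ ≤
        K * Real.exp (-(c * z.im)) * Real.exp (-(d * |(m : ℝ)|)) := by
      intro m t
      rw [hg']
      show ‖β m * WW ν (2 * Real.pi * |(m : ℝ)| * z.im / P) *
        (cexp ((2 * Real.pi * m * (z.re + t) / P : ℝ) * I) * ((2 * Real.pi * m / P : ℝ) * I))‖ ≤ _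
      rw [norm_mul, norm_mul, norm_mul, hexp, norm_mul, Complex.norm_I, mul_one, one_mul,
        Complex.norm_real, Real.norm_eq_abs]
      have h6 : |2 * Real.pi * (m : ℝ) / P| = 2 * Real.pi * |(m : ℝ)| / P := by
        rw [abs_div, abs_mul, abs_of_pos (by positivity : (0 : ℝ) < 2 * Real.pi), abs_of_pos hPr]
      rw [h6]
      have h7 := (hK m z.im hz4).2.1
      linarith
    have hsum0 : Summable (fun m => g m 0) := (h.hasSum (z.re + 0) z.im hz0).summable
    have hD := hasDerivAt_tsum_of_isPreconnected hu isOpen_univ isPreconnected_univ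
      (fun m t _ => hder m t) (fun m t _ => hb m t) (mem_univ (0 : ℝ)) hsum0 (mem_univ (0 : ℝ))
    have hdX : dX F z = ∑' m, g' m 0 := by
      unfold dX
      simp only [hF]
      exact hD.deriv
    rw [hdX, ← hus]
    exact tsum_of_norm_bounded hu.hasSum fun m => hb m 0
  · -- the derivative in `y`
    set g : ℤ → ℝ → ℂ := fun m t => β m * WW ν (2 * Real.pi * |(m : ℝ)| * (z.im + t) / P) *
      cexp ((2 * Real.pi * m * z.re / P : ℝ) * I) with hg
    set g' : ℤ → ℝ → ℂ := fun m t => β m * ((2 * Real.pi * |(m : ℝ)| / P : ℝ) •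
      deriv (WW ν) (2 * Real.pi * |(m : ℝ)| * (z.im + t) / P)) *
      cexp ((2 * Real.pi * m * z.re / P : ℝ) * I) with hg'
    set U : Set ℝ := Ioi (1 / 4 - z.im) with hU
    have hU0 : (0 : ℝ) ∈ U := by
      rw [hU, mem_Ioi]
      linarith
    have hF : ∀ t ∈ U, F (ofComplex ((z : ℂ) + t * I)) = ∑' m, g m t := by
      intro t ht
      rw [hU, mem_Ioi] at ht
      rw [hg, (h.hasSum z.re (z.im + t) (by linarith)).tsum_eq]
      unfold pz
      congr 2
      have h2 : (z : ℂ) = z.re + z.im * I := (Complex.re_add_im (z : ℂ)).symm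
      conv_lhs => rw [h2]
      push_cast
      ring
    have hder : ∀ (m : ℤ) (t : ℝ), t ∈ U → HasDerivAt (g m) (g' m t) t := by
      intro m t ht
      rw [hU, mem_Ioi] at ht
      rcases eq_or_ne m 0 with rfl | hm
      · have h3 : g 0 = fun _ => 0 := by
          funext t
          rw [hg]
          simp [h.zero]
        have h4 : g' 0 t = 0 := by
          rw [hg']
          simp [h.zero]
        rw [h3, h4]
        exact hasDerivAt_const t 0
      · have hm0 : (0 : ℝ) < |(m : ℝ)| := abs_pos.2 (by exact_mod_cast hm)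
        have hx : 0 < 2 * Real.pi * |(m : ℝ)| * (z.im + t) / P := by
          have : 0 < z.im + t := by linarith
          positivity
        have h4 : HasDerivAt (fun t : ℝ => (2 * Real.pi * |(m : ℝ)| * (z.im + t) / P : ℝ))
            (2 * Real.pi * |(m : ℝ)| / P) t := by
          have h5 := (((hasDerivAt_id t).const_add z.im).const_mul
            (2 * Real.pi * |(m : ℝ)|)).div_const (P : ℝ)
          simpa using h5
        have h6 := HasDerivAt.scomp (𝕜 := ℝ) t (WW_deriv ν hx).1 h4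
        exact (h6.const_mul (β m)).mul_const _
    have hb : ∀ (m : ℤ) (t : ℝ), t ∈ U → ‖g' m t‖ ≤
        K * 1 * Real.exp (-(d * |(m : ℝ)|)) ∧ (t = 0 → ‖g' m t‖ ≤
        K * Real.exp (-(c * z.im)) * Real.exp (-(d * |(m : ℝ)|))) := by
      intro m t ht
      rw [hU, mem_Ioi] at ht
      have h8 : ‖g' m t‖ ≤ K * Real.exp (-(c * (z.im + t))) * Real.exp (-(d * |(m : ℝ)|)) := by
        rw [hg']
        show ‖β m * ((2 * Real.pi * |(m : ℝ)| / P : ℝ) •
          deriv (WW ν) (2 * Real.pi * |(m : ℝ)| * (z.im + t) / P)) *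
          cexp ((2 * Real.pi * m * z.re / P : ℝ) * I)‖ ≤ _
        rw [norm_mul, norm_mul, norm_smul, hexp, mul_one, Real.norm_eq_abs,
          abs_of_nonneg (by positivity), ← mul_assoc]
        exact (hK m (z.im + t) (by linarith)).2.2
      refine ⟨?_, fun h0 => ?_⟩
      · refine h8.trans ?_
        apply mul_le_mul_of_nonneg_right _ (Real.exp_pos _).le
        have hK0 : 0 ≤ K := by
          have h9 := (hK 0 1 (by norm_num)).1
          rw [h.zero, norm_zero, zero_mul] at h9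
          by_contra hneg
          push Not at hneg
          have h10 : K * Real.exp (-(c * 1)) * Real.exp (-(d * |((0 : ℤ) : ℝ)|)) < 0 := by
            rw [mul_assoc]
            exact mul_neg_of_neg_of_pos hneg (by positivity)
          linarith
        apply mul_le_mul_of_nonneg_left _ hK0
        apply Real.exp_le_one_iff.2
        have : 0 < z.im + t := by linarith
        nlinarith
      · rw [h0, add_zero] at h8
        rw [h0]
        exact h8
    have hsum0 : Summable (fun m => g m 0) := by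
      have h9 := (h.hasSum z.re (z.im + 0) (by linarith)).summable
      exact h9
    have hu1 : Summable (fun m : ℤ => K * 1 * Real.exp (-(d * |(m : ℝ)|))) := hS.mul_left _
    have hD := hasDerivAt_tsum_of_isPreconnected hu1 (isOpen_Ioi (a := 1 / 4 - z.im))
      isPreconnected_Ioi (fun m t ht => hder m t ht) (fun m t ht => (hb m t ht).1) hU0 hsum0 hU0
    have hdY : dY F z = ∑' m, g' m 0 := by
      unfold dY
      have h10 : (fun t : ℝ => F (ofComplex ((z : ℂ) + t * I))) =ᶠ[𝓝 0] fun t => ∑' m, g m t := by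
        filter_upwards [(isOpen_Ioi (a := 1 / 4 - z.im)).mem_nhds hU0] with t ht
        exact hF t ht
      rw [h10.deriv_eq]
      exact hD.deriv
    rw [hdY, ← hus]
    exact tsum_of_norm_bounded hu.hasSum fun m => (hb m 0 hU0).2 rfl

end Pool.Agent.JO.FM

namespace Pool.Agent.JO.FM

theorem expn_decay : type_of% @expn_decay_pr := @expn_decay_pr

end Pool.Agent.JO.FM
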