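import Pool.Agent.Lib_helper45.JO.Defs2

/-!
# Project JO, part FM, block A7: the invariance of the gradient
-/

set_option autoImplicit false

namespace Pool.Agent.JO.FM

open Complex Filter Topology MeasureTheory Set
open UpperHalfPlane hiding I
open scoped MatrixGroups ComplexConjugate

/-- the derivatives in terms of the real differential -/
theorem a7_fd {f : ℍ → ℂ} (hf : ContDiffOn ℝ 2 (fun z : ℂ => f (ofComplex z)) {z | 0 < z.im})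
    (z : ℍ) : ∃ D : ℂ →L[ℝ] ℂ, HasFDerivAt (fun z : ℂ => f (ofComplex z)) D (z : ℂ) ∧
      dX f z = D 1 ∧ dY f z = D I := by
  have hopen : IsOpen {z : ℂ | 0 < z.im} := isOpen_lt continuous_const Complex.continuous_im
  have h1 : DifferentiableAt ℝ (fun z : ℂ => f (ofComplex z)) (z : ℂ) :=
    (hf.differentiableOn (by norm_num)).differentiableAt (hopen.mem_nhds z.im_pos)
  refine ⟨fderiv ℝ (fun z : ℂ => f (ofComplex z)) (z : ℂ), h1.hasFDerivAt, ?_, ?_⟩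
  · unfold dX
    have h2 : HasDerivAt (fun t : ℝ => (z : ℂ) + t) 1 0 :=
      (Complex.ofRealCLM.hasDerivAt (x := 0)).const_add (z : ℂ)
    have h3 : HasFDerivAt (fun z : ℂ => f (ofComplex z))
        (fderiv ℝ (fun z : ℂ => f (ofComplex z)) (z : ℂ)) ((z : ℂ) + (0 : ℝ)) := by
      simpa using h1.hasFDerivAt
    exact (h3.comp_hasDerivAt (0 : ℝ) h2).deriv
  · unfold dY
    have h2 : HasDerivAt (fun t : ℝ => (z : ℂ) + t * I) I 0 := by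
      simpa using ((Complex.ofRealCLM.hasDerivAt (x := 0)).mul_const I).const_add (z : ℂ)
    have h3 : HasFDerivAt (fun z : ℂ => f (ofComplex z))
        (fderiv ℝ (fun z : ℂ => f (ofComplex z)) (z : ℂ)) ((z : ℂ) + (0 : ℝ) * I) := by
      simpa using h1.hasFDerivAt
    exact (h3.comp_hasDerivAt (0 : ℝ) h2).deriv

/-- the Moebius transformation -/
noncomputable def a7_m (σ : SL(2, ℤ)) (w : ℂ) : ℂ :=
  ((σ 0 0 : ℤ) * w + (σ 0 1 : ℤ)) / ((σ 1 0 : ℤ) * w + (σ 1 1 : ℤ))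

theorem a7_coe (σ : SL(2, ℤ)) (z : ℍ) : ((σ • z : ℍ) : ℂ) = a7_m σ z := by
  rw [coe_specialLinearGroup_apply]
  unfold a7_m
  simp

theorem a7_den (σ : SL(2, ℤ)) (z : ℍ) : ((σ 1 0 : ℤ) : ℂ) * z + (σ 1 1 : ℤ) ≠ 0 := by
  have := UpperHalfPlane.denom_ne_zero (σ : GL (Fin 2) ℝ) z
  rwa [ModularGroup.denom_apply] at this

theorem a7_der (σ : SL(2, ℤ)) (z : ℍ) : HasDerivAt (a7_m σ)
    (1 / (((σ 1 0 : ℤ) : ℂ) * z + (σ 1 1 : ℤ)) ^ 2) (z : ℂ) := by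
  have h1 : HasDerivAt (fun w : ℂ => ((σ 0 0 : ℤ) : ℂ) * w + (σ 0 1 : ℤ)) (σ 0 0 : ℤ) (z : ℂ) := by
    simpa using ((hasDerivAt_id (z : ℂ)).const_mul ((σ 0 0 : ℤ) : ℂ)).add_const ((σ 0 1 : ℤ) : ℂ)
  have h2 : HasDerivAt (fun w : ℂ => ((σ 1 0 : ℤ) : ℂ) * w + (σ 1 1 : ℤ)) (σ 1 0 : ℤ) (z : ℂ) := by
    simpa using ((hasDerivAt_id (z : ℂ)).const_mul ((σ 1 0 : ℤ) : ℂ)).add_const ((σ 1 1 : ℤ) : ℂ)
  refine (h1.div h2 (a7_den σ z)).congr_deriv ?_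
  congr 1
  have hdet := σ.det_coe
  rw [Matrix.det_fin_two] at hdet
  have hdet' : ((σ 0 0 : ℤ) : ℂ) * (σ 1 1 : ℤ) - (σ 0 1 : ℤ) * (σ 1 0 : ℤ) = 1 := by
    exact_mod_cast hdet
  linear_combination hdet'

/-- the chain rule -/
theorem a7_chain {f : ℍ → ℂ} {σ : SL(2, ℤ)} {z : ℍ} {D : ℂ →L[ℝ] ℂ}
    (hD : HasFDerivAt (fun z : ℂ => f (ofComplex z)) D ((σ • z : ℍ) : ℂ)) :
    dX (fun w => f (σ • w)) z = D (1 / (((σ 1 0 : ℤ) : ℂ) * z + (σ 1 1 : ℤ)) ^ 2) ∧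
    dY (fun w => f (σ • w)) z = D (1 / (((σ 1 0 : ℤ) : ℂ) * z + (σ 1 1 : ℤ)) ^ 2 * I) := by
  have hopen : IsOpen {z : ℂ | 0 < z.im} := isOpen_lt continuous_const Complex.continuous_im
  have he : (fun w : ℂ => f (σ • ofComplex w)) =ᶠ[𝓝 (z : ℂ)]
      (fun z : ℂ => f (ofComplex z)) ∘ a7_m σ := by
    filter_upwards [hopen.mem_nhds z.im_pos] with w hw
    simp only [Function.comp_apply]
    congr 1
    have h1 : w = ((ofComplex w : ℍ) : ℂ) := by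
      rw [ofComplex_apply_of_im_pos hw]
    conv_rhs => rw [h1, ← a7_coe, ofComplex_apply]
  have hm := a7_der σ z
  rw [a7_coe] at hD
  have hmf : HasFDerivAt (a7_m σ) ((ContinuousLinearMap.toSpanSingleton ℂ
      (1 / (((σ 1 0 : ℤ) : ℂ) * z + (σ 1 1 : ℤ)) ^ 2)).restrictScalars ℝ) (z : ℂ) :=
    hm.hasFDerivAt.restrictScalars ℝ
  obtain ⟨L, hL, hLD⟩ : ∃ L : ℂ →L[ℝ] ℂ, HasFDerivAt (fun w : ℂ => f (σ • ofComplex w)) L (z : ℂ) ∧
      ∀ v, L v = D (1 / (((σ 1 0 : ℤ) : ℂ) * z + (σ 1 1 : ℤ)) ^ 2 * v) := by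
    refine ⟨_, (hD.comp (z : ℂ) hmf).congr_of_eventuallyEq he, fun v => ?_⟩
    simp [mul_comm]
  constructor
  · unfold dX
    have h2 : HasDerivAt (fun t : ℝ => (z : ℂ) + t) 1 0 :=
      (Complex.ofRealCLM.hasDerivAt (x := 0)).const_add (z : ℂ)
    have h3 : HasFDerivAt (fun w : ℂ => f (σ • ofComplex w)) L ((z : ℂ) + (0 : ℝ)) := by
      simpa using hL
    have h4 := (h3.comp_hasDerivAt (0 : ℝ) h2).deriv
    rw [hLD, mul_one] at h4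
    exact h4
  · unfold dY
    have h2 : HasDerivAt (fun t : ℝ => (z : ℂ) + t * I) I 0 := by
      simpa using ((Complex.ofRealCLM.hasDerivAt (x := 0)).mul_const I).const_add (z : ℂ)
    have h3 : HasFDerivAt (fun w : ℂ => f (σ • ofComplex w)) L ((z : ℂ) + (0 : ℝ) * I) := by
      simpa using hL
    have h4 := (h3.comp_hasDerivAt (0 : ℝ) h2).deriv
    rw [hLD] at h4
    exact h4

theorem a7_lin (D : ℂ →L[ℝ] ℂ) (μ : ℂ) : D μ = μ.re * D 1 + μ.im * D I ∧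
    D (μ * I) = -(μ.im * D 1) + μ.re * D I := by
  have h1 : μ = μ.re • (1 : ℂ) + μ.im • I := by
    apply Complex.ext <;> simp
  have h2 : μ * I = -(μ.im • (1 : ℂ)) + μ.re • I := by
    apply Complex.ext <;> simp
  constructor
  · conv_lhs => rw [h1]
    rw [map_add, map_smul, map_smul]
    simp
  · conv_lhs => rw [h2]
    rw [map_add, map_neg, map_smul, map_smul]
    simp

theorem a7_alg (A B : ℂ) (p q : ℝ) :
    ‖(p : ℂ) * A + q * B‖ ^ 2 + ‖-((q : ℂ) * A) + p * B‖ ^ 2 =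
      (p ^ 2 + q ^ 2) * (‖A‖ ^ 2 + ‖B‖ ^ 2) ∧
    (conj ((p : ℂ) * A + q * B) * (-((q : ℂ) * A) + p * B)).im =
      (p ^ 2 + q ^ 2) * (conj A * B).im := by
  constructor
  · simp only [← Complex.normSq_eq_norm_sq, Complex.normSq_apply]
    simp
    ring
  · simp
    ring

theorem grad_inv_pr {f : ℍ → ℂ} (hf : ContDiffOn ℝ 2 (fun z : ℂ => f (ofComplex z)) {z | 0 < z.im})
    (σ : SL(2, ℤ)) (z : ℍ) :
    z.im ^ 2 * (‖dX (fun w => f (σ • w)) z‖ ^ 2 + ‖dY (fun w => f (σ • w)) z‖ ^ 2) =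
      (σ • z).im ^ 2 * (‖dX f (σ • z)‖ ^ 2 + ‖dY f (σ • z)‖ ^ 2) ∧
    chi (fun w => f (σ • w)) z = chi f (σ • z) := by
  obtain ⟨D, hD, hx, hy⟩ := a7_fd hf (σ • z)
  obtain ⟨hx', hy'⟩ := a7_chain hD
  set μ : ℂ := 1 / (((σ 1 0 : ℤ) : ℂ) * z + (σ 1 1 : ℤ)) ^ 2 with hμ
  obtain ⟨l1, l2⟩ := a7_lin D μ
  obtain ⟨k1, k2⟩ := a7_alg (D 1) (D I) μ.re μ.im
  have him : (σ • z).im ^ 2 = z.im ^ 2 * (μ.re ^ 2 + μ.im ^ 2) := by
    rw [ModularGroup.im_smul_eq_div_normSq, ModularGroup.denom_apply]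
    have h1 : μ.re ^ 2 + μ.im ^ 2 = Complex.normSq μ := by
      rw [Complex.normSq_apply]
      ring
    rw [h1, hμ, map_div₀, map_one, map_pow, div_pow]
    ring
  constructor
  · rw [hx, hy, hx', hy', l1, l2, k1, him]
    ring
  · unfold chi
    rw [hx, hy, hx', hy', l1, l2, k2, him]
    congr 1
    ring


end Pool.Agent.JO.FM

namespace Pool.Agent.JO.FM

theorem grad_inv : type_of% @grad_inv_pr := @grad_inv_pr

end Pool.Agent.JO.FM
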