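import Pool.Agent.Lib_helper45.JO.Defs2
import Pool.Agent.Lib_helper45.JOM.A2
import Pool.Agent.Lib_helper45.JOM.A3
import Pool.Agent.Lib_helper45.JOM.A4
import Pool.Agent.Lib_helper45.JOM.A6
import Pool.Agent.Lib_helper45.JOM.A7

/-!
# Project JO, part FM, block A8: decay of a Maass form and of its gradient
-/

set_option autoImplicit false

namespace Pool.Agent.JO.FM

open Complex Filter Topology MeasureTheory Set
open UpperHalfPlane hiding I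
open scoped MatrixGroups ComplexConjugate

/-- the parameter -/
theorem a8_nu {ev : ℝ} (hev : 0 < ev) : ∃ ν : ℂ, GoodNu ν ∧ ν ^ 2 = 1 / 4 - ev := by
  rcases le_total ev (1 / 4) with h | h
  · refine ⟨((√(1 / 4 - ev) : ℝ) : ℂ), ⟨?_, ?_, ?_⟩, ?_⟩
    · rw [Complex.ofReal_re]; exact Real.sqrt_nonneg _
    · rw [Complex.ofReal_re]
      rw [Real.sqrt_lt' (by norm_num)]
      linarith
    · left; exact Complex.ofReal_im _
    · rw [← Complex.ofReal_pow, Real.sq_sqrt (by linarith)]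
      push_cast
      ring
  · refine ⟨((√(ev - 1 / 4) : ℝ) : ℂ) * I, ⟨?_, ?_, ?_⟩, ?_⟩
    · rw [Complex.re_ofReal_mul, Complex.I_re, mul_zero]
    · rw [Complex.re_ofReal_mul, Complex.I_re, mul_zero]; norm_num
    · right; rw [Complex.re_ofReal_mul, Complex.I_re, mul_zero]
    · rw [mul_pow, Complex.I_sq, ← Complex.ofReal_pow, Real.sq_sqrt (by linarith)]
      push_cast
      ring

/-- exponential decay at every cusp -/
theorem a8_exp {N : ℕ} [NeZero N] {χ : DirichletCharacter ℂ N} {ev : ℝ} {f : ℍ → ℂ}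
    (h : IsMaassForm N χ 0 ev f) (hev : 0 < ev) (σ : SL(2, ℤ)) :
    ∃ C c : ℝ, 0 < c ∧ ∀ z : ℍ, 1 / 2 ≤ z.im →
      ‖f (σ • z)‖ ≤ C * Real.exp (-(c * z.im)) ∧
      ‖dX (fun w => f (σ • w)) z‖ ≤ C * Real.exp (-(c * z.im)) ∧
      ‖dY (fun w => f (σ • w)) z‖ ≤ C * Real.exp (-(c * z.im)) := by
  obtain ⟨ν, hν, hν2⟩ := a8_nu hev
  obtain ⟨B, hB⟩ := maass_bdd h
  have hN : 0 < N := Nat.pos_of_ne_zero (NeZero.ne N)
  obtain ⟨β, hβ⟩ := expn_of_perEig hN hν hν2 hev (perEig_slash h σ) ⟨B, fun z => hB _⟩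
  exact expn_decay hN hν hβ

/-- extension of a bound from `Y ≥ 1/2` -/
theorem a8_ext {A Y : ℍ → ℝ} {G C c : ℝ} (hG : ∀ z, A z ≤ G) (hY : ∀ z, 0 ≤ Y z)
    (h : ∀ z, 1 / 2 ≤ Y z → A z ≤ C * Real.exp (-(c * Y z))) {c' : ℝ} (hc0 : 0 < c')
    (hc : c' ≤ c) : ∀ z, A z ≤ (|C| + |G| * Real.exp (c' / 2)) * Real.exp (-(c' * Y z)) := by
  intro z
  have hz := hY z
  rcases le_or_gt (1 / 2) (Y z) with h1 | h1
  · refine (h z h1).trans ?_
    have h2 : Real.exp (-(c * Y z)) ≤ Real.exp (-(c' * Y z)) :=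
      Real.exp_le_exp.2 (by nlinarith)
    calc C * Real.exp (-(c * Y z)) ≤ |C| * Real.exp (-(c * Y z)) :=
          mul_le_mul_of_nonneg_right (le_abs_self C) (Real.exp_pos _).le
      _ ≤ |C| * Real.exp (-(c' * Y z)) := mul_le_mul_of_nonneg_left h2 (abs_nonneg _)
      _ ≤ (|C| + |G| * Real.exp (c' / 2)) * Real.exp (-(c' * Y z)) := by
          apply mul_le_mul_of_nonneg_right _ (Real.exp_pos _).le
          have : 0 ≤ |G| * Real.exp (c' / 2) := mul_nonneg (abs_nonneg _) (Real.exp_pos _).le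
          linarith
  · refine (hG z).trans ?_
    have h2 : 1 ≤ Real.exp (c' / 2) * Real.exp (-(c' * Y z)) := by
      rw [← Real.exp_add]
      apply Real.one_le_exp
      nlinarith
    have h3 : 0 ≤ |C| * Real.exp (-(c' * Y z)) := mul_nonneg (abs_nonneg _) (Real.exp_pos _).le
    calc G ≤ |G| := le_abs_self G
      _ ≤ |G| * (Real.exp (c' / 2) * Real.exp (-(c' * Y z))) :=
          le_mul_of_one_le_right (abs_nonneg _) h2
      _ ≤ _ := by nlinarith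

/-- two bounds together -/
theorem a8_two {A Y Y' : ℍ → ℝ} {G : ℝ} (hG : ∀ z, A z ≤ G) (hY : ∀ z, 0 ≤ Y z)
    (hY' : ∀ z, 0 ≤ Y' z)
    (h : ∃ C c : ℝ, 0 < c ∧ ∀ z, 1 / 2 ≤ Y z → A z ≤ C * Real.exp (-(c * Y z)))
    (h' : ∃ C c : ℝ, 0 < c ∧ ∀ z, 1 / 2 ≤ Y' z → A z ≤ C * Real.exp (-(c * Y' z))) :
    ∃ C c : ℝ, 0 < c ∧ ∀ z, A z ≤ C * Real.exp (-(c * Y z)) ∧
      A z ≤ C * Real.exp (-(c * Y' z)) := by
  obtain ⟨C₁, c₁, hc₁, h₁⟩ := h
  obtain ⟨C₂, c₂, hc₂, h₂⟩ := h'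
  set c := min c₁ c₂ with hc
  have hc0 : 0 < c := lt_min hc₁ hc₂
  refine ⟨max (|C₁| + |G| * Real.exp (c / 2)) (|C₂| + |G| * Real.exp (c / 2)), c, hc0, ?_⟩
  intro z
  constructor
  · exact (a8_ext hG hY h₁ hc0 (min_le_left _ _) z).trans
      (mul_le_mul_of_nonneg_right (le_max_left _ _) (Real.exp_pos _).le)
  · exact (a8_ext hG hY' h₂ hc0 (min_le_right _ _) z).trans
      (mul_le_mul_of_nonneg_right (le_max_right _ _) (Real.exp_pos _).le)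

theorem a8_S (z : ℍ) : (ModularGroup.S • z).im = z.im / normSq (z : ℂ) := by
  rw [UpperHalfPlane.modular_S_smul]
  change ((-(z : ℂ))⁻¹).im = _
  rw [Complex.inv_im, Complex.neg_im, neg_neg, Complex.normSq_neg]
  rfl

theorem a8_SS (z : ℍ) : ModularGroup.S • (ModularGroup.S • z) = z := by
  apply UpperHalfPlane.ext
  rw [UpperHalfPlane.modular_S_smul, UpperHalfPlane.modular_S_smul]
  change (-(-(z : ℂ))⁻¹)⁻¹ = (z : ℂ)
  rw [inv_neg, inv_neg, inv_neg, inv_inv, neg_neg]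

theorem maass_dec_pr {N : ℕ} [NeZero N] {χ : DirichletCharacter ℂ N} {ev : ℝ} {f : ℍ → ℂ}
    (h : IsMaassForm N χ 0 ev f) (hev : 0 < ev) :
    ∃ C c : ℝ, 0 < c ∧ ∀ z : ℍ, ‖f z‖ ≤ C * Real.exp (-(c * z.im)) ∧
    ‖f z‖ ≤ C * Real.exp (-(c * (z.im / normSq (z : ℂ)))) := by
  obtain ⟨B, hB⟩ := maass_bdd h
  refine a8_two (A := fun z => ‖f z‖) (Y := fun z => z.im)
    (Y' := fun z => z.im / normSq (z : ℂ)) hB (fun z => z.im_pos.le)
    (fun z => div_nonneg z.im_pos.le (Complex.normSq_nonneg _)) ?_ ?_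
  · obtain ⟨C, c, hc, h1⟩ := a8_exp h hev 1
    refine ⟨C, c, hc, fun z hz => ?_⟩
    have := (h1 z hz).1
    rwa [one_smul] at this
  · obtain ⟨C, c, hc, h1⟩ := a8_exp h hev ModularGroup.S
    refine ⟨C, c, hc, fun z hz => ?_⟩
    have := (h1 (ModularGroup.S • z) (by rw [a8_S]; exact hz)).1
    rwa [a8_SS, a8_S] at this

/-- the gradient, `y²(|f_x|² + |f_y|²)` -/
noncomputable def a8_q (f : ℍ → ℂ) (z : ℍ) : ℝ := z.im ^ 2 * (‖dX f z‖ ^ 2 + ‖dY f z‖ ^ 2)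

theorem a8_dX_mul (c : ℂ) (f : ℍ → ℂ) (z : ℍ) : dX (fun w => c * f w) z = c * dX f z := by
  unfold dX
  rw [deriv_const_mul_field]

theorem a8_dY_mul (c : ℂ) (f : ℍ → ℂ) (z : ℍ) : dY (fun w => c * f w) z = c * dY f z := by
  unfold dY
  rw [deriv_const_mul_field]

theorem a8_chi_norm {N : ℕ} [NeZero N] (χ : DirichletCharacter ℂ N) (γ : SL(2, ℤ))
    (hγ : (N : ℤ) ∣ γ 1 0) : ‖χ ((γ 1 1 : ℤ) : ZMod N)‖ = 1 := by
  have hdet : (γ 0 0 : ℤ) * γ 1 1 - γ 0 1 * γ 1 0 = 1 := by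
    have := γ.det_coe
    rwa [Matrix.det_fin_two] at this
  have h0 : ((γ 1 0 : ℤ) : ZMod N) = 0 := by
    rw [ZMod.intCast_zmod_eq_zero_iff_dvd]; exact hγ
  have h1 : ((γ 0 0 : ℤ) : ZMod N) * ((γ 1 1 : ℤ) : ZMod N) = 1 := by
    have h2 := congrArg (fun k : ℤ => (k : ZMod N)) hdet
    push_cast at h2
    rw [h0, mul_zero, sub_zero] at h2
    exact h2
  have hu : IsUnit ((γ 1 1 : ℤ) : ZMod N) := IsUnit.of_mul_eq_one _ (by rw [mul_comm]; exact h1)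
  obtain ⟨u, hu⟩ := hu
  rw [← hu]
  exact DirichletCharacter.unit_norm_eq_one χ u

theorem a8_q_inv {N : ℕ} [NeZero N] {χ : DirichletCharacter ℂ N} {ev : ℝ} {f : ℍ → ℂ}
    (h : IsMaassForm N χ 0 ev f) (γ : SL(2, ℤ)) (hγ : (N : ℤ) ∣ γ 1 0) (z : ℍ) :
    a8_q f (γ • z) = a8_q f z := by
  have h1 := (grad_inv h.smooth γ z).1
  have h2 : (fun w => f (γ • w)) = fun w => χ ((γ 1 1 : ℤ) : ZMod N) * f w := by
    funext w
    rw [h.automorphic γ hγ w, pow_zero, mul_one]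
  rw [h2, a8_dX_mul, a8_dY_mul, norm_mul, norm_mul, a8_chi_norm χ γ hγ, one_mul, one_mul] at h1
  exact h1.symm

theorem a8_q_slash {N : ℕ} [NeZero N] {χ : DirichletCharacter ℂ N} {ev : ℝ} {f : ℍ → ℂ}
    (h : IsMaassForm N χ 0 ev f) (σ : SL(2, ℤ)) (z : ℍ) :
    a8_q (fun w => f (σ • w)) z = a8_q f (σ • z) := (grad_inv h.smooth σ z).1

theorem a8_le_q (f : ℍ → ℂ) (z : ℍ) :
    z.im * (‖dX f z‖ + ‖dY f z‖) ≤ √2 * √(a8_q f z) := by
  have hz := z.im_pos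
  rw [← Real.sqrt_mul (by norm_num)]
  apply Real.le_sqrt_of_sq_le
  unfold a8_q
  have : (‖dX f z‖ + ‖dY f z‖) ^ 2 ≤ 2 * (‖dX f z‖ ^ 2 + ‖dY f z‖ ^ 2) := by
    nlinarith [sq_nonneg (‖dX f z‖ - ‖dY f z‖)]
  calc (z.im * (‖dX f z‖ + ‖dY f z‖)) ^ 2 = z.im ^ 2 * (‖dX f z‖ + ‖dY f z‖) ^ 2 := by ring
    _ ≤ z.im ^ 2 * (2 * (‖dX f z‖ ^ 2 + ‖dY f z‖ ^ 2)) :=
        mul_le_mul_of_nonneg_left this (by positivity)
    _ = _ := by ring

theorem a8_q_le (f : ℍ → ℂ) (z : ℍ) :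
    √(a8_q f z) ≤ z.im * (‖dX f z‖ + ‖dY f z‖) := by
  have hz := z.im_pos
  rw [Real.sqrt_le_left (by positivity)]
  unfold a8_q
  calc z.im ^ 2 * (‖dX f z‖ ^ 2 + ‖dY f z‖ ^ 2)
      ≤ z.im ^ 2 * (‖dX f z‖ + ‖dY f z‖) ^ 2 := by
        apply mul_le_mul_of_nonneg_left _ (by positivity)
        nlinarith [norm_nonneg (dX f z), norm_nonneg (dY f z),
          mul_nonneg (norm_nonneg (dX f z)) (norm_nonneg (dY f z))]
    _ = _ := by ring

/-- decay of the gradient at every cusp -/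
theorem a8_grad {N : ℕ} [NeZero N] {χ : DirichletCharacter ℂ N} {ev : ℝ} {f : ℍ → ℂ}
    (h : IsMaassForm N χ 0 ev f) (hev : 0 < ev) (σ : SL(2, ℤ)) :
    ∃ C c : ℝ, 0 ≤ C ∧ 0 < c ∧ ∀ z : ℍ, 1 / 2 ≤ z.im →
      z.im * (‖dX (fun w => f (σ • w)) z‖ + ‖dY (fun w => f (σ • w)) z‖) ≤
        C * Real.exp (-(c * z.im)) := by
  obtain ⟨C, c, hc, h1⟩ := a8_exp h hev σ
  refine ⟨4 * |C| / c, c / 2, by positivity, by positivity, ?_⟩
  intro z hz
  obtain ⟨-, h2, h3⟩ := h1 z hz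
  have hz0 := z.im_pos
  have h4 : C * Real.exp (-(c * z.im)) ≤ |C| * Real.exp (-(c * z.im)) :=
    mul_le_mul_of_nonneg_right (le_abs_self C) (Real.exp_pos _).le
  have h5 : c / 2 * z.im * Real.exp (-(c / 2 * z.im)) ≤ 1 := by
    rw [Real.exp_neg, ← div_eq_mul_inv, div_le_one (Real.exp_pos _)]
    linarith [Real.add_one_le_exp (c / 2 * z.im)]
  have h6 : Real.exp (-(c * z.im)) =
      Real.exp (-(c / 2 * z.im)) * Real.exp (-(c / 2 * z.im)) := by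
    rw [← Real.exp_add]; congr 1; ring
  have h7 : z.im * Real.exp (-(c * z.im)) ≤ 2 / c * Real.exp (-(c / 2 * z.im)) := by
    rw [h6, ← mul_assoc]
    apply mul_le_mul_of_nonneg_right _ (Real.exp_pos _).le
    rw [le_div_iff₀ hc]
    nlinarith
  calc z.im * (‖dX (fun w => f (σ • w)) z‖ + ‖dY (fun w => f (σ • w)) z‖)
      ≤ z.im * (2 * (|C| * Real.exp (-(c * z.im)))) := by
        apply mul_le_mul_of_nonneg_left _ hz0.le
        linarith
    _ = 2 * |C| * (z.im * Real.exp (-(c * z.im))) := by ring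
    _ ≤ 2 * |C| * (2 / c * Real.exp (-(c / 2 * z.im))) :=
        mul_le_mul_of_nonneg_left h7 (by positivity)
    _ = _ := by ring

/-- the gradient is bounded -/
theorem a8_q_bdd {N : ℕ} [NeZero N] {χ : DirichletCharacter ℂ N} {ev : ℝ} {f : ℍ → ℂ}
    (h : IsMaassForm N χ 0 ev f) (hev : 0 < ev) : ∃ G : ℝ, ∀ z, √(a8_q f z) ≤ G := by
  choose C c hC hc hb using a8_grad h hev
  let rp : SL(2, ℤ) ⧸ CongruenceSubgroup.Gamma0 N → SL(2, ℤ) := fun x => (Quotient.out x)⁻¹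
  have hfin : (Set.range fun x => C (rp x)).Finite := Set.finite_range _
  obtain ⟨G, hG⟩ := hfin.bddAbove
  refine ⟨G, fun z => ?_⟩
  obtain ⟨g, hg⟩ := ModularGroup.exists_smul_mem_fd z
  set w := g • z with hw
  obtain ⟨δ, hδ⟩ := QuotientGroup.mk_out_eq_mul (CongruenceSubgroup.Gamma0 N) g
  have hz : z = (δ : SL(2, ℤ)) • (rp (QuotientGroup.mk g) • w) := by
    rw [hw, ← mul_smul, ← mul_smul]
    have : (δ : SL(2, ℤ)) * (rp (QuotientGroup.mk g) * g) = 1 := by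
      change (δ : SL(2, ℤ)) * ((Quotient.out (QuotientGroup.mk g))⁻¹ * g) = 1
      rw [hδ]
      group
    rw [mul_assoc, this, one_smul]
  have hδ0 : (N : ℤ) ∣ (δ : SL(2, ℤ)) 1 0 := by
    have := CongruenceSubgroup.Gamma0_mem.1 δ.2
    rwa [ZMod.intCast_zmod_eq_zero_iff_dvd] at this
  have h3 : 1 / 2 ≤ w.im := by
    have h4 := ModularGroup.three_le_four_mul_im_sq_of_mem_fd hg
    have h5 := w.im_pos
    nlinarith
  have h6 : a8_q f z = a8_q (fun v => f (rp (QuotientGroup.mk g) • v)) w := by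
    conv_lhs => rw [hz]
    rw [a8_q_inv h _ hδ0, ← a8_q_slash h]
  rw [h6]
  refine (a8_q_le _ _).trans ((hb _ w h3).trans ?_)
  have h7 : C (rp (QuotientGroup.mk g)) ≤ G := hG ⟨_, rfl⟩
  have h8 : Real.exp (-(c (rp (QuotientGroup.mk g)) * w.im)) ≤ 1 := by
    rw [Real.exp_le_one_iff]
    have := hc (rp (QuotientGroup.mk g))
    have := w.im_pos
    rw [neg_nonpos]
    positivity
  calc C (rp (QuotientGroup.mk g)) * Real.exp (-(c (rp (QuotientGroup.mk g)) * w.im))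
      ≤ C (rp (QuotientGroup.mk g)) * 1 := mul_le_mul_of_nonneg_left h8 (hC _)
    _ ≤ G := by rw [mul_one]; exact h7

theorem maass_decd_pr {N : ℕ} [NeZero N] {χ : DirichletCharacter ℂ N} {ev : ℝ} {f : ℍ → ℂ}
    (h : IsMaassForm N χ 0 ev f) (hev : 0 < ev) :
    ∃ C c : ℝ, 0 < c ∧ ∀ z : ℍ,
    z.im * (‖dX f z‖ + ‖dY f z‖) ≤ C * Real.exp (-(c * z.im)) ∧
    z.im * (‖dX f z‖ + ‖dY f z‖) ≤ C * Real.exp (-(c * (z.im / normSq (z : ℂ)))) := by
  obtain ⟨G, hG⟩ := a8_q_bdd h hev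
  have h2 : (0 : ℝ) ≤ √2 := Real.sqrt_nonneg _
  refine a8_two (A := fun z => z.im * (‖dX f z‖ + ‖dY f z‖)) (Y := fun z => z.im)
    (Y' := fun z => z.im / normSq (z : ℂ)) (G := √2 * G)
    (fun z => (a8_le_q f z).trans (mul_le_mul_of_nonneg_left (hG z) h2))
    (fun z => z.im_pos.le) (fun z => div_nonneg z.im_pos.le (Complex.normSq_nonneg _)) ?_ ?_
  · obtain ⟨C, c, -, hc, h1⟩ := a8_grad h hev 1
    refine ⟨C, c, hc, fun z hz => ?_⟩
    have := h1 z hz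
    simp only [one_smul] at this
    exact this
  · obtain ⟨C, c, -, hc, h1⟩ := a8_grad h hev ModularGroup.S
    refine ⟨√2 * C, c, hc, fun z hz => ?_⟩
    have h3 := h1 (ModularGroup.S • z) (by rw [a8_S]; exact hz)
    have h4 := (a8_q_le (fun w => f (ModularGroup.S • w)) (ModularGroup.S • z)).trans h3
    rw [a8_q_slash h, a8_SS, a8_S] at h4
    refine (a8_le_q f z).trans ?_
    rw [mul_assoc]
    exact mul_le_mul_of_nonneg_left h4 h2

end Pool.Agent.JO.FM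

namespace Pool.Agent.JO.FM

theorem maass_dec : type_of% @maass_dec_pr := @maass_dec_pr
theorem maass_decd : type_of% @maass_decd_pr := @maass_decd_pr

end Pool.Agent.JO.FM
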