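import Pool.Agent.Lib_helper45.JO.Defs2
import Pool.Agent.Lib_helper45.JOM.A12
import Pool.Agent.Lib_helper45.JOM.A2
import Pool.Agent.Lib_helper45.JOM.A3
import Pool.Agent.Lib_helper45.JOM.A4
import Pool.Agent.Lib_helper45.JOM.A5
import Pool.Agent.Lib_helper45.JOM.A8
import Pool.Agent.Lib_helper45.JOM.A9
import Pool.Agent.Lib_helper45.JOM.K3

/-!
# Project JO, part FM, block A13: the frame of a Hecke-Maass form of weight `0`
-/

set_option autoImplicit false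

namespace Pool.Agent.JO.FM

open Complex Filter Topology MeasureTheory Set
open UpperHalfPlane hiding I
open scoped MatrixGroups ComplexConjugate

theorem a13_coe {x y : ℝ} (hy : 0 < y) : ((pz x y : ℍ) : ℂ) = (x : ℂ) + y * I := by
  have h : 0 < ((x : ℂ) + y * I).im := by simpa using hy
  unfold pz
  rw [ofComplex_apply_of_im_pos h]

theorem a13_re {x y : ℝ} (hy : 0 < y) : (pz x y).re = x := by
  rw [← UpperHalfPlane.coe_re, a13_coe hy]
  simp

theorem a13_im {x y : ℝ} (hy : 0 < y) : (pz x y).im = y := by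
  rw [← UpperHalfPlane.coe_im, a13_coe hy]
  simp

theorem a13_pz (z : ℍ) : pz z.re z.im = z := by
  unfold pz
  have h : ((z.re : ℝ) : ℂ) + (z.im : ℝ) * I = (z : ℂ) := by
    apply Complex.ext
    · simp
    · simp
  rw [h, ofComplex_apply]

theorem a13_nu {ev : ℝ} (hev : 0 < ev) : ∃ ν : ℂ, GoodNu ν ∧ ν ^ 2 = 1 / 4 - ev := by
  rcases le_or_gt ev (1 / 4) with h | h
  · have h0 : (0 : ℝ) ≤ 1 / 4 - ev := by linarith
    refine ⟨((√(1 / 4 - ev) : ℝ) : ℂ), ⟨?_, ?_, ?_⟩, ?_⟩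
    · rw [ofReal_re]
      exact Real.sqrt_nonneg _
    · rw [ofReal_re, Real.sqrt_lt' (by norm_num)]
      linarith
    · left
      exact ofReal_im _
    · rw [← ofReal_pow, Real.sq_sqrt h0]
      push_cast
      rfl
  · have h0 : (0 : ℝ) ≤ ev - 1 / 4 := by linarith
    refine ⟨((√(ev - 1 / 4) : ℝ) : ℂ) * I, ⟨?_, ?_, ?_⟩, ?_⟩
    · simp
    · simp
    · right
      simp
    · rw [mul_pow, I_sq, ← ofReal_pow, Real.sq_sqrt h0]
      push_cast
      ring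

theorem a13_expn {ν : ℂ} {ε : ℝ} {a : ℕ → ℂ} {f : ℍ → ℂ} {β : ℤ → ℂ} {c : ℂ}
    (hβ : Expn 1 ν β f) (hε : ε = 1 ∨ ε = -1)
    (hc : ∀ m : ℤ, cf ε a m = c * (β m + ε * β (-m))) :
    Expn 1 ν (cf ε a) (fun z => c * (f z + ε * f (pz (-z.re) z.im))) := by
  have hn : ‖(ε : ℂ)‖ = 1 := by
    rcases hε with h | h
    · rw [h]
      simp
    · rw [h]
      simp
  have hb : ∀ u v : ℂ, ‖c * (u + ε * v)‖ ^ 2 ≤ 2 * ‖c‖ ^ 2 * (‖u‖ ^ 2 + ‖v‖ ^ 2) := by
    intro u v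
    have h1 : ‖u + ε * v‖ ≤ ‖u‖ + ‖v‖ := by
      refine (norm_add_le _ _).trans_eq ?_
      rw [norm_mul, hn, one_mul]
    have h2 : ‖u + ε * v‖ ^ 2 ≤ (‖u‖ + ‖v‖) ^ 2 := pow_le_pow_left₀ (norm_nonneg _) h1 2
    rw [norm_mul, mul_pow]
    nlinarith [sq_nonneg (‖u‖ - ‖v‖), sq_nonneg ‖c‖, mul_nonneg (sq_nonneg ‖c‖)
      (sub_nonneg.2 h2), mul_nonneg (sq_nonneg ‖c‖) (sq_nonneg (‖u‖ - ‖v‖))]
  refine ⟨?_, ?_, ?_⟩
  · unfold cf
    rw [if_pos rfl]
  · obtain ⟨C, hC⟩ := hβ.dyad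
    refine ⟨4 * ‖c‖ ^ 2 * C, fun M hM => ?_⟩
    calc ∑ m ∈ Finset.Icc M (2 * M), (‖cf ε a (m : ℤ)‖ ^ 2 + ‖cf ε a (-(m : ℤ))‖ ^ 2)
        ≤ ∑ m ∈ Finset.Icc M (2 * M),
          4 * ‖c‖ ^ 2 * (‖β (m : ℤ)‖ ^ 2 + ‖β (-(m : ℤ))‖ ^ 2) := by
          refine Finset.sum_le_sum fun m _ => ?_
          rw [hc, hc, neg_neg]
          have h1 := hb (β (m : ℤ)) (β (-(m : ℤ)))
          have h2 := hb (β (-(m : ℤ))) (β (m : ℤ))
          linarith
      _ = 4 * ‖c‖ ^ 2 * ∑ m ∈ Finset.Icc M (2 * M),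
          (‖β (m : ℤ)‖ ^ 2 + ‖β (-(m : ℤ))‖ ^ 2) := by rw [Finset.mul_sum]
      _ ≤ 4 * ‖c‖ ^ 2 * C := mul_le_mul_of_nonneg_left (hC M hM) (by positivity)
  · intro x y hy
    have h1 := hβ.hasSum x y hy
    have h2 := hβ.hasSum (-x) y hy
    have h3 := (Equiv.neg ℤ).hasSum_iff.2 h2
    have h4 := (h1.add (h3.mul_left (ε : ℂ))).mul_left c
    rw [a13_re hy, a13_im hy]
    refine (congrArg (fun g : ℤ → ℂ => HasSum g (c * (f (pz x y) + ε * f (pz (-x) y))))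
      (funext fun m => ?_)).mpr h4
    rw [hc]
    simp only [Function.comp_apply, Equiv.neg_apply, Int.cast_neg, abs_neg]
    have h5 : ((2 * Real.pi * -(m : ℝ) * -x / (1 : ℕ) : ℝ) : ℂ) * I =
        ((2 * Real.pi * (m : ℝ) * x / (1 : ℕ) : ℝ) : ℂ) * I := by
      rw [show 2 * Real.pi * -(m : ℝ) * -x / ((1 : ℕ) : ℝ) =
        2 * Real.pi * (m : ℝ) * x / ((1 : ℕ) : ℝ) by ring]
    rw [h5]
    ring

/-- A13: the frame -/
theorem frame0_exists_pr {N : ℕ} [NeZero N] {χ : DirichletCharacter ℂ N} {ev : ℝ} {f : ℍ → ℂ}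
    {a : ℕ → ℂ} (h : IsHeckeMaass N χ 0 ev f a) : ∃ (ν : ℂ) (ε : ℝ) (f₁ : ℍ → ℂ),
      ν ^ 2 = 1 / 4 - ev ∧ IsHeckeMaass N χ 0 ev f₁ a ∧ Frame0 ν ε a f₁ := by
  have hev : 0 < ev := by
    rcases h.weight with h1 | h1
    · exact h1.2
    · exact absurd h1.1 (by norm_num)
  obtain ⟨ν, hν, hν2⟩ := a13_nu hev
  obtain ⟨β, hβ⟩ := expn_of_perEig one_pos hν hν2 hev (perEig_one h.toIsMaassForm)
    (maass_bdd h.toIsMaassForm)
  obtain ⟨ha1, hco⟩ := hecke_coeff h hν hβ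
  -- the first coefficients
  have h1 : ∃ ε : ℝ, (ε = 1 ∨ ε = -1) ∧ β 1 + ε * β (-1) ≠ 0 := by
    by_contra hno
    push Not at hno
    have h2 := hno 1 (Or.inl rfl)
    have h3 := hno (-1) (Or.inr rfl)
    push_cast at h2 h3
    have h4 : β 1 = 0 := by linear_combination (h2 + h3) / 2
    have h5 : β (-1) = 0 := by linear_combination (h2 - h3) / 2
    have h6 : ∀ m : ℤ, β m = 0 := by
      intro m
      rcases lt_trichotomy m 0 with hm | hm | hm
      · have h7 := (hco m.natAbs (by omega)).2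
        rw [h5, mul_zero] at h7
        rwa [show -((m.natAbs : ℕ) : ℤ) = m by omega] at h7
      · rw [hm]
        exact hβ.zero
      · have h7 := (hco m.natAbs (by omega)).1
        rw [h4, mul_zero] at h7
        rwa [show ((m.natAbs : ℕ) : ℤ) = m by omega] at h7
    obtain ⟨z, hz⟩ := h.ne_zero
    have h8 := hβ.hasSum z.re z.im z.im_pos
    rw [a13_pz] at h8
    simp only [h6, zero_mul] at h8
    exact hz (h8.unique hasSum_zero)
  obtain ⟨ε, hε, hne⟩ := h1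
  have hεε : (ε : ℂ) * ε = 1 := by
    rcases hε with h1 | h1
    · rw [h1]
      norm_num
    · rw [h1]
      norm_num
  set c : ℂ := (β 1 + ε * β (-1))⁻¹ with hc
  have hcc : c * (β 1 + ε * β (-1)) = 1 := inv_mul_cancel₀ hne
  have hcf : ∀ m : ℤ, cf ε a m = c * (β m + ε * β (-m)) := by
    intro m
    rcases lt_trichotomy m 0 with hm | hm | hm
    · obtain ⟨h2, h3⟩ := hco m.natAbs (by omega)
      have h4 : ((m.natAbs : ℕ) : ℤ) = -m := by omega
      rw [h4, neg_neg] at h3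
      rw [h4] at h2
      unfold cf
      rw [if_neg hm.ne, if_pos hm, h2, h3]
      linear_combination (-(a m.natAbs) * ((√((m.natAbs : ℕ) : ℝ) : ℝ) : ℂ)⁻¹ * ε) * hcc +
        (c * β (-1) * a m.natAbs * ((√((m.natAbs : ℕ) : ℝ) : ℝ) : ℂ)⁻¹) * hεε
    · rw [hm]
      unfold cf
      rw [if_pos rfl, neg_zero, hβ.zero]
      ring
    · obtain ⟨h2, h3⟩ := hco m.natAbs (by omega)
      have h4 : ((m.natAbs : ℕ) : ℤ) = m := by omega
      rw [h4] at h2 h3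
      unfold cf
      rw [if_neg hm.ne', if_neg hm.not_gt, h2, h3]
      linear_combination (-(a m.natAbs) * ((√((m.natAbs : ℕ) : ℝ) : ℝ) : ℂ)⁻¹) * hcc
  have hE := a13_expn hβ hε hcf
  have hne' : ∃ z : ℍ, c * (f z + ε * f (pz (-z.re) z.im)) ≠ 0 := by
    by_contra hno
    push Not at hno
    obtain ⟨x₀, hx₀, hlow⟩ := WW_low hν
    have hy : 0 < x₀ / (2 * Real.pi) := by positivity
    have h2 := expn_fc one_pos hν hE 1 hy
    have h3 : fc 1 (fun z => c * (f z + ε * f (pz (-z.re) z.im))) 1 (x₀ / (2 * Real.pi)) = 0 := by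
      unfold fc
      simp [hno]
    have h4 : cf ε a 1 = 1 := by
      unfold cf
      rw [if_neg one_ne_zero, if_neg (by norm_num)]
      simp [ha1]
    have h5 : 2 * Real.pi * |((1 : ℤ) : ℝ)| * (x₀ / (2 * Real.pi)) / ((1 : ℕ) : ℝ) = x₀ := by
      have := Real.pi_pos
      simp only [Int.cast_one, abs_one, Nat.cast_one]
      field_simp
    rw [h3, h4, h5, one_mul] at h2
    have h6 := hlow x₀ le_rfl
    rw [← h2] at h6
    simp only [zero_re] at h6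
    exact absurd h6 (not_le.2 (Real.exp_pos _))
  have hM := heckeMaass_parity h hε hne'
  exact ⟨ν, ε, _, hν2, hM, ⟨hν, hε, ha1, hM.smooth, hE, maass_dec hM.toIsMaassForm hev,
    maass_decd hM.toIsMaassForm hev⟩⟩

end Pool.Agent.JO.FM

namespace Pool.Agent.JO.FM

theorem frame0_exists : type_of% @frame0_exists_pr := @frame0_exists_pr

end Pool.Agent.JO.FM
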