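import Pool.Agent.Lib_helper45.JO.Defs2
import Pool.Agent.Lib_helper24.SQ.PL

/-! Project JO, part FM, block M7: Parseval on rays. -/

set_option autoImplicit false

namespace Pool.Agent.JO.FM

open Complex Filter Topology MeasureTheory Set
open UpperHalfPlane hiding I
open scoped MatrixGroups ComplexConjugate

theorem m7_exp {E : Type*} [NormedAddCommGroup E] [NormedSpace ℝ E] (g : ℝ → E) :
    ∫ r in Ioi (0 : ℝ), g r = ∫ v : ℝ, Real.exp v • g (Real.exp v) := by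
  have h := integral_image_eq_integral_abs_deriv_smul (s := univ) (f := Real.exp)
    (f' := Real.exp) MeasurableSet.univ
    (fun x _ => (Real.hasDerivAt_exp x).hasDerivWithinAt) (Real.exp_injective.injOn) g
  rw [image_univ, Real.range_exp, setIntegral_univ] at h
  rw [h]
  simp only [abs_of_pos (Real.exp_pos _)]

/-- the coordinates of the point `r e^{iθ}` -/
theorem m7_pr {r θ : ℝ} (hr : 0 < r) (hθ : θ ∈ Ioo 0 Real.pi) :
    ((pr r θ : ℍ) : ℂ) = r * cexp (θ * I) ∧ (pr r θ).im = r * Real.sin θ ∧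
      normSq ((pr r θ : ℍ) : ℂ) = r ^ 2 := by
  have him : ((r : ℂ) * cexp (θ * I)).im = r * Real.sin θ := by
    rw [Complex.im_ofReal_mul, Complex.exp_ofReal_mul_I_im]
  have hpos : 0 < ((r : ℂ) * cexp (θ * I)).im := by
    rw [him]
    exact mul_pos hr (Real.sin_pos_of_mem_Ioo hθ)
  have h1 : ((pr r θ : ℍ) : ℂ) = r * cexp (θ * I) := by
    unfold pr
    rw [ofComplex_apply_of_im_pos hpos]
  refine ⟨h1, ?_, ?_⟩
  · rw [← UpperHalfPlane.coe_im, h1, him]
  · rw [h1, Complex.normSq_eq_norm_sq, norm_mul, Complex.norm_real, Complex.norm_exp_ofReal_mul_I,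
      mul_one, Real.norm_eq_abs, sq_abs]

theorem m7_cont {f : ℍ → ℂ} (hf : ContDiffOn ℝ 2 (fun z : ℂ => f (ofComplex z)) {z | 0 < z.im})
    {θ : ℝ} (hθ : θ ∈ Ioo 0 Real.pi) : Continuous (fun v : ℝ => f (pr (Real.exp v) θ)) := by
  refine hf.continuousOn.comp_continuous (f := fun v : ℝ => ((Real.exp v : ℝ) : ℂ) * cexp (θ * I))
    (by fun_prop) ?_
  intro v
  show 0 < (((Real.exp v : ℝ) : ℂ) * cexp (θ * I)).im
  rw [Complex.im_ofReal_mul, Complex.exp_ofReal_mul_I_im]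
  exact mul_pos (Real.exp_pos v) (Real.sin_pos_of_mem_Ioo hθ)

/-- Gaussian bound -/
theorem m7_bound {f : ℍ → ℂ} (hd : ∃ C c : ℝ, 0 < c ∧ ∀ z : ℍ, ‖f z‖ ≤ C * Real.exp (-(c * z.im)) ∧
    ‖f z‖ ≤ C * Real.exp (-(c * (z.im / normSq (z : ℂ))))) {θ : ℝ} (hθ : θ ∈ Ioo 0 Real.pi) :
    ∃ C c : ℝ, 0 < c ∧ ∀ v : ℝ, ‖f (pr (Real.exp v) θ)‖ ≤ C * Real.exp (-c * v ^ 2) := by
  obtain ⟨C, c, hc, h⟩ := hd
  have hs := Real.sin_pos_of_mem_Ioo hθ
  have hC : 0 ≤ C := by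
    have h1 := (h UpperHalfPlane.I).1
    have h2 := norm_nonneg (f UpperHalfPlane.I)
    by_contra hC
    push Not at hC
    have := mul_neg_of_neg_of_pos hC (Real.exp_pos (-(c * UpperHalfPlane.I.im)))
    linarith
  refine ⟨C, c * Real.sin θ / 2, by positivity, ?_⟩
  intro v
  obtain ⟨h1, h2, h3⟩ := m7_pr (Real.exp_pos v) hθ
  have key : ∀ x : ℝ, x = v ∨ x = -v → 0 ≤ x → ‖f (pr (Real.exp v) θ)‖ ≤
      C * Real.exp (-(c * (Real.exp x * Real.sin θ))) := by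
    intro x hx _
    rcases hx with hx | hx
    · subst hx
      have := (h (pr (Real.exp x) θ)).1
      rwa [h2] at this
    · have := (h (pr (Real.exp v) θ)).2
      rw [h2, h3] at this
      have e : Real.exp v * Real.sin θ / Real.exp v ^ 2 = Real.exp x * Real.sin θ := by
        rw [hx, Real.exp_neg]
        field_simp
      rwa [e] at this
  have hab : ‖f (pr (Real.exp v) θ)‖ ≤ C * Real.exp (-(c * (Real.exp |v| * Real.sin θ))) := by
    apply key _ _ (abs_nonneg v)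
    rcases le_total 0 v with hv | hv
    · left; exact abs_of_nonneg hv
    · right; exact abs_of_nonpos hv
  refine hab.trans (mul_le_mul_of_nonneg_left ?_ hC)
  rw [Real.exp_le_exp]
  have hq := Real.quadratic_le_exp_of_nonneg (abs_nonneg v)
  rw [sq_abs] at hq
  have h4 : v ^ 2 / 2 ≤ Real.exp |v| := by linarith [abs_nonneg v]
  have h5 := mul_le_mul_of_nonneg_left h4 (mul_pos hc hs).le
  nlinarith

theorem m7_int {u : ℝ → ℂ} (hu : Continuous u) {C c : ℝ} (hc : 0 < c)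
    (hb : ∀ v : ℝ, ‖u v‖ ≤ C * Real.exp (-c * v ^ 2)) :
    Integrable u ∧ Integrable (fun v => ‖u v‖ ^ 2) := by
  have hg := (integrable_exp_neg_mul_sq hc).const_mul C
  refine ⟨hg.mono' hu.aestronglyMeasurable (Eventually.of_forall hb), ?_⟩
  have hg2 := (integrable_exp_neg_mul_sq hc).const_mul (C ^ 2)
  refine hg2.mono' (hu.norm.pow 2).aestronglyMeasurable (Eventually.of_forall fun v => ?_)
  rw [Real.norm_eq_abs, abs_of_nonneg (by positivity)]
  calc ‖u v‖ ^ 2 ≤ (C * Real.exp (-c * v ^ 2)) ^ 2 := pow_le_pow_left₀ (norm_nonneg _) (hb v) 2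
    _ = C ^ 2 * (Real.exp (-c * v ^ 2) * Real.exp (-c * v ^ 2)) := by ring
    _ ≤ C ^ 2 * (Real.exp (-c * v ^ 2) * 1) := by
        apply mul_le_mul_of_nonneg_left _ (sq_nonneg C)
        apply mul_le_mul_of_nonneg_left _ (Real.exp_pos _).le
        rw [Real.exp_le_one_iff]
        nlinarith [sq_nonneg v]
    _ = _ := by ring

/-- the Fourier transform of file SQ -/
noncomputable abbrev m7_hat (h : ℝ → ℂ) (t : ℝ) : ℂ := Pool.Agent.SQS.hat h t

theorem m7_hat_int {h : ℝ → ℂ} (h1 : Integrable h) (t : ℝ) :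
    Integrable (fun u : ℝ => h u * cexp (t * u * I)) := by
  refine h1.norm.mono' ?_ (Eventually.of_forall fun u => ?_)
  · exact h1.1.mul (by fun_prop : Continuous fun u : ℝ => cexp (t * u * I)).aestronglyMeasurable
  · rw [norm_mul]
    have : ‖cexp (t * u * I)‖ = 1 := by
      rw [← Complex.ofReal_mul, Complex.norm_exp_ofReal_mul_I]
    rw [this, mul_one]

theorem m7_hat_add {h g : ℝ → ℂ} (h1 : Integrable h) (g1 : Integrable g) (c : ℂ) (t : ℝ) :
    m7_hat (fun v => h v + c * g v) t = m7_hat h t + c * m7_hat g t := by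
  unfold m7_hat Pool.Agent.SQS.hat
  rw [← integral_const_mul, ← integral_add (m7_hat_int h1 t) ((m7_hat_int g1 t).const_mul c)]
  refine integral_congr_ae (Eventually.of_forall fun u => ?_)
  show (h u + c * g u) * cexp (t * u * I) = _
  ring

theorem m7_sq (a b : ℂ) : (a * conj b).re = (‖a + b‖ ^ 2 - ‖a‖ ^ 2 - ‖b‖ ^ 2) / 2 := by
  rw [← Complex.normSq_eq_norm_sq, ← Complex.normSq_eq_norm_sq, ← Complex.normSq_eq_norm_sq,
    Complex.normSq_add]
  ring

theorem m7_sum_sq {h g : ℝ → ℂ} (h1 : Integrable h) (h2 : Integrable (fun v => ‖h v‖ ^ 2))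
    (g1 : Integrable g) (g2 : Integrable (fun v => ‖g v‖ ^ 2)) :
    Integrable (fun v => ‖h v + g v‖ ^ 2) := by
  refine ((h2.const_mul 2).add (g2.const_mul 2)).mono' ((h1.1.add g1.1).norm.pow 2)
    (Eventually.of_forall fun v => ?_)
  rw [Real.norm_eq_abs, abs_of_nonneg (by positivity)]
  have := norm_add_le (h v) (g v)
  have h3 : ‖h v + g v‖ ^ 2 ≤ (‖h v‖ + ‖g v‖) ^ 2 := pow_le_pow_left₀ (norm_nonneg _) this 2
  show ‖h v + g v‖ ^ 2 ≤ 2 * ‖h v‖ ^ 2 + 2 * ‖g v‖ ^ 2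
  nlinarith [sq_nonneg (‖h v‖ - ‖g v‖)]

theorem m7_sub3 {A B C : ℝ → ℝ} (hA : Integrable A) (hB : Integrable B) (hC : Integrable C) :
    ∫ t, (A t - B t - C t) / 2 = ((∫ t, A t) - (∫ t, B t) - (∫ t, C t)) / 2 := by
  rw [integral_div]
  congr 1
  have h0 : Integrable (fun t => A t - B t) := hA.sub hB
  rw [integral_sub h0 hC, integral_sub hA hB]

theorem m7_re {h g : ℝ → ℂ} (h1 : Integrable h) (h2 : Integrable (fun v => ‖h v‖ ^ 2))
    (g1 : Integrable g) (g2 : Integrable (fun v => ‖g v‖ ^ 2)) :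
    Integrable (fun t => (m7_hat h t * conj (m7_hat g t)).re) ∧
      Integrable (fun v => (h v * conj (g v)).re) ∧
      ∫ t, (m7_hat h t * conj (m7_hat g t)).re = 2 * Real.pi * ∫ v, (h v * conj (g v)).re := by
  obtain ⟨a1, a2⟩ := Pool.Agent.SQS.PL1 h h1 h2
  obtain ⟨b1, b2⟩ := Pool.Agent.SQS.PL1 g g1 g2
  obtain ⟨c1, c2⟩ := Pool.Agent.SQS.PL1 (fun v => h v + g v) (h1.add g1) (m7_sum_sq h1 h2 g1 g2)
  have e : ∀ t, Pool.Agent.SQS.hat (fun v => h v + g v) t = m7_hat h t + m7_hat g t := by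
    intro t
    have := m7_hat_add h1 g1 1 t
    simpa using this
  simp only [e] at c1 c2
  have i1 : Integrable (fun t => (‖m7_hat h t + m7_hat g t‖ ^ 2 - ‖m7_hat h t‖ ^ 2 -
      ‖m7_hat g t‖ ^ 2) / 2) := ((c1.sub a1).sub b1).div_const 2
  have i2 : Integrable (fun v => (‖h v + g v‖ ^ 2 - ‖h v‖ ^ 2 - ‖g v‖ ^ 2) / 2) :=
    (((m7_sum_sq h1 h2 g1 g2).sub h2).sub g2).div_const 2
  simp only [m7_sq]
  refine ⟨i1, i2, ?_⟩
  rw [m7_sub3 c1 a1 b1, m7_sub3 (m7_sum_sq h1 h2 g1 g2) h2 g2]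
  rw [a2, b2, c2]
  ring

/-- polarised form of the theorem of Plancherel -/
theorem m7_polar {h g : ℝ → ℂ} (h1 : Integrable h) (h2 : Integrable (fun v => ‖h v‖ ^ 2))
    (g1 : Integrable g) (g2 : Integrable (fun v => ‖g v‖ ^ 2)) :
    ∫ t, m7_hat h t * conj (m7_hat g t) = ((2 * Real.pi : ℝ) : ℂ) * ∫ v, h v * conj (g v) := by
  obtain ⟨a1, a2, a3⟩ := m7_re h1 h2 g1 g2
  obtain ⟨b1, b2, b3⟩ := m7_re h1 h2 (g1.const_mul I) (by
    refine g2.congr (Eventually.of_forall fun v => ?_)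
    show ‖g v‖ ^ 2 = ‖I * g v‖ ^ 2
    rw [norm_mul, Complex.norm_I, one_mul])
  have e1 : ∀ t, m7_hat (fun v => I * g v) t = I * m7_hat g t := by
    intro t
    unfold m7_hat Pool.Agent.SQS.hat
    rw [← integral_const_mul]
    refine integral_congr_ae (Eventually.of_forall fun u => ?_)
    show I * g u * cexp (t * u * I) = I * (g u * cexp (t * u * I))
    ring
  have e2 : ∀ a b : ℂ, (a * conj (I * b)).re = (a * conj b).im := by
    intro a b
    simp
    ring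
  simp only [e1, e2] at b1 b2 b3
  have e3 : ∀ w : ℝ → ℂ, Integrable (fun t => (w t).re) → Integrable (fun t => (w t).im) →
      ∫ t, w t = ((∫ t, (w t).re : ℝ) : ℂ) + ((∫ t, (w t).im : ℝ) : ℂ) * I := by
    intro w hw1 hw2
    have : w = fun t => (((w t).re : ℝ) : ℂ) + (((w t).im : ℝ) : ℂ) * I := by
      funext t; exact (re_add_im (w t)).symm
    conv_lhs => rw [this]
    show ∫ t, ((((w t).re : ℝ) : ℂ) + (((w t).im : ℝ) : ℂ) * I) = _
    have k1 : Integrable (fun t => (((w t).re : ℝ) : ℂ)) := Integrable.ofReal hw1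
    have k2 : Integrable (fun t => (((w t).im : ℝ) : ℂ) * I) :=
      (Integrable.ofReal (𝕜 := ℂ) hw2).mul_const I
    rw [integral_add k1 k2, integral_mul_const]
    congr 1
    · exact integral_ofReal (𝕜 := ℂ)
    · congr 1
      exact integral_ofReal (𝕜 := ℂ)
  rw [e3 _ a1 b1, e3 _ a2 b2, a3, b3]
  push_cast
  ring

section

variable {ν : ℂ} {ε : ℝ} {a : ℕ → ℂ} {f : ℍ → ℂ} {L : ℂ → ℂ}

theorem m7_ha_re (t : ℝ) : (ha t).re = 1 / 2 := by
  unfold ha
  simp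

/-- the Mellin transform as a Fourier transform -/
theorem m7_mf (f : ℍ → ℂ) (θ t : ℝ) :
    m7_hat (fun v => f (pr (Real.exp v) θ)) t = Mf f (ha t) θ := by
  unfold Mf m7_hat Pool.Agent.SQS.hat
  rw [m7_exp]
  refine integral_congr_ae (Eventually.of_forall fun v => ?_)
  show f (pr (Real.exp v) θ) * cexp (t * v * I) =
    Real.exp v • (f (pr (Real.exp v) θ) * ((Real.exp v : ℝ) : ℂ) ^ (ha t - 3 / 2))
  have e : ((Real.exp v : ℝ) : ℂ) ^ (ha t - 3 / 2) = cexp (-v) * cexp (t * v * I) := by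
    rw [Complex.cpow_def_of_ne_zero (by exact_mod_cast (Real.exp_pos v).ne'),
      ← Complex.ofReal_log (Real.exp_pos v).le, Real.log_exp, ← Complex.exp_add]
    congr 1
    unfold ha
    ring
  rw [e, Complex.real_smul, Complex.ofReal_exp]
  have e2 : cexp (v : ℂ) * cexp (-(v : ℂ)) = 1 := by
    rw [← Complex.exp_add, add_neg_cancel, Complex.exp_zero]
  linear_combination -(f (pr (Real.exp v) θ) * cexp (t * v * I)) * e2

theorem m7_hat_eq (F : Frame0 ν ε a f) (hL : LFun ν ε a f L) {θ : ℝ} (hθ : θ ∈ Ioo 0 Real.pi)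
    (t : ℝ) : m7_hat (fun v => f (pr (Real.exp v) θ)) t = L (ha t) * Gs ν ε (ha t) θ := by
  rw [m7_mf]
  exact hL.mf (ha t) θ (by rw [m7_ha_re]; exact F.nu.lt_half) hθ

theorem m7_ray (f : ℍ → ℂ) (θ : ℝ) :
    ray (phi f) θ = ((∫ v : ℝ, ‖f (pr (Real.exp v) θ)‖ ^ 2 : ℝ) : ℂ) := by
  unfold ray
  rw [m7_exp, ← integral_complex_ofReal]
  refine integral_congr_ae (Eventually.of_forall fun v => ?_)
  show Real.exp v • (phi f (ofComplex (((Real.exp v : ℝ) : ℂ) * cexp (θ * I))) /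
    ((Real.exp v : ℝ) : ℂ)) = ((‖f (pr (Real.exp v) θ)‖ ^ 2 : ℝ) : ℂ)
  have hne : ((Real.exp v : ℝ) : ℂ) ≠ 0 := by exact_mod_cast (Real.exp_pos v).ne'
  rw [Complex.real_smul, mul_div_cancel₀ _ hne]
  rfl

theorem ray_phi_pr (F : Frame0 ν ε a f) (hL : LFun ν ε a f L) {θ : ℝ} (hθ : θ ∈ Ioo 0 Real.pi) :
    Integrable (fun t : ℝ => ‖L (ha t)‖ ^ 2 * ‖Gs ν ε (ha t) θ‖ ^ 2) ∧
    ray (phi f) θ = (((2 * Real.pi)⁻¹ * ∫ t : ℝ, ‖L (ha t)‖ ^ 2 * ‖Gs ν ε (ha t) θ‖ ^ 2 : ℝ) : ℂ) := by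
  have hc := m7_cont F.smooth hθ
  obtain ⟨C, c, hc0, hb⟩ := m7_bound F.dec hθ
  obtain ⟨i1, i2⟩ := m7_int hc hc0 hb
  obtain ⟨p1, p2⟩ := Pool.Agent.SQS.PL1 _ i1 i2
  have e : ∀ t, ‖Pool.Agent.SQS.hat (fun v => f (pr (Real.exp v) θ)) t‖ ^ 2 =
      ‖L (ha t)‖ ^ 2 * ‖Gs ν ε (ha t) θ‖ ^ 2 := by
    intro t
    have h1 := m7_hat_eq F hL hθ t
    unfold m7_hat at h1
    rw [h1, norm_mul, mul_pow]
  simp only [e] at p1 p2
  refine ⟨p1, ?_⟩
  rw [m7_ray, p2]
  congr 1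
  have hpi := Real.pi_pos
  field_simp

theorem ray_q_pr (F : Frame0 ν ε a f) (hL : LFun ν ε a f L) {θ : ℝ} (hθ : θ ∈ Ioo 0 Real.pi)
    {q : ℝ} (hq : 0 < q) :
    ∫ r in Ioi (0 : ℝ), f (pr r θ) * conj (f (pr (q * r) θ)) / r =
      ((2 * Real.pi : ℝ) : ℂ)⁻¹ * ∫ t : ℝ, ((‖L (ha t)‖ ^ 2 * ‖Gs ν ε (ha t) θ‖ ^ 2 : ℝ) : ℂ) *
        cexp (t * Real.log q * I) := by
  have hc := m7_cont F.smooth hθ
  obtain ⟨C, c, hc0, hb⟩ := m7_bound F.dec hθ
  obtain ⟨i1, i2⟩ := m7_int hc hc0 hb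
  obtain ⟨u, hu⟩ : ∃ u : ℝ → ℂ, u = fun v => f (pr (Real.exp v) θ) := ⟨_, rfl⟩
  have hu2 : ∀ v, f (pr (Real.exp v) θ) = u v := fun v => by rw [hu]
  rw [← hu] at i1
  simp only [hu2] at i2
  have i1' : Integrable (fun v => u (v + Real.log q)) := i1.comp_add_right _
  have i2' : Integrable (fun v => ‖u (v + Real.log q)‖ ^ 2) := by
    have h := i2.comp_add_right (Real.log q)
    exact h
  have hpol := m7_polar i1 i2 i1' i2'
  have e1 : ∀ t, m7_hat (fun v => u (v + Real.log q)) t =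
      cexp (-(t * Real.log q * I)) * m7_hat u t := by
    intro t
    unfold m7_hat Pool.Agent.SQS.hat
    rw [← integral_const_mul, ← integral_add_right_eq_self (μ := volume)
      (fun v : ℝ => cexp (-(t * Real.log q * I)) * (u v * cexp (t * v * I))) (Real.log q)]
    refine integral_congr_ae (Eventually.of_forall fun v => ?_)
    show u (v + Real.log q) * cexp (t * v * I) = cexp (-(t * Real.log q * I)) *
      (u (v + Real.log q) * cexp (t * ((v + Real.log q : ℝ) : ℂ) * I))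
    have : cexp (t * v * I) = cexp (-(t * Real.log q * I)) *
        cexp (t * ((v + Real.log q : ℝ) : ℂ) * I) := by
      rw [← Complex.exp_add]
      congr 1
      push_cast
      ring
    rw [this]
    ring
  have e2 : ∀ t, m7_hat u t * conj (m7_hat (fun v => u (v + Real.log q)) t) =
      ((‖L (ha t)‖ ^ 2 * ‖Gs ν ε (ha t) θ‖ ^ 2 : ℝ) : ℂ) * cexp (t * Real.log q * I) := by
    intro t
    rw [e1, map_mul]
    have h1 : conj (cexp (-(t * Real.log q * I))) = cexp (t * Real.log q * I) := by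
      rw [← Complex.exp_conj]
      congr 1
      simp
    have h2 : m7_hat u t * conj (m7_hat u t) =
        ((‖L (ha t)‖ ^ 2 * ‖Gs ν ε (ha t) θ‖ ^ 2 : ℝ) : ℂ) := by
      rw [hu, m7_hat_eq F hL hθ t, Complex.mul_conj, Complex.normSq_eq_norm_sq, norm_mul, mul_pow]
    rw [h1, ← h2]
    ring
  have e3 : ∫ r in Ioi (0 : ℝ), f (pr r θ) * conj (f (pr (q * r) θ)) / r =
      ∫ v, u v * conj (u (v + Real.log q)) := by
    rw [m7_exp]
    refine integral_congr_ae (Eventually.of_forall fun v => ?_)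
    show Real.exp v • (f (pr (Real.exp v) θ) * conj (f (pr (q * Real.exp v) θ)) /
      ((Real.exp v : ℝ) : ℂ)) = u v * conj (u (v + Real.log q))
    have hne : ((Real.exp v : ℝ) : ℂ) ≠ 0 := by exact_mod_cast (Real.exp_pos v).ne'
    rw [Complex.real_smul, mul_div_cancel₀ _ hne, hu]
    show _ = f (pr (Real.exp v) θ) * conj (f (pr (Real.exp (v + Real.log q)) θ))
    rw [Real.exp_add, Real.exp_log hq, mul_comm (Real.exp v) q]
  simp only [e2] at hpol
  rw [e3, hpol, inv_mul_cancel_left₀]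
  have hpi := Real.pi_pos
  exact_mod_cast (by positivity : (2 * Real.pi : ℝ) ≠ 0)

end

end Pool.Agent.JO.FM

namespace Pool.Agent.JO.FM

theorem ray_phi : type_of% @ray_phi_pr := @ray_phi_pr
theorem ray_q : type_of% @ray_q_pr := @ray_q_pr

end Pool.Agent.JO.FM
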