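import Pool.Agent.Lib_helper45.JO.Defs2
import Pool.Agent.Lib_helper45.JOM.K4
import Pool.Agent.Lib_helper45.JOM.M2

/-!
# Project JO, part FM, block M3: the values of `Gs` at `π/2` and its symmetries
-/

set_option autoImplicit false

namespace Pool.Agent.JO.FM

open Complex Filter Topology MeasureTheory Set
open UpperHalfPlane hiding I
open scoped MatrixGroups ComplexConjugate

section

variable {ν : ℂ} {ε : ℝ} {a : ℕ → ℂ} {f : ℍ → ℂ} {L : ℂ → ℂ}

theorem m3_cosh_pos (u : ℝ) : 0 < Real.cosh u := Real.cosh_pos u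

theorem m3_nu_lt (hν : GoodNu ν) {s : ℂ} (hs : ν.re < s.re) : |ν.re| < s.re := by
  rw [abs_of_nonneg hν.nonneg]; exact hs

theorem Gs_half_one_pr (hν : GoodNu ν) {s : ℂ} (hs : ν.re < s.re) :
    Gs ν 1 s (Real.pi / 2 : ℝ) = ((2 * Real.pi : ℝ) : ℂ) ^ (1 / 2 - s) * (2 : ℂ) ^ (s - 1) *
      Gamma ((s + ν) / 2) * Gamma ((s - ν) / 2) := by
  have h1 := (cosh_int (m3_nu_lt hν hs)).2
  have hs0 : 0 < s.re := lt_of_le_of_lt hν.nonneg hs
  have hG : Gamma s ≠ 0 := Complex.Gamma_ne_zero_of_re_pos hs0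
  unfold Gs
  have hsin : Complex.sin ((Real.pi / 2 : ℝ) : ℂ) = 1 := by
    rw [← Complex.ofReal_sin, Real.sin_pi_div_two, Complex.ofReal_one]
  have hcos : Complex.cos ((Real.pi / 2 : ℝ) : ℂ) = 0 := by
    rw [← Complex.ofReal_cos, Real.cos_pi_div_two, Complex.ofReal_zero]
  rw [hsin, hcos]
  have h2 : (fun u : ℝ => cexp (ν * u) *
      ((1 * ((Real.cosh u : ℝ) : ℂ) - I * 0) ^ (-s) +
        ((1 : ℝ) : ℂ) * (1 * ((Real.cosh u : ℝ) : ℂ) + I * 0) ^ (-s))) =
      fun u : ℝ => 2 * (cexp (ν * u) * ((Real.cosh u : ℝ) : ℂ) ^ (-s)) := by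
    funext u
    rw [mul_zero, sub_zero, add_zero, one_mul, Complex.ofReal_one]
    ring
  rw [h2, integral_const_mul, h1, Complex.one_cpow]
  field_simp

theorem m3_conj_ne_pi {z : ℂ} (h : 0 < z.re) : z.arg ≠ Real.pi := by
  intro h1
  rw [Complex.arg_eq_pi_iff] at h1
  linarith [h1.1]

theorem m3_re_sin {θ : ℂ} (h0 : 0 < θ.re) (h1 : θ.re < Real.pi) : 0 < (Complex.sin θ).re := by
  have h2 : (Complex.sin θ).re = Real.sin θ.re * Real.cosh θ.im := by
    rw [Complex.sin_eq]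
    simp [Complex.mul_re, Complex.mul_im, Complex.add_re, ← Complex.ofReal_sin,
      ← Complex.ofReal_cosh, ← Complex.ofReal_cos, ← Complex.ofReal_sinh]
  rw [h2]
  exact mul_pos (Real.sin_pos_of_pos_of_lt_pi h0 h1) (Real.cosh_pos _)

theorem m3_re_A {θ : ℂ} (u : ℝ) :
    (Complex.sin θ * (Real.cosh u : ℝ) - I * Complex.cos θ).re =
      Real.sin θ.re * (Real.cosh θ.im * Real.cosh u - Real.sinh θ.im) ∧
    (Complex.sin θ * (Real.cosh u : ℝ) + I * Complex.cos θ).re =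
      Real.sin θ.re * (Real.cosh θ.im * Real.cosh u + Real.sinh θ.im) := by
  have h2 : (Complex.sin θ).re = Real.sin θ.re * Real.cosh θ.im := by
    rw [Complex.sin_eq]
    simp [Complex.mul_re, Complex.mul_im, Complex.add_re, ← Complex.ofReal_sin,
      ← Complex.ofReal_cosh, ← Complex.ofReal_cos, ← Complex.ofReal_sinh]
  have h3 : (Complex.cos θ).im = -(Real.sin θ.re * Real.sinh θ.im) := by
    rw [Complex.cos_eq]
    simp [Complex.mul_re, Complex.mul_im, Complex.add_re, ← Complex.ofReal_sin,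
      ← Complex.ofReal_cosh, ← Complex.ofReal_cos, ← Complex.ofReal_sinh]
  constructor
  · rw [Complex.sub_re, Complex.re_mul_ofReal, h2, Complex.I_mul_re, h3]; ring
  · rw [Complex.add_re, Complex.re_mul_ofReal, h2, Complex.I_mul_re, h3]; ring

theorem m3_low (b u : ℝ) : Real.exp (-|b|) * Real.cosh u ≤
    Real.cosh b * Real.cosh u - |Real.sinh b| := by
  have h1 : 1 ≤ Real.cosh u := Real.one_le_cosh u
  have h2 : Real.exp (-|b|) = Real.cosh b - |Real.sinh b| := by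
    rw [← Real.cosh_abs b, Real.abs_sinh, Real.cosh_sub_sinh]
  rw [h2]
  nlinarith [abs_nonneg (Real.sinh b)]

theorem m3_A_low {θ : ℂ} (h0 : 0 < θ.re) (h1 : θ.re < Real.pi) (u : ℝ) :
    Real.sin θ.re * (Real.exp (-|θ.im|) * Real.cosh u) ≤
      (Complex.sin θ * (Real.cosh u : ℝ) - I * Complex.cos θ).re ∧
    Real.sin θ.re * (Real.exp (-|θ.im|) * Real.cosh u) ≤
      (Complex.sin θ * (Real.cosh u : ℝ) + I * Complex.cos θ).re := by
  have hs : 0 < Real.sin θ.re := Real.sin_pos_of_pos_of_lt_pi h0 h1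
  have h2 := m3_low θ.im u
  obtain ⟨h3, h4⟩ := m3_re_A (θ := θ) u
  rw [h3, h4]
  constructor
  · apply mul_le_mul_of_nonneg_left _ hs.le
    linarith [le_abs_self (Real.sinh θ.im)]
  · apply mul_le_mul_of_nonneg_left _ hs.le
    linarith [neg_abs_le (Real.sinh θ.im)]

theorem m3_A_pos {θ : ℂ} (h0 : 0 < θ.re) (h1 : θ.re < Real.pi) (u : ℝ) :
    0 < (Complex.sin θ * (Real.cosh u : ℝ) - I * Complex.cos θ).re ∧
    0 < (Complex.sin θ * (Real.cosh u : ℝ) + I * Complex.cos θ).re := by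
  have hs : 0 < Real.sin θ.re := Real.sin_pos_of_pos_of_lt_pi h0 h1
  have h2 : 0 < Real.sin θ.re * (Real.exp (-|θ.im|) * Real.cosh u) :=
    mul_pos hs (mul_pos (Real.exp_pos _) (Real.cosh_pos u))
  obtain ⟨h3, h4⟩ := m3_A_low h0 h1 u
  exact ⟨lt_of_lt_of_le h2 h3, lt_of_lt_of_le h2 h4⟩

/-- reflection -/
theorem m3_symm1 (hε : ε = 1 ∨ ε = -1) (s θ : ℂ) :
    Gs ν ε s (Real.pi - θ) = ε * Gs ν ε s θ := by
  have hε2 : (ε : ℂ) * ε = 1 := by
    rcases hε with h | h <;> rw [h] <;> norm_num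
  unfold Gs
  rw [Complex.sin_pi_sub, Complex.cos_pi_sub]
  have h2 : (fun u : ℝ => cexp (ν * u) *
      ((Complex.sin θ * (Real.cosh u : ℝ) - I * -Complex.cos θ) ^ (-s) +
        ε * (Complex.sin θ * (Real.cosh u : ℝ) + I * -Complex.cos θ) ^ (-s))) =
      fun u : ℝ => (ε : ℂ) * (cexp (ν * u) *
      ((Complex.sin θ * (Real.cosh u : ℝ) - I * Complex.cos θ) ^ (-s) +
        ε * (Complex.sin θ * (Real.cosh u : ℝ) + I * Complex.cos θ) ^ (-s))) := by
    funext u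
    rw [mul_neg, sub_neg_eq_add, ← sub_eq_add_neg]
    linear_combination (-(cexp (ν * u) *
      (Complex.sin θ * (Real.cosh u : ℝ) + I * Complex.cos θ) ^ (-s))) * hε2
  rw [h2, integral_const_mul]
  ring

theorem m3_conj_cpow {z w : ℂ} (h : 0 < z.re) : conj (z ^ w) = (conj z) ^ (conj w) := by
  have h1 := Complex.cpow_conj z (conj w) (m3_conj_ne_pi h)
  rw [Complex.conj_conj] at h1
  rw [h1, Complex.conj_conj]

theorem m3_int_nu {ν : ℂ} (hν : GoodNu ν) (g : ℝ → ℂ) (hg : ∀ u, g (-u) = g u) :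
    ∫ u : ℝ, cexp (conj ν * u) * g u = ∫ u : ℝ, cexp (ν * u) * g u := by
  rcases hν.real_or with h | h
  · have h1 : conj ν = ν := Complex.conj_eq_iff_im.2 h
    rw [h1]
  · have h1 : conj ν = -ν := by
      apply Complex.ext
      · rw [Complex.conj_re, Complex.neg_re, h, neg_zero]
      · rw [Complex.conj_im, Complex.neg_im]
    rw [h1, ← integral_neg_eq_self (fun u : ℝ => cexp (ν * u) * g u)]
    congr 1
    funext u
    rw [hg, Complex.ofReal_neg, neg_mul, mul_neg]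

theorem m3_symm2 (hν : GoodNu ν) (hε : ε = 1 ∨ ε = -1) {s θ : ℂ}
    (h0 : 0 < θ.re) (h1 : θ.re < Real.pi) :
    conj (Gs ν ε s θ) = ε * Gs ν ε (conj s) (conj θ) := by
  have hε2 : (ε : ℂ) * ε = 1 := by
    rcases hε with h | h <;> rw [h] <;> norm_num
  have hsc : conj (Complex.sin θ) = Complex.sin (conj θ) := (Complex.sin_conj θ).symm
  have hcc : conj (Complex.cos θ) = Complex.cos (conj θ) := (Complex.cos_conj θ).symm
  have e1 : conj (((2 * Real.pi : ℝ) : ℂ) ^ (1 / 2 - s)) =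
      ((2 * Real.pi : ℝ) : ℂ) ^ (1 / 2 - conj s) := by
    rw [m3_conj_cpow (by rw [Complex.ofReal_re]; positivity), Complex.conj_ofReal]
    congr 1
    rw [map_sub]
    congr 1
    rw [map_div₀, map_one, Complex.conj_ofNat]
  have e2 : conj (Gamma s) = Gamma (conj s) := (Complex.Gamma_conj s).symm
  have e3 : conj (Complex.sin θ ^ (1 / 2 : ℂ)) = Complex.sin (conj θ) ^ (1 / 2 : ℂ) := by
    rw [m3_conj_cpow (m3_re_sin h0 h1), hsc]
    congr 1
    rw [map_div₀, map_one, Complex.conj_ofNat]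
  have e4 : conj (∫ u : ℝ, cexp (ν * u) *
      ((Complex.sin θ * (Real.cosh u : ℝ) - I * Complex.cos θ) ^ (-s) +
        ε * (Complex.sin θ * (Real.cosh u : ℝ) + I * Complex.cos θ) ^ (-s))) =
      ε * ∫ u : ℝ, cexp (ν * u) *
      ((Complex.sin (conj θ) * (Real.cosh u : ℝ) - I * Complex.cos (conj θ)) ^ (-conj s) +
        ε * (Complex.sin (conj θ) * (Real.cosh u : ℝ) + I * Complex.cos (conj θ)) ^ (-conj s)) := by
    rw [← integral_conj, ← integral_const_mul]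
    have h2 : (fun u : ℝ => conj (cexp (ν * u) *
      ((Complex.sin θ * (Real.cosh u : ℝ) - I * Complex.cos θ) ^ (-s) +
        ε * (Complex.sin θ * (Real.cosh u : ℝ) + I * Complex.cos θ) ^ (-s)))) =
      fun u : ℝ => cexp (conj ν * u) * (ε * 
      ((Complex.sin (conj θ) * (Real.cosh u : ℝ) - I * Complex.cos (conj θ)) ^ (-conj s) +
        ε * (Complex.sin (conj θ) * (Real.cosh u : ℝ) + I * Complex.cos (conj θ)) ^ (-conj s))) := by
      funext u
      obtain ⟨p1, p2⟩ := m3_A_pos h0 h1 u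
      rw [map_mul, map_add, map_mul, m3_conj_cpow p1, m3_conj_cpow p2, map_sub, map_add, map_mul,
        map_mul, hsc, hcc, Complex.conj_ofReal, Complex.conj_ofReal, Complex.conj_I, map_neg,
        ← Complex.exp_conj, map_mul, Complex.conj_ofReal, neg_mul, sub_neg_eq_add, ← sub_eq_add_neg]
      linear_combination (-(cexp (conj ν * u) * (Complex.sin (conj θ) * (Real.cosh u : ℝ) +
        I * Complex.cos (conj θ)) ^ (-conj s))) * hε2
    rw [h2, m3_int_nu hν]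
    · congr 1
      funext u
      ring
    · intro u
      rw [Real.cosh_neg]
  unfold Gs
  rw [map_mul, map_mul, map_mul, map_mul, e1, e2, e3, e4, map_div₀, map_one, Complex.conj_ofNat]
  ring

theorem m3_norm_cpow_le {z w : ℂ} (hz : 0 < z.re) {m : ℝ} (hm : 0 < m) (h : m ≤ z.re)
    (hw : w.re ≤ 0) : ‖z ^ w‖ ≤ m ^ w.re * Real.exp (Real.pi * |w.im|) := by
  have hz0 : z ≠ 0 := by
    intro h1
    rw [h1, Complex.zero_re] at hz
    exact lt_irrefl _ hz
  rw [Complex.norm_cpow_of_ne_zero hz0, div_eq_mul_inv, ← Real.exp_neg]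
  have h1 : m ≤ ‖z‖ := h.trans (Complex.re_le_norm z)
  have h2 : ‖z‖ ^ w.re ≤ m ^ w.re := Real.rpow_le_rpow_of_nonpos hm h1 hw
  have h3 : -(z.arg * w.im) ≤ Real.pi * |w.im| := by
    calc -(z.arg * w.im) ≤ |z.arg * w.im| := neg_le_abs _
      _ = |z.arg| * |w.im| := abs_mul _ _
      _ ≤ Real.pi * |w.im| :=
          mul_le_mul_of_nonneg_right (Complex.abs_arg_le_pi z) (abs_nonneg _)
  exact mul_le_mul h2 (Real.exp_le_exp.2 h3) (Real.exp_pos _).le (Real.rpow_nonneg hm.le _)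

/-- the integrand of `Gs` and its derivative -/
noncomputable def m3_F (ν : ℂ) (s θ : ℂ) (u : ℝ) : ℂ :=
  cexp (ν * u) *
      ((Complex.sin θ * (Real.cosh u : ℝ) - I * Complex.cos θ) ^ (-s) +
        ((-1 : ℝ) : ℂ) * (Complex.sin θ * (Real.cosh u : ℝ) + I * Complex.cos θ) ^ (-s))

noncomputable def m3_F' (ν : ℂ) (s θ : ℂ) (u : ℝ) : ℂ :=
  cexp (ν * u) *
      ((-s) * (Complex.sin θ * (Real.cosh u : ℝ) - I * Complex.cos θ) ^ (-s - 1) *
        (Complex.cos θ * (Real.cosh u : ℝ) + I * Complex.sin θ) +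
        ((-1 : ℝ) : ℂ) * ((-s) * (Complex.sin θ * (Real.cosh u : ℝ) +
          I * Complex.cos θ) ^ (-s - 1) * (Complex.cos θ * (Real.cosh u : ℝ) - I * Complex.sin θ)))

theorem m3_hasDeriv (ν s : ℂ) {θ : ℂ} (h0 : 0 < θ.re) (h1 : θ.re < Real.pi) (u : ℝ) :
    HasDerivAt (fun θ => m3_F ν s θ u) (m3_F' ν s θ u) θ := by
  obtain ⟨p1, p2⟩ := m3_A_pos h0 h1 u
  have hA : HasDerivAt (fun θ : ℂ => Complex.sin θ * (Real.cosh u : ℝ) - I * Complex.cos θ)
      (Complex.cos θ * (Real.cosh u : ℝ) + I * Complex.sin θ) θ := by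
    have h2 := ((Complex.hasDerivAt_sin θ).mul_const ((Real.cosh u : ℝ) : ℂ)).sub
      ((Complex.hasDerivAt_cos θ).const_mul I)
    refine h2.congr_deriv ?_
    ring
  have hB : HasDerivAt (fun θ : ℂ => Complex.sin θ * (Real.cosh u : ℝ) + I * Complex.cos θ)
      (Complex.cos θ * (Real.cosh u : ℝ) - I * Complex.sin θ) θ := by
    have h2 := ((Complex.hasDerivAt_sin θ).mul_const ((Real.cosh u : ℝ) : ℂ)).add
      ((Complex.hasDerivAt_cos θ).const_mul I)
    refine h2.congr_deriv ?_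
    ring
  have hA2 := hA.cpow_const (c := -s) (Or.inl p1)
  have hB2 := hB.cpow_const (c := -s) (Or.inl p2)
  exact (hA2.add (hB2.const_mul ((-1 : ℝ) : ℂ))).const_mul (cexp (ν * u))

theorem m3_meas_F (ν s θ : ℂ) : Measurable (m3_F ν s θ) := by
  unfold m3_F
  have h1 : Measurable (fun u : ℝ => ((Real.cosh u : ℝ) : ℂ)) :=
    Complex.measurable_ofReal.comp Real.measurable_cosh
  have h2 : Measurable (fun u : ℝ => cexp (ν * u)) :=
    Complex.measurable_exp.comp (Complex.measurable_ofReal.const_mul ν)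
  exact h2.mul (((((h1.const_mul (Complex.sin θ)).sub_const _)).pow_const _).add
    (((((h1.const_mul (Complex.sin θ)).add_const _)).pow_const _).const_mul _))

theorem m3_meas_F' (ν s θ : ℂ) : Measurable (m3_F' ν s θ) := by
  unfold m3_F'
  have h1 : Measurable (fun u : ℝ => ((Real.cosh u : ℝ) : ℂ)) :=
    Complex.measurable_ofReal.comp Real.measurable_cosh
  have h2 : Measurable (fun u : ℝ => cexp (ν * u)) :=
    Complex.measurable_exp.comp (Complex.measurable_ofReal.const_mul ν)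
  have h3 : Measurable (fun u : ℝ => Complex.cos θ * ((Real.cosh u : ℝ) : ℂ)) :=
    h1.const_mul _
  have h4 : Measurable (fun u : ℝ => Complex.sin θ * ((Real.cosh u : ℝ) : ℂ)) :=
    h1.const_mul _
  exact h2.mul (((((h4.sub_const _).pow_const _).const_mul _).mul (h3.add_const _)).add
    (((((h4.add_const _).pow_const _).const_mul _).mul (h3.sub_const _)).const_mul _))

theorem m3_sin_low {x : ℝ} (h : |x - Real.pi / 2| ≤ 1) : Real.cos 1 ≤ Real.sin x := by
  have h1 : Real.sin x = Real.cos |x - Real.pi / 2| := by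
    rw [Real.cos_abs, Real.cos_sub_pi_div_two]
  rw [h1]
  apply Real.cos_le_cos_of_nonneg_of_le_pi (abs_nonneg _) (by linarith [Real.pi_gt_three]) h

theorem m3_bound (ν : ℂ) {s : ℂ} (hs0 : 0 < s.re) : ∃ K : ℝ, ∀ θ ∈ Metric.ball
    ((Real.pi / 2 : ℝ) : ℂ) 1, ∀ u : ℝ, ‖m3_F' ν s θ u‖ ≤
      K * ‖cexp (ν * u) * ((Real.cosh u : ℝ) : ℂ) ^ (-s)‖ := by
  obtain ⟨K₁, hK₁⟩ := (isCompact_closedBall ((Real.pi / 2 : ℝ) : ℂ) 1).exists_bound_of_continuousOn
    (f := Complex.cos) Complex.continuous_cos.continuousOn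
  obtain ⟨K₂, hK₂⟩ := (isCompact_closedBall ((Real.pi / 2 : ℝ) : ℂ) 1).exists_bound_of_continuousOn
    (f := Complex.sin) Complex.continuous_sin.continuousOn
  set c : ℝ := Real.cos 1 * Real.exp (-1) with hc
  have hc0 : 0 < c := mul_pos Real.cos_one_pos (Real.exp_pos _)
  set E : ℝ := Real.exp (Real.pi * |(-s - 1).im|) with hE
  refine ⟨2 * (‖s‖ * (c ^ (-s - 1).re * E) * (K₁ + K₂)), ?_⟩
  intro θ hθ u
  have hθc : θ ∈ Metric.closedBall ((Real.pi / 2 : ℝ) : ℂ) 1 := Metric.ball_subset_closedBall hθ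
  have k1 := hK₁ θ hθc
  have k2 := hK₂ θ hθc
  have hn : ‖θ - ((Real.pi / 2 : ℝ) : ℂ)‖ < 1 := by
    rw [← dist_eq_norm]; exact Metric.mem_ball.1 hθ
  have hre : |θ.re - Real.pi / 2| ≤ 1 := by
    have := Complex.abs_re_le_norm (θ - ((Real.pi / 2 : ℝ) : ℂ))
    rw [Complex.sub_re, Complex.ofReal_re] at this
    linarith
  have him : |θ.im| ≤ 1 := by
    have := Complex.abs_im_le_norm (θ - ((Real.pi / 2 : ℝ) : ℂ))
    rw [Complex.sub_im, Complex.ofReal_im, sub_zero] at this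
    linarith
  have hpi := Real.pi_gt_three
  have h0 : 0 < θ.re := by linarith [(abs_le.1 hre).1]
  have h1 : θ.re < Real.pi := by linarith [(abs_le.1 hre).2]
  obtain ⟨p1, p2⟩ := m3_A_pos h0 h1 u
  obtain ⟨q1, q2⟩ := m3_A_low h0 h1 u
  have hcu : 0 < Real.cosh u := Real.cosh_pos u
  have hcu1 : 1 ≤ Real.cosh u := Real.one_le_cosh u
  have hlow : c * Real.cosh u ≤ Real.sin θ.re * (Real.exp (-|θ.im|) * Real.cosh u) := by
    rw [hc, mul_assoc]
    apply mul_le_mul (m3_sin_low hre) _ (by positivity)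
      (Real.sin_pos_of_pos_of_lt_pi h0 h1).le
    exact mul_le_mul_of_nonneg_right (Real.exp_le_exp.2 (by linarith)) hcu.le
  have hw : (-s - 1).re ≤ 0 := by
    rw [Complex.sub_re, Complex.neg_re, Complex.one_re]; linarith
  have r1 := m3_norm_cpow_le p1 (mul_pos hc0 hcu) (hlow.trans q1) hw
  have r2 := m3_norm_cpow_le p2 (mul_pos hc0 hcu) (hlow.trans q2) hw
  rw [← hE] at r1 r2
  rw [Real.mul_rpow hc0.le hcu.le] at r1 r2
  have s1 : ‖Complex.cos θ * (Real.cosh u : ℝ) + I * Complex.sin θ‖ ≤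
      (K₁ + K₂) * Real.cosh u := by
    refine (norm_add_le _ _).trans ?_
    rw [norm_mul, norm_mul, Complex.norm_I, one_mul, Complex.norm_real, Real.norm_eq_abs,
      abs_of_pos hcu]
    nlinarith [norm_nonneg (Complex.cos θ), norm_nonneg (Complex.sin θ)]
  have s2 : ‖Complex.cos θ * (Real.cosh u : ℝ) - I * Complex.sin θ‖ ≤
      (K₁ + K₂) * Real.cosh u := by
    refine (norm_sub_le _ _).trans ?_
    rw [norm_mul, norm_mul, Complex.norm_I, one_mul, Complex.norm_real, Real.norm_eq_abs,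
      abs_of_pos hcu]
    nlinarith [norm_nonneg (Complex.cos θ), norm_nonneg (Complex.sin θ)]
  have hK : 0 ≤ K₁ + K₂ := by
    linarith [norm_nonneg (Complex.cos θ), norm_nonneg (Complex.sin θ)]
  have t1 : ‖(-s) * (Complex.sin θ * (Real.cosh u : ℝ) - I * Complex.cos θ) ^ (-s - 1) *
        (Complex.cos θ * (Real.cosh u : ℝ) + I * Complex.sin θ)‖ ≤
      ‖s‖ * (c ^ (-s - 1).re * Real.cosh u ^ (-s - 1).re * E) * ((K₁ + K₂) * Real.cosh u) := by
    rw [norm_mul, norm_mul, norm_neg]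
    exact mul_le_mul (mul_le_mul_of_nonneg_left r1 (norm_nonneg _)) s1 (norm_nonneg _)
      (by positivity)
  have t2 : ‖(-s) * (Complex.sin θ * (Real.cosh u : ℝ) + I * Complex.cos θ) ^ (-s - 1) *
        (Complex.cos θ * (Real.cosh u : ℝ) - I * Complex.sin θ)‖ ≤
      ‖s‖ * (c ^ (-s - 1).re * Real.cosh u ^ (-s - 1).re * E) * ((K₁ + K₂) * Real.cosh u) := by
    rw [norm_mul, norm_mul, norm_neg]
    exact mul_le_mul (mul_le_mul_of_nonneg_left r2 (norm_nonneg _)) s2 (norm_nonneg _)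
      (by positivity)
  have hpow : Real.cosh u ^ (-s - 1).re * Real.cosh u = Real.cosh u ^ (-s).re := by
    have : (-s).re = (-s - 1).re + 1 := by
      rw [Complex.sub_re, Complex.one_re]; ring
    rw [this, Real.rpow_add hcu, Real.rpow_one]
  unfold m3_F'
  rw [norm_mul, norm_mul, Complex.norm_cpow_eq_rpow_re_of_pos hcu, ← hpow]
  calc ‖cexp (ν * u)‖ * _ ≤ ‖cexp (ν * u)‖ * (
      ‖s‖ * (c ^ (-s - 1).re * Real.cosh u ^ (-s - 1).re * E) * ((K₁ + K₂) * Real.cosh u) +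
      ‖s‖ * (c ^ (-s - 1).re * Real.cosh u ^ (-s - 1).re * E) * ((K₁ + K₂) * Real.cosh u)) := by
        apply mul_le_mul_of_nonneg_left _ (norm_nonneg _)
        refine (norm_add_le _ _).trans (add_le_add t1 ?_)
        rw [norm_mul]
        refine le_trans (le_of_eq ?_) t2
        rw [Complex.norm_real, norm_neg, norm_one, one_mul]
    _ = _ := by ring

theorem Gs_half_neg_pr (hν : GoodNu ν) {s : ℂ} (hs : ν.re < s.re) :
    HasDerivAt (fun θ : ℂ => Gs ν (-1) s θ)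
      (-I * ((2 * Real.pi : ℝ) : ℂ) ^ (1 / 2 - s) * (2 : ℂ) ^ s *
        Gamma ((s + 1 + ν) / 2) * Gamma ((s + 1 - ν) / 2)) ((Real.pi / 2 : ℝ) : ℂ) := by
  have hs0 : 0 < s.re := lt_of_le_of_lt hν.nonneg hs
  have hG : Gamma s ≠ 0 := Complex.Gamma_ne_zero_of_re_pos hs0
  have hsne : s ≠ 0 := by
    intro h; rw [h, Complex.zero_re] at hs0; exact lt_irrefl _ hs0
  have hpi := Real.pi_pos
  have hsin : Complex.sin ((Real.pi / 2 : ℝ) : ℂ) = 1 := by
    rw [← Complex.ofReal_sin, Real.sin_pi_div_two, Complex.ofReal_one]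
  have hcos : Complex.cos ((Real.pi / 2 : ℝ) : ℂ) = 0 := by
    rw [← Complex.ofReal_cos, Real.cos_pi_div_two, Complex.ofReal_zero]
  have hre : ((Real.pi / 2 : ℝ) : ℂ).re = Real.pi / 2 := Complex.ofReal_re _
  obtain ⟨K, hK⟩ := m3_bound ν hs0
  have hint := (cosh_int (m3_nu_lt hν hs)).1
  have hF0 : Integrable (m3_F ν s ((Real.pi / 2 : ℝ) : ℂ)) :=
    Gs_int (ε := -1) hν hs (by rw [hre]; positivity) (by rw [hre]; linarith)
  have hD := (hasDerivAt_integral_of_dominated_loc_of_deriv_le (μ := (volume : Measure ℝ))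
    (F := fun (θ : ℂ) (u : ℝ) => m3_F ν s θ u) (F' := fun (θ : ℂ) (u : ℝ) => m3_F' ν s θ u)
    (x₀ := ((Real.pi / 2 : ℝ) : ℂ)) (s := Metric.ball ((Real.pi / 2 : ℝ) : ℂ) 1)
    (bound := fun u : ℝ => K * ‖cexp (ν * u) * ((Real.cosh u : ℝ) : ℂ) ^ (-s)‖)
    (Metric.ball_mem_nhds _ one_pos)
    (Eventually.of_forall fun θ => (m3_meas_F ν s θ).aestronglyMeasurable) hF0
    (m3_meas_F' ν s _).aestronglyMeasurable
    (Eventually.of_forall fun u θ hθ => hK θ hθ u) (hint.norm.const_mul K)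
    (Eventually.of_forall fun u θ hθ => by
      have hn : ‖θ - ((Real.pi / 2 : ℝ) : ℂ)‖ < 1 := by
        rw [← dist_eq_norm]; exact Metric.mem_ball.1 hθ
      have h3 := Complex.abs_re_le_norm (θ - ((Real.pi / 2 : ℝ) : ℂ))
      rw [Complex.sub_re, Complex.ofReal_re] at h3
      have h4 := abs_le.1 (h3.trans hn.le)
      have hpi3 := Real.pi_gt_three
      exact m3_hasDeriv ν s (by linarith [h4.1]) (by linarith [h4.2]) u)).2
  have hI' : ∫ u : ℝ, m3_F' ν s ((Real.pi / 2 : ℝ) : ℂ) u =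
      -2 * s * I * ((2 : ℂ) ^ s * Gamma ((s + 1 + ν) / 2) * Gamma ((s + 1 - ν) / 2) /
        (s * Gamma s)) := by
    have h1 := (cosh_int (μ := ν) (s := s + 1) (by
      rw [abs_of_nonneg hν.nonneg, Complex.add_re, Complex.one_re]; linarith)).2
    have h2 : (fun u : ℝ => m3_F' ν s ((Real.pi / 2 : ℝ) : ℂ) u) =
        fun u : ℝ => (-2 * s * I) * (cexp (ν * u) * ((Real.cosh u : ℝ) : ℂ) ^ (-(s + 1))) := by
      funext u
      unfold m3_F'
      rw [hsin, hcos]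
      rw [mul_zero, sub_zero, add_zero, one_mul, zero_mul, zero_add, zero_sub, mul_one,
        neg_add, ← sub_eq_add_neg]
      push_cast
      ring
    rw [h2, integral_const_mul, h1, add_sub_cancel_right, Complex.Gamma_add_one s hsne]
  have hsq : HasDerivAt (fun θ : ℂ => Complex.sin θ ^ (1 / 2 : ℂ)) 0
      ((Real.pi / 2 : ℝ) : ℂ) := by
    have h1 := (Complex.hasDerivAt_sin ((Real.pi / 2 : ℝ) : ℂ)).cpow_const (c := (1 / 2 : ℂ))
      (by rw [hsin]; exact Or.inl (by norm_num))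
    refine h1.congr_deriv ?_
    rw [hcos, mul_zero]
  have hfin := ((hsq.const_mul (((2 * Real.pi : ℝ) : ℂ) ^ (1 / 2 - s) * Gamma s)).mul_const
    (1 / 2 : ℂ)).mul hD
  have e : (fun θ : ℂ => Gs ν (-1) s θ) = (fun θ : ℂ => ((2 * Real.pi : ℝ) : ℂ) ^ (1 / 2 - s) *
      Gamma s * Complex.sin θ ^ (1 / 2 : ℂ) * (1 / 2)) * (fun θ : ℂ => ∫ u : ℝ, m3_F ν s θ u) := by
    funext θ
    rfl
  rw [e]
  refine hfin.congr_deriv ?_
  rw [hI', hsin, Complex.one_cpow]
  field_simp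
  ring

theorem Gs_symm_pr (hν : GoodNu ν) (hε : ε = 1 ∨ ε = -1) {s θ : ℂ} (hs : ν.re < s.re)
    (h0 : 0 < θ.re) (h1 : θ.re < Real.pi) : Gs ν ε s (Real.pi - θ) = ε * Gs ν ε s θ ∧
      conj (Gs ν ε s θ) = ε * Gs ν ε (conj s) (conj θ) :=
  ⟨m3_symm1 hε s θ, m3_symm2 hν hε h0 h1⟩

end

end Pool.Agent.JO.FM

namespace Pool.Agent.JO.FM

theorem Gs_half_one : type_of% @Gs_half_one_pr := @Gs_half_one_pr
theorem Gs_half_neg : type_of% @Gs_half_neg_pr := @Gs_half_neg_pr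
theorem Gs_symm : type_of% @Gs_symm_pr := @Gs_symm_pr

end Pool.Agent.JO.FM
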