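import Pool.Agent.Lib_helper45.JO.Defs2
import Pool.Agent.Lib_helper45.JOM.K4

/-!
# Project JO, part FM: block P1, the exact formula in `v = tan θ`
-/

set_option autoImplicit false

namespace Pool.Agent.JO.FM

open Complex Filter Topology MeasureTheory Set
open UpperHalfPlane hiding I
open scoped MatrixGroups ComplexConjugate

section

variable {ν : ℂ} {ε : ℝ} {a : ℕ → ℂ} {f : ℍ → ℂ} {L : ℂ → ℂ}

theorem p1_cpow {c : ℝ} (hc : 0 < c) {w : ℂ} (hw : w ≠ 0) (s : ℂ) :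
    ((c : ℂ) * w) ^ s = (c : ℂ) ^ s * w ^ s := by
  have hc' : (c : ℂ) ≠ 0 := by exact_mod_cast hc.ne'
  rw [cpow_def_of_ne_zero (mul_ne_zero hc' hw), cpow_def_of_ne_zero hc', cpow_def_of_ne_zero hw,
    ← Complex.exp_add]
  congr 1
  rw [Complex.log_ofReal_mul hc hw, Complex.ofReal_log hc.le]
  ring

/-- P1: the exact formula, `v = tan θ` -/
theorem Gs_tan_pr (hν : GoodNu ν) (hε : ε = 1 ∨ ε = -1) {τ θ : ℝ} (hθ : θ ∈ Ioo 0 (Real.pi / 2)) :
    ‖Gs ν ε (ha τ) θ‖ ^ 2 = Real.pi / Real.cosh (Real.pi * τ) * Real.tan θ *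
      ‖(1 / 2) * ∫ u : ℝ, cexp (ν * u) *
        (((Real.tan θ * Real.cosh u : ℝ) - I) ^ (-ha τ) +
          ε * ((Real.tan θ * Real.cosh u : ℝ) + I) ^ (-ha τ))‖ ^ 2 := by
  have hs : 0 < Real.sin θ := Real.sin_pos_of_pos_of_lt_pi hθ.1 (by linarith [hθ.2, Real.pi_pos])
  have hc : 0 < Real.cos θ := Real.cos_pos_of_mem_Ioo ⟨by linarith [hθ.1, Real.pi_pos], hθ.2⟩
  have hre : (ha τ).re = 1 / 2 := by simp [ha]
  have e1 : ∀ u : ℝ, cexp (ν * u) *
      ((Complex.sin θ * (Real.cosh u : ℝ) - I * Complex.cos θ) ^ (-ha τ) +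
        ε * (Complex.sin θ * (Real.cosh u : ℝ) + I * Complex.cos θ) ^ (-ha τ)) =
      ((Real.cos θ : ℝ) : ℂ) ^ (-ha τ) * (cexp (ν * u) *
        (((Real.tan θ * Real.cosh u : ℝ) - I) ^ (-ha τ) +
          ε * ((Real.tan θ * Real.cosh u : ℝ) + I) ^ (-ha τ))) := by
    intro u
    have f1 : Complex.sin θ * (Real.cosh u : ℝ) - I * Complex.cos θ =
        ((Real.cos θ : ℝ) : ℂ) * ((Real.tan θ * Real.cosh u : ℝ) - I) := by
      rw [Real.tan_eq_sin_div_cos]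
      have hc' : Complex.cos θ ≠ 0 := by
        rw [← Complex.ofReal_cos]
        exact_mod_cast hc.ne'
      push_cast
      field_simp
    have f2 : Complex.sin θ * (Real.cosh u : ℝ) + I * Complex.cos θ =
        ((Real.cos θ : ℝ) : ℂ) * ((Real.tan θ * Real.cosh u : ℝ) + I) := by
      rw [Real.tan_eq_sin_div_cos]
      have hc' : Complex.cos θ ≠ 0 := by
        rw [← Complex.ofReal_cos]
        exact_mod_cast hc.ne'
      push_cast
      field_simp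
    have n1 : (((Real.tan θ * Real.cosh u : ℝ) : ℂ) - I) ≠ 0 := by
      intro h
      have := congrArg Complex.im h
      simp at this
    have n2 : (((Real.tan θ * Real.cosh u : ℝ) : ℂ) + I) ≠ 0 := by
      intro h
      have := congrArg Complex.im h
      simp at this
    rw [f1, f2, p1_cpow hc n1, p1_cpow hc n2]
    ring
  unfold Gs
  simp_rw [e1]
  rw [integral_const_mul]
  have g1 : ‖((2 * Real.pi : ℝ) : ℂ) ^ (1 / 2 - ha τ)‖ = 1 := by
    rw [norm_cpow_eq_rpow_re_of_pos (by positivity)]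
    have : (1 / 2 - ha τ).re = 0 := by simp [ha]
    rw [this, Real.rpow_zero]
  have g2 : ‖Gamma (ha τ)‖ ^ 2 = Real.pi / Real.cosh (Real.pi * τ) := Gamma_half_sq τ
  have g3 : ‖Complex.sin θ ^ (1 / 2 : ℂ)‖ ^ 2 = Real.sin θ := by
    rw [← Complex.ofReal_sin, norm_cpow_eq_rpow_re_of_pos hs]
    have : ((1 / 2 : ℂ)).re = 1 / 2 := by simp
    rw [this, ← Real.sqrt_eq_rpow, Real.sq_sqrt hs.le]
  have g4 : ‖((Real.cos θ : ℝ) : ℂ) ^ (-ha τ)‖ ^ 2 = (Real.cos θ)⁻¹ := by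
    rw [norm_cpow_eq_rpow_re_of_pos hc, neg_re, hre, Real.rpow_neg hc.le, ← Real.sqrt_eq_rpow,
      inv_pow, Real.sq_sqrt hc.le]
  simp only [norm_mul, mul_pow]
  rw [g1, g2, g3, g4, Real.tan_eq_sin_div_cos]
  ring

end

end Pool.Agent.JO.FM

namespace Pool.Agent.JO.FM

theorem Gs_tan : type_of% @Gs_tan_pr := @Gs_tan_pr

end Pool.Agent.JO.FM
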