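import Pool.Agent.Lib_helper45.JO.Defs2
import Pool.Agent.Lib_helper45.JOM.K4
import Pool.Agent.Lib_helper45.JOM.KKA
import Pool.Agent.Lib_helper45.JOM.P1
import Pool.Agent.Lib_helper45.JOM.P2

/-!
# JO part FM, block P3: the asymptotics for `Re ν < 1/8`
-/

set_option autoImplicit false

namespace Pool.Agent.JO.FM

open Complex Filter Topology MeasureTheory Set
open UpperHalfPlane hiding I
open scoped MatrixGroups ComplexConjugate

/-! ## Algebra -/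

theorem p3_cpow_I_mul {w : ℂ} (hw : 0 < w.re) (s : ℂ) : (I * w) ^ s = I ^ s * w ^ s := by
  have hw0 : w ≠ 0 := by
    intro h
    rw [h] at hw
    simp at hw
  have ha : |arg w| < Real.pi / 2 := Complex.abs_arg_lt_pi_div_two_iff.2 (Or.inl hw)
  rw [abs_lt] at ha
  have hl : Complex.log (I * w) = Complex.log I + Complex.log w := by
    rw [Complex.log_mul_eq_add_log_iff I_ne_zero hw0, Complex.arg_I]
    constructor
    · linarith [Real.pi_pos]
    · linarith [Real.pi_pos]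
  rw [Complex.cpow_def_of_ne_zero (mul_ne_zero I_ne_zero hw0),
    Complex.cpow_def_of_ne_zero I_ne_zero, Complex.cpow_def_of_ne_zero hw0, hl, add_mul,
    Complex.exp_add]

theorem p3_cpow_negI_mul {w : ℂ} (hw : 0 < w.re) (s : ℂ) :
    (-I * w) ^ s = (-I) ^ s * w ^ s := by
  have hw0 : w ≠ 0 := by
    intro h
    rw [h] at hw
    simp at hw
  have hI : (-I : ℂ) ≠ 0 := neg_ne_zero.2 I_ne_zero
  have ha : |arg w| < Real.pi / 2 := Complex.abs_arg_lt_pi_div_two_iff.2 (Or.inl hw)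
  rw [abs_lt] at ha
  have hl : Complex.log (-I * w) = Complex.log (-I) + Complex.log w := by
    rw [Complex.log_mul_eq_add_log_iff hI hw0, Complex.arg_neg_I]
    constructor
    · linarith [Real.pi_pos]
    · linarith [Real.pi_pos]
  rw [Complex.cpow_def_of_ne_zero (mul_ne_zero hI hw0),
    Complex.cpow_def_of_ne_zero hI, Complex.cpow_def_of_ne_zero hw0, hl, add_mul,
    Complex.exp_add]

/-- the small coefficient -/
noncomputable def p3κ (ε τ : ℝ) : ℂ := ε * I * ((Real.exp (-(Real.pi * τ)) : ℝ) : ℂ)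

theorem p3κ_norm {ε : ℝ} (hε : ε = 1 ∨ ε = -1) (τ : ℝ) :
    ‖p3κ ε τ‖ = Real.exp (-(Real.pi * τ)) := by
  unfold p3κ
  rw [norm_mul, norm_mul, Complex.norm_I, Complex.norm_real, Complex.norm_real,
    Real.norm_eq_abs, Real.norm_eq_abs, Real.abs_exp]
  rcases hε with h | h <;> rw [h] <;> simp

/-- the second function -/
noncomputable def p3g (τ X : ℝ) : ℂ := (1 + I * ((X / τ : ℝ) : ℂ)) ^ (-ha τ)

/-- the function under the integral -/
noncomputable def p3h (ε τ X : ℝ) : ℂ := hs τ X + p3κ ε τ * p3g τ X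

theorem p3_Ipow (τ : ℝ) : (I : ℂ) ^ (-ha τ) =
    cexp (((-(Real.pi / 4) : ℝ) : ℂ) * I) * ((Real.exp (Real.pi * τ / 2) : ℝ) : ℂ) := by
  rw [Complex.cpow_def_of_ne_zero I_ne_zero, Complex.log_I, Complex.ofReal_exp,
    ← Complex.exp_add]
  congr 1
  unfold ha
  push_cast
  ring_nf
  rw [Complex.I_sq]
  ring

theorem p3_negIpow (τ : ℝ) : (-I : ℂ) ^ (-ha τ) =
    cexp (((Real.pi / 4 : ℝ) : ℂ) * I) * ((Real.exp (-(Real.pi * τ / 2)) : ℝ) : ℂ) := by
  rw [Complex.cpow_def_of_ne_zero (neg_ne_zero.2 I_ne_zero), Complex.log_neg_I,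
    Complex.ofReal_exp, ← Complex.exp_add]
  congr 1
  unfold ha
  push_cast
  ring_nf
  rw [Complex.I_sq]
  ring

theorem p3_Ipow_rel (τ : ℝ) : (-I : ℂ) ^ (-ha τ) =
    I * ((Real.exp (-(Real.pi * τ)) : ℝ) : ℂ) * I ^ (-ha τ) := by
  rw [p3_Ipow, p3_negIpow]
  have h1 : cexp (((Real.pi / 4 : ℝ) : ℂ) * I) =
      I * cexp (((-(Real.pi / 4) : ℝ) : ℂ) * I) := by
    have h2 : I = cexp (((Real.pi / 2 : ℝ) : ℂ) * I) := by
      push_cast
      exact Complex.exp_pi_div_two_mul_I.symm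
    nth_rewrite 2 [h2]
    rw [← Complex.exp_add]
    congr 1
    push_cast
    ring
  have h3 : Real.exp (-(Real.pi * τ / 2)) =
      Real.exp (-(Real.pi * τ)) * Real.exp (Real.pi * τ / 2) := by
    rw [← Real.exp_add]
    congr 1
    ring
  rw [h1, h3]
  push_cast
  ring

theorem p3_Ipow_norm (τ : ℝ) : ‖(I : ℂ) ^ (-ha τ)‖ = Real.exp (Real.pi * τ / 2) := by
  rw [p3_Ipow, norm_mul, Complex.norm_exp_ofReal_mul_I, one_mul, Complex.norm_real,
    Real.norm_eq_abs, Real.abs_exp]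

/-- the integrand of `Gs_tan` -/
theorem p3_sum {ε : ℝ} (hε : ε = 1 ∨ ε = -1) {τ : ℝ} (hτ : 0 < τ) (w X : ℝ) (h : X = τ * w) :
    ((w : ℂ) - I) ^ (-ha τ) + ε * ((w : ℂ) + I) ^ (-ha τ) =
      (ε * I ^ (-ha τ)) * p3h ε τ X := by
  have hw : X / τ = w := by rw [h]; field_simp
  unfold p3h p3g hs
  rw [hw]
  have h1 : (w : ℂ) - I = -I * (1 + I * w) := by
    have := Complex.I_mul_I
    linear_combination w * this
  have h2 : (w : ℂ) + I = I * (1 - I * w) := by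
    have := Complex.I_mul_I
    linear_combination w * this
  rw [h1, h2, p3_cpow_I_mul (by simp), p3_cpow_negI_mul (by simp), p3_Ipow_rel]
  unfold p3κ
  have hε2 : (ε : ℂ) * ε = 1 := by
    rcases hε with h | h <;> rw [h] <;> simp
  linear_combination (-(I * ((Real.exp (-(Real.pi * τ)) : ℝ) : ℂ) * I ^ (-ha τ) *
    (1 + I * (w : ℂ)) ^ (-ha τ))) * hε2

/-- the function `G` -/
noncomputable def p3G (ν : ℂ) (ε τ x : ℝ) : ℂ :=
  (1 / 2) * ∫ u : ℝ, cexp (ν * u) * p3h ε τ (x * Real.cosh u)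

theorem p3_main {ν : ℂ} (hν : GoodNu ν) {ε : ℝ} (hε : ε = 1 ∨ ε = -1) {τ θ : ℝ} (hτ : 0 < τ)
    (hθ : θ ∈ Ioo 0 (Real.pi / 2)) :
    ‖Gs ν ε (ha τ) θ‖ ^ 2 = 2 * Real.pi / τ * (1 + Real.exp (-(2 * Real.pi * τ)))⁻¹ *
      (τ * Real.tan θ) * ‖p3G ν ε τ (τ * Real.tan θ)‖ ^ 2 := by
  rw [Gs_tan hν hε hθ]
  have h1 : ∀ u : ℝ, cexp (ν * u) * (((Real.tan θ * Real.cosh u : ℝ) - I) ^ (-ha τ) +
      ε * ((Real.tan θ * Real.cosh u : ℝ) + I) ^ (-ha τ)) =
      (ε * I ^ (-ha τ)) * (cexp (ν * u) * p3h ε τ (τ * Real.tan θ * Real.cosh u)) := by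
    intro u
    rw [p3_sum hε hτ (Real.tan θ * Real.cosh u) (τ * Real.tan θ * Real.cosh u) (by ring)]
    ring
  simp only [h1]
  rw [integral_const_mul]
  unfold p3G
  rw [norm_mul, norm_mul, norm_mul, norm_mul, p3_Ipow_norm, mul_pow, mul_pow, mul_pow]
  have h2 : ‖(ε : ℂ)‖ = 1 := by
    rcases hε with h | h <;> rw [h] <;> simp
  rw [h2]
  have h3 : Real.cosh (Real.pi * τ) = Real.exp (Real.pi * τ) *
      (1 + Real.exp (-(2 * Real.pi * τ))) / 2 := by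
    rw [Real.cosh_eq, mul_add, mul_one, ← Real.exp_add]
    congr 3
    ring
  have h4 : Real.exp (Real.pi * τ / 2) ^ 2 = Real.exp (Real.pi * τ) := by
    rw [← Real.exp_nat_mul]
    congr 1
    push_cast
    ring
  rw [h3, h4]
  have h5 := Real.exp_pos (Real.pi * τ)
  have h6 : 0 < 1 + Real.exp (-(2 * Real.pi * τ)) := by positivity
  field_simp

/-! ## Continuity and derivatives -/

theorem p3_re_pos (y : ℝ) : 0 < (1 - I * (y : ℂ)).re := by simp

theorem p3_re_pos' (y : ℝ) : 0 < (1 + I * (y : ℂ)).re := by simp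

/-- the derivative of `hs` -/
theorem p3_hs_deriv (τ X : ℝ) : HasDerivAt (hs τ)
    ((-ha τ) * (1 - I * ((X / τ : ℝ) : ℂ)) ^ (-ha τ - 1) * (-(I * ((1 / τ : ℝ) : ℂ)))) X := by
  have h1 : HasDerivAt (fun X : ℝ => ((X / τ : ℝ) : ℂ)) ((1 / τ : ℝ) : ℂ) X := by
    have := ((hasDerivAt_id X).div_const τ).ofReal_comp
    simpa using this
  have h2 : HasDerivAt (fun X : ℝ => 1 - I * ((X / τ : ℝ) : ℂ)) (-(I * ((1 / τ : ℝ) : ℂ))) X :=
    (h1.const_mul I).const_sub 1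
  have h3 : HasDerivAt (fun w : ℂ => w ^ (-ha τ))
      ((-ha τ) * (1 - I * ((X / τ : ℝ) : ℂ)) ^ (-ha τ - 1)) (1 - I * ((X / τ : ℝ) : ℂ)) := by
    simpa using (hasDerivAt_id (1 - I * ((X / τ : ℝ) : ℂ))).cpow_const (c := -ha τ)
      (Or.inl (p3_re_pos _))
  exact h3.comp X h2

theorem p3_g_deriv (τ X : ℝ) : HasDerivAt (p3g τ)
    ((-ha τ) * (1 + I * ((X / τ : ℝ) : ℂ)) ^ (-ha τ - 1) * (I * ((1 / τ : ℝ) : ℂ))) X := by
  have h1 : HasDerivAt (fun X : ℝ => ((X / τ : ℝ) : ℂ)) ((1 / τ : ℝ) : ℂ) X := by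
    have := ((hasDerivAt_id X).div_const τ).ofReal_comp
    simpa using this
  have h2 : HasDerivAt (fun X : ℝ => 1 + I * ((X / τ : ℝ) : ℂ)) (I * ((1 / τ : ℝ) : ℂ)) X :=
    (h1.const_mul I).const_add 1
  have h3 : HasDerivAt (fun w : ℂ => w ^ (-ha τ))
      ((-ha τ) * (1 + I * ((X / τ : ℝ) : ℂ)) ^ (-ha τ - 1)) (1 + I * ((X / τ : ℝ) : ℂ)) := by
    simpa using (hasDerivAt_id (1 + I * ((X / τ : ℝ) : ℂ))).cpow_const (c := -ha τ)
      (Or.inl (p3_re_pos' _))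
  exact h3.comp X h2

theorem p3_hs_cont (τ : ℝ) : Continuous (hs τ) :=
  continuous_iff_continuousAt.2 fun X => (p3_hs_deriv τ X).continuousAt

theorem p3_g_cont (τ : ℝ) : Continuous (p3g τ) :=
  continuous_iff_continuousAt.2 fun X => (p3_g_deriv τ X).continuousAt

theorem p3_h_cont (ε τ : ℝ) : Continuous (p3h ε τ) :=
  (p3_hs_cont τ).add ((p3_g_cont τ).const_mul _)

/-! ## The basic estimate -/

theorem p3_arctan_le (y : ℝ) : Real.arctan y ≤ Real.pi / 2 := (Real.arctan_lt_pi_div_two y).le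

theorem p3_g_norm {τ X : ℝ} (hτ : 0 < τ) (hX : 0 ≤ X) :
    Real.exp (-(Real.pi * τ)) * ‖p3g τ X‖ ≤
      Real.exp (-(Real.pi * τ / 2)) * (1 + (X / τ) ^ 2) ^ (-(1 / 4) : ℝ) := by
  unfold p3g
  rw [(hs_norm hτ hX).2]
  have h1 : 0 ≤ (1 + (X / τ) ^ 2) ^ (-(1 / 4) : ℝ) := by positivity
  have h2 : Real.exp (-(Real.pi * τ)) * Real.exp (τ * Real.arctan (X / τ)) ≤
      Real.exp (-(Real.pi * τ / 2)) := by
    rw [← Real.exp_add]
    refine Real.exp_le_exp.2 ?_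
    have := mul_le_mul_of_nonneg_left (p3_arctan_le (X / τ)) hτ.le
    linarith
  calc Real.exp (-(Real.pi * τ)) * ((1 + (X / τ) ^ 2) ^ (-(1 / 4) : ℝ) *
        Real.exp (τ * Real.arctan (X / τ))) =
      (Real.exp (-(Real.pi * τ)) * Real.exp (τ * Real.arctan (X / τ))) *
        (1 + (X / τ) ^ 2) ^ (-(1 / 4) : ℝ) := by ring
    _ ≤ _ := mul_le_mul_of_nonneg_right h2 h1

theorem p3_hs_big {τ X : ℝ} (hτ : 0 < τ) (hX : τ ≤ X) :
    ‖hs τ X‖ ≤ Real.exp (-(Real.pi * τ / 4)) * (1 + (X / τ) ^ 2) ^ (-(1 / 4) : ℝ) := by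
  have hX0 : 0 ≤ X := hτ.le.trans hX
  rw [(hs_norm hτ hX0).1, mul_comm]
  refine mul_le_mul_of_nonneg_right ?_ (by positivity)
  refine Real.exp_le_exp.2 ?_
  have h1 : Real.pi / 4 ≤ Real.arctan (X / τ) := by
    rw [← Real.arctan_one]
    exact Real.arctan_strictMono.monotone ((one_le_div hτ).2 hX)
  have := mul_le_mul_of_nonneg_left h1 hτ.le
  linarith

theorem p3_exp_small {τ : ℝ} (hτ : 0 < τ) : Real.exp (-(τ / 2)) ≤ 2 / τ := by
  rw [Real.exp_neg, inv_eq_one_div, div_le_div_iff₀ (Real.exp_pos _) hτ]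
  have := Real.add_one_le_exp (τ / 2)
  linarith

/-- the basic estimate -/
theorem p3_U : ∃ C : ℝ, 0 ≤ C ∧ ∀ ε τ X : ℝ, (ε = 1 ∨ ε = -1) → 1 ≤ τ → 0 ≤ X →
    ‖p3h ε τ X - Real.exp (-X)‖ ≤ C / τ * Real.exp (-(X / 2)) +
      2 * Real.exp (-(Real.pi * τ / 4)) * (1 + (X / τ) ^ 2) ^ (-(1 / 4) : ℝ) := by
  obtain ⟨C, hC⟩ := hs_near
  refine ⟨max C 2, le_trans (by norm_num) (le_max_right _ _), fun ε τ X hε hτ hX => ?_⟩
  have hτ0 : 0 < τ := by linarith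
  have hπ := Real.pi_pos
  have hk : ‖p3κ ε τ * p3g τ X‖ ≤
      Real.exp (-(Real.pi * τ / 4)) * (1 + (X / τ) ^ 2) ^ (-(1 / 4) : ℝ) := by
    rw [norm_mul, p3κ_norm hε]
    refine (p3_g_norm hτ0 hX).trans (mul_le_mul_of_nonneg_right ?_ (by positivity))
    refine Real.exp_le_exp.2 ?_
    nlinarith [mul_pos hπ hτ0]
  have hp : 0 ≤ (1 + (X / τ) ^ 2) ^ (-(1 / 4) : ℝ) := by positivity
  have hsplit : p3h ε τ X - Real.exp (-X) = (hs τ X - Real.exp (-X)) + p3κ ε τ * p3g τ X := by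
    unfold p3h
    ring
  rw [hsplit]
  refine (norm_add_le _ _).trans ?_
  rcases le_total X τ with h | h
  · have h1 := (hC τ X hτ hX h).1
    have h2 : C / τ * Real.exp (-(X / 2)) ≤ max C 2 / τ * Real.exp (-(X / 2)) := by
      refine mul_le_mul_of_nonneg_right ?_ (Real.exp_pos _).le
      exact div_le_div_of_nonneg_right (le_max_left _ _) hτ0.le
    have h3 : 0 ≤ Real.exp (-(Real.pi * τ / 4)) * (1 + (X / τ) ^ 2) ^ (-(1 / 4) : ℝ) := by
      positivity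
    linarith
  · have h1 := p3_hs_big hτ0 h
    have h2 : ‖((Real.exp (-X) : ℝ) : ℂ)‖ ≤ max C 2 / τ * Real.exp (-(X / 2)) := by
      rw [Complex.norm_real, Real.norm_eq_abs, Real.abs_exp]
      have h4 : Real.exp (-X) = Real.exp (-(X / 2)) * Real.exp (-(X / 2)) := by
        rw [← Real.exp_add]
        congr 1
        ring
      have h5 : Real.exp (-(X / 2)) ≤ max C 2 / τ := by
        refine (Real.exp_le_exp.2 (by linarith : -(X / 2) ≤ -(τ / 2))).trans ?_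
        refine (p3_exp_small hτ0).trans ?_
        exact div_le_div_of_nonneg_right (le_max_right _ _) hτ0.le
      rw [h4]
      exact mul_le_mul_of_nonneg_right h5 (Real.exp_pos _).le
    have h3 := norm_sub_le (hs τ X) ((Real.exp (-X) : ℝ) : ℂ)
    linarith

/-! ## The integrals of the majorants -/

theorem p3_KK_real (ρ : ℝ) {x : ℝ} (hx : 0 < x) :
    Integrable (fun u : ℝ => Real.exp (ρ * u) * Real.exp (-(x * Real.cosh u))) ∧
    ∫ u : ℝ, Real.exp (ρ * u) * Real.exp (-(x * Real.cosh u)) = 2 * ‖KK (ρ : ℂ) x‖ := by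
  have h1 : ∀ u : ℝ, cexp (-(x : ℂ) * (Real.cosh u : ℝ) + (ρ : ℂ) * u) =
      ((Real.exp (ρ * u) * Real.exp (-(x * Real.cosh u)) : ℝ) : ℂ) := by
    intro u
    rw [← Real.exp_add, Complex.ofReal_exp]
    congr 1
    push_cast
    ring
  have hI := KK_int (ρ : ℂ) hx
  simp only [h1] at hI
  have hI2 : Integrable (fun u : ℝ => Real.exp (ρ * u) * Real.exp (-(x * Real.cosh u))) := by
    refine hI.norm.congr (Eventually.of_forall fun u => ?_)
    simp only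
    rw [Complex.norm_real, Real.norm_of_nonneg (by positivity)]
  refine ⟨hI2, ?_⟩
  unfold KK
  simp only [h1]
  rw [integral_complex_ofReal, norm_mul, Complex.norm_real, Real.norm_of_nonneg]
  · norm_num
    ring
  · exact integral_nonneg fun u => by positivity

theorem p3_V1 {ρ b : ℝ} (hρ : 0 ≤ ρ) (hb : ρ < b) : ∃ C : ℝ, 0 ≤ C ∧ ∀ x : ℝ, 0 < x →
    ∫ u : ℝ, Real.exp (ρ * u) * Real.exp (-(x * Real.cosh u / 2)) ≤
      C * x ^ (-b) * Real.exp (-(x / 4)) := by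
  obtain ⟨C, hC⟩ := KK_bound (ρ : ℂ) (b := b) (by simpa [abs_of_nonneg hρ] using hb)
  have hC0 : 0 ≤ C := by
    have h := hC 1 one_pos
    have h2 := (norm_nonneg _).trans h
    rw [Real.one_rpow, mul_one] at h2
    exact nonneg_of_mul_nonneg_left h2 (Real.exp_pos _)
  refine ⟨2 * (C * (1 / 2) ^ (-b)), by positivity, fun x hx => ?_⟩
  have hx2 : 0 < x / 2 := by positivity
  have h1 := (p3_KK_real ρ hx2).2
  have h2 : (fun u : ℝ => Real.exp (ρ * u) * Real.exp (-(x * Real.cosh u / 2))) =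
      fun u : ℝ => Real.exp (ρ * u) * Real.exp (-(x / 2 * Real.cosh u)) := by
    funext u
    congr 3
    ring
  rw [h2, h1]
  have h3 := hC (x / 2) hx2
  have h4 : (x / 2) ^ (-b) = (1 / 2) ^ (-b) * x ^ (-b) := by
    rw [show x / 2 = 1 / 2 * x by ring, Real.mul_rpow (by norm_num) hx.le]
  have h5 : x / 2 / 2 = x / 4 := by ring
  rw [h4, h5] at h3
  calc 2 * ‖KK (ρ : ℂ) (x / 2)‖ ≤ 2 * (C * ((1 / 2) ^ (-b) * x ^ (-b)) *
        Real.exp (-(x / 4))) := by linarith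
    _ = _ := by ring

theorem p3_V2i {ρ b : ℝ} (hρ : 0 ≤ ρ) (hb : ρ < b) :
    Integrable (fun u : ℝ => Real.exp (ρ * u) * Real.cosh u ^ (-b)) := by
  have h := (cosh_int (μ := (ρ : ℂ)) (s := (b : ℂ)) (by simpa [abs_of_nonneg hρ] using hb)).1
  have h2 := h.norm
  refine h2.congr (Eventually.of_forall fun u => ?_)
  simp only
  rw [norm_mul, Complex.norm_exp, Complex.norm_cpow_eq_rpow_re_of_pos (Real.cosh_pos u)]
  simp

theorem p3_pow_le {y b : ℝ} (hy : 0 < y) (hb0 : 0 ≤ b) (hb : b ≤ 1 / 2) :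
    (1 + y ^ 2) ^ (-(1 / 4) : ℝ) ≤ y ^ (-b) := by
  rw [Real.rpow_neg (by positivity), Real.rpow_neg hy.le]
  refine inv_anti₀ (Real.rpow_pos_of_pos hy _) ?_
  rcases le_total y 1 with h | h
  · calc y ^ b ≤ 1 := Real.rpow_le_one hy.le h hb0
      _ ≤ (1 + y ^ 2) ^ (1 / 4 : ℝ) := Real.one_le_rpow (by nlinarith) (by norm_num)
  · calc y ^ b ≤ y ^ (1 / 2 : ℝ) := Real.rpow_le_rpow_of_exponent_le h hb
      _ = (y ^ 2) ^ (1 / 4 : ℝ) := by
          rw [← Real.rpow_natCast, ← Real.rpow_mul hy.le]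
          norm_num
      _ ≤ (1 + y ^ 2) ^ (1 / 4 : ℝ) := Real.rpow_le_rpow (by positivity) (by linarith)
          (by norm_num)

theorem p3_V2 {ρ b : ℝ} (hρ : 0 ≤ ρ) (hb : ρ < b) (hb2 : b ≤ 1 / 2) : ∃ C : ℝ, 0 ≤ C ∧
    ∀ x τ : ℝ, 0 < x → 0 < τ →
      Integrable (fun u : ℝ => Real.exp (ρ * u) *
        (1 + (x * Real.cosh u / τ) ^ 2) ^ (-(1 / 4) : ℝ)) ∧
      ∫ u : ℝ, Real.exp (ρ * u) * (1 + (x * Real.cosh u / τ) ^ 2) ^ (-(1 / 4) : ℝ) ≤
        C * (x / τ) ^ (-b) := by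
  have hI := p3_V2i hρ hb
  refine ⟨∫ u : ℝ, Real.exp (ρ * u) * Real.cosh u ^ (-b), integral_nonneg fun u => by
    have := Real.cosh_pos u
    positivity, fun x τ hx hτ => ?_⟩
  have hle : ∀ u : ℝ, Real.exp (ρ * u) * (1 + (x * Real.cosh u / τ) ^ 2) ^ (-(1 / 4) : ℝ) ≤
      (x / τ) ^ (-b) * (Real.exp (ρ * u) * Real.cosh u ^ (-b)) := by
    intro u
    have hc := Real.cosh_pos u
    have h1 := p3_pow_le (y := x * Real.cosh u / τ) (b := b) (by positivity) (by linarith) hb2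
    have h2 : (x * Real.cosh u / τ) ^ (-b) = (x / τ) ^ (-b) * Real.cosh u ^ (-b) := by
      rw [show x * Real.cosh u / τ = x / τ * Real.cosh u by ring,
        Real.mul_rpow (by positivity) hc.le]
    rw [h2] at h1
    calc Real.exp (ρ * u) * (1 + (x * Real.cosh u / τ) ^ 2) ^ (-(1 / 4) : ℝ) ≤
        Real.exp (ρ * u) * ((x / τ) ^ (-b) * Real.cosh u ^ (-b)) :=
          mul_le_mul_of_nonneg_left h1 (Real.exp_pos _).le
      _ = _ := by ring
  have hint : Integrable (fun u : ℝ => Real.exp (ρ * u) *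
      (1 + (x * Real.cosh u / τ) ^ 2) ^ (-(1 / 4) : ℝ)) := by
    refine Integrable.mono' (hI.const_mul ((x / τ) ^ (-b))) ?_ ?_
    · refine Continuous.aestronglyMeasurable ?_
      refine Continuous.mul (by fun_prop) ?_
      refine Continuous.rpow_const (by fun_prop) fun u => Or.inl ?_
      positivity
    · refine Eventually.of_forall fun u => ?_
      rw [Real.norm_of_nonneg (by positivity)]
      exact hle u
  refine ⟨hint, ?_⟩
  calc _ ≤ ∫ u : ℝ, (x / τ) ^ (-b) * (Real.exp (ρ * u) * Real.cosh u ^ (-b)) :=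
        integral_mono hint (hI.const_mul _) hle
    _ = _ := by rw [integral_const_mul]; ring

/-- the majorant -/
noncomputable def p3m (τ X : ℝ) : ℝ :=
  1 / τ * Real.exp (-(X / 2)) + Real.exp (-(Real.pi * τ / 4)) * (1 + (X / τ) ^ 2) ^ (-(1 / 4) : ℝ)

theorem p3m_nonneg {τ : ℝ} (hτ : 0 < τ) (X : ℝ) : 0 ≤ p3m τ X := by
  unfold p3m
  positivity

theorem p3_U' : ∃ C : ℝ, 0 ≤ C ∧ ∀ ε τ X : ℝ, (ε = 1 ∨ ε = -1) → 1 ≤ τ → 0 ≤ X →
    ‖p3h ε τ X - Real.exp (-X)‖ ≤ C * p3m τ X := by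
  obtain ⟨C, hC0, hC⟩ := p3_U
  refine ⟨C + 2, by linarith, fun ε τ X hε hτ hX => ?_⟩
  have hτ0 : 0 < τ := by linarith
  refine (hC ε τ X hε hτ hX).trans ?_
  unfold p3m
  have h1 : 0 ≤ 1 / τ * Real.exp (-(X / 2)) := by positivity
  have h2 : 0 ≤ Real.exp (-(Real.pi * τ / 4)) * (1 + (X / τ) ^ 2) ^ (-(1 / 4) : ℝ) := by
    positivity
  have h3 : C / τ * Real.exp (-(X / 2)) = C * (1 / τ * Real.exp (-(X / 2))) := by ring
  rw [h3]
  nlinarith [mul_nonneg hC0 h2]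

theorem p3_sq_exp {τ : ℝ} (hτ : 0 ≤ τ) : τ ^ 2 * Real.exp (-(Real.pi * τ / 8)) ≤ 16 := by
  have hπ : 3 < Real.pi := Real.pi_gt_three
  have h1 := Real.quadratic_le_exp_of_nonneg (x := Real.pi * τ / 8) (by positivity)
  have h2 : τ ^ 2 ≤ 16 * Real.exp (Real.pi * τ / 8) := by
    have h3 : 9 * τ ^ 2 ≤ Real.pi ^ 2 * τ ^ 2 := by
      refine mul_le_mul_of_nonneg_right ?_ (sq_nonneg τ)
      nlinarith
    have h4 : (Real.pi * τ / 8) ^ 2 = Real.pi ^ 2 * τ ^ 2 / 64 := by ring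
    rw [h4] at h1
    have h5 : 0 ≤ Real.pi * τ / 8 := by positivity
    nlinarith
  rw [Real.exp_neg, ← div_eq_mul_inv, div_le_iff₀ (Real.exp_pos _)]
  exact h2

theorem p3_V {ρ b : ℝ} (hρ : 0 ≤ ρ) (hb : ρ < b) (hb2 : b ≤ 1 / 2) {v₀ : ℝ} (hv : 0 < v₀) :
    ∃ C c : ℝ, 0 ≤ C ∧ 0 < c ∧ c ≤ 1 / 4 ∧ ∀ τ x : ℝ, 1 ≤ τ → 0 < x → x ≤ τ * v₀ →
      Integrable (fun u : ℝ => Real.exp (ρ * u) * p3m τ (x * Real.cosh u)) ∧
      ∫ u : ℝ, Real.exp (ρ * u) * p3m τ (x * Real.cosh u) ≤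
        C / τ * x ^ (-b) * Real.exp (-(c * x)) := by
  obtain ⟨C1, hC1, h1⟩ := p3_V1 hρ hb
  obtain ⟨C2, hC2, h2⟩ := p3_V2 hρ hb hb2
  have hπ := Real.pi_pos
  refine ⟨C1 + 16 * C2, min (1 / 4) (Real.pi / (8 * v₀)), by positivity,
    lt_min (by norm_num) (by positivity), min_le_left _ _, fun τ x hτ hx hxv => ?_⟩
  have hτ0 : 0 < τ := by linarith
  set c := min (1 / 4) (Real.pi / (8 * v₀)) with hc
  have hx2 : 0 < x / 2 := by positivity
  have hI1 : Integrable (fun u : ℝ => Real.exp (ρ * u) * Real.exp (-(x * Real.cosh u / 2))) := by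
    refine (p3_KK_real ρ hx2).1.congr (Eventually.of_forall fun u => ?_)
    simp only
    congr 3
    ring
  obtain ⟨hI2, h2'⟩ := h2 x τ hx hτ0
  have hsplit : ∀ u : ℝ, Real.exp (ρ * u) * p3m τ (x * Real.cosh u) =
      1 / τ * (Real.exp (ρ * u) * Real.exp (-(x * Real.cosh u / 2))) +
      Real.exp (-(Real.pi * τ / 4)) *
        (Real.exp (ρ * u) * (1 + (x * Real.cosh u / τ) ^ 2) ^ (-(1 / 4) : ℝ)) := by
    intro u
    unfold p3m
    ring
  simp only [hsplit]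
  refine ⟨(hI1.const_mul _).add (hI2.const_mul _), ?_⟩
  rw [integral_add (hI1.const_mul _) (hI2.const_mul _), integral_const_mul, integral_const_mul]
  have hcx1 : Real.exp (-(x / 4)) ≤ Real.exp (-(c * x)) := by
    refine Real.exp_le_exp.2 ?_
    have : c ≤ 1 / 4 := min_le_left _ _
    nlinarith
  have hcx2 : Real.exp (-(Real.pi * τ / 8)) ≤ Real.exp (-(c * x)) := by
    refine Real.exp_le_exp.2 ?_
    have h3 : c ≤ Real.pi / (8 * v₀) := min_le_right _ _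
    have h4 : c * x ≤ Real.pi / (8 * v₀) * (τ * v₀) :=
      mul_le_mul h3 hxv hx.le (by positivity)
    have h5 : Real.pi / (8 * v₀) * (τ * v₀) = Real.pi * τ / 8 := by
      field_simp
    linarith
  have hxb : 0 < x ^ (-b) := Real.rpow_pos_of_pos hx _
  have e1 : 1 / τ * ∫ u : ℝ, Real.exp (ρ * u) * Real.exp (-(x * Real.cosh u / 2)) ≤
      C1 / τ * x ^ (-b) * Real.exp (-(c * x)) := by
    calc 1 / τ * ∫ u : ℝ, Real.exp (ρ * u) * Real.exp (-(x * Real.cosh u / 2)) ≤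
        1 / τ * (C1 * x ^ (-b) * Real.exp (-(x / 4))) :=
          mul_le_mul_of_nonneg_left (h1 x hx) (by positivity)
      _ ≤ 1 / τ * (C1 * x ^ (-b) * Real.exp (-(c * x))) := by
          refine mul_le_mul_of_nonneg_left ?_ (by positivity)
          exact mul_le_mul_of_nonneg_left hcx1 (by positivity)
      _ = _ := by ring
  have e2 : Real.exp (-(Real.pi * τ / 4)) * ∫ u : ℝ, Real.exp (ρ * u) *
      (1 + (x * Real.cosh u / τ) ^ 2) ^ (-(1 / 4) : ℝ) ≤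
      16 * C2 / τ * x ^ (-b) * Real.exp (-(c * x)) := by
    have h6 : (x / τ) ^ (-b) ≤ x ^ (-b) * τ := by
      rw [Real.div_rpow hx.le hτ0.le, Real.rpow_neg hτ0.le, div_inv_eq_mul]
      refine mul_le_mul_of_nonneg_left ?_ hxb.le
      calc τ ^ b ≤ τ ^ (1 : ℝ) := Real.rpow_le_rpow_of_exponent_le hτ (by linarith)
        _ = τ := Real.rpow_one τ
    have h7 : Real.exp (-(Real.pi * τ / 4)) =
        Real.exp (-(Real.pi * τ / 8)) * Real.exp (-(Real.pi * τ / 8)) := by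
      rw [← Real.exp_add]
      congr 1
      ring
    have h8 : τ * Real.exp (-(Real.pi * τ / 8)) ≤ 16 / τ := by
      rw [le_div_iff₀ hτ0]
      have := p3_sq_exp hτ0.le
      nlinarith
    calc Real.exp (-(Real.pi * τ / 4)) * ∫ u : ℝ, Real.exp (ρ * u) *
        (1 + (x * Real.cosh u / τ) ^ 2) ^ (-(1 / 4) : ℝ) ≤
        Real.exp (-(Real.pi * τ / 4)) * (C2 * (x / τ) ^ (-b)) :=
          mul_le_mul_of_nonneg_left h2' (Real.exp_pos _).le
      _ ≤ Real.exp (-(Real.pi * τ / 4)) * (C2 * (x ^ (-b) * τ)) := by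
          refine mul_le_mul_of_nonneg_left ?_ (Real.exp_pos _).le
          exact mul_le_mul_of_nonneg_left h6 hC2
      _ = C2 * x ^ (-b) * (τ * Real.exp (-(Real.pi * τ / 8))) * Real.exp (-(Real.pi * τ / 8)) := by
          rw [h7]
          ring
      _ ≤ C2 * x ^ (-b) * (16 / τ) * Real.exp (-(c * x)) := by
          refine mul_le_mul (mul_le_mul_of_nonneg_left h8 (by positivity)) hcx2
            (Real.exp_pos _).le (by positivity)
      _ = _ := by ring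
  calc _ ≤ C1 / τ * x ^ (-b) * Real.exp (-(c * x)) +
        16 * C2 / τ * x ^ (-b) * Real.exp (-(c * x)) := add_le_add e1 e2
    _ = _ := by ring

/-! ## The comparison with `K_ν` -/

/-- measurability and integrability of `e^{νu} φ(x cosh u)` under a majorant -/
theorem p3_int {ν : ℂ} {φ : ℝ → ℂ} (hφ : Continuous φ) {x τ C : ℝ} (hx : 0 < x)
    (hI : Integrable (fun u : ℝ => Real.exp (ν.re * u) * p3m τ (x * Real.cosh u)))
    (hle : ∀ X : ℝ, 0 ≤ X → ‖φ X‖ ≤ C * p3m τ X) :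
    Integrable (fun u : ℝ => cexp (ν * u) * φ (x * Real.cosh u)) ∧
    ‖∫ u : ℝ, cexp (ν * u) * φ (x * Real.cosh u)‖ ≤
      C * ∫ u : ℝ, Real.exp (ν.re * u) * p3m τ (x * Real.cosh u) := by
  have hb : ∀ u : ℝ, ‖cexp (ν * u) * φ (x * Real.cosh u)‖ ≤
      C * (Real.exp (ν.re * u) * p3m τ (x * Real.cosh u)) := by
    intro u
    rw [norm_mul, Complex.norm_exp]
    have h1 : (ν * (u : ℂ)).re = ν.re * u := by simp
    rw [h1]
    have h2 := hle (x * Real.cosh u) (mul_nonneg hx.le (Real.cosh_pos u).le)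
    calc Real.exp (ν.re * u) * ‖φ (x * Real.cosh u)‖ ≤
        Real.exp (ν.re * u) * (C * p3m τ (x * Real.cosh u)) :=
          mul_le_mul_of_nonneg_left h2 (Real.exp_pos _).le
      _ = _ := by ring
  constructor
  · refine Integrable.mono' (hI.const_mul C) ?_ (Eventually.of_forall hb)
    refine Continuous.aestronglyMeasurable ?_
    exact Continuous.mul (by fun_prop) (hφ.comp (by fun_prop))
  · rw [← integral_const_mul]
    exact norm_integral_le_of_norm_le (hI.const_mul C) (Eventually.of_forall hb)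

theorem p3_KK_eq (ν : ℂ) (x : ℝ) : KK ν x =
    (1 / 2) * ∫ u : ℝ, cexp (ν * u) * ((Real.exp (-(x * Real.cosh u)) : ℝ) : ℂ) := by
  unfold KK
  congr 1
  refine integral_congr_ae (Eventually.of_forall fun u => ?_)
  simp only
  rw [Complex.ofReal_exp, ← Complex.exp_add]
  congr 1
  push_cast
  ring

theorem p3_KK_int (ν : ℂ) {x : ℝ} (hx : 0 < x) : Integrable (fun u : ℝ =>
    cexp (ν * u) * ((Real.exp (-(x * Real.cosh u)) : ℝ) : ℂ)) := by
  refine (KK_int ν hx).congr (Eventually.of_forall fun u => ?_)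
  simp only
  rw [Complex.ofReal_exp, ← Complex.exp_add]
  congr 1
  push_cast
  ring

/-- `G - K = (1/2) ∫ e^{νu} (h - e^{-X})` -/
theorem p3_G_sub {ν : ℂ} {ε x τ C : ℝ} (hε : ε = 1 ∨ ε = -1) (hτ : 1 ≤ τ) (hx : 0 < x)
    (hI : Integrable (fun u : ℝ => Real.exp (ν.re * u) * p3m τ (x * Real.cosh u)))
    (hC : ∀ ε τ X : ℝ, (ε = 1 ∨ ε = -1) → 1 ≤ τ → 0 ≤ X →
      ‖p3h ε τ X - Real.exp (-X)‖ ≤ C * p3m τ X) :
    Integrable (fun u : ℝ => cexp (ν * u) * p3h ε τ (x * Real.cosh u)) ∧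
    ‖p3G ν ε τ x - KK ν x‖ ≤
      C * ∫ u : ℝ, Real.exp (ν.re * u) * p3m τ (x * Real.cosh u) := by
  have hc : Continuous (fun X : ℝ => p3h ε τ X - ((Real.exp (-X) : ℝ) : ℂ)) :=
    (p3_h_cont ε τ).sub (by fun_prop)
  obtain ⟨h1, h2⟩ := p3_int (ν := ν) hc hx hI (fun X hX => hC ε τ X hε hτ hX)
  have h3 := p3_KK_int ν hx
  have h4 : Integrable (fun u : ℝ => cexp (ν * u) * p3h ε τ (x * Real.cosh u)) := by
    refine (h1.add h3).congr (Eventually.of_forall fun u => ?_)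
    simp only [Pi.add_apply]
    ring
  refine ⟨h4, ?_⟩
  have h5 : p3G ν ε τ x - KK ν x = (1 / 2) *
      ∫ u : ℝ, cexp (ν * u) * (p3h ε τ (x * Real.cosh u) -
        ((Real.exp (-(x * Real.cosh u)) : ℝ) : ℂ)) := by
    rw [p3_KK_eq]
    unfold p3G
    rw [← mul_sub, ← integral_sub h4 h3]
    congr 1
    refine integral_congr_ae (Eventually.of_forall fun u => ?_)
    simp only
    ring
  rw [h5, norm_mul]
  have h6 : ‖(1 / 2 : ℂ)‖ = 1 / 2 := by norm_num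
  rw [h6]
  have h7 := norm_nonneg (∫ u : ℝ, cexp (ν * u) * (p3h ε τ (x * Real.cosh u) -
        ((Real.exp (-(x * Real.cosh u)) : ℝ) : ℂ)))
  linarith

theorem p3_e_bound {τ : ℝ} (hτ : 0 < τ) :
    |(1 + Real.exp (-(2 * Real.pi * τ)))⁻¹ - 1| ≤ 1 / τ := by
  have h1 := Real.exp_pos (-(2 * Real.pi * τ))
  have h2 : (1 + Real.exp (-(2 * Real.pi * τ)))⁻¹ - 1 =
      -(Real.exp (-(2 * Real.pi * τ)) * (1 + Real.exp (-(2 * Real.pi * τ)))⁻¹) := by
    field_simp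
    ring
  rw [h2, abs_neg, abs_of_nonneg (by positivity)]
  have h3 : Real.exp (-(2 * Real.pi * τ)) ≤ 1 / τ := by
    rw [Real.exp_neg, ← one_div]
    refine one_div_le_one_div_of_le hτ ?_
    have h4 := Real.add_one_le_exp (2 * Real.pi * τ)
    have h5 : 3 < Real.pi := Real.pi_gt_three
    nlinarith
  have h6 : (1 + Real.exp (-(2 * Real.pi * τ)))⁻¹ ≤ 1 := by
    refine inv_le_one_of_one_le₀ ?_
    linarith
  calc Real.exp (-(2 * Real.pi * τ)) * (1 + Real.exp (-(2 * Real.pi * τ)))⁻¹ ≤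
      Real.exp (-(2 * Real.pi * τ)) * 1 := mul_le_mul_of_nonneg_left h6 h1.le
    _ ≤ 1 / τ := by rw [mul_one]; exact h3

theorem p3_WW_sq (ν : ℂ) {x : ℝ} (hx : 0 < x) : ‖WW ν x‖ ^ 2 = x * ‖KK ν x‖ ^ 2 := by
  unfold WW
  rw [norm_mul, mul_pow, Complex.norm_real, Real.norm_of_nonneg (Real.sqrt_nonneg x),
    Real.sq_sqrt hx.le]

theorem p3_tan {θ₀ θ : ℝ} (h1 : θ₀ < Real.pi / 2) (hθ : 0 < θ) (hθ' : θ ≤ θ₀) :
    0 < Real.tan θ ∧ Real.tan θ ≤ Real.tan θ₀ := by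
  have h2 : θ < Real.pi / 2 := by linarith
  refine ⟨Real.tan_pos_of_pos_of_lt_pi_div_two hθ h2, ?_⟩
  exact Real.strictMonoOn_tan.monotoneOn ⟨by linarith, h2⟩ ⟨by linarith, h1⟩ hθ'

/-- P3: the case `Re ν < 1/8` (in particular `ν` imaginary) -/
theorem Ph_asymp_small_pr {ν : ℂ} {ε : ℝ} (hν : GoodNu ν) (hν8 : ν.re < 1 / 8)
    (hε : ε = 1 ∨ ε = -1) {θ₀ : ℝ}
    (h0 : 0 < θ₀) (h1 : θ₀ < Real.pi / 2) :
    ∃ (e : ℝ → ℝ) (C c : ℝ), 0 < c ∧ ContinuousOn e (Ici 1) ∧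
      (∀ τ, 1 ≤ τ → |e τ| ≤ C / τ) ∧ ∀ τ θ : ℝ, 1 ≤ τ → 0 < θ → θ ≤ θ₀ →
      |‖Gs ν ε (ha τ) θ‖ ^ 2 - 2 * Real.pi / τ * (1 + e τ) * ‖WW ν (τ * Real.tan θ)‖ ^ 2| ≤
        C / τ ^ 2 * (τ * Real.tan θ) ^ (3 / 4 : ℝ) * Real.exp (-(c * (τ * Real.tan θ))) := by
  have hπ := Real.pi_pos
  obtain ⟨CU, hCU, hU⟩ := p3_U'
  have hv : 0 < Real.tan θ₀ := (p3_tan h1 h0 le_rfl).1
  obtain ⟨CV, c, hCV, hc, hc4, hV⟩ := p3_V hν.nonneg hν8 (by norm_num) hv
  obtain ⟨CK, hCK⟩ := KK_bound ν (b := 1 / 8) (by rw [abs_of_nonneg hν.nonneg]; exact hν8)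
  have hCK0 : 0 ≤ CK := by
    have h := hCK 1 one_pos
    have h2 := (norm_nonneg _).trans h
    rw [Real.one_rpow, mul_one] at h2
    exact nonneg_of_mul_nonneg_left h2 (Real.exp_pos _)
  set C := 1 + 2 * Real.pi * (CU * CV) * (CU * CV + 2 * CK) with hCdef
  have hCpos : 0 ≤ 2 * Real.pi * (CU * CV) * (CU * CV + 2 * CK) := by positivity
  refine ⟨fun τ => (1 + Real.exp (-(2 * Real.pi * τ)))⁻¹ - 1, C, c, hc, ?_, ?_, ?_⟩
  · refine ContinuousOn.sub ?_ continuousOn_const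
    refine Continuous.continuousOn ?_
    refine Continuous.inv₀ (by fun_prop) fun τ => ?_
    positivity
  · intro τ hτ
    have hτ0 : 0 < τ := by linarith
    refine (p3_e_bound hτ0).trans ?_
    exact div_le_div_of_nonneg_right (by linarith) hτ0.le
  · intro τ θ hτ hθ hθ'
    have hτ0 : 0 < τ := by linarith
    obtain ⟨ht, ht'⟩ := p3_tan h1 hθ hθ'
    set x := τ * Real.tan θ with hxdef
    have hx : 0 < x := mul_pos hτ0 ht
    have hxv : x ≤ τ * Real.tan θ₀ := mul_le_mul_of_nonneg_left ht' hτ0.le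
    obtain ⟨hI, hle⟩ := hV τ x hτ hx hxv
    obtain ⟨-, hG⟩ := p3_G_sub hε hτ hx hI hU
    rw [p3_main hν hε hτ0 ⟨hθ, by linarith⟩, ← hxdef, p3_WW_sq ν hx]
    have hG2 : ‖p3G ν ε τ x - KK ν x‖ ≤ CU * CV / τ * x ^ (-(1 / 8) : ℝ) *
        Real.exp (-(c * x)) := by
      refine hG.trans ?_
      calc CU * ∫ u : ℝ, Real.exp (ν.re * u) * p3m τ (x * Real.cosh u) ≤
          CU * (CV / τ * x ^ (-(1 / 8) : ℝ) * Real.exp (-(c * x))) :=
            mul_le_mul_of_nonneg_left hle hCU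
        _ = _ := by ring
    have hxb : 0 < x ^ (-(1 / 8) : ℝ) := Real.rpow_pos_of_pos hx _
    have hE := Real.exp_pos (-(c * x))
    have hE1 : Real.exp (-(c * x)) ≤ 1 := Real.exp_le_one_iff.2 (by nlinarith)
    have hG3 : ‖p3G ν ε τ x - KK ν x‖ ≤ CU * CV * x ^ (-(1 / 8) : ℝ) * 1 := by
      refine hG2.trans ?_
      refine mul_le_mul ?_ hE1 hE.le (by positivity)
      refine mul_le_mul_of_nonneg_right ?_ hxb.le
      exact div_le_self (by positivity) hτ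
    have hK2 : ‖KK ν x‖ ≤ CK * x ^ (-(1 / 8) : ℝ) * 1 := by
      refine (hCK x hx).trans ?_
      refine mul_le_mul le_rfl ?_ (Real.exp_pos _).le (by positivity)
      exact Real.exp_le_one_iff.2 (by linarith)
    have hsq : |‖p3G ν ε τ x‖ ^ 2 - ‖KK ν x‖ ^ 2| ≤
        (CU * CV / τ * x ^ (-(1 / 8) : ℝ) * Real.exp (-(c * x))) *
        ((CU * CV + 2 * CK) * x ^ (-(1 / 8) : ℝ)) := by
      have e1 : ‖p3G ν ε τ x‖ ^ 2 - ‖KK ν x‖ ^ 2 =
        (‖p3G ν ε τ x‖ - ‖KK ν x‖) * (‖p3G ν ε τ x‖ + ‖KK ν x‖) := by ring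
      rw [e1, abs_mul, abs_of_nonneg (add_nonneg (norm_nonneg _) (norm_nonneg _))]
      refine mul_le_mul ((abs_norm_sub_norm_le _ _).trans hG2) ?_
        (add_nonneg (norm_nonneg _) (norm_nonneg _)) (by positivity)
      have e2 : ‖p3G ν ε τ x‖ ≤ ‖p3G ν ε τ x - KK ν x‖ + ‖KK ν x‖ := by
        have := norm_add_le (p3G ν ε τ x - KK ν x) (KK ν x)
        rwa [sub_add_cancel] at this
      linarith
    set q := (1 + Real.exp (-(2 * Real.pi * τ)))⁻¹ with hq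
    have hq0 : 0 ≤ q := by positivity
    have hq1 : q ≤ 1 := by
      refine inv_le_one_of_one_le₀ ?_
      have := Real.exp_pos (-(2 * Real.pi * τ))
      linarith
    have e3 : 2 * Real.pi / τ * q * x * ‖p3G ν ε τ x‖ ^ 2 -
        2 * Real.pi / τ * (1 + (q - 1)) * (x * ‖KK ν x‖ ^ 2) =
        2 * Real.pi / τ * q * x * (‖p3G ν ε τ x‖ ^ 2 - ‖KK ν x‖ ^ 2) := by ring
    rw [e3, abs_mul, abs_of_nonneg (by positivity)]
    have e4 : x * (x ^ (-(1 / 8) : ℝ) * x ^ (-(1 / 8) : ℝ)) = x ^ (3 / 4 : ℝ) := by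
      rw [← Real.rpow_add hx]
      nth_rewrite 1 [← Real.rpow_one x]
      rw [← Real.rpow_add hx]
      norm_num
    calc 2 * Real.pi / τ * q * x * |‖p3G ν ε τ x‖ ^ 2 - ‖KK ν x‖ ^ 2| ≤
        2 * Real.pi / τ * 1 * x * ((CU * CV / τ * x ^ (-(1 / 8) : ℝ) * Real.exp (-(c * x))) *
        ((CU * CV + 2 * CK) * x ^ (-(1 / 8) : ℝ))) := by
          refine mul_le_mul ?_ hsq (abs_nonneg _) (by positivity)
          refine mul_le_mul_of_nonneg_right ?_ hx.le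
          exact mul_le_mul_of_nonneg_left hq1 (by positivity)
      _ = 2 * Real.pi * (CU * CV) * (CU * CV + 2 * CK) / τ ^ 2 *
          (x * (x ^ (-(1 / 8) : ℝ) * x ^ (-(1 / 8) : ℝ))) * Real.exp (-(c * x)) := by
          field_simp
      _ ≤ C / τ ^ 2 * x ^ (3 / 4 : ℝ) * Real.exp (-(c * x)) := by
          rw [e4]
          refine mul_le_mul_of_nonneg_right ?_ hE.le
          refine mul_le_mul_of_nonneg_right ?_ (by positivity)
          exact div_le_div_of_nonneg_right (by linarith) (by positivity)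

end Pool.Agent.JO.FM

namespace Pool.Agent.JO.FM

theorem Ph_asymp_small : type_of% @Ph_asymp_small_pr := @Ph_asymp_small_pr

end Pool.Agent.JO.FM
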