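import Pool.Agent.Lib_helper45.JO.Defs2
import Pool.Agent.Lib_helper45.JOM.KKA
import Pool.Agent.Lib_helper45.JOM.P2
import Pool.Agent.Lib_helper45.JOM.P3

/-!
# JO part FM, block P4: the asymptotics for real `ν > 0`
-/

set_option autoImplicit false

namespace Pool.Agent.JO.FM

open Complex Filter Topology MeasureTheory Set
open UpperHalfPlane hiding I
open scoped MatrixGroups ComplexConjugate

/-! ## Integrals over the half line -/

theorem p4_B {δ : ℝ} (hδ : 0 < δ) (hδ2 : δ < 1 / 2) :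
    IntegrableOn (fun Y : ℝ => Y ^ (δ - 1) * (1 + Y ^ 2) ^ (-(1 / 4) : ℝ)) (Ioi 0) := by
  have hm : Measurable (fun Y : ℝ => Y ^ (δ - 1) * (1 + Y ^ 2) ^ (-(1 / 4) : ℝ)) := by
    fun_prop
  rw [← Ioc_union_Ioi_eq_Ioi (zero_le_one (α := ℝ))]
  refine IntegrableOn.union ?_ ?_
  · have h1 : IntegrableOn (fun Y : ℝ => Y ^ (δ - 1)) (Ioc 0 1) := by
      rw [← intervalIntegrable_iff_integrableOn_Ioc_of_le zero_le_one]
      exact intervalIntegral.intervalIntegrable_rpow' (by linarith)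
    refine Integrable.mono' h1 hm.aestronglyMeasurable ?_
    refine (ae_restrict_iff' measurableSet_Ioc).2 (Eventually.of_forall fun Y hY => ?_)
    have hY0 : 0 < Y := hY.1
    rw [Real.norm_of_nonneg (by positivity)]
    have h2 : (1 + Y ^ 2) ^ (-(1 / 4) : ℝ) ≤ 1 :=
      Real.rpow_le_one_of_one_le_of_nonpos (by nlinarith) (by norm_num)
    calc Y ^ (δ - 1) * (1 + Y ^ 2) ^ (-(1 / 4) : ℝ) ≤ Y ^ (δ - 1) * 1 :=
          mul_le_mul_of_nonneg_left h2 (by positivity)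
      _ = _ := mul_one _
  · have h1 : IntegrableOn (fun Y : ℝ => Y ^ (δ - 3 / 2)) (Ioi 1) :=
      integrableOn_Ioi_rpow_of_lt (by linarith) one_pos
    refine Integrable.mono' h1 hm.aestronglyMeasurable ?_
    refine (ae_restrict_iff' measurableSet_Ioi).2 (Eventually.of_forall fun Y hY => ?_)
    have hY1 : 1 < Y := hY
    have hY0 : 0 < Y := by linarith
    rw [Real.norm_of_nonneg (by positivity)]
    have h2 := p3_pow_le (y := Y) (b := 1 / 2) hY0 (by norm_num) le_rfl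
    calc Y ^ (δ - 1) * (1 + Y ^ 2) ^ (-(1 / 4) : ℝ) ≤ Y ^ (δ - 1) * Y ^ (-(1 / 2) : ℝ) :=
          mul_le_mul_of_nonneg_left h2 (by positivity)
      _ = _ := by
          rw [← Real.rpow_add hY0]
          congr 1
          ring

theorem p4_B2 {δ : ℝ} (hδ : 0 < δ) (hδ2 : δ < 1 / 2) {T : ℝ} (hT : 0 < T) :
    IntegrableOn (fun X : ℝ => X ^ (δ - 1) * (1 + (X / T) ^ 2) ^ (-(1 / 4) : ℝ)) (Ioi 0) ∧
    ∫ X in Ioi (0 : ℝ), X ^ (δ - 1) * (1 + (X / T) ^ 2) ^ (-(1 / 4) : ℝ) =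
      T ^ δ * ∫ Y in Ioi (0 : ℝ), Y ^ (δ - 1) * (1 + Y ^ 2) ^ (-(1 / 4) : ℝ) := by
  have hT' : 0 < T⁻¹ := inv_pos.2 hT
  have h1 := (integrableOn_Ioi_comp_mul_left_iff
    (fun Y : ℝ => Y ^ (δ - 1) * (1 + Y ^ 2) ^ (-(1 / 4) : ℝ)) 0 hT').2
    (by rw [mul_zero]; exact p4_B hδ hδ2)
  have h2 := integral_comp_mul_left_Ioi
    (fun Y : ℝ => Y ^ (δ - 1) * (1 + Y ^ 2) ^ (-(1 / 4) : ℝ)) 0 hT'
  rw [mul_zero, inv_inv, smul_eq_mul] at h2
  have h3 : ∀ X ∈ Ioi (0 : ℝ), T ^ (δ - 1) * ((T⁻¹ * X) ^ (δ - 1) *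
      (1 + (T⁻¹ * X) ^ 2) ^ (-(1 / 4) : ℝ)) =
      X ^ (δ - 1) * (1 + (X / T) ^ 2) ^ (-(1 / 4) : ℝ) := by
    intro X hX
    have hX0 : (0 : ℝ) < X := hX
    rw [Real.mul_rpow hT'.le hX0.le, Real.inv_rpow hT.le]
    have h4 : T ^ (δ - 1) ≠ 0 := (Real.rpow_pos_of_pos hT _).ne'
    rw [show T⁻¹ * X = X / T by ring]
    field_simp
  constructor
  · exact IntegrableOn.congr_fun (h1.const_mul (T ^ (δ - 1))) h3 measurableSet_Ioi
  · rw [← setIntegral_congr_fun measurableSet_Ioi h3, integral_const_mul, h2, ← mul_assoc]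
    congr 1
    nth_rewrite 2 [← Real.rpow_one T]
    rw [← Real.rpow_add hT]
    congr 1
    ring

theorem p4_exp {δ : ℝ} (hδ : 0 < δ) {r : ℝ} (hr : 0 < r) :
    IntegrableOn (fun X : ℝ => X ^ (δ - 1) * Real.exp (-(r * X))) (Ioi 0) := by
  have h := (integrableOn_Ioi_comp_mul_left_iff (fun u : ℝ => Real.exp (-u) * u ^ (δ - 1)) 0
    hr).2 (by rw [mul_zero]; exact Real.GammaIntegral_convergent hδ)
  have h2 := h.const_mul ((r ^ (δ - 1))⁻¹)
  refine IntegrableOn.congr_fun h2 (fun u hu => ?_) measurableSet_Ioi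
  have hu0 : (0 : ℝ) < u := hu
  rw [Real.mul_rpow hr.le hu0.le]
  have : r ^ (δ - 1) ≠ 0 := (Real.rpow_pos_of_pos hr _).ne'
  field_simp

theorem p4_M {δ : ℝ} (hδ : 0 < δ) (hδ2 : δ < 1 / 2) : ∃ C : ℝ, 0 ≤ C ∧ ∀ τ : ℝ, 1 ≤ τ →
    IntegrableOn (fun X : ℝ => X ^ (δ - 1) * p3m τ X) (Ioi 0) ∧
    ∫ X in Ioi (0 : ℝ), X ^ (δ - 1) * p3m τ X ≤ C / τ := by
  set C1 := ∫ X in Ioi (0 : ℝ), X ^ (δ - 1) * Real.exp (-(1 / 2 * X)) with hC1
  set C2 := ∫ Y in Ioi (0 : ℝ), Y ^ (δ - 1) * (1 + Y ^ 2) ^ (-(1 / 4) : ℝ) with hC2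
  have h1 : 0 ≤ C1 := setIntegral_nonneg measurableSet_Ioi fun X hX => by
    have : (0 : ℝ) < X := hX
    positivity
  have h2 : 0 ≤ C2 := setIntegral_nonneg measurableSet_Ioi fun X hX => by
    have : (0 : ℝ) < X := hX
    positivity
  refine ⟨C1 + 16 * C2, by positivity, fun τ hτ => ?_⟩
  have hτ0 : 0 < τ := by linarith
  have hI1 := p4_exp hδ (r := 1 / 2) (by norm_num)
  obtain ⟨hI2, hv2⟩ := p4_B2 hδ hδ2 hτ0
  have hsplit : ∀ X : ℝ, X ^ (δ - 1) * p3m τ X =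
      1 / τ * (X ^ (δ - 1) * Real.exp (-(1 / 2 * X))) +
      Real.exp (-(Real.pi * τ / 4)) *
        (X ^ (δ - 1) * (1 + (X / τ) ^ 2) ^ (-(1 / 4) : ℝ)) := by
    intro X
    unfold p3m
    rw [show X / 2 = 1 / 2 * X by ring]
    ring
  simp only [hsplit]
  refine ⟨(hI1.const_mul _).add (hI2.const_mul _), ?_⟩
  rw [integral_add (hI1.const_mul _) (hI2.const_mul _), integral_const_mul, integral_const_mul,
    hv2]
  have h3 : Real.exp (-(Real.pi * τ / 4)) * (τ ^ δ * C2) ≤ 16 * C2 / τ := by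
    have h4 : τ ^ δ ≤ τ := by
      calc τ ^ δ ≤ τ ^ (1 : ℝ) := Real.rpow_le_rpow_of_exponent_le hτ (by linarith)
        _ = τ := Real.rpow_one τ
    have h5 : Real.exp (-(Real.pi * τ / 4)) ≤ Real.exp (-(Real.pi * τ / 8)) := by
      refine Real.exp_le_exp.2 ?_
      nlinarith [mul_pos Real.pi_pos hτ0]
    have h6 := p3_sq_exp hτ0.le
    have h7 : τ * Real.exp (-(Real.pi * τ / 8)) ≤ 16 / τ := by
      rw [le_div_iff₀ hτ0]
      nlinarith
    calc Real.exp (-(Real.pi * τ / 4)) * (τ ^ δ * C2) ≤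
        Real.exp (-(Real.pi * τ / 8)) * (τ * C2) := by
          refine mul_le_mul h5 (mul_le_mul_of_nonneg_right h4 h2) (by positivity)
            (Real.exp_pos _).le
      _ = (τ * Real.exp (-(Real.pi * τ / 8))) * C2 := by ring
      _ ≤ 16 / τ * C2 := mul_le_mul_of_nonneg_right h7 h2
      _ = _ := by ring
  calc 1 / τ * C1 + Real.exp (-(Real.pi * τ / 4)) * (τ ^ δ * C2) ≤
      1 / τ * C1 + 16 * C2 / τ := by linarith
    _ = _ := by ring

/-! ## The coefficient -/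

/-- the coefficient `1 + e'` -/
noncomputable def p4A (δ ε τ : ℝ) : ℂ :=
  ((Real.Gamma δ)⁻¹ : ℝ) * ∫ X in Ioi (0 : ℝ), ((X ^ (δ - 1) : ℝ) : ℂ) * p3h ε τ X

theorem p4_ofReal_exp_int {δ : ℝ} (hδ : 0 < δ) :
    IntegrableOn (fun X : ℝ => ((X ^ (δ - 1) : ℝ) : ℂ) * ((Real.exp (-X) : ℝ) : ℂ)) (Ioi 0) ∧
    ∫ X in Ioi (0 : ℝ), ((X ^ (δ - 1) : ℝ) : ℂ) * ((Real.exp (-X) : ℝ) : ℂ) =
      ((Real.Gamma δ : ℝ) : ℂ) := by
  have h1 := p4_exp hδ one_pos
  have h2 : ∀ X : ℝ, ((X ^ (δ - 1) : ℝ) : ℂ) * ((Real.exp (-X) : ℝ) : ℂ) =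
      ((X ^ (δ - 1) * Real.exp (-(1 * X)) : ℝ) : ℂ) := by
    intro X
    rw [one_mul]
    push_cast
    rfl
  simp only [h2]
  constructor
  · exact h1.ofReal
  · rw [integral_complex_ofReal, Real.integral_rpow_mul_exp_neg_mul_Ioi hδ one_pos]
    simp

theorem p4_h_int {δ : ℝ} (hδ : 0 < δ) (hδ2 : δ < 1 / 2) {ε τ : ℝ} (hε : ε = 1 ∨ ε = -1)
    (hτ : 1 ≤ τ) :
    IntegrableOn (fun X : ℝ => ((X ^ (δ - 1) : ℝ) : ℂ) *
      (p3h ε τ X - ((Real.exp (-X) : ℝ) : ℂ))) (Ioi 0) ∧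
    IntegrableOn (fun X : ℝ => ((X ^ (δ - 1) : ℝ) : ℂ) * p3h ε τ X) (Ioi 0) := by
  obtain ⟨CU, hCU, hU⟩ := p3_U'
  obtain ⟨CM, hCM, hM⟩ := p4_M hδ hδ2
  have hI := (hM τ hτ).1
  have hm1 : AEStronglyMeasurable (fun X : ℝ => ((X ^ (δ - 1) : ℝ) : ℂ) *
      (p3h ε τ X - ((Real.exp (-X) : ℝ) : ℂ))) (volume.restrict (Ioi 0)) := by
    refine Measurable.aestronglyMeasurable ?_
    have := (p3_h_cont ε τ).measurable
    fun_prop
  have h1 : IntegrableOn (fun X : ℝ => ((X ^ (δ - 1) : ℝ) : ℂ) *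
      (p3h ε τ X - ((Real.exp (-X) : ℝ) : ℂ))) (Ioi 0) := by
    refine Integrable.mono' (hI.const_mul CU) hm1 ?_
    refine (ae_restrict_iff' measurableSet_Ioi).2 (Eventually.of_forall fun X hX => ?_)
    have hX0 : (0 : ℝ) < X := hX
    rw [norm_mul, Complex.norm_real, Real.norm_of_nonneg (by positivity)]
    have := mul_le_mul_of_nonneg_left (hU ε τ X hε hτ hX0.le)
      (Real.rpow_nonneg hX0.le (δ - 1))
    linarith
  refine ⟨h1, ?_⟩
  have h2 := (p4_ofReal_exp_int hδ).1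
  refine (h1.add h2).congr (Eventually.of_forall fun X => ?_)
  simp only [Pi.add_apply]
  ring

theorem p4A_sub {δ : ℝ} (hδ : 0 < δ) (hδ2 : δ < 1 / 2) : ∃ C : ℝ, 0 ≤ C ∧ ∀ ε τ : ℝ,
    (ε = 1 ∨ ε = -1) → 1 ≤ τ → ‖p4A δ ε τ - 1‖ ≤ C / τ := by
  obtain ⟨CU, hCU, hU⟩ := p3_U'
  obtain ⟨CM, hCM, hM⟩ := p4_M hδ hδ2
  have hG : 0 < Real.Gamma δ := Real.Gamma_pos_of_pos hδ
  refine ⟨(Real.Gamma δ)⁻¹ * (CU * CM), by positivity, fun ε τ hε hτ => ?_⟩
  obtain ⟨h1, h2⟩ := p4_h_int hδ hδ2 hε hτ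
  obtain ⟨h3, h4⟩ := p4_ofReal_exp_int hδ
  have e1 : p4A δ ε τ - 1 = ((Real.Gamma δ)⁻¹ : ℝ) *
      ∫ X in Ioi (0 : ℝ), ((X ^ (δ - 1) : ℝ) : ℂ) *
        (p3h ε τ X - ((Real.exp (-X) : ℝ) : ℂ)) := by
    have e2 : ∫ X in Ioi (0 : ℝ), ((X ^ (δ - 1) : ℝ) : ℂ) *
        (p3h ε τ X - ((Real.exp (-X) : ℝ) : ℂ)) =
        (∫ X in Ioi (0 : ℝ), ((X ^ (δ - 1) : ℝ) : ℂ) * p3h ε τ X) -
          ((Real.Gamma δ : ℝ) : ℂ) := by
      rw [← h4, ← integral_sub h2 h3]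
      refine integral_congr_ae (Eventually.of_forall fun X => ?_)
      simp only
      ring
    rw [e2]
    unfold p4A
    have hG' : ((Real.Gamma δ : ℝ) : ℂ) ≠ 0 := by exact_mod_cast hG.ne'
    rw [mul_sub, Complex.ofReal_inv, inv_mul_cancel₀ hG']
  rw [e1, norm_mul, Complex.norm_real, Real.norm_of_nonneg (inv_nonneg.2 hG.le)]
  obtain ⟨hI, hle⟩ := hM τ hτ
  have h5 : ‖∫ X in Ioi (0 : ℝ), ((X ^ (δ - 1) : ℝ) : ℂ) *
      (p3h ε τ X - ((Real.exp (-X) : ℝ) : ℂ))‖ ≤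
      ∫ X in Ioi (0 : ℝ), CU * (X ^ (δ - 1) * p3m τ X) := by
    refine norm_integral_le_of_norm_le (hI.const_mul CU) ?_
    refine (ae_restrict_iff' measurableSet_Ioi).2 (Eventually.of_forall fun X hX => ?_)
    have hX0 : (0 : ℝ) < X := hX
    rw [norm_mul, Complex.norm_real, Real.norm_of_nonneg (by positivity)]
    have := mul_le_mul_of_nonneg_left (hU ε τ X hε hτ hX0.le)
      (Real.rpow_nonneg hX0.le (δ - 1))
    linarith
  rw [integral_const_mul] at h5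
  calc (Real.Gamma δ)⁻¹ * ‖∫ X in Ioi (0 : ℝ), ((X ^ (δ - 1) : ℝ) : ℂ) *
      (p3h ε τ X - ((Real.exp (-X) : ℝ) : ℂ))‖ ≤
      (Real.Gamma δ)⁻¹ * (CU * (CM / τ)) := by
        refine mul_le_mul_of_nonneg_left (h5.trans ?_) (inv_nonneg.2 hG.le)
        exact mul_le_mul_of_nonneg_left hle hCU
    _ = _ := by ring

theorem p4_h_le {ε τ T X : ℝ} (hε : ε = 1 ∨ ε = -1) (hτ : 1 ≤ τ) (hT : τ ≤ T) (hX : 0 ≤ X) :
    ‖p3h ε τ X‖ ≤ 2 * (1 + (X / T) ^ 2) ^ (-(1 / 4) : ℝ) := by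
  have hτ0 : 0 < τ := by linarith
  have hT0 : 0 < T := by linarith
  have hmono : (1 + (X / τ) ^ 2) ^ (-(1 / 4) : ℝ) ≤ (1 + (X / T) ^ 2) ^ (-(1 / 4) : ℝ) := by
    refine Real.rpow_le_rpow_of_nonpos (by positivity) ?_ (by norm_num)
    have h1 : X / T ≤ X / τ := div_le_div_of_nonneg_left hX hτ0 hT
    have h2 : 0 ≤ X / T := by positivity
    nlinarith
  have h1 : ‖hs τ X‖ ≤ (1 + (X / τ) ^ 2) ^ (-(1 / 4) : ℝ) := by
    rw [(hs_norm hτ0 hX).1]
    have h2 : Real.exp (-(τ * Real.arctan (X / τ))) ≤ 1 := by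
      refine Real.exp_le_one_iff.2 ?_
      have : 0 ≤ Real.arctan (X / τ) := Real.arctan_nonneg.2 (by positivity)
      nlinarith
    calc _ ≤ (1 + (X / τ) ^ 2) ^ (-(1 / 4) : ℝ) * 1 :=
          mul_le_mul_of_nonneg_left h2 (by positivity)
      _ = _ := mul_one _
  have h2 : ‖p3κ ε τ * p3g τ X‖ ≤ (1 + (X / τ) ^ 2) ^ (-(1 / 4) : ℝ) := by
    rw [norm_mul, p3κ_norm hε]
    refine (p3_g_norm hτ0 hX).trans ?_
    have h3 : Real.exp (-(Real.pi * τ / 2)) ≤ 1 := by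
      refine Real.exp_le_one_iff.2 ?_
      have := mul_pos Real.pi_pos hτ0
      linarith
    calc _ ≤ 1 * (1 + (X / τ) ^ 2) ^ (-(1 / 4) : ℝ) :=
          mul_le_mul_of_nonneg_right h3 (by positivity)
      _ = _ := one_mul _
  unfold p3h
  refine (norm_add_le _ _).trans ?_
  linarith

theorem p4_h_contτ (ε X : ℝ) : ContinuousOn (fun τ : ℝ => p3h ε τ X) (Ici 1) := by
  have hha : Continuous ha := by
    unfold ha
    fun_prop
  have hdiv : ContinuousOn (fun τ : ℝ => ((X / τ : ℝ) : ℂ)) (Ici 1) := by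
    refine Complex.continuous_ofReal.comp_continuousOn ?_
    refine ContinuousOn.div continuousOn_const continuousOn_id fun τ hτ => ?_
    have h1 : (1 : ℝ) ≤ τ := hτ
    linarith
  unfold p3h hs p3g p3κ
  refine ContinuousOn.add ?_ (ContinuousOn.mul ?_ ?_)
  · refine ContinuousOn.cpow (continuousOn_const.sub (continuousOn_const.mul hdiv))
      hha.neg.continuousOn fun τ _ => Or.inl ?_
    exact p3_re_pos _
  · exact Continuous.continuousOn (by fun_prop)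
  · refine ContinuousOn.cpow (continuousOn_const.add (continuousOn_const.mul hdiv))
      hha.neg.continuousOn fun τ _ => Or.inl ?_
    exact p3_re_pos' _

theorem p4A_cont {δ : ℝ} (hδ : 0 < δ) (hδ2 : δ < 1 / 2) {ε : ℝ} (hε : ε = 1 ∨ ε = -1) :
    ContinuousOn (p4A δ ε) (Ici 1) := by
  have key : ∀ T : ℝ, 1 ≤ T → ContinuousOn (p4A δ ε) (Icc 1 T) := by
    intro T hT
    have hT0 : 0 < T := by linarith
    unfold p4A
    refine continuousOn_const.mul ?_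
    refine continuousOn_of_dominated (bound := fun X : ℝ => X ^ (δ - 1) *
      (1 + (X / T) ^ 2) ^ (-(1 / 4) : ℝ) * 2) ?_ ?_ ((p4_B2 hδ hδ2 hT0).1.mul_const 2) ?_
    · intro τ hτ
      exact (p4_h_int hδ hδ2 hε hτ.1).2.aestronglyMeasurable
    · intro τ hτ
      refine (ae_restrict_iff' measurableSet_Ioi).2 (Eventually.of_forall fun X hX => ?_)
      have hX0 : (0 : ℝ) < X := hX
      rw [norm_mul, Complex.norm_real, Real.norm_of_nonneg (by positivity)]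
      have := mul_le_mul_of_nonneg_left (p4_h_le hε hτ.1 hτ.2 hX0.le)
        (Real.rpow_nonneg hX0.le (δ - 1))
      linarith
    · refine Eventually.of_forall fun X => ?_
      exact continuousOn_const.mul ((p4_h_contτ ε X).mono fun τ hτ => hτ.1)
  intro τ hτ
  have hτ1 : (1 : ℝ) ≤ τ := hτ
  have h1 := key (τ + 1) (by linarith) τ ⟨hτ1, by linarith⟩
  refine h1.mono_of_mem_nhdsWithin ?_
  have h2 : Iio (τ + 1) ∈ 𝓝[Ici 1] τ := mem_nhdsWithin_of_mem_nhds (Iio_mem_nhds (by linarith))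
  filter_upwards [h2, self_mem_nhdsWithin] with y hy1 hy2
  exact ⟨hy2, le_of_lt hy1⟩

/-! ## The function `h` -/

/-- `h(X) = p3h - (1+e') e^{-X}` -/
noncomputable def p4h (δ ε τ X : ℝ) : ℂ := p3h ε τ X - p4A δ ε τ * ((Real.exp (-X) : ℝ) : ℂ)

theorem p4h_cont (δ ε τ : ℝ) : Continuous (p4h δ ε τ) :=
  (p3_h_cont ε τ).sub (by fun_prop)

theorem p4h_zero {δ : ℝ} (hδ : 0 < δ) (hδ2 : δ < 1 / 2) {ε τ : ℝ} (hε : ε = 1 ∨ ε = -1)
    (hτ : 1 ≤ τ) :
    IntegrableOn (fun X : ℝ => ((X ^ (δ - 1) : ℝ) : ℂ) * p4h δ ε τ X) (Ioi 0) ∧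
    ∫ X in Ioi (0 : ℝ), ((X ^ (δ - 1) : ℝ) : ℂ) * p4h δ ε τ X = 0 := by
  obtain ⟨-, h2⟩ := p4_h_int hδ hδ2 hε hτ
  obtain ⟨h3, h4⟩ := p4_ofReal_exp_int hδ
  have h5 := h3.const_mul (p4A δ ε τ)
  have e1 : ∀ X : ℝ, ((X ^ (δ - 1) : ℝ) : ℂ) * p4h δ ε τ X =
      ((X ^ (δ - 1) : ℝ) : ℂ) * p3h ε τ X - p4A δ ε τ *
        (((X ^ (δ - 1) : ℝ) : ℂ) * ((Real.exp (-X) : ℝ) : ℂ)) := by
    intro X
    unfold p4h
    ring
  simp only [e1]
  refine ⟨h2.sub h5, ?_⟩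
  rw [integral_sub h2 h5, integral_const_mul, h4]
  unfold p4A
  have hG' : ((Real.Gamma δ : ℝ) : ℂ) ≠ 0 := by
    exact_mod_cast (Real.Gamma_pos_of_pos hδ).ne'
  rw [Complex.ofReal_inv]
  field_simp
  ring

/-- the estimate by the majorant -/
theorem p4h_le {δ : ℝ} (hδ : 0 < δ) (hδ2 : δ < 1 / 2) : ∃ C : ℝ, 0 ≤ C ∧ ∀ ε τ X : ℝ,
    (ε = 1 ∨ ε = -1) → 1 ≤ τ → 0 ≤ X → ‖p4h δ ε τ X‖ ≤ C * p3m τ X := by
  obtain ⟨CU, hCU, hU⟩ := p3_U'
  obtain ⟨CA, hCA, hA⟩ := p4A_sub hδ hδ2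
  refine ⟨CU + CA, by positivity, fun ε τ X hε hτ hX => ?_⟩
  have hτ0 : 0 < τ := by linarith
  have e1 : p4h δ ε τ X = (p3h ε τ X - ((Real.exp (-X) : ℝ) : ℂ)) -
      (p4A δ ε τ - 1) * ((Real.exp (-X) : ℝ) : ℂ) := by
    unfold p4h
    ring
  have e2 : ‖(p4A δ ε τ - 1) * ((Real.exp (-X) : ℝ) : ℂ)‖ ≤ CA * p3m τ X := by
    rw [norm_mul, Complex.norm_real, Real.norm_of_nonneg (Real.exp_pos _).le]
    have h1 : Real.exp (-X) ≤ Real.exp (-(X / 2)) := Real.exp_le_exp.2 (by linarith)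
    have h2 : 1 / τ * Real.exp (-(X / 2)) ≤ p3m τ X := by
      unfold p3m
      have : 0 ≤ Real.exp (-(Real.pi * τ / 4)) * (1 + (X / τ) ^ 2) ^ (-(1 / 4) : ℝ) := by
        positivity
      linarith
    calc ‖p4A δ ε τ - 1‖ * Real.exp (-X) ≤ CA / τ * Real.exp (-(X / 2)) :=
          mul_le_mul (hA ε τ hε hτ) h1 (Real.exp_pos _).le (by positivity)
      _ = CA * (1 / τ * Real.exp (-(X / 2))) := by ring
      _ ≤ _ := mul_le_mul_of_nonneg_left h2 hCA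
  rw [e1]
  have h3 := norm_sub_le (p3h ε τ X - ((Real.exp (-X) : ℝ) : ℂ))
    ((p4A δ ε τ - 1) * ((Real.exp (-X) : ℝ) : ℂ))
  have h4 := hU ε τ X hε hτ hX
  linarith

theorem p4_exp_pi {τ : ℝ} (hτ : 0 < τ) : Real.exp (-(Real.pi * τ / 4)) ≤ 2 / τ := by
  rw [Real.exp_neg, inv_eq_one_div, div_le_div_iff₀ (Real.exp_pos _) hτ]
  have h1 := Real.add_one_le_exp (Real.pi * τ / 4)
  have h2 : 3 < Real.pi := Real.pi_gt_three
  nlinarith

theorem p3m_le {τ X : ℝ} (hτ : 0 < τ) (hX : 0 ≤ X) : p3m τ X ≤ 3 / τ := by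
  unfold p3m
  have h1 : Real.exp (-(X / 2)) ≤ 1 := Real.exp_le_one_iff.2 (by linarith)
  have h2 : (1 + (X / τ) ^ 2) ^ (-(1 / 4) : ℝ) ≤ 1 :=
    Real.rpow_le_one_of_one_le_of_nonpos (by nlinarith [sq_nonneg (X / τ)]) (by norm_num)
  have h3 := p4_exp_pi hτ
  calc 1 / τ * Real.exp (-(X / 2)) + Real.exp (-(Real.pi * τ / 4)) *
        (1 + (X / τ) ^ 2) ^ (-(1 / 4) : ℝ) ≤ 1 / τ * 1 + 2 / τ * 1 := by
        refine add_le_add (mul_le_mul_of_nonneg_left h1 (by positivity)) ?_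
        exact mul_le_mul h3 h2 (by positivity) (by positivity)
    _ = _ := by ring

theorem p4_ha_norm {τ : ℝ} (hτ : 1 ≤ τ) : ‖-ha τ‖ * ‖((1 / τ : ℝ) : ℂ)‖ ≤ 3 / 2 := by
  have hτ0 : 0 < τ := by linarith
  rw [norm_neg, Complex.norm_real, Real.norm_of_nonneg (by positivity)]
  have h1 : ‖ha τ‖ ≤ 1 / 2 + τ := by
    unfold ha
    refine (norm_add_le _ _).trans ?_
    rw [norm_mul, Complex.norm_I, mul_one, Complex.norm_real, Real.norm_of_nonneg hτ0.le]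
    norm_num
  calc ‖ha τ‖ * (1 / τ) ≤ (1 / 2 + τ) * (1 / τ) := mul_le_mul_of_nonneg_right h1 (by positivity)
    _ = 1 / 2 * (1 / τ) + 1 := by field_simp
    _ ≤ 1 / 2 * 1 + 1 := by
        have : 1 / τ ≤ 1 := by
          rw [div_le_one hτ0]
          exact hτ
        linarith
    _ = _ := by norm_num

theorem p4_cpow_sub_one {w : ℂ} (hw : 1 ≤ w.re) (s : ℂ) : ‖w ^ (s - 1)‖ ≤ ‖w ^ s‖ := by
  have h1 : 1 ≤ ‖w‖ := hw.trans ((le_abs_self _).trans (Complex.abs_re_le_norm w))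
  have h0 : w ≠ 0 := by
    intro h
    rw [h, norm_zero] at h1
    linarith
  rw [Complex.cpow_sub _ _ h0, Complex.cpow_one, norm_div]
  exact div_le_self (norm_nonneg _) h1

/-- the derivative of `h` -/
theorem p4h_deriv {δ : ℝ} (hδ : 0 < δ) (hδ2 : δ < 1 / 2) : ∃ C : ℝ, 0 ≤ C ∧ ∀ ε τ X : ℝ,
    (ε = 1 ∨ ε = -1) → 1 ≤ τ → 0 ≤ X → ∃ D : ℂ, HasDerivAt (p4h δ ε τ) D X ∧ ‖D‖ ≤ C / τ := by
  obtain ⟨CN, hN⟩ := hs_near
  obtain ⟨CA, hCA, hA⟩ := p4A_sub hδ hδ2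
  refine ⟨|CN| + 7 + CA, by positivity, fun ε τ X hε hτ hX => ?_⟩
  have hτ0 : 0 < τ := by linarith
  have hπ : 3 < Real.pi := Real.pi_gt_three
  have hd1 := p3_hs_deriv τ X
  have hd2 := p3_g_deriv τ X
  have hd3 : HasDerivAt (fun X : ℝ => ((Real.exp (-X) : ℝ) : ℂ))
      (((-Real.exp (-X) : ℝ)) : ℂ) X := by
    have h := ((Real.hasDerivAt_exp (-X)).comp X (hasDerivAt_neg X)).ofReal_comp
    simpa using h
  refine ⟨_, (hd1.add (hd2.const_mul (p3κ ε τ))).sub (hd3.const_mul (p4A δ ε τ)), ?_⟩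
  set d1 := (-ha τ) * (1 - I * ((X / τ : ℝ) : ℂ)) ^ (-ha τ - 1) * (-(I * ((1 / τ : ℝ) : ℂ)))
    with hd1def
  set d2 := (-ha τ) * (1 + I * ((X / τ : ℝ) : ℂ)) ^ (-ha τ - 1) * (I * ((1 / τ : ℝ) : ℂ))
    with hd2def
  have e1 : d1 + p3κ ε τ * d2 - p4A δ ε τ * (((-Real.exp (-X) : ℝ)) : ℂ) =
      (d1 + ((Real.exp (-X) : ℝ) : ℂ)) + p3κ ε τ * d2 +
        (p4A δ ε τ - 1) * ((Real.exp (-X) : ℝ) : ℂ) := by
    push_cast
    ring
  rw [e1]
  have b1 : ‖d1 + ((Real.exp (-X) : ℝ) : ℂ)‖ ≤ (|CN| + 5) / τ := by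
    rcases le_total X τ with h | h
    · have h1 := (hN τ X hτ hX h).2
      rw [hd1.deriv] at h1
      refine h1.trans ?_
      calc CN / τ * Real.exp (-(X / 2)) ≤ |CN| / τ * 1 := by
            refine mul_le_mul (div_le_div_of_nonneg_right (le_abs_self _) hτ0.le) ?_
              (Real.exp_pos _).le (by positivity)
            exact Real.exp_le_one_iff.2 (by linarith)
        _ ≤ _ := by
            rw [mul_one]
            exact div_le_div_of_nonneg_right (by linarith) hτ0.le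
    · have h1 : ‖d1‖ ≤ 3 / 2 * (2 / τ) := by
        have h2 : ‖d1‖ = ‖-ha τ‖ * ‖((1 / τ : ℝ) : ℂ)‖ *
            ‖(1 - I * ((X / τ : ℝ) : ℂ)) ^ (-ha τ - 1)‖ := by
          rw [hd1def, norm_mul, norm_mul, norm_neg (I * _), norm_mul, Complex.norm_I]
          ring
        have h3 : ‖(1 - I * ((X / τ : ℝ) : ℂ)) ^ (-ha τ - 1)‖ ≤ 2 / τ := by
          refine (p4_cpow_sub_one (by simp) _).trans ?_
          have h4 := p3_hs_big hτ0 h
          unfold hs at h4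
          refine h4.trans ?_
          have h5 : (1 + (X / τ) ^ 2) ^ (-(1 / 4) : ℝ) ≤ 1 :=
            Real.rpow_le_one_of_one_le_of_nonpos (by nlinarith [sq_nonneg (X / τ)])
              (by norm_num)
          calc _ ≤ 2 / τ * 1 := mul_le_mul (p4_exp_pi hτ0) h5 (by positivity) (by positivity)
            _ = _ := mul_one _
        rw [h2]
        exact mul_le_mul (p4_ha_norm hτ) h3 (norm_nonneg _) (by norm_num)
      have h6 : ‖((Real.exp (-X) : ℝ) : ℂ)‖ ≤ 2 / τ := by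
        rw [Complex.norm_real, Real.norm_of_nonneg (Real.exp_pos _).le]
        refine (Real.exp_le_exp.2 (by linarith : -X ≤ -(τ / 2))).trans (p3_exp_small hτ0)
      refine (norm_add_le _ _).trans ((add_le_add h1 h6).trans ?_)
      have h7 : 3 / 2 * (2 / τ) + 2 / τ = 5 / τ := by ring
      rw [h7]
      exact div_le_div_of_nonneg_right (by have := abs_nonneg CN; linarith) hτ0.le
  have b2 : ‖p3κ ε τ * d2‖ ≤ 2 / τ := by
    have h2 : ‖p3κ ε τ * d2‖ = ‖-ha τ‖ * ‖((1 / τ : ℝ) : ℂ)‖ *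
        (Real.exp (-(Real.pi * τ)) * ‖(1 + I * ((X / τ : ℝ) : ℂ)) ^ (-ha τ - 1)‖) := by
      rw [norm_mul, p3κ_norm hε, hd2def, norm_mul, norm_mul, norm_mul, Complex.norm_I]
      ring
    have h3 : Real.exp (-(Real.pi * τ)) * ‖(1 + I * ((X / τ : ℝ) : ℂ)) ^ (-ha τ - 1)‖ ≤
        Real.exp (-(Real.pi * τ / 2)) := by
      have h4 := p3_g_norm hτ0 hX
      unfold p3g at h4
      have h5 : (1 + (X / τ) ^ 2) ^ (-(1 / 4) : ℝ) ≤ 1 :=
        Real.rpow_le_one_of_one_le_of_nonpos (by nlinarith [sq_nonneg (X / τ)]) (by norm_num)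
      calc _ ≤ Real.exp (-(Real.pi * τ)) * ‖(1 + I * ((X / τ : ℝ) : ℂ)) ^ (-ha τ)‖ :=
            mul_le_mul_of_nonneg_left (p4_cpow_sub_one (by simp) _) (Real.exp_pos _).le
        _ ≤ Real.exp (-(Real.pi * τ / 2)) * (1 + (X / τ) ^ 2) ^ (-(1 / 4) : ℝ) := h4
        _ ≤ Real.exp (-(Real.pi * τ / 2)) * 1 :=
            mul_le_mul_of_nonneg_left h5 (Real.exp_pos _).le
        _ = _ := mul_one _
    have h6 : Real.exp (-(Real.pi * τ / 2)) ≤ 1 / τ := by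
      rw [Real.exp_neg, inv_eq_one_div]
      refine one_div_le_one_div_of_le hτ0 ?_
      have h1 := Real.add_one_le_exp (Real.pi * τ / 2)
      nlinarith
    rw [h2]
    calc _ ≤ 3 / 2 * (1 / τ) := mul_le_mul (p4_ha_norm hτ) (h3.trans h6) (by positivity)
            (by norm_num)
      _ ≤ 2 / τ := by
          rw [mul_one_div]
          exact div_le_div_of_nonneg_right (by norm_num) hτ0.le
  have b3 : ‖(p4A δ ε τ - 1) * ((Real.exp (-X) : ℝ) : ℂ)‖ ≤ CA / τ := by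
    rw [norm_mul, Complex.norm_real, Real.norm_of_nonneg (Real.exp_pos _).le]
    calc ‖p4A δ ε τ - 1‖ * Real.exp (-X) ≤ CA / τ * 1 :=
          mul_le_mul (hA ε τ hε hτ) (Real.exp_le_one_iff.2 (by linarith)) (Real.exp_pos _).le
            (by positivity)
      _ = _ := mul_one _
  refine (norm_add₃_le).trans ?_
  have e9 : (|CN| + 7 + CA) / τ = (|CN| + 5) / τ + 2 / τ + CA / τ := by ring
  rw [e9]
  linarith

theorem p4h_lip {δ : ℝ} (hδ : 0 < δ) (hδ2 : δ < 1 / 2) : ∃ C : ℝ, 0 ≤ C ∧ ∀ ε τ X Y : ℝ,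
    (ε = 1 ∨ ε = -1) → 1 ≤ τ → 0 ≤ X → 0 ≤ Y →
      ‖p4h δ ε τ Y - p4h δ ε τ X‖ ≤ C / τ * |Y - X| := by
  obtain ⟨C, hC, h⟩ := p4h_deriv hδ hδ2
  refine ⟨C, hC, fun ε τ X Y hε hτ hX hY => ?_⟩
  have h1 : ∀ Z ∈ Ici (0 : ℝ), ‖deriv (p4h δ ε τ) Z‖ ≤ C / τ := by
    intro Z hZ
    obtain ⟨D, hD, hD'⟩ := h ε τ Z hε hτ hZ
    rw [hD.deriv]
    exact hD'
  have h2 : ∀ Z ∈ Ici (0 : ℝ), HasDerivWithinAt (p4h δ ε τ) (deriv (p4h δ ε τ) Z) (Ici 0) Z := by
    intro Z hZ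
    obtain ⟨D, hD, hD'⟩ := h ε τ Z hε hτ hZ
    rw [hD.deriv]
    exact hD.hasDerivWithinAt
  have h3 := (convex_Ici (0 : ℝ)).norm_image_sub_le_of_norm_hasDerivWithin_le h2 h1
    (mem_Ici.2 hX) (mem_Ici.2 hY)
  rwa [Real.norm_eq_abs] at h3

/-! ## The integral for small `x` -/

theorem p4_cosh_le (u : ℝ) : Real.cosh u ≤ Real.exp |u| := by
  rw [← Real.cosh_abs, Real.cosh_eq]
  have h1 : Real.exp (-|u|) ≤ Real.exp |u| := Real.exp_le_exp.2 (by
    have := abs_nonneg u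
    linarith)
  linarith

theorem p4_line {δ : ℝ} {φ : ℝ → ℂ} {b : ℝ} (hb : 0 < b)
    (hI : IntegrableOn (fun X : ℝ => ((X ^ (δ - 1) : ℝ) : ℂ) * φ X) (Ioi 0))
    (h0 : ∫ X in Ioi (0 : ℝ), ((X ^ (δ - 1) : ℝ) : ℂ) * φ X = 0) :
    Integrable (fun u : ℝ => ((Real.exp (δ * u) : ℝ) : ℂ) * φ (b * Real.exp u)) ∧
    ∫ u : ℝ, ((Real.exp (δ * u) : ℝ) : ℂ) * φ (b * Real.exp u) = 0 := by
  have hb1 : (b ^ (δ - 1)) ≠ 0 := (Real.rpow_pos_of_pos hb _).ne'
  have h1 : IntegrableOn (fun X : ℝ => ((X ^ (δ - 1) : ℝ) : ℂ) * φ (b * X)) (Ioi 0) := by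
    have h2 := (integrableOn_Ioi_comp_mul_left_iff
      (fun X : ℝ => ((X ^ (δ - 1) : ℝ) : ℂ) * φ X) 0 hb).2 (by rw [mul_zero]; exact hI)
    refine IntegrableOn.congr_fun (h2.const_mul (((b ^ (δ - 1))⁻¹ : ℝ) : ℂ)) (fun X hX => ?_)
      measurableSet_Ioi
    have hX0 : (0 : ℝ) < X := hX
    have hb2 : ((b ^ (δ - 1) : ℝ) : ℂ) ≠ 0 := by exact_mod_cast hb1
    rw [Real.mul_rpow hb.le hX0.le, Complex.ofReal_mul, Complex.ofReal_inv]
    field_simp
  have h2 : ∫ X in Ioi (0 : ℝ), ((X ^ (δ - 1) : ℝ) : ℂ) * φ (b * X) = 0 := by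
    have h3 := integral_comp_mul_left_Ioi
      (fun X : ℝ => ((X ^ (δ - 1) : ℝ) : ℂ) * φ X) 0 hb
    rw [mul_zero, h0, smul_zero] at h3
    have h4 : ∫ X in Ioi (0 : ℝ), (((b * X) ^ (δ - 1) : ℝ) : ℂ) * φ (b * X) =
        ((b ^ (δ - 1) : ℝ) : ℂ) * ∫ X in Ioi (0 : ℝ), ((X ^ (δ - 1) : ℝ) : ℂ) * φ (b * X) := by
      rw [← integral_const_mul]
      refine setIntegral_congr_fun measurableSet_Ioi fun X hX => ?_
      have hX0 : (0 : ℝ) < X := hX
      rw [Real.mul_rpow hb.le hX0.le, Complex.ofReal_mul]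
      ring
    rw [h4] at h3
    have hb2 : ((b ^ (δ - 1) : ℝ) : ℂ) ≠ 0 := by exact_mod_cast hb1
    exact (mul_eq_zero.1 h3).resolve_left hb2
  have himg : Real.exp '' (univ : Set ℝ) = Ioi 0 := by rw [image_univ, Real.range_exp]
  have h5 : ∀ u : ℝ, |Real.exp u| • ((((Real.exp u) ^ (δ - 1) : ℝ) : ℂ) * φ (b * Real.exp u)) =
      ((Real.exp (δ * u) : ℝ) : ℂ) * φ (b * Real.exp u) := by
    intro u
    rw [Real.abs_exp, Complex.real_smul, ← mul_assoc, ← Complex.ofReal_mul, ← Real.exp_mul,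
      ← Real.exp_add]
    congr 3
    ring
  rw [← himg, integrableOn_image_iff_integrableOn_abs_deriv_smul MeasurableSet.univ
      (fun u _ => (Real.hasDerivAt_exp u).hasDerivWithinAt) (Real.exp_injective.injOn),
      integrableOn_univ] at h1
  rw [← himg, integral_image_eq_integral_abs_deriv_smul MeasurableSet.univ
      (fun u _ => (Real.hasDerivAt_exp u).hasDerivWithinAt) (Real.exp_injective.injOn),
      setIntegral_univ] at h2
  simp only [h5] at h1 h2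
  exact ⟨h1, h2⟩

theorem p4_min {y β : ℝ} (hy : 0 < y) (hβ0 : 0 ≤ β) (hβ : β ≤ 1) {A B z : ℝ} (hA : z ≤ A)
    (hB : z ≤ B * y) (hA0 : 0 ≤ A) (hB0 : 0 ≤ B) : z ≤ (A + B) * y ^ β := by
  rcases le_total y 1 with h | h
  · have h1 : y ≤ y ^ β := by
      nth_rewrite 1 [← Real.rpow_one y]
      exact Real.rpow_le_rpow_of_exponent_ge hy h hβ
    calc z ≤ B * y := hB
      _ ≤ B * y ^ β := mul_le_mul_of_nonneg_left h1 hB0
      _ ≤ _ := by
          have : 0 ≤ A * y ^ β := by positivity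
          linarith
  · have h1 : 1 ≤ y ^ β := Real.one_le_rpow h hβ0
    calc z ≤ A := hA
      _ = A * 1 := (mul_one A).symm
      _ ≤ A * y ^ β := mul_le_mul_of_nonneg_left h1 hA0
      _ ≤ _ := by
          have : 0 ≤ B * y ^ β := by positivity
          linarith

theorem p4_small {δ : ℝ} (hδ : 0 < δ) (hδ2 : δ < 1 / 2) : ∃ C : ℝ, 0 ≤ C ∧ ∀ ε τ x : ℝ,
    (ε = 1 ∨ ε = -1) → 1 ≤ τ → 0 < x → x ≤ 1 →
      ‖∫ u : ℝ, ((Real.exp (δ * u) : ℝ) : ℂ) * p4h δ ε τ (x * Real.cosh u)‖ ≤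
        C / τ * x ^ (δ / 2) := by
  obtain ⟨C1, hC1, h1⟩ := p4h_le hδ hδ2
  obtain ⟨C2, hC2, h2⟩ := p4h_lip hδ hδ2
  set J := ∫ u : ℝ, Real.exp (0 * u) * Real.cosh u ^ (-(δ / 2)) with hJ
  have hJI := p3_V2i (ρ := 0) (b := δ / 2) le_rfl (by linarith)
  have hJ0 : 0 ≤ J := integral_nonneg fun u => by
    have := Real.cosh_pos u
    positivity
  refine ⟨(6 * C1 + C2) * J, by positivity, fun ε τ x hε hτ hx hx1 => ?_⟩
  have hτ0 : 0 < τ := by linarith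
  obtain ⟨hz1, hz2⟩ := p4h_zero hδ hδ2 hε hτ
  obtain ⟨hl1, hl2⟩ := p4_line (b := x / 2) (by positivity) hz1 hz2
  -- the pointwise bound
  have hpt : ∀ u : ℝ, ‖((Real.exp (δ * u) : ℝ) : ℂ) * (p4h δ ε τ (x * Real.cosh u) -
      p4h δ ε τ (x / 2 * Real.exp u))‖ ≤
      (6 * C1 + C2) / τ * x ^ (δ / 2) * (Real.exp (0 * u) * Real.cosh u ^ (-(δ / 2))) := by
    intro u
    have hc := Real.cosh_pos u
    rw [norm_mul, Complex.norm_real, Real.norm_of_nonneg (Real.exp_pos _).le]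
    set z := ‖p4h δ ε τ (x * Real.cosh u) - p4h δ ε τ (x / 2 * Real.exp u)‖ with hz
    have hX1 : 0 ≤ x * Real.cosh u := by positivity
    have hX2 : 0 ≤ x / 2 * Real.exp u := by positivity
    have hd : |x * Real.cosh u - x / 2 * Real.exp u| = x * Real.exp (-u) / 2 := by
      rw [Real.cosh_eq, show x * ((Real.exp u + Real.exp (-u)) / 2) - x / 2 * Real.exp u =
        x * Real.exp (-u) / 2 by ring]
      exact abs_of_nonneg (by positivity)
    have hB : z ≤ C2 / τ * (x * Real.exp (-u)) := by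
      have h3 := h2 ε τ _ _ hε hτ hX2 hX1
      rw [hd] at h3
      refine h3.trans ?_
      refine mul_le_mul_of_nonneg_left ?_ (by positivity)
      have : 0 < x * Real.exp (-u) := by positivity
      linarith
    have hA : z ≤ 6 * C1 / τ := by
      have h3 := h1 ε τ _ hε hτ hX1
      have h4 := h1 ε τ _ hε hτ hX2
      have h5 := p3m_le hτ0 hX1
      have h6 := p3m_le hτ0 hX2
      have h7 := mul_le_mul_of_nonneg_left h5 hC1
      have h8 := mul_le_mul_of_nonneg_left h6 hC1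
      have h9 := norm_sub_le (p4h δ ε τ (x * Real.cosh u)) (p4h δ ε τ (x / 2 * Real.exp u))
      have h10 : 6 * C1 / τ = C1 * (3 / τ) + C1 * (3 / τ) := by ring
      rw [h10]
      linarith
    have hy : 0 < x * Real.exp (-u) := by positivity
    have hgoal : Real.exp (δ * u) * z ≤ (6 * C1 + C2) / τ * x ^ (δ / 2) *
        Real.exp (-(δ / 2 * |u|)) := by
      rcases le_total 0 u with hu | hu
      · rw [abs_of_nonneg hu]
        have h3 : x ≤ x ^ (δ / 2) := by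
          nth_rewrite 1 [← Real.rpow_one x]
          exact Real.rpow_le_rpow_of_exponent_ge hx hx1 (by linarith)
        have h4 : Real.exp (δ * u) * Real.exp (-u) ≤ Real.exp (-(δ / 2 * u)) := by
          rw [← Real.exp_add]
          refine Real.exp_le_exp.2 ?_
          nlinarith
        calc Real.exp (δ * u) * z ≤ Real.exp (δ * u) * (C2 / τ * (x * Real.exp (-u))) :=
              mul_le_mul_of_nonneg_left hB (Real.exp_pos _).le
          _ = C2 / τ * x * (Real.exp (δ * u) * Real.exp (-u)) := by ring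
          _ ≤ C2 / τ * x ^ (δ / 2) * Real.exp (-(δ / 2 * u)) := by
              refine mul_le_mul (mul_le_mul_of_nonneg_left h3 (by positivity)) h4
                (by positivity) (by positivity)
          _ ≤ _ := by
              refine mul_le_mul_of_nonneg_right ?_ (Real.exp_pos _).le
              refine mul_le_mul_of_nonneg_right ?_ (by positivity)
              exact div_le_div_of_nonneg_right (by linarith) hτ0.le
      · rw [abs_of_nonpos hu]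
        have h3 := p4_min hy (by positivity : 0 ≤ δ / 2) (by linarith) hA hB (by positivity)
          (by positivity)
        have h4 : (x * Real.exp (-u)) ^ (δ / 2) = x ^ (δ / 2) * Real.exp (-u * (δ / 2)) := by
          rw [Real.mul_rpow hx.le (Real.exp_pos _).le, ← Real.exp_mul]
        rw [h4] at h3
        calc Real.exp (δ * u) * z ≤ Real.exp (δ * u) * ((6 * C1 / τ + C2 / τ) *
              (x ^ (δ / 2) * Real.exp (-u * (δ / 2)))) :=
              mul_le_mul_of_nonneg_left h3 (Real.exp_pos _).le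
          _ = (6 * C1 + C2) / τ * x ^ (δ / 2) *
              (Real.exp (δ * u) * Real.exp (-u * (δ / 2))) := by ring
          _ = _ := by
              rw [← Real.exp_add]
              congr 2
              ring
    refine hgoal.trans ?_
    refine mul_le_mul_of_nonneg_left ?_ (by positivity)
    rw [zero_mul, Real.exp_zero, one_mul, Real.exp_neg, Real.rpow_neg hc.le]
    refine inv_anti₀ (Real.rpow_pos_of_pos hc _) ?_
    calc Real.cosh u ^ (δ / 2) ≤ (Real.exp |u|) ^ (δ / 2) :=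
          Real.rpow_le_rpow hc.le (p4_cosh_le u) (by positivity)
      _ = Real.exp (δ / 2 * |u|) := by
          rw [← Real.exp_mul, mul_comm]
  have hint : Integrable (fun u : ℝ => ((Real.exp (δ * u) : ℝ) : ℂ) *
      (p4h δ ε τ (x * Real.cosh u) - p4h δ ε τ (x / 2 * Real.exp u))) := by
    refine Integrable.mono' (hJI.const_mul ((6 * C1 + C2) / τ * x ^ (δ / 2))) ?_
      (Eventually.of_forall hpt)
    refine Continuous.aestronglyMeasurable ?_
    refine Continuous.mul (by fun_prop) (Continuous.sub ?_ ?_)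
    · exact (p4h_cont δ ε τ).comp (by fun_prop)
    · exact (p4h_cont δ ε τ).comp (by fun_prop)
  have heq : ∫ u : ℝ, ((Real.exp (δ * u) : ℝ) : ℂ) * p4h δ ε τ (x * Real.cosh u) =
      ∫ u : ℝ, ((Real.exp (δ * u) : ℝ) : ℂ) *
      (p4h δ ε τ (x * Real.cosh u) - p4h δ ε τ (x / 2 * Real.exp u)) := by
    have h3 := integral_add hint hl1
    rw [hl2, add_zero] at h3
    rw [← h3]
    refine integral_congr_ae (Eventually.of_forall fun u => ?_)
    simp only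
    ring
  rw [heq]
  have h4 := norm_integral_le_of_norm_le (hJI.const_mul ((6 * C1 + C2) / τ * x ^ (δ / 2)))
    (Eventually.of_forall hpt)
  rw [integral_const_mul] at h4
  refine h4.trans (le_of_eq ?_)
  ring

/-! ## The theorem -/

theorem p4_GA {δ ε τ x C b c CV : ℝ} (hε : ε = 1 ∨ ε = -1) (hτ : 1 ≤ τ) (hx : 0 < x)
    (hC : 0 ≤ C)
    (hI : Integrable (fun u : ℝ => Real.exp (δ * u) * p3m τ (x * Real.cosh u)))
    (hI' : ∫ u : ℝ, Real.exp (δ * u) * p3m τ (x * Real.cosh u) ≤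
        CV / τ * x ^ (-b) * Real.exp (-(c * x)))
    (hle : ∀ ε τ X : ℝ, (ε = 1 ∨ ε = -1) → 1 ≤ τ → 0 ≤ X → ‖p4h δ ε τ X‖ ≤ C * p3m τ X) :
    p3G (δ : ℂ) ε τ x - p4A δ ε τ * KK (δ : ℂ) x =
      (1 / 2) * ∫ u : ℝ, ((Real.exp (δ * u) : ℝ) : ℂ) * p4h δ ε τ (x * Real.cosh u) ∧
    ‖p3G (δ : ℂ) ε τ x - p4A δ ε τ * KK (δ : ℂ) x‖ ≤
      C * CV / τ * x ^ (-b) * Real.exp (-(c * x)) := by
  have hI2 : Integrable (fun u : ℝ => Real.exp ((δ : ℂ).re * u) *
      p3m τ (x * Real.cosh u)) := hI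
  obtain ⟨h1, h2⟩ := p3_int (ν := (δ : ℂ)) (p4h_cont δ ε τ) hx hI2
    (fun X hX => hle ε τ X hε hτ hX)
  have h3 := (p3_KK_int (δ : ℂ) hx).const_mul (p4A δ ε τ)
  have h4 : Integrable (fun u : ℝ => cexp ((δ : ℂ) * u) * p3h ε τ (x * Real.cosh u)) := by
    refine (h1.add h3).congr (Eventually.of_forall fun u => ?_)
    simp only [Pi.add_apply]
    unfold p4h
    ring
  have h5 : p3G (δ : ℂ) ε τ x - p4A δ ε τ * KK (δ : ℂ) x =
      (1 / 2) * ∫ u : ℝ, cexp ((δ : ℂ) * u) * p4h δ ε τ (x * Real.cosh u) := by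
    have h6 : ∫ u : ℝ, cexp ((δ : ℂ) * u) * p4h δ ε τ (x * Real.cosh u) =
        (∫ u : ℝ, cexp ((δ : ℂ) * u) * p3h ε τ (x * Real.cosh u)) -
        p4A δ ε τ * ∫ u : ℝ, cexp ((δ : ℂ) * u) *
          ((Real.exp (-(x * Real.cosh u)) : ℝ) : ℂ) := by
      rw [← integral_const_mul, ← integral_sub h4 h3]
      refine integral_congr_ae (Eventually.of_forall fun u => ?_)
      simp only
      unfold p4h
      ring
    rw [h6, p3_KK_eq]
    unfold p3G
    ring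
  constructor
  · rw [h5]
    congr 1
    refine integral_congr_ae (Eventually.of_forall fun u => ?_)
    simp only
    congr 1
    push_cast
    rfl
  · rw [h5, norm_mul]
    have h6 : ‖(1 / 2 : ℂ)‖ = 1 / 2 := by norm_num
    rw [h6]
    have h7 : C * ∫ u : ℝ, Real.exp ((δ : ℂ).re * u) * p3m τ (x * Real.cosh u) ≤
        C * (CV / τ * x ^ (-b) * Real.exp (-(c * x))) := mul_le_mul_of_nonneg_left hI' hC
    have h8 := norm_nonneg (∫ u : ℝ, cexp ((δ : ℂ) * u) * p4h δ ε τ (x * Real.cosh u))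
    have h9 : C * (CV / τ * x ^ (-b) * Real.exp (-(c * x))) =
        C * CV / τ * x ^ (-b) * Real.exp (-(c * x)) := by ring
    linarith

theorem p4_sq {p q : ℂ} {A B : ℝ} (h1 : ‖p - q‖ ≤ A) (h2 : ‖p - q‖ + 2 * ‖q‖ ≤ B)
    (hA : 0 ≤ A) : |‖p‖ ^ 2 - ‖q‖ ^ 2| ≤ A * B := by
  have e1 : ‖p‖ ^ 2 - ‖q‖ ^ 2 = (‖p‖ - ‖q‖) * (‖p‖ + ‖q‖) := by ring
  rw [e1, abs_mul, abs_of_nonneg (add_nonneg (norm_nonneg _) (norm_nonneg _))]
  refine mul_le_mul ((abs_norm_sub_norm_le _ _).trans h1) ?_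
    (add_nonneg (norm_nonneg _) (norm_nonneg _)) hA
  have e2 : ‖p‖ ≤ ‖p - q‖ + ‖q‖ := by
    have := norm_add_le (p - q) q
    rwa [sub_add_cancel] at this
  linarith

/-- P4: the case of real `ν > 0` -/
theorem Ph_asymp_real_pr {ν : ℂ} {ε : ℝ} (hν : GoodNu ν) (hν0 : 0 < ν.re)
    (hε : ε = 1 ∨ ε = -1) {θ₀ : ℝ}
    (h0 : 0 < θ₀) (h1 : θ₀ < Real.pi / 2) :
    ∃ (e : ℝ → ℝ) (C c : ℝ), 0 < c ∧ ContinuousOn e (Ici 1) ∧
      (∀ τ, 1 ≤ τ → |e τ| ≤ C / τ) ∧ ∀ τ θ : ℝ, 1 ≤ τ → 0 < θ → θ ≤ θ₀ →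
      |‖Gs ν ε (ha τ) θ‖ ^ 2 - 2 * Real.pi / τ * (1 + e τ) * ‖WW ν (τ * Real.tan θ)‖ ^ 2| ≤
        C / τ ^ 2 * (τ * Real.tan θ) ^ (3 / 4 : ℝ) * Real.exp (-(c * (τ * Real.tan θ))) := by
  have hπ := Real.pi_pos
  obtain ⟨δ, hδ⟩ : ∃ δ : ℝ, ν = (δ : ℂ) := by
    refine ⟨ν.re, ?_⟩
    have him : ν.im = 0 := by
      rcases hν.real_or with h | h
      · exact h
      · linarith
    apply Complex.ext
    · simp
    · simp [him]
  subst hδ
  have hδ : 0 < δ := by simpa using hν0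
  have hδ2 : δ < 1 / 2 := by simpa using hν.lt_half
  have hv : 0 < Real.tan θ₀ := (p3_tan h1 h0 le_rfl).1
  obtain ⟨C1, hC1, hle⟩ := p4h_le hδ hδ2
  obtain ⟨CA, hCA, hA⟩ := p4A_sub hδ hδ2
  obtain ⟨CS, hCS, hS⟩ := p4_small hδ hδ2
  obtain ⟨CV, c, hCV, hc, hc4, hV⟩ := p3_V (ρ := δ) (b := 1 / 2) hδ.le hδ2 le_rfl hv
  obtain ⟨CK, hCK⟩ := KK_bound_real hδ
  have hCK0 : 0 ≤ CK := by
    have h := hCK 1 one_pos
    have h2 := (norm_nonneg _).trans h
    rw [Real.one_rpow, mul_one] at h2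
    exact nonneg_of_mul_nonneg_left h2 (Real.exp_pos _)
  set N := CS + 2 * (1 + CA) * CK with hN
  set N' := C1 * CV + 2 * (1 + CA) * CK with hN'
  have hN0 : 0 ≤ N := by positivity
  have hN0' : 0 ≤ N' := by positivity
  set C := (CA * (CA + 2) + 1) + 2 * (2 * Real.pi * CS * N) + 2 * Real.pi * (C1 * CV) * N'
    with hCdef
  have hterm1 : 0 ≤ CA * (CA + 2) + 1 := by positivity
  have hterm2 : 0 ≤ 2 * (2 * Real.pi * CS * N) := by positivity
  have hterm3 : 0 ≤ 2 * Real.pi * (C1 * CV) * N' := by positivity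
  have hAn : ∀ τ : ℝ, 1 ≤ τ → ‖p4A δ ε τ‖ ≤ 1 + CA := by
    intro τ hτ
    have h2 := hA ε τ hε hτ
    have h3 : CA / τ ≤ CA := div_le_self hCA hτ
    have h4 : ‖p4A δ ε τ‖ ≤ ‖p4A δ ε τ - 1‖ + ‖(1 : ℂ)‖ := by
      have := norm_add_le (p4A δ ε τ - 1) 1
      rwa [sub_add_cancel] at this
    rw [norm_one] at h4
    linarith
  refine ⟨fun τ => ‖p4A δ ε τ‖ ^ 2 * (1 + Real.exp (-(2 * Real.pi * τ)))⁻¹ - 1, C, c, hc,
    ?_, ?_, ?_⟩
  · refine ContinuousOn.sub (ContinuousOn.mul ?_ ?_) continuousOn_const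
    · exact (p4A_cont hδ hδ2 hε).norm.pow 2
    · refine Continuous.continuousOn ?_
      refine Continuous.inv₀ (by fun_prop) fun τ => ?_
      positivity
  · intro τ hτ
    have hτ0 : 0 < τ := by linarith
    simp only
    set q := (1 + Real.exp (-(2 * Real.pi * τ)))⁻¹ with hq
    have hq0 : 0 ≤ q := by positivity
    have hq1 : q ≤ 1 := by
      refine inv_le_one_of_one_le₀ ?_
      have := Real.exp_pos (-(2 * Real.pi * τ))
      linarith
    have hqb := p3_e_bound hτ0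
    rw [← hq] at hqb
    have h2 : |‖p4A δ ε τ‖ ^ 2 - ‖(1 : ℂ)‖ ^ 2| ≤ CA / τ * (CA + 2) := by
      refine p4_sq (hA ε τ hε hτ) ?_ (by positivity)
      rw [norm_one]
      have h3 := hA ε τ hε hτ
      have h4 : CA / τ ≤ CA := div_le_self hCA hτ
      linarith
    rw [norm_one, one_pow] at h2
    have e1 : ‖p4A δ ε τ‖ ^ 2 * q - 1 = (‖p4A δ ε τ‖ ^ 2 - 1) * q + (q - 1) := by ring
    rw [e1]
    refine (abs_add_le _ _).trans ?_
    rw [abs_mul, abs_of_nonneg hq0]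
    calc |‖p4A δ ε τ‖ ^ 2 - 1| * q + |q - 1| ≤ CA / τ * (CA + 2) * 1 + 1 / τ := by
          refine add_le_add ?_ hqb
          exact mul_le_mul h2 hq1 hq0 (by positivity)
      _ = (CA * (CA + 2) + 1) / τ := by ring
      _ ≤ C / τ := div_le_div_of_nonneg_right (by linarith) hτ0.le
  · intro τ θ hτ hθ hθ'
    have hτ0 : 0 < τ := by linarith
    obtain ⟨ht, ht'⟩ := p3_tan h1 hθ hθ'
    set x := τ * Real.tan θ with hxdef
    have hx : 0 < x := mul_pos hτ0 ht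
    have hxv : x ≤ τ * Real.tan θ₀ := mul_le_mul_of_nonneg_left ht' hτ0.le
    obtain ⟨hI, hI'⟩ := hV τ x hτ hx hxv
    obtain ⟨hGeq, hG⟩ := p4_GA hε hτ hx hC1 hI hI' hle
    rw [p3_main hν hε hτ0 ⟨hθ, by linarith⟩, ← hxdef, p3_WW_sq (δ : ℂ) hx]
    set q := (1 + Real.exp (-(2 * Real.pi * τ)))⁻¹ with hq
    have hq0 : 0 ≤ q := by positivity
    have hq1 : q ≤ 1 := by
      refine inv_le_one_of_one_le₀ ?_
      have := Real.exp_pos (-(2 * Real.pi * τ))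
      linarith
    have e3 : 2 * Real.pi / τ * q * x * ‖p3G (δ : ℂ) ε τ x‖ ^ 2 -
        2 * Real.pi / τ * (1 + (‖p4A δ ε τ‖ ^ 2 * q - 1)) * (x * ‖KK (δ : ℂ) x‖ ^ 2) =
        2 * Real.pi / τ * q * x * (‖p3G (δ : ℂ) ε τ x‖ ^ 2 -
          ‖p4A δ ε τ * KK (δ : ℂ) x‖ ^ 2) := by
      rw [norm_mul]
      ring
    rw [e3, abs_mul, abs_of_nonneg (by positivity)]
    have hEpos := Real.exp_pos (-(c * x))
    have hqq : 2 * Real.pi / τ * q * x ≤ 2 * Real.pi / τ * x := by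
      refine mul_le_mul_of_nonneg_right ?_ hx.le
      calc 2 * Real.pi / τ * q ≤ 2 * Real.pi / τ * 1 :=
            mul_le_mul_of_nonneg_left hq1 (by positivity)
        _ = _ := mul_one _
    rcases le_total x 1 with hx1 | hx1
    · -- small `x`
      have hG1 : ‖p3G (δ : ℂ) ε τ x - p4A δ ε τ * KK (δ : ℂ) x‖ ≤ CS / τ * x ^ (δ / 2) := by
        rw [hGeq, norm_mul]
        have h6 : ‖(1 / 2 : ℂ)‖ = 1 / 2 := by norm_num
        rw [h6]
        have h7 := hS ε τ x hε hτ hx hx1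
        have h8 := norm_nonneg (∫ u : ℝ, ((Real.exp (δ * u) : ℝ) : ℂ) *
          p4h δ ε τ (x * Real.cosh u))
        linarith
      have hxd : 0 < x ^ (-δ) := Real.rpow_pos_of_pos hx _
      have hG2 : ‖p3G (δ : ℂ) ε τ x - p4A δ ε τ * KK (δ : ℂ) x‖ +
          2 * ‖p4A δ ε τ * KK (δ : ℂ) x‖ ≤ N * x ^ (-δ) := by
        have h2 : CS / τ * x ^ (δ / 2) ≤ CS * x ^ (-δ) := by
          refine mul_le_mul (div_le_self hCS hτ) ?_ (by positivity) hCS
          exact Real.rpow_le_rpow_of_exponent_ge hx hx1 (by linarith)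
        have h3 : ‖p4A δ ε τ * KK (δ : ℂ) x‖ ≤ (1 + CA) * (CK * x ^ (-δ)) := by
          rw [norm_mul]
          refine mul_le_mul (hAn τ hτ) ?_ (norm_nonneg _) (by positivity)
          refine (hCK x hx).trans ?_
          calc CK * x ^ (-δ) * Real.exp (-(x / 2)) ≤ CK * x ^ (-δ) * 1 := by
                refine mul_le_mul_of_nonneg_left ?_ (by positivity)
                exact Real.exp_le_one_iff.2 (by linarith)
            _ = _ := mul_one _
        have h4 : N * x ^ (-δ) = CS * x ^ (-δ) + 2 * ((1 + CA) * (CK * x ^ (-δ))) := by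
          rw [hN]
          ring
        rw [h4]
        linarith
      have hsq := p4_sq hG1 hG2 (by positivity)
      have e5 : x * (x ^ (δ / 2) * x ^ (-δ)) ≤ x ^ (3 / 4 : ℝ) := by
        have : x * (x ^ (δ / 2) * x ^ (-δ)) = x ^ (1 - δ / 2) := by
          rw [← Real.rpow_add hx]
          nth_rewrite 1 [← Real.rpow_one x]
          rw [← Real.rpow_add hx]
          congr 1
          ring
        rw [this]
        exact Real.rpow_le_rpow_of_exponent_ge hx hx1 (by linarith)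
      have e6 : 1 ≤ 2 * Real.exp (-(c * x)) := by
        have h2 : c * x ≤ 1 / 4 := by
          calc c * x ≤ 1 / 4 * 1 := mul_le_mul hc4 hx1 hx.le (by norm_num)
            _ = _ := by norm_num
        have h3 := Real.add_one_le_exp (-(c * x))
        linarith
      calc 2 * Real.pi / τ * q * x * |‖p3G (δ : ℂ) ε τ x‖ ^ 2 -
            ‖p4A δ ε τ * KK (δ : ℂ) x‖ ^ 2| ≤
          2 * Real.pi / τ * x * (CS / τ * x ^ (δ / 2) * (N * x ^ (-δ))) :=
            mul_le_mul hqq hsq (abs_nonneg _) (by positivity)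
        _ = 2 * Real.pi * CS * N / τ ^ 2 * (x * (x ^ (δ / 2) * x ^ (-δ))) * 1 := by
            field_simp
        _ ≤ 2 * Real.pi * CS * N / τ ^ 2 * x ^ (3 / 4 : ℝ) * (2 * Real.exp (-(c * x))) := by
            refine mul_le_mul (mul_le_mul_of_nonneg_left e5 (by positivity)) e6 (by norm_num)
              (by positivity)
        _ = 2 * (2 * Real.pi * CS * N) / τ ^ 2 * x ^ (3 / 4 : ℝ) * Real.exp (-(c * x)) := by
            ring
        _ ≤ _ := by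
            refine mul_le_mul_of_nonneg_right ?_ hEpos.le
            refine mul_le_mul_of_nonneg_right ?_ (by positivity)
            exact div_le_div_of_nonneg_right (by linarith) (by positivity)
    · -- large `x`
      have hxh : x ^ (-(1 / 2) : ℝ) ≤ 1 := Real.rpow_le_one_of_one_le_of_nonpos hx1 (by norm_num)
      have hxh0 : 0 < x ^ (-(1 / 2) : ℝ) := Real.rpow_pos_of_pos hx _
      have hG2 : ‖p3G (δ : ℂ) ε τ x - p4A δ ε τ * KK (δ : ℂ) x‖ +
          2 * ‖p4A δ ε τ * KK (δ : ℂ) x‖ ≤ N' := by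
        have hE1 : Real.exp (-(c * x)) ≤ 1 := Real.exp_le_one_iff.2 (by nlinarith)
        have h2 : C1 * CV / τ * x ^ (-(1 / 2) : ℝ) * Real.exp (-(c * x)) ≤ C1 * CV * 1 * 1 := by
          refine mul_le_mul (mul_le_mul ?_ hxh hxh0.le (by positivity)) hE1 hEpos.le
            (by positivity)
          exact div_le_self (by positivity) hτ
        have h3 : ‖p4A δ ε τ * KK (δ : ℂ) x‖ ≤ (1 + CA) * CK := by
          rw [norm_mul]
          refine mul_le_mul (hAn τ hτ) ?_ (norm_nonneg _) (by positivity)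
          refine (hCK x hx).trans ?_
          have h4 : x ^ (-δ) ≤ 1 := Real.rpow_le_one_of_one_le_of_nonpos hx1 (by linarith)
          calc CK * x ^ (-δ) * Real.exp (-(x / 2)) ≤ CK * 1 * 1 := by
                refine mul_le_mul (mul_le_mul_of_nonneg_left h4 hCK0) ?_ (Real.exp_pos _).le
                  (by positivity)
                exact Real.exp_le_one_iff.2 (by linarith)
            _ = _ := by ring
        rw [hN']
        linarith
      have hsq := p4_sq hG hG2 (by positivity)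
      have e5 : x * x ^ (-(1 / 2) : ℝ) ≤ x ^ (3 / 4 : ℝ) := by
        have : x * x ^ (-(1 / 2) : ℝ) = x ^ (1 / 2 : ℝ) := by
          nth_rewrite 1 [← Real.rpow_one x]
          rw [← Real.rpow_add hx]
          norm_num
        rw [this]
        exact Real.rpow_le_rpow_of_exponent_le hx1 (by norm_num)
      calc 2 * Real.pi / τ * q * x * |‖p3G (δ : ℂ) ε τ x‖ ^ 2 -
            ‖p4A δ ε τ * KK (δ : ℂ) x‖ ^ 2| ≤
          2 * Real.pi / τ * x * (C1 * CV / τ * x ^ (-(1 / 2) : ℝ) * Real.exp (-(c * x)) * N') :=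
            mul_le_mul hqq hsq (abs_nonneg _) (by positivity)
        _ = 2 * Real.pi * (C1 * CV) * N' / τ ^ 2 * (x * x ^ (-(1 / 2) : ℝ)) *
            Real.exp (-(c * x)) := by
            field_simp
        _ ≤ 2 * Real.pi * (C1 * CV) * N' / τ ^ 2 * x ^ (3 / 4 : ℝ) * Real.exp (-(c * x)) := by
            refine mul_le_mul_of_nonneg_right ?_ hEpos.le
            exact mul_le_mul_of_nonneg_left e5 (by positivity)
        _ ≤ _ := by
            refine mul_le_mul_of_nonneg_right ?_ hEpos.le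
            refine mul_le_mul_of_nonneg_right ?_ (by positivity)
            exact div_le_div_of_nonneg_right (by linarith) (by positivity)

end Pool.Agent.JO.FM

namespace Pool.Agent.JO.FM

theorem Ph_asymp_real : type_of% @Ph_asymp_real_pr := @Ph_asymp_real_pr

end Pool.Agent.JO.FM
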