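import Pool.Agent.Lib_helper45.JOM.P3
import Pool.Agent.Lib_helper45.JOM.P4

/-!
# Project JO, part FM: P3 and P4 together
-/

set_option autoImplicit false

namespace Pool.Agent.JO.FM

open Complex Filter Topology MeasureTheory Set
open UpperHalfPlane hiding I
open scoped MatrixGroups ComplexConjugate

variable {ν : ℂ} {ε : ℝ}

/-- P3 and P4 together -/
theorem Ph_asymp (hν : GoodNu ν) (hε : ε = 1 ∨ ε = -1) {θ₀ : ℝ} (h0 : 0 < θ₀)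
    (h1 : θ₀ < Real.pi / 2) : ∃ (e : ℝ → ℝ) (C c : ℝ), 0 < c ∧ ContinuousOn e (Ici 1) ∧
      (∀ τ, 1 ≤ τ → |e τ| ≤ C / τ) ∧ ∀ τ θ : ℝ, 1 ≤ τ → 0 < θ → θ ≤ θ₀ →
      |‖Gs ν ε (ha τ) θ‖ ^ 2 - 2 * Real.pi / τ * (1 + e τ) * ‖WW ν (τ * Real.tan θ)‖ ^ 2| ≤
        C / τ ^ 2 * (τ * Real.tan θ) ^ (3 / 4 : ℝ) * Real.exp (-(c * (τ * Real.tan θ))) := by
  by_cases h : ν.re < 1 / 8
  · exact Ph_asymp_small hν h hε h0 h1
  · exact Ph_asymp_real hν (by linarith) hε h0 h1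

end Pool.Agent.JO.FM
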