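import Pool.Agent.Lib_helper45.JO.Defs2
import Pool.Agent.Lib_helper45.JOM.K3
import Pool.Agent.Lib_helper45.JOM.M3
import Pool.Agent.Lib_helper45.JOM.M7
import Pool.Agent.Lib_helper45.JOM.M9
import Pool.Agent.Lib_helper45.JOM.PHA

/-! Project JO, part FM, block P6: growth of the second moment -/

set_option autoImplicit false

namespace Pool.Agent.JO.FM

open Complex Filter Topology MeasureTheory Set
open UpperHalfPlane hiding I
open scoped MatrixGroups ComplexConjugate

variable {ν : ℂ} {ε : ℝ} {a : ℕ → ℂ} {f : ℍ → ℂ} {L : ℂ → ℂ}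

/-- the symmetrised square -/
noncomputable def p6l (L : ℂ → ℂ) (t : ℝ) : ℝ := ‖L (ha t)‖ ^ 2 + ‖L (ha (-t))‖ ^ 2

theorem p6_ha_re (t : ℝ) : (ha t).re = 1 / 2 := by simp [ha]

theorem p6_cont (hL : LFun ν ε a f L) : Continuous (p6l L) := by
  have h1 : Continuous fun t : ℝ => ha t := by unfold ha; fun_prop
  have h2 : Continuous fun t : ℝ => ha (-t) := by unfold ha; fun_prop
  exact ((hL.diff.continuous.comp h1).norm.pow 2).add ((hL.diff.continuous.comp h2).norm.pow 2)

theorem p6_nonneg (L : ℂ → ℂ) (t : ℝ) : 0 ≤ p6l L t := by unfold p6l; positivity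

theorem p6_symm (F : Frame0 ν ε a f) {t θ : ℝ} (hθ : θ ∈ Ioo 0 Real.pi) :
    ‖Gs ν ε (ha (-t)) θ‖ = ‖Gs ν ε (ha t) θ‖ := by
  have h1 := (Gs_symm F.nu F.eps (s := ha t) (θ := (θ : ℂ)) (by rw [p6_ha_re]; exact F.nu.lt_half)
    (by simpa using hθ.1) (by simpa using hθ.2)).2
  have h2 : conj (ha t) = ha (-t) := by
    apply Complex.ext <;> simp [ha]
  rw [h2, Complex.conj_ofReal] at h1
  have h3 := congrArg norm h1
  rw [RCLike.norm_conj, norm_mul, Complex.norm_real] at h3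
  rw [h3]
  rcases F.eps with h | h
  · rw [h]; simp
  · rw [h]; simp

/-- one dyadic block against the ray integral -/
theorem p6_block (F : Frame0 ν ε a f) (hL : LFun ν ε a f L) : ∃ T₀ C : ℝ, 1 ≤ T₀ ∧ 0 ≤ C ∧
    ∀ T : ℝ, T₀ ≤ T → ∫ t in T..(2 * T), p6l L t ≤ C * T * (1 + Real.log (2 * Real.pi * T)) := by
  obtain ⟨x₀, hx₀, hlow⟩ := WW_low F.nu
  have h2π : (1 : ℝ) < Real.pi / 2 := by
    have := Real.pi_gt_three
    linarith
  obtain ⟨e, C₁, c, hc, -, he, has⟩ := Ph_asymp F.nu F.eps (θ₀ := 1) one_pos h2π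
  obtain ⟨C₂, hray⟩ := ray_le F
  have hx0 : 0 < x₀ := by linarith
  set w : ℝ := Real.exp (-(4 * x₀)) with hw
  have hw0 : 0 < w := Real.exp_pos _
  have hw1 : w ≤ 1 := Real.exp_le_one_iff.2 (by linarith)
  set B : ℝ := |C₁| * (2 * x₀) ^ (3 / 4 : ℝ) with hB
  have hB0 : 0 ≤ B := by positivity
  set T₀ : ℝ := x₀ + 2 * |C₁| + B / w with hT₀
  refine ⟨T₀, 4 * Real.pi * |C₂| / w, ?_, by positivity, ?_⟩
  · have : 0 ≤ B / w := by positivity
    have := abs_nonneg C₁
    linarith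
  intro T hT
  have hBw : 0 ≤ B / w := by positivity
  have hC1 := abs_nonneg C₁
  have hTx : x₀ ≤ T := by linarith
  have hT0 : 0 < T := by linarith
  set v : ℝ := x₀ / T with hv
  have hv0 : 0 < v := by positivity
  have hv1 : v ≤ 1 := by rw [hv, div_le_one hT0]; exact hTx
  set θ : ℝ := Real.arctan v with hθ
  have htan : Real.tan θ = v := Real.tan_arctan v
  have hθ0 : 0 < θ := Real.arctan_pos.2 hv0
  have hθ1 : θ ≤ Real.pi / 4 := by
    rw [hθ, ← Real.arctan_one]
    exact Real.arctan_strictMono.monotone hv1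
  have hθ1' : θ ≤ 1 := by
    have := Real.pi_lt_four
    linarith
  have hθ2 : θ ≤ Real.pi / 2 := by
    have := Real.pi_pos
    linarith
  have hθπ : θ ∈ Ioo 0 Real.pi := ⟨hθ0, by have := Real.pi_pos; linarith⟩
  have hθlow : v / 2 ≤ θ := by
    have h1 : Real.tan θ ≤ 2 * θ := by
      -- tan θ ≤ θ / cos θ and cos θ ≥ 1/2
      have hcos : 1 / 2 ≤ Real.cos θ := by
        rw [← Real.cos_pi_div_three]
        apply Real.cos_le_cos_of_nonneg_of_le_pi hθ0.le (by have := Real.pi_pos; linarith)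
        have := Real.pi_pos
        linarith
      rw [Real.tan_eq_sin_div_cos, div_le_iff₀ (by linarith)]
      have := Real.sin_le hθ0.le
      nlinarith
    rw [htan] at h1
    linarith
  -- lower bound of `Gs`
  have hG : ∀ τ ∈ Icc T (2 * T), w / τ ≤ ‖Gs ν ε (ha τ) θ‖ ^ 2 := by
    intro τ hτ
    have hτ0 : 0 < τ := by linarith [hτ.1]
    have hτ1 : 1 ≤ τ := by linarith [hτ.1]
    have hxl : x₀ ≤ τ * v := by
      rw [hv, mul_div_assoc', le_div_iff₀ hT0]
      nlinarith [hτ.1]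
    have hxu : τ * v ≤ 2 * x₀ := by
      rw [hv, mul_div_assoc', div_le_iff₀ hT0]
      nlinarith [hτ.2]
    have h1 := has τ θ hτ1 hθ0 hθ1'
    rw [htan] at h1
    have h2 : w ≤ ‖WW ν (τ * v)‖ ^ 2 := by
      have h3 := hlow (τ * v) hxl
      have h4 : Real.exp (-(2 * x₀)) ≤ ‖WW ν (τ * v)‖ := by
        refine le_trans ?_ ((h3.trans (le_abs_self _)).trans (Complex.abs_re_le_norm _))
        exact Real.exp_le_exp.2 (by linarith)
      have h5 : w = Real.exp (-(2 * x₀)) ^ 2 := by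
        rw [hw, ← Real.exp_nat_mul]
        congr 1
        push_cast
        ring
      rw [h5]
      gcongr
    have h3 : C₁ / τ ^ 2 * (τ * v) ^ (3 / 4 : ℝ) * Real.exp (-(c * (τ * v))) ≤ B / τ ^ 2 := by
      have e1 : (τ * v) ^ (3 / 4 : ℝ) ≤ (2 * x₀) ^ (3 / 4 : ℝ) :=
        Real.rpow_le_rpow (by positivity) hxu (by norm_num)
      have e2 : Real.exp (-(c * (τ * v))) ≤ 1 := Real.exp_le_one_iff.2 (by
        have : 0 < c * (τ * v) := by positivity
        linarith)
      calc C₁ / τ ^ 2 * (τ * v) ^ (3 / 4 : ℝ) * Real.exp (-(c * (τ * v)))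
          ≤ |C₁| / τ ^ 2 * (τ * v) ^ (3 / 4 : ℝ) * Real.exp (-(c * (τ * v))) := by
            gcongr
            exact le_abs_self _
        _ ≤ |C₁| / τ ^ 2 * (2 * x₀) ^ (3 / 4 : ℝ) * 1 := by gcongr
        _ = B / τ ^ 2 := by rw [hB]; ring
    have h4 : 1 / 2 ≤ 1 + e τ := by
      have e1 := he τ hτ1
      have e2 : C₁ / τ ≤ 1 / 2 := by
        rw [div_le_iff₀ hτ0]
        have := le_abs_self C₁
        linarith [hτ.1]
      have := abs_le.1 (e1.trans e2)
      linarith [this.1]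
    have h5 : Real.pi * w / τ ≤ 2 * Real.pi / τ * (1 + e τ) * ‖WW ν (τ * v)‖ ^ 2 := by
      calc Real.pi * w / τ = 2 * Real.pi / τ * (1 / 2) * w := by ring
        _ ≤ 2 * Real.pi / τ * (1 + e τ) * ‖WW ν (τ * v)‖ ^ 2 := by
          have := Real.pi_pos
          gcongr
    have h6 : B / τ ^ 2 ≤ w / τ := by
      rw [div_le_div_iff₀ (by positivity) hτ0]
      have : B ≤ w * τ := by
        have h7 : B / w ≤ τ := by linarith [hτ.1]
        rw [div_le_iff₀ hw0] at h7
        linarith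
      nlinarith
    have h7 := abs_le.1 (h1.trans h3)
    have h8 : 3 * w / τ ≤ Real.pi * w / τ := by
      have := Real.pi_gt_three
      gcongr
    have h9 : 3 * w / τ = 3 * (w / τ) := by ring
    have h10 : 0 < w / τ := by positivity
    linarith [h7.1]
  obtain ⟨hint, hpar⟩ := ray_phi F hL hθπ
  -- the integral over the block
  set Φ : ℝ → ℝ := fun t => ‖L (ha t)‖ ^ 2 * ‖Gs ν ε (ha t) θ‖ ^ 2 with hΦ
  have hΦ0 : ∀ t, 0 ≤ Φ t := fun t => by simp only [hΦ]; positivity
  have hray' : ∫ t : ℝ, Φ t = 2 * Real.pi * ‖ray (phi f) θ‖ := by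
    have h1 : 0 ≤ (2 * Real.pi)⁻¹ * ∫ t : ℝ, Φ t := by
      have := integral_nonneg (f := Φ) (μ := volume) hΦ0
      have := Real.pi_pos
      positivity
    rw [hpar, Complex.norm_real, Real.norm_of_nonneg h1]
    have := Real.pi_pos
    field_simp
  have hpos : (∫ t in Ioc T (2 * T), Φ t) + (∫ t in Ioc T (2 * T), Φ (-t)) ≤ ∫ t : ℝ, Φ t := by
    have h1 : ∫ t in Ioc T (2 * T), Φ (-t) = ∫ t in Ico (-(2 * T)) (-T), Φ t := by
      rw [← intervalIntegral.integral_of_le (by linarith), intervalIntegral.integral_comp_neg,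
        intervalIntegral.integral_of_le (by linarith), ← integral_Icc_eq_integral_Ioc,
        integral_Icc_eq_integral_Ico]
    rw [h1, ← setIntegral_union _ measurableSet_Ico hint.integrableOn hint.integrableOn]
    · exact setIntegral_le_integral hint (Eventually.of_forall hΦ0)
    · rw [Set.disjoint_left]
      intro t h2 h3
      linarith [h2.1, h3.2]
  have hsum : (∫ t in Ioc T (2 * T), Φ t) + (∫ t in Ioc T (2 * T), Φ (-t)) =
      ∫ t in Ioc T (2 * T), p6l L t * ‖Gs ν ε (ha t) θ‖ ^ 2 := by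
    rw [← integral_add]
    · refine setIntegral_congr_fun measurableSet_Ioc (fun t _ => ?_)
      simp only [hΦ, p6l]
      rw [p6_symm F hθπ]
      ring
    · exact hint.integrableOn
    · exact hint.comp_neg.integrableOn
  have hIntG : IntegrableOn (fun t => p6l L t * ‖Gs ν ε (ha t) θ‖ ^ 2) (Ioc T (2 * T)) := by
    have h1 : IntegrableOn (fun t => Φ t + Φ (-t)) (Ioc T (2 * T)) :=
      hint.integrableOn.add hint.comp_neg.integrableOn
    refine h1.congr_fun (fun t _ => ?_) measurableSet_Ioc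
    simp only [hΦ, p6l]
    rw [p6_symm F hθπ]
    ring
  have hlast : w / (2 * T) * ∫ t in Ioc T (2 * T), p6l L t ≤
      ∫ t in Ioc T (2 * T), p6l L t * ‖Gs ν ε (ha t) θ‖ ^ 2 := by
    rw [← integral_const_mul]
    refine setIntegral_mono_on ?_ hIntG measurableSet_Ioc (fun t ht => ?_)
    · exact ((p6_cont hL).continuousOn.integrableOn_compact isCompact_Icc).mono_set
        Ioc_subset_Icc_self |>.const_mul _
    · have h1 := hG t ⟨ht.1.le, ht.2⟩
      have h2 : w / (2 * T) ≤ w / t := by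
        apply div_le_div_of_nonneg_left hw0.le (by linarith [ht.1]) ht.2
      rw [mul_comm]
      exact mul_le_mul_of_nonneg_left (h2.trans h1) (p6_nonneg L t)
  have hlog : Real.log (Real.pi / θ) ≤ Real.log (2 * Real.pi * T) := by
    apply Real.log_le_log (by have := Real.pi_pos; positivity)
    rw [div_le_iff₀ hθ0]
    have h1 : 1 / 2 ≤ T * θ := by
      have : T * (v / 2) ≤ T * θ := by gcongr
      have h2 : T * (v / 2) = x₀ / 2 := by rw [hv]; field_simp
      linarith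
    have := Real.pi_pos
    nlinarith
  have hr := hray θ hθ0 hθ2
  have hlog0 : 0 ≤ Real.log (Real.pi / θ) := by
    apply Real.log_nonneg
    rw [le_div_iff₀ hθ0]
    linarith [hθπ.2]
  have hfin : w / (2 * T) * ∫ t in Ioc T (2 * T), p6l L t ≤
      2 * Real.pi * (|C₂| * (1 + Real.log (2 * Real.pi * T))) := by
    refine hlast.trans ?_
    rw [← hsum]
    refine hpos.trans ?_
    rw [hray']
    have := Real.pi_pos
    have h1 : ‖ray (phi f) θ‖ ≤ |C₂| * (1 + Real.log (2 * Real.pi * T)) := by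
      refine hr.trans ?_
      calc C₂ * (1 + Real.log (Real.pi / θ)) ≤ |C₂| * (1 + Real.log (Real.pi / θ)) := by
            gcongr
            exact le_abs_self _
        _ ≤ |C₂| * (1 + Real.log (2 * Real.pi * T)) := by gcongr
    gcongr
  rw [intervalIntegral.integral_of_le (by linarith)]
  have h1 : ∫ t in Ioc T (2 * T), p6l L t =
      2 * T / w * (w / (2 * T) * ∫ t in Ioc T (2 * T), p6l L t) := by
    field_simp
  rw [h1]
  calc 2 * T / w * (w / (2 * T) * ∫ t in Ioc T (2 * T), p6l L t)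
      ≤ 2 * T / w * (2 * Real.pi * (|C₂| * (1 + Real.log (2 * Real.pi * T)))) := by gcongr
    _ = _ := by ring

theorem p6_log (K : ℝ) : ∃ C : ℝ, 0 ≤ C ∧ ∀ T : ℝ, 1 ≤ T →
    K * T * (1 + Real.log (2 * Real.pi * T)) ≤ C * T ^ (9 / 8 : ℝ) := by
  refine ⟨|K| * (1 + Real.log (2 * Real.pi) + 8), ?_, fun T hT => ?_⟩
  · have : 0 ≤ Real.log (2 * Real.pi) := Real.log_nonneg (by have := Real.pi_gt_three; linarith)
    positivity
  have hT0 : 0 < T := by linarith
  have hpi := Real.pi_pos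
  have h1 : Real.log T ≤ 8 * T ^ (1 / 8 : ℝ) := by
    have h2 := Real.log_le_rpow_div hT0.le (show (0 : ℝ) < 1 / 8 by norm_num)
    linarith
  have h3 : (1 : ℝ) ≤ T ^ (1 / 8 : ℝ) := Real.one_le_rpow hT (by norm_num)
  have h4 : Real.log (2 * Real.pi * T) = Real.log (2 * Real.pi) + Real.log T :=
    Real.log_mul (by positivity) hT0.ne'
  have h5 : T ^ (9 / 8 : ℝ) = T * T ^ (1 / 8 : ℝ) := by
    rw [show (9 / 8 : ℝ) = 1 + 1 / 8 by norm_num, Real.rpow_add hT0, Real.rpow_one]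
  have h6 : 0 ≤ Real.log (2 * Real.pi) := Real.log_nonneg (by have := Real.pi_gt_three; linarith)
  have h7 : 0 ≤ Real.log T := Real.log_nonneg hT
  rw [h4, h5]
  calc K * T * (1 + (Real.log (2 * Real.pi) + Real.log T))
      ≤ |K| * T * (1 + (Real.log (2 * Real.pi) + Real.log T)) := by
        gcongr
        exact le_abs_self K
    _ ≤ |K| * T * ((1 + Real.log (2 * Real.pi) + 8) * T ^ (1 / 8 : ℝ)) := by
        gcongr
        nlinarith
    _ = _ := by ring

/-- P6: growth of the second moment -/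
theorem growth_pr (F : Frame0 ν ε a f) (hL : LFun ν ε a f L) : ∃ C : ℝ, ∀ T : ℝ, 1 ≤ T →
    ∫ t in (0 : ℝ)..T, (‖L (ha t)‖ ^ 2 + ‖L (ha (-t))‖ ^ 2) ≤ C * T ^ (9 / 8 : ℝ) := by
  obtain ⟨T₀, C₁, hT₀, hC₁, hblock⟩ := p6_block F hL
  obtain ⟨C₂, hC₂, hlog⟩ := p6_log C₁
  set N : ℝ → ℝ := fun T => ∫ t in (0 : ℝ)..T, p6l L t with hN
  have hii : ∀ x y : ℝ, IntervalIntegrable (p6l L) volume x y := fun x y =>
    (p6_cont hL).intervalIntegrable x y
  have hmono : ∀ x y : ℝ, 0 ≤ x → x ≤ y → N x ≤ N y := by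
    intro x y _ hxy
    have h1 : N y = N x + ∫ t in x..y, p6l L t :=
      (intervalIntegral.integral_add_adjacent_intervals (hii 0 x) (hii x y)).symm
    have h2 : 0 ≤ ∫ t in x..y, p6l L t :=
      intervalIntegral.integral_nonneg hxy (fun t _ => p6_nonneg L t)
    linarith
  have hN0 : ∀ x, 0 ≤ x → 0 ≤ N x := by
    intro x hx
    exact intervalIntegral.integral_nonneg hx (fun t _ => p6_nonneg L t)
  set C : ℝ := N (2 * T₀) + C₂ with hC
  have hC0 : 0 ≤ C := by
    have := hN0 (2 * T₀) (by linarith)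
    linarith
  have key : ∀ n : ℕ, ∀ T : ℝ, 1 ≤ T → T ≤ 2 ^ n * (2 * T₀) → N T ≤ C * T ^ (9 / 8 : ℝ) := by
    intro n
    induction n with
    | zero =>
      intro T hT hT2
      rw [pow_zero, one_mul] at hT2
      have h1 := hmono T (2 * T₀) (by linarith) hT2
      have h2 : (1 : ℝ) ≤ T ^ (9 / 8 : ℝ) := Real.one_le_rpow hT (by norm_num)
      nlinarith
    | succ n ih =>
      intro T hT hT2
      by_cases hle : T ≤ 2 ^ n * (2 * T₀)
      · exact ih T hT hle
      push Not at hle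
      have h2n : (1 : ℝ) ≤ 2 ^ n := one_le_pow₀ (by norm_num)
      have hT3 : T₀ ≤ T / 2 := by nlinarith
      have hT4 : T / 2 ≤ 2 ^ n * (2 * T₀) := by rw [pow_succ] at hT2; linarith
      have h1 := ih (T / 2) (by linarith) hT4
      have h2 := (hblock (T / 2) hT3).trans (hlog (T / 2) (by linarith))
      have h3 : N T = N (T / 2) + ∫ t in (T / 2)..(2 * (T / 2)), p6l L t := by
        rw [show 2 * (T / 2) = T by ring]
        exact (intervalIntegral.integral_add_adjacent_intervals (hii 0 (T / 2))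
          (hii (T / 2) T)).symm
      have h4 : (T / 2) ^ (9 / 8 : ℝ) ≤ T ^ (9 / 8 : ℝ) / 2 := by
        rw [Real.div_rpow (by linarith) (by norm_num)]
        apply div_le_div_of_nonneg_left (by positivity) (by norm_num)
        calc (2 : ℝ) = 2 ^ (1 : ℝ) := (Real.rpow_one 2).symm
          _ ≤ 2 ^ (9 / 8 : ℝ) := Real.rpow_le_rpow_of_exponent_le (by norm_num) (by norm_num)
      have h5 : C₂ ≤ C := by
        have := hN0 (2 * T₀) (by linarith)
        linarith
      have h6 : 0 ≤ (T / 2) ^ (9 / 8 : ℝ) := by positivity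
      rw [h3]
      calc N (T / 2) + ∫ t in (T / 2)..(2 * (T / 2)), p6l L t
          ≤ C * (T / 2) ^ (9 / 8 : ℝ) + C₂ * (T / 2) ^ (9 / 8 : ℝ) := add_le_add h1 h2
        _ ≤ C * (T / 2) ^ (9 / 8 : ℝ) + C * (T / 2) ^ (9 / 8 : ℝ) := by gcongr
        _ = 2 * C * (T / 2) ^ (9 / 8 : ℝ) := by ring
        _ ≤ 2 * C * (T ^ (9 / 8 : ℝ) / 2) := by gcongr
        _ = C * T ^ (9 / 8 : ℝ) := by ring
  refine ⟨C, fun T hT => ?_⟩
  obtain ⟨n, hn⟩ := pow_unbounded_of_one_lt T (show (1 : ℝ) < 2 by norm_num)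
  refine key n T hT ?_
  have : (0 : ℝ) < 2 ^ n := by positivity
  nlinarith

/-- P6: consequence -/
theorem growth_int_pr (F : Frame0 ν ε a f) (hL : LFun ν ε a f L) {α : ℝ} (hα : 9 / 8 < α) :
    IntegrableOn (fun t : ℝ => (‖L (ha t)‖ ^ 2 + ‖L (ha (-t))‖ ^ 2) * t ^ (-α)) (Ici 1) := by
  obtain ⟨C, hC⟩ := growth_pr F hL
  change IntegrableOn (fun t : ℝ => p6l L t * t ^ (-α)) (Ici 1)
  rw [integrableOn_Ici_iff_integrableOn_Ioi]
  have hcont : ContinuousOn (fun t : ℝ => p6l L t * t ^ (-α)) (Ioi 0) := by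
    refine (p6_cont hL).continuousOn.mul ?_
    exact continuousOn_id.rpow_const (fun t ht => Or.inl (ne_of_gt ht))
  have hii : ∀ x y : ℝ, 0 < x → x ≤ y → IntervalIntegrable (fun t : ℝ => p6l L t * t ^ (-α))
      volume x y := by
    intro x y hx hxy
    apply ContinuousOn.intervalIntegrable
    apply hcont.mono
    rw [uIcc_of_le hxy]
    intro t ht
    exact lt_of_lt_of_le hx ht.1
  set r : ℝ := 2 ^ (9 / 8 - α : ℝ) with hr
  have hr0 : 0 < r := by positivity
  have hr1 : r < 1 := Real.rpow_lt_one_of_one_lt_of_neg (by norm_num) (by linarith)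
  have hC0 : 0 ≤ C := by
    have h1 := hC 1 le_rfl
    rw [Real.one_rpow, mul_one] at h1
    refine le_trans ?_ h1
    exact intervalIntegral.integral_nonneg zero_le_one (fun t _ => by positivity)
  -- one dyadic block
  have hb : ∀ k : ℕ, ∫ t in ((2 : ℝ) ^ k)..(2 : ℝ) ^ (k + 1), p6l L t * t ^ (-α) ≤
      C * 2 ^ (9 / 8 : ℝ) * r ^ k := by
    intro k
    have h2k : (1 : ℝ) ≤ 2 ^ k := one_le_pow₀ (by norm_num)
    have hle : (2 : ℝ) ^ k ≤ 2 ^ (k + 1) := by rw [pow_succ]; linarith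
    have h2k0 : (0 : ℝ) < 2 ^ k := by linarith
    calc ∫ t in ((2 : ℝ) ^ k)..(2 : ℝ) ^ (k + 1), p6l L t * t ^ (-α)
        ≤ ∫ t in ((2 : ℝ) ^ k)..(2 : ℝ) ^ (k + 1), p6l L t * ((2 : ℝ) ^ k) ^ (-α) := by
          apply intervalIntegral.integral_mono_on hle (hii _ _ h2k0 hle)
            ((p6_cont hL).mul continuous_const |>.intervalIntegrable _ _)
          intro t ht
          apply mul_le_mul_of_nonneg_left _ (p6_nonneg L t)
          exact Real.rpow_le_rpow_of_nonpos h2k0 ht.1 (by linarith)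
      _ = (∫ t in ((2 : ℝ) ^ k)..(2 : ℝ) ^ (k + 1), p6l L t) * ((2 : ℝ) ^ k) ^ (-α) := by
          rw [intervalIntegral.integral_mul_const]
      _ ≤ (∫ t in (0 : ℝ)..(2 : ℝ) ^ (k + 1), p6l L t) * ((2 : ℝ) ^ k) ^ (-α) := by
          apply mul_le_mul_of_nonneg_right _ (by positivity)
          have h1 := intervalIntegral.integral_add_adjacent_intervals
            ((p6_cont hL).intervalIntegrable (μ := volume) 0 ((2 : ℝ) ^ k))
            ((p6_cont hL).intervalIntegrable ((2 : ℝ) ^ k) ((2 : ℝ) ^ (k + 1)))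
          have h2 : 0 ≤ ∫ t in (0 : ℝ)..(2 : ℝ) ^ k, p6l L t :=
            intervalIntegral.integral_nonneg (by linarith) (fun t _ => p6_nonneg L t)
          linarith
      _ ≤ (C * ((2 : ℝ) ^ (k + 1)) ^ (9 / 8 : ℝ)) * ((2 : ℝ) ^ k) ^ (-α) := by
          apply mul_le_mul_of_nonneg_right _ (by positivity)
          exact hC _ (h2k.trans hle)
      _ = C * 2 ^ (9 / 8 : ℝ) * r ^ k := by
          rw [hr, pow_succ, Real.mul_rpow (by positivity) (by norm_num)]
          have h1 : ((2 : ℝ) ^ k) ^ (9 / 8 : ℝ) * ((2 : ℝ) ^ k) ^ (-α) =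
              ((2 : ℝ) ^ (9 / 8 - α : ℝ)) ^ k := by
            rw [← Real.rpow_add h2k0, ← Real.rpow_natCast 2 k, ← Real.rpow_mul (by norm_num),
              ← Real.rpow_natCast _ k, ← Real.rpow_mul (by norm_num)]
            congr 1
            ring
          rw [← h1]
          ring
  have hsum : ∀ n : ℕ, ∫ t in (1 : ℝ)..(2 : ℝ) ^ n, p6l L t * t ^ (-α) ≤
      C * 2 ^ (9 / 8 : ℝ) * ∑ k ∈ Finset.range n, r ^ k := by
    intro n
    induction n with
    | zero => simp
    | succ n ih =>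
      have h2n : (1 : ℝ) ≤ 2 ^ n := one_le_pow₀ (by norm_num)
      have hle : (2 : ℝ) ^ n ≤ 2 ^ (n + 1) := by rw [pow_succ]; linarith
      rw [← intervalIntegral.integral_add_adjacent_intervals (hii 1 _ one_pos h2n)
        (hii _ _ (by linarith) hle), Finset.sum_range_succ, mul_add]
      exact add_le_add ih (hb n)
  apply integrableOn_Ioi_of_intervalIntegral_norm_bounded (l := atTop) (b := fun n : ℕ => (2 : ℝ) ^ n)
    (C * 2 ^ (9 / 8 : ℝ) * (1 - r)⁻¹) 1
  · intro n
    have h2n : (1 : ℝ) ≤ 2 ^ n := one_le_pow₀ (by norm_num)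
    exact ((intervalIntegrable_iff_integrableOn_Ioc_of_le h2n).1 (hii 1 _ one_pos h2n))
  · exact tendsto_pow_atTop_atTop_of_one_lt (by norm_num)
  · refine Eventually.of_forall (fun n => ?_)
    have h2n : (1 : ℝ) ≤ 2 ^ n := one_le_pow₀ (by norm_num)
    have h1 : ∫ t in (1 : ℝ)..(2 : ℝ) ^ n, ‖p6l L t * t ^ (-α)‖ =
        ∫ t in (1 : ℝ)..(2 : ℝ) ^ n, p6l L t * t ^ (-α) := by
      apply intervalIntegral.integral_congr
      intro t ht
      rw [uIcc_of_le h2n] at ht
      have ht0 : 0 < t := by linarith [ht.1]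
      exact Real.norm_of_nonneg (mul_nonneg (p6_nonneg L t) (by positivity))
    rw [h1]
    refine (hsum n).trans ?_
    apply mul_le_mul_of_nonneg_left _ (by positivity)
    rw [geom_sum_eq hr1.ne, ← neg_div_neg_eq, neg_sub, neg_sub, ← one_div,
      div_le_div_iff_of_pos_right (by linarith)]
    have : 0 < r ^ n := by positivity
    linarith

end Pool.Agent.JO.FM

namespace Pool.Agent.JO.FM

theorem growth : type_of% @growth_pr := @growth_pr
theorem growth_int : type_of% @growth_int_pr := @growth_int_pr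

end Pool.Agent.JO.FM
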