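import Pool.Agent.Lib_helper45.JO.Defs2
import Pool.Agent.Lib_helper45.JOM.K2

/-! JO part FM, block C7 (helper90): bounds for sums over the coefficients. -/

set_option autoImplicit false

namespace Pool.Agent.JO.FM

open Complex Filter Topology MeasureTheory Set
open UpperHalfPlane hiding I
open scoped MatrixGroups ComplexConjugate

theorem c7_pow_exp {s c : ℝ} (hs : 0 ≤ s) (hc : 0 < c) :
    ∃ C : ℝ, 1 ≤ C ∧ ∀ x : ℝ, 0 < x → x ^ s * Real.exp (-(c * x)) ≤ C := by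
  have h := tendsto_rpow_mul_exp_neg_mul_atTop_nhds_zero s c hc
  have h1 : ∀ᶠ x : ℝ in atTop, x ^ s * Real.exp (-c * x) < 1 :=
    h.eventually (gt_mem_nhds one_pos)
  obtain ⟨x₀, hx₀⟩ := eventually_atTop.1 h1
  refine ⟨max 1 (max x₀ 1 ^ s), le_max_left _ _, fun x hx => ?_⟩
  rcases le_or_gt x₀ x with h2 | h2
  · have h3 := (hx₀ x h2).le
    rw [neg_mul] at h3
    exact h3.trans (le_max_left _ _)
  · have h3 : x ^ s ≤ max x₀ 1 ^ s :=
      Real.rpow_le_rpow hx.le (h2.le.trans (le_max_left _ _)) hs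
    have h4 : Real.exp (-(c * x)) ≤ 1 := Real.exp_le_one_iff.2 (by nlinarith)
    have h5 : 0 ≤ x ^ s := Real.rpow_nonneg hx.le _
    calc x ^ s * Real.exp (-(c * x)) ≤ x ^ s * 1 := mul_le_mul_of_nonneg_left h4 h5
      _ ≤ max x₀ 1 ^ s := by rw [mul_one]; exact h3
      _ ≤ _ := le_max_right _ _

/-- the profile -/
noncomputable def c7_h (a : ℝ) (i : ℤ) : ℝ := min ((((2 : ℝ) ^ (i + 2)) ^ a) ^ 2) (((2 : ℝ) ^ i)⁻¹)

theorem c7_h_nonneg (a : ℝ) (i : ℤ) : 0 ≤ c7_h a i := by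
  unfold c7_h
  refine le_min (sq_nonneg _) (inv_nonneg.2 (zpow_nonneg (by norm_num) _))

theorem c7_h_sum {a : ℝ} (ha : 0 < a) : Summable (c7_h a) := by
  refine Summable.of_nat_of_neg ?_ ?_
  · refine Summable.of_nonneg_of_le (fun n => c7_h_nonneg a _) (fun n => ?_)
      (summable_geometric_of_lt_one (r := (1 / 2 : ℝ)) (by norm_num) (by norm_num))
    refine (min_le_right _ _).trans (le_of_eq ?_)
    rw [zpow_natCast, one_div, inv_pow]
  · have hr : (2 : ℝ) ^ (-(2 * a)) < 1 := Real.rpow_lt_one_of_one_lt_of_neg (by norm_num) (by linarith)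
    have hr0 : (0 : ℝ) ≤ (2 : ℝ) ^ (-(2 * a)) := Real.rpow_nonneg (by norm_num) _
    refine Summable.of_nonneg_of_le (fun n => c7_h_nonneg a _) (fun n => ?_)
      ((summable_geometric_of_lt_one hr0 hr).mul_left ((4 : ℝ) ^ (2 * a)))
    refine (min_le_left _ _).trans (le_of_eq ?_)
    rw [← Real.rpow_intCast, ← Real.rpow_mul (by norm_num), ← Real.rpow_natCast,
      ← Real.rpow_mul (by norm_num), ← Real.rpow_natCast ((2 : ℝ) ^ (-(2 * a))) n,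
      ← Real.rpow_mul (by norm_num), show (4 : ℝ) = 2 ^ (2 : ℝ) by norm_num,
      ← Real.rpow_mul (by norm_num), ← Real.rpow_add (by norm_num)]
    congr 1
    push_cast
    ring

theorem c7_prof {a c : ℝ} (ha : 0 < a) (hc : 0 < c) :
    ∃ C : ℝ, 1 ≤ C ∧ ∀ (x : ℝ) (i : ℤ), (2 : ℝ) ^ i ≤ x → x ≤ (2 : ℝ) ^ (i + 2) →
      (x ^ a) ^ 2 * Real.exp (-(c * x)) ≤ C * c7_h a i := by
  obtain ⟨C, hC, h⟩ := c7_pow_exp (s := 2 * a + 1) (c := c) (by linarith) hc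
  refine ⟨C, hC, fun x i h1 h2 => ?_⟩
  have hi : (0 : ℝ) < (2 : ℝ) ^ i := zpow_pos (by norm_num) _
  have hx : 0 < x := hi.trans_le h1
  have hxa : 0 ≤ x ^ a := Real.rpow_nonneg hx.le _
  have he : Real.exp (-(c * x)) ≤ 1 := Real.exp_le_one_iff.2 (by nlinarith)
  unfold c7_h
  rw [mul_min_of_nonneg _ _ (by linarith)]
  refine le_min ?_ ?_
  · have h3 : (x ^ a) ^ 2 ≤ (((2 : ℝ) ^ (i + 2)) ^ a) ^ 2 :=
      pow_le_pow_left₀ hxa (Real.rpow_le_rpow hx.le h2 ha.le) 2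
    calc (x ^ a) ^ 2 * Real.exp (-(c * x)) ≤ (x ^ a) ^ 2 * 1 :=
          mul_le_mul_of_nonneg_left he (sq_nonneg _)
      _ ≤ 1 * (((2 : ℝ) ^ (i + 2)) ^ a) ^ 2 := by linarith
      _ ≤ C * (((2 : ℝ) ^ (i + 2)) ^ a) ^ 2 :=
          mul_le_mul_of_nonneg_right hC (sq_nonneg _)
  · have h3 := h x hx
    have h4 : x ^ (2 * a + 1) = (x ^ a) ^ 2 * x := by
      rw [Real.rpow_add hx, Real.rpow_one, ← Real.rpow_natCast, ← Real.rpow_mul hx.le]
      congr 2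
      push_cast
      ring
    rw [h4] at h3
    have h5 : (x ^ a) ^ 2 * Real.exp (-(c * x)) ≤ C * x⁻¹ := by
      rw [← div_eq_mul_inv, le_div_iff₀ hx]
      linarith
    refine h5.trans (mul_le_mul_of_nonneg_left ?_ (by linarith))
    exact inv_anti₀ hi h1

/-- the term -/
noncomputable def c7_T (β : ℤ → ℂ) (a c Y : ℝ) (m : ℤ) : ℝ :=
  ‖β m‖ ^ 2 * ((|(m : ℝ)| * Y) ^ a) ^ 2 * Real.exp (-(c * |(m : ℝ)| * Y))

theorem c7_T_nonneg (β : ℤ → ℂ) (a c Y : ℝ) (m : ℤ) : 0 ≤ c7_T β a c Y m := by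
  unfold c7_T
  positivity

theorem c7_block {β : ℤ → ℂ} {a c C₀ C₁ : ℝ}
    (hd : ∀ M : ℕ, 0 < M →
      ∑ m ∈ Finset.Icc M (2 * M), (‖β (m : ℤ)‖ ^ 2 + ‖β (-(m : ℤ))‖ ^ 2) ≤ C₀)
    (hC₁ : 1 ≤ C₁)
    (hp : ∀ (x : ℝ) (i : ℤ), (2 : ℝ) ^ i ≤ x → x ≤ (2 : ℝ) ^ (i + 2) →
      (x ^ a) ^ 2 * Real.exp (-(c * x)) ≤ C₁ * c7_h a i)
    {Y : ℝ} {J : ℤ} (hJ : (2 : ℝ) ^ J ≤ Y) (hJ' : Y < (2 : ℝ) ^ (J + 1)) (j : ℕ) :
    ∑ m ∈ Finset.Ico (2 ^ j : ℕ) (2 ^ (j + 1)), (c7_T β a c Y (m : ℤ) + c7_T β a c Y (-(m : ℤ))) ≤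
      C₀ * (C₁ * c7_h a (J + j)) := by
  have hY : 0 < Y := (zpow_pos (by norm_num : (0 : ℝ) < 2) _).trans_le hJ
  have hh := c7_h_nonneg a (J + j)
  have h1 : ∀ m ∈ Finset.Ico (2 ^ j : ℕ) (2 ^ (j + 1)),
      c7_T β a c Y (m : ℤ) + c7_T β a c Y (-(m : ℤ)) ≤
        (‖β (m : ℤ)‖ ^ 2 + ‖β (-(m : ℤ))‖ ^ 2) * (C₁ * c7_h a (J + j)) := by
    intro m hm
    rw [Finset.mem_Ico] at hm
    have hm1 : (2 : ℝ) ^ j ≤ m := by exact_mod_cast hm.1
    have hm2 : (m : ℝ) ≤ 2 ^ (j + 1) := by exact_mod_cast hm.2.le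
    have hm0 : (0 : ℝ) < m := (pow_pos (by norm_num) _).trans_le hm1
    have h2 : (2 : ℝ) ^ (J + j) ≤ m * Y := by
      rw [zpow_add₀ (by norm_num), zpow_natCast, mul_comm]
      exact mul_le_mul hm1 hJ (zpow_nonneg (by norm_num) _) hm0.le
    have h3 : m * Y ≤ (2 : ℝ) ^ (J + j + 2) := by
      have : J + j + 2 = ((j + 1 : ℕ) : ℤ) + (J + 1) := by push_cast; ring
      rw [this, zpow_add₀ (by norm_num), zpow_natCast]
      exact mul_le_mul hm2 hJ'.le hY.le (by positivity)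
    have h4 := hp _ _ h2 h3
    have e1 : |(((m : ℤ) : ℤ) : ℝ)| = m := by
      rw [Int.cast_natCast, abs_of_pos hm0]
    have e2 : |(((-(m : ℤ)) : ℤ) : ℝ)| = m := by
      rw [Int.cast_neg, abs_neg, e1]
    unfold c7_T
    rw [e1, e2]
    have e3 : c * m * Y = c * (m * Y) := by ring
    rw [e3]
    have h5 : 0 ≤ ‖β (m : ℤ)‖ ^ 2 + ‖β (-(m : ℤ))‖ ^ 2 := by positivity
    calc ‖β (m : ℤ)‖ ^ 2 * ((m * Y) ^ a) ^ 2 * Real.exp (-(c * (m * Y))) +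
          ‖β (-(m : ℤ))‖ ^ 2 * ((m * Y) ^ a) ^ 2 * Real.exp (-(c * (m * Y)))
        = (‖β (m : ℤ)‖ ^ 2 + ‖β (-(m : ℤ))‖ ^ 2) *
          (((m * Y) ^ a) ^ 2 * Real.exp (-(c * (m * Y)))) := by ring
      _ ≤ _ := mul_le_mul_of_nonneg_left h4 h5
  refine (Finset.sum_le_sum h1).trans ?_
  rw [← Finset.sum_mul]
  refine mul_le_mul_of_nonneg_right ?_ (by positivity)
  refine le_trans ?_ (hd (2 ^ j) (by positivity))
  refine Finset.sum_le_sum_of_subset_of_nonneg ?_ fun m _ _ => by positivity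
  intro m hm
  rw [Finset.mem_Ico] at hm
  rw [Finset.mem_Icc]
  refine ⟨hm.1, hm.2.le.trans (le_of_eq ?_)⟩
  rw [pow_succ]
  ring

theorem c7_union_le {f : ℤ → ℝ} (hf : ∀ m, 0 ≤ f m) (s t : Finset ℤ) :
    ∑ m ∈ s ∪ t, f m ≤ ∑ m ∈ s, f m + ∑ m ∈ t, f m := by
  rw [← Finset.sum_union_inter]
  exact le_add_of_nonneg_right (Finset.sum_nonneg fun m _ => hf m)

theorem c7_fin {β : ℤ → ℂ} (hβ : β 0 = 0) {a c : ℝ} (ha : 0 < a) (hc : 0 < c)
    (hd : ∃ C : ℝ, ∀ M : ℕ, 0 < M →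
      ∑ m ∈ Finset.Icc M (2 * M), (‖β (m : ℤ)‖ ^ 2 + ‖β (-(m : ℤ))‖ ^ 2) ≤ C) :
    ∃ C : ℝ, ∀ Y : ℝ, 0 < Y → ∀ s : Finset ℤ, ∑ m ∈ s, c7_T β a c Y m ≤ C := by
  obtain ⟨C₀, hd⟩ := hd
  obtain ⟨C₁, hC₁, hp⟩ := c7_prof ha hc
  have hC₀ : 0 ≤ C₀ := le_trans (Finset.sum_nonneg fun m _ => by positivity) (hd 1 one_pos)
  refine ⟨C₀ * (C₁ * ∑' i : ℤ, c7_h a i), fun Y hY s => ?_⟩
  obtain ⟨J, hJ, hJ'⟩ := exists_mem_Ico_zpow hY (by norm_num : (1 : ℝ) < 2)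
  -- enlarge `s`
  obtain ⟨K, hK⟩ : ∃ K : ℕ, ∀ m ∈ s, m.natAbs < 2 ^ K := by
    refine ⟨s.sup Int.natAbs, fun m hm => ?_⟩
    exact (Finset.le_sup (f := Int.natAbs) hm).trans_lt Nat.lt_two_pow_self
  have h1 : ∀ K : ℕ, ∑ m ∈ Finset.Ico 1 (2 ^ K : ℕ),
      (c7_T β a c Y (m : ℤ) + c7_T β a c Y (-(m : ℤ))) ≤
        ∑ j ∈ Finset.range K, C₀ * (C₁ * c7_h a (J + j)) := by
    intro K
    induction K with
    | zero => simp
    | succ K ih =>
      rw [Finset.sum_range_succ]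
      have h2 : Finset.Ico 1 (2 ^ (K + 1) : ℕ) = Finset.Ico 1 (2 ^ K) ∪ Finset.Ico (2 ^ K) (2 ^ (K + 1))
        := (Finset.Ico_union_Ico_eq_Ico (Nat.one_le_two_pow)
          (Nat.pow_le_pow_right (by norm_num) (Nat.le_succ K))).symm
      rw [h2, Finset.sum_union (Finset.Ico_disjoint_Ico_consecutive _ _ _)]
      exact add_le_add ih (c7_block hd hC₁ hp hJ hJ' K)
  have h2 : ∑ m ∈ s, c7_T β a c Y m ≤ ∑ m ∈ Finset.Ico 1 (2 ^ K : ℕ),
      (c7_T β a c Y (m : ℤ) + c7_T β a c Y (-(m : ℤ))) := by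
    classical
    rw [Finset.sum_add_distrib]
    have hsub : s ⊆ ({0} ∪ (Finset.Ico 1 (2 ^ K : ℕ)).image (fun m : ℕ => (m : ℤ))) ∪
        (Finset.Ico 1 (2 ^ K : ℕ)).image (fun m : ℕ => -(m : ℤ)) := by
      intro m hm
      have h3 := hK m hm
      simp only [Finset.mem_union, Finset.mem_singleton, Finset.mem_image, Finset.mem_Ico]
      rcases lt_trichotomy m 0 with h4 | h4 | h4
      · right
        exact ⟨m.natAbs, ⟨by omega, h3⟩, by omega⟩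
      · left
        left
        exact h4
      · left
        right
        exact ⟨m.natAbs, ⟨by omega, h3⟩, by omega⟩
    refine (Finset.sum_le_sum_of_subset_of_nonneg hsub
      fun m _ _ => c7_T_nonneg β a c Y m).trans ?_
    refine (c7_union_le (fun m => c7_T_nonneg β a c Y m) _ _).trans ?_
    refine add_le_add ?_ ?_
    · refine (c7_union_le (fun m => c7_T_nonneg β a c Y m) _ _).trans ?_
      rw [Finset.sum_singleton, Finset.sum_image fun _ _ _ _ h => by simpa using h]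
      have h0 : c7_T β a c Y 0 = 0 := by
        unfold c7_T
        rw [hβ]
        simp
      rw [h0, zero_add]
    · rw [Finset.sum_image fun _ _ _ _ h => by simpa using h]
  refine h2.trans ((h1 K).trans ?_)
  rw [← Finset.mul_sum, ← Finset.mul_sum]
  refine mul_le_mul_of_nonneg_left (mul_le_mul_of_nonneg_left ?_ (by linarith)) hC₀
  have hs := c7_h_sum ha
  have hinj : Function.Injective (fun j : ℕ => J + (j : ℤ)) := fun i j h => by
    have h' : J + (i : ℤ) = J + (j : ℤ) := h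
    omega
  have h5 : Summable (fun j : ℕ => c7_h a (J + (j : ℤ))) := hs.comp_injective hinj
  refine (h5.sum_le_tsum _ fun j _ => c7_h_nonneg a _).trans ?_
  exact tsum_comp_le_tsum_of_inj hs (fun i => c7_h_nonneg a i) hinj

/-- C7: bounds for sums over the coefficients -/
theorem expn_sum_pr {P : ℕ} (hP : 0 < P) {ν : ℂ} (hν : GoodNu ν) {β : ℤ → ℂ} {F : ℍ → ℂ}
    (h : Expn P ν β F) {b c : ℝ} (hb : b < 1 / 2) (hc : 0 < c) : ∃ C : ℝ, ∀ Y : ℝ, 0 < Y →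
      Summable (fun m : ℤ => ‖β m‖ ^ 2 * ((|(m : ℝ)| * Y) ^ (1 / 2 - b)) ^ 2 *
        Real.exp (-(c * |(m : ℝ)| * Y))) ∧
      ∑' m : ℤ, ‖β m‖ ^ 2 * ((|(m : ℝ)| * Y) ^ (1 / 2 - b)) ^ 2 *
        Real.exp (-(c * |(m : ℝ)| * Y)) ≤ C := by
  obtain ⟨C, hC⟩ := c7_fin h.zero (a := 1 / 2 - b) (c := c) (by linarith) hc h.dyad
  refine ⟨C, fun Y hY => ?_⟩
  have h1 : Summable (c7_T β (1 / 2 - b) c Y) :=
    summable_of_sum_le (fun m => c7_T_nonneg β _ c Y m) (hC Y hY)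
  exact ⟨h1, h1.tsum_le_of_sum_le (hC Y hY)⟩

theorem c7_T_le {β : ℤ → ℂ} {a c : ℝ} (ha : 0 < a) (hc : 0 < c) {y Y : ℝ} (hy : 0 < y)
    (h1 : y ≤ Y) (h2 : Y ≤ 4 * y) (m : ℤ) :
    c7_T β a c Y m ≤ ((4 : ℝ) ^ a) ^ 2 * c7_T β a c y m := by
  have hm : (0 : ℝ) ≤ |(m : ℝ)| := abs_nonneg _
  have h3 : (|(m : ℝ)| * Y) ^ a ≤ (4 : ℝ) ^ a * (|(m : ℝ)| * y) ^ a := by
    rw [← Real.mul_rpow (by norm_num) (mul_nonneg hm hy.le)]
    refine Real.rpow_le_rpow (mul_nonneg hm (hy.le.trans h1)) ?_ ha.le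
    nlinarith
  have h4 : ((|(m : ℝ)| * Y) ^ a) ^ 2 ≤ ((4 : ℝ) ^ a * (|(m : ℝ)| * y) ^ a) ^ 2 :=
    pow_le_pow_left₀ (Real.rpow_nonneg (mul_nonneg hm (hy.le.trans h1)) _) h3 2
  have h5 : Real.exp (-(c * |(m : ℝ)| * Y)) ≤ Real.exp (-(c * |(m : ℝ)| * y)) := by
    refine Real.exp_le_exp.2 (neg_le_neg ?_)
    exact mul_le_mul_of_nonneg_left h1 (mul_nonneg hc.le hm)
  unfold c7_T
  calc ‖β m‖ ^ 2 * ((|(m : ℝ)| * Y) ^ a) ^ 2 * Real.exp (-(c * |(m : ℝ)| * Y))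
      ≤ ‖β m‖ ^ 2 * ((4 : ℝ) ^ a * (|(m : ℝ)| * y) ^ a) ^ 2 * Real.exp (-(c * |(m : ℝ)| * y)) :=
        mul_le_mul (mul_le_mul_of_nonneg_left h4 (sq_nonneg _)) h5 (Real.exp_pos _).le
          (by positivity)
    _ = _ := by ring

theorem c7_T_scale {β : ℤ → ℂ} {a c Y : ℝ} {q : ℕ} (hq : 0 < q) (m : ℤ) :
    c7_T β a c (Y / q) (q * m) = ‖β (q * m)‖ ^ 2 * ((|(m : ℝ)| * Y) ^ a) ^ 2 *
      Real.exp (-(c * |(m : ℝ)| * Y)) := by
  have hq' : (q : ℝ) ≠ 0 := Nat.cast_ne_zero.2 hq.ne'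
  have h1 : |((q * m : ℤ) : ℝ)| = q * |(m : ℝ)| := by
    rw [Int.cast_mul, abs_mul, Int.cast_natCast, abs_of_nonneg (Nat.cast_nonneg q)]
  unfold c7_T
  rw [h1]
  have h2 : (q : ℝ) * |(m : ℝ)| * (Y / q) = |(m : ℝ)| * Y := by field_simp
  have h3 : c * (q * |(m : ℝ)|) * (Y / q) = c * |(m : ℝ)| * Y := by field_simp
  rw [h2, h3]

/-- one term of `Dg` -/
noncomputable def c7_D (P : ℕ) (ν : ℂ) (β : ℤ → ℂ) (q : ℕ) (Y : ℝ) (m : ℤ) : ℂ :=
  β (q * m) * conj (β m) * ((‖WW ν (2 * Real.pi * q * |(m : ℝ)| * Y / P)‖ ^ 2 : ℝ) : ℂ)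

theorem c7_D_bd {P : ℕ} (hP : 0 < P) {ν : ℂ} {β : ℤ → ℂ} (hβ : β 0 = 0) {a CW : ℝ}
    (hW : ∀ x : ℝ, 0 < x → ‖WW ν x‖ ≤ CW * x ^ a * Real.exp (-(x / 2))) {q : ℕ} (hq : 0 < q)
    {Y : ℝ} (hY : 0 < Y) (m : ℤ) :
    ‖c7_D P ν β q Y m‖ ≤ CW ^ 2 * ((2 * Real.pi * q / P) ^ a) ^ 2 / 2 * Real.exp (-(Y / P)) *
      (c7_T β a (Real.pi * q / P) Y m + c7_T β a (Real.pi * q / P) (Y / q) (q * m)) := by
  have hP' : (0 : ℝ) < P := Nat.cast_pos.2 hP
  have hq' : (1 : ℝ) ≤ q := by exact_mod_cast hq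
  have hT1 := c7_T_nonneg β a (Real.pi * q / P) Y m
  have hT2 := c7_T_nonneg β a (Real.pi * q / P) (Y / q) (q * m)
  rcases eq_or_ne m 0 with rfl | hm
  · have h0 : c7_D P ν β q Y 0 = 0 := by
      unfold c7_D
      rw [mul_zero, hβ, zero_mul, zero_mul]
    rw [h0, norm_zero]
    positivity
  have hm1 : (1 : ℝ) ≤ |(m : ℝ)| := by
    rw [← Int.cast_abs]
    exact_mod_cast Int.one_le_abs hm
  have hm0 : (0 : ℝ) < |(m : ℝ)| := by linarith
  set x : ℝ := 2 * Real.pi * q * |(m : ℝ)| * Y / P with hx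
  have hx0 : 0 < x := by positivity
  have hWx := hW x hx0
  have hxa : 0 ≤ x ^ a := Real.rpow_nonneg hx0.le _
  have h1 : ‖WW ν x‖ ^ 2 ≤ CW ^ 2 * (x ^ a) ^ 2 * Real.exp (-x) := by
    have h2 := pow_le_pow_left₀ (norm_nonneg _) hWx 2
    refine h2.trans (le_of_eq ?_)
    rw [mul_pow, mul_pow, ← Real.exp_nat_mul]
    congr 2
    push_cast
    ring
  have h2 : x ^ a = (2 * Real.pi * q / P) ^ a * (|(m : ℝ)| * Y) ^ a := by
    rw [← Real.mul_rpow (by positivity) (by positivity)]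
    congr 1
    rw [hx]
    ring
  have h3 : Real.exp (-x) ≤ Real.exp (-(Y / P)) *
      Real.exp (-(Real.pi * q / P * |(m : ℝ)| * Y)) := by
    rw [← Real.exp_add]
    refine Real.exp_le_exp.2 ?_
    have h4 : Y / P ≤ Real.pi * q / P * |(m : ℝ)| * Y := by
      have h5 : 1 ≤ Real.pi * q * |(m : ℝ)| := by
        have := Real.pi_gt_three
        have h6 : 1 ≤ Real.pi * q := by nlinarith
        nlinarith
      calc Y / P = 1 * (Y / P) := by ring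
        _ ≤ (Real.pi * q * |(m : ℝ)|) * (Y / P) :=
            mul_le_mul_of_nonneg_right h5 (by positivity)
        _ = _ := by ring
    have h5 : x = 2 * (Real.pi * q / P * |(m : ℝ)| * Y) := by rw [hx]; ring
    rw [h5]
    linarith
  have h4 : ‖c7_D P ν β q Y m‖ = ‖β (q * m)‖ * ‖β m‖ * ‖WW ν x‖ ^ 2 := by
    unfold c7_D
    rw [norm_mul, norm_mul, RCLike.norm_conj, Complex.norm_real,
      Real.norm_of_nonneg (by positivity)]
  have h5 : ‖β (q * m)‖ * ‖β m‖ ≤ (‖β m‖ ^ 2 + ‖β (q * m)‖ ^ 2) / 2 := by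
    nlinarith [sq_nonneg (‖β (q * m)‖ - ‖β m‖)]
  have h6 : ‖WW ν x‖ ^ 2 ≤ CW ^ 2 * ((2 * Real.pi * q / P) ^ a) ^ 2 * Real.exp (-(Y / P)) *
      (((|(m : ℝ)| * Y) ^ a) ^ 2 * Real.exp (-(Real.pi * q / P * |(m : ℝ)| * Y))) := by
    refine h1.trans ?_
    rw [h2]
    calc CW ^ 2 * ((2 * Real.pi * q / P) ^ a * (|(m : ℝ)| * Y) ^ a) ^ 2 * Real.exp (-x)
        ≤ CW ^ 2 * ((2 * Real.pi * q / P) ^ a * (|(m : ℝ)| * Y) ^ a) ^ 2 *
          (Real.exp (-(Y / P)) * Real.exp (-(Real.pi * q / P * |(m : ℝ)| * Y))) :=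
          mul_le_mul_of_nonneg_left h3 (by positivity)
      _ = _ := by ring
  rw [h4, c7_T_scale hq]
  unfold c7_T
  calc ‖β (q * m)‖ * ‖β m‖ * ‖WW ν x‖ ^ 2
      ≤ (‖β m‖ ^ 2 + ‖β (q * m)‖ ^ 2) / 2 *
        (CW ^ 2 * ((2 * Real.pi * q / P) ^ a) ^ 2 * Real.exp (-(Y / P)) *
      (((|(m : ℝ)| * Y) ^ a) ^ 2 * Real.exp (-(Real.pi * q / P * |(m : ℝ)| * Y)))) :=
        mul_le_mul h5 h6 (by positivity) (by positivity)
    _ = _ := by ring

/-- C7 -/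
theorem Dg_bdd_pr {P : ℕ} (hP : 0 < P) {ν : ℂ} (hν : GoodNu ν) {β : ℤ → ℂ} {F : ℍ → ℂ}
    (h : Expn P ν β F) {q : ℕ} (hq : 0 < q) :
    ContinuousOn (Dg P ν β q) (Ioi 0) ∧ ∃ C : ℝ, ∀ Y : ℝ, 0 < Y → ‖Dg P ν β q Y‖ ≤ C ∧
      ‖Dg P ν β q Y‖ ≤ C * Real.exp (-(Y / P)) := by
  have hP' : (0 : ℝ) < P := Nat.cast_pos.2 hP
  have hq' : (0 : ℝ) < q := Nat.cast_pos.2 hq
  obtain ⟨b, hb1, hb2⟩ := exists_between hν.lt_half
  obtain ⟨CW, hW⟩ := WW_bound hν hb1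
  have hW' : ∀ x : ℝ, 0 < x → ‖WW ν x‖ ≤ CW * x ^ (1 / 2 - b) * Real.exp (-(x / 2)) :=
    fun x hx => (hW x hx).1
  set a : ℝ := 1 / 2 - b with ha
  have ha0 : 0 < a := by linarith
  set c : ℝ := Real.pi * q / P with hc
  have hc0 : 0 < c := by positivity
  obtain ⟨C, hC⟩ := c7_fin h.zero ha0 hc0 h.dyad
  have hC0 : 0 ≤ C := by
    have := hC 1 one_pos ∅
    simpa using this
  have hsum : ∀ Y : ℝ, 0 < Y → Summable (c7_T β a c Y) ∧ ∑' m, c7_T β a c Y m ≤ C := by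
    intro Y hY
    have h1 : Summable (c7_T β a c Y) :=
      summable_of_sum_le (fun m => c7_T_nonneg β _ c Y m) (hC Y hY)
    exact ⟨h1, h1.tsum_le_of_sum_le (hC Y hY)⟩
  have hinj : Function.Injective (fun m : ℤ => (q : ℤ) * m) := by
    intro m n hmn
    exact mul_left_cancel₀ (Int.natCast_ne_zero.2 hq.ne') hmn
  have hsum2 : ∀ Y : ℝ, 0 < Y → Summable (fun m : ℤ => c7_T β a c (Y / q) (q * m)) ∧
      ∑' m : ℤ, c7_T β a c (Y / q) (q * m) ≤ C := by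
    intro Y hY
    have h1 := hsum (Y / q) (div_pos hY hq')
    refine ⟨h1.1.comp_injective hinj, ?_⟩
    exact (tsum_comp_le_tsum_of_inj h1.1 (fun m => c7_T_nonneg _ _ _ _ m) hinj).trans h1.2
  set K : ℝ := CW ^ 2 * ((2 * Real.pi * q / P) ^ a) ^ 2 / 2 with hK
  have hK0 : 0 ≤ K := by positivity
  have hbd : ∀ Y : ℝ, 0 < Y → ∀ m : ℤ, ‖c7_D P ν β q Y m‖ ≤ K * Real.exp (-(Y / P)) *
      (c7_T β a c Y m + c7_T β a c (Y / q) (q * m)) := fun Y hY m =>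
    c7_D_bd hP h.zero hW' hq hY m
  refine ⟨?_, K * (C + C), fun Y hY => ?_⟩
  · intro Y₀ hY₀
    rw [mem_Ioi] at hY₀
    have hy : 0 < Y₀ / 2 := by linarith
    refine ContinuousAt.continuousWithinAt ?_
    have hcont : ContinuousOn (fun Y => ∑' m : ℤ, c7_D P ν β q Y m) (Icc (Y₀ / 2) (2 * Y₀)) := by
      refine continuousOn_tsum (u := fun m : ℤ => K * (((4 : ℝ) ^ a) ^ 2 * c7_T β a c (Y₀ / 2) m +
        ((4 : ℝ) ^ a) ^ 2 * c7_T β a c (Y₀ / 2 / q) (q * m))) ?_ ?_ ?_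
      · intro m
        rcases eq_or_ne m 0 with rfl | hm
        · have h0 : (fun Y => c7_D P ν β q Y 0) = fun _ => 0 := by
            funext Y
            unfold c7_D
            rw [mul_zero, h.zero, zero_mul, zero_mul]
          rw [h0]
          exact continuousOn_const
        · have hm0 : (0 : ℝ) < |(m : ℝ)| := abs_pos.2 (Int.cast_ne_zero.2 hm)
          intro Y hY
          refine ContinuousAt.continuousWithinAt ?_
          have hY0 : 0 < Y := hy.trans_le hY.1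
          have hx0 : 0 < 2 * Real.pi * q * |(m : ℝ)| * Y / P := by positivity
          have h1 : ContinuousAt (WW ν) (2 * Real.pi * q * |(m : ℝ)| * Y / P) :=
            (WW_deriv ν hx0).1.continuousAt
          have h2 : ContinuousAt (fun Y : ℝ => 2 * Real.pi * q * |(m : ℝ)| * Y / P) Y := by
            fun_prop
          have h3 : ContinuousAt (fun Y : ℝ => WW ν (2 * Real.pi * q * |(m : ℝ)| * Y / P)) Y :=
            ContinuousAt.comp (g := WW ν) h1 h2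
          unfold c7_D
          exact continuousAt_const.mul (Complex.continuous_ofReal.continuousAt.comp (h3.norm.pow 2))
      · have h1 := (hsum (Y₀ / 2) hy).1
        have h2 := (hsum2 (Y₀ / 2) hy).1
        exact ((h1.mul_left _).add (h2.mul_left _)).mul_left K
      · intro m Y hY
        have hY0 : 0 < Y := hy.trans_le hY.1
        refine (hbd Y hY0 m).trans ?_
        have he : Real.exp (-(Y / P)) ≤ 1 := by
          refine Real.exp_le_one_iff.2 ?_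
          have : 0 < Y / P := by positivity
          linarith
        have h1 := c7_T_le (β := β) ha0 hc0 hy hY.1 (by linarith [hY.2]) m
        have h2 := c7_T_le (β := β) ha0 hc0 (y := Y₀ / 2 / q) (Y := Y / q) (by positivity)
          (div_le_div_of_nonneg_right hY.1 hq'.le) (by
            rw [← mul_div_assoc]
            exact div_le_div_of_nonneg_right (by linarith [hY.2]) hq'.le) (q * m)
        have h3 := c7_T_nonneg β a c Y m
        have h4 := c7_T_nonneg β a c (Y / q) (q * m)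
        calc K * Real.exp (-(Y / P)) * (c7_T β a c Y m + c7_T β a c (Y / q) (q * m))
            ≤ K * 1 * (c7_T β a c Y m + c7_T β a c (Y / q) (q * m)) :=
              mul_le_mul_of_nonneg_right (mul_le_mul_of_nonneg_left he hK0) (by linarith)
          _ ≤ _ := by
              rw [mul_one]
              exact mul_le_mul_of_nonneg_left (add_le_add h1 h2) hK0
    exact hcont.continuousAt (Icc_mem_nhds (by linarith) (by linarith))
  · have h1 := hsum Y hY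
    have h2 := hsum2 Y hY
    have hs : Summable (fun m : ℤ => K * Real.exp (-(Y / P)) *
        (c7_T β a c Y m + c7_T β a c (Y / q) (q * m))) := (h1.1.add h2.1).mul_left _
    have h3 : ‖Dg P ν β q Y‖ ≤ K * Real.exp (-(Y / P)) * (C + C) := by
      have h4 : ‖∑' m : ℤ, c7_D P ν β q Y m‖ ≤ ∑' m : ℤ, K * Real.exp (-(Y / P)) *
          (c7_T β a c Y m + c7_T β a c (Y / q) (q * m)) :=
        tsum_of_norm_bounded hs.hasSum (hbd Y hY)
      refine h4.trans ?_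
      rw [tsum_mul_left, h1.1.tsum_add h2.1]
      exact mul_le_mul_of_nonneg_left (add_le_add h1.2 h2.2) (by positivity)
    have he : Real.exp (-(Y / P)) ≤ 1 := by
      refine Real.exp_le_one_iff.2 ?_
      have : 0 < Y / P := by positivity
      linarith
    constructor
    · refine h3.trans ?_
      have h5 : K * Real.exp (-(Y / P)) ≤ K * 1 := mul_le_mul_of_nonneg_left he hK0
      rw [mul_one] at h5
      exact mul_le_mul_of_nonneg_right h5 (by linarith)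
    · refine h3.trans (le_of_eq ?_)
      ring

end Pool.Agent.JO.FM

namespace Pool.Agent.JO.FM

theorem expn_sum : type_of% @expn_sum_pr := @expn_sum_pr
theorem Dg_bdd : type_of% @Dg_bdd_pr := @Dg_bdd_pr

end Pool.Agent.JO.FM
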