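import Pool.Agent.Lib_helper45.JO.Defs2
import Pool.Agent.Lib_helper45.JOM.K2

/-!
# Project JO, part FM, block C8A: one pair
-/

set_option autoImplicit false

namespace Pool.Agent.JO.FM

open Complex Filter Topology MeasureTheory Set
open UpperHalfPlane hiding I
open scoped MatrixGroups ComplexConjugate

/-- the weight `x^{1/2-b} e^{-x/4}` -/
noncomputable def c8a_w (b x : ℝ) : ℝ := x ^ (1 / 2 - b) * Real.exp (-(x / 4))

theorem c8a_w_nonneg {b x : ℝ} (hx : 0 < x) : 0 ≤ c8a_w b x :=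
  mul_nonneg (Real.rpow_nonneg hx.le _) (Real.exp_pos _).le

theorem c8a_w_le {b x : ℝ} (h0 : 0 ≤ b) (h1 : b < 1 / 2) (hx : 0 < x) :
    c8a_w b x ≤ 9 * Real.exp (-(x / 8)) := by
  have h2 : x ^ (1 / 2 - b) ≤ 1 + x := by
    rcases le_total x 1 with h | h
    · have : x ^ (1 / 2 - b) ≤ 1 := Real.rpow_le_one hx.le h (by linarith)
      linarith
    · have : x ^ (1 / 2 - b) ≤ x ^ (1 : ℝ) := Real.rpow_le_rpow_of_exponent_le h (by linarith)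
      rw [Real.rpow_one] at this
      linarith
  have h3 : 1 + x ≤ 9 * Real.exp (x / 8) := by
    have := Real.add_one_le_exp (x / 8)
    have h4 := Real.one_le_exp (x := x / 8) (by positivity)
    linarith
  have h5 : Real.exp (-(x / 4)) = Real.exp (-(x / 8)) * Real.exp (-(x / 8)) := by
    rw [← Real.exp_add]; ring_nf
  have h6 : Real.exp (x / 8) * Real.exp (-(x / 8)) = 1 := by
    rw [← Real.exp_add]; simp
  unfold c8a_w
  calc x ^ (1 / 2 - b) * Real.exp (-(x / 4)) ≤ (9 * Real.exp (x / 8)) * Real.exp (-(x / 4)) :=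
        mul_le_mul_of_nonneg_right (h2.trans h3) (Real.exp_pos _).le
    _ = 9 * (Real.exp (x / 8) * Real.exp (-(x / 8))) * Real.exp (-(x / 8)) := by rw [h5]; ring
    _ = 9 * Real.exp (-(x / 8)) := by rw [h6]; ring

/-- the data of `W(A ·)` -/
theorem c8a_data {ν : ℂ} (hν : GoodNu ν) {b : ℝ} (hb : ν.re < b) :
    ∃ C : ℝ, 0 ≤ C ∧ ∀ A ρ : ℝ, 0 < A → 0 < ρ →
      HasDerivAt (fun r : ℝ => WW ν (A * r)) ((A : ℂ) * deriv (WW ν) (A * ρ)) ρ ∧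
      HasDerivAt (fun r : ℝ => (A : ℂ) * deriv (WW ν) (A * r))
        ((A : ℂ) ^ 2 * deriv (deriv (WW ν)) (A * ρ)) ρ ∧
      ‖WW ν (A * ρ)‖ ≤ C * c8a_w b (A * ρ) ∧
      ρ * ‖(A : ℂ) * deriv (WW ν) (A * ρ)‖ ≤ C * c8a_w b (A * ρ) ∧
      ρ ^ 2 * ‖(A : ℂ) ^ 2 * deriv (deriv (WW ν)) (A * ρ)‖ ≤ C * c8a_w b (A * ρ) := by
  obtain ⟨C, hC⟩ := WW_bound hν hb
  refine ⟨|C|, abs_nonneg _, fun A ρ hA hρ => ?_⟩
  have hx : 0 < A * ρ := mul_pos hA hρ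
  have hlin : HasDerivAt (fun r : ℝ => A * r) A ρ := by
    simpa using (hasDerivAt_id ρ).const_mul A
  obtain ⟨h1, h2, h3⟩ := hC (A * ρ) hx
  have hp : 0 ≤ (A * ρ) ^ (1 / 2 - b) := Real.rpow_nonneg hx.le _
  refine ⟨?_, ?_, ?_, ?_, ?_⟩
  · have := HasDerivAt.scomp ρ (WW_deriv ν hx).1 hlin
    simpa [Function.comp_def, Complex.real_smul] using this
  · have h := (WW_deriv ν hx).2
    rw [← h.deriv] at h
    have := (HasDerivAt.scomp ρ h hlin).const_mul (A : ℂ)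
    have e : (A : ℂ) ^ 2 * deriv (deriv (WW ν)) (A * ρ) =
        (A : ℂ) * (A • deriv (deriv (WW ν)) (A * ρ)) := by
      rw [Complex.real_smul]; ring
    rw [e]
    exact this
  · refine h1.trans ?_
    unfold c8a_w
    calc C * (A * ρ) ^ (1 / 2 - b) * Real.exp (-(A * ρ / 2))
        ≤ |C| * (A * ρ) ^ (1 / 2 - b) * Real.exp (-(A * ρ / 2)) := by
          gcongr; exact le_abs_self C
      _ ≤ |C| * (A * ρ) ^ (1 / 2 - b) * Real.exp (-(A * ρ / 4)) := by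
          apply mul_le_mul_of_nonneg_left _ (mul_nonneg (abs_nonneg _) hp)
          apply Real.exp_le_exp.2
          linarith
      _ = _ := by ring
  · rw [norm_mul, Complex.norm_real, Real.norm_of_nonneg hA.le]
    calc ρ * (A * ‖deriv (WW ν) (A * ρ)‖) = A * ρ * ‖deriv (WW ν) (A * ρ)‖ := by ring
      _ ≤ C * (A * ρ) ^ (1 / 2 - b) * Real.exp (-(A * ρ / 4)) := h2
      _ ≤ |C| * (A * ρ) ^ (1 / 2 - b) * Real.exp (-(A * ρ / 4)) := by
          gcongr; exact le_abs_self C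
      _ = _ := by unfold c8a_w; ring
  · rw [norm_mul, norm_pow, Complex.norm_real, Real.norm_of_nonneg hA.le]
    calc ρ ^ 2 * (A ^ 2 * ‖deriv (deriv (WW ν)) (A * ρ)‖)
        = (A * ρ) ^ 2 * ‖deriv (deriv (WW ν)) (A * ρ)‖ := by ring
      _ ≤ C * (A * ρ) ^ (1 / 2 - b) * Real.exp (-(A * ρ / 4)) := h3
      _ ≤ |C| * (A * ρ) ^ (1 / 2 - b) * Real.exp (-(A * ρ / 4)) := by
          gcongr; exact le_abs_self C
      _ = _ := by unfold c8a_w; ring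

/-- the data of `v(ρ)/ρ` -/
theorem c8a_u {v : ℝ → ℝ} (hv : ContDiff ℝ 2 v) {ρ₀ : ℝ}
    (hρ : 0 < ρ₀) (hv0 : ∀ ρ, ρ ≤ ρ₀ → v ρ = 0) (hv1 : ∃ ρ₁ : ℝ, ∀ ρ, ρ₁ ≤ ρ → v ρ = 1) :
    ∃ (u₁ u₂ : ℝ → ℝ) (M : ℝ), 0 ≤ M ∧ u₁ ρ₀ = 0 ∧ (∀ ρ, 0 < ρ →
      HasDerivAt (fun r => v r / r) (u₁ ρ) ρ ∧ HasDerivAt u₁ (u₂ ρ) ρ) ∧
      ContinuousOn u₂ (Ioi 0) ∧
      ∀ ρ, 0 < ρ → ρ * |v ρ / ρ| ≤ M ∧ ρ ^ 2 * |u₁ ρ| ≤ M ∧ ρ ^ 3 * |u₂ ρ| ≤ M := by
  obtain ⟨ρ₁, h1⟩ := hv1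
  have hd1 : ContDiff ℝ 1 (deriv v) := by
    have := (contDiff_succ_iff_deriv (𝕜 := ℝ) (n := 1) (f := v)).1
      (by rw [one_add_one_eq_two]; exact hv)
    exact this.2.2
  have hd2 : Continuous (deriv (deriv v)) := hd1.continuous_deriv le_rfl
  have hv' : ∀ ρ, HasDerivAt v (deriv v ρ) ρ := fun ρ =>
    ((hv.differentiable (by norm_num)) ρ).hasDerivAt
  have hv'' : ∀ ρ, HasDerivAt (deriv v) (deriv (deriv v) ρ) ρ := fun ρ =>
    ((hd1.differentiable (by norm_num)) ρ).hasDerivAt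
  -- the derivatives vanish outside `[ρ₀, ρ₁]`
  have z1 : ∀ ρ, ρ < ρ₀ → deriv v ρ = 0 := by
    intro ρ h
    have : v =ᶠ[𝓝 ρ] fun _ => 0 := by
      filter_upwards [Iio_mem_nhds h] with r hr using hv0 r (le_of_lt hr)
    rw [this.deriv_eq]; simp
  have z1' : deriv v ρ₀ = 0 := by
    have hc : Tendsto (deriv v) (𝓝[<] ρ₀) (𝓝 (deriv v ρ₀)) :=
      (hd1.continuous.tendsto ρ₀).mono_left nhdsWithin_le_nhds
    have hz : Tendsto (deriv v) (𝓝[<] ρ₀) (𝓝 0) := by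
      apply tendsto_const_nhds.congr'
      filter_upwards [self_mem_nhdsWithin] with r hr
      exact (z1 r hr).symm
    exact tendsto_nhds_unique hc hz
  have z2 : ∀ ρ, ρ < ρ₀ → deriv (deriv v) ρ = 0 := by
    intro ρ h
    have : deriv v =ᶠ[𝓝 ρ] fun _ => 0 := by
      filter_upwards [Iio_mem_nhds h] with r hr using z1 r hr
    rw [this.deriv_eq]; simp
  have y1 : ∀ ρ, ρ₁ < ρ → deriv v ρ = 0 := by
    intro ρ h
    have : v =ᶠ[𝓝 ρ] fun _ => 1 := by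
      filter_upwards [Ioi_mem_nhds h] with r hr using h1 r (le_of_lt hr)
    rw [this.deriv_eq]; simp
  have y2 : ∀ ρ, ρ₁ < ρ → deriv (deriv v) ρ = 0 := by
    intro ρ h
    have : deriv v =ᶠ[𝓝 ρ] fun _ => 0 := by
      filter_upwards [Ioi_mem_nhds h] with r hr using y1 r hr
    rw [this.deriv_eq]; simp
  -- bounds on the compact set
  obtain ⟨M0, hM0⟩ := isCompact_Icc.exists_bound_of_continuousOn (s := Icc ρ₀ (max ρ₀ ρ₁))
    (f := v) hv.continuous.continuousOn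
  obtain ⟨M1, hM1⟩ := isCompact_Icc.exists_bound_of_continuousOn (s := Icc ρ₀ (max ρ₀ ρ₁))
    (f := fun ρ => ρ * deriv v ρ) (continuous_id.mul hd1.continuous).continuousOn
  obtain ⟨M2, hM2⟩ := isCompact_Icc.exists_bound_of_continuousOn (s := Icc ρ₀ (max ρ₀ ρ₁))
    (f := fun ρ => ρ ^ 2 * deriv (deriv v) ρ) ((continuous_pow 2).mul hd2).continuousOn
  have e0 : ∀ ρ, |v ρ| ≤ |M0| + 1 := by
    intro ρ
    rcases le_or_gt ρ ρ₀ with h | h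
    · rw [hv0 ρ h]; simp; positivity
    · rcases le_or_gt ρ (max ρ₀ ρ₁) with h' | h'
      · have := hM0 ρ ⟨h.le, h'⟩
        rw [Real.norm_eq_abs] at this
        linarith [le_abs_self M0]
      · rw [h1 ρ ((le_max_right _ _).trans h'.le)]; simp
  have e1 : ∀ ρ, |ρ * deriv v ρ| ≤ |M1| := by
    intro ρ
    rcases lt_or_ge ρ ρ₀ with h | h
    · rw [z1 ρ h]; simp
    · rcases le_or_gt ρ (max ρ₀ ρ₁) with h' | h'
      · have := hM1 ρ ⟨h, h'⟩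
        rw [Real.norm_eq_abs] at this
        exact this.trans (le_abs_self M1)
      · rw [y1 ρ (lt_of_le_of_lt (le_max_right _ _) h')]; simp
  have e2 : ∀ ρ, |ρ ^ 2 * deriv (deriv v) ρ| ≤ |M2| := by
    intro ρ
    rcases lt_or_ge ρ ρ₀ with h | h
    · rw [z2 ρ h]; simp
    · rcases le_or_gt ρ (max ρ₀ ρ₁) with h' | h'
      · have := hM2 ρ ⟨h, h'⟩
        rw [Real.norm_eq_abs] at this
        exact this.trans (le_abs_self M2)
      · rw [y2 ρ (lt_of_le_of_lt (le_max_right _ _) h')]; simp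
  refine ⟨fun ρ => deriv v ρ / ρ - v ρ / ρ ^ 2,
    fun ρ => deriv (deriv v) ρ / ρ - 2 * deriv v ρ / ρ ^ 2 + 2 * v ρ / ρ ^ 3,
    |M2| + 2 * |M1| + 2 * (|M0| + 1), by positivity, ?_, fun ρ h0 => ⟨?_, ?_⟩, ?_, fun ρ h0 =>
      ⟨?_, ?_, ?_⟩⟩
  · simp only [z1', hv0 ρ₀ le_rfl]; simp
  · have := (hv' ρ).div (hasDerivAt_id ρ) h0.ne'
    refine this.congr_deriv ?_
    simp only [id, mul_one]
    have h0' : ρ ≠ 0 := h0.ne'
    rw [div_sub_div _ _ h0' (pow_ne_zero 2 h0'), div_eq_div_iff (pow_ne_zero 2 h0')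
      (mul_ne_zero h0' (pow_ne_zero 2 h0'))]
    ring
  · have a1 := (hv'' ρ).div (hasDerivAt_id ρ) h0.ne'
    have a2 := (hv' ρ).div ((hasDerivAt_id ρ).pow 2) (by simpa using pow_ne_zero 2 h0.ne')
    have := a1.sub a2
    refine this.congr_deriv ?_
    simp only [id, Pi.pow_apply]
    field_simp
    ring
  · apply ContinuousOn.add
    · apply ContinuousOn.sub
      · exact hd2.continuousOn.div continuousOn_id (fun x hx => ne_of_gt hx)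
      · exact (continuous_const.mul hd1.continuous).continuousOn.div
          (continuous_pow 2).continuousOn (fun x hx => pow_ne_zero 2 (ne_of_gt hx))
    · exact (continuous_const.mul hv.continuous).continuousOn.div
          (continuous_pow 3).continuousOn (fun x hx => pow_ne_zero 3 (ne_of_gt hx))
  · rw [abs_div, abs_of_pos h0, mul_div_cancel₀ _ h0.ne']
    have := e0 ρ
    have := abs_nonneg M2
    have := abs_nonneg M1
    have := abs_nonneg M0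
    linarith
  · have : ρ ^ 2 * |deriv v ρ / ρ - v ρ / ρ ^ 2| = |ρ * deriv v ρ - v ρ| := by
      rw [← abs_of_pos (pow_pos h0 2), ← abs_mul, abs_of_pos (pow_pos h0 2)]
      congr 1; field_simp
    rw [this]
    have t := abs_sub (ρ * deriv v ρ) (v ρ)
    have := e0 ρ
    have := e1 ρ
    have := abs_nonneg M2
    have := abs_nonneg M1
    have := abs_nonneg M0
    linarith
  · have : ρ ^ 3 * |deriv (deriv v) ρ / ρ - 2 * deriv v ρ / ρ ^ 2 + 2 * v ρ / ρ ^ 3| =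
        |ρ ^ 2 * deriv (deriv v) ρ - 2 * (ρ * deriv v ρ) + 2 * v ρ| := by
      rw [← abs_of_pos (pow_pos h0 3), ← abs_mul, abs_of_pos (pow_pos h0 3)]
      congr 1; field_simp
    rw [this]
    have t1 := abs_add_le (ρ ^ 2 * deriv (deriv v) ρ - 2 * (ρ * deriv v ρ)) (2 * v ρ)
    have t2 := abs_sub (ρ ^ 2 * deriv (deriv v) ρ) (2 * (ρ * deriv v ρ))
    rw [abs_mul 2, abs_of_pos (by norm_num : (0 : ℝ) < 2)] at t1 t2
    have := e0 ρ
    have := e1 ρ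
    have := e2 ρ
    linarith

theorem c8a_int_exp {ρ₀ c : ℝ} (hc : 0 < c) :
    IntegrableOn (fun ρ : ℝ => Real.exp (-(c * ρ))) (Ioi ρ₀) := by
  have := integrableOn_exp_mul_Ioi (a := -c) (by linarith) ρ₀
  simpa [neg_mul] using this

theorem c8a_mul4 {x y X Y : ℝ} (h1 : 0 ≤ x) (h2 : 0 ≤ y) (h3 : x ≤ X) (h4 : y ≤ Y) :
    x * y ≤ X * Y := mul_le_mul h3 h4 h2 (h1.trans h3)

theorem c8a_norms {U0 U1 U2 a0 a1 a2 b0 b1 b2 : ℂ} {ρ M α β : ℝ} (h : 0 < ρ)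
    (u0 : ρ * ‖U0‖ ≤ M) (u1 : ρ ^ 2 * ‖U1‖ ≤ M) (u2 : ρ ^ 3 * ‖U2‖ ≤ M)
    (p0 : ‖a0‖ ≤ α) (p1 : ρ * ‖a1‖ ≤ α) (p2 : ρ ^ 2 * ‖a2‖ ≤ α)
    (q0 : ‖b0‖ ≤ β) (q1 : ρ * ‖b1‖ ≤ β) (q2 : ρ ^ 2 * ‖b2‖ ≤ β) :
    ρ * ‖U0 * (a0 * b0)‖ ≤ M * (α * β) ∧
    ρ ^ 2 * ‖U1 * (a0 * b0) + U0 * (a1 * b0 + a0 * b1)‖ ≤ 3 * (M * (α * β)) ∧
    ρ ^ 3 * ‖U2 * (a0 * b0) + 2 * U1 * (a1 * b0 + a0 * b1) +
      U0 * (a2 * b0 + 2 * (a1 * b1) + a0 * b2)‖ ≤ 9 * (M * (α * β)) := by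
  refine ⟨?_, ?_, ?_⟩
  · calc ρ * ‖U0 * (a0 * b0)‖ = (ρ * ‖U0‖) * (‖a0‖ * ‖b0‖) := by
          rw [norm_mul, norm_mul]; ring
      _ ≤ M * (α * β) := c8a_mul4 (by positivity) (by positivity) u0
          (c8a_mul4 (norm_nonneg _) (norm_nonneg _) p0 q0)
  · have t1 : ‖U1 * (a0 * b0) + U0 * (a1 * b0 + a0 * b1)‖ ≤ ‖U1‖ * (‖a0‖ * ‖b0‖) +
        ‖U0‖ * (‖a1‖ * ‖b0‖ + ‖a0‖ * ‖b1‖) := by
      refine (norm_add_le _ _).trans ?_
      rw [norm_mul, norm_mul, norm_mul]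
      gcongr
      refine (norm_add_le _ _).trans ?_
      rw [norm_mul, norm_mul]
    calc ρ ^ 2 * ‖U1 * (a0 * b0) + U0 * (a1 * b0 + a0 * b1)‖
        ≤ ρ ^ 2 * (‖U1‖ * (‖a0‖ * ‖b0‖) + ‖U0‖ * (‖a1‖ * ‖b0‖ + ‖a0‖ * ‖b1‖)) := by gcongr
      _ = (ρ ^ 2 * ‖U1‖) * (‖a0‖ * ‖b0‖) +
        ((ρ * ‖U0‖) * ((ρ * ‖a1‖) * ‖b0‖) + (ρ * ‖U0‖) * (‖a0‖ * (ρ * ‖b1‖))) := by ring
      _ ≤ M * (α * β) + (M * (α * β) + M * (α * β)) := by
          apply add_le_add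
          · exact c8a_mul4 (by positivity) (by positivity) u1
              (c8a_mul4 (norm_nonneg _) (norm_nonneg _) p0 q0)
          · apply add_le_add
            · exact c8a_mul4 (by positivity) (by positivity) u0
                (c8a_mul4 (by positivity) (norm_nonneg _) p1 q0)
            · exact c8a_mul4 (by positivity) (by positivity) u0
                (c8a_mul4 (norm_nonneg _) (by positivity) p0 q1)
      _ = _ := by ring
  · have t1 : ‖U2 * (a0 * b0) + 2 * U1 * (a1 * b0 + a0 * b1) +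
        U0 * (a2 * b0 + 2 * (a1 * b1) + a0 * b2)‖ ≤ ‖U2‖ * (‖a0‖ * ‖b0‖) +
        2 * ‖U1‖ * (‖a1‖ * ‖b0‖ + ‖a0‖ * ‖b1‖) +
        ‖U0‖ * (‖a2‖ * ‖b0‖ + 2 * (‖a1‖ * ‖b1‖) + ‖a0‖ * ‖b2‖) := by
      refine (norm_add₃_le).trans ?_
      rw [norm_mul, norm_mul, norm_mul (2 * U1), norm_mul U0, norm_mul 2 U1, Complex.norm_ofNat]
      gcongr
      · refine (norm_add_le _ _).trans ?_
        rw [norm_mul, norm_mul]
      · refine (norm_add₃_le).trans ?_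
        rw [norm_mul, norm_mul, norm_mul, norm_mul, Complex.norm_ofNat]
    calc ρ ^ 3 * ‖U2 * (a0 * b0) + 2 * U1 * (a1 * b0 + a0 * b1) +
        U0 * (a2 * b0 + 2 * (a1 * b1) + a0 * b2)‖
        ≤ ρ ^ 3 * (‖U2‖ * (‖a0‖ * ‖b0‖) + 2 * ‖U1‖ * (‖a1‖ * ‖b0‖ + ‖a0‖ * ‖b1‖) +
        ‖U0‖ * (‖a2‖ * ‖b0‖ + 2 * (‖a1‖ * ‖b1‖) + ‖a0‖ * ‖b2‖)) := by gcongr
      _ = (ρ ^ 3 * ‖U2‖) * (‖a0‖ * ‖b0‖) +
        (2 * ((ρ ^ 2 * ‖U1‖) * ((ρ * ‖a1‖) * ‖b0‖)) +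
          2 * ((ρ ^ 2 * ‖U1‖) * (‖a0‖ * (ρ * ‖b1‖)))) +
        ((ρ * ‖U0‖) * ((ρ ^ 2 * ‖a2‖) * ‖b0‖) +
          2 * ((ρ * ‖U0‖) * ((ρ * ‖a1‖) * (ρ * ‖b1‖))) +
          (ρ * ‖U0‖) * (‖a0‖ * (ρ ^ 2 * ‖b2‖))) := by ring
      _ ≤ M * (α * β) + (2 * (M * (α * β)) + 2 * (M * (α * β))) +
          (M * (α * β) + 2 * (M * (α * β)) + M * (α * β)) := by
          apply add_le_add
          · apply add_le_add
            · exact c8a_mul4 (by positivity) (by positivity) u2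
                (c8a_mul4 (norm_nonneg _) (norm_nonneg _) p0 q0)
            · apply add_le_add
              · apply mul_le_mul_of_nonneg_left _ (by norm_num)
                exact c8a_mul4 (by positivity) (by positivity) u1
                  (c8a_mul4 (by positivity) (norm_nonneg _) p1 q0)
              · apply mul_le_mul_of_nonneg_left _ (by norm_num)
                exact c8a_mul4 (by positivity) (by positivity) u1
                  (c8a_mul4 (norm_nonneg _) (by positivity) p0 q1)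
          · apply add_le_add
            · apply add_le_add
              · exact c8a_mul4 (by positivity) (by positivity) u0
                  (c8a_mul4 (by positivity) (norm_nonneg _) p2 q0)
              · apply mul_le_mul_of_nonneg_left _ (by norm_num)
                exact c8a_mul4 (by positivity) (by positivity) u0
                  (c8a_mul4 (by positivity) (by positivity) p1 q1)
            · exact c8a_mul4 (by positivity) (by positivity) u0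
                (c8a_mul4 (norm_nonneg _) (by positivity) p0 q2)
      _ = _ := by ring

/-- C8A: one pair -/
theorem offdiag_pair_pr {ν : ℂ} (hν : GoodNu ν) {v : ℝ → ℝ} (hv : ContDiff ℝ 2 v) {ρ₀ b : ℝ}
    (hρ : 0 < ρ₀) (hv0 : ∀ ρ, ρ ≤ ρ₀ → v ρ = 0) (hv1 : ∃ ρ₁ : ℝ, ∀ ρ, ρ₁ ≤ ρ → v ρ = 1)
    (hb : ν.re < b) (hb' : b < 1 / 2) : ∃ C : ℝ, ∀ A B k : ℝ, 0 < A → 0 < B → k ≠ 0 →
      ‖∫ ρ in Ioi (0 : ℝ), ((v ρ / ρ : ℝ) : ℂ) * (WW ν (A * ρ) * WW ν (B * ρ)) *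
        cexp ((k * ρ : ℝ) * I)‖ ≤ C / k ^ 2 *
      ∫ ρ in Ioi ρ₀, ρ ^ (-3 : ℝ) * ((A * ρ) ^ (1 / 2 - b) * Real.exp (-(A * ρ / 4))) *
        ((B * ρ) ^ (1 / 2 - b) * Real.exp (-(B * ρ / 4))) := by
  obtain ⟨C, hC0, hC⟩ := c8a_data hν hb
  obtain ⟨u₁, u₂, M, hM0, hu0, hud, huc, hub⟩ := c8a_u hv hρ hv0 hv1
  have hb0 : 0 ≤ b := hν.nonneg.trans hb.le
  refine ⟨9 * (M * (C * C)), fun A B k hA hB hk => ?_⟩
  -- abbreviations
  set a0 : ℝ → ℂ := fun ρ => WW ν (A * ρ) with ha0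
  set a1 : ℝ → ℂ := fun ρ => (A : ℂ) * deriv (WW ν) (A * ρ) with ha1
  set a2 : ℝ → ℂ := fun ρ => (A : ℂ) ^ 2 * deriv (deriv (WW ν)) (A * ρ) with ha2
  set b0 : ℝ → ℂ := fun ρ => WW ν (B * ρ) with hb0'
  set b1 : ℝ → ℂ := fun ρ => (B : ℂ) * deriv (WW ν) (B * ρ) with hb1
  set b2 : ℝ → ℂ := fun ρ => (B : ℂ) ^ 2 * deriv (deriv (WW ν)) (B * ρ) with hb2
  set U0 : ℝ → ℂ := fun ρ => ((v ρ / ρ : ℝ) : ℂ) with hU0
  set U1 : ℝ → ℂ := fun ρ => ((u₁ ρ : ℝ) : ℂ) with hU1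
  set U2 : ℝ → ℂ := fun ρ => ((u₂ ρ : ℝ) : ℂ) with hU2
  set H0 : ℝ → ℂ := fun ρ => U0 ρ * (a0 ρ * b0 ρ) with hH0
  set H1 : ℝ → ℂ := fun ρ => U1 ρ * (a0 ρ * b0 ρ) + U0 ρ * (a1 ρ * b0 ρ + a0 ρ * b1 ρ) with hH1
  set H2 : ℝ → ℂ := fun ρ => U2 ρ * (a0 ρ * b0 ρ) + 2 * U1 ρ * (a1 ρ * b0 ρ + a0 ρ * b1 ρ) +
    U0 ρ * (a2 ρ * b0 ρ + 2 * (a1 ρ * b1 ρ) + a0 ρ * b2 ρ) with hH2
  set E : ℝ → ℝ := fun ρ => c8a_w b (A * ρ) * c8a_w b (B * ρ) with hE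
  have dU0 : ∀ ρ, 0 < ρ → HasDerivAt U0 (U1 ρ) ρ := fun ρ h => (hud ρ h).1.ofReal_comp
  have dU1 : ∀ ρ, 0 < ρ → HasDerivAt U1 (U2 ρ) ρ := fun ρ h => (hud ρ h).2.ofReal_comp
  have dH0 : ∀ ρ, 0 < ρ → HasDerivAt H0 (H1 ρ) ρ := by
    intro ρ h
    have := (dU0 ρ h).mul ((hC A ρ hA h).1.mul (hC B ρ hB h).1)
    exact this
  have dH1 : ∀ ρ, 0 < ρ → HasDerivAt H1 (H2 ρ) ρ := by
    intro ρ h
    have d1 := (dU1 ρ h).mul ((hC A ρ hA h).1.mul (hC B ρ hB h).1)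
    have d2 := (dU0 ρ h).mul (((hC A ρ hA h).2.1.mul (hC B ρ hB h).1).add
      ((hC A ρ hA h).1.mul (hC B ρ hB h).2.1))
    have := d1.add d2
    refine this.congr_deriv ?_
    simp only [hH2, ha0, ha1, ha2, hb0', hb1, hb2, Pi.mul_apply, Pi.add_apply]
    ring
  have hEn : ∀ ρ, 0 < ρ → 0 ≤ E ρ := fun ρ h =>
    mul_nonneg (c8a_w_nonneg (mul_pos hA h)) (c8a_w_nonneg (mul_pos hB h))
  -- bounds
  have bU0 : ∀ ρ, 0 < ρ → ρ * ‖U0 ρ‖ ≤ M := fun ρ h => by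
    have : ‖U0 ρ‖ = |v ρ / ρ| := by simp only [hU0]; rw [Complex.norm_real, Real.norm_eq_abs]
    rw [this]; exact (hub ρ h).1
  have bU1 : ∀ ρ, 0 < ρ → ρ ^ 2 * ‖U1 ρ‖ ≤ M := fun ρ h => by
    have : ‖U1 ρ‖ = |u₁ ρ| := by simp only [hU1]; rw [Complex.norm_real, Real.norm_eq_abs]
    rw [this]; exact (hub ρ h).2.1
  have bU2 : ∀ ρ, 0 < ρ → ρ ^ 3 * ‖U2 ρ‖ ≤ M := fun ρ h => by
    have : ‖U2 ρ‖ = |u₂ ρ| := by simp only [hU2]; rw [Complex.norm_real, Real.norm_eq_abs]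
    rw [this]; exact (hub ρ h).2.2
  have mul4 : ∀ {x y X Y : ℝ}, 0 ≤ x → 0 ≤ y → x ≤ X → y ≤ Y → x * y ≤ X * Y := by
    intro x y X Y h1 h2 h3 h4
    exact mul_le_mul h3 h4 h2 (h1.trans h3)
  have bH : ∀ ρ, 0 < ρ → ρ * ‖H0 ρ‖ ≤ M * (C * C * E ρ) ∧
      ρ ^ 2 * ‖H1 ρ‖ ≤ 3 * (M * (C * C * E ρ)) ∧ ρ ^ 3 * ‖H2 ρ‖ ≤ 9 * (M * (C * C * E ρ)) := by
    intro ρ h
    obtain ⟨-, -, p0, p1, p2⟩ := hC A ρ hA h
    obtain ⟨-, -, q0, q1, q2⟩ := hC B ρ hB h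
    have e : C * C * E ρ = (C * c8a_w b (A * ρ)) * (C * c8a_w b (B * ρ)) := by
      simp only [hE]; ring
    rw [e]
    exact c8a_norms h (bU0 ρ h) (bU1 ρ h) (bU2 ρ h) p0 p1 p2 q0 q1 q2
  have bH0 := fun ρ h => (bH ρ h).1
  have bH1 := fun ρ h => (bH ρ h).2.1
  have bH2 := fun ρ h => (bH ρ h).2.2
  -- exponential decay of `E`
  have hEe : ∀ ρ, 0 < ρ → E ρ ≤ 81 * Real.exp (-(A / 8 * ρ)) := by
    intro ρ h
    have h1 := c8a_w_le hb0 hb' (mul_pos hA h)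
    have h2 := c8a_w_le hb0 hb' (mul_pos hB h)
    have h3 : Real.exp (-(B * ρ / 8)) ≤ 1 := by
      rw [Real.exp_le_one_iff]
      have := mul_pos hB h
      linarith
    calc E ρ ≤ (9 * Real.exp (-(A * ρ / 8))) * (9 * Real.exp (-(B * ρ / 8))) :=
          mul4 (c8a_w_nonneg (mul_pos hA h)) (c8a_w_nonneg (mul_pos hB h)) h1 h2
      _ ≤ (9 * Real.exp (-(A * ρ / 8))) * (9 * 1) := by gcongr
      _ = 81 * Real.exp (-(A / 8 * ρ)) := by ring_nf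
  have hIe := c8a_int_exp (ρ₀ := ρ₀) (c := A / 8) (by positivity)
  -- continuity
  have cont0 : ContinuousOn H0 (Ioi 0) := fun ρ h => (dH0 ρ h).continuousAt.continuousWithinAt
  have cont1 : ContinuousOn H1 (Ioi 0) := fun ρ h => (dH1 ρ h).continuousAt.continuousWithinAt
  have cW : ∀ D : ℝ, 0 < D → ContinuousOn (fun ρ : ℝ => (D : ℂ) ^ 2 * deriv (deriv (WW ν)) (D * ρ))
      (Ioi 0) := by
    intro D hD
    have : ContinuousOn (fun ρ : ℝ => (D : ℂ) ^ 2 * ((1 + (ν ^ 2 - 1 / 4) / ((D * ρ : ℝ) : ℂ) ^ 2) *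
        WW ν (D * ρ))) (Ioi 0) := by
      apply ContinuousOn.mul continuousOn_const
      apply ContinuousOn.mul
      · apply ContinuousOn.add continuousOn_const
        apply ContinuousOn.div continuousOn_const (by fun_prop)
        intro ρ h
        apply pow_ne_zero
        exact_mod_cast (mul_pos hD h).ne'
      · exact fun ρ h => (hC D ρ hD h).1.continuousAt.continuousWithinAt
    refine this.congr (fun ρ h => ?_)
    dsimp only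
    rw [(WW_deriv ν (mul_pos hD h)).2.deriv]
  have cont2 : ContinuousOn H2 (Ioi 0) := by
    have cU0 : ContinuousOn U0 (Ioi 0) := fun ρ h => (dU0 ρ h).continuousAt.continuousWithinAt
    have cU1 : ContinuousOn U1 (Ioi 0) := fun ρ h => (dU1 ρ h).continuousAt.continuousWithinAt
    have cU2 : ContinuousOn U2 (Ioi 0) := Complex.continuous_ofReal.comp_continuousOn huc
    have ca0 : ContinuousOn a0 (Ioi 0) := fun ρ h => (hC A ρ hA h).1.continuousAt.continuousWithinAt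
    have cb0 : ContinuousOn b0 (Ioi 0) := fun ρ h => (hC B ρ hB h).1.continuousAt.continuousWithinAt
    have ca1 : ContinuousOn a1 (Ioi 0) := fun ρ h =>
      (hC A ρ hA h).2.1.continuousAt.continuousWithinAt
    have cb1 : ContinuousOn b1 (Ioi 0) := fun ρ h =>
      (hC B ρ hB h).2.1.continuousAt.continuousWithinAt
    have ca2 : ContinuousOn a2 (Ioi 0) := cW A hA
    have cb2 : ContinuousOn b2 (Ioi 0) := cW B hB
    exact ((cU2.mul (ca0.mul cb0)).add ((continuousOn_const.mul cU1).mul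
      ((ca1.mul cb0).add (ca0.mul cb1)))).add (cU0.mul (((ca2.mul cb0).add
      (continuousOn_const.mul (ca1.mul cb1))).add (ca0.mul cb2)))
  have sub : Ioi ρ₀ ⊆ Ioi (0 : ℝ) := fun x hx => hρ.trans hx
  have cexpc : Continuous (fun ρ : ℝ => cexp ((k * ρ : ℝ) * I)) := by fun_prop
  have nexp : ∀ ρ : ℝ, ‖cexp ((k * ρ : ℝ) * I)‖ = 1 := fun ρ => Complex.norm_exp_ofReal_mul_I _
  -- integrability
  have int0 : IntegrableOn (fun ρ => H0 ρ * cexp ((k * ρ : ℝ) * I)) (Ioi ρ₀) := by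
    refine Integrable.mono' (hIe.const_mul (ρ₀⁻¹ * (M * (C * C * 81))))
      (((cont0.mono sub).mul cexpc.continuousOn).aestronglyMeasurable measurableSet_Ioi) ?_
    refine (ae_restrict_iff' measurableSet_Ioi).2 (ae_of_all _ fun ρ h => ?_)
    have h0 : 0 < ρ := hρ.trans h
    rw [norm_mul, nexp, mul_one]
    have h1 := bH0 ρ h0
    have h2 := hEe ρ h0
    have h3 : ‖H0 ρ‖ ≤ ρ₀⁻¹ * (ρ * ‖H0 ρ‖) := by
      rw [← mul_assoc]
      have : 1 ≤ ρ₀⁻¹ * ρ := by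
        rw [inv_mul_eq_div, one_le_div hρ]; exact le_of_lt h
      nlinarith [norm_nonneg (H0 ρ)]
    calc ‖H0 ρ‖ ≤ ρ₀⁻¹ * (ρ * ‖H0 ρ‖) := h3
      _ ≤ ρ₀⁻¹ * (M * (C * C * (81 * Real.exp (-(A / 8 * ρ))))) := by
          apply mul_le_mul_of_nonneg_left _ (inv_nonneg.2 hρ.le)
          refine h1.trans ?_
          gcongr
      _ = _ := by ring
  have b2' : ∀ ρ, ρ₀ < ρ → ‖H2 ρ‖ ≤ 9 * (M * (C * C)) * (ρ ^ (-3 : ℝ) * E ρ) := by
    intro ρ h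
    have h0 : 0 < ρ := hρ.trans h
    have h1 := bH2 ρ h0
    have h3 : ρ ^ (-3 : ℝ) = (ρ ^ 3)⁻¹ := by
      rw [Real.rpow_neg h0.le]; norm_cast
    rw [h3]
    calc ‖H2 ρ‖ = (ρ ^ 3)⁻¹ * (ρ ^ 3 * ‖H2 ρ‖) := by
          field_simp
      _ ≤ (ρ ^ 3)⁻¹ * (9 * (M * (C * C * E ρ))) := by gcongr
      _ = _ := by ring
  have iE : IntegrableOn (fun ρ : ℝ => ρ ^ (-3 : ℝ) * E ρ) (Ioi ρ₀) := by
    refine Integrable.mono' (hIe.const_mul ((ρ₀ ^ 3)⁻¹ * 81)) ?_ ?_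
    · have : ContinuousOn (fun ρ : ℝ => ρ ^ (-3 : ℝ) * E ρ) (Ioi ρ₀) := by
        intro ρ h
        have h0 : 0 < ρ := hρ.trans h
        apply ContinuousAt.continuousWithinAt
        have hA' : A * ρ ≠ 0 := (mul_pos hA h0).ne'
        have hB' : B * ρ ≠ 0 := (mul_pos hB h0).ne'
        apply ContinuousAt.mul
        · exact (Real.continuousAt_rpow_const _ _ (Or.inl h0.ne'))
        · apply ContinuousAt.mul
          · apply ContinuousAt.mul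
            · exact ContinuousAt.rpow_const (by fun_prop) (Or.inl hA')
            · fun_prop
          · apply ContinuousAt.mul
            · exact ContinuousAt.rpow_const (by fun_prop) (Or.inl hB')
            · fun_prop
      exact this.aestronglyMeasurable measurableSet_Ioi
    · refine (ae_restrict_iff' measurableSet_Ioi).2 (ae_of_all _ fun ρ h => ?_)
      have h0 : 0 < ρ := hρ.trans h
      have h3 : ρ ^ (-3 : ℝ) = (ρ ^ 3)⁻¹ := by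
        rw [Real.rpow_neg h0.le]; norm_cast
      rw [Real.norm_of_nonneg (mul_nonneg (Real.rpow_nonneg h0.le _) (hEn ρ h0)), h3]
      have : (ρ ^ 3)⁻¹ ≤ (ρ₀ ^ 3)⁻¹ := by
        apply inv_anti₀ (by positivity)
        exact pow_le_pow_left₀ hρ.le (le_of_lt h) 3
      calc (ρ ^ 3)⁻¹ * E ρ ≤ (ρ₀ ^ 3)⁻¹ * (81 * Real.exp (-(A / 8 * ρ))) :=
            mul4 (by positivity) (hEn ρ h0) this (hEe ρ h0)
        _ = _ := by ring
  have int2 : IntegrableOn (fun ρ => H2 ρ * cexp ((k * ρ : ℝ) * I)) (Ioi ρ₀) := by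
    refine Integrable.mono' (iE.const_mul (9 * (M * (C * C))))
      (((cont2.mono sub).mul cexpc.continuousOn).aestronglyMeasurable measurableSet_Ioi) ?_
    refine (ae_restrict_iff' measurableSet_Ioi).2 (ae_of_all _ fun ρ h => ?_)
    rw [norm_mul, nexp, mul_one]
    exact b2' ρ h
  -- values at `ρ₀`
  have v0 : H0 ρ₀ = 0 := by
    simp only [hH0, hU0, hv0 ρ₀ le_rfl]; simp
  have v1 : H1 ρ₀ = 0 := by
    simp only [hH1, hU0, hU1, hv0 ρ₀ le_rfl, hu0]; simp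
  have kc : (k : ℂ) ≠ 0 := by exact_mod_cast hk
  -- the primitive
  set G : ℝ → ℂ := fun ρ => cexp ((k * ρ : ℝ) * I) * (H0 ρ / (k * I) - H1 ρ / (k * I) ^ 2) with hG
  have dG : ∀ ρ, 0 < ρ → HasDerivAt G (H0 ρ * cexp ((k * ρ : ℝ) * I) +
      (k : ℂ)⁻¹ ^ 2 * (H2 ρ * cexp ((k * ρ : ℝ) * I))) ρ := by
    intro ρ h
    have e1 : HasDerivAt (fun ρ : ℝ => cexp ((k * ρ : ℝ) * I)) (cexp ((k * ρ : ℝ) * I) * (k * I))
        ρ := by
      have : HasDerivAt (fun ρ : ℝ => ((k * ρ : ℝ) : ℂ) * I) (k * I) ρ := by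
        have h1 : HasDerivAt (fun ρ : ℝ => ((k * ρ : ℝ) : ℂ)) (k : ℂ) ρ := by
          have : HasDerivAt (fun ρ : ℝ => k * ρ) k ρ := by
            simpa using (hasDerivAt_id ρ).const_mul k
          exact this.ofReal_comp
        exact h1.mul_const I
      exact this.cexp
    have := e1.mul (((dH0 ρ h).div_const (k * I)).sub ((dH1 ρ h).div_const ((k * I) ^ 2)))
    refine this.congr_deriv ?_
    have hI : (I : ℂ) ≠ 0 := Complex.I_ne_zero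
    have hI2 : (k * I : ℂ) ^ 2 = -(k : ℂ) ^ 2 := by rw [mul_pow, Complex.I_sq]; ring
    simp only [Pi.sub_apply]
    rw [hI2]
    field_simp
    linear_combination (k * H1 ρ) * Complex.I_sq
  have tE : Tendsto (fun ρ : ℝ => Real.exp (-(A / 8 * ρ))) atTop (𝓝 0) := by
    have : Tendsto (fun ρ : ℝ => A / 8 * ρ) atTop atTop :=
      tendsto_id.const_mul_atTop (by positivity)
    exact Real.tendsto_exp_neg_atTop_nhds_zero.comp this
  have t0 : Tendsto H0 atTop (𝓝 0) := by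
    refine squeeze_zero_norm' (a := fun ρ => (M * (C * C * 81)) * Real.exp (-(A / 8 * ρ))) ?_ ?_
    · filter_upwards [eventually_ge_atTop 1] with ρ h
      have h0 : 0 < ρ := by linarith
      have h1 := bH0 ρ h0
      have h2 := hEe ρ h0
      calc ‖H0 ρ‖ ≤ ρ * ‖H0 ρ‖ := by nlinarith [norm_nonneg (H0 ρ)]
        _ ≤ M * (C * C * (81 * Real.exp (-(A / 8 * ρ)))) := by
            refine h1.trans ?_
            gcongr
        _ = _ := by ring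
    · simpa using tE.const_mul (M * (C * C * 81))
  have t1 : Tendsto H1 atTop (𝓝 0) := by
    refine squeeze_zero_norm' (a := fun ρ => (3 * (M * (C * C * 81))) * Real.exp (-(A / 8 * ρ)))
      ?_ ?_
    · filter_upwards [eventually_ge_atTop 1] with ρ h
      have h0 : 0 < ρ := by linarith
      have h1 := bH1 ρ h0
      have h2 := hEe ρ h0
      calc ‖H1 ρ‖ ≤ ρ ^ 2 * ‖H1 ρ‖ := by nlinarith [norm_nonneg (H1 ρ), one_le_pow₀ (n := 2) h]
        _ ≤ 3 * (M * (C * C * (81 * Real.exp (-(A / 8 * ρ))))) := by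
            refine h1.trans ?_
            gcongr
        _ = _ := by ring
    · simpa using tE.const_mul (3 * (M * (C * C * 81)))
  have tG : Tendsto G atTop (𝓝 0) := by
    have : Tendsto (fun ρ => H0 ρ / (k * I) - H1 ρ / (k * I) ^ 2) atTop (𝓝 0) := by
      simpa using (t0.div_const (k * I : ℂ)).sub (t1.div_const ((k * I : ℂ) ^ 2))
    rw [tendsto_zero_iff_norm_tendsto_zero] at this ⊢
    refine this.congr (fun ρ => ?_)
    rw [hG, norm_mul, nexp, one_mul]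
  have key := integral_Ioi_of_hasDerivAt_of_tendsto
    (dG ρ₀ hρ).continuousAt.continuousWithinAt (fun ρ h => dG ρ (hρ.trans h))
    (int0.add (int2.const_mul ((k : ℂ)⁻¹ ^ 2))) tG
  have g0 : G ρ₀ = 0 := by
    simp only [hG, v0, v1]; simp
  rw [integral_add int0 (int2.const_mul _), integral_const_mul, g0, sub_zero] at key
  -- the integral over `(0, ∞)`
  have full : ∫ ρ in Ioi (0 : ℝ), ((v ρ / ρ : ℝ) : ℂ) * (WW ν (A * ρ) * WW ν (B * ρ)) *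
      cexp ((k * ρ : ℝ) * I) = ∫ ρ in Ioi ρ₀, H0 ρ * cexp ((k * ρ : ℝ) * I) := by
    apply setIntegral_eq_of_subset_of_forall_sdiff_eq_zero measurableSet_Ioi sub
    intro ρ h
    have : ρ ≤ ρ₀ := not_lt.1 h.2
    rw [hv0 ρ this]; simp
  rw [full]
  have h5 : ∫ ρ in Ioi ρ₀, H0 ρ * cexp ((k * ρ : ℝ) * I) =
      -((k : ℂ)⁻¹ ^ 2 * ∫ ρ in Ioi ρ₀, H2 ρ * cexp ((k * ρ : ℝ) * I)) :=
    eq_neg_of_add_eq_zero_left key
  rw [h5, norm_neg, norm_mul, norm_pow, norm_inv, Complex.norm_real, Real.norm_eq_abs]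
  have h6 : ‖∫ ρ in Ioi ρ₀, H2 ρ * cexp ((k * ρ : ℝ) * I)‖ ≤
      9 * (M * (C * C)) * ∫ ρ in Ioi ρ₀, ρ ^ (-3 : ℝ) * E ρ := by
    rw [← integral_const_mul]
    apply norm_integral_le_of_norm_le (iE.const_mul _)
    refine (ae_restrict_iff' measurableSet_Ioi).2 (ae_of_all _ fun ρ h => ?_)
    rw [norm_mul, nexp, mul_one]
    exact b2' ρ h
  have h7 : ∀ ρ : ℝ, ρ ^ (-3 : ℝ) * ((A * ρ) ^ (1 / 2 - b) * Real.exp (-(A * ρ / 4))) *
        ((B * ρ) ^ (1 / 2 - b) * Real.exp (-(B * ρ / 4))) = ρ ^ (-3 : ℝ) * E ρ := by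
    intro ρ
    rw [hE]; unfold c8a_w; ring
  simp_rw [h7]
  have h8 : |k|⁻¹ ^ 2 = (k ^ 2)⁻¹ := by rw [inv_pow, sq_abs]
  rw [h8]
  calc (k ^ 2)⁻¹ * ‖∫ ρ in Ioi ρ₀, H2 ρ * cexp ((k * ρ : ℝ) * I)‖
      ≤ (k ^ 2)⁻¹ * (9 * (M * (C * C)) * ∫ ρ in Ioi ρ₀, ρ ^ (-3 : ℝ) * E ρ) := by
        apply mul_le_mul_of_nonneg_left h6 (by positivity)
    _ = _ := by ring


end Pool.Agent.JO.FM

namespace Pool.Agent.JO.FM

theorem offdiag_pair : type_of% @offdiag_pair_pr := @offdiag_pair_pr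

end Pool.Agent.JO.FM
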