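import Pool.Agent.Lib_helper45.JO.Defs2
import Pool.Agent.Lib_helper45.JOM.A5

/-!
# Project JO, part FM, block C9: Parseval and the Hecke relation for the diagonal
-/

set_option autoImplicit false

namespace Pool.Agent.JO.FM

open Complex Filter Topology MeasureTheory Set
open UpperHalfPlane hiding I
open scoped MatrixGroups ComplexConjugate

/-- the coefficients are absolutely summable -/
theorem c9_summable {P : ℕ} {ν : ℂ} {β : ℤ → ℂ} {F : ℍ → ℂ} (h : Expn P ν β F) {Y : ℝ}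
    (hY : 0 < Y) : Summable (fun m : ℤ => ‖β m * WW ν (2 * Real.pi * |(m : ℝ)| * Y / P)‖) := by
  have h1 := (h.hasSum 0 Y hY).summable.norm
  refine h1.congr fun m => ?_
  simp

/-- the product of two families of the diagonal type is summable -/
theorem c9_summable_q {P : ℕ} {ν : ℂ} {β : ℤ → ℂ} {F : ℍ → ℂ} (h : Expn P ν β F) {q : ℕ}
    (hq : 0 < q) {Y : ℝ} (hY : 0 < Y) : Summable (fun m : ℤ => β (q * m) * conj (β m) *
      ((‖WW ν (2 * Real.pi * q * |(m : ℝ)| * Y / P)‖ ^ 2 : ℝ) : ℂ)) := by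
  have hqr : (0 : ℝ) < (q : ℝ) := by exact_mod_cast hq
  have h1 := c9_summable h hY
  have h2 := c9_summable h (mul_pos hqr hY)
  have hinj : Function.Injective (fun m : ℤ => (q : ℤ) * m) := by
    intro a b hab
    have hq0 : (q : ℤ) ≠ 0 := by exact_mod_cast hq.ne'
    exact mul_left_cancel₀ hq0 hab
  have h3 := h1.comp_injective hinj
  have h4 : ∀ m : ℤ, ‖β m * WW ν (2 * Real.pi * |(m : ℝ)| * ((q : ℝ) * Y) / P)‖ ≤
      ∑' n : ℤ, ‖β n * WW ν (2 * Real.pi * |(n : ℝ)| * ((q : ℝ) * Y) / P)‖ :=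
    fun m => h2.le_tsum m (fun n _ => norm_nonneg _)
  refine Summable.of_norm_bounded (h3.mul_right
    (∑' n : ℤ, ‖β n * WW ν (2 * Real.pi * |(n : ℝ)| * ((q : ℝ) * Y) / P)‖)) fun m => ?_
  have e1 : 2 * Real.pi * |(((q : ℤ) * m : ℤ) : ℝ)| * Y / P =
      2 * Real.pi * q * |(m : ℝ)| * Y / P := by
    push_cast
    rw [abs_mul, abs_of_pos hqr]
    ring
  have e2 : 2 * Real.pi * |(m : ℝ)| * ((q : ℝ) * Y) / P =
      2 * Real.pi * q * |(m : ℝ)| * Y / P := by ring
  have h5 := h4 m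
  simp only [Function.comp_apply]
  refine le_trans (le_of_eq ?_) (mul_le_mul_of_nonneg_left h5 (norm_nonneg _))
  rw [e1, e2]
  rw [norm_mul, norm_mul, norm_mul, norm_mul, RCLike.norm_conj, Complex.norm_real,
    Real.norm_of_nonneg (by positivity)]
  ring

/-- C9: Parseval -/
theorem Dg_one_pr {P : ℕ} (hP : 0 < P) {ν : ℂ} (hν : GoodNu ν) {β : ℤ → ℂ} {F : ℍ → ℂ}
    (h : Expn P ν β F) {Y : ℝ} (hY : 0 < Y) :
    Dg P ν β 1 Y = (((P : ℝ)⁻¹ * ∫ x in (0 : ℝ)..P, ‖F (pz x Y)‖ ^ 2 : ℝ) : ℂ) := by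
  have hPr : (0 : ℝ) < (P : ℝ) := by exact_mod_cast hP
  set c : ℤ → ℂ := fun m => β m * WW ν (2 * Real.pi * |(m : ℝ)| * Y / P) with hc
  have hcs : Summable (fun m => ‖c m‖) := c9_summable h hY
  set e : ℤ → ℝ → ℂ := fun m x => cexp ((2 * Real.pi * m * x / P : ℝ) * I) with he
  have hen : ∀ m x, ‖e m x‖ = 1 := by
    intro m x
    exact Complex.norm_exp_ofReal_mul_I _
  have hec : ∀ m, Continuous (e m) := by
    intro m
    show Continuous (fun x : ℝ => cexp ((2 * Real.pi * m * x / P : ℝ) * I))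
    fun_prop
  have hG : ∀ x, HasSum (fun m => c m * e m x) (F (pz x Y)) := fun x => h.hasSum x Y hY
  have hGc : Continuous (fun x : ℝ => F (pz x Y)) := by
    have h1 : Continuous (fun x : ℝ => ∑' m : ℤ, c m * e m x) := by
      refine continuous_tsum (fun m => continuous_const.mul (hec m)) hcs fun m x => ?_
      rw [norm_mul, hen, mul_one]
    have h2 : (fun x : ℝ => F (pz x Y)) = fun x : ℝ => ∑' m : ℤ, c m * e m x := by
      funext x
      exact (hG x).tsum_eq.symm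
    rw [h2]
    exact h1
  have hGb : ∀ x, ‖F (pz x Y)‖ ≤ ∑' m, ‖c m‖ := by
    intro x
    rw [← (hG x).tsum_eq]
    have h1 : Summable (fun m => ‖c m * e m x‖) := by
      refine hcs.congr fun m => ?_
      rw [norm_mul (c m) (e m x), hen, mul_one]
    refine (norm_tsum_le_tsum_norm h1).trans (le_of_eq ?_)
    refine tsum_congr fun m => ?_
    rw [norm_mul, hen, mul_one]
  have hmain : HasSum (fun m : ℤ => ∫ x in (0 : ℝ)..P, c m * e m x * conj (F (pz x Y)))
      (∫ x in (0 : ℝ)..P, F (pz x Y) * conj (F (pz x Y))) := by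
    refine intervalIntegral.hasSum_integral_of_dominated_convergence
      (fun m _ => ‖c m‖ * ∑' n, ‖c n‖) (fun m => ?_) (fun m => ?_) ?_ ?_ ?_
    · exact ((continuous_const.mul (hec m)).mul
        (Complex.continuous_conj.comp hGc)).aestronglyMeasurable
    · refine Filter.Eventually.of_forall fun x _ => ?_
      rw [norm_mul, norm_mul, hen, mul_one, RCLike.norm_conj]
      exact mul_le_mul_of_nonneg_left (hGb x) (norm_nonneg _)
    · exact Filter.Eventually.of_forall fun x _ => hcs.mul_right _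
    · exact intervalIntegrable_const
    · exact Filter.Eventually.of_forall fun x _ => (hG x).mul_right _
  have hterm : ∀ m : ℤ, ∫ x in (0 : ℝ)..P, c m * e m x * conj (F (pz x Y)) =
      (P : ℂ) * (c m * conj (c m)) := by
    intro m
    have h1 := expn_fc hP hν h m hY
    have h2 : (∫ x in (0 : ℝ)..P, F (pz x Y) * cexp (-(2 * Real.pi * m * x / P : ℝ) * I)) =
        (P : ℂ) * c m := by
      have h3 : fc P F m Y = c m := h1
      rw [fc] at h3
      rw [← h3]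
      rw [← mul_assoc]
      have hP0 : (P : ℂ) ≠ 0 := by exact_mod_cast hP.ne'
      push_cast
      rw [mul_inv_cancel₀ hP0, one_mul]
    have h4 : ∫ x in (0 : ℝ)..P, c m * e m x * conj (F (pz x Y)) =
        c m * conj (∫ x in (0 : ℝ)..P, F (pz x Y) *
          cexp (-(2 * Real.pi * m * x / P : ℝ) * I)) := by
      rw [intervalIntegral.integral_of_le hPr.le, intervalIntegral.integral_of_le hPr.le,
        ← integral_conj, ← integral_const_mul]
      refine integral_congr_ae (Filter.Eventually.of_forall fun x => ?_)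
      simp only [he, map_mul]
      rw [← Complex.exp_conj]
      simp only [map_mul, map_neg, Complex.conj_ofReal, Complex.conj_I]
      rw [show -((2 * Real.pi * m * x / P : ℝ) : ℂ) * -I = ((2 * Real.pi * m * x / P : ℝ) : ℂ) * I by
        ring]
      ring
    rw [h4, h2, map_mul, Complex.conj_natCast]
    ring
  have hP0 : (P : ℂ) ≠ 0 := by exact_mod_cast hP.ne'
  have h5 : HasSum (fun m : ℤ => (P : ℂ) * (c m * conj (c m)))
      (∫ x in (0 : ℝ)..P, F (pz x Y) * conj (F (pz x Y))) := by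
    simpa only [hterm] using hmain
  have h6 : HasSum (fun m : ℤ => c m * conj (c m))
      ((P : ℂ)⁻¹ * ∫ x in (0 : ℝ)..P, F (pz x Y) * conj (F (pz x Y))) := by
    have h7 := h5.mul_left (P : ℂ)⁻¹
    have h7' : (fun m : ℤ => (P : ℂ)⁻¹ * ((P : ℂ) * (c m * conj (c m)))) =
        fun m : ℤ => c m * conj (c m) := by
      funext m
      rw [← mul_assoc, inv_mul_cancel₀ hP0, one_mul]
    rw [h7'] at h7
    exact h7
  have h8 : (∫ x in (0 : ℝ)..P, F (pz x Y) * conj (F (pz x Y))) =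
      ((∫ x in (0 : ℝ)..P, ‖F (pz x Y)‖ ^ 2 : ℝ) : ℂ) := by
    rw [← intervalIntegral.integral_ofReal]
    refine intervalIntegral.integral_congr fun x _ => ?_
    show F (pz x Y) * conj (F (pz x Y)) = ((‖F (pz x Y)‖ ^ 2 : ℝ) : ℂ)
    rw [Complex.mul_conj, Complex.normSq_eq_norm_sq]
  have h9 : Dg P ν β 1 Y = ∑' m : ℤ, c m * conj (c m) := by
    rw [Dg]
    refine tsum_congr fun m => ?_
    simp only [hc, Nat.cast_one, one_mul, mul_one, map_mul]
    have h10 : ((‖WW ν (2 * Real.pi * |(m : ℝ)| * Y / P)‖ ^ 2 : ℝ) : ℂ) =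
        WW ν (2 * Real.pi * |(m : ℝ)| * Y / P) * conj (WW ν (2 * Real.pi * |(m : ℝ)| * Y / P)) := by
      rw [Complex.mul_conj, Complex.normSq_eq_norm_sq]
    rw [h10]
    ring
  rw [h9, h6.tsum_eq, h8]
  push_cast
  rfl

/-- C9: the Hecke relation for the diagonal -/
theorem Dg_rel_pr {P p : ℕ} (hP : 0 < P) (hp : p.Prime) {ν : ℂ} (hν : GoodNu ν) {β : ℤ → ℂ}
    {F : ℍ → ℂ} (h : Expn P ν β F) {lam : ℂ}
    (hr : ∀ m : ℤ, β (p * m) = ((√(p : ℝ) : ℝ) : ℂ)⁻¹ *
      (lam * β m - ((√(p : ℝ) : ℝ) : ℂ)⁻¹ * 1 * (if (p : ℤ) ∣ m then β (m / p) else 0)))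
    {Y : ℝ} (hY : 0 < Y) :
    Dg P ν β p Y = ((√(p : ℝ) : ℝ) : ℂ)⁻¹ * lam * Dg P ν β 1 (p * Y) -
      (p : ℂ)⁻¹ * conj (Dg P ν β p (p * Y)) ∧
    Dg P ν β (p ^ 2) Y = ((√(p : ℝ) : ℝ) : ℂ)⁻¹ * lam * Dg P ν β p (p * Y) -
      (p : ℂ)⁻¹ * Dg P ν β 1 ((p : ℝ) ^ 2 * Y) := by
  have hpr : (0 : ℝ) < (p : ℝ) := by exact_mod_cast hp.pos
  have hp0 : (p : ℤ) ≠ 0 := by exact_mod_cast hp.ne_zero
  set r : ℂ := ((√(p : ℝ) : ℝ) : ℂ)⁻¹ with hrdef
  have hrr : r * r = (p : ℂ)⁻¹ := by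
    rw [hrdef, ← mul_inv, ← Complex.ofReal_mul, Real.mul_self_sqrt hpr.le, Complex.ofReal_natCast]
  constructor
  · have hs1 := c9_summable_q h one_pos (mul_pos hpr hY)
    have hs2 := c9_summable_q h hp.pos (mul_pos hpr hY)
    -- the terms with `p ∣ m`
    set T : ℤ → ℂ := fun m => (if (p : ℤ) ∣ m then β (m / p) else 0) * conj (β m) *
      ((‖WW ν (2 * Real.pi * p * |(m : ℝ)| * Y / P)‖ ^ 2 : ℝ) : ℂ) with hT
    have hinj : Function.Injective (fun m : ℤ => (p : ℤ) * m) := by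
      intro a b hab
      exact mul_left_cancel₀ hp0 hab
    have hTc : ∀ m : ℤ, T ((p : ℤ) * m) = conj (β (p * m) * conj (β m) *
        ((‖WW ν (2 * Real.pi * p * |(m : ℝ)| * ((p : ℝ) * Y) / P)‖ ^ 2 : ℝ) : ℂ)) := by
      intro m
      simp only [hT]
      rw [if_pos (dvd_mul_right _ _), Int.mul_ediv_cancel_left _ hp0]
      have e1 : 2 * Real.pi * p * |(((p : ℤ) * m : ℤ) : ℝ)| * Y / P =
          2 * Real.pi * p * |(m : ℝ)| * ((p : ℝ) * Y) / P := by
        push_cast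
        rw [abs_mul, abs_of_pos hpr]
        ring
      rw [e1, map_mul, map_mul, Complex.conj_conj, Complex.conj_ofReal]
      ring
    have hTsupp : Function.support T ⊆ Set.range (fun m : ℤ => (p : ℤ) * m) := by
      intro m hm
      by_contra hcon
      apply hm
      have hnd : ¬ (p : ℤ) ∣ m := by
        rintro ⟨k, hk⟩
        exact hcon ⟨k, hk.symm⟩
      simp only [hT]
      rw [if_neg hnd]
      ring
    have hTsum : HasSum T (conj (Dg P ν β p (p * Y))) := by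
      rw [← hinj.hasSum_iff (fun x hx => by
        by_contra hne
        exact hx (hTsupp hne))]
      have h1 : HasSum (fun m : ℤ => conj (β (p * m) * conj (β m) *
          ((‖WW ν (2 * Real.pi * p * |(m : ℝ)| * ((p : ℝ) * Y) / P)‖ ^ 2 : ℝ) : ℂ)))
          (conj (Dg P ν β p (p * Y))) := by
        have h2 := hs2.hasSum
        rw [Complex.hasSum_conj, Complex.conj_conj]
        exact h2
      convert h1 using 1
      funext m
      simp only [Function.comp_apply]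
      exact hTc m
    have h3 : HasSum (fun m : ℤ => r * lam * (β ((1 : ℕ) * m) * conj (β m) *
        ((‖WW ν (2 * Real.pi * (1 : ℕ) * |(m : ℝ)| * ((p : ℝ) * Y) / P)‖ ^ 2 : ℝ) : ℂ)) -
          (p : ℂ)⁻¹ * T m)
        (r * lam * Dg P ν β 1 (p * Y) - (p : ℂ)⁻¹ * conj (Dg P ν β p (p * Y))) :=
      (hs1.hasSum.mul_left _).sub (hTsum.mul_left _)
    rw [← h3.tsum_eq, Dg]
    refine tsum_congr fun m => ?_
    rw [hr m]
    have e2 : 2 * Real.pi * ((1 : ℕ) : ℝ) * |(m : ℝ)| * ((p : ℝ) * Y) / P =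
        2 * Real.pi * p * |(m : ℝ)| * Y / P := by
      push_cast
      ring
    rw [e2]
    simp only [hT]
    rw [← hrr]
    simp only [Nat.cast_one, one_mul]
    ring
  · have hs1 := c9_summable_q h one_pos (mul_pos (pow_pos hpr 2) hY)
    have hs2 := c9_summable_q h hp.pos (mul_pos hpr hY)
    have h3 : HasSum (fun m : ℤ => r * lam * (β (p * m) * conj (β m) *
        ((‖WW ν (2 * Real.pi * p * |(m : ℝ)| * ((p : ℝ) * Y) / P)‖ ^ 2 : ℝ) : ℂ)) -
          (p : ℂ)⁻¹ * (β ((1 : ℕ) * m) * conj (β m) *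
        ((‖WW ν (2 * Real.pi * (1 : ℕ) * |(m : ℝ)| * ((p : ℝ) ^ 2 * Y) / P)‖ ^ 2 : ℝ) : ℂ)))
        (r * lam * Dg P ν β p (p * Y) - (p : ℂ)⁻¹ * Dg P ν β 1 ((p : ℝ) ^ 2 * Y)) :=
      (hs2.hasSum.mul_left _).sub (hs1.hasSum.mul_left _)
    rw [← h3.tsum_eq, Dg]
    refine tsum_congr fun m => ?_
    have e0 : (((p ^ 2 : ℕ) : ℤ)) * m = (p : ℤ) * ((p : ℤ) * m) := by
      push_cast
      ring
    rw [e0, hr ((p : ℤ) * m), if_pos (dvd_mul_right _ _), Int.mul_ediv_cancel_left _ hp0]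
    have e1 : 2 * Real.pi * ((p ^ 2 : ℕ) : ℝ) * |(m : ℝ)| * Y / P =
        2 * Real.pi * p * |(m : ℝ)| * ((p : ℝ) * Y) / P := by
      push_cast
      ring
    have e2 : 2 * Real.pi * ((1 : ℕ) : ℝ) * |(m : ℝ)| * ((p : ℝ) ^ 2 * Y) / P =
        2 * Real.pi * p * |(m : ℝ)| * ((p : ℝ) * Y) / P := by
      push_cast
      ring
    rw [e1, e2, ← hrr]
    simp only [Nat.cast_one, one_mul]
    ring

end Pool.Agent.JO.FM

namespace Pool.Agent.JO.FM

theorem Dg_one : type_of% @Dg_one_pr := @Dg_one_pr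
theorem Dg_rel : type_of% @Dg_rel_pr := @Dg_rel_pr

end Pool.Agent.JO.FM
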