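import Pool.Agent.Lib_helper45.JO.Defs2
import Pool.Agent.Lib_helper45.JOM.A10
import Pool.Agent.Lib_helper45.JOM.A11
import Pool.Agent.Lib_helper45.JOM.A2
import Pool.Agent.Lib_helper45.JOM.A3
import Pool.Agent.Lib_helper45.JOM.A4
import Pool.Agent.Lib_helper45.JOM.C10
import Pool.Agent.Lib_helper45.JOM.C11
import Pool.Agent.Lib_helper45.JOM.C7
import Pool.Agent.Lib_helper45.JOM.C9

/-!
# Project JO, part FM, weight 0: block C12 (helper6)
-/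

set_option autoImplicit false

namespace Pool.Agent.JO.FM

open Complex Filter Topology MeasureTheory Set
open UpperHalfPlane hiding I
open scoped MatrixGroups ComplexConjugate

/-! ## logarithmic integrals -/

theorem c12_ii {D : ℝ → ℂ} (hc : ContinuousOn D (Ioi 0)) {a b : ℝ} (ha : 0 < a) (hb : 0 < b) :
    IntervalIntegrable (fun Y => D Y / Y) volume a b := by
  apply ContinuousOn.intervalIntegrable
  have hsub : uIcc a b ⊆ Ioi 0 := by
    intro x hx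
    exact lt_of_lt_of_le (lt_min ha hb) hx.1
  refine (hc.mono hsub).div (Complex.continuous_ofReal.continuousOn) fun x hx => ?_
  have : (0 : ℝ) < x := hsub hx
  exact_mod_cast this.ne'

theorem c12_log {D : ℝ → ℂ} {C : ℝ} (hC : ∀ Y, 0 < Y → ‖D Y‖ ≤ C) {a b : ℝ} (ha : 0 < a)
    (hab : a ≤ b) : ‖∫ Y in a..b, D Y / Y‖ ≤ C * Real.log (b / a) := by
  have hb : 0 < b := ha.trans_le hab
  have hi : IntervalIntegrable (fun Y : ℝ => C * Y⁻¹) volume a b := by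
    apply ContinuousOn.intervalIntegrable
    refine continuousOn_const.mul (continuousOn_inv₀.mono fun x hx => ?_)
    have : (0 : ℝ) < x := lt_of_lt_of_le (lt_min ha hb) hx.1
    exact this.ne'
  calc ‖∫ Y in a..b, D Y / Y‖ ≤ ∫ Y in a..b, C * Y⁻¹ := by
        refine intervalIntegral.norm_integral_le_of_norm_le hab ?_ hi
        refine Eventually.of_forall fun Y hY => ?_
        have hY0 : 0 < Y := ha.trans hY.1
        rw [norm_div, Complex.norm_real, Real.norm_eq_abs, abs_of_pos hY0, div_eq_mul_inv]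
        exact mul_le_mul_of_nonneg_right (hC Y hY0) (inv_nonneg.2 hY0.le)
    _ = C * Real.log (b / a) := by
        rw [intervalIntegral.integral_const_mul, integral_inv_of_pos ha hb]

theorem c12_shift {D : ℝ → ℂ} (hc : ContinuousOn D (Ioi 0)) {C : ℝ}
    (hC : ∀ Y, 0 < Y → ‖D Y‖ ≤ C) {c : ℝ} (h1 : 1 ≤ c) {Y₀ : ℝ} (h0 : 0 < Y₀) :
    ‖(∫ Y in Y₀..1, D (c * Y) / Y) - ∫ Y in Y₀..1, D Y / Y‖ ≤ 2 * (C * Real.log c) := by
  have hc0 : 0 < c := by linarith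
  have e1 : ∫ Y in Y₀..1, D (c * Y) / Y = ∫ Y in (c * Y₀)..c, D Y / Y := by
    have h2 : ∀ Y : ℝ, D (c * Y) / Y = (c : ℂ) * (fun x : ℝ => D x / x) (c * Y) := by
      intro Y
      have hcc : (c : ℂ) ≠ 0 := by exact_mod_cast hc0.ne'
      simp only
      push_cast
      rw [mul_div_assoc', mul_div_mul_left _ _ hcc]
    simp_rw [h2]
    rw [intervalIntegral.integral_const_mul,
      intervalIntegral.integral_comp_mul_left (fun x : ℝ => D x / x) hc0.ne',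
      mul_one, Complex.real_smul, ← mul_assoc]
    have hcc : (c : ℂ) ≠ 0 := by exact_mod_cast hc0.ne'
    push_cast
    rw [mul_inv_cancel₀ hcc, one_mul]
  have hcY : 0 < c * Y₀ := by positivity
  have e2 : (∫ Y in (c * Y₀)..c, D Y / Y) - ∫ Y in Y₀..1, D Y / Y =
      (∫ Y in (1 : ℝ)..c, D Y / Y) - ∫ Y in Y₀..(c * Y₀), D Y / Y := by
    have i1 := intervalIntegral.integral_add_adjacent_intervals (c12_ii hc h0 hcY)
      (c12_ii hc hcY hc0)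
    have i2 := intervalIntegral.integral_add_adjacent_intervals (c12_ii hc h0 one_pos)
      (c12_ii hc one_pos hc0)
    linear_combination i1 - i2
  rw [e1, e2]
  have n1 := c12_log hC one_pos h1
  have n2 := c12_log hC h0 (show Y₀ ≤ c * Y₀ by nlinarith)
  rw [div_one] at n1
  have e3 : c * Y₀ / Y₀ = c := by field_simp
  rw [e3] at n2
  calc _ ≤ _ := norm_sub_le _ _
    _ ≤ C * Real.log c + C * Real.log c := add_le_add n1 n2
    _ = _ := by ring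

/-! ## the relations for the integrated diagonals -/

theorem c12_rel {P p : ℕ} (hP : 0 < P) (hp : p.Prime) {ν : ℂ} (hν : GoodNu ν) {β : ℤ → ℂ}
    {F : ℍ → ℂ} (h : Expn P ν β F) {lam : ℂ}
    (hr : ∀ m : ℤ, β (p * m) = ((√(p : ℝ) : ℝ) : ℂ)⁻¹ *
      (lam * β m - ((√(p : ℝ) : ℝ) : ℂ)⁻¹ * 1 * (if (p : ℤ) ∣ m then β (m / p) else 0))) :
    ∃ C : ℝ, ∀ Y₀ : ℝ, 0 < Y₀ →
      ‖Ug P ν β p Y₀ - (((√(p : ℝ) : ℝ) : ℂ)⁻¹ * lam * Ug P ν β 1 Y₀ -
        (p : ℂ)⁻¹ * conj (Ug P ν β p Y₀))‖ ≤ C ∧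
      ‖Ug P ν β (p ^ 2) Y₀ - (((√(p : ℝ) : ℝ) : ℂ)⁻¹ * lam * Ug P ν β p Y₀ -
        (p : ℂ)⁻¹ * Ug P ν β 1 Y₀)‖ ≤ C := by
  have hp1 : (1 : ℝ) ≤ p := by exact_mod_cast hp.one_lt.le
  have hp0 : (0 : ℝ) < p := by linarith
  obtain ⟨hc1, C1, hC1⟩ := Dg_bdd hP hν h (q := 1) one_pos
  obtain ⟨hcp, Cp, hCp⟩ := Dg_bdd hP hν h (q := p) hp.pos
  have hb1 : ∀ Y, 0 < Y → ‖Dg P ν β 1 Y‖ ≤ C1 := fun Y hY => (hC1 Y hY).1
  have hbp : ∀ Y, 0 < Y → ‖Dg P ν β p Y‖ ≤ Cp := fun Y hY => (hCp Y hY).1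
  set A : ℂ := ((√(p : ℝ) : ℝ) : ℂ)⁻¹ * lam with hA
  have hsc : ∀ {q : ℕ} (c : ℝ), 0 < c → ContinuousOn (Dg P ν β q) (Ioi 0) →
      ContinuousOn (fun Y => Dg P ν β q (c * Y)) (Ioi 0) := by
    intro q c hc hq
    exact hq.comp (by fun_prop) fun x hx => mul_pos hc hx
  refine ⟨‖A‖ * (2 * (C1 * Real.log p)) + ‖A‖ * (2 * (Cp * Real.log p)) +
    ‖(p : ℂ)⁻¹‖ * (2 * (Cp * Real.log p)) +
    ‖(p : ℂ)⁻¹‖ * (2 * (C1 * Real.log ((p : ℝ) ^ 2))), fun Y₀ h0 => ?_⟩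
  have s1 := c12_shift hc1 hb1 hp1 h0
  have s2 := c12_shift hcp hbp hp1 h0
  have s3 := c12_shift hc1 hb1 (c := (p : ℝ) ^ 2) (by nlinarith) h0
  have p1 : 0 ≤ ‖A‖ * (2 * (C1 * Real.log p)) :=
    mul_nonneg (norm_nonneg _) ((norm_nonneg _).trans s1)
  have p2 : 0 ≤ ‖A‖ * (2 * (Cp * Real.log p)) :=
    mul_nonneg (norm_nonneg _) ((norm_nonneg _).trans s2)
  have p3 : 0 ≤ ‖(p : ℂ)⁻¹‖ * (2 * (Cp * Real.log p)) :=
    mul_nonneg (norm_nonneg _) ((norm_nonneg _).trans s2)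
  have p4 : 0 ≤ ‖(p : ℂ)⁻¹‖ * (2 * (C1 * Real.log ((p : ℝ) ^ 2))) :=
    mul_nonneg (norm_nonneg _) ((norm_nonneg _).trans s3)
  set I1 := ∫ Y in Y₀..1, Dg P ν β 1 (p * Y) / Y with hI1
  set Ip := ∫ Y in Y₀..1, Dg P ν β p (p * Y) / Y with hIp
  set I2 := ∫ Y in Y₀..1, Dg P ν β 1 ((p : ℝ) ^ 2 * Y) / Y with hI2
  have i1 : IntervalIntegrable (fun Y : ℝ => Dg P ν β 1 (p * Y) / Y) volume Y₀ 1 :=
    c12_ii (hsc _ hp0 hc1) h0 one_pos
  have ip : IntervalIntegrable (fun Y : ℝ => Dg P ν β p (p * Y) / Y) volume Y₀ 1 :=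
    c12_ii (hsc _ hp0 hcp) h0 one_pos
  have i2 : IntervalIntegrable (fun Y : ℝ => Dg P ν β 1 ((p : ℝ) ^ 2 * Y) / Y) volume Y₀ 1 :=
    c12_ii (hsc _ (by positivity) hc1) h0 one_pos
  have ipc : IntervalIntegrable (fun Y : ℝ => conj (Dg P ν β p (p * Y) / Y)) volume Y₀ 1 := by
    have : IntervalIntegrable (fun Y : ℝ => (fun Y => conj (Dg P ν β p (p * Y))) Y / Y)
        volume Y₀ 1 := c12_ii (Complex.continuous_conj.comp_continuousOn (hsc _ hp0 hcp)) h0 one_pos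
    refine IntervalIntegrable.congr (fun Y _ => ?_) this
    simp
  have hpos : ∀ Y ∈ uIcc Y₀ 1, 0 < Y := fun Y hY => lt_of_lt_of_le (lt_min h0 one_pos) hY.1
  have e1 : Ug P ν β p Y₀ = A * I1 - (p : ℂ)⁻¹ * conj Ip := by
    rw [Ug, hI1, hIp, ← intervalIntegral.intervalIntegral_conj,
      ← intervalIntegral.integral_const_mul, ← intervalIntegral.integral_const_mul,
      ← intervalIntegral.integral_sub (i1.const_mul _) (ipc.const_mul _)]
    refine intervalIntegral.integral_congr fun Y hY => ?_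
    have h2 := (Dg_rel hP hp hν h hr (hpos Y hY)).1
    rw [h2, map_div₀, Complex.conj_ofReal]
    ring
  have e2 : Ug P ν β (p ^ 2) Y₀ = A * Ip - (p : ℂ)⁻¹ * I2 := by
    rw [Ug, hI2, hIp, ← intervalIntegral.integral_const_mul, ← intervalIntegral.integral_const_mul,
      ← intervalIntegral.integral_sub (ip.const_mul _) (i2.const_mul _)]
    refine intervalIntegral.integral_congr fun Y hY => ?_
    have h2 := (Dg_rel hP hp hν h hr (hpos Y hY)).2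
    rw [h2]
    ring
  clear_value A
  constructor
  · have e3 : Ug P ν β p Y₀ - (A * Ug P ν β 1 Y₀ - (p : ℂ)⁻¹ * conj (Ug P ν β p Y₀)) =
        A * (I1 - Ug P ν β 1 Y₀) - (p : ℂ)⁻¹ * conj (Ip - Ug P ν β p Y₀) := by
      rw [map_sub]
      linear_combination e1
    rw [e3]
    calc _ ≤ ‖A * (I1 - Ug P ν β 1 Y₀)‖ + ‖(p : ℂ)⁻¹ * conj (Ip - Ug P ν β p Y₀)‖ :=
          norm_sub_le _ _
      _ = ‖A‖ * ‖I1 - Ug P ν β 1 Y₀‖ + ‖(p : ℂ)⁻¹‖ * ‖Ip - Ug P ν β p Y₀‖ := by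
          rw [norm_mul, norm_mul, RCLike.norm_conj]
      _ ≤ ‖A‖ * (2 * (C1 * Real.log p)) + ‖(p : ℂ)⁻¹‖ * (2 * (Cp * Real.log p)) :=
          add_le_add (mul_le_mul_of_nonneg_left s1 (norm_nonneg _))
            (mul_le_mul_of_nonneg_left s2 (norm_nonneg _))
      _ ≤ _ := by linarith
  · have e3 : Ug P ν β (p ^ 2) Y₀ - (A * Ug P ν β p Y₀ - (p : ℂ)⁻¹ * Ug P ν β 1 Y₀) =
        A * (Ip - Ug P ν β p Y₀) - (p : ℂ)⁻¹ * (I2 - Ug P ν β 1 Y₀) := by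
      linear_combination e2
    rw [e3]
    calc _ ≤ ‖A * (Ip - Ug P ν β p Y₀)‖ + ‖(p : ℂ)⁻¹ * (I2 - Ug P ν β 1 Y₀)‖ :=
          norm_sub_le _ _
      _ = ‖A‖ * ‖Ip - Ug P ν β p Y₀‖ + ‖(p : ℂ)⁻¹‖ * ‖I2 - Ug P ν β 1 Y₀‖ := by
          rw [norm_mul, norm_mul]
      _ ≤ ‖A‖ * (2 * (Cp * Real.log p)) +
            ‖(p : ℂ)⁻¹‖ * (2 * (C1 * Real.log ((p : ℝ) ^ 2))) :=
          add_le_add (mul_le_mul_of_nonneg_left s2 (norm_nonneg _))
            (mul_le_mul_of_nonneg_left s3 (norm_nonneg _))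
      _ ≤ _ := by linarith

/-! ## the diagonal for `q = 1` -/

theorem c12_one {P : ℕ} (hP : 0 < P) {ν : ℂ} (hν : GoodNu ν) {β : ℤ → ℂ} {F : ℍ → ℂ}
    (h : Expn P ν β F) {Y₀ : ℝ} (h0 : 0 < Y₀) : Ug P ν β 1 Y₀ =
      ((∫ Y in Y₀..1, ((P : ℝ)⁻¹ * ∫ x in (0 : ℝ)..P, ‖F (pz x Y)‖ ^ 2) / Y : ℝ) : ℂ) := by
  rw [Ug, ← intervalIntegral.integral_ofReal]
  refine intervalIntegral.integral_congr fun Y hY => ?_
  have hY0 : 0 < Y := lt_of_lt_of_le (lt_min h0 one_pos) hY.1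
  have h2 := Dg_one hP hν h hY0
  simp only [h2]
  push_cast
  rfl

theorem c12_one_nonneg {P : ℕ} {F : ℍ → ℂ} {Y₀ : ℝ} (h0 : 0 < Y₀) (h1 : Y₀ ≤ 1) :
    0 ≤ ∫ Y in Y₀..1, ((P : ℝ)⁻¹ * ∫ x in (0 : ℝ)..P, ‖F (pz x Y)‖ ^ 2) / Y := by
  refine intervalIntegral.integral_nonneg h1 fun Y hY => ?_
  have hY0 : 0 < Y := h0.trans_le hY.1
  refine div_nonneg (mul_nonneg (by positivity) ?_) hY0.le
  exact intervalIntegral.integral_nonneg (Nat.cast_nonneg P) fun x _ => by positivity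

theorem c12_fin {α β P K B u v w z : ℝ} (hP : 0 < P) (hP2 : P ≤ 1 / 2) (hu : 0 ≤ u)
    (h1 : |(1 + P) * v - α * u| ≤ K) (h2 : |(1 - P) * w - β * u| ≤ K)
    (h3 : |z - (α * v - β * w - P * u)| ≤ K) :
    (|v| ≤ B → |α| * u ≤ (1 + P) * B + K) ∧ (α = 0 → |z| ≤ B → P * u ≤ K + B + 2 * |β| * K) := by
  constructor
  · intro hv
    have e1 : |α| * u = |α * u| := by rw [abs_mul, abs_of_nonneg hu]
    rw [e1]
    have e2 : α * u = (1 + P) * v - ((1 + P) * v - α * u) := by ring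
    rw [e2]
    refine (abs_sub _ _).trans (add_le_add ?_ h1)
    rw [abs_mul, abs_of_pos (by linarith : 0 < 1 + P)]
    exact mul_le_mul_of_nonneg_left hv (by linarith)
  · intro hα hz
    rw [hα] at h3
    have hK : 0 ≤ K := (abs_nonneg _).trans h2
    have h4 : P * u ≤ K + B - β * w := by
      have := (abs_le.1 h3).2
      have h5 := (abs_le.1 h3).1
      have h6 := abs_le.1 hz
      linarith [h6.1, h6.2]
    have h7 : -(β * w) ≤ 2 * |β| * K := by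
      have h8 : |β * ((1 - P) * w - β * u)| ≤ |β| * K := by
        rw [abs_mul]
        exact mul_le_mul_of_nonneg_left h2 (abs_nonneg _)
      have h9 := (abs_le.1 h8).1
      have h10 : 0 ≤ β ^ 2 * u := by positivity
      have h11 : -(|β| * K) ≤ (1 - P) * (β * w) := by nlinarith
      have hbK : 0 ≤ |β| * K := by positivity
      by_contra hcon
      push Not at hcon
      have h12 : β * w < -(2 * |β| * K) := by linarith
      nlinarith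
    linarith

theorem c12_norm {N : ℕ} [NeZero N] {χ : DirichletCharacter ℂ N} {ev : ℝ} {f : ℍ → ℂ}
    (h : IsMaassForm N χ 0 ev f) (γ : SL(2, ℤ)) (hγ : (N : ℤ) ∣ γ 1 0) (z : ℍ) :
    ‖f (γ • z)‖ ^ 2 = ‖f z‖ ^ 2 := by
  have h1 := h.automorphic γ hγ z
  rw [pow_zero, mul_one] at h1
  have hdet := γ.det_coe
  rw [Matrix.det_fin_two] at hdet
  have hu : ((γ 1 1 : ℤ) : ZMod N) * ((γ 0 0 : ℤ) : ZMod N) = 1 := by
    obtain ⟨k, hk⟩ := hγ
    have h2 : ((γ 0 0 * γ 1 1 - γ 0 1 * γ 1 0 : ℤ) : ZMod N) = ((1 : ℤ) : ZMod N) := by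
      rw [hdet]
    rw [hk] at h2
    push_cast at h2
    rw [ZMod.natCast_self] at h2
    linear_combination h2
  have hu2 : IsUnit ((γ 1 1 : ℤ) : ZMod N) := IsUnit.of_mul_eq_one _ hu
  obtain ⟨u, hu3⟩ := hu2
  rw [h1, norm_mul, ← hu3, DirichletCharacter.unit_norm_eq_one, one_mul]

theorem c12_cont {f : ℍ → ℂ}
    (hf : ContDiffOn ℝ 2 (fun z : ℂ => f (ofComplex z)) {z | 0 < z.im}) : Continuous f := by
  have h1 : Continuous (fun z : ℍ => (fun z : ℂ => f (ofComplex z)) (z : ℂ)) :=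
    hf.continuousOn.comp_continuous UpperHalfPlane.continuous_coe fun z => z.im_pos
  refine h1.congr fun z => ?_
  simp

theorem iq_unbdd_pr {N : ℕ} [NeZero N] {χ : DirichletCharacter ℂ N} {ev : ℝ} {f : ℍ → ℂ}
    {a : ℕ → ℂ} (h : IsHeckeMaass N χ 0 ev f a) {ν : ℂ} {ε : ℝ} (hev : ν ^ 2 = 1 / 4 - ev)
    (F : Frame0 ν ε a f) : ∃ q : ℕ, 1 < q ∧ ¬ ∃ C : ℝ, ∀ θ : ℝ, 0 < θ → θ ≤ 1 →
      |(∫ r in Ioi (0 : ℝ), f (pr r θ) * conj (f (pr (q * r) θ)) / r).re| ≤ C := by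
  have hev0 : 0 < ev := by
    rcases h.weight with ⟨-, h1⟩ | ⟨h1, -⟩
    · exact h1
    · exact absurd h1 zero_ne_one
  obtain ⟨p, hp, hp1, hpN⟩ := Nat.exists_prime_gt_modEq_one 1 (NeZero.ne N)
  have hν := F.nu
  set g : ℍ → ℂ := fun z => f (ModularGroup.S • z) with hgdef
  have hg : ∀ z, g z = f (ModularGroup.S • z) := fun z => rfl
  obtain ⟨Cf, hCf⟩ := maass_bdd h.toIsMaassForm
  have hPg : PerEig N 0 ev g := perEig_slash h.toIsMaassForm ModularGroup.S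
  have hN : 0 < N := Nat.pos_of_ne_zero (NeZero.ne N)
  obtain ⟨β, hβ⟩ := expn_of_perEig hN hν hev hev0 hPg ⟨Cf, fun z => hCf _⟩
  have hχ : χ (p : ZMod N) = 1 := by
    have h1 : (p : ZMod N) = ((1 : ℕ) : ZMod N) := (ZMod.natCast_eq_natCast_iff p 1 N).2 hpN
    rw [h1, Nat.cast_one, map_one]
  have hr1 : ∀ m : ℤ, cf ε a (p * m) = ((√(p : ℝ) : ℝ) : ℂ)⁻¹ *
      (a p * cf ε a m - ((√(p : ℝ) : ℝ) : ℂ)⁻¹ * 1 *
        (if (p : ℤ) ∣ m then cf ε a (m / p) else 0)) := by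
    refine hecke_rel one_pos hp hν F.expn fun x y hy => ?_
    have h1 := hecke_one h hp x y hy
    rwa [hχ] at h1
  have hr2 : ∀ m : ℤ, β (p * m) = ((√(p : ℝ) : ℝ) : ℂ)⁻¹ *
      (a p * β m - ((√(p : ℝ) : ℝ) : ℂ)⁻¹ * 1 * (if (p : ℤ) ∣ m then β (m / p) else 0)) :=
    hecke_rel hN hp hν hβ fun x y hy => hecke_inv h hp hpN hg x y hy
  obtain ⟨K1, hK1⟩ := c12_rel one_pos hp hν F.expn hr1
  obtain ⟨K2, hK2⟩ := c12_rel hN hp hν hβ hr2
  set A : ℂ := ((√(p : ℝ) : ℝ) : ℂ)⁻¹ * a p with hA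
  set V : ℕ → ℝ → ℂ := fun q Y => Ug 1 ν (cf ε a) q Y + Ug N ν β q Y with hV
  set Pr : ℝ := (p : ℝ)⁻¹ with hPr
  have hp2 : (2 : ℝ) ≤ p := by exact_mod_cast hp.two_le
  have hPr0 : 0 < Pr := by positivity
  have hPr2 : Pr ≤ 1 / 2 := by
    rw [hPr, one_div]
    exact inv_anti₀ (by norm_num) hp2
  have hPc : ((p : ℂ))⁻¹ = ((Pr : ℝ) : ℂ) := by
    rw [hPr]
    push_cast
    rfl
  have hU : ∀ Y, 0 < Y → Y ≤ 1 → (V 1 Y).im = 0 ∧
      ∫ Y in Y..1, (∫ x in (0 : ℝ)..1, ‖f (pz x Y)‖ ^ 2) / Y ≤ (V 1 Y).re ∧ 0 ≤ (V 1 Y).re := by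
    intro Y hY hY1
    have e1 := c12_one one_pos hν F.expn hY
    have e2 := c12_one hN hν hβ hY
    have n1 := c12_one_nonneg (P := 1) (F := f) hY hY1
    have n2 := c12_one_nonneg (P := N) (F := g) hY hY1
    simp only [hV]
    rw [e1, e2, ← Complex.ofReal_add]
    refine ⟨Complex.ofReal_im _, ?_, ?_⟩
    · rw [Complex.ofReal_re]
      simp only [Nat.cast_one, inv_one, one_mul] at n1 ⊢
      linarith
    · rw [Complex.ofReal_re]
      linarith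
  have hrel : ∀ Y, 0 < Y → ‖V p Y - (A * V 1 Y - (Pr : ℂ) * conj (V p Y))‖ ≤ K1 + K2 ∧
      ‖V (p ^ 2) Y - (A * V p Y - (Pr : ℂ) * V 1 Y)‖ ≤ K1 + K2 := by
    intro Y hY
    obtain ⟨a1, a2⟩ := hK1 Y hY
    obtain ⟨b1, b2⟩ := hK2 Y hY
    rw [hPc] at a1 a2 b1 b2
    simp only [hV]
    constructor
    · refine le_trans (le_of_eq ?_) ((norm_add_le _ _).trans (add_le_add a1 b1))
      congr 1
      rw [map_add]
      ring
    · refine le_trans (le_of_eq ?_) ((norm_add_le _ _).trans (add_le_add a2 b2))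
      congr 1
      ring
  have hUinf : ∀ M : ℝ, ∃ Y, 0 < Y ∧ Y ≤ Real.sin 1 ∧ M ≤ (V 1 Y).re := by
    intro M
    have hs1 : 0 < Real.sin 1 := Real.sin_pos_of_pos_of_lt_pi one_pos (by
      linarith [Real.pi_gt_three])
    have hφc : Continuous (fun z => ‖f z‖ ^ 2) :=
      (c12_cont h.smooth).norm.pow 2
    obtain ⟨Y₀, hY₀, hd⟩ := diverge (N := N) (φ := fun z => ‖f z‖ ^ 2) hφc
      (fun z => by positivity) (fun γ hγ z => c12_norm h.toIsMaassForm γ hγ z)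
      (by
        obtain ⟨z, hz⟩ := h.ne_zero
        exact ⟨z, by
          have : 0 < ‖f z‖ := norm_pos_iff.2 hz
          positivity⟩) M
    refine ⟨min (Y₀ / 2) (Real.sin 1), lt_min (by positivity) hs1, min_le_right _ _, ?_⟩
    have h1 : 0 < min (Y₀ / 2) (Real.sin 1) := lt_min (by positivity) hs1
    have h2 : min (Y₀ / 2) (Real.sin 1) < Y₀ := (min_le_left _ _).trans_lt (by linarith)
    exact (hd _ h1 h2).trans (hU _ h1 ((min_le_right _ _).trans (Real.sin_le_one 1))).2.1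
  have hbd : ∀ q : ℕ, 1 < q → (∃ C : ℝ, ∀ θ : ℝ, 0 < θ → θ ≤ 1 →
      |(∫ r in Ioi (0 : ℝ), f (pr r θ) * conj (f (pr (q * r) θ)) / r).re| ≤ C) →
      ∃ B : ℝ, ∀ Y, 0 < Y → Y ≤ Real.sin 1 → |(V q Y).re| ≤ B := by
    rintro q hq ⟨C, hC⟩
    obtain ⟨C', hC'⟩ := iq_split F hg hN hβ (q := q) (by omega)
    refine ⟨C + C', fun Y hY hY1 => ?_⟩
    have hpi : (1 : ℝ) < Real.pi / 2 := by linarith [Real.pi_gt_three]
    have hθ0 : 0 < Real.arcsin Y := Real.arcsin_pos.2 hY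
    have hθ1 : Real.arcsin Y ≤ 1 := by
      rw [Real.arcsin_le_iff_le_sin' ⟨by linarith, hpi⟩]
      exact hY1
    have hsin : Real.sin (Real.arcsin Y) = Y :=
      Real.sin_arcsin (by linarith) (hY1.trans (Real.sin_le_one 1))
    have h1 := hC _ hθ0 hθ1
    have h2 := hC' _ hθ0 hθ1
    rw [hsin] at h2
    set Iq := ∫ r in Ioi (0 : ℝ), f (pr r (Real.arcsin Y)) *
      conj (f (pr (q * r) (Real.arcsin Y))) / r with hIq
    have h3 := (Complex.abs_re_le_norm _).trans h2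
    rw [Complex.sub_re, Complex.add_re, Complex.conj_re] at h3
    have h4 : (V q Y).re = (Ug 1 ν (cf ε a) q Y).re + (Ug N ν β q Y).re := by
      simp only [hV, Complex.add_re]
    rw [h4]
    have h5 : (Ug 1 ν (cf ε a) q Y).re + (Ug N ν β q Y).re = Iq.re -
        (Iq.re - ((Ug 1 ν (cf ε a) q Y).re + (Ug N ν β q Y).re)) := by ring
    rw [h5]
    exact (abs_sub _ _).trans (add_le_add h1 h3)
  have hreal : ∀ Y, 0 < Y → Y ≤ Real.sin 1 →
      |(1 + Pr) * (V p Y).re - A.re * (V 1 Y).re| ≤ K1 + K2 ∧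
      |(1 - Pr) * (V p Y).im - A.im * (V 1 Y).re| ≤ K1 + K2 ∧
      |(V (p ^ 2) Y).re - (A.re * (V p Y).re - A.im * (V p Y).im - Pr * (V 1 Y).re)| ≤
        K1 + K2 := by
    intro Y hY hY1
    obtain ⟨r1, r2⟩ := hrel Y hY
    have him := (hU Y hY (hY1.trans (Real.sin_le_one 1))).1
    refine ⟨?_, ?_, ?_⟩
    · refine le_trans (le_of_eq ?_) ((Complex.abs_re_le_norm _).trans r1)
      congr 1
      simp only [Complex.sub_re, Complex.mul_re, Complex.conj_re, Complex.ofReal_re,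
        Complex.ofReal_im, Complex.conj_im, him]
      ring
    · refine le_trans (le_of_eq ?_) ((Complex.abs_im_le_norm _).trans r1)
      congr 1
      simp only [Complex.sub_im, Complex.mul_im, Complex.conj_re, Complex.ofReal_re,
        Complex.ofReal_im, Complex.conj_im, him]
      ring
    · refine le_trans (le_of_eq ?_) ((Complex.abs_re_le_norm _).trans r2)
      congr 1
      simp only [Complex.sub_re, Complex.mul_re, Complex.ofReal_re, Complex.ofReal_im, him]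
      ring
  by_cases hAr : A.re = 0
  · refine ⟨p ^ 2, by nlinarith [hp.two_le], fun hcon => ?_⟩
    obtain ⟨B, hB⟩ := hbd (p ^ 2) (by nlinarith [hp.two_le]) hcon
    obtain ⟨Y, hY, hY1, hM⟩ := hUinf ((K1 + K2 + B + 2 * |A.im| * (K1 + K2) + 1) / Pr)
    obtain ⟨r1, r2, r3⟩ := hreal Y hY hY1
    have h1 := (c12_fin (B := B) hPr0 hPr2 (hU Y hY (hY1.trans (Real.sin_le_one 1))).2.2
      r1 r2 r3).2 hAr (hB Y hY hY1)
    rw [div_le_iff₀ hPr0] at hM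
    linarith
  · refine ⟨p, hp.one_lt, fun hcon => ?_⟩
    obtain ⟨B, hB⟩ := hbd p hp.one_lt hcon
    have hAp : 0 < |A.re| := abs_pos.2 hAr
    obtain ⟨Y, hY, hY1, hM⟩ := hUinf (((1 + Pr) * B + (K1 + K2) + 1) / |A.re|)
    obtain ⟨r1, r2, r3⟩ := hreal Y hY hY1
    have h1 := (c12_fin (B := B) hPr0 hPr2 (hU Y hY (hY1.trans (Real.sin_le_one 1))).2.2
      r1 r2 r3).1 (hB Y hY hY1)
    rw [div_le_iff₀ hAp] at hM
    linarith


end Pool.Agent.JO.FM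

namespace Pool.Agent.JO.FM

theorem iq_unbdd : type_of% @iq_unbdd_pr := @iq_unbdd_pr

end Pool.Agent.JO.FM
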