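import Pool.Agent.Lib_helper45.JO.Defs2
import Pool.Agent.Lib_helper45.JOM.P1

/-!
# Project JO, part FM, block P5: the size of `G` for small `τ`
-/

set_option autoImplicit false

namespace Pool.Agent.JO.FM

open Complex Filter Topology MeasureTheory Set
open UpperHalfPlane hiding I
open scoped MatrixGroups ComplexConjugate

theorem p5_exp {k : ℝ} (hk : 0 < k) : Integrable (fun u : ℝ => Real.exp (-(k * |u|))) := by
  have h1 : IntegrableOn (fun u : ℝ => Real.exp (-(k * |u|))) (Ioi 0) := by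
    have h := exp_neg_integrableOn_Ioi 0 hk
    refine (integrableOn_congr_fun (fun u hu => ?_) measurableSet_Ioi).1 h
    have hu0 : (0 : ℝ) < u := hu
    rw [abs_of_pos hu0]
    congr 1
    ring
  have h2 : IntegrableOn (fun u : ℝ => Real.exp (-(k * |u|))) (Iic 0) := by
    have h := integrableOn_exp_mul_Iic hk 0
    refine (integrableOn_congr_fun (fun u hu => ?_) measurableSet_Iic).1 h
    have hu0 : u ≤ 0 := hu
    rw [abs_of_nonpos hu0]
    congr 1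
    ring
  have h3 := h2.union h1
  rwa [Iic_union_Ioi, integrableOn_univ] at h3

/-- `min(1, Z^{-1/2})` -/
noncomputable def p5m (Z : ℝ) : ℝ := min 1 (Z ^ (-(1 / 2) : ℝ))

theorem p5m_nonneg {Z : ℝ} (hZ : 0 ≤ Z) : 0 ≤ p5m Z :=
  le_min zero_le_one (Real.rpow_nonneg hZ _)

theorem p5m_le {Z b : ℝ} (hZ : 0 < Z) (hb : 0 ≤ b) (hb' : b ≤ 1 / 2) : p5m Z ≤ Z ^ (-b) := by
  unfold p5m
  by_cases h : Z ≤ 1
  · refine (min_le_left _ _).trans ?_
    exact Real.one_le_rpow_of_pos_of_le_one_of_nonpos hZ h (by linarith)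
  · refine (min_le_right _ _).trans ?_
    exact Real.rpow_le_rpow_of_exponent_le (not_le.1 h).le (by linarith)

/-- the properties of the function under the integral -/
structure p5H (M : ℝ) (h : ℝ → ℂ) : Prop where
  cont : Continuous h
  bd : ∀ Z, 0 < Z → ‖h Z‖ ≤ M * p5m Z
  lip : ∀ Z W, 0 ≤ Z → 0 ≤ W → ‖h Z - h W‖ ≤ M * |Z - W|

theorem p5_cosh (u : ℝ) : Real.exp |u| / 2 ≤ Real.cosh u := by
  rw [← Real.cosh_abs, Real.cosh_eq]
  have := Real.exp_pos (-|u|)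
  linarith

theorem p5_int_m {δ : ℝ} (h0 : 0 < δ) (h1 : δ < 1 / 2) :
    IntegrableOn (fun Z : ℝ => Z ^ (δ - 1) * p5m Z) (Ioi 0) := by
  have hm : AEStronglyMeasurable (fun Z : ℝ => Z ^ (δ - 1) * p5m Z) (volume.restrict (Ioi 0)) := by
    refine ContinuousOn.aestronglyMeasurable ?_ measurableSet_Ioi
    intro Z hZ
    have hZ0 : (0 : ℝ) < Z := hZ
    refine ContinuousAt.continuousWithinAt ?_
    refine (Real.continuousAt_rpow_const _ _ (Or.inl hZ0.ne')).mul ?_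
    exact continuousAt_const.min (Real.continuousAt_rpow_const _ _ (Or.inl hZ0.ne'))
  have e1 : IntegrableOn (fun Z : ℝ => Z ^ (δ - 1) * p5m Z) (Ioc 0 1) := by
    have h := (intervalIntegral.intervalIntegrable_rpow' (a := 0) (b := 1)
      (show -1 < δ - 1 by linarith)).1
    refine Integrable.mono' h (hm.mono_set Ioc_subset_Ioi_self) ?_
    refine (ae_restrict_iff' measurableSet_Ioc).2 (Eventually.of_forall fun Z hZ => ?_)
    have hZ0 : (0 : ℝ) < Z := hZ.1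
    rw [norm_mul, Real.norm_of_nonneg (Real.rpow_nonneg hZ0.le _),
      Real.norm_of_nonneg (p5m_nonneg hZ0.le)]
    exact mul_le_of_le_one_right (Real.rpow_nonneg hZ0.le _) (min_le_left _ _)
  have e2 : IntegrableOn (fun Z : ℝ => Z ^ (δ - 1) * p5m Z) (Ioi 1) := by
    have h : IntegrableOn (fun Z : ℝ => Z ^ (δ - 3 / 2)) (Ioi 1) :=
      integrableOn_Ioi_rpow_of_lt (by linarith) one_pos
    refine Integrable.mono' h (hm.mono_set (Ioi_subset_Ioi zero_le_one)) ?_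
    refine (ae_restrict_iff' measurableSet_Ioi).2 (Eventually.of_forall fun Z hZ => ?_)
    have hZ1 : (1 : ℝ) < Z := hZ
    have hZ0 : (0 : ℝ) < Z := by linarith
    rw [norm_mul, Real.norm_of_nonneg (Real.rpow_nonneg hZ0.le _),
      Real.norm_of_nonneg (p5m_nonneg hZ0.le)]
    calc Z ^ (δ - 1) * p5m Z ≤ Z ^ (δ - 1) * Z ^ (-(1 / 2) : ℝ) := by
          have := Real.rpow_nonneg hZ0.le (δ - 1)
          exact mul_le_mul_of_nonneg_left (min_le_right _ _) this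
      _ = Z ^ (δ - 3 / 2) := by
          rw [← Real.rpow_add hZ0]
          congr 1
          ring
  have e3 := e1.union e2
  rwa [Ioc_union_Ioi_eq_Ioi zero_le_one] at e3

/-- `∫ Z^{δ-1} h(Z) dZ`, integrability -/
theorem p5_int_h {δ M : ℝ} (h0 : 0 < δ) (h1 : δ < 1 / 2) {h : ℝ → ℂ} (H : p5H M h) :
    IntegrableOn (fun Z : ℝ => ((Z ^ (δ - 1) : ℝ) : ℂ) * h Z) (Ioi 0) := by
  refine Integrable.mono' ((p5_int_m h0 h1).const_mul M) ?_ ?_
  · refine ContinuousOn.aestronglyMeasurable ?_ measurableSet_Ioi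
    intro Z hZ
    have hZ0 : (0 : ℝ) < Z := hZ
    refine ContinuousAt.continuousWithinAt ?_
    exact (Complex.continuous_ofReal.continuousAt.comp
      (Real.continuousAt_rpow_const _ _ (Or.inl hZ0.ne'))).mul H.cont.continuousAt
  · refine (ae_restrict_iff' measurableSet_Ioi).2 (Eventually.of_forall fun Z hZ => ?_)
    have hZ0 : (0 : ℝ) < Z := hZ
    rw [norm_mul, Complex.norm_real, Real.norm_of_nonneg (Real.rpow_nonneg hZ0.le _)]
    have e1 := H.bd Z hZ0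
    have e2 := Real.rpow_nonneg hZ0.le (δ - 1)
    calc Z ^ (δ - 1) * ‖h Z‖ ≤ Z ^ (δ - 1) * (M * p5m Z) := by gcongr
      _ = _ := by ring

/-- the substitution `Z = v e^u/2` -/
theorem p5_subst {δ M v : ℝ} (h0 : 0 < δ) (h1 : δ < 1 / 2) {h : ℝ → ℂ} (H : p5H M h)
    (hv : 0 < v) :
    Integrable (fun u : ℝ => ((Real.exp (δ * u) : ℝ) : ℂ) * h (v / 2 * Real.exp u)) ∧
    ∫ u : ℝ, ((Real.exp (δ * u) : ℝ) : ℂ) * h (v / 2 * Real.exp u) =
      (((v / 2) ^ (-δ) : ℝ) : ℂ) * ∫ Z in Ioi (0 : ℝ), ((Z ^ (δ - 1) : ℝ) : ℂ) * h Z := by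
  set φ : ℝ → ℝ := fun u => v / 2 * Real.exp u with hφ
  have hv2 : 0 < v / 2 := by positivity
  have himg : φ '' univ = Ioi 0 := by
    ext Z
    simp only [image_univ, mem_range, mem_Ioi]
    constructor
    · rintro ⟨u, rfl⟩
      positivity
    · intro hZ
      refine ⟨Real.log (Z / (v / 2)), ?_⟩
      rw [hφ]
      simp only
      rw [Real.exp_log (by positivity)]
      field_simp
  have hder : ∀ u ∈ (univ : Set ℝ), HasDerivWithinAt φ (v / 2 * Real.exp u) univ u := fun u _ =>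
    ((Real.hasDerivAt_exp u).const_mul (v / 2)).hasDerivWithinAt
  have hinj : InjOn φ univ := by
    intro x _ y _ hxy
    exact Real.exp_injective (mul_left_cancel₀ hv2.ne' hxy)
  have hpt : ∀ u : ℝ, |v / 2 * Real.exp u| • (((φ u ^ (δ - 1) : ℝ) : ℂ) * h (φ u)) =
      (((v / 2) ^ δ : ℝ) : ℂ) * (((Real.exp (δ * u) : ℝ) : ℂ) * h (v / 2 * Real.exp u)) := by
    intro u
    have e0 : 0 < φ u := by rw [hφ]; positivity
    have e1 : |v / 2 * Real.exp u| * φ u ^ (δ - 1) = (v / 2) ^ δ * Real.exp (δ * u) := by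
      have : |v / 2 * Real.exp u| = φ u ^ (1 : ℝ) := by
        rw [Real.rpow_one, hφ, abs_of_pos (by positivity)]
      rw [this, ← Real.rpow_add e0, show (1 : ℝ) + (δ - 1) = δ by ring, hφ]
      simp only
      rw [Real.mul_rpow hv2.le (Real.exp_pos u).le, ← Real.exp_mul, mul_comm u δ]
    rw [Complex.real_smul, ← mul_assoc, ← Complex.ofReal_mul, e1, Complex.ofReal_mul, mul_assoc]
  have hI := p5_int_h h0 h1 H
  rw [← himg] at hI
  have h2 := (integrableOn_image_iff_integrableOn_abs_deriv_smul MeasurableSet.univ hder hinj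
    (fun Z : ℝ => ((Z ^ (δ - 1) : ℝ) : ℂ) * h Z)).1 hI
  have h3 := integral_image_eq_integral_abs_deriv_smul MeasurableSet.univ hder hinj
    (fun Z : ℝ => ((Z ^ (δ - 1) : ℝ) : ℂ) * h Z)
  rw [himg] at h3
  simp only [hpt] at h2 h3
  rw [integrableOn_univ] at h2
  rw [Measure.restrict_univ, integral_const_mul] at h3
  have e2 : (((v / 2) ^ (-δ) : ℝ) : ℂ) * (((v / 2) ^ δ : ℝ) : ℂ) = 1 := by
    rw [← Complex.ofReal_mul, ← Real.rpow_add hv2]
    simp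
  constructor
  · have h4 := h2.const_mul (((v / 2) ^ (-δ) : ℝ) : ℂ)
    refine h4.congr (Eventually.of_forall fun u => ?_)
    simp only
    rw [← mul_assoc, e2, one_mul]
  · rw [h3, ← mul_assoc, e2, one_mul]

theorem p5_int_cosh {δ M v : ℝ} (h0 : 0 ≤ δ) (h1 : δ < 1 / 2) (hM : 0 ≤ M) {h : ℝ → ℂ}
    (H : p5H M h) (hv : 0 < v) :
    Integrable (fun u : ℝ => ((Real.exp (δ * u) : ℝ) : ℂ) * h (v * Real.cosh u)) := by
  have hb := (p5_exp (k := 1 / 2 - δ) (by linarith)).const_mul (M * (v / 2) ^ (-(1 / 2) : ℝ))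
  refine Integrable.mono' hb ?_ (Eventually.of_forall fun u => ?_)
  · have := H.cont
    exact (by fun_prop : Continuous fun u : ℝ =>
      ((Real.exp (δ * u) : ℝ) : ℂ) * h (v * Real.cosh u)).aestronglyMeasurable
  · rw [norm_mul, Complex.norm_real, Real.norm_of_nonneg (Real.exp_pos _).le]
    have hc := Real.cosh_pos u
    have e1 := H.bd (v * Real.cosh u) (by positivity)
    have e2 : p5m (v * Real.cosh u) ≤ (v / 2) ^ (-(1 / 2) : ℝ) * Real.exp (-(|u| / 2)) := by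
      refine (min_le_right _ _).trans ?_
      have e3 : v / 2 * Real.exp |u| ≤ v * Real.cosh u := by
        have := p5_cosh u
        nlinarith
      calc (v * Real.cosh u) ^ (-(1 / 2) : ℝ) ≤ (v / 2 * Real.exp |u|) ^ (-(1 / 2) : ℝ) :=
            Real.rpow_le_rpow_of_nonpos (by positivity) e3 (by norm_num)
        _ = _ := by
            rw [Real.mul_rpow (by positivity) (Real.exp_pos _).le, ← Real.exp_mul]
            congr 2
            ring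
    have e4 : Real.exp (δ * u) ≤ Real.exp (δ * |u|) := by
      apply Real.exp_le_exp.2
      exact mul_le_mul_of_nonneg_left (le_abs_self u) h0
    have e5 : Real.exp (-((1 / 2 - δ) * |u|)) = Real.exp (δ * |u|) * Real.exp (-(|u| / 2)) := by
      rw [← Real.exp_add]
      congr 1
      ring
    have e6 : 0 ≤ p5m (v * Real.cosh u) := p5m_nonneg (by positivity)
    have e7 : 0 ≤ (v / 2) ^ (-(1 / 2) : ℝ) := by positivity
    calc Real.exp (δ * u) * ‖h (v * Real.cosh u)‖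
        ≤ Real.exp (δ * |u|) * (M * ((v / 2) ^ (-(1 / 2) : ℝ) * Real.exp (-(|u| / 2)))) := by
          refine mul_le_mul e4 (e1.trans (mul_le_mul_of_nonneg_left e2 hM)) (norm_nonneg _)
            (Real.exp_pos _).le
      _ = _ := by rw [e5]; ring

/-- the main estimate -/
theorem p5_main {δ M v v₀ : ℝ} (h0 : 0 < δ) (h1 : δ < 1 / 2) (hM : 0 ≤ M) {h : ℝ → ℂ}
    (H : p5H M h) (hv : 0 < v) (hv0 : v ≤ v₀) (hv1 : 1 ≤ v₀) :
    ‖(∫ u : ℝ, ((Real.exp (δ * u) : ℝ) : ℂ) * h (v * Real.cosh u)) -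
      (((v / 2) ^ (-δ) : ℝ) : ℂ) * ∫ Z in Ioi (0 : ℝ), ((Z ^ (δ - 1) : ℝ) : ℂ) * h Z‖ ≤
      2 * M * v₀ * (∫ u : ℝ, Real.exp (-(δ / 2 * |u|))) * v ^ (δ / 2) := by
  obtain ⟨hi, he⟩ := p5_subst h0 h1 H hv
  have hc := p5_int_cosh h0.le h1 hM H hv
  rw [← he, ← integral_sub hc hi]
  have hb := (p5_exp (k := δ / 2) (by linarith)).const_mul (2 * M * v₀ * v ^ (δ / 2))
  refine (norm_integral_le_of_norm_le hb (Eventually.of_forall fun u => ?_)).trans (le_of_eq ?_)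
  · rw [← mul_sub, norm_mul, Complex.norm_real, Real.norm_of_nonneg (Real.exp_pos _).le]
    have hcp := Real.cosh_pos u
    have hep := Real.exp_pos u
    have hZ0 : 0 ≤ v * Real.cosh u := by positivity
    have hW0 : 0 ≤ v / 2 * Real.exp u := by positivity
    have hdiff : |v * Real.cosh u - v / 2 * Real.exp u| = v / 2 * Real.exp (-u) := by
      rw [Real.cosh_eq]
      have : v * ((Real.exp u + Real.exp (-u)) / 2) - v / 2 * Real.exp u =
          v / 2 * Real.exp (-u) := by ring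
      rw [this, abs_of_pos (by positivity)]
    have hl := H.lip _ _ hZ0 hW0
    rw [hdiff] at hl
    have hvp : v / 2 * Real.exp (-u) ≤ v * Real.exp (-u) := by
      have := Real.exp_pos (-u)
      nlinarith
    have hvd : 0 < v ^ (δ / 2) := by positivity
    by_cases hu : 0 ≤ u
    · rw [abs_of_nonneg hu]
      have e1 : v ≤ v₀ * v ^ (δ / 2) := by
        have e2 : v = v ^ (1 - δ / 2) * v ^ (δ / 2) := by
          rw [← Real.rpow_add hv, sub_add_cancel, Real.rpow_one]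
        have e3 : v ^ (1 - δ / 2) ≤ v₀ := by
          calc v ^ (1 - δ / 2) ≤ v₀ ^ (1 - δ / 2) :=
                Real.rpow_le_rpow hv.le hv0 (by linarith)
            _ ≤ v₀ ^ (1 : ℝ) := Real.rpow_le_rpow_of_exponent_le hv1 (by linarith)
            _ = v₀ := Real.rpow_one _
        calc v = v ^ (1 - δ / 2) * v ^ (δ / 2) := e2
          _ ≤ _ := by gcongr
      have e4 : Real.exp (δ * u) * Real.exp (-u) ≤ Real.exp (-(δ / 2 * u)) := by
        rw [← Real.exp_add]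
        apply Real.exp_le_exp.2
        nlinarith
      calc Real.exp (δ * u) * ‖h (v * Real.cosh u) - h (v / 2 * Real.exp u)‖
          ≤ Real.exp (δ * u) * (M * (v * Real.exp (-u))) := by
            have := hl.trans (mul_le_mul_of_nonneg_left hvp hM)
            gcongr
        _ = M * v * (Real.exp (δ * u) * Real.exp (-u)) := by ring
        _ ≤ M * (v₀ * v ^ (δ / 2)) * Real.exp (-(δ / 2 * u)) := by gcongr
        _ ≤ 2 * M * v₀ * v ^ (δ / 2) * Real.exp (-(δ / 2 * u)) := by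
            have : 0 ≤ M * (v₀ * v ^ (δ / 2)) * Real.exp (-(δ / 2 * u)) := by positivity
            linarith
    · push Not at hu
      rw [abs_of_neg hu]
      -- interpolate
      have e1 : ‖h (v * Real.cosh u) - h (v / 2 * Real.exp u)‖ ≤ 2 * M := by
        have a1 := H.bd (v * Real.cosh u) (by positivity)
        have a2 := H.bd (v / 2 * Real.exp u) (by positivity)
        have a3 : p5m (v * Real.cosh u) ≤ 1 := min_le_left _ _
        have a4 : p5m (v / 2 * Real.exp u) ≤ 1 := min_le_left _ _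
        have := norm_sub_le (h (v * Real.cosh u)) (h (v / 2 * Real.exp u))
        nlinarith
      have e2 : ‖h (v * Real.cosh u) - h (v / 2 * Real.exp u)‖ ≤
          2 * M * (v * Real.exp (-u)) ^ (δ / 2) := by
        have hx : 0 < v * Real.exp (-u) := by positivity
        by_cases hx1 : v * Real.exp (-u) ≤ 1
        · have e3 : v * Real.exp (-u) ≤ (v * Real.exp (-u)) ^ (δ / 2) := by
            calc v * Real.exp (-u) = (v * Real.exp (-u)) ^ (1 : ℝ) := (Real.rpow_one _).symm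
              _ ≤ _ := Real.rpow_le_rpow_of_exponent_ge hx hx1 (by linarith)
          have e4 := hl.trans (mul_le_mul_of_nonneg_left (hvp.trans e3) hM)
          have e5 : 0 ≤ M * (v * Real.exp (-u)) ^ (δ / 2) := by positivity
          linarith
        · have e3 : 1 ≤ (v * Real.exp (-u)) ^ (δ / 2) :=
            Real.one_le_rpow (not_le.1 hx1).le (by linarith)
          nlinarith
      have e3 : (v * Real.exp (-u)) ^ (δ / 2) = v ^ (δ / 2) * Real.exp (-(u * (δ / 2))) := by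
        rw [Real.mul_rpow hv.le (Real.exp_pos _).le, ← Real.exp_mul]
        congr 2
        ring
      have e4 : Real.exp (δ * u) * Real.exp (-(u * (δ / 2))) = Real.exp (-(δ / 2 * -u)) := by
        rw [← Real.exp_add]
        congr 1
        ring
      rw [e3] at e2
      calc Real.exp (δ * u) * ‖h (v * Real.cosh u) - h (v / 2 * Real.exp u)‖
          ≤ Real.exp (δ * u) * (2 * M * (v ^ (δ / 2) * Real.exp (-(u * (δ / 2))))) := by gcongr
        _ = 2 * M * v ^ (δ / 2) * (Real.exp (δ * u) * Real.exp (-(u * (δ / 2)))) := by ring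
        _ = 2 * M * 1 * v ^ (δ / 2) * Real.exp (-(δ / 2 * -u)) := by rw [e4]; ring
        _ ≤ 2 * M * v₀ * v ^ (δ / 2) * Real.exp (-(δ / 2 * -u)) := by gcongr
  · rw [integral_const_mul]
    ring

/-- the function `h_τ` -/
noncomputable def p5h (ε τ Z : ℝ) : ℂ :=
  ((Z : ℂ) - I) ^ (-ha τ) + ε * ((Z : ℂ) + I) ^ (-ha τ)

theorem p5_ha_re (τ : ℝ) : (ha τ).re = 1 / 2 := by simp [ha]
theorem p5_ha_im (τ : ℝ) : (ha τ).im = τ := by simp [ha]

theorem p5_ha_norm {τ : ℝ} (h0 : 0 ≤ τ) (h1 : τ ≤ 1) : ‖ha τ‖ ≤ 2 := by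
  unfold ha
  refine (norm_add_le _ _).trans ?_
  rw [norm_mul, Complex.norm_I, mul_one, Complex.norm_real, Real.norm_of_nonneg h0]
  have : ‖(1 / 2 : ℂ)‖ = 1 / 2 := by norm_num
  rw [this]
  linarith

theorem p5_z {c : ℂ} (hc : c = I ∨ c = -I) (Z : ℝ) : ((Z : ℂ) + c).re = Z ∧
    1 ≤ ‖(Z : ℂ) + c‖ ∧ Z ≤ ‖(Z : ℂ) + c‖ ∧ ((Z : ℂ) + c) ∈ slitPlane := by
  have h1 : ((Z : ℂ) + c).re = Z := by rcases hc with h | h <;> simp [h]
  have h2 : |((Z : ℂ) + c).im| = 1 := by rcases hc with h | h <;> simp [h]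
  refine ⟨h1, ?_, ?_, Or.inr ?_⟩
  · rw [← h2]
    exact Complex.abs_im_le_norm _
  · calc Z ≤ |Z| := le_abs_self Z
      _ = |((Z : ℂ) + c).re| := by rw [h1]
      _ ≤ _ := Complex.abs_re_le_norm _
  · intro h
    rw [h] at h2
    simp at h2

theorem p5_cpow {c w : ℂ} (hc : c = I ∨ c = -I) (hw : w.re ≤ -(1 / 2)) (hw' : |w.im| ≤ 1)
    (Z : ℝ) : ‖((Z : ℂ) + c) ^ w‖ ≤ Real.exp Real.pi ∧
      (0 < Z → ‖((Z : ℂ) + c) ^ w‖ ≤ Real.exp Real.pi * p5m Z) := by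
  obtain ⟨h1, h2, h3, h4⟩ := p5_z hc Z
  have hne : (Z : ℂ) + c ≠ 0 := slitPlane_ne_zero h4
  have h5 : ‖((Z : ℂ) + c) ^ w‖ ≤ ‖(Z : ℂ) + c‖ ^ w.re * Real.exp Real.pi := by
    rw [Complex.norm_cpow_of_ne_zero hne, div_eq_mul_inv, ← Real.exp_neg]
    have e1 : -(arg ((Z : ℂ) + c) * w.im) ≤ Real.pi := by
      have a1 := Complex.abs_arg_le_pi ((Z : ℂ) + c)
      calc -(arg ((Z : ℂ) + c) * w.im) ≤ |arg ((Z : ℂ) + c) * w.im| := neg_le_abs _
        _ = |arg ((Z : ℂ) + c)| * |w.im| := abs_mul _ _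
        _ ≤ Real.pi * 1 := mul_le_mul a1 hw' (abs_nonneg _) Real.pi_pos.le
        _ = Real.pi := mul_one _
    gcongr
  have hep := Real.exp_pos Real.pi
  have h6 : ‖(Z : ℂ) + c‖ ^ w.re ≤ ‖(Z : ℂ) + c‖ ^ (-(1 / 2) : ℝ) :=
    Real.rpow_le_rpow_of_exponent_le h2 hw
  have h7 : ‖(Z : ℂ) + c‖ ^ (-(1 / 2) : ℝ) ≤ 1 :=
    Real.rpow_le_one_of_one_le_of_nonpos h2 (by norm_num)
  constructor
  · refine h5.trans ?_
    nlinarith
  · intro hZ
    have h8 : ‖(Z : ℂ) + c‖ ^ (-(1 / 2) : ℝ) ≤ Z ^ (-(1 / 2) : ℝ) :=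
      Real.rpow_le_rpow_of_nonpos hZ h3 (by norm_num)
    have h9 : ‖(Z : ℂ) + c‖ ^ (-(1 / 2) : ℝ) ≤ p5m Z := le_min h7 h8
    refine h5.trans ?_
    rw [mul_comm]
    have := h6.trans h9
    gcongr

theorem p5_lip {c w : ℂ} (hc : c = I ∨ c = -I) (hw : w.re ≤ -(1 / 2)) (hw' : |w.im| ≤ 1)
    (hw2 : ‖w‖ ≤ 2) (Z W : ℝ) :
    ‖((Z : ℂ) + c) ^ w - ((W : ℂ) + c) ^ w‖ ≤ 2 * Real.exp Real.pi * |Z - W| := by
  have hd : ∀ x ∈ (univ : Set ℝ), HasDerivWithinAt (fun x : ℝ => ((x : ℂ) + c) ^ w)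
      (w * ((x : ℂ) + c) ^ (w - 1)) univ x := by
    intro x _
    obtain ⟨_, _, _, h4⟩ := p5_z hc x
    have e1 : HasDerivAt (fun z : ℂ => (z + c) ^ w) (w * ((x : ℂ) + c) ^ (w - 1) * 1) (x : ℂ) :=
      ((hasDerivAt_id (x : ℂ)).add_const c).cpow_const h4
    rw [mul_one] at e1
    exact e1.comp_ofReal.hasDerivWithinAt
  have hb : ∀ x ∈ (univ : Set ℝ), ‖w * ((x : ℂ) + c) ^ (w - 1)‖ ≤ 2 * Real.exp Real.pi := by
    intro x _
    rw [norm_mul]
    have e1 : ‖((x : ℂ) + c) ^ (w - 1)‖ ≤ Real.exp Real.pi :=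
      (p5_cpow hc (by rw [Complex.sub_re, Complex.one_re]; linarith)
        (by rw [Complex.sub_im, Complex.one_im, sub_zero]; exact hw') x).1
    exact mul_le_mul hw2 e1 (norm_nonneg _) (by norm_num)
  have := Convex.norm_image_sub_le_of_norm_hasDerivWithin_le hd hb convex_univ
    (mem_univ W) (mem_univ Z)
  rwa [Real.norm_eq_abs] at this

theorem p5_h {ε τ : ℝ} (hε : ε = 1 ∨ ε = -1) (h0 : 0 ≤ τ) (h1 : τ ≤ 1) :
    p5H (4 * Real.exp Real.pi) (p5h ε τ) := by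
  have hw : (-ha τ).re ≤ -(1 / 2) := by rw [Complex.neg_re, p5_ha_re]
  have hw' : |(-ha τ).im| ≤ 1 := by
    rw [Complex.neg_im, p5_ha_im, abs_neg, abs_of_nonneg h0]
    exact h1
  have hw2 : ‖-ha τ‖ ≤ 2 := by rw [norm_neg]; exact p5_ha_norm h0 h1
  have hεn : ‖(ε : ℂ)‖ = 1 := by rcases hε with h | h <;> simp [h]
  have hep := Real.exp_pos Real.pi
  refine ⟨?_, fun Z hZ => ?_, fun Z W hZ hW => ?_⟩
  · unfold p5h
    refine Continuous.add ?_ (continuous_const.mul ?_)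
    · refine Continuous.cpow (by fun_prop) continuous_const fun Z => ?_
      have := (p5_z (Or.inr rfl : -I = I ∨ -I = -I) Z).2.2.2
      rwa [← sub_eq_add_neg] at this
    · refine Continuous.cpow (by fun_prop) continuous_const fun Z => ?_
      exact (p5_z (Or.inl rfl : I = I ∨ I = -I) Z).2.2.2
  · unfold p5h
    have e1 := (p5_cpow (c := -I) (Or.inr rfl) hw hw' Z).2 hZ
    have e2 := (p5_cpow (c := I) (Or.inl rfl) hw hw' Z).2 hZ
    rw [← sub_eq_add_neg] at e1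
    refine (norm_add_le _ _).trans ?_
    rw [norm_mul, hεn, one_mul]
    have e3 := p5m_nonneg hZ.le
    nlinarith [mul_nonneg hep.le e3]
  · unfold p5h
    have e1 := p5_lip (c := -I) (Or.inr rfl) hw hw' hw2 Z W
    have e2 := p5_lip (c := I) (Or.inl rfl) hw hw' hw2 Z W
    rw [← sub_eq_add_neg, ← sub_eq_add_neg] at e1
    have e3 : ((Z : ℂ) - I) ^ (-ha τ) + ε * ((Z : ℂ) + I) ^ (-ha τ) -
        (((W : ℂ) - I) ^ (-ha τ) + ε * ((W : ℂ) + I) ^ (-ha τ)) =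
        (((Z : ℂ) - I) ^ (-ha τ) - ((W : ℂ) - I) ^ (-ha τ)) +
        ε * (((Z : ℂ) + I) ^ (-ha τ) - ((W : ℂ) + I) ^ (-ha τ)) := by ring
    rw [e3]
    refine (norm_add_le _ _).trans ?_
    rw [norm_mul, hεn, one_mul]
    linarith

theorem p5_k : p5H 1 (fun Z : ℝ => ((Real.exp (-Z) : ℝ) : ℂ)) := by
  refine ⟨by fun_prop, fun Z hZ => ?_, fun Z W hZ hW => ?_⟩
  · rw [Complex.norm_real, Real.norm_of_nonneg (Real.exp_pos _).le, one_mul]
    refine le_min (Real.exp_le_one_iff.2 (by linarith)) ?_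
    rw [Real.exp_neg, Real.rpow_neg hZ.le]
    have e1 : Z ^ (1 / 2 : ℝ) ≤ Real.exp Z := by
      have e2 := Real.add_one_le_exp Z
      by_cases h : Z ≤ 1
      · have := Real.rpow_le_one hZ.le h (by norm_num : (0 : ℝ) ≤ 1 / 2)
        linarith
      · have : Z ^ (1 / 2 : ℝ) ≤ Z ^ (1 : ℝ) :=
          Real.rpow_le_rpow_of_exponent_le (not_le.1 h).le (by norm_num)
        rw [Real.rpow_one] at this
        linarith
    have e3 : 0 < Z ^ (1 / 2 : ℝ) := by positivity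
    exact inv_anti₀ e3 e1
  · rw [← Complex.ofReal_sub, Complex.norm_real, one_mul]
    have hd : ∀ x ∈ Ici (0 : ℝ), HasDerivWithinAt (fun x : ℝ => Real.exp (-x))
        (Real.exp (-x) * -1) (Ici 0) x := fun x _ =>
      ((hasDerivAt_id x).neg.exp).hasDerivWithinAt
    have hb : ∀ x ∈ Ici (0 : ℝ), ‖Real.exp (-x) * -1‖ ≤ 1 := by
      intro x hx
      have hx0 : (0 : ℝ) ≤ x := hx
      rw [mul_neg_one, norm_neg, Real.norm_of_nonneg (Real.exp_pos _).le]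
      exact Real.exp_le_one_iff.2 (by linarith)
    have := Convex.norm_image_sub_le_of_norm_hasDerivWithin_le hd hb (convex_Ici 0)
      (mem_Ici.2 hW) (mem_Ici.2 hZ)
    rwa [one_mul, Real.norm_eq_abs (Z - W)] at this

theorem p5_KK (δ : ℝ) (v : ℝ) : KK (δ : ℂ) v = (1 / 2) * ∫ u : ℝ, ((Real.exp (δ * u) : ℝ) : ℂ) *
    ((Real.exp (-(v * Real.cosh u)) : ℝ) : ℂ) := by
  unfold KK
  congr 2
  funext u
  rw [Complex.ofReal_exp, Complex.ofReal_exp, ← Complex.exp_add]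
  congr 1
  push_cast
  ring

/-- `Γ(δ)` -/
theorem p5_gamma {δ : ℝ} (h0 : 0 < δ) : (∫ Z in Ioi (0 : ℝ), ((Z ^ (δ - 1) : ℝ) : ℂ) *
    ((Real.exp (-Z) : ℝ) : ℂ)) = (Real.Gamma δ : ℂ) := by
  rw [Real.Gamma_eq_integral h0, ← integral_complex_ofReal]
  congr 1
  funext Z
  rw [← Complex.ofReal_mul, mul_comm]

/-- `∫ Z^{δ-1} h_τ(Z) dZ` -/
noncomputable def p5c (ε δ τ : ℝ) : ℂ :=
  ∫ Z in Ioi (0 : ℝ), ((Z ^ (δ - 1) : ℝ) : ℂ) * p5h ε τ Z

theorem p5c_cont {ε δ : ℝ} (hε : ε = 1 ∨ ε = -1) (h0 : 0 < δ) (h1 : δ < 1 / 2) :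
    ContinuousOn (p5c ε δ) (Icc 0 1) := by
  unfold p5c
  refine continuousOn_of_dominated (bound := fun Z => 4 * Real.exp Real.pi *
    (Z ^ (δ - 1) * p5m Z)) (fun τ hτ => ?_) (fun τ hτ => ?_) ?_ ?_
  · exact (p5_int_h h0 h1 (p5_h hε hτ.1 hτ.2)).aestronglyMeasurable
  · refine (ae_restrict_iff' measurableSet_Ioi).2 (Eventually.of_forall fun Z hZ => ?_)
    have hZ0 : (0 : ℝ) < Z := hZ
    rw [norm_mul, Complex.norm_real, Real.norm_of_nonneg (Real.rpow_nonneg hZ0.le _)]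
    have e1 := (p5_h hε hτ.1 hτ.2).bd Z hZ0
    have e2 := Real.rpow_nonneg hZ0.le (δ - 1)
    calc Z ^ (δ - 1) * ‖p5h ε τ Z‖ ≤ Z ^ (δ - 1) * (4 * Real.exp Real.pi * p5m Z) := by gcongr
      _ = _ := by ring
  · exact (p5_int_m h0 h1).const_mul _
  · refine Eventually.of_forall fun Z => ?_
    have hh : Continuous ha := by
      unfold ha
      fun_prop
    have e1 := slitPlane_ne_zero (p5_z (Or.inr rfl : -I = I ∨ -I = -I) Z).2.2.2
    rw [← sub_eq_add_neg] at e1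
    have e2 := slitPlane_ne_zero (p5_z (Or.inl rfl : I = I ∨ I = -I) Z).2.2.2
    have e3 : Continuous fun τ => p5h ε τ Z := by
      unfold p5h
      exact (hh.neg.const_cpow (Or.inl e1)).add
        (continuous_const.mul (hh.neg.const_cpow (Or.inl e2)))
    exact (continuous_const.mul e3).continuousOn

/-- comparison of the two squares -/
theorem p5_sq {X Y w : ℂ} {R p q : ℝ} (hR : ‖X - w * Y‖ ≤ R) (hX : ‖X‖ ≤ p)
    (hY : ‖w‖ * ‖Y‖ ≤ q) : |‖X‖ ^ 2 - ‖w‖ ^ 2 * ‖Y‖ ^ 2| ≤ R * (p + q) := by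
  have e1 : ‖X‖ ^ 2 - ‖w‖ ^ 2 * ‖Y‖ ^ 2 = (‖X‖ - ‖w * Y‖) * (‖X‖ + ‖w‖ * ‖Y‖) := by
    rw [norm_mul]
    ring
  rw [e1, abs_mul]
  have e2 : |‖X‖ - ‖w * Y‖| ≤ R := (abs_norm_sub_norm_le _ _).trans hR
  have e3 : |‖X‖ + ‖w‖ * ‖Y‖| ≤ p + q := by
    rw [abs_of_nonneg (by positivity)]
    linarith
  exact mul_le_mul e2 e3 (abs_nonneg _) ((abs_nonneg _).trans e2)

theorem p5_pw {v v₀ c : ℝ} (hv : 0 < v) (hv0 : v ≤ v₀) (hv1 : 1 ≤ v₀) (h1 : 3 / 4 ≤ c)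
    (h2 : c ≤ 7 / 4) : v ^ c ≤ v₀ * v ^ (3 / 4 : ℝ) := by
  have e1 : v ^ c = v ^ (c - 3 / 4) * v ^ (3 / 4 : ℝ) := by
    rw [← Real.rpow_add hv]
    congr 1
    ring
  have e2 : v ^ (c - 3 / 4) ≤ v₀ := by
    calc v ^ (c - 3 / 4) ≤ v₀ ^ (c - 3 / 4) := Real.rpow_le_rpow hv.le hv0 (by linarith)
      _ ≤ v₀ ^ (1 : ℝ) := Real.rpow_le_rpow_of_exponent_le hv1 (by linarith)
      _ = v₀ := Real.rpow_one _
  rw [e1]
  gcongr

theorem p5_cosh_bd (τ : ℝ) : 0 ≤ Real.pi / Real.cosh (Real.pi * τ) ∧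
    Real.pi / Real.cosh (Real.pi * τ) ≤ Real.pi := by
  have h1 := Real.one_le_cosh (Real.pi * τ)
  have h2 := Real.pi_pos
  exact ⟨by positivity, div_le_self h2.le h1⟩

theorem p5_WW (ν : ℂ) {v : ℝ} (hv : 0 < v) : ‖WW ν v‖ ^ 2 = v * ‖KK ν v‖ ^ 2 := by
  unfold WW
  rw [norm_mul, Complex.norm_real, Real.norm_of_nonneg (Real.sqrt_nonneg v), mul_pow,
    Real.sq_sqrt hv.le]

variable {ν : ℂ} {ε : ℝ}

theorem p5_Gs (hν : GoodNu ν) (hε : ε = 1 ∨ ε = -1) {τ θ : ℝ} (hθ : θ ∈ Ioo 0 (Real.pi / 2)) :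
    ‖Gs ν ε (ha τ) θ‖ ^ 2 = Real.pi / Real.cosh (Real.pi * τ) * Real.tan θ *
      (‖∫ u : ℝ, cexp (ν * u) * p5h ε τ (Real.tan θ * Real.cosh u)‖ ^ 2 / 4) := by
  rw [Gs_tan hν hε hθ, norm_mul]
  have : ‖(1 / 2 : ℂ)‖ = 1 / 2 := by norm_num
  rw [this]
  unfold p5h
  ring

/-- the case `Re ν < 1/8` -/
theorem p5_small (hν : GoodNu ν) (hν8 : ν.re < 1 / 8) (hε : ε = 1 ∨ ε = -1) {θ₀ : ℝ}
    (h1 : θ₀ < Real.pi / 2) : ∃ C : ℝ, ∀ τ θ : ℝ, 0 ≤ τ → τ ≤ 1 → 0 < θ → θ ≤ θ₀ →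
      |‖Gs ν ε (ha τ) θ‖ ^ 2| ≤ C * Real.tan θ ^ (3 / 4 : ℝ) := by
  set J : ℝ := ∫ u : ℝ, Real.exp (-((1 / 8 - ν.re) * |u|)) with hJ
  set M : ℝ := 4 * Real.exp Real.pi with hM
  have hM0 : 0 < M := by positivity
  refine ⟨Real.pi * ((M * J) ^ 2 / 4) * (1 / 2 : ℝ) ^ (-(1 / 4) : ℝ),
    fun τ θ hτ0 hτ1 hθ0 hθ1 => ?_⟩
  have hθ : θ ∈ Ioo 0 (Real.pi / 2) := ⟨hθ0, lt_of_le_of_lt hθ1 h1⟩
  set v : ℝ := Real.tan θ with hv
  have hv0 : 0 < v := Real.tan_pos_of_pos_of_lt_pi_div_two hθ.1 hθ.2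
  have H := p5_h hε hτ0 hτ1
  have hb := (p5_exp (k := 1 / 8 - ν.re) (by linarith)).const_mul (M * (v / 2) ^ (-(1 / 8) : ℝ))
  have hI : ‖∫ u : ℝ, cexp (ν * u) * p5h ε τ (v * Real.cosh u)‖ ≤
      M * (v / 2) ^ (-(1 / 8) : ℝ) * J := by
    refine (norm_integral_le_of_norm_le hb (Eventually.of_forall fun u => ?_)).trans (le_of_eq ?_)
    · have hc := Real.cosh_pos u
      have e1 := H.bd (v * Real.cosh u) (by positivity)
      have e2 : p5m (v * Real.cosh u) ≤ (v / 2) ^ (-(1 / 8) : ℝ) * Real.exp (-(|u| / 8)) := by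
        refine (p5m_le (b := 1 / 8) (by positivity) (by norm_num) (by norm_num)).trans ?_
        have e3 : v / 2 * Real.exp |u| ≤ v * Real.cosh u := by
          have := p5_cosh u
          nlinarith
        calc (v * Real.cosh u) ^ (-(1 / 8) : ℝ) ≤ (v / 2 * Real.exp |u|) ^ (-(1 / 8) : ℝ) :=
              Real.rpow_le_rpow_of_nonpos (by positivity) e3 (by norm_num)
          _ = _ := by
              rw [Real.mul_rpow (by positivity) (Real.exp_pos _).le, ← Real.exp_mul]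
              congr 2
              ring
      have e4 : ‖cexp (ν * u)‖ ≤ Real.exp (ν.re * |u|) := by
        rw [Complex.norm_exp]
        apply Real.exp_le_exp.2
        have : (ν * (u : ℂ)).re = ν.re * u := by simp
        rw [this]
        exact mul_le_mul_of_nonneg_left (le_abs_self u) hν.nonneg
      have e5 : Real.exp (-((1 / 8 - ν.re) * |u|)) =
          Real.exp (ν.re * |u|) * Real.exp (-(|u| / 8)) := by
        rw [← Real.exp_add]
        congr 1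
        ring
      rw [norm_mul]
      calc ‖cexp (ν * u)‖ * ‖p5h ε τ (v * Real.cosh u)‖
          ≤ Real.exp (ν.re * |u|) * (M * ((v / 2) ^ (-(1 / 8) : ℝ) * Real.exp (-(|u| / 8)))) := by
            refine mul_le_mul e4 (e1.trans (mul_le_mul_of_nonneg_left e2 hM0.le)) (norm_nonneg _)
              (Real.exp_pos _).le
        _ = _ := by rw [e5]; ring
    · rw [integral_const_mul]
  rw [abs_of_nonneg (by positivity), p5_Gs hν hε hθ]
  obtain ⟨c0, c1⟩ := p5_cosh_bd τ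
  have e1 : ‖∫ u : ℝ, cexp (ν * u) * p5h ε τ (v * Real.cosh u)‖ ^ 2 ≤
      (M * (v / 2) ^ (-(1 / 8) : ℝ) * J) ^ 2 := pow_le_pow_left₀ (norm_nonneg _) hI 2
  have e2 : ((v / 2) ^ (-(1 / 8) : ℝ)) ^ 2 = (1 / 2 : ℝ) ^ (-(1 / 4) : ℝ) * v ^ (-(1 / 4) : ℝ) := by
    rw [← Real.rpow_natCast, ← Real.rpow_mul (by positivity), div_eq_mul_one_div, mul_comm v,
      Real.mul_rpow (by norm_num) hv0.le]
    norm_num
  have e3 : v * v ^ (-(1 / 4) : ℝ) = v ^ (3 / 4 : ℝ) := by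
    nth_rewrite 1 [← Real.rpow_one v]
    rw [← Real.rpow_add hv0]
    norm_num
  calc Real.pi / Real.cosh (Real.pi * τ) * v *
        (‖∫ u : ℝ, cexp (ν * u) * p5h ε τ (v * Real.cosh u)‖ ^ 2 / 4)
      ≤ Real.pi * v * ((M * (v / 2) ^ (-(1 / 8) : ℝ) * J) ^ 2 / 4) := by gcongr
    _ = Real.pi * ((M * J) ^ 2 / 4) * (v * ((v / 2) ^ (-(1 / 8) : ℝ)) ^ 2) := by ring
    _ = Real.pi * ((M * J) ^ 2 / 4) * (1 / 2 : ℝ) ^ (-(1 / 4) : ℝ) *
        (v * v ^ (-(1 / 4) : ℝ)) := by rw [e2]; ring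
    _ = _ := by rw [e3]

/-- the case of real `ν = δ > 0` -/
theorem p5_real {δ : ℝ} (h0 : 0 < δ) (h1 : δ < 1 / 2) (hν : GoodNu (δ : ℂ))
    (hε : ε = 1 ∨ ε = -1) {θ₀ : ℝ} (hθ1 : θ₀ < Real.pi / 2) (hθp : 0 < θ₀) :
    ∃ (e : ℝ → ℝ) (C : ℝ), ContinuousOn e (Icc 0 1) ∧
      ∀ τ θ : ℝ, 0 ≤ τ → τ ≤ 1 → 0 < θ → θ ≤ θ₀ →
      |‖Gs (δ : ℂ) ε (ha τ) θ‖ ^ 2 - e τ * ‖WW (δ : ℂ) (Real.tan θ)‖ ^ 2| ≤
        C * Real.tan θ ^ (3 / 4 : ℝ) := by
  have hG : 0 < Real.Gamma δ := Real.Gamma_pos_of_pos h0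
  have hcc := p5c_cont hε h0 h1
  obtain ⟨Cc, hCc⟩ := isCompact_Icc.exists_bound_of_continuousOn hcc
  have hCc0 : 0 ≤ Cc := (norm_nonneg _).trans (hCc 0 ⟨le_rfl, zero_le_one⟩)
  set v₀ : ℝ := max 1 (Real.tan θ₀) with hv₀
  have hv₀1 : 1 ≤ v₀ := le_max_left _ _
  set J : ℝ := ∫ u : ℝ, Real.exp (-(δ / 2 * |u|)) with hJ
  have hJ0 : 0 ≤ J := integral_nonneg fun u => (Real.exp_pos _).le
  set D1 : ℝ := 2 * (4 * Real.exp Real.pi) * v₀ * J with hD1
  set D2 : ℝ := 2 * 1 * v₀ * J with hD2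
  set Wm : ℝ := Cc / Real.Gamma δ with hWm
  have hWm0 : 0 ≤ Wm := by positivity
  set D3 : ℝ := D1 + Wm * D2 with hD3
  have hD10 : 0 ≤ D1 := by positivity
  have hD20 : 0 ≤ D2 := by positivity
  have hD30 : 0 ≤ D3 := by positivity
  refine ⟨fun τ => Real.pi / Real.cosh (Real.pi * τ) * ‖p5c ε δ τ / (Real.Gamma δ : ℂ)‖ ^ 2,
    Real.pi / 4 * (D3 * (4 * Cc + D3) * v₀), ?_, fun τ θ hτ0 hτ1 hθ0 hθ2 => ?_⟩
  · refine ContinuousOn.mul ?_ ((hcc.div_const _).norm.pow 2)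
    refine Continuous.continuousOn ?_
    refine continuous_const.div (Real.continuous_cosh.comp (continuous_const.mul continuous_id))
      fun τ => (Real.cosh_pos _).ne'
  have hθ : θ ∈ Ioo 0 (Real.pi / 2) := ⟨hθ0, lt_of_le_of_lt hθ2 hθ1⟩
  set v : ℝ := Real.tan θ with hv
  have hvp : 0 < v := Real.tan_pos_of_pos_of_lt_pi_div_two hθ.1 hθ.2
  have hvv : v ≤ v₀ := by
    refine le_trans ?_ (le_max_right _ _)
    rcases hθ2.eq_or_lt with h | h
    · rw [hv, h]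
    · exact (Real.tan_lt_tan_of_nonneg_of_lt_pi_div_two hθ0.le hθ1 h).le
  have H := p5_h hε hτ0 hτ1
  have hA := p5_main h0 h1 (by positivity) H hvp hvv hv₀1
  have hB := p5_main h0 h1 zero_le_one p5_k hvp hvv hv₀1
  rw [p5_gamma h0] at hB
  rw [← hJ, ← hD1] at hA
  rw [← hJ, ← hD2] at hB
  have hA' : (∫ Z in Ioi (0 : ℝ), ((Z ^ (δ - 1) : ℝ) : ℂ) * p5h ε τ Z) = p5c ε δ τ := rfl
  rw [hA'] at hA
  set A : ℂ := ∫ u : ℝ, ((Real.exp (δ * u) : ℝ) : ℂ) * p5h ε τ (v * Real.cosh u) with hAd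
  set B : ℂ := ∫ u : ℝ, ((Real.exp (δ * u) : ℝ) : ℂ) *
    ((Real.exp (-(v * Real.cosh u)) : ℝ) : ℂ) with hBd
  set c : ℂ := p5c ε δ τ with hc
  have hcC : ‖c‖ ≤ Cc := hCc τ ⟨hτ0, hτ1⟩
  set w : ℂ := c / (Real.Gamma δ : ℂ) with hw
  have hwn : ‖w‖ ≤ Wm := by
    rw [hw, norm_div, Complex.norm_real, Real.norm_of_nonneg hG.le]
    exact div_le_div_of_nonneg_right hcC hG.le
  have hGc : (Real.Gamma δ : ℂ) ≠ 0 := by exact_mod_cast hG.ne'
  have hwG : w * (Real.Gamma δ : ℂ) = c := div_mul_cancel₀ c hGc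
  set x : ℝ := v ^ (δ / 2) with hx
  set y : ℝ := v ^ (-δ) with hy
  have hx0 : 0 < x := by positivity
  have hy0 : 0 < y := by positivity
  have hv2 : (v / 2) ^ (-δ) ≤ 2 * y := by
    have e1 : (v / 2) ^ (-δ) = y * 2 ^ δ := by
      rw [Real.div_rpow hvp.le (by norm_num), Real.rpow_neg (by norm_num : (0 : ℝ) ≤ 2),
        div_inv_eq_mul]
    have : (2 : ℝ) ^ δ ≤ 2 ^ (1 : ℝ) := Real.rpow_le_rpow_of_exponent_le (by norm_num) (by linarith)
    rw [Real.rpow_one] at this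
    rw [e1]
    nlinarith
  have hv20 : 0 ≤ (v / 2) ^ (-δ) := by positivity
  have hR : ‖A - w * B‖ ≤ D3 * x := by
    have e1 : A - w * B = (A - (((v / 2) ^ (-δ) : ℝ) : ℂ) * c) -
        w * (B - (((v / 2) ^ (-δ) : ℝ) : ℂ) * (Real.Gamma δ : ℂ)) := by
      rw [← hwG]
      ring
    rw [e1]
    refine (norm_sub_le _ _).trans ?_
    rw [norm_mul]
    have e2 := mul_le_mul hwn hB (norm_nonneg _) hWm0
    calc _ ≤ D1 * x + Wm * (D2 * x) := add_le_add hA e2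
      _ = D3 * x := by rw [hD3]; ring
  have hAn : ‖A‖ ≤ 2 * Cc * y + D1 * x := by
    have e1 : A = (A - (((v / 2) ^ (-δ) : ℝ) : ℂ) * c) + (((v / 2) ^ (-δ) : ℝ) : ℂ) * c := by ring
    rw [e1]
    refine (norm_add_le _ _).trans ?_
    rw [norm_mul (((v / 2) ^ (-δ) : ℝ) : ℂ), Complex.norm_real, Real.norm_of_nonneg hv20]
    have e2 := mul_le_mul hv2 hcC (norm_nonneg _) (by positivity)
    linarith
  have hBn : ‖w‖ * ‖B‖ ≤ 2 * Cc * y + Wm * D2 * x := by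
    have e1 : w * B = w * (B - (((v / 2) ^ (-δ) : ℝ) : ℂ) * (Real.Gamma δ : ℂ)) +
        (((v / 2) ^ (-δ) : ℝ) : ℂ) * c := by
      rw [← hwG]
      ring
    rw [← norm_mul, e1]
    refine (norm_add_le _ _).trans ?_
    rw [norm_mul, norm_mul (((v / 2) ^ (-δ) : ℝ) : ℂ), Complex.norm_real,
      Real.norm_of_nonneg hv20]
    have e2 := mul_le_mul hv2 hcC (norm_nonneg _) (by positivity)
    have e3 := mul_le_mul hwn hB (norm_nonneg _) hWm0
    linarith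
  have hsq := p5_sq hR hAn hBn
  have e1 : ‖Gs (δ : ℂ) ε (ha τ) θ‖ ^ 2 = Real.pi / Real.cosh (Real.pi * τ) * v * (‖A‖ ^ 2 / 4) := by
    rw [p5_Gs hν hε hθ, hAd]
    congr 5
    funext u
    rw [← hv]
    congr 1
    rw [← Complex.ofReal_mul, Complex.ofReal_exp]
  have e2 : ‖WW (δ : ℂ) v‖ ^ 2 = v * (‖B‖ ^ 2 / 4) := by
    rw [p5_WW _ hvp, p5_KK, norm_mul, ← hBd]
    have : ‖(1 / 2 : ℂ)‖ = 1 / 2 := by norm_num
    rw [this]
    ring
  rw [e1, e2]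
  obtain ⟨c0, c1⟩ := p5_cosh_bd τ
  have e3 : Real.pi / Real.cosh (Real.pi * τ) * v * (‖A‖ ^ 2 / 4) -
      Real.pi / Real.cosh (Real.pi * τ) * ‖w‖ ^ 2 * (v * (‖B‖ ^ 2 / 4)) =
      Real.pi / Real.cosh (Real.pi * τ) * (v / 4) * (‖A‖ ^ 2 - ‖w‖ ^ 2 * ‖B‖ ^ 2) := by ring
  rw [e3, abs_mul, abs_of_nonneg (by positivity :
    0 ≤ Real.pi / Real.cosh (Real.pi * τ) * (v / 4))]
  have e4 : v * x * y ≤ v₀ * v ^ (3 / 4 : ℝ) := by
    have : v * x * y = v ^ (1 - δ / 2) := by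
      rw [hx, hy, show (1 : ℝ) - δ / 2 = 1 + δ / 2 + -δ by ring, Real.rpow_add hvp,
        Real.rpow_add hvp, Real.rpow_one]
    rw [this]
    exact p5_pw hvp hvv hv₀1 (by linarith) (by linarith)
  have e5 : v * x * x ≤ v₀ * v ^ (3 / 4 : ℝ) := by
    have : v * x * x = v ^ (1 + δ) := by
      rw [hx, show (1 : ℝ) + δ = 1 + δ / 2 + δ / 2 by ring, Real.rpow_add hvp,
        Real.rpow_add hvp, Real.rpow_one]
    rw [this]
    exact p5_pw hvp hvv hv₀1 (by linarith) (by linarith)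
  have e6 : D3 * x * (2 * Cc * y + D1 * x + (2 * Cc * y + Wm * D2 * x)) =
      D3 * (4 * Cc * (x * y) + D3 * (x * x)) := by
    rw [hD3]
    ring
  rw [e6] at hsq
  calc Real.pi / Real.cosh (Real.pi * τ) * (v / 4) * |‖A‖ ^ 2 - ‖w‖ ^ 2 * ‖B‖ ^ 2|
      ≤ Real.pi * (v / 4) * (D3 * (4 * Cc * (x * y) + D3 * (x * x))) := by gcongr
    _ = Real.pi / 4 * (D3 * (4 * Cc * (v * x * y) + D3 * (v * x * x))) := by ring
    _ ≤ Real.pi / 4 * (D3 * (4 * Cc * (v₀ * v ^ (3 / 4 : ℝ)) + D3 * (v₀ * v ^ (3 / 4 : ℝ)))) := by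
        gcongr
    _ = _ := by ring

theorem Ph_small_pr (hν : GoodNu ν) (hε : ε = 1 ∨ ε = -1) {θ₀ : ℝ} (h0 : 0 < θ₀)
    (h1 : θ₀ < Real.pi / 2) : ∃ (e : ℝ → ℝ) (C : ℝ), ContinuousOn e (Icc 0 1) ∧
      ∀ τ θ : ℝ, 0 ≤ τ → τ ≤ 1 → 0 < θ → θ ≤ θ₀ →
      |‖Gs ν ε (ha τ) θ‖ ^ 2 - e τ * ‖WW ν (Real.tan θ)‖ ^ 2| ≤
        C * Real.tan θ ^ (3 / 4 : ℝ) := by
  by_cases h : ν.re < 1 / 8
  · obtain ⟨C, hC⟩ := p5_small hν h hε h1
    refine ⟨fun _ => 0, C, continuousOn_const, fun τ θ h1 h2 h3 h4 => ?_⟩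
    rw [zero_mul, sub_zero]
    exact hC τ θ h1 h2 h3 h4
  · have hre : 0 < ν.re := by linarith
    have him : ν.im = 0 := by
      rcases hν.real_or with h' | h'
      · exact h'
      · exact absurd h' hre.ne'
    have hν' : ν = (ν.re : ℂ) := Complex.ext (by simp) (by simp [him])
    have hlt := hν.lt_half
    rw [hν'] at hν ⊢
    exact p5_real hre hlt hν hε h1 h0

end Pool.Agent.JO.FM

namespace Pool.Agent.JO.FM

theorem Ph_small : type_of% @Ph_small_pr := @Ph_small_pr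

end Pool.Agent.JO.FM
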