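import Pool.Agent.Lib_helper45.JO.Defs2
import Pool.Agent.Lib_helper45.JOM.K2
import Pool.Agent.Lib_helper45.JOM.K4
import Pool.Agent.Lib_helper45.JOM.KKA
import Pool.Agent.Lib_helper45.JOM.M3
import Pool.Agent.Lib_helper45.JOM.M7
import Pool.Agent.Lib_helper45.JOM.P5
import Pool.Agent.Lib_helper45.JOM.P6
import Pool.Agent.Lib_helper45.JOM.PHA

/-!
# Project JO, part FM, weight 0: block C6 (helper6)
-/

set_option autoImplicit false

namespace Pool.Agent.JO.FM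

open Complex Filter Topology MeasureTheory Set
open UpperHalfPlane hiding I
open scoped MatrixGroups ComplexConjugate

variable {ν : ℂ} {ε : ℝ} {a : ℕ → ℂ} {f : ℍ → ℂ} {L : ℂ → ℂ}

/-! ## elementary bounds -/

theorem c6_pow {κ x : ℝ} (h0 : 0 ≤ κ) (h1 : κ ≤ 1) (hx : 0 ≤ x) : x ^ κ ≤ 1 + x := by
  rcases le_or_gt x 1 with h | h
  · have := Real.rpow_le_one hx h h0
    linarith
  · have := Real.rpow_le_rpow_of_exponent_le h.le h1
    rw [Real.rpow_one] at this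
    linarith

theorem c6_exp {c x : ℝ} (hc : 0 < c) (hx : 0 ≤ x) : (1 + x) * Real.exp (-(c * x)) ≤ 1 + 1 / c := by
  have h1 : Real.exp (-(c * x)) ≤ 1 := Real.exp_le_one_iff.2 (by nlinarith)
  have h2 : x * Real.exp (-(c * x)) ≤ 1 / c := by
    rw [Real.exp_neg, le_div_iff₀ hc, mul_assoc, inv_mul_eq_div, mul_div_assoc', div_le_one
      (Real.exp_pos _)]
    have := Real.add_one_le_exp (c * x)
    nlinarith
  nlinarith

theorem c6_WW (hν : GoodNu ν) : ∃ C : ℝ, 0 ≤ C ∧ ∀ x : ℝ, 0 < x → ‖WW ν x‖ ≤ C := by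
  have h1 := hν.lt_half
  have h2 := hν.nonneg
  obtain ⟨C, hC⟩ := WW_bound hν (b := (ν.re + 1 / 2) / 2) (by linarith)
  refine ⟨|C| * (1 + 1 / (1 / 2)), by positivity, fun x hx => ?_⟩
  refine (hC x hx).1.trans ?_
  have h3 : x ^ (1 / 2 - (ν.re + 1 / 2) / 2) ≤ 1 + x :=
    c6_pow (by linarith) (by linarith) hx.le
  have h4 : 0 ≤ x ^ (1 / 2 - (ν.re + 1 / 2) / 2) := by positivity
  have h5 := c6_exp (c := 1 / 2) (by norm_num) hx.le
  have h6 : Real.exp (-(x / 2)) = Real.exp (-(1 / 2 * x)) := by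
    congr 1
    ring
  rw [h6, mul_assoc]
  calc C * (x ^ (1 / 2 - (ν.re + 1 / 2) / 2) * Real.exp (-(1 / 2 * x)))
      ≤ |C| * (x ^ (1 / 2 - (ν.re + 1 / 2) / 2) * Real.exp (-(1 / 2 * x))) :=
        mul_le_mul_of_nonneg_right (le_abs_self C) (by positivity)
    _ ≤ |C| * ((1 + x) * Real.exp (-(1 / 2 * x))) := by gcongr
    _ ≤ |C| * (1 + 1 / (1 / 2)) := mul_le_mul_of_nonneg_left h5 (abs_nonneg _)

/-! ## the even part of the second moment -/

/-- `|L(1/2+it)|² + |L(1/2-it)|²` -/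
noncomputable def c6_le (L : ℂ → ℂ) (t : ℝ) : ℝ := ‖L (ha t)‖ ^ 2 + ‖L (ha (-t))‖ ^ 2

theorem c6_le_nonneg (L : ℂ → ℂ) (t : ℝ) : 0 ≤ c6_le L t := by
  unfold c6_le
  positivity

theorem c6_ha : Continuous ha := by
  unfold ha
  fun_prop

theorem c6_le_cont (hL : Differentiable ℂ L) : Continuous (c6_le L) := by
  unfold c6_le
  have h1 : Continuous (fun t => L (ha t)) := hL.continuous.comp c6_ha
  have h2 : Continuous (fun t => L (ha (-t))) := hL.continuous.comp (c6_ha.comp continuous_neg)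
  exact (h1.norm.pow 2).add (h2.norm.pow 2)

theorem c6_le_sq (F : Frame0 ν ε a f) (hL : LFun ν ε a f L) :
    IntegrableOn (fun t : ℝ => c6_le L t * t ^ (-2 : ℝ)) (Ioi 1) :=
  (growth_int F hL (α := 2) (by norm_num)).mono_set Ioi_subset_Ici_self

theorem c6_le_exp (F : Frame0 ν ε a f) (hL : LFun ν ε a f L) {v : ℝ} (hv : 0 < v) :
    IntegrableOn (fun t : ℝ => c6_le L t * Real.exp (-(v * t))) (Ioi 1) := by
  have h1 := (c6_le_sq F hL).const_mul (4 / v ^ 2)
  refine h1.mono' ?_ ?_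
  · exact (((c6_le_cont hL.diff).mul (by fun_prop)).continuousOn.aestronglyMeasurable
      measurableSet_Ioi)
  · rw [ae_restrict_iff' measurableSet_Ioi]
    refine Eventually.of_forall fun t ht => ?_
    have ht0 : (0 : ℝ) < t := lt_trans one_pos ht
    rw [Real.norm_eq_abs, abs_of_nonneg (mul_nonneg (c6_le_nonneg _ _) (Real.exp_pos _).le)]
    have h2 : Real.exp (-(v * t)) ≤ 4 / v ^ 2 * t ^ (-2 : ℝ) := by
      have h3 : v * t / 2 ≤ Real.exp (v * t / 2) := by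
        have := Real.add_one_le_exp (v * t / 2)
        linarith
      have h4 : (v * t / 2) ^ 2 ≤ Real.exp (v * t) := by
        have h5 : Real.exp (v * t) = Real.exp (v * t / 2) ^ 2 := by
          rw [← Real.exp_nat_mul]
          congr 1
          push_cast
          ring
        rw [h5]
        exact pow_le_pow_left₀ (by positivity) h3 2
      rw [Real.exp_neg, Real.rpow_neg ht0.le, Real.rpow_two]
      have h6 : 4 / v ^ 2 * (t ^ 2)⁻¹ = ((v * t / 2) ^ 2)⁻¹ := by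
        field_simp
        norm_num
      rw [h6]
      exact inv_anti₀ (by positivity) h4
    calc c6_le L t * Real.exp (-(v * t)) ≤ c6_le L t * (4 / v ^ 2 * t ^ (-2 : ℝ)) :=
          mul_le_mul_of_nonneg_left h2 (c6_le_nonneg _ _)
      _ = 4 / v ^ 2 * (c6_le L t * t ^ (-2 : ℝ)) := by ring

/-! ## the Laplace transform -/

theorem c6_N (F : Frame0 ν ε a f) (hL : LFun ν ε a f L) {l : ℝ}
    (hb : ∃ C ρ : ℝ, 0 < ρ ∧ ∀ w : ℂ, 0 < w.re → ‖w - l * I‖ < ρ →
      ‖∫ t in Ioi (1 : ℝ), ((‖L (ha t)‖ ^ 2 + ‖L (ha (-t))‖ ^ 2 : ℝ) : ℂ) * cexp (-(w * t))‖ ≤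
        C / w.re) :
    ∃ C : ℝ, 0 ≤ C ∧ ∀ x : ℝ, 0 < x →
      ‖∫ t in Ioi (1 : ℝ), ((c6_le L t : ℝ) : ℂ) * cexp (-((x + l * I) * t))‖ ≤ C / x := by
  obtain ⟨C, ρ, hρ, h⟩ := hb
  set B : ℝ := ∫ t in Ioi (1 : ℝ), c6_le L t * Real.exp (-(ρ * t)) with hB
  have hB0 : 0 ≤ B := by
    refine setIntegral_nonneg measurableSet_Ioi fun t _ => ?_
    exact mul_nonneg (c6_le_nonneg _ _) (Real.exp_pos _).le
  refine ⟨|C| + Real.exp ρ * B, by positivity, fun x hx => ?_⟩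
  rcases lt_or_ge x ρ with hxρ | hxρ
  · have h1 := h ((x : ℂ) + l * I) (by simpa using hx) (by
      rw [add_sub_cancel_right, Complex.norm_real, Real.norm_eq_abs, abs_of_pos hx]
      exact hxρ)
    have h2 : ((x : ℂ) + l * I).re = x := by simp
    rw [h2] at h1
    refine h1.trans ?_
    refine div_le_div_of_nonneg_right ?_ hx.le
    have : 0 ≤ Real.exp ρ * B := by positivity
    linarith [le_abs_self C]
  · have h1 : ‖∫ t in Ioi (1 : ℝ), ((c6_le L t : ℝ) : ℂ) * cexp (-((x + l * I) * t))‖ ≤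
        ∫ t in Ioi (1 : ℝ), Real.exp (-(x - ρ)) * (c6_le L t * Real.exp (-(ρ * t))) := by
      refine norm_integral_le_of_norm_le ((c6_le_exp F hL hρ).const_mul _) ?_
      rw [ae_restrict_iff' measurableSet_Ioi]
      refine Eventually.of_forall fun t ht => ?_
      have ht1 : (1 : ℝ) < t := ht
      rw [norm_mul, Complex.norm_real, Real.norm_eq_abs, abs_of_nonneg (c6_le_nonneg _ _),
        Complex.norm_exp]
      have h3 : (-(((x : ℂ) + l * I) * t)).re = -(x * t) := by simp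
      rw [h3]
      have h4 : Real.exp (-(x * t)) ≤ Real.exp (-(x - ρ)) * Real.exp (-(ρ * t)) := by
        rw [← Real.exp_add]
        apply Real.exp_le_exp.2
        nlinarith
      calc c6_le L t * Real.exp (-(x * t)) ≤
            c6_le L t * (Real.exp (-(x - ρ)) * Real.exp (-(ρ * t))) :=
            mul_le_mul_of_nonneg_left h4 (c6_le_nonneg _ _)
        _ = _ := by ring
    rw [integral_const_mul, ← hB] at h1
    refine h1.trans ?_
    rw [le_div_iff₀ hx]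
    have h5 : x * Real.exp (-x) ≤ 1 := by
      rw [Real.exp_neg, ← div_eq_mul_inv, div_le_one (Real.exp_pos _)]
      have := Real.add_one_le_exp x
      linarith
    have h6 : Real.exp (-(x - ρ)) = Real.exp ρ * Real.exp (-x) := by
      rw [← Real.exp_add]
      congr 1
      ring
    rw [h6]
    have h7 : Real.exp ρ * Real.exp (-x) * B * x = Real.exp ρ * B * (x * Real.exp (-x)) := by ring
    rw [h7]
    have h8 : 0 ≤ Real.exp ρ * B := by positivity
    nlinarith [abs_nonneg C]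

/-! ## Fubini -/

/-- the integrand in three variables -/
noncomputable def c6_K (ν : ℂ) (L : ℂ → ℂ) (l v : ℝ) (t : ℝ) (p : ℝ × ℝ) : ℂ :=
  ((c6_le L t : ℝ) : ℂ) * cexp (-(l * I * t)) *
    (cexp (-((t * v : ℝ) : ℂ) * (Real.cosh p.1 : ℝ) + ν * p.1) *
      cexp (-((t * v : ℝ) : ℂ) * (Real.cosh p.2 : ℝ) + ν * p.2))

theorem c6_K_cont (hL : Differentiable ℂ L) (l v : ℝ) :
    Continuous (fun q : ℝ × (ℝ × ℝ) => c6_K ν L l v q.1 q.2) := by
  unfold c6_K
  have h1 : Continuous (fun q : ℝ × (ℝ × ℝ) => ((c6_le L q.1 : ℝ) : ℂ)) :=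
    Complex.continuous_ofReal.comp ((c6_le_cont hL).comp continuous_fst)
  refine (h1.mul (by fun_prop)).mul (by fun_prop)

theorem c6_K_norm (l v t : ℝ) (p : ℝ × ℝ) : ‖c6_K ν L l v t p‖ =
    c6_le L t * (Real.exp (-(t * v * Real.cosh p.1) + ν.re * p.1) *
      Real.exp (-(t * v * Real.cosh p.2) + ν.re * p.2)) := by
  unfold c6_K
  rw [norm_mul, norm_mul, norm_mul, Complex.norm_real, Real.norm_eq_abs,
    abs_of_nonneg (c6_le_nonneg _ _), Complex.norm_exp, Complex.norm_exp, Complex.norm_exp]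
  have h1 : (-((l : ℂ) * I * t)).re = 0 := by simp
  have h2 : ∀ u : ℝ, (-((t * v : ℝ) : ℂ) * (Real.cosh u : ℝ) + ν * u).re =
      -(t * v * Real.cosh u) + ν.re * u := by
    intro u
    simp only [Complex.add_re, Complex.neg_re, Complex.re_mul_ofReal, Complex.ofReal_re]
    ring
  rw [h1, h2, h2, Real.exp_zero, mul_one]

theorem c6_half (_ : GoodNu ν) {v : ℝ} (hv : 0 < v) :
    Integrable (fun u : ℝ => Real.exp (-(v * Real.cosh u) + ν.re * u)) := by
  have h1 := (KK_int ν hv).norm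
  refine h1.congr (Eventually.of_forall fun u => ?_)
  simp only
  rw [Complex.norm_exp]
  congr 1
  simp only [Complex.add_re, Complex.neg_re, Complex.re_mul_ofReal, Complex.ofReal_re]
  ring

theorem c6_K_int (F : Frame0 ν ε a f) (hL : LFun ν ε a f L) (l : ℝ) {v : ℝ} (hv : 0 < v) :
    Integrable (Function.uncurry (c6_K ν L l v))
      ((volume.restrict (Ioi (1 : ℝ))).prod ((volume : Measure ℝ).prod (volume : Measure ℝ))) := by
  have hν := F.nu
  have h1 : Integrable (fun q : ℝ × (ℝ × ℝ) => (c6_le L q.1 * Real.exp (-(v * q.1))) *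
      (Real.exp (-(v / 2 * Real.cosh q.2.1) + ν.re * q.2.1) *
        Real.exp (-(v / 2 * Real.cosh q.2.2) + ν.re * q.2.2)))
      ((volume.restrict (Ioi (1 : ℝ))).prod ((volume : Measure ℝ).prod (volume : Measure ℝ))) := by
    have h2 := (c6_half hν (half_pos hv)).mul_prod (c6_half hν (half_pos hv))
    exact Integrable.mul_prod (c6_le_exp F hL hv) h2
  refine h1.mono' ?_ ?_
  · exact (c6_K_cont hL.diff l v).aestronglyMeasurable
  · have hae : ∀ᵐ q : ℝ × (ℝ × ℝ) ∂((volume.restrict (Ioi (1 : ℝ))).prod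
        ((volume : Measure ℝ).prod (volume : Measure ℝ))), 1 < q.1 := by
      have h3 : (volume.restrict (Ioi (1 : ℝ))).prod
          ((volume : Measure ℝ).prod (volume : Measure ℝ)) =
          ((volume : Measure ℝ).prod ((volume : Measure ℝ).prod (volume : Measure ℝ))).restrict
            (Ioi (1 : ℝ) ×ˢ (univ : Set (ℝ × ℝ))) := by
        rw [← Measure.prod_restrict, Measure.restrict_univ]
      rw [h3, ae_restrict_iff' (measurableSet_Ioi.prod MeasurableSet.univ)]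
      exact Eventually.of_forall fun q hq => hq.1
    filter_upwards [hae] with q hq
    show ‖c6_K ν L l v q.1 q.2‖ ≤ _
    rw [c6_K_norm, mul_assoc (c6_le L q.1)]
    refine mul_le_mul_of_nonneg_left ?_ (c6_le_nonneg _ _)
    rw [← Real.exp_add, ← Real.exp_add, ← Real.exp_add]
    apply Real.exp_le_exp.2
    have c1 := Real.one_le_cosh q.2.1
    have c2 := Real.one_le_cosh q.2.2
    have h4 : v ≤ q.1 * v := by nlinarith
    nlinarith [mul_nonneg (sub_nonneg.2 h4) (sub_nonneg.2 c1),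
      mul_nonneg (sub_nonneg.2 h4) (sub_nonneg.2 c2), mul_nonneg hv.le (sub_nonneg.2 c1),
      mul_nonneg hv.le (sub_nonneg.2 c2)]

theorem c6_inner_p (l v t : ℝ) : ∫ p : ℝ × ℝ, c6_K ν L l v t p =
    ((c6_le L t : ℝ) : ℂ) * cexp (-(l * I * t)) * (2 * KK ν (t * v)) ^ 2 := by
  unfold c6_K
  rw [integral_const_mul]
  congr 1
  have h1 := integral_prod_mul (μ := (volume : Measure ℝ)) (ν := (volume : Measure ℝ))
    (fun u : ℝ => cexp (-((t * v : ℝ) : ℂ) * (Real.cosh u : ℝ) + ν * u))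
    (fun u : ℝ => cexp (-((t * v : ℝ) : ℂ) * (Real.cosh u : ℝ) + ν * u))
  rw [Measure.volume_eq_prod, h1]
  unfold KK
  ring

theorem c6_inner_t (l v : ℝ) (p : ℝ × ℝ) : ∫ t in Ioi (1 : ℝ), c6_K ν L l v t p =
    cexp (ν * (p.1 + p.2)) * ∫ t in Ioi (1 : ℝ), ((c6_le L t : ℝ) : ℂ) *
      cexp (-((((v * (Real.cosh p.1 + Real.cosh p.2) : ℝ) : ℂ) + l * I) * t)) := by
  rw [← integral_const_mul]
  refine integral_congr_ae (Eventually.of_forall fun t => ?_)
  simp only [c6_K]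
  rw [mul_assoc, mul_left_comm (cexp (ν * _))]
  congr 1
  rw [← Complex.exp_add, ← Complex.exp_add, ← Complex.exp_add]
  congr 1
  push_cast
  ring

/-- `e^{Re ν u} (cosh u)^{-1/2}` -/
noncomputable def c6_j (ν : ℂ) (u : ℝ) : ℝ := Real.exp (ν.re * u) * Real.cosh u ^ (-(1 / 2) : ℝ)

theorem c6_j_nonneg (ν : ℂ) (u : ℝ) : 0 ≤ c6_j ν u := by
  unfold c6_j
  have := Real.cosh_pos u
  positivity

theorem c6_j_int (hν : GoodNu ν) : Integrable (c6_j ν) := by
  have h1 := hν.lt_half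
  have h2 := hν.nonneg
  have h3 := (cosh_int (μ := (ν.re : ℂ)) (s := 1 / 2) (by
    rw [Complex.ofReal_re, abs_of_nonneg h2]
    norm_num
    linarith)).1.norm
  refine h3.congr (Eventually.of_forall fun u => ?_)
  simp only [c6_j]
  rw [norm_mul, Complex.norm_exp, Complex.norm_cpow_eq_rpow_re_of_pos (Real.cosh_pos u)]
  congr 2
  · simp
  · simp

theorem c6_am {x y v : ℝ} (hx : 0 < x) (hy : 0 < y) (hv : 0 < v) :
    1 / (v * (x + y)) ≤ 1 / (2 * v) * (x ^ (-(1 / 2) : ℝ) * y ^ (-(1 / 2) : ℝ)) := by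
  rw [Real.rpow_neg hx.le, Real.rpow_neg hy.le, ← Real.sqrt_eq_rpow, ← Real.sqrt_eq_rpow]
  have hsx : 0 < √x := Real.sqrt_pos.2 hx
  have hsy : 0 < √y := Real.sqrt_pos.2 hy
  have h1 : 2 * (√x * √y) ≤ x + y := by
    have h2 := Real.sq_sqrt hx.le
    have h3 := Real.sq_sqrt hy.le
    nlinarith [sq_nonneg (√x - √y)]
  have h4 : 1 / (2 * v) * ((√x)⁻¹ * (√y)⁻¹) = 1 / (v * (2 * (√x * √y))) := by
    field_simp
  rw [h4]
  apply one_div_le_one_div_of_le (by positivity)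
  exact mul_le_mul_of_nonneg_left h1 hv.le

theorem c6_main (F : Frame0 ν ε a f) (hL : LFun ν ε a f L) {l : ℝ}
    (hb : ∃ C ρ : ℝ, 0 < ρ ∧ ∀ w : ℂ, 0 < w.re → ‖w - l * I‖ < ρ →
      ‖∫ t in Ioi (1 : ℝ), ((‖L (ha t)‖ ^ 2 + ‖L (ha (-t))‖ ^ 2 : ℝ) : ℂ) * cexp (-(w * t))‖ ≤
        C / w.re) :
    ∃ C : ℝ, ∀ v : ℝ, 0 < v →
      IntegrableOn (fun t : ℝ => c6_le L t * t⁻¹ * ‖WW ν (t * v)‖ ^ 2 * Real.cos (t * l))
        (Ioi 1) ∧
      |∫ t in Ioi (1 : ℝ), c6_le L t * t⁻¹ * ‖WW ν (t * v)‖ ^ 2 * Real.cos (t * l)| ≤ C := by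
  have hν := F.nu
  obtain ⟨C, hC0, hC⟩ := c6_N F hL hb
  set J : ℝ := ∫ u, c6_j ν u with hJ
  refine ⟨C * J ^ 2 / 8, fun v hv => ?_⟩
  have hK := c6_K_int F hL l hv
  -- the complex integrand
  have hpt : ∀ t : ℝ, t ∈ Ioi (1 : ℝ) → c6_le L t * t⁻¹ * ‖WW ν (t * v)‖ ^ 2 * Real.cos (t * l) =
      ((v / 4 : ℝ) * ∫ p : ℝ × ℝ, c6_K ν L l v t p).re := by
    intro t ht
    have ht0 : (0 : ℝ) < t := lt_trans one_pos ht
    have htv : 0 < t * v := mul_pos ht0 hv
    rw [c6_inner_p]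
    have hKr : KK ν (t * v) = ((KK ν (t * v)).re : ℂ) := by
      apply Complex.ext
      · rw [Complex.ofReal_re]
      · rw [Complex.ofReal_im]
        exact KK_real hν _
    have hW : ‖WW ν (t * v)‖ ^ 2 = t * v * (KK ν (t * v)).re ^ 2 := by
      rw [WW, norm_mul, Complex.norm_real, Real.norm_eq_abs, abs_of_nonneg (Real.sqrt_nonneg _),
        mul_pow, Real.sq_sqrt htv.le]
      congr 1
      rw [hKr, Complex.norm_real, Real.norm_eq_abs, sq_abs, Complex.ofReal_re]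
    rw [hW]
    have hcos : cexp (-(l * I * t)) = (Real.cos (t * l) : ℂ) - Real.sin (t * l) * I := by
      have h1 : (-((l : ℂ) * I * t)) = ((-(t * l) : ℝ) : ℂ) * I := by
        push_cast
        ring
      rw [h1, Complex.exp_mul_I, ← Complex.ofReal_cos, ← Complex.ofReal_sin, Real.cos_neg,
        Real.sin_neg]
      push_cast
      ring
    rw [hcos, hKr]
    set k := (KK ν (t * v)).re with hk
    have h2 : ((v / 4 : ℝ) : ℂ) * (((c6_le L t : ℝ) : ℂ) *
        ((Real.cos (t * l) : ℂ) - Real.sin (t * l) * I) * (2 * (k : ℂ)) ^ 2) =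
        ((v * c6_le L t * k ^ 2 * Real.cos (t * l) : ℝ) : ℂ) -
          ((v * c6_le L t * k ^ 2 * Real.sin (t * l) : ℝ) : ℂ) * I := by
      push_cast
      ring
    have h3 : (((v * c6_le L t * k ^ 2 * Real.cos (t * l) : ℝ) : ℂ)).re =
        v * c6_le L t * k ^ 2 * Real.cos (t * l) := Complex.ofReal_re _
    rw [h2, Complex.sub_re, Complex.re_ofReal_mul, Complex.I_re, mul_zero, sub_zero, h3]
    simp only [Complex.ofReal_re]
    field_simp
  have hI1 : Integrable (fun t => (v / 4 : ℝ) * ∫ p : ℝ × ℝ, c6_K ν L l v t p)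
      (volume.restrict (Ioi (1 : ℝ))) := by
    have := hK.integral_prod_left
    exact this.const_mul _
  have hI2 : IntegrableOn (fun t : ℝ => c6_le L t * t⁻¹ * ‖WW ν (t * v)‖ ^ 2 *
      Real.cos (t * l)) (Ioi 1) := by
    have h1 : IntegrableOn (fun t : ℝ => ((v / 4 : ℝ) * ∫ p : ℝ × ℝ, c6_K ν L l v t p).re)
      (Ioi 1) := hI1.re
    exact h1.congr_fun (fun t ht => (hpt t ht).symm) measurableSet_Ioi
  refine ⟨hI2, ?_⟩
  have e1 : ∫ t in Ioi (1 : ℝ), c6_le L t * t⁻¹ * ‖WW ν (t * v)‖ ^ 2 * Real.cos (t * l) =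
      (∫ t in Ioi (1 : ℝ), (v / 4 : ℝ) * ∫ p : ℝ × ℝ, c6_K ν L l v t p).re := by
    rw [setIntegral_congr_fun measurableSet_Ioi hpt]
    exact integral_re hI1
  rw [e1, integral_const_mul]
  have e2 : ∫ t in Ioi (1 : ℝ), ∫ p : ℝ × ℝ, c6_K ν L l v t p =
      ∫ p : ℝ × ℝ, ∫ t in Ioi (1 : ℝ), c6_K ν L l v t p := integral_integral_swap hK
  rw [e2]
  have e3 : ‖∫ p : ℝ × ℝ, ∫ t in Ioi (1 : ℝ), c6_K ν L l v t p‖ ≤
      ∫ p : ℝ × ℝ, C / (2 * v) * (c6_j ν p.1 * c6_j ν p.2) := by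
    refine norm_integral_le_of_norm_le (((c6_j_int hν).mul_prod (c6_j_int hν)).const_mul _)
      (Eventually.of_forall fun p => ?_)
    rw [c6_inner_t, norm_mul]
    have c1 := Real.cosh_pos p.1
    have c2 := Real.cosh_pos p.2
    have h1 := hC (v * (Real.cosh p.1 + Real.cosh p.2)) (by positivity)
    have h2 : ‖cexp (ν * (p.1 + p.2))‖ = Real.exp (ν.re * p.1) * Real.exp (ν.re * p.2) := by
      rw [Complex.norm_exp, ← Real.exp_add]
      congr 1
      have : ν * ((p.1 : ℂ) + p.2) = ν * ((p.1 + p.2 : ℝ) : ℂ) := by push_cast; rfl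
      rw [this, Complex.re_mul_ofReal]
      ring
    rw [h2]
    calc _ ≤ Real.exp (ν.re * p.1) * Real.exp (ν.re * p.2) *
          (C / (v * (Real.cosh p.1 + Real.cosh p.2))) :=
          mul_le_mul_of_nonneg_left h1 (by positivity)
      _ = Real.exp (ν.re * p.1) * Real.exp (ν.re * p.2) * C *
          (1 / (v * (Real.cosh p.1 + Real.cosh p.2))) := by ring
      _ ≤ Real.exp (ν.re * p.1) * Real.exp (ν.re * p.2) * C *
          (1 / (2 * v) * (Real.cosh p.1 ^ (-(1 / 2) : ℝ) * Real.cosh p.2 ^ (-(1 / 2) : ℝ))) :=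
          mul_le_mul_of_nonneg_left (c6_am c1 c2 hv) (by positivity)
      _ = _ := by
          unfold c6_j
          ring
  have e4 : ∫ p : ℝ × ℝ, C / (2 * v) * (c6_j ν p.1 * c6_j ν p.2) = C / (2 * v) * J ^ 2 := by
    rw [integral_const_mul]
    have h1 := integral_prod_mul (μ := (volume : Measure ℝ)) (ν := (volume : Measure ℝ))
      (c6_j ν) (c6_j ν)
    rw [Measure.volume_eq_prod, h1, ← hJ]
    ring
  refine (Complex.abs_re_le_norm _).trans ?_
  rw [norm_mul, Complex.norm_real, Real.norm_eq_abs, abs_of_pos (by positivity)]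
  calc v / 4 * ‖∫ p : ℝ × ℝ, ∫ t in Ioi (1 : ℝ), c6_K ν L l v t p‖
      ≤ v / 4 * (C / (2 * v) * J ^ 2) :=
        mul_le_mul_of_nonneg_left (e3.trans e4.le) (by positivity)
    _ = C * J ^ 2 / 8 := by
        field_simp
        ring

/-! ## assembling -/

theorem c6_even (hν : GoodNu ν) (hε : ε = 1 ∨ ε = -1) {θ : ℝ} (hθ : θ ∈ Ioo 0 Real.pi) (t : ℝ) :
    ‖Gs ν ε (ha (-t)) θ‖ ^ 2 = ‖Gs ν ε (ha t) θ‖ ^ 2 := by
  have hre : (ha t).re = 1 / 2 := by simp [ha]
  have h1 := (Gs_symm hν hε (s := ha t) (θ := (θ : ℂ)) (by rw [hre]; exact hν.lt_half)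
    (by simpa using hθ.1) (by simpa using hθ.2)).2
  have h2 : conj (ha t) = ha (-t) := by
    simp only [ha, map_add, map_mul, map_div₀, map_one, Complex.conj_ofReal, Complex.conj_I,
      map_ofNat]
    push_cast
    ring
  rw [h2, Complex.conj_ofReal] at h1
  have h3 : ‖(ε : ℂ)‖ = 1 := by
    rcases hε with h | h <;> simp [h]
  have h4 : ‖Gs ν ε (ha t) θ‖ = ‖Gs ν ε (ha (-t)) θ‖ := by
    rw [← RCLike.norm_conj (Gs ν ε (ha t) θ), h1, norm_mul, h3, one_mul]
  rw [h4]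

theorem c6_ray (F : Frame0 ν ε a f) (hL : LFun ν ε a f L) {θ : ℝ} (hθ : θ ∈ Ioo 0 Real.pi)
    {q : ℝ} (hq : 0 < q) :
    IntegrableOn (fun t : ℝ => c6_le L t * ‖Gs ν ε (ha t) θ‖ ^ 2 * Real.cos (t * Real.log q))
      (Ioi 0) ∧
    (∫ r in Ioi (0 : ℝ), f (pr r θ) * conj (f (pr (q * r) θ)) / r).re = (2 * Real.pi)⁻¹ *
      ∫ t in Ioi (0 : ℝ), c6_le L t * ‖Gs ν ε (ha t) θ‖ ^ 2 * Real.cos (t * Real.log q) := by
  set l := Real.log q with hl
  have hi := (ray_phi F hL hθ).1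
  have hic : Integrable (fun t : ℝ => ((‖L (ha t)‖ ^ 2 * ‖Gs ν ε (ha t) θ‖ ^ 2 : ℝ) : ℂ) *
      cexp (t * l * I)) := by
    have h1 : Integrable (fun t : ℝ => ((‖L (ha t)‖ ^ 2 * ‖Gs ν ε (ha t) θ‖ ^ 2 : ℝ) : ℂ)) :=
      hi.ofReal
    refine h1.mono (h1.aestronglyMeasurable.mul (by
      exact (Continuous.aestronglyMeasurable (by fun_prop)))) (Eventually.of_forall fun t => ?_)
    rw [norm_mul]
    have h2 : ‖cexp (t * l * I)‖ = 1 := by
      have : (t * l * I : ℂ) = ((t * l : ℝ) : ℂ) * I := by push_cast; rfl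
      rw [this, Complex.norm_exp_ofReal_mul_I]
    rw [h2, mul_one]
  set h : ℝ → ℝ := fun t => ‖L (ha t)‖ ^ 2 * ‖Gs ν ε (ha t) θ‖ ^ 2 * Real.cos (t * l) with hh
  have hre : ∀ t : ℝ, (((‖L (ha t)‖ ^ 2 * ‖Gs ν ε (ha t) θ‖ ^ 2 : ℝ) : ℂ) *
      cexp (t * l * I)).re = h t := by
    intro t
    have h1 : (t * l * I : ℂ) = ((t * l : ℝ) : ℂ) * I := by push_cast; rfl
    rw [Complex.re_ofReal_mul, h1, Complex.exp_ofReal_mul_I_re]
  have hhi : Integrable h := by
    have := hic.re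
    refine this.congr (Eventually.of_forall fun t => ?_)
    exact hre t
  have hneg : ∀ t : ℝ, h t + h (-t) =
      c6_le L t * ‖Gs ν ε (ha t) θ‖ ^ 2 * Real.cos (t * l) := by
    intro t
    simp only [hh]
    rw [c6_even F.nu F.eps hθ t, neg_mul, Real.cos_neg]
    unfold c6_le
    ring
  have hsum : ∫ t, h t = ∫ t in Ioi (0 : ℝ), (h t + h (-t)) := by
    rw [integral_add hhi.integrableOn hhi.comp_neg.integrableOn]
    have h1 := integral_comp_neg_Ioi 0 h
    rw [h1, neg_zero, add_comm]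
    exact (intervalIntegral.integral_Iic_add_Ioi hhi.integrableOn hhi.integrableOn).symm
  constructor
  · have h1 : IntegrableOn (fun t => h t + h (-t)) (Ioi 0) :=
      (hhi.add hhi.comp_neg).integrableOn
    exact h1.congr_fun (fun t _ => hneg t) measurableSet_Ioi
  · rw [ray_q F hL hθ hq]
    have h1 : (((2 * Real.pi : ℝ) : ℂ))⁻¹ = (((2 * Real.pi)⁻¹ : ℝ) : ℂ) := by push_cast; rfl
    rw [h1, Complex.re_ofReal_mul]
    congr 1
    have h2 : (∫ t : ℝ, ((‖L (ha t)‖ ^ 2 * ‖Gs ν ε (ha t) θ‖ ^ 2 : ℝ) : ℂ) *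
        cexp (t * l * I)).re = ∫ t : ℝ, (((‖L (ha t)‖ ^ 2 * ‖Gs ν ε (ha t) θ‖ ^ 2 : ℝ) : ℂ) *
        cexp (t * l * I)).re := (integral_re hic).symm
    rw [h2]
    simp only [hre]
    rw [hsum]
    exact integral_congr_ae (Eventually.of_forall fun t => hneg t)

theorem iq_bdd_pr (F : Frame0 ν ε a f) (hL : LFun ν ε a f L) {q : ℝ} (hq : 1 < q)
    (hb : ∃ C ρ : ℝ, 0 < ρ ∧ ∀ w : ℂ, 0 < w.re → ‖w - Real.log q * I‖ < ρ →
      ‖∫ t in Ioi (1 : ℝ), ((‖L (ha t)‖ ^ 2 + ‖L (ha (-t))‖ ^ 2 : ℝ) : ℂ) * cexp (-(w * t))‖ ≤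
        C / w.re) :
    ∃ C : ℝ, ∀ θ : ℝ, 0 < θ → θ ≤ 1 →
      |(∫ r in Ioi (0 : ℝ), f (pr r θ) * conj (f (pr (q * r) θ)) / r).re| ≤ C := by
  have hν := F.nu
  have hpi2 : (1 : ℝ) < Real.pi / 2 := by linarith [Real.pi_gt_three]
  set l := Real.log q with hl
  obtain ⟨Cm, hCm⟩ := c6_main F hL hb
  obtain ⟨e, C1, c, hc, -, he, hP⟩ := Ph_asymp hν F.eps one_pos hpi2
  obtain ⟨e0, C0, he0, hP0⟩ := Ph_small hν F.eps one_pos hpi2
  obtain ⟨CW, hCW0, hCW⟩ := c6_WW hν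
  obtain ⟨E0, hE0⟩ := isCompact_Icc.exists_bound_of_continuousOn he0
  obtain ⟨B0, hB0⟩ := (isCompact_Icc (a := (0 : ℝ)) (b := 1)).exists_bound_of_continuousOn
    (c6_le_cont hL.diff).continuousOn
  have hsq := c6_le_sq F hL
  set T1 : ℝ := Real.tan 1 with hT1
  set S0 : ℝ := B0 * (E0 * CW ^ 2 + |C0| * (1 + T1)) with hS0
  set CA : ℝ := |C1| * (1 + 1 / c) + 2 * Real.pi * |C1| * CW ^ 2 with hCA
  set I2 : ℝ := ∫ t in Ioi (1 : ℝ), c6_le L t * t ^ (-2 : ℝ) with hI2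
  refine ⟨(2 * Real.pi)⁻¹ * (S0 + (CA * I2 + 2 * Real.pi * Cm)), fun θ h0 h1 => ?_⟩
  have hθ : θ ∈ Ioo 0 Real.pi := ⟨h0, by linarith [Real.pi_gt_three]⟩
  have hv : 0 < Real.tan θ := Real.tan_pos_of_pos_of_lt_pi_div_two h0 (by linarith)
  have hvT : Real.tan θ ≤ T1 := by
    rcases h1.eq_or_lt with h | h
    · rw [h]
    · exact (Real.tan_lt_tan_of_nonneg_of_lt_pi_div_two h0.le hpi2 h).le
  obtain ⟨hint, hray⟩ := c6_ray F hL hθ (q := q) (by linarith)
  rw [hray, abs_mul, abs_of_pos (by positivity)]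
  refine mul_le_mul_of_nonneg_left ?_ (by positivity)
  rw [← hl] at hint ⊢
  set k : ℝ → ℝ := fun t => c6_le L t * ‖Gs ν ε (ha t) θ‖ ^ 2 * Real.cos (t * l) with hk
  have hsplit : ∫ t in Ioi (0 : ℝ), k t = (∫ t in Ioc (0 : ℝ) 1, k t) + ∫ t in Ioi (1 : ℝ), k t := by
    rw [← Ioc_union_Ioi_eq_Ioi (zero_le_one (α := ℝ))]
    exact setIntegral_union (Ioc_disjoint_Ioi le_rfl) measurableSet_Ioi
      (hint.mono_set Ioc_subset_Ioi_self) (hint.mono_set (Ioi_subset_Ioi zero_le_one))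
  rw [hsplit]
  refine (abs_add_le _ _).trans (add_le_add ?_ ?_)
  · -- small t
    have h2 : ‖∫ t in Ioc (0 : ℝ) 1, k t‖ ≤ S0 * volume.real (Ioc (0 : ℝ) 1) := by
      refine norm_setIntegral_le_of_norm_le_const measure_Ioc_lt_top fun t ht => ?_
      have ht0 : 0 ≤ t := ht.1.le
      have hle : ‖c6_le L t‖ ≤ B0 := hB0 t ⟨ht0, ht.2⟩
      have hB00 : 0 ≤ B0 := (norm_nonneg _).trans hle
      have hee : ‖e0 t‖ ≤ E0 := hE0 t ⟨ht0, ht.2⟩
      have hG := (abs_le.1 (hP0 t θ ht0 ht.2 h0 h1)).2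
      have hW2 : ‖WW ν (Real.tan θ)‖ ^ 2 ≤ CW ^ 2 := pow_le_pow_left₀ (norm_nonneg _) (hCW _ hv) 2
      have h3 : e0 t * ‖WW ν (Real.tan θ)‖ ^ 2 ≤ E0 * CW ^ 2 := by
        calc e0 t * ‖WW ν (Real.tan θ)‖ ^ 2 ≤ ‖e0 t‖ * ‖WW ν (Real.tan θ)‖ ^ 2 :=
              mul_le_mul_of_nonneg_right (Real.le_norm_self _) (by positivity)
          _ ≤ E0 * CW ^ 2 := mul_le_mul hee hW2 (by positivity) ((norm_nonneg _).trans hee)
      have h4 : C0 * Real.tan θ ^ (3 / 4 : ℝ) ≤ |C0| * (1 + T1) := by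
        have h5 : Real.tan θ ^ (3 / 4 : ℝ) ≤ 1 + T1 :=
          (c6_pow (by norm_num) (by norm_num) hv.le).trans (by linarith)
        calc C0 * Real.tan θ ^ (3 / 4 : ℝ) ≤ |C0| * Real.tan θ ^ (3 / 4 : ℝ) :=
              mul_le_mul_of_nonneg_right (le_abs_self _) (by positivity)
          _ ≤ _ := mul_le_mul_of_nonneg_left h5 (abs_nonneg _)
      have hGle : ‖Gs ν ε (ha t) θ‖ ^ 2 ≤ E0 * CW ^ 2 + |C0| * (1 + T1) := by linarith
      simp only [hk]
      rw [norm_mul, norm_mul]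
      have h6 : ‖Real.cos (t * l)‖ ≤ 1 := Real.abs_cos_le_one _
      have h7 : ‖‖Gs ν ε (ha t) θ‖ ^ 2‖ ≤ E0 * CW ^ 2 + |C0| * (1 + T1) := by
        rw [Real.norm_eq_abs, abs_of_nonneg (by positivity)]
        exact hGle
      calc ‖c6_le L t‖ * ‖‖Gs ν ε (ha t) θ‖ ^ 2‖ * ‖Real.cos (t * l)‖
          ≤ ‖c6_le L t‖ * ‖‖Gs ν ε (ha t) θ‖ ^ 2‖ * 1 :=
            mul_le_mul_of_nonneg_left h6 (by positivity)
        _ ≤ B0 * (E0 * CW ^ 2 + |C0| * (1 + T1)) * 1 := by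
            rw [mul_one, mul_one]
            exact mul_le_mul hle h7 (norm_nonneg _) hB00
        _ = S0 := by rw [hS0, mul_one]
    rw [Real.norm_eq_abs] at h2
    have h3 : volume.real (Ioc (0 : ℝ) 1) = 1 := by simp
    rwa [h3, mul_one] at h2
  · -- large t
    obtain ⟨hm, hmle⟩ := hCm (Real.tan θ) hv
    set m : ℝ → ℝ := fun t => c6_le L t * t⁻¹ * ‖WW ν (t * Real.tan θ)‖ ^ 2 * Real.cos (t * l)
      with hmdef
    have hk1 : IntegrableOn k (Ioi 1) := hint.mono_set (Ioi_subset_Ioi zero_le_one)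
    have hA : IntegrableOn (fun t => k t - 2 * Real.pi * m t) (Ioi 1) :=
      hk1.sub (hm.const_mul _)
    have e1 : ∫ t in Ioi (1 : ℝ), k t = (∫ t in Ioi (1 : ℝ), (k t - 2 * Real.pi * m t)) +
        2 * Real.pi * ∫ t in Ioi (1 : ℝ), m t := by
      rw [← integral_const_mul, ← integral_add hA (hm.const_mul _)]
      refine integral_congr_ae (Eventually.of_forall fun t => ?_)
      simp only
      ring
    rw [e1]
    refine (abs_add_le _ _).trans (add_le_add ?_ ?_)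
    · have h2 : ‖∫ t in Ioi (1 : ℝ), (k t - 2 * Real.pi * m t)‖ ≤
          ∫ t in Ioi (1 : ℝ), CA * (c6_le L t * t ^ (-2 : ℝ)) := by
        refine norm_integral_le_of_norm_le (hsq.const_mul _) ?_
        rw [ae_restrict_iff' measurableSet_Ioi]
        refine Eventually.of_forall fun t ht => ?_
        have ht1 : (1 : ℝ) ≤ t := le_of_lt ht
        have ht0 : 0 < t := by linarith
        have htv : 0 < t * Real.tan θ := mul_pos ht0 hv
        have hW2 : ‖WW ν (t * Real.tan θ)‖ ^ 2 ≤ CW ^ 2 :=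
          pow_le_pow_left₀ (norm_nonneg _) (hCW _ htv) 2
        have hG := hP t θ ht1 h0 h1
        have het := he t ht1
        have h3 : k t - 2 * Real.pi * m t = c6_le L t * Real.cos (t * l) *
            ((‖Gs ν ε (ha t) θ‖ ^ 2 - 2 * Real.pi / t * (1 + e t) *
              ‖WW ν (t * Real.tan θ)‖ ^ 2) +
              2 * Real.pi / t * e t * ‖WW ν (t * Real.tan θ)‖ ^ 2) := by
          simp only [hk, hmdef]
          field_simp
          ring
        have h4 : |2 * Real.pi / t * e t * ‖WW ν (t * Real.tan θ)‖ ^ 2| ≤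
            2 * Real.pi * |C1| * CW ^ 2 * t ^ (-2 : ℝ) := by
          rw [abs_mul, abs_mul, abs_of_pos (by positivity : 0 < 2 * Real.pi / t),
            abs_of_nonneg (by positivity : 0 ≤ ‖WW ν (t * Real.tan θ)‖ ^ 2)]
          have h5 : |e t| ≤ |C1| / t := het.trans
            (div_le_div_of_nonneg_right (le_abs_self _) ht0.le)
          calc 2 * Real.pi / t * |e t| * ‖WW ν (t * Real.tan θ)‖ ^ 2
              ≤ 2 * Real.pi / t * (|C1| / t) * CW ^ 2 := by gcongr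
            _ = 2 * Real.pi * |C1| * CW ^ 2 * t ^ (-2 : ℝ) := by
                rw [Real.rpow_neg ht0.le, Real.rpow_two]
                field_simp
        have h6 : |‖Gs ν ε (ha t) θ‖ ^ 2 - 2 * Real.pi / t * (1 + e t) *
              ‖WW ν (t * Real.tan θ)‖ ^ 2| ≤ |C1| * (1 + 1 / c) * t ^ (-2 : ℝ) := by
          refine hG.trans ?_
          have h7 : (t * Real.tan θ) ^ (3 / 4 : ℝ) * Real.exp (-(c * (t * Real.tan θ))) ≤
              1 + 1 / c :=
            (mul_le_mul_of_nonneg_right (c6_pow (by norm_num) (by norm_num) htv.le)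
              (Real.exp_pos _).le).trans (c6_exp hc htv.le)
          have h8 : 0 ≤ (t * Real.tan θ) ^ (3 / 4 : ℝ) *
              Real.exp (-(c * (t * Real.tan θ))) := by positivity
          calc C1 / t ^ 2 * (t * Real.tan θ) ^ (3 / 4 : ℝ) *
                Real.exp (-(c * (t * Real.tan θ)))
              = C1 / t ^ 2 * ((t * Real.tan θ) ^ (3 / 4 : ℝ) *
                Real.exp (-(c * (t * Real.tan θ)))) := by ring
            _ ≤ |C1| / t ^ 2 * ((t * Real.tan θ) ^ (3 / 4 : ℝ) *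
                Real.exp (-(c * (t * Real.tan θ)))) :=
                mul_le_mul_of_nonneg_right (div_le_div_of_nonneg_right (le_abs_self _)
                  (by positivity)) h8
            _ ≤ |C1| / t ^ 2 * (1 + 1 / c) := mul_le_mul_of_nonneg_left h7 (by positivity)
            _ = |C1| * (1 + 1 / c) * t ^ (-2 : ℝ) := by
                rw [Real.rpow_neg ht0.le, Real.rpow_two]
                field_simp
        rw [h3, norm_mul, norm_mul, Real.norm_eq_abs, Real.norm_eq_abs, Real.norm_eq_abs,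
          abs_of_nonneg (c6_le_nonneg _ _)]
        have h9 : |(‖Gs ν ε (ha t) θ‖ ^ 2 - 2 * Real.pi / t * (1 + e t) *
              ‖WW ν (t * Real.tan θ)‖ ^ 2) +
              2 * Real.pi / t * e t * ‖WW ν (t * Real.tan θ)‖ ^ 2| ≤ CA * t ^ (-2 : ℝ) := by
          refine (abs_add_le _ _).trans ((add_le_add h6 h4).trans (le_of_eq ?_))
          rw [hCA]
          ring
        calc c6_le L t * |Real.cos (t * l)| * _ ≤ c6_le L t * 1 * (CA * t ^ (-2 : ℝ)) := by
              refine mul_le_mul (mul_le_mul_of_nonneg_left (Real.abs_cos_le_one _)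
                (c6_le_nonneg _ _)) h9 (abs_nonneg _) (by
                rw [mul_one]
                exact c6_le_nonneg _ _)
          _ = CA * (c6_le L t * t ^ (-2 : ℝ)) := by ring
      rw [integral_const_mul, Real.norm_eq_abs] at h2
      exact h2
    · rw [abs_mul, abs_of_pos (by positivity : 0 < 2 * Real.pi)]
      exact mul_le_mul_of_nonneg_left hmle (by positivity)


end Pool.Agent.JO.FM

namespace Pool.Agent.JO.FM

theorem iq_bdd : type_of% @iq_bdd_pr := @iq_bdd_pr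

end Pool.Agent.JO.FM
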