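import Pool.Agent.Lib_helper45.JOM.C5
import Pool.Agent.Lib_helper45.JOM.C6
import Pool.Agent.Lib_helper45.JOM.C12

/-!
# Project JO, part FM, block C13: the lower bound near the imaginary axis
-/

set_option autoImplicit false

namespace Pool.Agent.JO.FM

open Complex Filter Topology MeasureTheory Set
open UpperHalfPlane hiding I
open scoped MatrixGroups ComplexConjugate

/-- C13: FM2b -/
theorem fm2b {N : ℕ} [NeZero N] {χ : DirichletCharacter ℂ N} {ev : ℝ} {f : ℍ → ℂ}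
    {a : ℕ → ℂ} (h : IsHeckeMaass N χ 0 ev f a) {ν : ℂ} {ε : ℝ} (hev : ν ^ 2 = 1 / 4 - ev)
    (F : Frame0 ν ε a f) {L : ℂ → ℂ} (hL : LFun ν ε a f L) :
    ∃ η : ℝ, 0 < η ∧ ∀ r : ℝ, 0 < r → ¬ ∃ C : ℝ, ∀ θ : ℂ, 0 < θ.re → ‖θ - η * I‖ < r →
      ‖FC ν ε L θ‖ ≤ C := by
  obtain ⟨q, hq, hun⟩ := iq_unbdd h hev F
  have hq1 : (1 : ℝ) < (q : ℝ) := by exact_mod_cast hq
  have hlog : 0 < Real.log q := Real.log_pos hq1
  refine ⟨Real.log q / 2, by positivity, fun r hr hb => hun ?_⟩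
  have h1 := nbound F hL (by positivity : 0 < Real.log q / 2) hr hb
  refine iq_bdd F hL hq1 ?_
  obtain ⟨C, ρ, hρ, h2⟩ := h1
  refine ⟨C, ρ, hρ, fun w hw hw2 => h2 w hw ?_⟩
  have e : (2 : ℂ) * ((Real.log q / 2 : ℝ) : ℂ) * I = (Real.log q : ℂ) * I := by
    push_cast
    ring
  rw [e]
  exact hw2

end Pool.Agent.JO.FM
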