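import Pool.Agent.Lib_helper45.JO.Defs2

/-! Project JO, part FM, block C2 (helper81): the differential equation of `Gs` in the strip. -/

set_option autoImplicit false
set_option linter.unusedSimpArgs false

namespace Pool.Agent.JO.FM

open Complex Filter Topology MeasureTheory Set
open UpperHalfPlane hiding I
open scoped MatrixGroups ComplexConjugate

/-- families which may be differentiated under the integral sign -/
structure c2_Nice {Ω : Type*} [MeasurableSpace Ω] (μ : Measure Ω) (F : ℂ → Ω → ℂ)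
    (U : Set ℂ) : Prop where
  meas : ∀ s ∈ U, AEStronglyMeasurable (F s) μ
  diff : ∀ x, DifferentiableOn ℂ (fun s => F s x) U
  dom : ∀ s ∈ U, ∃ r > 0, Metric.ball s r ⊆ U ∧ ∃ b : Ω → ℝ, Integrable b μ ∧
    ∀ x, ∀ z ∈ Metric.ball s r, ‖F z x‖ ≤ b x

theorem c2_nice_int {Ω : Type*} [MeasurableSpace Ω] {μ : Measure Ω} {F : ℂ → Ω → ℂ}
    {U : Set ℂ} (h : c2_Nice μ F U) {s : ℂ} (hs : s ∈ U) : Integrable (F s) μ := by
  obtain ⟨r, hr, hrU, b, hbi, hbd⟩ := h.dom s hs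
  exact hbi.mono' (h.meas s hs) (Eventually.of_forall fun x => hbd x s (Metric.mem_ball_self hr))

theorem c2_nice_deriv {Ω : Type*} [MeasurableSpace Ω] {μ : Measure Ω} {F : ℂ → Ω → ℂ}
    {U : Set ℂ} (hU : IsOpen U) (h : c2_Nice μ F U) :
    c2_Nice μ (fun s x => deriv (fun w => F w x) s) U ∧
    ∀ s ∈ U, HasDerivAt (fun s => ∫ x, F s x ∂μ) (∫ x, deriv (fun w => F w x) s ∂μ) s := by
  have hmeas : ∀ s ∈ U, AEStronglyMeasurable (fun x => deriv (fun w => F w x) s) μ := by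
    intro s hs
    have hlim : ∀ᵐ x ∂μ, Tendsto (fun n : ℕ => ((1 / ((n : ℂ) + 1)))⁻¹ •
        (F (s + 1 / ((n : ℂ) + 1)) x - F s x)) atTop (𝓝 (deriv (fun w => F w x) s)) := by
      refine Eventually.of_forall fun x => ?_
      have h1 : HasDerivAt (fun w => F w x) (deriv (fun w => F w x) s) s :=
        ((h.diff x).differentiableAt (hU.mem_nhds hs)).hasDerivAt
      rw [hasDerivAt_iff_tendsto_slope_zero] at h1
      refine h1.comp ?_
      refine tendsto_nhdsWithin_iff.mpr ⟨tendsto_one_div_add_atTop_nhds_zero_nat,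
        Eventually.of_forall fun n => ?_⟩
      have : ((n : ℂ) + 1) ≠ 0 := Nat.cast_add_one_ne_zero n
      simp [this]
    have hev : ∀ᶠ n : ℕ in atTop, s + 1 / ((n : ℂ) + 1) ∈ U := by
      have h2 : Tendsto (fun n : ℕ => s + 1 / ((n : ℂ) + 1)) atTop (𝓝 s) := by
        have := (tendsto_one_div_add_atTop_nhds_zero_nat (𝕜 := ℂ)).const_add s
        simpa using this
      exact h2 (hU.mem_nhds hs)
    obtain ⟨N, hN⟩ := eventually_atTop.mp hev
    have hlim2 : ∀ᵐ x ∂μ, Tendsto (fun n : ℕ => ((1 / (((n + N : ℕ) : ℂ) + 1)))⁻¹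
        • (F (s + 1 / (((n + N : ℕ) : ℂ) + 1)) x - F s x)) atTop
          (𝓝 (deriv (fun w => F w x) s)) := by
      filter_upwards [hlim] with x hx
      exact (tendsto_add_atTop_iff_nat N).mpr hx
    refine aestronglyMeasurable_of_tendsto_ae atTop (fun n => ?_) hlim2
    have h3 : AEStronglyMeasurable (fun x => F (s + 1 / (((n + N : ℕ) : ℂ) + 1)) x - F s x) μ :=
      (h.meas _ (hN (n + N) (by omega))).sub (h.meas s hs)
    exact h3.const_smul ((1 / (((n + N : ℕ) : ℂ) + 1)))⁻¹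
  have hbound : ∀ s ∈ U, ∃ r > 0, Metric.ball s r ⊆ U ∧ ∃ b : Ω → ℝ, Integrable b μ ∧
      ∀ x, ∀ z ∈ Metric.ball s r, ‖deriv (fun w => F w x) z‖ ≤ b x := by
    intro s hs
    obtain ⟨r, hr, hrU, b, hbi, hbd⟩ := h.dom s hs
    have hball : ∀ z ∈ Metric.ball s (r / 2), Metric.closedBall z (r / 4) ⊆ Metric.ball s r := by
      intro z hz w hw
      rw [Metric.mem_ball] at hz ⊢
      rw [Metric.mem_closedBall] at hw
      calc dist w s ≤ dist w z + dist z s := dist_triangle _ _ _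
        _ < r := by linarith
    refine ⟨r / 2, by positivity, (Metric.ball_subset_ball (by linarith)).trans hrU,
      fun x => b x / (r / 4), hbi.div_const _, fun x z hz => ?_⟩
    refine Complex.norm_deriv_le_of_forall_mem_sphere_norm_le (by positivity) ?_ ?_
    · refine DifferentiableOn.diffContOnCl ?_
      rw [closure_ball _ (by positivity : r / 4 ≠ 0)]
      exact (h.diff x).mono ((hball z hz).trans hrU)
    · intro w hw
      exact hbd x w (hball z hz (Metric.sphere_subset_closedBall hw))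
  refine ⟨⟨hmeas, fun x => (h.diff x).deriv hU, hbound⟩, fun s hs => ?_⟩
  obtain ⟨r, hr, hrU, b, hbi, hbd⟩ := hbound s hs
  exact (hasDerivAt_integral_of_dominated_loc_of_deriv_le (μ := μ) (𝕜 := ℂ)
    (F := F) (F' := fun z x => deriv (fun w => F w x) z) (x₀ := s) (s := Metric.ball s r)
    (bound := b) (Metric.ball_mem_nhds s hr)
    (by
      filter_upwards [Metric.ball_mem_nhds s hr] with z hz
      exact h.meas z (hrU hz))
    (c2_nice_int h hs)
    (hmeas s hs) (Eventually.of_forall fun x z hz => hbd x z hz) hbi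
    (Eventually.of_forall fun x z hz =>
      ((h.diff x).differentiableAt (hU.mem_nhds (hrU hz))).hasDerivAt)).2

/-- the strip -/
def c2_U : Set ℂ := {θ | 0 < θ.re ∧ θ.re < Real.pi}

theorem c2_open : IsOpen c2_U :=
  (isOpen_lt continuous_const Complex.continuous_re).inter
    (isOpen_lt Complex.continuous_re continuous_const)

/-- `sin θ cosh u - ι cos θ`, `ι = ± i` -/
noncomputable def c2_A (ι θ : ℂ) (u : ℝ) : ℂ :=
  Complex.sin θ * (Real.cosh u : ℝ) - ι * Complex.cos θ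

theorem c2_sin_re (θ : ℂ) : (Complex.sin θ).re = Real.sin θ.re * Real.cosh θ.im := by
  have h := Complex.sin_eq θ
  rw [h]
  rw [← Complex.ofReal_sin, ← Complex.ofReal_cos, ← Complex.ofReal_cosh, ← Complex.ofReal_sinh]
  simp only [Complex.add_re, Complex.sub_re, Complex.mul_re, Complex.add_im, Complex.sub_im,
    Complex.mul_im, Complex.ofReal_re, Complex.ofReal_im, Complex.I_re, Complex.I_im]
  ring

theorem c2_sin_im (θ : ℂ) : (Complex.sin θ).im = Real.cos θ.re * Real.sinh θ.im := by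
  have h := Complex.sin_eq θ
  rw [h]
  rw [← Complex.ofReal_sin, ← Complex.ofReal_cos, ← Complex.ofReal_cosh, ← Complex.ofReal_sinh]
  simp only [Complex.add_re, Complex.sub_re, Complex.mul_re, Complex.add_im, Complex.sub_im,
    Complex.mul_im, Complex.ofReal_re, Complex.ofReal_im, Complex.I_re, Complex.I_im]
  ring

theorem c2_cos_re (θ : ℂ) : (Complex.cos θ).re = Real.cos θ.re * Real.cosh θ.im := by
  have h := Complex.cos_eq θ
  rw [h]
  rw [← Complex.ofReal_sin, ← Complex.ofReal_cos, ← Complex.ofReal_cosh, ← Complex.ofReal_sinh]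
  simp only [Complex.add_re, Complex.sub_re, Complex.mul_re, Complex.add_im, Complex.sub_im,
    Complex.mul_im, Complex.ofReal_re, Complex.ofReal_im, Complex.I_re, Complex.I_im]
  ring

theorem c2_cos_im (θ : ℂ) : (Complex.cos θ).im = -(Real.sin θ.re * Real.sinh θ.im) := by
  have h := Complex.cos_eq θ
  rw [h]
  rw [← Complex.ofReal_sin, ← Complex.ofReal_cos, ← Complex.ofReal_cosh, ← Complex.ofReal_sinh]
  simp only [Complex.add_re, Complex.sub_re, Complex.mul_re, Complex.add_im, Complex.sub_im,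
    Complex.mul_im, Complex.ofReal_re, Complex.ofReal_im, Complex.I_re, Complex.I_im]
  ring

theorem c2_A_re {ι : ℂ} (hι : ι = I ∨ ι = -I) {θ : ℂ} (hθ : θ ∈ c2_U) (u : ℝ) :
    Real.sin θ.re * Real.exp (-|θ.im|) * Real.cosh u ≤ (c2_A ι θ u).re := by
  have hs : 0 < Real.sin θ.re := Real.sin_pos_of_pos_of_lt_pi hθ.1 hθ.2
  have hu : 1 ≤ Real.cosh u := Real.one_le_cosh u
  have h1 : Real.exp (-|θ.im|) ≤ Real.cosh θ.im - Real.sinh θ.im := by
    rw [Real.cosh_sub_sinh]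
    exact Real.exp_le_exp.2 (neg_le_neg (le_abs_self _))
  have h2 : Real.exp (-|θ.im|) ≤ Real.cosh θ.im + Real.sinh θ.im := by
    rw [Real.cosh_add_sinh]
    exact Real.exp_le_exp.2 (neg_abs_le _)
  have hc : 0 < Real.cosh θ.im := Real.cosh_pos _
  have key : ∀ S : ℝ, |S| ≤ Real.cosh θ.im - Real.exp (-|θ.im|) →
      Real.exp (-|θ.im|) * Real.cosh u ≤ Real.cosh θ.im * Real.cosh u + S := by
    intro S hS
    have h3 := neg_abs_le S
    have h4 : 0 ≤ Real.cosh θ.im - Real.exp (-|θ.im|) := (abs_nonneg _).trans hS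
    nlinarith
  have hS : |Real.sinh θ.im| ≤ Real.cosh θ.im - Real.exp (-|θ.im|) := by
    rw [abs_le]; constructor <;> linarith
  rcases hι with rfl | rfl
  · have e : (c2_A I θ u).re = Real.sin θ.re * (Real.cosh θ.im * Real.cosh u - Real.sinh θ.im) := by
      unfold c2_A
      simp only [Complex.sub_re, Complex.mul_re, Complex.ofReal_re, Complex.ofReal_im, Complex.I_re, Complex.I_im,
        c2_sin_re, c2_sin_im, c2_cos_re, c2_cos_im]
      ring
    rw [e, mul_assoc]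
    refine mul_le_mul_of_nonneg_left ?_ hs.le
    have := key (-Real.sinh θ.im) (by rwa [abs_neg])
    linarith
  · have e : (c2_A (-I) θ u).re =
        Real.sin θ.re * (Real.cosh θ.im * Real.cosh u + Real.sinh θ.im) := by
      unfold c2_A
      simp only [Complex.sub_re, Complex.mul_re, Complex.ofReal_re, Complex.ofReal_im, Complex.neg_re,
        Complex.neg_im, Complex.I_re, Complex.I_im,
        c2_sin_re, c2_sin_im, c2_cos_re, c2_cos_im]
      ring
    rw [e, mul_assoc]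
    refine mul_le_mul_of_nonneg_left ?_ hs.le
    exact key (Real.sinh θ.im) hS

theorem c2_A_pos {ι : ℂ} (hι : ι = I ∨ ι = -I) {θ : ℂ} (hθ : θ ∈ c2_U) (u : ℝ) :
    0 < (c2_A ι θ u).re := by
  have hs : 0 < Real.sin θ.re := Real.sin_pos_of_pos_of_lt_pi hθ.1 hθ.2
  refine lt_of_lt_of_le ?_ (c2_A_re hι hθ u)
  have := Real.cosh_pos u
  positivity

theorem c2_A_slit {ι : ℂ} (hι : ι = I ∨ ι = -I) {θ : ℂ} (hθ : θ ∈ c2_U) (u : ℝ) :
    c2_A ι θ u ∈ slitPlane := Or.inl (c2_A_pos hι hθ u)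

theorem c2_A_ne {ι : ℂ} (hι : ι = I ∨ ι = -I) {θ : ℂ} (hθ : θ ∈ c2_U) (u : ℝ) :
    c2_A ι θ u ≠ 0 := slitPlane_ne_zero (c2_A_slit hι hθ u)

/-- the kernel -/
noncomputable def c2_k (ν s ι θ : ℂ) (u : ℝ) : ℂ := cexp (ν * u) * c2_A ι θ u ^ (-s)

theorem c2_A_theta (ι θ : ℂ) (u : ℝ) :
    HasDerivAt (fun θ => c2_A ι θ u) (Complex.cos θ * (Real.cosh u : ℝ) + ι * Complex.sin θ) θ := by
  unfold c2_A
  have h := ((Complex.hasDerivAt_sin θ).mul_const ((Real.cosh u : ℝ) : ℂ)).sub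
    ((Complex.hasDerivAt_cos θ).const_mul ι)
  exact h.congr_deriv (by ring)

theorem c2_A_theta2 (ι θ : ℂ) (u : ℝ) :
    HasDerivAt (fun θ => Complex.cos θ * (Real.cosh u : ℝ) + ι * Complex.sin θ)
      (-c2_A ι θ u) θ := by
  unfold c2_A
  have h := ((Complex.hasDerivAt_cos θ).mul_const ((Real.cosh u : ℝ) : ℂ)).add
    ((Complex.hasDerivAt_sin θ).const_mul ι)
  exact h.congr_deriv (by ring)

theorem c2_A_u (ι θ : ℂ) (u : ℝ) :
    HasDerivAt (fun u : ℝ => c2_A ι θ u) (Complex.sin θ * (Real.sinh u : ℝ)) u := by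
  unfold c2_A
  exact (((Real.hasDerivAt_cosh u).ofReal_comp).const_mul (Complex.sin θ)).sub_const _

theorem c2_A_u2 (θ : ℂ) (u : ℝ) :
    HasDerivAt (fun u : ℝ => Complex.sin θ * (Real.sinh u : ℝ))
      (Complex.sin θ * (Real.cosh u : ℝ)) u :=
  ((Real.hasDerivAt_sinh u).ofReal_comp).const_mul (Complex.sin θ)

theorem c2_k_theta (ν s : ℂ) {ι : ℂ} (hι : ι = I ∨ ι = -I) {θ : ℂ} (hθ : θ ∈ c2_U) (u : ℝ) :
    HasDerivAt (fun θ => c2_k ν s ι θ u) (cexp (ν * u) * (-s * c2_A ι θ u ^ (-s - 1) *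
      (Complex.cos θ * (Real.cosh u : ℝ) + ι * Complex.sin θ))) θ := by
  unfold c2_k
  exact ((c2_A_theta ι θ u).cpow_const (c2_A_slit hι hθ u)).const_mul _

theorem c2_k_theta2 (ν s : ℂ) {ι : ℂ} (hι : ι = I ∨ ι = -I) {θ : ℂ} (hθ : θ ∈ c2_U) (u : ℝ) :
    HasDerivAt (fun θ => cexp (ν * u) * (-s * c2_A ι θ u ^ (-s - 1) *
      (Complex.cos θ * (Real.cosh u : ℝ) + ι * Complex.sin θ)))
      (cexp (ν * u) * (s * (s + 1) * c2_A ι θ u ^ (-s - 2) *
        (Complex.cos θ * (Real.cosh u : ℝ) + ι * Complex.sin θ) ^ 2 +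
        s * c2_A ι θ u ^ (-s - 1) * c2_A ι θ u)) θ := by
  have h := ((((c2_A_theta ι θ u).cpow_const (c := -s - 1) (c2_A_slit hι hθ u)).const_mul (-s)).mul
    (c2_A_theta2 ι θ u)).const_mul (cexp (ν * u))
  refine h.congr_deriv ?_
  have : -s - 1 - 1 = -s - 2 := by ring
  rw [this]
  ring

/-- the constant in the lower bound of `Re A` -/
noncomputable def c2_c (θ : ℂ) : ℝ := Real.sin θ.re * Real.exp (-|θ.im|)

theorem c2_c_pos {θ : ℂ} (hθ : θ ∈ c2_U) : 0 < c2_c θ :=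
  mul_pos (Real.sin_pos_of_pos_of_lt_pi hθ.1 hθ.2) (Real.exp_pos _)

theorem c2_c_cont : Continuous c2_c := by
  unfold c2_c
  exact (Real.continuous_sin.comp Complex.continuous_re).mul
    (Real.continuous_exp.comp (Complex.continuous_im.abs.neg))

theorem c2_A_norm {ι : ℂ} (hι : ι = I ∨ ι = -I) {θ : ℂ} (hθ : θ ∈ c2_U) (u : ℝ) :
    c2_c θ * Real.cosh u ≤ ‖c2_A ι θ u‖ :=
  (c2_A_re hι hθ u).trans (Complex.re_le_norm _)

theorem c2_pow_bound {ι : ℂ} (hι : ι = I ∨ ι = -I) {θ : ℂ} (hθ : θ ∈ c2_U) (u : ℝ) {s : ℂ}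
    (hs : 0 < s.re) {c : ℝ} (hc : 0 < c) (hcc : c ≤ c2_c θ) :
    ‖c2_A ι θ u ^ (-s)‖ ≤ (c / 2) ^ (-s.re) * Real.exp (Real.pi * |s.im|) *
      Real.exp (-(s.re * |u|)) := by
  have h1 := Complex.norm_cpow_le (c2_A ι θ u) (-s)
  have h2 : c / 2 * Real.exp |u| ≤ ‖c2_A ι θ u‖ := by
    refine le_trans ?_ (c2_A_norm hι hθ u)
    have h3 : Real.exp |u| ≤ 2 * Real.cosh u := by
      rw [← Real.cosh_abs u, Real.cosh_eq]
      have := Real.exp_pos (-|u|)
      linarith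
    calc c / 2 * Real.exp |u| ≤ c / 2 * (2 * Real.cosh u) := by gcongr
      _ = c * Real.cosh u := by ring
      _ ≤ c2_c θ * Real.cosh u := by
        have := Real.cosh_pos u
        gcongr
  have h4 : ‖c2_A ι θ u‖ ^ (-s).re ≤ (c / 2) ^ (-s.re) * Real.exp (-(s.re * |u|)) := by
    rw [Complex.neg_re]
    calc ‖c2_A ι θ u‖ ^ (-s.re) ≤ (c / 2 * Real.exp |u|) ^ (-s.re) :=
          Real.rpow_le_rpow_of_nonpos (by positivity) h2 (by linarith)
      _ = (c / 2) ^ (-s.re) * Real.exp (-(s.re * |u|)) := by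
          rw [Real.mul_rpow (by positivity) (Real.exp_pos _).le, ← Real.exp_mul]
          congr 2
          ring
  have h5 : (Real.exp (arg (c2_A ι θ u) * (-s).im))⁻¹ ≤ Real.exp (Real.pi * |s.im|) := by
    rw [← Real.exp_neg]
    refine Real.exp_le_exp.2 ?_
    rw [Complex.neg_im]
    have h6 := Complex.abs_arg_le_pi (c2_A ι θ u)
    calc -(arg (c2_A ι θ u) * -s.im) = arg (c2_A ι θ u) * s.im := by ring
      _ ≤ |arg (c2_A ι θ u) * s.im| := le_abs_self _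
      _ = |arg (c2_A ι θ u)| * |s.im| := abs_mul _ _
      _ ≤ Real.pi * |s.im| := by gcongr
  calc ‖c2_A ι θ u ^ (-s)‖ ≤ ‖c2_A ι θ u‖ ^ (-s).re * (Real.exp (arg (c2_A ι θ u) * (-s).im))⁻¹ := by
        rw [← div_eq_mul_inv]; exact h1
    _ ≤ ((c / 2) ^ (-s.re) * Real.exp (-(s.re * |u|))) * Real.exp (Real.pi * |s.im|) := by
        gcongr
    _ = _ := by ring

theorem c2_k_bound {ν : ℂ} (hν : 0 ≤ ν.re) {ι : ℂ} (hι : ι = I ∨ ι = -I) {θ : ℂ}
    (hθ : θ ∈ c2_U) (u : ℝ) {s : ℂ}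
    (hs : 0 < s.re) {c : ℝ} (hc : 0 < c) (hcc : c ≤ c2_c θ) :
    ‖c2_k ν s ι θ u‖ ≤ (c / 2) ^ (-s.re) * Real.exp (Real.pi * |s.im|) *
      Real.exp (-((s.re - ν.re) * |u|)) := by
  unfold c2_k
  rw [norm_mul, Complex.norm_exp]
  have h1 : (ν * (u : ℂ)).re ≤ ν.re * |u| := by
    rw [Complex.re_mul_ofReal]
    exact mul_le_mul_of_nonneg_left (le_abs_self u) hν
  calc Real.exp (ν * (u : ℂ)).re * ‖c2_A ι θ u ^ (-s)‖ ≤ Real.exp (ν.re * |u|) *
        ((c / 2) ^ (-s.re) * Real.exp (Real.pi * |s.im|) * Real.exp (-(s.re * |u|))) := by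
        gcongr
        exact c2_pow_bound hι hθ u hs hc hcc
    _ = (c / 2) ^ (-s.re) * Real.exp (Real.pi * |s.im|) *
        (Real.exp (ν.re * |u|) * Real.exp (-(s.re * |u|))) := by ring
    _ = _ := by
        rw [← Real.exp_add]
        congr 2
        ring

theorem c2_k_cont (ν s : ℂ) {ι : ℂ} (hι : ι = I ∨ ι = -I) {θ : ℂ} (hθ : θ ∈ c2_U) :
    Continuous (fun u => c2_k ν s ι θ u) := by
  unfold c2_k
  refine Continuous.mul (by fun_prop) ?_
  refine Continuous.cpow ?_ continuous_const (fun u => c2_A_slit hι hθ u)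
  unfold c2_A
  have := Real.continuous_cosh
  fun_prop

theorem c2_nice {ν : ℂ} (hν : 0 ≤ ν.re) {ι : ℂ} (hι : ι = I ∨ ι = -I) {s : ℂ}
    (hs : ν.re < s.re) : c2_Nice volume (fun θ u => c2_k ν s ι θ u) c2_U := by
  refine ⟨fun θ hθ => (c2_k_cont ν s hι hθ).aestronglyMeasurable, fun u θ hθ =>
    (c2_k_theta ν s hι hθ u).differentiableAt.differentiableWithinAt, fun θ hθ => ?_⟩
  have hc := c2_c_pos hθ
  have hV : IsOpen (c2_U ∩ {z | c2_c θ / 2 < c2_c z}) :=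
    c2_open.inter (isOpen_lt continuous_const c2_c_cont)
  obtain ⟨r, hr, hrV⟩ := Metric.isOpen_iff.1 hV θ ⟨hθ, by show c2_c θ / 2 < c2_c θ; linarith⟩
  refine ⟨r, hr, fun z hz => (hrV hz).1, fun u => (c2_c θ / 2 / 2) ^ (-s.re) *
    Real.exp (Real.pi * |s.im|) * Real.exp (-((s.re - ν.re) * |u|)), ?_, fun u z hz => ?_⟩
  · exact (SP.f2_int (by linarith)).const_mul _
  · exact c2_k_bound hν hι (hrV hz).1 u (by linarith) (by linarith) (le_of_lt (hrV hz).2)

/-- the first integral -/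
noncomputable def c2_w (ν s ι θ : ℂ) (u : ℝ) : ℂ :=
  cexp (ν * u) * (-s * c2_A ι θ u ^ (-s - 1) * (Complex.sin θ * (Real.sinh u : ℝ)) -
    ν * c2_A ι θ u ^ (-s))

theorem c2_k_d1 (ν s : ℂ) {ι : ℂ} (hι : ι = I ∨ ι = -I) {θ : ℂ} (hθ : θ ∈ c2_U) (u : ℝ) :
    deriv (fun θ => c2_k ν s ι θ u) θ = cexp (ν * u) * (-s * c2_A ι θ u ^ (-s - 1) *
      (Complex.cos θ * (Real.cosh u : ℝ) + ι * Complex.sin θ)) :=
  (c2_k_theta ν s hι hθ u).deriv

theorem c2_k_d2 (ν s : ℂ) {ι : ℂ} (hι : ι = I ∨ ι = -I) {θ : ℂ} (hθ : θ ∈ c2_U) (u : ℝ) :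
    deriv (fun z => deriv (fun θ => c2_k ν s ι θ u) z) θ =
      cexp (ν * u) * (s * (s + 1) * c2_A ι θ u ^ (-s - 2) *
        (Complex.cos θ * (Real.cosh u : ℝ) + ι * Complex.sin θ) ^ 2 +
        s * c2_A ι θ u ^ (-s - 1) * c2_A ι θ u) := by
  have h := c2_k_theta2 ν s hι hθ u
  have he : (fun z => deriv (fun θ => c2_k ν s ι θ u) z) =ᶠ[𝓝 θ]
      (fun θ => cexp (ν * u) * (-s * c2_A ι θ u ^ (-s - 1) *
        (Complex.cos θ * (Real.cosh u : ℝ) + ι * Complex.sin θ))) := by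
    filter_upwards [c2_open.mem_nhds hθ] with z hz
    exact c2_k_d1 ν s hι hz u
  exact (h.congr_of_eventuallyEq he).deriv

theorem c2_w_deriv (ν s : ℂ) {ι : ℂ} (hι : ι = I ∨ ι = -I) {θ : ℂ} (hθ : θ ∈ c2_U) (u : ℝ) :
    HasDerivAt (c2_w ν s ι θ)
      (Complex.sin θ ^ 2 * deriv (fun z => deriv (fun θ => c2_k ν s ι θ u) z) θ +
        Complex.sin θ * Complex.cos θ * deriv (fun θ => c2_k ν s ι θ u) θ -
        (s * (1 - s) * Complex.sin θ ^ 2 + ν ^ 2) * c2_k ν s ι θ u) u := by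
  rw [c2_k_d1 ν s hι hθ u, c2_k_d2 ν s hι hθ u]
  have hA := c2_A_u ι θ u
  have hA2 := c2_A_u2 θ u
  have hsl := c2_A_slit hι hθ u
  have hne := c2_A_ne hι hθ u
  have hcp : ∀ c : ℂ, HasDerivAt (fun u : ℝ => c2_A ι θ u ^ c)
      (c * c2_A ι θ u ^ (c - 1) * (Complex.sin θ * (Real.sinh u : ℝ))) u := by
    intro c
    have h1 : HasDerivAt (fun z : ℂ => z ^ c) (c * c2_A ι θ u ^ (c - 1)) (c2_A ι θ u) := by
      have := (hasDerivAt_id' (c2_A ι θ u)).cpow_const (c := c) hsl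
      simpa using this
    exact h1.comp u hA
  have hp1 := hcp (-s - 1)
  have hp0 := hcp (-s)
  have he : HasDerivAt (fun u : ℝ => cexp (ν * u)) (cexp (ν * u) * ν) u := by
    have h1 : HasDerivAt (fun u : ℝ => ν * (u : ℂ)) ν u := by
      have := ((hasDerivAt_id u).ofReal_comp).const_mul ν
      simpa using this
    exact h1.cexp
  have hw := he.mul (((hp1.const_mul (-s)).mul hA2).sub (hp0.const_mul ν))
  refine (hw.congr_deriv ?_)
  have e1 : c2_A ι θ u ^ (-s - 1) = c2_A ι θ u ^ (-s - 2) * c2_A ι θ u := by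
    have : -s - 1 = (-s - 2) + 1 := by ring
    rw [this, Complex.cpow_add _ _ hne, Complex.cpow_one]
  have e2 : c2_A ι θ u ^ (-s) = c2_A ι θ u ^ (-s - 2) * c2_A ι θ u ^ 2 := by
    have : -s = (-s - 2) + 2 := by ring
    rw [this, Complex.cpow_add _ _ hne]
    congr 1
    · congr 1; ring
    · exact Complex.cpow_ofNat _ 2
  have e3 : c2_A ι θ u ^ (-s - 1 - 1) = c2_A ι θ u ^ (-s - 2) := by
    congr 1; ring
  have hi : ι ^ 2 = -1 := by
    rcases hι with rfl | rfl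
    · exact I_sq
    · rw [neg_sq]; exact I_sq
  have hsc := Complex.sin_sq_add_cos_sq θ
  have hch : ((Real.cosh u : ℝ) : ℂ) ^ 2 - ((Real.sinh u : ℝ) : ℂ) ^ 2 = 1 := by
    have := Real.cosh_sq_sub_sinh_sq u
    exact_mod_cast this
  have hAdef : c2_A ι θ u = Complex.sin θ * (Real.cosh u : ℝ) - ι * Complex.cos θ := rfl
  simp only [c2_k, e1, e2, e3, Pi.sub_apply, Pi.mul_apply]
  generalize c2_A ι θ u ^ (-s - 2) = p
  generalize cexp (ν * u) = E
  rw [hAdef]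
  generalize ((Real.cosh u : ℝ) : ℂ) = h at *
  generalize ((Real.sinh u : ℝ) : ℂ) = k at *
  generalize Complex.sin θ = S at *
  generalize Complex.cos θ = C at *
  have h1 : (C * h + ι * S) ^ 2 - k ^ 2 = -(S * h - ι * C) ^ 2 := by
    linear_combination (S ^ 2 + C ^ 2) * hi + (h ^ 2 - 1) * hsc + hch
  have h2 : C * (C * h + ι * S) - h = -S * (S * h - ι * C) := by
    linear_combination h * hsc
  linear_combination (-(E * p * s * (s + 1) * S ^ 2)) * h1 +
    (E * p * s * S * (S * h - ι * C)) * h2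

theorem c2_w_bound {ν : ℂ} (hν : 0 ≤ ν.re) {ι : ℂ} (hι : ι = I ∨ ι = -I) {θ : ℂ}
    (hθ : θ ∈ c2_U) {s : ℂ} (hs : 0 < s.re) (u : ℝ) :
    ‖c2_w ν s ι θ u‖ ≤ (‖s‖ * (‖Complex.sin θ‖ / c2_c θ) + ‖ν‖) *
      ((c2_c θ / 2) ^ (-s.re) * Real.exp (Real.pi * |s.im|)) *
      Real.exp (-((s.re - ν.re) * |u|)) := by
  have hc := c2_c_pos hθ
  have hne := c2_A_ne hι hθ u
  have hk := c2_k_bound hν hι hθ u hs hc le_rfl
  have hA := c2_A_norm hι hθ u
  have hApos : 0 < ‖c2_A ι θ u‖ := norm_pos_iff.2 hne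
  have hfac : c2_w ν s ι θ u = (-s * (Complex.sin θ * (Real.sinh u : ℝ) / c2_A ι θ u) - ν) *
      c2_k ν s ι θ u := by
    unfold c2_w c2_k
    rw [Complex.cpow_sub _ _ hne, Complex.cpow_one]
    field_simp
  have h1 : ‖Complex.sin θ * (Real.sinh u : ℝ) / c2_A ι θ u‖ ≤ ‖Complex.sin θ‖ / c2_c θ := by
    rw [norm_div, norm_mul, div_le_div_iff₀ hApos hc, Complex.norm_real, Real.norm_eq_abs]
    have h2 : |Real.sinh u| ≤ Real.cosh u := by
      rw [abs_le]
      constructor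
      · have := Real.cosh_add_sinh u
        have := Real.exp_pos u
        linarith
      · have := Real.cosh_sub_sinh u
        have := Real.exp_pos (-u)
        linarith
    calc ‖Complex.sin θ‖ * |Real.sinh u| * c2_c θ ≤ ‖Complex.sin θ‖ * Real.cosh u * c2_c θ := by
          gcongr
      _ = ‖Complex.sin θ‖ * (c2_c θ * Real.cosh u) := by ring
      _ ≤ ‖Complex.sin θ‖ * ‖c2_A ι θ u‖ := by gcongr
  rw [hfac, norm_mul]
  have h3 : ‖-s * (Complex.sin θ * (Real.sinh u : ℝ) / c2_A ι θ u) - ν‖ ≤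
      ‖s‖ * (‖Complex.sin θ‖ / c2_c θ) + ‖ν‖ := by
    refine (norm_sub_le _ _).trans ?_
    rw [norm_mul, norm_neg]
    gcongr
  calc _ ≤ (‖s‖ * (‖Complex.sin θ‖ / c2_c θ) + ‖ν‖) *
        ((c2_c θ / 2) ^ (-s.re) * Real.exp (Real.pi * |s.im|) *
          Real.exp (-((s.re - ν.re) * |u|))) := by gcongr
    _ = _ := by ring

theorem c2_exp_tendsto {δ : ℝ} (hδ : 0 < δ) {l : Filter ℝ} (hl : Tendsto (fun u : ℝ => |u|) l atTop) :
    Tendsto (fun u : ℝ => Real.exp (-(δ * |u|))) l (𝓝 0) :=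
  Real.tendsto_exp_neg_atTop_nhds_zero.comp (hl.const_mul_atTop hδ)

/-- the integral of one kernel satisfies the equation -/
theorem c2_J {ν : ℂ} (hν : 0 ≤ ν.re) {ι : ℂ} (hι : ι = I ∨ ι = -I) {s : ℂ}
    (hs : ν.re < s.re) : ∃ J1 J2 : ℂ → ℂ, ∀ θ ∈ c2_U,
      HasDerivAt (fun θ => ∫ u : ℝ, c2_k ν s ι θ u) (J1 θ) θ ∧ HasDerivAt J1 (J2 θ) θ ∧
      Complex.sin θ ^ 2 * J2 θ + Complex.sin θ * Complex.cos θ * J1 θ =
        (s * (1 - s) * Complex.sin θ ^ 2 + ν ^ 2) * ∫ u : ℝ, c2_k ν s ι θ u := by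
  have h0 := c2_nice hν hι hs
  obtain ⟨h1, hd1⟩ := c2_nice_deriv c2_open h0
  obtain ⟨h2, hd2⟩ := c2_nice_deriv c2_open h1
  refine ⟨fun θ => ∫ u : ℝ, deriv (fun θ => c2_k ν s ι θ u) θ,
    fun θ => ∫ u : ℝ, deriv (fun z => deriv (fun θ => c2_k ν s ι θ u) z) θ, fun θ hθ =>
    ⟨hd1 θ hθ, hd2 θ hθ, ?_⟩⟩
  have i0 := c2_nice_int h0 hθ
  have i1 := c2_nice_int h1 hθ
  have i2 := c2_nice_int h2 hθ
  have hδ : 0 < s.re - ν.re := by linarith
  have ht : ∀ l : Filter ℝ, Tendsto (fun u : ℝ => |u|) l atTop →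
      Tendsto (c2_w ν s ι θ) l (𝓝 0) := by
    intro l hl
    refine squeeze_zero_norm (fun u => c2_w_bound hν hι hθ (by linarith) u) ?_
    have := (c2_exp_tendsto hδ hl).const_mul ((‖s‖ * (‖Complex.sin θ‖ / c2_c θ) + ‖ν‖) *
      ((c2_c θ / 2) ^ (-s.re) * Real.exp (Real.pi * |s.im|)))
    simpa using this
  have key := integral_of_hasDerivAt_of_tendsto (fun u => c2_w_deriv ν s hι hθ u)
    (((i2.const_mul _).add (i1.const_mul _)).sub (i0.const_mul _))
    (ht atBot tendsto_abs_atBot_atTop) (ht atTop tendsto_abs_atTop_atTop)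
  rw [sub_zero] at key
  have e : ∫ u : ℝ, (Complex.sin θ ^ 2 * deriv (fun z => deriv (fun θ => c2_k ν s ι θ u) z) θ +
        Complex.sin θ * Complex.cos θ * deriv (fun θ => c2_k ν s ι θ u) θ -
        (s * (1 - s) * Complex.sin θ ^ 2 + ν ^ 2) * c2_k ν s ι θ u) =
      Complex.sin θ ^ 2 * (∫ u : ℝ, deriv (fun z => deriv (fun θ => c2_k ν s ι θ u) z) θ) +
        Complex.sin θ * Complex.cos θ * (∫ u : ℝ, deriv (fun θ => c2_k ν s ι θ u) θ) -
        (s * (1 - s) * Complex.sin θ ^ 2 + ν ^ 2) * ∫ u : ℝ, c2_k ν s ι θ u := by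
    have j2 : Integrable (fun u : ℝ => Complex.sin θ ^ 2 *
        deriv (fun z => deriv (fun θ => c2_k ν s ι θ u) z) θ) := i2.const_mul _
    have j1 : Integrable (fun u : ℝ => Complex.sin θ * Complex.cos θ *
        deriv (fun θ => c2_k ν s ι θ u) θ) := i1.const_mul _
    have j21 : Integrable (fun u : ℝ => Complex.sin θ ^ 2 *
        deriv (fun z => deriv (fun θ => c2_k ν s ι θ u) z) θ + Complex.sin θ * Complex.cos θ *
        deriv (fun θ => c2_k ν s ι θ u) θ) := j2.add j1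
    have j0 : Integrable (fun u : ℝ => (s * (1 - s) * Complex.sin θ ^ 2 + ν ^ 2) *
        c2_k ν s ι θ u) := i0.const_mul _
    rw [integral_sub j21 j0, integral_add j2 j1]
    simp only [integral_const_mul]
  rw [e] at key
  exact sub_eq_zero.1 key

theorem c2_sin_slit {θ : ℂ} (hθ : θ ∈ c2_U) : Complex.sin θ ∈ slitPlane := by
  refine Or.inl ?_
  rw [c2_sin_re]
  exact mul_pos (Real.sin_pos_of_pos_of_lt_pi hθ.1 hθ.2) (Real.cosh_pos _)

theorem Gs_ode_pr {ν : ℂ} {ε : ℝ} (hν : GoodNu ν) (t : ℝ) {θ : ℂ} (h0 : 0 < θ.re)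
    (h1 : θ.re < Real.pi) :
    HasDerivAt (deriv (fun θ : ℂ => Gs ν ε (ha t) θ))
      ((t ^ 2 - (1 / 4 - ν ^ 2) / Complex.sin θ ^ 2) * Gs ν ε (ha t) θ) θ := by
  have hre : (ha t).re = 1 / 2 := by
    unfold ha
    simp
  have hs : ν.re < (ha t).re := by rw [hre]; exact hν.lt_half
  obtain ⟨P1, P2, hP⟩ := c2_J hν.nonneg (Or.inl rfl : (I : ℂ) = I ∨ (I : ℂ) = -I) hs
  obtain ⟨N1, N2, hN⟩ := c2_J hν.nonneg (Or.inr rfl : (-I : ℂ) = I ∨ (-I : ℂ) = -I) hs
  set c : ℂ := ((2 * Real.pi : ℝ) : ℂ) ^ (1 / 2 - ha t) * Gamma (ha t) with hc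
  set J : ℂ → ℂ := fun θ => (∫ u : ℝ, c2_k ν (ha t) I θ u) + ε * ∫ u : ℝ, c2_k ν (ha t) (-I) θ u
    with hJ
  have hG : ∀ z ∈ c2_U, Gs ν ε (ha t) z = c * (1 / 2) * (Complex.sin z ^ (1 / 2 : ℂ) * J z) := by
    intro z hz
    have e : ∫ u : ℝ, cexp (ν * u) *
        ((Complex.sin z * (Real.cosh u : ℝ) - I * Complex.cos z) ^ (-ha t) +
        ε * (Complex.sin z * (Real.cosh u : ℝ) + I * Complex.cos z) ^ (-ha t)) = J z := by
      rw [hJ]
      simp only
      rw [← integral_const_mul, ← integral_add (c2_nice_int (c2_nice hν.nonneg (Or.inl rfl) hs) hz)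
        ((c2_nice_int (c2_nice hν.nonneg (Or.inr rfl) hs) hz).const_mul _)]
      refine integral_congr_ae (Eventually.of_forall fun u => ?_)
      simp only [c2_k, c2_A, neg_mul, sub_neg_eq_add]
      ring
    unfold Gs
    rw [e, hc]
    ring
  set J1 : ℂ → ℂ := fun θ => P1 θ + ε * N1 θ with hJ1
  set J2 : ℂ → ℂ := fun θ => P2 θ + ε * N2 θ with hJ2
  have hJd : ∀ z ∈ c2_U, HasDerivAt J (J1 z) z := fun z hz =>
    (hP z hz).1.add ((hN z hz).1.const_mul _)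
  have hJd1 : ∀ z ∈ c2_U, HasDerivAt J1 (J2 z) z := fun z hz =>
    (hP z hz).2.1.add ((hN z hz).2.1.const_mul _)
  have hJe : ∀ z ∈ c2_U, Complex.sin z ^ 2 * J2 z + Complex.sin z * Complex.cos z * J1 z =
      (ha t * (1 - ha t) * Complex.sin z ^ 2 + ν ^ 2) * J z := by
    intro z hz
    have a1 := (hP z hz).2.2
    have a2 := (hN z hz).2.2
    simp only [hJ, hJ1, hJ2]
    linear_combination a1 + ε * a2
  -- the factor `sin^{1/2}`
  have hS : ∀ z ∈ c2_U, HasDerivAt (fun z => Complex.sin z ^ (1 / 2 : ℂ))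
      (1 / 2 * Complex.sin z ^ (1 / 2 : ℂ) * (Complex.cos z / Complex.sin z)) z := by
    intro z hz
    have h := (Complex.hasDerivAt_sin z).cpow_const (c := (1 / 2 : ℂ)) (c2_sin_slit hz)
    refine h.congr_deriv ?_
    rw [Complex.cpow_sub _ _ (slitPlane_ne_zero (c2_sin_slit hz)), Complex.cpow_one]
    ring
  have hCot : ∀ z ∈ c2_U, HasDerivAt (fun z => Complex.cos z / Complex.sin z)
      (-(1 / Complex.sin z ^ 2)) z := by
    intro z hz
    have hne := slitPlane_ne_zero (c2_sin_slit hz)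
    have h := (Complex.hasDerivAt_cos z).div (Complex.hasDerivAt_sin z) hne
    refine h.congr_deriv ?_
    field_simp
    linear_combination -Complex.sin_sq_add_cos_sq z
  have hd : ∀ z ∈ c2_U, HasDerivAt (fun θ : ℂ => Gs ν ε (ha t) θ) (c * (1 / 2) *
      (1 / 2 * Complex.sin z ^ (1 / 2 : ℂ) * (Complex.cos z / Complex.sin z) * J z +
        Complex.sin z ^ (1 / 2 : ℂ) * J1 z)) z := by
    intro z hz
    refine (((hS z hz).mul (hJd z hz)).const_mul (c * (1 / 2))).congr_of_eventuallyEq ?_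
    filter_upwards [c2_open.mem_nhds hz] with w hw
    exact hG w hw
  have hθ : θ ∈ c2_U := ⟨h0, h1⟩
  have hne := slitPlane_ne_zero (c2_sin_slit hθ)
  have hdd : HasDerivAt (fun z => c * (1 / 2) *
      (1 / 2 * Complex.sin z ^ (1 / 2 : ℂ) * (Complex.cos z / Complex.sin z) * J z +
        Complex.sin z ^ (1 / 2 : ℂ) * J1 z))
      (c * (1 / 2) * (((1 / 2 * (1 / 2 * Complex.sin θ ^ (1 / 2 : ℂ) *
        (Complex.cos θ / Complex.sin θ)) * (Complex.cos θ / Complex.sin θ) +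
        1 / 2 * Complex.sin θ ^ (1 / 2 : ℂ) * (-(1 / Complex.sin θ ^ 2))) * J θ +
        (1 / 2 * Complex.sin θ ^ (1 / 2 : ℂ) * (Complex.cos θ / Complex.sin θ)) * J1 θ) +
        (1 / 2 * Complex.sin θ ^ (1 / 2 : ℂ) * (Complex.cos θ / Complex.sin θ) * J1 θ +
          Complex.sin θ ^ (1 / 2 : ℂ) * J2 θ))) θ :=
    ((((((hS θ hθ).const_mul (1 / 2)).mul (hCot θ hθ)).mul (hJd θ hθ)).add
      ((hS θ hθ).mul (hJd1 θ hθ))).const_mul (c * (1 / 2)))
  have he : deriv (fun θ : ℂ => Gs ν ε (ha t) θ) =ᶠ[𝓝 θ] (fun z => c * (1 / 2) *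
      (1 / 2 * Complex.sin z ^ (1 / 2 : ℂ) * (Complex.cos z / Complex.sin z) * J z +
        Complex.sin z ^ (1 / 2 : ℂ) * J1 z)) := by
    filter_upwards [c2_open.mem_nhds hθ] with z hz
    exact (hd z hz).deriv
  refine (hdd.congr_of_eventuallyEq he).congr_deriv ?_
  rw [hG θ hθ]
  have hE := hJe θ hθ
  have hsc := Complex.sin_sq_add_cos_sq θ
  have hha : ha t * (1 - ha t) = 1 / 4 + (t : ℂ) ^ 2 := by
    unfold ha
    have := I_sq
    linear_combination -(t : ℂ) ^ 2 * this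
  rw [hha] at hE
  have hJ2e : J2 θ = ((1 / 4 + (t : ℂ) ^ 2) * Complex.sin θ ^ 2 + ν ^ 2) * J θ / Complex.sin θ ^ 2 -
      Complex.cos θ / Complex.sin θ * J1 θ := by
    field_simp
    linear_combination 4 * hE
  rw [hJ2e]
  generalize Complex.sin θ ^ (1 / 2 : ℂ) = Q
  generalize J θ = j
  generalize J1 θ = j1
  generalize c = cc
  generalize Complex.sin θ = S at *
  generalize Complex.cos θ = C at *
  field_simp
  linear_combination (cc * Q * j * 4) * hsc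

end Pool.Agent.JO.FM

namespace Pool.Agent.JO.FM

theorem Gs_ode : type_of% @Gs_ode_pr := @Gs_ode_pr

end Pool.Agent.JO.FM
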