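import Pool.Agent.Lib_helper45.JO.Defs2

/-! Project JO, part FM, block C3: Liouville-Green along a segment. -/

set_option autoImplicit false

namespace Pool.Agent.JO.FM

open Complex Filter Topology MeasureTheory Set
open UpperHalfPlane hiding I
open scoped MatrixGroups ComplexConjugate

theorem c3_exp (κ : ℂ) (τ : ℝ) : HasDerivAt (fun τ : ℝ => cexp (κ * τ)) (κ * cexp (κ * τ)) τ := by
  have h1 : HasDerivAt (fun τ : ℝ => κ * (τ : ℂ)) κ τ := by
    have := ((hasDerivAt_id τ).ofReal_comp.const_mul κ)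
    simpa using this
  have h2 := h1.cexp
  rwa [mul_comm] at h2

theorem c3_core {Y U q : ℝ → ℂ} {κ : ℂ} {M S : ℝ} (hκ : κ.re ≤ 0)
    (hY : ∀ σ ∈ Icc (0 : ℝ) 1, HasDerivAt Y (U σ) σ)
    (hU : ∀ σ ∈ Icc (0 : ℝ) 1, HasDerivAt U ((κ ^ 2 - q σ) * Y σ) σ)
    (hq : ∀ σ ∈ Icc (0 : ℝ) 1, ‖q σ‖ ≤ M) (hM : 0 ≤ M)
    (hS : ∀ σ ∈ Icc (0 : ℝ) 1, ‖cexp (κ * σ) * Y σ‖ ≤ S) :
    ∀ σ ∈ Icc (0 : ℝ) 1, ‖2 * κ * (cexp (κ * σ) * Y σ) -
      (cexp (2 * κ * σ) * (U 0 + κ * Y 0) - (U 0 - κ * Y 0))‖ ≤ 2 * (M * S) := by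
  intro σ hσ
  have hS0 : 0 ≤ S := (norm_nonneg _).trans (hS 0 ⟨le_rfl, zero_le_one⟩)
  have hMS : 0 ≤ M * S := mul_nonneg hM hS0
  -- the first function
  have hA : ∀ τ ∈ Icc (0 : ℝ) σ, HasDerivWithinAt (fun τ : ℝ => cexp (κ * τ) * (U τ - κ * Y τ))
      (-q τ * (cexp (κ * τ) * Y τ)) (Icc 0 σ) τ := by
    intro τ hτ
    have hτ1 : τ ∈ Icc (0 : ℝ) 1 := ⟨hτ.1, hτ.2.trans hσ.2⟩
    have h1 := (c3_exp κ τ).mul ((hU τ hτ1).sub ((hY τ hτ1).const_mul κ))
    refine (h1.congr_deriv ?_).hasDerivWithinAt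
    simp only [Pi.sub_apply]
    ring
  have hA2 := norm_image_sub_le_of_norm_deriv_le_segment' (C := M * S) hA (fun τ hτ => ?_) σ
    ⟨hσ.1, le_rfl⟩
  swap
  · have hτ1 : τ ∈ Icc (0 : ℝ) 1 := ⟨hτ.1, hτ.2.le.trans hσ.2⟩
    rw [norm_mul, norm_neg]
    exact mul_le_mul (hq τ hτ1) (hS τ hτ1) (norm_nonneg _) hM
  -- the second function
  have hW : ∀ τ ∈ Icc (0 : ℝ) σ, HasDerivWithinAt
      (fun τ : ℝ => cexp (2 * κ * σ) * (cexp (-κ * τ) * (U τ + κ * Y τ)))
      (-q τ * (cexp (2 * κ * (σ - τ)) * (cexp (κ * τ) * Y τ))) (Icc 0 σ) τ := by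
    intro τ hτ
    have hτ1 : τ ∈ Icc (0 : ℝ) 1 := ⟨hτ.1, hτ.2.trans hσ.2⟩
    have h1 := ((c3_exp (-κ) τ).mul ((hU τ hτ1).add ((hY τ hτ1).const_mul κ))).const_mul
      (cexp (2 * κ * σ))
    refine (h1.congr_deriv ?_).hasDerivWithinAt
    simp only [Pi.add_apply]
    have e1 : cexp (2 * κ * (σ - τ)) * cexp (κ * τ) = cexp (2 * κ * σ) * cexp (-κ * τ) := by
      rw [← Complex.exp_add, ← Complex.exp_add]
      congr 1
      ring
    linear_combination (q τ * Y τ) * e1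
  have hW2 := norm_image_sub_le_of_norm_deriv_le_segment' (C := M * S) hW (fun τ hτ => ?_) σ
    ⟨hσ.1, le_rfl⟩
  swap
  · have hτ1 : τ ∈ Icc (0 : ℝ) 1 := ⟨hτ.1, hτ.2.le.trans hσ.2⟩
    rw [norm_mul, norm_neg]
    refine mul_le_mul (hq τ hτ1) ?_ (norm_nonneg _) hM
    rw [norm_mul]
    refine (mul_le_of_le_one_left (norm_nonneg _) ?_).trans (hS τ hτ1)
    rw [Complex.norm_exp]
    refine Real.exp_le_one_iff.2 ?_
    have e : 2 * κ * ((σ : ℂ) - τ) = ((2 * (σ - τ) : ℝ) : ℂ) * κ := by push_cast; ring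
    rw [e, re_ofReal_mul]
    have : 0 ≤ σ - τ := by linarith [hτ.2]
    nlinarith
  have hle : M * S * (σ - 0) ≤ M * S := by
    have := hσ.2
    nlinarith
  have e2 : 2 * κ * (cexp (κ * σ) * Y σ) -
      (cexp (2 * κ * σ) * (U 0 + κ * Y 0) - (U 0 - κ * Y 0)) =
      (cexp (2 * κ * σ) * (cexp (-κ * σ) * (U σ + κ * Y σ)) -
        cexp (2 * κ * σ) * (cexp (-κ * (0 : ℝ)) * (U 0 + κ * Y 0))) -
      (cexp (κ * σ) * (U σ - κ * Y σ) - cexp (κ * (0 : ℝ)) * (U 0 - κ * Y 0)) := by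
    have e1 : cexp (2 * κ * σ) * cexp (-κ * σ) = cexp (κ * σ) := by
      rw [← Complex.exp_add]
      congr 1
      ring
    rw [ofReal_zero, mul_zero, mul_zero, Complex.exp_zero]
    linear_combination (-(U σ + κ * Y σ)) * e1
  rw [e2]
  refine (norm_sub_le _ _).trans ?_
  linarith [hA2.trans hle, hW2.trans hle]

/-- the crude bound -/
theorem c3_crude {Y U p : ℝ → ℂ} {K : ℝ} (hK : 1 ≤ K)
    (hY : ∀ σ ∈ Icc (0 : ℝ) 1, HasDerivAt Y (U σ) σ)
    (hU : ∀ σ ∈ Icc (0 : ℝ) 1, HasDerivAt U (p σ * Y σ) σ)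
    (hp : ∀ σ ∈ Icc (0 : ℝ) 1, ‖p σ‖ ≤ K) :
    ‖Y 1‖ ≤ (‖Y 0‖ + ‖U 0‖) * Real.exp K := by
  have h1 : ∀ σ ∈ Icc (0 : ℝ) 1, HasDerivAt (fun σ => (Y σ, U σ)) (U σ, p σ * Y σ) σ :=
    fun σ hσ => (hY σ hσ).prodMk (hU σ hσ)
  have h2 := norm_le_gronwallBound_of_norm_deriv_right_le (f := fun σ => (Y σ, U σ))
    (f' := fun σ => (U σ, p σ * Y σ)) (δ := ‖Y 0‖ + ‖U 0‖) (K := K) (ε := 0) (a := 0) (b := 1)
    (fun σ hσ => (h1 σ hσ).continuousAt.continuousWithinAt)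
    (fun σ hσ => (h1 σ (Ico_subset_Icc_self hσ)).hasDerivWithinAt) ?_ ?_ 1 ⟨zero_le_one, le_rfl⟩
  · rw [gronwallBound_ε0, sub_zero, mul_one] at h2
    exact (norm_fst_le (Y 1, U 1)).trans h2
  · rw [Prod.norm_def]
    exact max_le (le_add_of_nonneg_right (norm_nonneg _)) (le_add_of_nonneg_left (norm_nonneg _))
  · intro σ hσ
    have hσ' := Ico_subset_Icc_self hσ
    rw [add_zero, Prod.norm_def, Prod.norm_def]
    simp only
    refine max_le ?_ ?_
    · have h3 : ‖U σ‖ ≤ max ‖Y σ‖ ‖U σ‖ := le_max_right _ _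
      nlinarith [norm_nonneg (U σ)]
    · rw [norm_mul]
      exact mul_le_mul (hp σ hσ') (le_max_left _ _) (norm_nonneg _) (by linarith)

theorem c3_sin (x y : ℝ) : normSq (Complex.sin (x + y * I)) =
    Real.sin x ^ 2 + Real.sinh y ^ 2 := by
  have h : Complex.sin (x + y * I) = ((Real.sin x * Real.cosh y : ℝ) : ℂ) +
      ((Real.cos x * Real.sinh y : ℝ) : ℂ) * I := by
    rw [Complex.sin_add_mul_I]
    push_cast
    ring
  rw [h, normSq_add_mul_I]
  have h1 := Real.cosh_sq y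
  have h2 := Real.sin_sq_add_cos_sq x
  have h3 : (Real.sin x * Real.cosh y) ^ 2 + (Real.cos x * Real.sinh y) ^ 2 =
      Real.sin x ^ 2 * Real.cosh y ^ 2 + Real.cos x ^ 2 * Real.sinh y ^ 2 := by ring
  rw [h3, h1]
  linear_combination (Real.sinh y ^ 2) * h2

theorem lg_ode_pr {ev r R : ℝ} (hr : 0 < r) : ∃ C : ℝ, ∀ (t : ℝ) (y : ℂ → ℂ),
    DifferentiableOn ℂ y {θ | 0 < θ.re ∧ θ.re < Real.pi} →
    (∀ θ : ℂ, 0 < θ.re → θ.re < Real.pi →
      HasDerivAt (deriv y) ((t ^ 2 - ev / Complex.sin θ ^ 2) * y θ) θ) →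
    ∀ θ : ℂ, 0 < θ.re → θ.re ≤ 1 → r ≤ |θ.im| → |θ.im| ≤ R →
    (1 ≤ t → ‖cexp (t * (θ - (Real.pi / 2 : ℝ))) * y θ -
      (y (Real.pi / 2 : ℝ) - deriv y (Real.pi / 2 : ℝ) / t) / 2‖ ≤
        C / t * (‖y (Real.pi / 2 : ℝ)‖ + ‖deriv y (Real.pi / 2 : ℝ)‖ / t)) ∧
    (0 ≤ t → t ≤ 1 → ‖y θ‖ ≤ C * (‖y (Real.pi / 2 : ℝ)‖ + ‖deriv y (Real.pi / 2 : ℝ)‖)) := by
  have hpi := Real.pi_gt_three
  set D : ℝ := Real.pi / 2 + |R| + 1 with hD
  have hD1 : 1 ≤ D := by have := abs_nonneg R; linarith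
  set c0 : ℝ := min (r ^ 2 / 4) (1 / 2) with hc0
  have hc0p : 0 < c0 := lt_min (by positivity) (by norm_num)
  set M : ℝ := D ^ 2 * |ev| / c0 with hM
  have hM0 : 0 ≤ M := by positivity
  set T : ℝ := 4 * M + 1 with hT
  have hT1 : 1 ≤ T := by linarith
  set K : ℝ := D ^ 2 * T ^ 2 + M + 1 with hK
  have hK1 : 1 ≤ K := by
    have : 0 ≤ D ^ 2 * T ^ 2 := by positivity
    linarith
  set C1 : ℝ := D * Real.exp K with hC1
  have hC1p : 0 < C1 := by positivity
  refine ⟨C1 + (C1 * T + 1) * T + (1 + 4 * M), fun t y hyd hode θ h0 h1 h2 h3 => ?_⟩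
  -- the segment
  set d : ℂ := θ - (Real.pi / 2 : ℝ) with hd
  have hdre : d.re = θ.re - Real.pi / 2 := by rw [hd, sub_re, ofReal_re]
  have hdim : d.im = θ.im := by rw [hd, sub_im, ofReal_im, sub_zero]
  have hdre1 : d.re ≤ -(1 / 2) := by rw [hdre]; linarith
  have hdn : ‖d‖ ≤ D := by
    refine (Complex.norm_le_abs_re_add_abs_im d).trans ?_
    rw [hdim, abs_of_nonpos (by linarith), hdre, hD]
    have : R ≤ |R| := le_abs_self R
    linarith
  have hdn2 : 1 / 2 ≤ ‖d‖ := by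
    have : |d.re| ≤ ‖d‖ := Complex.abs_re_le_norm d
    rw [abs_of_nonpos (by linarith)] at this
    linarith
  set γ : ℝ → ℂ := fun σ => (Real.pi / 2 : ℝ) + (σ : ℂ) * d with hγ
  have hγre : ∀ σ : ℝ, (γ σ).re = Real.pi / 2 + σ * d.re := by
    intro σ
    simp only [hγ]
    rw [add_re, ofReal_re, re_ofReal_mul]
  have hγim : ∀ σ : ℝ, (γ σ).im = σ * θ.im := by
    intro σ
    simp only [hγ]
    rw [add_im, ofReal_im, im_ofReal_mul, hdim, zero_add]
  have hγ0 : γ 0 = (Real.pi / 2 : ℝ) := by simp [hγ]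
  have hγ1 : γ 1 = θ := by
    simp only [hγ, ofReal_one, one_mul, hd]
    ring
  have hstrip : ∀ σ ∈ Icc (0 : ℝ) 1, 0 < (γ σ).re ∧ (γ σ).re < Real.pi := by
    intro σ hσ
    rw [hγre, hdre]
    constructor
    · nlinarith [hσ.1, hσ.2]
    · nlinarith [hσ.1, hσ.2]
  have hsin : ∀ σ ∈ Icc (0 : ℝ) 1, c0 ≤ ‖Complex.sin (γ σ)‖ ^ 2 := by
    intro σ hσ
    have e : γ σ = ((γ σ).re : ℂ) + ((γ σ).im : ℂ) * I := (Complex.re_add_im _).symm
    rw [← normSq_eq_norm_sq, e, c3_sin]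
    rcases le_total σ (1 / 2) with h | h
    · have h4 : Real.pi / 4 ≤ (γ σ).re := by
        rw [hγre, hdre]
        nlinarith [hσ.1, hσ.2]
      have h5 : (γ σ).re ≤ Real.pi / 2 := by
        rw [hγre]
        nlinarith [hσ.1, hσ.2]
      have h6 : Real.sin (Real.pi / 4) ≤ Real.sin (γ σ).re :=
        Real.sin_le_sin_of_le_of_le_pi_div_two (by linarith) h5 h4
      rw [Real.sin_pi_div_four] at h6
      have h7 : (Real.sqrt 2 / 2) ^ 2 ≤ Real.sin (γ σ).re ^ 2 :=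
        pow_le_pow_left₀ (by positivity) h6 2
      have h8 : (Real.sqrt 2 / 2) ^ 2 = 1 / 2 := by
        rw [div_pow, Real.sq_sqrt (by norm_num)]
        norm_num
      have h9 : c0 ≤ 1 / 2 := min_le_right _ _
      nlinarith [sq_nonneg (Real.sinh (γ σ).im)]
    · have h4 : r / 2 ≤ |(γ σ).im| := by
        rw [hγim, abs_mul, abs_of_nonneg hσ.1]
        nlinarith [abs_nonneg θ.im]
      have h5 : |(γ σ).im| ^ 2 ≤ Real.sinh (γ σ).im ^ 2 := by
        have h6 : |(γ σ).im| ≤ Real.sinh |(γ σ).im| := Real.self_le_sinh_iff.2 (abs_nonneg _)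
        have h7 : Real.sinh |(γ σ).im| ^ 2 = Real.sinh (γ σ).im ^ 2 := by
          rcases abs_cases (γ σ).im with ⟨h, _⟩ | ⟨h, _⟩
          · rw [h]
          · rw [h, Real.sinh_neg, neg_sq]
        rw [← h7]
        exact pow_le_pow_left₀ (abs_nonneg _) h6 2
      have h9 : c0 ≤ r ^ 2 / 4 := min_le_left _ _
      have h10 : (r / 2) ^ 2 ≤ |(γ σ).im| ^ 2 := pow_le_pow_left₀ (by positivity) h4 2
      nlinarith [sq_nonneg (Real.sin (γ σ).re)]
  set q : ℝ → ℂ := fun σ => d ^ 2 * (ev / Complex.sin (γ σ) ^ 2) with hq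
  have hqb : ∀ σ ∈ Icc (0 : ℝ) 1, ‖q σ‖ ≤ M := by
    intro σ hσ
    have h4 := hsin σ hσ
    simp only [hq]
    rw [norm_mul, norm_div, norm_pow, norm_pow, norm_real, Real.norm_eq_abs, hM, ← mul_div_assoc]
    have h5 : ‖d‖ ^ 2 ≤ D ^ 2 := pow_le_pow_left₀ (norm_nonneg _) hdn 2
    exact div_le_div₀ (by positivity) (mul_le_mul_of_nonneg_right h5 (abs_nonneg _)) hc0p h4
  have hopen : IsOpen {θ : ℂ | 0 < θ.re ∧ θ.re < Real.pi} :=
    (isOpen_lt continuous_const Complex.continuous_re).inter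
      (isOpen_lt Complex.continuous_re continuous_const)
  have hγd : ∀ σ : ℝ, HasDerivAt γ d σ := by
    intro σ
    have := ((hasDerivAt_id σ).ofReal_comp.mul_const d).const_add (((Real.pi / 2 : ℝ)) : ℂ)
    rw [ofReal_one, one_mul] at this
    exact this
  set Y : ℝ → ℂ := fun σ => y (γ σ) with hY
  set U : ℝ → ℂ := fun σ => d * deriv y (γ σ) with hU
  have hYd : ∀ σ ∈ Icc (0 : ℝ) 1, HasDerivAt Y (U σ) σ := by
    intro σ hσ
    have h4 : HasDerivAt y (deriv y (γ σ)) (γ σ) :=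
      ((hyd (γ σ) (hstrip σ hσ)).differentiableAt (hopen.mem_nhds (hstrip σ hσ))).hasDerivAt
    have h5 := h4.comp σ (hγd σ)
    refine h5.congr_deriv ?_
    simp only [hU]
    ring
  have hUd : ∀ σ ∈ Icc (0 : ℝ) 1, HasDerivAt U (((t * d) ^ 2 - q σ) * Y σ) σ := by
    intro σ hσ
    have h4 := hode (γ σ) (hstrip σ hσ).1 (hstrip σ hσ).2
    have h5 := (h4.comp σ (hγd σ)).const_mul d
    refine h5.congr_deriv ?_
    simp only [hq, hY]
    ring
  have hY0 : Y 0 = y (Real.pi / 2 : ℝ) := by simp only [hY, hγ0]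
  have hU0 : U 0 = d * deriv y (Real.pi / 2 : ℝ) := by simp only [hU, hγ0]
  have hY1 : Y 1 = y θ := by simp only [hY, hγ1]
  set y0 : ℂ := y (Real.pi / 2 : ℝ) with hy0
  set y1 : ℂ := deriv y (Real.pi / 2 : ℝ) with hy1
  -- the crude bound for `0 ≤ t ≤ T`
  have hcrude : 0 ≤ t → t ≤ T → ‖y θ‖ ≤ C1 * (‖y0‖ + ‖y1‖) := by
    intro ht0 htT
    have h4 := c3_crude (p := fun σ => (t * d) ^ 2 - q σ) hK1 hYd hUd ?_
    · rw [hY0, hU0, hY1, norm_mul] at h4
      refine h4.trans ?_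
      have h5 : ‖y0‖ + ‖d‖ * ‖y1‖ ≤ D * (‖y0‖ + ‖y1‖) := by
        have h6 : ‖d‖ * ‖y1‖ ≤ D * ‖y1‖ := mul_le_mul_of_nonneg_right hdn (norm_nonneg _)
        nlinarith [norm_nonneg y0]
      calc (‖y0‖ + ‖d‖ * ‖y1‖) * Real.exp K ≤ (D * (‖y0‖ + ‖y1‖)) * Real.exp K :=
            mul_le_mul_of_nonneg_right h5 (Real.exp_pos _).le
        _ = C1 * (‖y0‖ + ‖y1‖) := by rw [hC1]; ring
    · intro σ hσ
      refine (norm_sub_le _ _).trans ?_
      have h5 : ‖(t * d) ^ 2‖ ≤ D ^ 2 * T ^ 2 := by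
        rw [norm_pow, norm_mul, norm_real, Real.norm_of_nonneg ht0, mul_pow, mul_comm]
        exact mul_le_mul (pow_le_pow_left₀ (norm_nonneg _) hdn 2) (pow_le_pow_left₀ ht0 htT 2)
          (by positivity) (by positivity)
      have h6 := hqb σ hσ
      rw [hK]
      linarith
  have hpos1 : 0 ≤ (C1 * T + 1) * T := by positivity
  constructor
  · intro ht
    have ht0 : 0 < t := by linarith
    set K0 : ℝ := ‖y0‖ + ‖y1‖ / t with hK0
    have hK00 : 0 ≤ K0 := by positivity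
    have hmain : ‖(y0 - y1 / t) / 2‖ ≤ K0 / 2 := by
      rw [norm_div]
      have h4 : ‖(2 : ℂ)‖ = 2 := by norm_num
      rw [h4]
      refine div_le_div_of_nonneg_right ?_ (by norm_num)
      refine (norm_sub_le _ _).trans ?_
      rw [norm_div, norm_real, Real.norm_of_nonneg ht0.le]
    rcases le_total t T with htT | htT
    · -- small `t`
      have h4 := hcrude ht0.le htT
      have h5 : ‖cexp (t * d) * y θ‖ ≤ C1 * T * K0 := by
        rw [norm_mul, Complex.norm_exp]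
        have h6 : Real.exp (t * d).re ≤ 1 := by
          refine Real.exp_le_one_iff.2 ?_
          rw [re_ofReal_mul]
          nlinarith
        have h7 : ‖y0‖ + ‖y1‖ ≤ T * K0 := by
          have h8 : ‖y1‖ = t * (‖y1‖ / t) := by field_simp
          rw [hK0]
          have h9 : 0 ≤ ‖y1‖ / t := by positivity
          nlinarith [norm_nonneg y0]
        calc Real.exp (t * d).re * ‖y θ‖ ≤ 1 * ‖y θ‖ :=
              mul_le_mul_of_nonneg_right h6 (norm_nonneg _)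
          _ ≤ C1 * (‖y0‖ + ‖y1‖) := by rw [one_mul]; exact h4
          _ ≤ C1 * (T * K0) := mul_le_mul_of_nonneg_left h7 hC1p.le
          _ = C1 * T * K0 := by ring
      refine (norm_sub_le _ _).trans ?_
      have h6 : ‖cexp (t * d) * y θ‖ + ‖(y0 - y1 / t) / 2‖ ≤ (C1 * T + 1) * K0 := by
        linarith
      refine h6.trans ?_
      rw [div_mul_eq_mul_div, le_div_iff₀ ht0]
      have h7 : (C1 * T + 1) * K0 * t ≤ (C1 * T + 1) * T * K0 := by
        have : 0 ≤ (C1 * T + 1) * K0 := by positivity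
        nlinarith
      have h8 : 0 ≤ (C1 + (1 + 4 * M)) * K0 := by positivity
      nlinarith
    · -- large `t`
      have hκre : ((t : ℂ) * d).re ≤ 0 := by
        rw [re_ofReal_mul]
        nlinarith
      have hκn : ‖(t : ℂ) * d‖ = t * ‖d‖ := by
        rw [norm_mul, norm_real, Real.norm_of_nonneg ht0.le]
      have hcont : ContinuousOn (fun σ : ℝ => ‖cexp (t * d * σ) * Y σ‖) (Icc 0 1) := by
        refine ContinuousOn.norm (ContinuousOn.mul ?_ ?_)
        · exact (by fun_prop : Continuous (fun σ : ℝ => cexp (t * d * σ))).continuousOn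
        · exact fun σ hσ => (hYd σ hσ).continuousAt.continuousWithinAt
      obtain ⟨σ₀, hσ₀, hmax⟩ := isCompact_Icc.exists_isMaxOn (nonempty_Icc.2 zero_le_one) hcont
      set S : ℝ := ‖cexp (t * d * σ₀) * Y σ₀‖ with hS
      have hS0 : 0 ≤ S := norm_nonneg _
      have hSb : ∀ σ ∈ Icc (0 : ℝ) 1, ‖cexp (t * d * σ) * Y σ‖ ≤ S := fun σ hσ => hmax hσ
      have hcore := c3_core hκre hYd hUd hqb hM0 hSb
      have hA0 : ‖U 0 - t * d * Y 0‖ ≤ t * ‖d‖ * K0 := by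
        rw [hU0, hY0]
        have : d * y1 - t * d * y0 = (t * d) * (y1 / t - y0) := by
          have : (t : ℂ) ≠ 0 := ofReal_ne_zero.2 ht0.ne'
          field_simp
        rw [this, norm_mul, hκn]
        refine mul_le_mul_of_nonneg_left ?_ (by positivity)
        refine (norm_sub_le _ _).trans ?_
        rw [norm_div, norm_real, Real.norm_of_nonneg ht0.le, hK0, add_comm]
      have hB0 : ‖U 0 + t * d * Y 0‖ ≤ t * ‖d‖ * K0 := by
        rw [hU0, hY0]
        have : d * y1 + t * d * y0 = (t * d) * (y1 / t + y0) := by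
          have : (t : ℂ) ≠ 0 := ofReal_ne_zero.2 ht0.ne'
          field_simp
        rw [this, norm_mul, hκn]
        refine mul_le_mul_of_nonneg_left ?_ (by positivity)
        refine (norm_add_le _ _).trans ?_
        rw [norm_div, norm_real, Real.norm_of_nonneg ht0.le, hK0, add_comm]
      have htd : 0 < t * ‖d‖ := by positivity
      have hSle : S ≤ 2 * K0 := by
        have h4 := hcore σ₀ hσ₀
        have h5 : ‖2 * ((t : ℂ) * d) * (cexp (t * d * σ₀) * Y σ₀)‖ = 2 * (t * ‖d‖) * S := by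
          rw [norm_mul, norm_mul, hκn, ← hS]
          norm_num
        have h6 : ‖cexp (2 * (t * d) * σ₀) * (U 0 + t * d * Y 0) - (U 0 - t * d * Y 0)‖ ≤
            2 * (t * ‖d‖ * K0) := by
          refine (norm_sub_le _ _).trans ?_
          rw [norm_mul]
          have h7 : ‖cexp (2 * (t * d) * σ₀)‖ ≤ 1 := by
            rw [Complex.norm_exp]
            refine Real.exp_le_one_iff.2 ?_
            have e : 2 * ((t : ℂ) * d) * (σ₀ : ℂ) = ((2 * σ₀ : ℝ) : ℂ) * (t * d) := by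
              push_cast; ring
            rw [e, re_ofReal_mul]
            nlinarith [hσ₀.1]
          have h8 : ‖cexp (2 * (t * d) * σ₀)‖ * ‖U 0 + t * d * Y 0‖ ≤ t * ‖d‖ * K0 :=
            (mul_le_of_le_one_left (norm_nonneg _) h7).trans hB0
          linarith
        have h7 : 2 * (t * ‖d‖) * S ≤ 2 * (M * S) + 2 * (t * ‖d‖ * K0) := by
          rw [← h5]
          have h8 : ‖2 * ((t : ℂ) * d) * (cexp (t * d * σ₀) * Y σ₀)‖ ≤
              ‖2 * ((t : ℂ) * d) * (cexp (t * d * σ₀) * Y σ₀) -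
                (cexp (2 * (t * d) * σ₀) * (U 0 + t * d * Y 0) - (U 0 - t * d * Y 0))‖ +
              ‖cexp (2 * (t * d) * σ₀) * (U 0 + t * d * Y 0) - (U 0 - t * d * Y 0)‖ := by
            have := norm_add_le (2 * ((t : ℂ) * d) * (cexp (t * d * σ₀) * Y σ₀) -
                (cexp (2 * (t * d) * σ₀) * (U 0 + t * d * Y 0) - (U 0 - t * d * Y 0)))
                (cexp (2 * (t * d) * σ₀) * (U 0 + t * d * Y 0) - (U 0 - t * d * Y 0))
            rwa [sub_add_cancel] at this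
          linarith
        have h8 : 2 * M * S ≤ (t * ‖d‖) * S := by
          refine mul_le_mul_of_nonneg_right ?_ hS0
          have : 4 * M ≤ t := by linarith
          nlinarith
        have h9 : (t * ‖d‖) * S ≤ (t * ‖d‖) * (2 * K0) := by linarith
        exact le_of_mul_le_mul_left h9 htd
      have h4 := hcore 1 ⟨zero_le_one, le_rfl⟩
      rw [ofReal_one, mul_one, mul_one, hY1] at h4
      have htne : (t : ℂ) ≠ 0 := ofReal_ne_zero.2 ht0.ne'
      have hdne : d ≠ 0 := by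
        intro h
        rw [h, norm_zero] at hdn2
        norm_num at hdn2
      have hkey : cexp (t * d) * y θ - (y0 - y1 / t) / 2 =
          ((2 * ((t : ℂ) * d) * (cexp (t * d) * y θ) -
            (cexp (2 * (t * d)) * (U 0 + t * d * Y 0) - (U 0 - t * d * Y 0))) +
              cexp (2 * (t * d)) * (U 0 + t * d * Y 0)) / (2 * (t * d)) := by
        rw [hU0, hY0]
        field_simp
        ring
      rw [hkey, norm_div]
      have h5 : ‖2 * ((t : ℂ) * d)‖ = 2 * (t * ‖d‖) := by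
        rw [norm_mul, hκn]
        norm_num
      rw [h5, div_le_iff₀ (by positivity)]
      have h6 : ‖cexp (2 * (t * d)) * (U 0 + t * d * Y 0)‖ ≤ ‖d‖ * K0 := by
        rw [norm_mul]
        have h7 : ‖cexp (2 * (t * d))‖ ≤ 1 / t := by
          rw [Complex.norm_exp]
          have e : 2 * ((t : ℂ) * d) = ((2 * t : ℝ) : ℂ) * d := by push_cast; ring
          rw [e, re_ofReal_mul]
          have h8 : 2 * t * d.re ≤ -t := by nlinarith
          refine (Real.exp_le_exp.2 h8).trans ?_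
          rw [Real.exp_neg, ← one_div]
          refine one_div_le_one_div_of_le ht0 ?_
          have := Real.add_one_le_exp t
          linarith
        calc ‖cexp (2 * (t * d))‖ * ‖U 0 + t * d * Y 0‖ ≤ 1 / t * (t * ‖d‖ * K0) :=
              mul_le_mul h7 hB0 (norm_nonneg _) (by positivity)
          _ = ‖d‖ * K0 := by field_simp
      refine (norm_add_le _ _).trans ?_
      have h7 : 2 * (M * S) ≤ 4 * M * K0 := by nlinarith
      have h8 : (C1 + (C1 * T + 1) * T + (1 + 4 * M)) / t * K0 * (2 * (t * ‖d‖)) =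
          2 * ‖d‖ * K0 * (C1 + (C1 * T + 1) * T + (1 + 4 * M)) := by
        field_simp
      rw [h8]
      have h9 : 0 ≤ ‖d‖ * K0 := by positivity
      have h10 : 4 * M * K0 ≤ 2 * ‖d‖ * K0 * (4 * M) := by
        have : 0 ≤ 4 * M * K0 := by positivity
        nlinarith
      have h11 : 0 ≤ 2 * ‖d‖ * K0 * (C1 + (C1 * T + 1) * T) := by positivity
      nlinarith
  · intro ht0 ht1
    refine (hcrude ht0 (by linarith)).trans ?_
    refine mul_le_mul_of_nonneg_right ?_ (by positivity)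
    linarith


end Pool.Agent.JO.FM

namespace Pool.Agent.JO.FM

theorem lg_ode : type_of% @lg_ode_pr := @lg_ode_pr

end Pool.Agent.JO.FM
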