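import Pool.Agent.Lib_helper45.JO.Defs2
import Pool.Agent.Lib_helper45.JOM.K4
import Pool.Agent.Lib_helper45.JOM.K5
import Pool.Agent.Lib_helper45.JOM.M3

/-!
# Project JO, part FM, block K6: Stirling at the centre
-/

set_option autoImplicit false

namespace Pool.Agent.JO.FM

open Complex Filter Topology MeasureTheory Set
open UpperHalfPlane hiding I
open scoped MatrixGroups ComplexConjugate

/-- `1 + O(t^{-1/2})` -/
def k6_ap (u : ℝ → ℝ) : Prop :=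
  (fun t : ℝ => u t - 1) =O[atTop] fun t : ℝ => t ^ (-(1 / 2 : ℝ))

theorem k6_small : Tendsto (fun t : ℝ => t ^ (-(1 / 2 : ℝ))) atTop (𝓝 0) :=
  tendsto_rpow_neg_atTop (by norm_num)

theorem k6_tendsto {u : ℝ → ℝ} (h : k6_ap u) : Tendsto u atTop (𝓝 1) := by
  have h1 : Tendsto (fun t : ℝ => u t - 1) atTop (𝓝 0) := h.trans_tendsto k6_small
  have h2 := h1.add_const 1
  simpa using h2

theorem k6_bdd {u : ℝ → ℝ} (h : k6_ap u) : u =O[atTop] fun _ : ℝ => (1 : ℝ) :=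
  (k6_tendsto h).isBigO_one ℝ

theorem k6_mul {u v : ℝ → ℝ} (hu : k6_ap u) (hv : k6_ap v) : k6_ap (fun t => u t * v t) := by
  have h1 : (fun t : ℝ => (u t - 1) * v t) =O[atTop] fun t : ℝ => t ^ (-(1 / 2 : ℝ)) := by
    simpa using Asymptotics.IsBigO.mul hu (k6_bdd hv)
  refine (h1.add hv).congr_left fun t => ?_
  ring

theorem k6_inv {u : ℝ → ℝ} (hu : k6_ap u) : k6_ap (fun t => (u t)⁻¹) := by
  have h1 : Tendsto (fun t => (u t)⁻¹) atTop (𝓝 1) := by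
    simpa using (k6_tendsto hu).inv₀ one_ne_zero
  have h2 : (fun t : ℝ => -(u t - 1) * (u t)⁻¹) =O[atTop] fun t : ℝ => t ^ (-(1 / 2 : ℝ)) := by
    simpa using Asymptotics.IsBigO.mul hu.neg_left (h1.isBigO_one ℝ)
  have h3 : ∀ᶠ t in atTop, u t ≠ 0 := (k6_tendsto hu).eventually_ne one_ne_zero
  refine h2.congr' ?_ EventuallyEq.rfl
  filter_upwards [h3] with t ht
  field_simp
  ring

theorem k6_sqrt {u : ℝ → ℝ} (hu : k6_ap u) : k6_ap (fun t => √(u t)) := by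
  have h3 : ∀ᶠ t in atTop, 0 < u t := (k6_tendsto hu).eventually (lt_mem_nhds one_pos)
  refine Asymptotics.IsBigO.trans ?_ hu
  refine Asymptotics.IsBigO.of_bound 1 ?_
  filter_upwards [h3] with t ht
  rw [one_mul, Real.norm_eq_abs, Real.norm_eq_abs]
  have h1 := Real.sq_sqrt ht.le
  have h2 := Real.sqrt_nonneg (u t)
  have h4 : u t - 1 = (√(u t) - 1) * (√(u t) + 1) := by linear_combination (-1 : ℝ) * h1
  rw [h4, abs_mul, abs_of_pos (by linarith : 0 < √(u t) + 1)]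
  nlinarith [abs_nonneg (√(u t) - 1)]

theorem k6_of_bound {u : ℝ → ℝ} {C : ℝ} (h : ∀ᶠ t in atTop, |u t - 1| ≤ C * t ^ (-(1 / 2 : ℝ))) :
    k6_ap u := by
  refine Asymptotics.IsBigO.of_bound C ?_
  filter_upwards [h, eventually_ge_atTop 0] with t ht ht0
  rw [Real.norm_eq_abs, Real.norm_eq_abs, abs_of_nonneg (Real.rpow_nonneg ht0 _)]
  exact ht

/-- from infinity to the half line -/
theorem k6_glob {g : ℝ → ℝ} (hc : ContinuousOn g (Ici 1))
    (h : g =O[atTop] fun t : ℝ => t ^ (-(1 / 2 : ℝ))) :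
    ∃ C : ℝ, ∀ t : ℝ, 1 ≤ t → |g t| ≤ C * t ^ (-(1 / 2 : ℝ)) := by
  obtain ⟨C, hC⟩ := h.bound
  obtain ⟨t₀, ht₀⟩ := eventually_atTop.1 hC
  obtain ⟨B, hB⟩ := (isCompact_Icc (a := (1 : ℝ)) (b := max t₀ 1)).exists_bound_of_continuousOn
    (hc.mono Icc_subset_Ici_self)
  have hB0 : 0 ≤ B := (norm_nonneg _).trans (hB 1 ⟨le_refl _, le_max_right _ _⟩)
  refine ⟨max C (B * (max t₀ 1) ^ (1 / 2 : ℝ)), fun t ht => ?_⟩
  have ht0 : 0 < t := by linarith
  have hp : 0 ≤ t ^ (-(1 / 2 : ℝ)) := Real.rpow_nonneg ht0.le _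
  rcases le_total t₀ t with h1 | h1
  · have h2 := ht₀ t h1
    rw [Real.norm_eq_abs, Real.norm_eq_abs, abs_of_nonneg hp] at h2
    exact h2.trans (mul_le_mul_of_nonneg_right (le_max_left _ _) hp)
  · have h2 := hB t ⟨ht, h1.trans (le_max_left _ _)⟩
    rw [Real.norm_eq_abs] at h2
    refine h2.trans (le_trans ?_ (mul_le_mul_of_nonneg_right (le_max_right _ _) hp))
    have h3 : 1 ≤ (max t₀ 1) ^ (1 / 2 : ℝ) * t ^ (-(1 / 2 : ℝ)) := by
      rw [Real.rpow_neg ht0.le, ← div_eq_mul_inv, one_le_div (Real.rpow_pos_of_pos ht0 _)]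
      exact Real.rpow_le_rpow ht0.le (h1.trans (le_max_left _ _)) (by norm_num)
    calc B = B * 1 := (mul_one B).symm
      _ ≤ B * ((max t₀ 1) ^ (1 / 2 : ℝ) * t ^ (-(1 / 2 : ℝ))) := mul_le_mul_of_nonneg_left h3 hB0
      _ = B * (max t₀ 1) ^ (1 / 2 : ℝ) * t ^ (-(1 / 2 : ℝ)) := by ring

theorem k6_ha (t : ℝ) : (ha t).re = 1 / 2 ∧ (ha t).im = t := by
  unfold ha
  constructor <;> simp

/-- the product of the Gamma values -/
theorem k6_gam {ν : ℂ} (h : GoodNu ν) : ∃ K : ℝ, 0 ≤ K ∧ ∀ t : ℝ, ∃ D : ℝ,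
    Real.sinh (Real.pi * t) ^ 2 ≤ D ∧ D ≤ Real.cosh (Real.pi * t) ^ 2 + K ∧
    ‖Gamma (ha t + ν) * Gamma (ha t - ν)‖ = Real.pi / √D := by
  rcases h.real_or with h1 | h1
  · refine ⟨0, le_refl _, fun t => ⟨‖Complex.sin (Real.pi * (ha t - ν))‖ ^ 2, ?_⟩⟩
    have h2 : conj (Gamma (ha t + ν)) = Gamma (1 - (ha t - ν)) := by
      rw [← Gamma_conj]
      congr 1
      unfold ha
      apply Complex.ext
      · simp; ring
      · simp [h1]
    have h3 : ‖Gamma (ha t + ν)‖ = ‖Gamma (1 - (ha t - ν))‖ := by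
      rw [← h2, RCLike.norm_conj]
    have h4 : ‖Gamma (ha t + ν) * Gamma (ha t - ν)‖ =
        Real.pi / ‖Complex.sin (Real.pi * (ha t - ν))‖ := by
      rw [norm_mul, h3, ← norm_mul, mul_comm, Gamma_mul_Gamma_one_sub, norm_div]
      simp [abs_of_pos Real.pi_pos]
    have h5 : (Real.pi * (ha t - ν) : ℂ) = ((Real.pi * (1 / 2 - ν.re) : ℝ) : ℂ) +
        ((Real.pi * t : ℝ) : ℂ) * I := by
      unfold ha
      apply Complex.ext
      · simp
      · simp [h1]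
    have h6 : ‖Complex.sin (Real.pi * (ha t - ν))‖ ^ 2 =
        Real.sin (Real.pi * (1 / 2 - ν.re)) ^ 2 + Real.sinh (Real.pi * t) ^ 2 := by
      rw [h5, Complex.sin_add_mul_I, ← Complex.normSq_eq_norm_sq, ← Complex.ofReal_sin,
        ← Complex.ofReal_cos, ← Complex.ofReal_sinh, ← Complex.ofReal_cosh,
        Complex.normSq_apply]
      simp only [Complex.add_re, Complex.add_im, Complex.mul_re, Complex.mul_im, Complex.ofReal_re,
        Complex.ofReal_im, Complex.I_re, Complex.I_im]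
      have e1 := Real.sin_sq_add_cos_sq (Real.pi * (1 / 2 - ν.re))
      have e2 := Real.cosh_sq (Real.pi * t)
      nlinarith [e1, e2]
    refine ⟨?_, ?_, ?_⟩
    · rw [h6]
      have := sq_nonneg (Real.sin (Real.pi * (1 / 2 - ν.re)))
      linarith
    · rw [h6, Real.cosh_sq]
      have := Real.sin_sq_le_one (Real.pi * (1 / 2 - ν.re))
      linarith
    · rw [h4, Real.sqrt_sq (norm_nonneg _)]
  · refine ⟨Real.sinh (Real.pi * ν.im) ^ 2, sq_nonneg _, fun t =>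
      ⟨Real.cosh (Real.pi * (t + ν.im)) * Real.cosh (Real.pi * (t - ν.im)), ?_⟩⟩
    have h2 : ha t + ν = ha (t + ν.im) := by
      unfold ha
      apply Complex.ext <;> simp [h1]
    have h3 : ha t - ν = ha (t - ν.im) := by
      unfold ha
      apply Complex.ext <;> simp [h1]
    have h4 : Real.cosh (Real.pi * (t + ν.im)) * Real.cosh (Real.pi * (t - ν.im)) =
        Real.cosh (Real.pi * t) ^ 2 + Real.sinh (Real.pi * ν.im) ^ 2 := by
      rw [mul_add, mul_sub, Real.cosh_add, Real.cosh_sub]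
      have e1 := Real.cosh_sq (Real.pi * t)
      have e2 := Real.cosh_sq (Real.pi * ν.im)
      have e3 : (Real.cosh (Real.pi * t) * Real.cosh (Real.pi * ν.im) +
          Real.sinh (Real.pi * t) * Real.sinh (Real.pi * ν.im)) *
          (Real.cosh (Real.pi * t) * Real.cosh (Real.pi * ν.im) -
          Real.sinh (Real.pi * t) * Real.sinh (Real.pi * ν.im)) =
          Real.cosh (Real.pi * t) ^ 2 * Real.cosh (Real.pi * ν.im) ^ 2 -
          Real.sinh (Real.pi * t) ^ 2 * Real.sinh (Real.pi * ν.im) ^ 2 := by ring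
      rw [e3, e1, e2]
      ring
    refine ⟨?_, ?_, ?_⟩
    · rw [h4, Real.cosh_sq]
      have := sq_nonneg (Real.sinh (Real.pi * ν.im))
      linarith
    · rw [h4]
    · have h5 : ‖Gamma (ha t + ν) * Gamma (ha t - ν)‖ ^ 2 = (Real.pi / √(Real.cosh (Real.pi *
          (t + ν.im)) * Real.cosh (Real.pi * (t - ν.im)))) ^ 2 := by
        rw [norm_mul, mul_pow, h2, h3, Gamma_half_sq, Gamma_half_sq, div_pow, Real.sq_sqrt
          (mul_nonneg (Real.cosh_pos _).le (Real.cosh_pos _).le)]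
        have e1 := (Real.cosh_pos (Real.pi * (t + ν.im))).ne'
        have e2 := (Real.cosh_pos (Real.pi * (t - ν.im))).ne'
        field_simp
      exact (sq_eq_sq₀ (norm_nonneg _) (by positivity)).1 h5

/-- the first factor -/
theorem k6_q {D : ℝ → ℝ} {K : ℝ} (hK : 0 ≤ K) (h1 : ∀ t, Real.sinh (Real.pi * t) ^ 2 ≤ D t)
    (h2 : ∀ t, D t ≤ Real.cosh (Real.pi * t) ^ 2 + K) :
    k6_ap (fun t => 2 * Real.exp (-(Real.pi * t)) * √(D t)) := by
  have h3 : k6_ap (fun t => 4 * Real.exp (-(Real.pi * t)) ^ 2 * D t) := by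
    refine k6_of_bound (C := 3 + 4 * K) ?_
    filter_upwards [eventually_ge_atTop 1] with t ht
    set e := Real.exp (-(Real.pi * t)) with he
    have he0 : 0 < e := Real.exp_pos _
    have he1 : e ≤ 1 := by
      rw [he, Real.exp_le_one_iff]
      have := Real.pi_pos
      nlinarith
    have hE : Real.exp (Real.pi * t) = e⁻¹ := by
      rw [he, Real.exp_neg, inv_inv]
    have hs : 4 * e ^ 2 * Real.sinh (Real.pi * t) ^ 2 = (1 - e ^ 2) ^ 2 := by
      rw [Real.sinh_eq, hE, ← he]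
      field_simp
      ring
    have hc : 4 * e ^ 2 * Real.cosh (Real.pi * t) ^ 2 = (1 + e ^ 2) ^ 2 := by
      rw [Real.cosh_eq, hE, ← he]
      field_simp
      ring
    have a1 := mul_le_mul_of_nonneg_left (h1 t) (by positivity : 0 ≤ 4 * e ^ 2)
    have a2 := mul_le_mul_of_nonneg_left (h2 t) (by positivity : 0 ≤ 4 * e ^ 2)
    rw [hs] at a1
    rw [mul_add, hc] at a2
    have he2 : e ^ 2 ≤ t ^ (-(1 / 2 : ℝ)) := by
      have b1 : e ≤ t⁻¹ := by
        rw [he, Real.exp_neg]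
        apply inv_anti₀ (by linarith)
        have := Real.add_one_le_exp (Real.pi * t)
        have := Real.pi_gt_three
        nlinarith
      have b2 : t⁻¹ ≤ t ^ (-(1 / 2 : ℝ)) := by
        rw [← Real.rpow_neg_one]
        exact Real.rpow_le_rpow_of_exponent_le ht (by norm_num)
      calc e ^ 2 ≤ e := by nlinarith
        _ ≤ _ := b1.trans b2
    have he4 : e ^ 4 ≤ e ^ 2 := pow_le_pow_of_le_one he0.le he1 (by norm_num)
    have hmain : |4 * e ^ 2 * D t - 1| ≤ (3 + 4 * K) * e ^ 2 := by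
      rw [abs_le]
      have he2p : 0 ≤ e ^ 2 := by positivity
      have hKe : 0 ≤ K * e ^ 2 := by positivity
      constructor <;> nlinarith
    exact hmain.trans (mul_le_mul_of_nonneg_left he2 (by positivity))
  have h4 := k6_sqrt h3
  refine h4.congr_left fun t => ?_
  show √(4 * Real.exp (-(Real.pi * t)) ^ 2 * D t) - 1 =
    2 * Real.exp (-(Real.pi * t)) * √(D t) - 1
  have e1 : 4 * Real.exp (-(Real.pi * t)) ^ 2 * D t = (2 * Real.exp (-(Real.pi * t))) ^ 2 * D t := by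
    ring
  rw [e1, Real.sqrt_mul (sq_nonneg _), Real.sqrt_sq (by positivity)]

/-- one ratio of Gamma values -/
theorem k6_ratio {w : ℂ} (h0 : -(1 / 2) ≤ w.re) (h1 : w.re ≤ 2) :
    k6_ap (fun t : ℝ => ‖Gamma (w + (t / 2 : ℝ) * I + 1 / 2) / Gamma (w + (t / 2 : ℝ) * I)‖ /
      √(t / 2)) := by
  obtain ⟨C, hC⟩ := Gamma_ratio
  -- the first factor
  have a1 : k6_ap (fun t : ℝ => ‖Gamma (w + (t / 2 : ℝ) * I + 1 / 2) /
      (Gamma (w + (t / 2 : ℝ) * I) * (w + (t / 2 : ℝ) * I) ^ (1 / 2 : ℂ))‖) := by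
    refine k6_of_bound (C := |C| * 2) ?_
    filter_upwards [eventually_ge_atTop (4 * (|w.im| + 1))] with t ht
    have hw := abs_nonneg w.im
    have hw2 := neg_abs_le w.im
    have him : (w + (t / 2 : ℝ) * I).im = w.im + t / 2 := by simp
    have hre : (w + (t / 2 : ℝ) * I).re = w.re := by simp
    have h2 := hC (w + (t / 2 : ℝ) * I) (by rw [hre]; exact h0) (by rw [hre]; exact h1)
      (by rw [him]; linarith)
    have h3 := abs_norm_sub_norm_le (Gamma (w + (t / 2 : ℝ) * I + 1 / 2) /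
      (Gamma (w + (t / 2 : ℝ) * I) * (w + (t / 2 : ℝ) * I) ^ (1 / 2 : ℂ))) 1
    rw [norm_one] at h3
    refine h3.trans (h2.trans ?_)
    rw [him]
    have ht0 : 0 < t := by linarith
    have h4 : t / 4 ≤ w.im + t / 2 := by linarith
    have h5 : (w.im + t / 2) ^ (-(1 / 2 : ℝ)) ≤ (t / 4) ^ (-(1 / 2 : ℝ)) :=
      Real.rpow_le_rpow_of_nonpos (by positivity) h4 (by norm_num)
    have h6 : (t / 4) ^ (-(1 / 2 : ℝ)) = 2 * t ^ (-(1 / 2 : ℝ)) := by
      rw [Real.div_rpow ht0.le (by norm_num)]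
      have : (4 : ℝ) ^ (-(1 / 2 : ℝ)) = 1 / 2 := by
        rw [Real.rpow_neg (by norm_num), show (4 : ℝ) = 2 ^ (2 : ℝ) by norm_num,
          ← Real.rpow_mul (by norm_num)]
        norm_num
      rw [this]
      ring
    calc C * (w.im + t / 2) ^ (-(1 / 2 : ℝ)) ≤ |C| * (w.im + t / 2) ^ (-(1 / 2 : ℝ)) :=
          mul_le_mul_of_nonneg_right (le_abs_self C) (Real.rpow_nonneg (by linarith) _)
      _ ≤ |C| * (2 * t ^ (-(1 / 2 : ℝ))) := by
          rw [← h6]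
          exact mul_le_mul_of_nonneg_left h5 (abs_nonneg C)
      _ = |C| * 2 * t ^ (-(1 / 2 : ℝ)) := by ring
  -- the second factor
  have a2 : k6_ap (fun t : ℝ => ‖w + (t / 2 : ℝ) * I‖ / (t / 2)) := by
    refine k6_of_bound (C := 2 * ‖w‖) ?_
    filter_upwards [eventually_ge_atTop 1] with t ht
    have ht0 : 0 < t / 2 := by linarith
    have h3 := abs_norm_sub_norm_le (w + (t / 2 : ℝ) * I) ((t / 2 : ℝ) * I)
    have h4 : ‖((t / 2 : ℝ) : ℂ) * I‖ = t / 2 := by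
      rw [norm_mul, Complex.norm_I, mul_one, Complex.norm_real, Real.norm_eq_abs,
        abs_of_pos ht0]
    rw [add_sub_cancel_right, h4] at h3
    have h5 : ‖w + (t / 2 : ℝ) * I‖ / (t / 2) - 1 = (‖w + (t / 2 : ℝ) * I‖ - t / 2) / (t / 2) := by
      field_simp
    rw [h5, abs_div, abs_of_pos ht0, div_le_iff₀ ht0]
    have h6 : 1 ≤ t ^ (-(1 / 2 : ℝ)) * t := by
      have : t ^ (-(1 / 2 : ℝ)) * t = t ^ (1 / 2 : ℝ) := by
        conv_lhs => rw [← Real.rpow_one t, ← Real.rpow_mul (by linarith), ← Real.rpow_add (by linarith)]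
        norm_num
      rw [this]
      exact Real.one_le_rpow ht (by norm_num)
    calc |‖w + (t / 2 : ℝ) * I‖ - t / 2| ≤ ‖w‖ * 1 := by rw [mul_one]; exact h3
      _ ≤ ‖w‖ * (t ^ (-(1 / 2 : ℝ)) * t) := mul_le_mul_of_nonneg_left h6 (norm_nonneg _)
      _ = 2 * ‖w‖ * t ^ (-(1 / 2 : ℝ)) * (t / 2) := by ring
  have a3 := k6_mul a1 (k6_sqrt a2)
  refine a3.congr' ?_ EventuallyEq.rfl
  filter_upwards [eventually_ge_atTop (4 * (|w.im| + 1))] with t ht
  show _ * √_ - 1 = _ - 1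
  congr 1
  have hw := abs_nonneg w.im
  have hw2 := neg_abs_le w.im
  set z : ℂ := w + (t / 2 : ℝ) * I with hz
  have him : z.im = w.im + t / 2 := by simp [hz]
  have hz0 : z ≠ 0 := by
    intro h
    rw [h] at him
    simp at him
    linarith
  have ht2 : 0 < t / 2 := by linarith
  have hs : √(t / 2) ≠ 0 := (Real.sqrt_pos.2 ht2).ne'
  have hzn : √‖z‖ ≠ 0 := (Real.sqrt_pos.2 (norm_pos_iff.2 hz0)).ne'
  have hn : ‖z ^ (1 / 2 : ℂ)‖ = √‖z‖ := by
    rw [Real.sqrt_eq_rpow, Complex.norm_cpow_of_ne_zero hz0]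
    simp
  rw [norm_div, norm_mul, hn, Real.sqrt_div (norm_nonneg _), norm_div]
  field_simp

/-- the Gamma products -/
noncomputable def k6_E (ν : ℂ) (t : ℝ) : ℝ :=
  ‖Gamma ((1 / 2 + ν) / 2 + (t / 2 : ℝ) * I)‖ * ‖Gamma ((1 / 2 - ν) / 2 + (t / 2 : ℝ) * I)‖

noncomputable def k6_O (ν : ℂ) (t : ℝ) : ℝ :=
  ‖Gamma ((1 / 2 + ν) / 2 + (t / 2 : ℝ) * I + 1 / 2)‖ *
    ‖Gamma ((1 / 2 - ν) / 2 + (t / 2 : ℝ) * I + 1 / 2)‖

theorem k6_re {ν : ℂ} (h : GoodNu ν) : 0 < ((1 / 2 + ν) / 2 : ℂ).re ∧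
    ((1 / 2 + ν) / 2 : ℂ).re ≤ 2 ∧ 0 < ((1 / 2 - ν) / 2 : ℂ).re ∧
    ((1 / 2 - ν) / 2 : ℂ).re ≤ 2 := by
  have h1 := h.nonneg
  have h2 := h.lt_half
  have e1 : ((1 / 2 + ν) / 2 : ℂ).re = (1 / 2 + ν.re) / 2 := by simp
  have e2 : ((1 / 2 - ν) / 2 : ℂ).re = (1 / 2 - ν.re) / 2 := by simp
  rw [e1, e2]
  refine ⟨?_, ?_, ?_, ?_⟩ <;> linarith

theorem k6_pos {w : ℂ} (hw : 0 < w.re) (t : ℝ) : 0 < ‖Gamma (w + (t / 2 : ℝ) * I)‖ := by
  rw [norm_pos_iff]
  apply Complex.Gamma_ne_zero_of_re_pos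
  simpa using hw

theorem k6_cont {w : ℂ} (hw : 0 < w.re) :
    Continuous (fun t : ℝ => ‖Gamma (w + (t / 2 : ℝ) * I)‖) := by
  apply Continuous.norm
  rw [continuous_iff_continuousAt]
  intro t
  have h1 : ContinuousAt Gamma (w + (t / 2 : ℝ) * I) := by
    apply (differentiableAt_Gamma _ _).continuousAt
    intro m hm
    have h2 := congrArg Complex.re hm
    have h3 : (w + (t / 2 : ℝ) * I).re = w.re := by simp
    rw [h3] at h2
    simp at h2
    have : (0 : ℝ) ≤ m := Nat.cast_nonneg m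
    linarith
  exact ContinuousAt.comp (f := fun t : ℝ => w + (t / 2 : ℝ) * I) h1 (by fun_prop)

theorem k6_pos' {w : ℂ} (hw : 0 < w.re) (t : ℝ) :
    0 < ‖Gamma (w + (t / 2 : ℝ) * I + 1 / 2)‖ := by
  have h1 : w + (t / 2 : ℝ) * I + 1 / 2 = (w + 1 / 2) + (t / 2 : ℝ) * I := by ring
  rw [h1]
  apply k6_pos
  simp
  linarith

theorem k6_cont' {w : ℂ} (hw : 0 < w.re) :
    Continuous (fun t : ℝ => ‖Gamma (w + (t / 2 : ℝ) * I + 1 / 2)‖) := by
  have h1 : ∀ t : ℝ, w + (t / 2 : ℝ) * I + 1 / 2 = (w + 1 / 2) + (t / 2 : ℝ) * I := by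
    intro t; ring
  simp only [h1]
  apply k6_cont
  simp
  linarith

theorem k6_dup (z : ℂ) : ‖Gamma z‖ * ‖Gamma (z + 1 / 2)‖ =
    ‖Gamma (2 * z)‖ * (2 : ℝ) ^ (1 - 2 * z.re) * √Real.pi := by
  rw [← norm_mul, Gamma_mul_Gamma_add_half, norm_mul, norm_mul]
  congr 1
  · congr 1
    have h1 := Complex.norm_cpow_eq_rpow_re_of_pos (x := 2) (by norm_num) (1 - 2 * z)
    have h2 : (1 - 2 * z : ℂ).re = 1 - 2 * z.re := by simp
    rw [h2] at h1
    exact_mod_cast h1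
  · rw [Complex.norm_real, Real.norm_eq_abs, abs_of_nonneg (Real.sqrt_nonneg _)]

theorem k6_EO (ν : ℂ) (t : ℝ) :
    k6_E ν t * k6_O ν t = 2 * Real.pi * ‖Gamma (ha t + ν) * Gamma (ha t - ν)‖ := by
  unfold k6_E k6_O
  set z₁ : ℂ := (1 / 2 + ν) / 2 + (t / 2 : ℝ) * I with hz₁
  set z₂ : ℂ := (1 / 2 - ν) / 2 + (t / 2 : ℝ) * I with hz₂
  have h1 := k6_dup z₁
  have h2 := k6_dup z₂
  have e1 : 2 * z₁ = ha t + ν := by
    rw [hz₁]; unfold ha; push_cast; ring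
  have e2 : 2 * z₂ = ha t - ν := by
    rw [hz₂]; unfold ha; push_cast; ring
  have r1 : 1 - 2 * z₁.re = 1 / 2 - ν.re := by
    have := congrArg Complex.re e1
    rw [Complex.add_re, (k6_ha t).1] at this
    simp only [Complex.mul_re, Complex.re_ofNat, Complex.im_ofNat, zero_mul, sub_zero] at this
    linarith
  have r2 : 1 - 2 * z₂.re = 1 / 2 + ν.re := by
    have := congrArg Complex.re e2
    rw [Complex.sub_re, (k6_ha t).1] at this
    simp only [Complex.mul_re, Complex.re_ofNat, Complex.im_ofNat, zero_mul, sub_zero] at this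
    linarith
  rw [e1, r1] at h1
  rw [e2, r2] at h2
  have h3 : (2 : ℝ) ^ (1 / 2 - ν.re) * (2 : ℝ) ^ (1 / 2 + ν.re) = 2 := by
    rw [← Real.rpow_add (by norm_num)]
    norm_num
  have h4 : √Real.pi * √Real.pi = Real.pi := Real.mul_self_sqrt Real.pi_pos.le
  rw [norm_mul]
  calc ‖Gamma z₁‖ * ‖Gamma z₂‖ * (‖Gamma (z₁ + 1 / 2)‖ * ‖Gamma (z₂ + 1 / 2)‖)
      = (‖Gamma z₁‖ * ‖Gamma (z₁ + 1 / 2)‖) * (‖Gamma z₂‖ * ‖Gamma (z₂ + 1 / 2)‖) := by ring
    _ = ((2 : ℝ) ^ (1 / 2 - ν.re) * (2 : ℝ) ^ (1 / 2 + ν.re)) * (√Real.pi * √Real.pi) *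
        (‖Gamma (ha t + ν)‖ * ‖Gamma (ha t - ν)‖) := by rw [h1, h2]; ring
    _ = _ := by rw [h3, h4]

theorem k6_alg {A₁ A₂ B₁ B₂ x : ℝ} (h1 : A₁ ≠ 0) (h2 : A₂ ≠ 0) (hx : 0 < x) :
    B₁ / A₁ / √x * (B₂ / A₂ / √x) = B₁ * B₂ / (A₁ * A₂ * x) := by
  have e1 : √x * √x = x := Real.mul_self_sqrt hx.le
  have d3 : √x ≠ 0 := (Real.sqrt_pos.2 hx).ne'
  calc B₁ / A₁ / √x * (B₂ / A₂ / √x) = B₁ * B₂ / (A₁ * A₂ * (√x * √x)) := by field_simp
    _ = _ := by rw [e1]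

/-- the asymptotics of `E` and `O` -/
theorem k6_asymp {ν : ℂ} (h : GoodNu ν) :
    k6_ap (fun t => t * Real.exp (Real.pi * t) * (k6_E ν t ^ 2 / 2) / (4 * Real.pi ^ 2)) ∧
    k6_ap (fun t => t⁻¹ * Real.exp (Real.pi * t) * (2 * k6_O ν t ^ 2) / (4 * Real.pi ^ 2)) := by
  obtain ⟨K, hK, hD⟩ := k6_gam h
  choose D h1 h2 h3 using hD
  obtain ⟨p1, p2, p3, p4⟩ := k6_re h
  have hq := k6_q hK h1 h2
  have hu₁ := k6_ratio (w := (1 / 2 + ν) / 2) (by linarith) p2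
  have hu₂ := k6_ratio (w := (1 / 2 - ν) / 2) (by linarith) p4
  have hu := k6_mul hu₁ hu₂
  have hpi := Real.pi_pos
  have key : ∀ t : ℝ, 0 < t → 0 < √(D t) ∧ 0 < k6_E ν t ∧ 0 < k6_O ν t ∧
      k6_E ν t * k6_O ν t = 2 * Real.pi * (Real.pi / √(D t)) ∧
      ‖Gamma ((1 / 2 + ν) / 2 + (t / 2 : ℝ) * I + 1 / 2) /
        Gamma ((1 / 2 + ν) / 2 + (t / 2 : ℝ) * I)‖ / √(t / 2) *
        (‖Gamma ((1 / 2 - ν) / 2 + (t / 2 : ℝ) * I + 1 / 2) /
        Gamma ((1 / 2 - ν) / 2 + (t / 2 : ℝ) * I)‖ / √(t / 2)) =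
        k6_O ν t / (k6_E ν t * (t / 2)) := by
    intro t ht
    have c1 : 0 < k6_E ν t := mul_pos (k6_pos p1 t) (k6_pos p3 t)
    have c2 : 0 < k6_O ν t := mul_pos (k6_pos' p1 t) (k6_pos' p3 t)
    have c3 : 0 < D t := by
      have : 0 < Real.sinh (Real.pi * t) := Real.sinh_pos_iff.2 (by positivity)
      exact lt_of_lt_of_le (by positivity) (h1 t)
    refine ⟨Real.sqrt_pos.2 c3, c1, c2, ?_, ?_⟩
    · rw [k6_EO, h3]
    · unfold k6_E k6_O
      rw [norm_div, norm_div]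
      exact k6_alg (k6_pos p1 t).ne' (k6_pos p3 t).ne' (by positivity)
  have hexp : ∀ t : ℝ, Real.exp (Real.pi * t) * Real.exp (-(Real.pi * t)) = 1 := by
    intro t
    rw [← Real.exp_add]; simp
  constructor
  · refine (k6_inv (k6_mul hq hu)).congr' ?_ EventuallyEq.rfl
    filter_upwards [eventually_gt_atTop 0] with t ht
    obtain ⟨b1, b2, b3, b4, b5⟩ := key t ht
    show _⁻¹ - 1 = _ - 1
    congr 1
    rw [b5]
    have b6 : √(D t) = 2 * Real.pi ^ 2 / (k6_E ν t * k6_O ν t) := by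
      rw [b4]; field_simp
    rw [b6, Real.exp_neg]
    have := (Real.exp_pos (Real.pi * t)).ne'
    field_simp
    norm_num
  · refine (k6_mul hu (k6_inv hq)).congr' ?_ EventuallyEq.rfl
    filter_upwards [eventually_gt_atTop 0] with t ht
    obtain ⟨b1, b2, b3, b4, b5⟩ := key t ht
    show _ * _⁻¹ - 1 = _ - 1
    congr 1
    rw [b5]
    have b6 : √(D t) = 2 * Real.pi ^ 2 / (k6_E ν t * k6_O ν t) := by
      rw [b4]; field_simp
    rw [b6, Real.exp_neg]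
    have := (Real.exp_pos (Real.pi * t)).ne'
    field_simp
    norm_num

theorem k6_fin {v : ℝ → ℝ} (hc : ContinuousOn v (Ici 1))
    (h : k6_ap (fun t => v t / (4 * Real.pi ^ 2))) : ∃ C : ℝ, ∀ t : ℝ, 1 ≤ t →
      |v t - 4 * Real.pi ^ 2| ≤ C * t ^ (-(1 / 2 : ℝ)) := by
  apply k6_glob (hc.sub continuousOn_const)
  refine (Asymptotics.IsBigO.const_mul_left h (4 * Real.pi ^ 2)).congr_left fun t => ?_
  have := Real.pi_pos
  field_simp
  rfl

theorem stir_even_pr {ν : ℂ} (h : GoodNu ν) : ∃ C : ℝ, ∀ t : ℝ, 1 ≤ t →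
    |t * Real.exp (Real.pi * t) * ‖Gs ν 1 (ha t) (Real.pi / 2 : ℝ)‖ ^ 2 - 4 * Real.pi ^ 2| ≤
      C * t ^ (-(1 / 2 : ℝ)) := by
  obtain ⟨p1, p2, p3, p4⟩ := k6_re h
  have hE : ∀ t : ℝ, ‖Gs ν 1 (ha t) (Real.pi / 2 : ℝ)‖ ^ 2 = k6_E ν t ^ 2 / 2 := by
    intro t
    rw [Gs_half_one h (by rw [(k6_ha t).1]; exact h.lt_half)]
    have e1 : (ha t + ν) / 2 = (1 / 2 + ν) / 2 + (t / 2 : ℝ) * I := by
      unfold ha; push_cast; ring
    have e2 : (ha t - ν) / 2 = (1 / 2 - ν) / 2 + (t / 2 : ℝ) * I := by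
      unfold ha; push_cast; ring
    rw [e1, e2, norm_mul, norm_mul, norm_mul]
    have n1 : ‖((2 * Real.pi : ℝ) : ℂ) ^ (1 / 2 - ha t)‖ = 1 := by
      rw [Complex.norm_cpow_eq_rpow_re_of_pos (by positivity)]
      have : (1 / 2 - ha t).re = 0 := by
        rw [Complex.sub_re, (k6_ha t).1]; simp
      rw [this, Real.rpow_zero]
    have n2 : ‖(2 : ℂ) ^ (ha t - 1)‖ ^ 2 = 1 / 2 := by
      have h1 := Complex.norm_cpow_eq_rpow_re_of_pos (x := 2) (by norm_num) (ha t - 1)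
      have h2 : (ha t - 1).re = -(1 / 2) := by
        rw [Complex.sub_re, (k6_ha t).1]; norm_num
      rw [h2] at h1
      have h3 : ‖(2 : ℂ) ^ (ha t - 1)‖ = (2 : ℝ) ^ (-(1 / 2) : ℝ) := by exact_mod_cast h1
      rw [h3, ← Real.rpow_natCast, ← Real.rpow_mul (by norm_num)]
      norm_num
    rw [n1, one_mul, mul_pow, mul_pow, n2]
    unfold k6_E
    ring
  have hcE : Continuous (k6_E ν) := (k6_cont p1).mul (k6_cont p3)
  obtain ⟨C, hC⟩ := k6_fin (v := fun t => t * Real.exp (Real.pi * t) * (k6_E ν t ^ 2 / 2))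
    (Continuous.continuousOn (by fun_prop)) (k6_asymp h).1
  refine ⟨C, fun t ht => ?_⟩
  rw [hE t]
  exact hC t ht

theorem stir_odd_pr {ν : ℂ} (h : GoodNu ν) : ∃ C : ℝ, ∀ t : ℝ, 1 ≤ t →
    |t⁻¹ * Real.exp (Real.pi * t) *
      ‖deriv (fun θ : ℂ => Gs ν (-1) (ha t) θ) (Real.pi / 2 : ℝ)‖ ^ 2 - 4 * Real.pi ^ 2| ≤
      C * t ^ (-(1 / 2 : ℝ)) := by
  obtain ⟨p1, p2, p3, p4⟩ := k6_re h
  have hO : ∀ t : ℝ, ‖deriv (fun θ : ℂ => Gs ν (-1) (ha t) θ) (Real.pi / 2 : ℝ)‖ ^ 2 =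
      2 * k6_O ν t ^ 2 := by
    intro t
    rw [(Gs_half_neg h (by rw [(k6_ha t).1]; exact h.lt_half)).deriv]
    have e1 : (ha t + 1 + ν) / 2 = (1 / 2 + ν) / 2 + (t / 2 : ℝ) * I + 1 / 2 := by
      unfold ha; push_cast; ring
    have e2 : (ha t + 1 - ν) / 2 = (1 / 2 - ν) / 2 + (t / 2 : ℝ) * I + 1 / 2 := by
      unfold ha; push_cast; ring
    rw [e1, e2, norm_mul, norm_mul, norm_mul, norm_mul, norm_neg, Complex.norm_I]
    have n1 : ‖((2 * Real.pi : ℝ) : ℂ) ^ (1 / 2 - ha t)‖ = 1 := by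
      rw [Complex.norm_cpow_eq_rpow_re_of_pos (by positivity)]
      have : (1 / 2 - ha t).re = 0 := by
        rw [Complex.sub_re, (k6_ha t).1]; simp
      rw [this, Real.rpow_zero]
    have n2 : ‖(2 : ℂ) ^ (ha t)‖ ^ 2 = 2 := by
      have h1 := Complex.norm_cpow_eq_rpow_re_of_pos (x := 2) (by norm_num) (ha t)
      rw [(k6_ha t).1] at h1
      have h3 : ‖(2 : ℂ) ^ (ha t)‖ = (2 : ℝ) ^ (1 / 2 : ℝ) := by exact_mod_cast h1
      rw [h3, ← Real.rpow_natCast, ← Real.rpow_mul (by norm_num)]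
      norm_num
    rw [n1, one_mul, one_mul, mul_pow, mul_pow, n2]
    unfold k6_O
    ring
  have hcO : Continuous (k6_O ν) := (k6_cont' p1).mul (k6_cont' p3)
  obtain ⟨C, hC⟩ := k6_fin (v := fun t => t⁻¹ * Real.exp (Real.pi * t) * (2 * k6_O ν t ^ 2))
    (by
      apply ContinuousOn.mul
      · apply ContinuousOn.mul
        · apply ContinuousOn.inv₀ continuousOn_id
          intro t ht
          have : (1 : ℝ) ≤ t := ht
          exact (by linarith : (0 : ℝ) < t).ne'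
        · fun_prop
      · fun_prop) (k6_asymp h).2
  refine ⟨C, fun t ht => ?_⟩
  rw [hO t]
  exact hC t ht


end Pool.Agent.JO.FM

namespace Pool.Agent.JO.FM

theorem stir_even : type_of% @stir_even_pr := @stir_even_pr
theorem stir_odd : type_of% @stir_odd_pr := @stir_odd_pr

end Pool.Agent.JO.FM
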