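import Pool.Agent.Lib_helper45.JO.Defs2
import Pool.Agent.Lib_helper45.JOM.C2
import Pool.Agent.Lib_helper45.JOM.C3
import Pool.Agent.Lib_helper45.JOM.K6
import Pool.Agent.Lib_helper45.JOM.M2
import Pool.Agent.Lib_helper45.JOM.M3

/-!
# Project JO, FM block C4: Liouville-Green for `Ph`
-/

set_option autoImplicit false

namespace Pool.Agent.JO.FM

open Complex Filter Topology MeasureTheory Set
open UpperHalfPlane hiding I
open scoped MatrixGroups ComplexConjugate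

section

variable {ν : ℂ} {ε : ℝ}

theorem c4_nusq (hν : GoodNu ν) : ((1 / 4 - (ν ^ 2).re : ℝ) : ℂ) = 1 / 4 - ν ^ 2 := by
  apply Complex.ext
  · simp
  · have h : (ν ^ 2).im = 0 := by
      rw [sq, mul_im]
      rcases hν.real_or with h | h <;> simp [h]
    simp only [ofReal_im, sub_im, h, sub_zero]
    norm_num

theorem c4_ha_re (t : ℝ) : (ha t).re = 1 / 2 := by
  simp [ha]

theorem c4_ha (hν : GoodNu ν) (t : ℝ) : ν.re < (ha t).re := by
  rw [c4_ha_re]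
  exact hν.lt_half

theorem c4_ha_conj (t : ℝ) : conj (ha t) = ha (-t) := by
  apply Complex.ext <;> simp [ha]

/-- the symmetry in `t` -/
theorem c4_symm (hν : GoodNu ν) (hε : ε = 1 ∨ ε = -1) (t : ℝ) {θ : ℂ} (h0 : 0 < θ.re)
    (h1 : θ.re < Real.pi) : Ph ν ε (-t) θ = Ph ν ε t θ := by
  have e2 : (ε : ℂ) * ε = 1 := by
    rcases hε with h | h <;> simp [h]
  have a1 := (Gs_symm hν hε (c4_ha hν t) h0 h1).2
  have a2 := (Gs_symm hν hε (s := ha t) (θ := conj θ) (c4_ha hν t) (by simpa using h0)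
    (by simpa using h1)).2
  rw [c4_ha_conj] at a1 a2
  rw [Complex.conj_conj] at a2
  have b1 : conj (Gs ν ε (ha (-t)) (conj θ)) = ε * Gs ν ε (ha t) θ := by
    have : Gs ν ε (ha (-t)) (conj θ) = ε * conj (Gs ν ε (ha t) θ) := by
      rw [a1, ← mul_assoc, e2, one_mul]
    rw [this, map_mul, Complex.conj_conj, Complex.conj_ofReal]
  have b2 : Gs ν ε (ha (-t)) θ = ε * conj (Gs ν ε (ha t) (conj θ)) := by
    rw [a2, ← mul_assoc, e2, one_mul]
  unfold Ph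
  rw [b1, b2]
  calc (ε : ℂ) * conj (Gs ν ε (ha t) (conj θ)) * (ε * Gs ν ε (ha t) θ)
      = (ε * ε) * (Gs ν ε (ha t) θ * conj (Gs ν ε (ha t) (conj θ))) := by ring
    _ = _ := by rw [e2, one_mul]

theorem c4_half_mem : ((Real.pi / 2 : ℝ) : ℂ) ∈ {θ : ℂ | 0 < θ.re ∧ θ.re < Real.pi} := by
  constructor
  · rw [ofReal_re]; positivity
  · rw [ofReal_re]; linarith [Real.pi_pos]

/-- even case: the derivative at `π/2` vanishes -/
theorem c4_even (hν : GoodNu ν) (t : ℝ) :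
    deriv (fun θ : ℂ => Gs ν 1 (ha t) θ) (Real.pi / 2 : ℝ) = 0 := by
  have hopen : IsOpen {θ : ℂ | 0 < θ.re ∧ θ.re < Real.pi} :=
    (isOpen_lt continuous_const Complex.continuous_re).inter (isOpen_lt Complex.continuous_re continuous_const)
  have hd : DifferentiableAt ℂ (fun θ : ℂ => Gs ν 1 (ha t) θ) ((Real.pi / 2 : ℝ) : ℂ) :=
    (Gs_diff (ε := 1) hν (c4_ha hν t)).differentiableAt (hopen.mem_nhds c4_half_mem)
  set g : ℂ → ℂ := fun θ => Gs ν 1 (ha t) θ with hg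
  have h1 : HasDerivAt g (deriv g ((Real.pi / 2 : ℝ) : ℂ)) ((Real.pi / 2 : ℝ) : ℂ) := hd.hasDerivAt
  have h2 : HasDerivAt (fun θ : ℂ => g (Real.pi - θ)) (-deriv g ((Real.pi / 2 : ℝ) : ℂ))
      ((Real.pi / 2 : ℝ) : ℂ) := by
    have e : (Real.pi : ℂ) - ((Real.pi / 2 : ℝ) : ℂ) = ((Real.pi / 2 : ℝ) : ℂ) := by
      push_cast
      ring
    have h3 : HasDerivAt (fun θ : ℂ => (Real.pi : ℂ) - θ) (-1) ((Real.pi / 2 : ℝ) : ℂ) := by
      simpa using (hasDerivAt_id ((Real.pi / 2 : ℝ) : ℂ)).const_sub (Real.pi : ℂ)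
    have h4 : HasDerivAt g (deriv g ((Real.pi / 2 : ℝ) : ℂ))
        ((fun θ : ℂ => (Real.pi : ℂ) - θ) ((Real.pi / 2 : ℝ) : ℂ)) := by
      show HasDerivAt g _ ((Real.pi : ℂ) - ((Real.pi / 2 : ℝ) : ℂ))
      rw [e]
      exact h1
    have h5 := h4.comp ((Real.pi / 2 : ℝ) : ℂ) h3
    simpa [Function.comp_def] using h5
  have h3 : g =ᶠ[𝓝 ((Real.pi / 2 : ℝ) : ℂ)] fun θ : ℂ => g (Real.pi - θ) := by
    filter_upwards [hopen.mem_nhds c4_half_mem] with θ hθ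
    have := (Gs_symm (ε := 1) hν (Or.inl rfl) (c4_ha hν t) hθ.1 hθ.2).1
    show Gs ν 1 (ha t) θ = Gs ν 1 (ha t) (Real.pi - θ)
    rw [this]
    simp
  have h4 : HasDerivAt g (-deriv g ((Real.pi / 2 : ℝ) : ℂ)) ((Real.pi / 2 : ℝ) : ℂ) :=
    h2.congr_of_eventuallyEq h3
  have h5 := h1.unique h4
  have h6 : (2 : ℂ) * deriv g ((Real.pi / 2 : ℝ) : ℂ) = 0 := by
    linear_combination h5
  exact (mul_eq_zero.1 h6).resolve_left two_ne_zero

/-- odd case: the value at `π/2` vanishes -/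
theorem c4_odd (hν : GoodNu ν) (t : ℝ) : Gs ν (-1) (ha t) (Real.pi / 2 : ℝ) = 0 := by
  have h := (Gs_symm (ε := -1) hν (Or.inr rfl) (c4_ha hν t) c4_half_mem.1 c4_half_mem.2).1
  have e : (Real.pi : ℂ) - ((Real.pi / 2 : ℝ) : ℂ) = ((Real.pi / 2 : ℝ) : ℂ) := by
    push_cast
    ring
  rw [e] at h
  have h6 : (2 : ℂ) * Gs ν (-1) (ha t) (Real.pi / 2 : ℝ) = 0 := by
    push_cast at h ⊢
    linear_combination h
  exact (mul_eq_zero.1 h6).resolve_left two_ne_zero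

theorem c4_cont_ha : Continuous ha := by
  unfold ha
  fun_prop

theorem c4_bdd_even (hν : GoodNu ν) : ∃ B : ℝ, ∀ t : ℝ, 0 ≤ t → t ≤ 1 →
    ‖Gs ν 1 (ha t) (Real.pi / 2 : ℝ)‖ ≤ B := by
  have h : ContinuousOn (fun t : ℝ => Gs ν 1 (ha t) (Real.pi / 2 : ℝ)) (Icc 0 1) := by
    have h1 := (Gs_diff_s (ε := 1) hν c4_half_mem.1 c4_half_mem.2).continuousOn
    exact h1.comp c4_cont_ha.continuousOn (fun t _ => c4_ha hν t)
  obtain ⟨B, hB⟩ := isCompact_Icc.exists_bound_of_continuousOn h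
  exact ⟨B, fun t h0 h1 => hB t ⟨h0, h1⟩⟩

theorem c4_gamma_diff {z : ℂ} (hz : 0 < z.re) : DifferentiableAt ℂ Complex.Gamma z := by
  apply differentiableAt_Gamma
  intro m h
  rw [h] at hz
  simp at hz
  have : (0 : ℝ) ≤ m := Nat.cast_nonneg m
  linarith

theorem c4_bdd_odd (hν : GoodNu ν) : ∃ B : ℝ, ∀ t : ℝ, 0 ≤ t → t ≤ 1 →
    ‖deriv (fun θ : ℂ => Gs ν (-1) (ha t) θ) (Real.pi / 2 : ℝ)‖ ≤ B := by
  have h : ContinuousOn (fun t : ℝ => -I * ((2 * Real.pi : ℝ) : ℂ) ^ (1 / 2 - ha t) *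
      (2 : ℂ) ^ (ha t) * Gamma ((ha t + 1 + ν) / 2) * Gamma ((ha t + 1 - ν) / 2)) (Icc 0 1) := by
    have hc := c4_cont_ha
    have h2π : ((2 * Real.pi : ℝ) : ℂ) ≠ 0 := by
      exact_mod_cast (by positivity : (2 * Real.pi : ℝ) ≠ 0)
    have hg1 : Continuous (fun t : ℝ => Gamma ((ha t + 1 + ν) / 2)) := by
      rw [continuous_iff_continuousAt]
      intro t
      have : ContinuousAt Complex.Gamma ((ha t + 1 + ν) / 2) := by
        apply (c4_gamma_diff ?_).continuousAt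
        have := hν.nonneg
        have e : ((ha t + 1 + ν) / 2).re = (1 / 2 + 1 + ν.re) / 2 := by
          rw [show ((ha t + 1 + ν) / 2) = (((1 / 2 : ℝ) : ℂ)) * (ha t + 1 + ν) by push_cast; ring]
          rw [re_ofReal_mul, add_re, add_re, c4_ha_re, one_re]
          ring
        rw [e]
        linarith
      exact ContinuousAt.comp (f := fun t : ℝ => (ha t + 1 + ν) / 2) this
        (by fun_prop)
    have hg2 : Continuous (fun t : ℝ => Gamma ((ha t + 1 - ν) / 2)) := by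
      rw [continuous_iff_continuousAt]
      intro t
      have : ContinuousAt Complex.Gamma ((ha t + 1 - ν) / 2) := by
        apply (c4_gamma_diff ?_).continuousAt
        have := hν.lt_half
        have e : ((ha t + 1 - ν) / 2).re = (1 / 2 + 1 - ν.re) / 2 := by
          rw [show ((ha t + 1 - ν) / 2) = (((1 / 2 : ℝ) : ℂ)) * (ha t + 1 - ν) by push_cast; ring]
          rw [re_ofReal_mul, sub_re, add_re, c4_ha_re, one_re]
          ring
        rw [e]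
        linarith
      exact ContinuousAt.comp (f := fun t : ℝ => (ha t + 1 - ν) / 2) this
        (by fun_prop)
    have hp1 : Continuous (fun t : ℝ => ((2 * Real.pi : ℝ) : ℂ) ^ (1 / 2 - ha t)) :=
      (continuous_const.sub hc).const_cpow (Or.inl h2π)
    have hp2 : Continuous (fun t : ℝ => (2 : ℂ) ^ (ha t)) := hc.const_cpow (Or.inl two_ne_zero)
    exact ((((continuous_const.mul hp1).mul hp2).mul hg1).mul hg2).continuousOn
  obtain ⟨B, hB⟩ := isCompact_Icc.exists_bound_of_continuousOn h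
  refine ⟨B, fun t h0 h1 => ?_⟩
  rw [(Gs_half_neg hν (c4_ha hν t)).deriv]
  exact hB t ⟨h0, h1⟩

/-- the initial data, with `n = |y₀| + |y₁|/t` and `A = (y₀ - y₁/t)/2` -/
theorem c4_init (hν : GoodNu ν) (hε : ε = 1 ∨ ε = -1) : ∃ C : ℝ, 0 ≤ C ∧ ∀ t : ℝ, 1 ≤ t →
    (|t * Real.exp (Real.pi * t) * ‖(Gs ν ε (ha t) (Real.pi / 2 : ℝ) -
      deriv (fun θ : ℂ => Gs ν ε (ha t) θ) (Real.pi / 2 : ℝ) / t) / 2‖ ^ 2 - Real.pi ^ 2| ≤
        C * t ^ (-(1 / 2 : ℝ))) ∧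
    t * Real.exp (Real.pi * t) * (‖Gs ν ε (ha t) (Real.pi / 2 : ℝ)‖ +
      ‖deriv (fun θ : ℂ => Gs ν ε (ha t) θ) (Real.pi / 2 : ℝ)‖ / t) ^ 2 ≤ C := by
  have hpow : ∀ t : ℝ, 1 ≤ t → t ^ (-(1 / 2 : ℝ)) ≤ 1 := fun t ht =>
    Real.rpow_le_one_of_one_le_of_nonpos ht (by norm_num)
  have hpow0 : ∀ t : ℝ, 1 ≤ t → 0 ≤ t ^ (-(1 / 2 : ℝ)) := fun t ht =>
    Real.rpow_nonneg (by linarith) _
  rcases hε with h | h
  · subst h
    obtain ⟨C, hC⟩ := stir_even hν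
    have hC0 : 0 ≤ C := by
      have := (abs_nonneg _).trans (hC 1 le_rfl)
      rwa [Real.one_rpow, mul_one] at this
    refine ⟨C + 4 * Real.pi ^ 2, by positivity, fun t ht => ?_⟩
    have ht0 : 0 < t := by linarith
    have hc := hC t ht
    have hp := hpow t ht
    have hp0 := hpow0 t ht
    rw [show ((1 : ℝ)) = 1 from rfl, c4_even hν t, zero_div, sub_zero, norm_zero, zero_div,
      add_zero]
    set y0 : ℂ := Gs ν 1 (ha t) (Real.pi / 2 : ℝ) with hy0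
    have e1 : t * Real.exp (Real.pi * t) * ‖y0 / 2‖ ^ 2 =
        (t * Real.exp (Real.pi * t) * ‖y0‖ ^ 2) / 4 := by
      rw [norm_div]
      simp
      ring
    rw [e1]
    set Q : ℝ := t * Real.exp (Real.pi * t) * ‖y0‖ ^ 2 with hQ
    obtain ⟨h1, h2⟩ := abs_le.1 hc
    have hCp : C * t ^ (-(1 / 2 : ℝ)) ≤ C := by nlinarith
    have hπp : 0 ≤ 4 * Real.pi ^ 2 * t ^ (-(1 / 2 : ℝ)) := by positivity
    have hCpp : 0 ≤ C * t ^ (-(1 / 2 : ℝ)) := by positivity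
    constructor
    · rw [abs_le]
      constructor <;> nlinarith
    · nlinarith
  · subst h
    obtain ⟨C, hC⟩ := stir_odd hν
    have hC0 : 0 ≤ C := by
      have := (abs_nonneg _).trans (hC 1 le_rfl)
      rwa [Real.one_rpow, mul_one] at this
    refine ⟨C + 4 * Real.pi ^ 2, by positivity, fun t ht => ?_⟩
    have ht0 : 0 < t := by linarith
    have hc := hC t ht
    have hp := hpow t ht
    have hp0 := hpow0 t ht
    rw [c4_odd hν t, zero_sub, norm_zero, zero_add]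
    set y1 : ℂ := deriv (fun θ : ℂ => Gs ν (-1) (ha t) θ) (Real.pi / 2 : ℝ) with hy1
    have e1 : t * Real.exp (Real.pi * t) * ‖-(y1 / t) / 2‖ ^ 2 =
        (t⁻¹ * Real.exp (Real.pi * t) * ‖y1‖ ^ 2) / 4 := by
      rw [norm_div, norm_neg, norm_div, Complex.norm_real, Real.norm_of_nonneg ht0.le]
      simp
      field_simp
      ring
    have e2 : t * Real.exp (Real.pi * t) * (‖y1‖ / t) ^ 2 =
        t⁻¹ * Real.exp (Real.pi * t) * ‖y1‖ ^ 2 := by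
      field_simp
    rw [e1, e2]
    set Q : ℝ := t⁻¹ * Real.exp (Real.pi * t) * ‖y1‖ ^ 2 with hQ
    obtain ⟨h1, h2⟩ := abs_le.1 hc
    have hCp : C * t ^ (-(1 / 2 : ℝ)) ≤ C := by nlinarith
    have hπp : 0 ≤ 4 * Real.pi ^ 2 * t ^ (-(1 / 2 : ℝ)) := by positivity
    have hCpp : 0 ≤ C * t ^ (-(1 / 2 : ℝ)) := by positivity
    constructor
    · rw [abs_le]
      constructor <;> nlinarith
    · nlinarith

theorem c4_bdd (hν : GoodNu ν) (hε : ε = 1 ∨ ε = -1) : ∃ B : ℝ, 0 ≤ B ∧ ∀ t : ℝ, 0 ≤ t →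
    t ≤ 1 → ‖Gs ν ε (ha t) (Real.pi / 2 : ℝ)‖ +
      ‖deriv (fun θ : ℂ => Gs ν ε (ha t) θ) (Real.pi / 2 : ℝ)‖ ≤ B := by
  rcases hε with h | h
  · subst h
    obtain ⟨B, hB⟩ := c4_bdd_even hν
    refine ⟨B, (norm_nonneg _).trans (hB 0 le_rfl zero_le_one), fun t h0 h1 => ?_⟩
    rw [c4_even hν t, norm_zero, add_zero]
    exact hB t h0 h1
  · subst h
    obtain ⟨B, hB⟩ := c4_bdd_odd hν
    refine ⟨B, (norm_nonneg _).trans (hB 0 le_rfl zero_le_one), fun t h0 h1 => ?_⟩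
    rw [c4_odd hν t, norm_zero, zero_add]
    exact hB t h0 h1

/-- the product of two approximations -/
theorem c4_prod {A u v : ℂ} {e n : ℝ} (hA : ‖A‖ ≤ n) (he : 0 ≤ e) (hu : ‖u - A‖ ≤ e * n)
    (hv : ‖v - conj A‖ ≤ e * n) : ‖u * v - ((‖A‖ ^ 2 : ℝ) : ℂ)‖ ≤ (2 * e + e ^ 2) * n ^ 2 := by
  have hn : 0 ≤ n := (norm_nonneg _).trans hA
  have h1 : A * conj A = ((‖A‖ ^ 2 : ℝ) : ℂ) := by
    rw [mul_conj, normSq_eq_norm_sq]
  have h2 : u * v - ((‖A‖ ^ 2 : ℝ) : ℂ) = (u - A) * (v - conj A) + A * (v - conj A) +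
      (u - A) * conj A := by
    rw [← h1]
    ring
  rw [h2]
  have hc : ‖conj A‖ ≤ n := by rw [Complex.norm_conj]; exact hA
  have hen : 0 ≤ e * n := by positivity
  calc ‖(u - A) * (v - conj A) + A * (v - conj A) + (u - A) * conj A‖
      ≤ ‖(u - A) * (v - conj A)‖ + ‖A * (v - conj A)‖ + ‖(u - A) * conj A‖ := norm_add₃_le
    _ ≤ (e * n) * (e * n) + n * (e * n) + (e * n) * n := by
        rw [norm_mul, norm_mul, norm_mul]
        gcongr
    _ = _ := by ring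

end

/-- C4 -/
theorem Ph_lg_pr {ν : ℂ} {ε : ℝ} (hν : GoodNu ν) (hε : ε = 1 ∨ ε = -1) {r R : ℝ} (hr : 0 < r) :
    ∃ C : ℝ, ∀ (t : ℝ) (θ : ℂ), 0 < θ.re → θ.re ≤ 1 → r ≤ |θ.im| → |θ.im| ≤ R →
    (1 ≤ t → ‖Ph ν ε t θ * t * cexp (2 * t * θ) - Real.pi ^ 2‖ ≤ C * t ^ (-(1 / 2 : ℝ))) ∧
    (0 ≤ t → t ≤ 1 → ‖Ph ν ε t θ‖ ≤ C) ∧ Ph ν ε (-t) θ = Ph ν ε t θ := by
  obtain ⟨C₁, hC₁⟩ := lg_ode (ev := 1 / 4 - (ν ^ 2).re) (r := r) (R := R) hr
  obtain ⟨C₂, hC₂0, hC₂⟩ := c4_init hν hε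
  obtain ⟨B, hB0, hB⟩ := c4_bdd hν hε
  have hpi := Real.pi_gt_three
  -- the hypotheses of `lg_ode`
  have key : ∀ (t : ℝ) (θ : ℂ), 0 < θ.re → θ.re ≤ 1 → r ≤ |θ.im| → |θ.im| ≤ R →
    (1 ≤ t → ‖cexp (t * (θ - (Real.pi / 2 : ℝ))) * Gs ν ε (ha t) θ -
      (Gs ν ε (ha t) (Real.pi / 2 : ℝ) -
        deriv (fun θ : ℂ => Gs ν ε (ha t) θ) (Real.pi / 2 : ℝ) / t) / 2‖ ≤
        |C₁| / t * (‖Gs ν ε (ha t) (Real.pi / 2 : ℝ)‖ +
          ‖deriv (fun θ : ℂ => Gs ν ε (ha t) θ) (Real.pi / 2 : ℝ)‖ / t)) ∧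
    (0 ≤ t → t ≤ 1 → ‖Gs ν ε (ha t) θ‖ ≤ |C₁| * (‖Gs ν ε (ha t) (Real.pi / 2 : ℝ)‖ +
      ‖deriv (fun θ : ℂ => Gs ν ε (ha t) θ) (Real.pi / 2 : ℝ)‖)) := by
    intro t θ h0 h1 h2 h3
    have hd := Gs_diff (ε := ε) hν (c4_ha hν t)
    have ho : ∀ θ : ℂ, 0 < θ.re → θ.re < Real.pi →
        HasDerivAt (deriv (fun θ : ℂ => Gs ν ε (ha t) θ))
          ((t ^ 2 - ((1 / 4 - (ν ^ 2).re : ℝ) : ℂ) / Complex.sin θ ^ 2) *
            (fun θ : ℂ => Gs ν ε (ha t) θ) θ) θ := by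
      intro θ h0 h1
      rw [c4_nusq hν]
      exact Gs_ode hν t h0 h1
    obtain ⟨k1, k2⟩ := hC₁ t (fun θ : ℂ => Gs ν ε (ha t) θ) hd ho θ h0 h1 h2 h3
    refine ⟨fun ht => (k1 ht).trans ?_, fun ht ht' => (k2 ht ht').trans ?_⟩
    · have : 0 < t := by linarith
      gcongr
      exact le_abs_self _
    · gcongr
      exact le_abs_self _
  refine ⟨C₂ + (2 * |C₁| + |C₁| ^ 2) * C₂ + (|C₁| * B) ^ 2, fun t θ h0 h1 h2 h3 => ⟨fun ht => ?_,
    fun ht ht' => ?_, c4_symm hν hε t h0 (by linarith)⟩⟩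
  · have ht0 : 0 < t := by linarith
    obtain ⟨k1, -⟩ := key t θ h0 h1 h2 h3
    obtain ⟨k2, -⟩ := key t (conj θ) (by simpa using h0) (by simpa using h1) (by simpa using h2)
      (by simpa using h3)
    have k1 := k1 ht
    have k2 := k2 ht
    obtain ⟨i1, i2⟩ := hC₂ t ht
    set y0 : ℂ := Gs ν ε (ha t) (Real.pi / 2 : ℝ) with hy0
    set y1 : ℂ := deriv (fun θ : ℂ => Gs ν ε (ha t) θ) (Real.pi / 2 : ℝ) with hy1
    set n : ℝ := ‖y0‖ + ‖y1‖ / t with hn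
    set A : ℂ := (y0 - y1 / t) / 2 with hA
    have hAn : ‖A‖ ≤ n := by
      rw [hA, norm_div]
      have : ‖y0 - y1 / t‖ ≤ n := by
        calc ‖y0 - y1 / t‖ ≤ ‖y0‖ + ‖y1 / t‖ := norm_sub_le _ _
          _ = n := by rw [norm_div, Complex.norm_real, Real.norm_of_nonneg ht0.le]
      simp only [Complex.norm_ofNat]
      have h0 : 0 ≤ ‖y0 - y1 / t‖ := norm_nonneg _
      linarith
    have k3 : ‖cexp (t * (θ - (Real.pi / 2 : ℝ))) * conj (Gs ν ε (ha t) (conj θ)) - conj A‖ ≤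
        |C₁| / t * n := by
      have e : cexp (t * (θ - (Real.pi / 2 : ℝ))) * conj (Gs ν ε (ha t) (conj θ)) - conj A =
          conj (cexp (t * (conj θ - (Real.pi / 2 : ℝ))) * Gs ν ε (ha t) (conj θ) - A) := by
        rw [map_sub, map_mul, ← Complex.exp_conj, map_mul, map_sub, Complex.conj_conj,
          Complex.conj_ofReal, Complex.conj_ofReal]
      rw [e, Complex.norm_conj]
      exact k2
    have he0 : 0 ≤ |C₁| / t := by positivity
    have k4 := c4_prod hAn he0 k1 k3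
    -- multiply by `t e^{π t}`
    have e1 : Ph ν ε t θ * t * cexp (2 * t * θ) = ((t * Real.exp (Real.pi * t) : ℝ) : ℂ) *
        (cexp (t * (θ - (Real.pi / 2 : ℝ))) * Gs ν ε (ha t) θ *
          (cexp (t * (θ - (Real.pi / 2 : ℝ))) * conj (Gs ν ε (ha t) (conj θ)))) := by
      have e2 : cexp (2 * t * θ) = ((Real.exp (Real.pi * t) : ℝ) : ℂ) *
          (cexp (t * (θ - (Real.pi / 2 : ℝ))) * cexp (t * (θ - (Real.pi / 2 : ℝ)))) := by
        rw [Complex.ofReal_exp, ← Complex.exp_add, ← Complex.exp_add]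
        congr 1
        push_cast
        ring
      unfold Ph
      rw [e2]
      push_cast
      ring
    have e3 : Ph ν ε t θ * t * cexp (2 * t * θ) - Real.pi ^ 2 =
        ((t * Real.exp (Real.pi * t) : ℝ) : ℂ) *
        (cexp (t * (θ - (Real.pi / 2 : ℝ))) * Gs ν ε (ha t) θ *
          (cexp (t * (θ - (Real.pi / 2 : ℝ))) * conj (Gs ν ε (ha t) (conj θ))) -
            ((‖A‖ ^ 2 : ℝ) : ℂ)) +
        ((t * Real.exp (Real.pi * t) * ‖A‖ ^ 2 - Real.pi ^ 2 : ℝ) : ℂ) := by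
      rw [e1]
      push_cast
      ring
    rw [e3]
    have htE : 0 ≤ t * Real.exp (Real.pi * t) := by positivity
    have h5 : ‖((t * Real.exp (Real.pi * t) : ℝ) : ℂ) *
        (cexp (t * (θ - (Real.pi / 2 : ℝ))) * Gs ν ε (ha t) θ *
          (cexp (t * (θ - (Real.pi / 2 : ℝ))) * conj (Gs ν ε (ha t) (conj θ))) -
            ((‖A‖ ^ 2 : ℝ) : ℂ))‖ ≤ (2 * |C₁| + |C₁| ^ 2) * C₂ * t ^ (-(1 / 2 : ℝ)) := by
      rw [norm_mul, Complex.norm_real, Real.norm_of_nonneg htE]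
      have ht1 : 1 / t ≤ t ^ (-(1 / 2 : ℝ)) := by
        rw [one_div, ← Real.rpow_neg_one]
        exact Real.rpow_le_rpow_of_exponent_le ht (by norm_num)
      have hee : 2 * (|C₁| / t) + (|C₁| / t) ^ 2 ≤ (2 * |C₁| + |C₁| ^ 2) * (1 / t) := by
        have : (|C₁| / t) ^ 2 ≤ |C₁| ^ 2 * (1 / t) := by
          rw [div_pow, ← mul_one_div]
          apply mul_le_mul_of_nonneg_left _ (by positivity)
          apply one_div_le_one_div_of_le ht0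
          nlinarith
        calc 2 * (|C₁| / t) + (|C₁| / t) ^ 2 ≤ 2 * (|C₁| / t) + |C₁| ^ 2 * (1 / t) := by linarith
          _ = _ := by ring
      calc t * Real.exp (Real.pi * t) * _ ≤ t * Real.exp (Real.pi * t) *
            ((2 * (|C₁| / t) + (|C₁| / t) ^ 2) * n ^ 2) := by gcongr
        _ = (2 * (|C₁| / t) + (|C₁| / t) ^ 2) * (t * Real.exp (Real.pi * t) * n ^ 2) := by ring
        _ ≤ ((2 * |C₁| + |C₁| ^ 2) * (1 / t)) * C₂ := by
            gcongr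
        _ ≤ ((2 * |C₁| + |C₁| ^ 2) * t ^ (-(1 / 2 : ℝ))) * C₂ := by gcongr
        _ = _ := by ring
    have h6 : ‖((t * Real.exp (Real.pi * t) * ‖A‖ ^ 2 - Real.pi ^ 2 : ℝ) : ℂ)‖ ≤
        C₂ * t ^ (-(1 / 2 : ℝ)) := by
      rw [Complex.norm_real, Real.norm_eq_abs]
      exact i1
    have hp0 : 0 ≤ t ^ (-(1 / 2 : ℝ)) := Real.rpow_nonneg ht0.le _
    have h7 : 0 ≤ (|C₁| * B) ^ 2 * t ^ (-(1 / 2 : ℝ)) := by positivity
    refine (norm_add_le _ _).trans ((add_le_add h5 h6).trans ?_)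
    nlinarith
  · obtain ⟨-, k1⟩ := key t θ h0 h1 h2 h3
    obtain ⟨-, k2⟩ := key t (conj θ) (by simpa using h0) (by simpa using h1) (by simpa using h2)
      (by simpa using h3)
    have k1 := k1 ht ht'
    have k2 := k2 ht ht'
    have hb := hB t ht ht'
    have m1 : ‖Gs ν ε (ha t) θ‖ ≤ |C₁| * B :=
      k1.trans (mul_le_mul_of_nonneg_left hb (abs_nonneg _))
    have m2 : ‖Gs ν ε (ha t) (conj θ)‖ ≤ |C₁| * B :=
      k2.trans (mul_le_mul_of_nonneg_left hb (abs_nonneg _))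
    unfold Ph
    rw [norm_mul, Complex.norm_conj]
    calc ‖Gs ν ε (ha t) θ‖ * ‖Gs ν ε (ha t) (conj θ)‖ ≤ (|C₁| * B) * (|C₁| * B) := by gcongr
      _ = (|C₁| * B) ^ 2 := by ring
      _ ≤ C₂ + (2 * |C₁| + |C₁| ^ 2) * C₂ + (|C₁| * B) ^ 2 := by
        have : 0 ≤ (2 * |C₁| + |C₁| ^ 2) * C₂ := by positivity
        linarith

end Pool.Agent.JO.FM

namespace Pool.Agent.JO.FM

theorem Ph_lg : type_of% @Ph_lg_pr := @Ph_lg_pr

end Pool.Agent.JO.FM
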