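import Pool.Agent.Lib_helper45.JO.Defs2
import Pool.Agent.Lib_helper45.JOM.C4
import Pool.Agent.Lib_helper45.JOM.M2
import Pool.Agent.Lib_helper45.JOM.P6

/-!
# Project JO, FM block C5: a bound for `FC` gives a bound for the Laplace transform
-/

set_option autoImplicit false

namespace Pool.Agent.JO.FM

open Complex Filter Topology MeasureTheory Set
open UpperHalfPlane hiding I
open scoped MatrixGroups ComplexConjugate

section

variable {ν : ℂ} {ε : ℝ} {a : ℕ → ℂ} {f : ℍ → ℂ} {L : ℂ → ℂ}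

/-- `|L(1/2+it)|² + |L(1/2-it)|²` -/
noncomputable def c5_l (L : ℂ → ℂ) (t : ℝ) : ℝ := ‖L (ha t)‖ ^ 2 + ‖L (ha (-t))‖ ^ 2

theorem c5_l_nonneg (L : ℂ → ℂ) (t : ℝ) : 0 ≤ c5_l L t := by
  unfold c5_l
  positivity

theorem c5_ha (hν : GoodNu ν) (t : ℝ) : ν.re < (ha t).re := by
  have : (ha t).re = 1 / 2 := by simp [ha]
  rw [this]
  exact hν.lt_half

theorem c5_cont_ha : Continuous ha := by
  unfold ha
  fun_prop

theorem c5_cont_l (hL : LFun ν ε a f L) : Continuous (c5_l L) := by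
  have h := hL.diff.continuous
  have h2 := c5_cont_ha
  unfold c5_l
  fun_prop

theorem c5_cont_Ph (hν : GoodNu ν) {θ : ℂ} (h0 : 0 < θ.re) (h1 : θ.re < Real.pi) :
    Continuous (fun t : ℝ => Ph ν ε t θ) := by
  have e1 : Continuous (fun t : ℝ => Gs ν ε (ha t) θ) :=
    (Gs_diff_s (ε := ε) hν h0 h1).continuousOn.comp_continuous c5_cont_ha (fun t => c5_ha hν t)
  have e2 : Continuous (fun t : ℝ => Gs ν ε (ha t) (conj θ)) :=
    (Gs_diff_s (ε := ε) hν (θ := conj θ) (by simpa using h0)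
      (by simpa using h1)).continuousOn.comp_continuous c5_cont_ha (fun t => c5_ha hν t)
  unfold Ph
  exact e1.mul (Complex.continuous_conj.comp e2)

theorem c5_int (F : Frame0 ν ε a f) (hL : LFun ν ε a f L) :
    IntegrableOn (fun t : ℝ => c5_l L t * t ^ (-(3 / 2 : ℝ))) (Ioi 1) :=
  (growth_int F hL (α := 3 / 2) (by norm_num)).mono_set Ioi_subset_Ici_self

theorem c5_exp {σ t : ℝ} (hσ : 0 < σ) : t * Real.exp (-(σ * t)) ≤ 1 / σ := by
  rw [le_div_iff₀ hσ, Real.exp_neg]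
  have h := Real.add_one_le_exp (σ * t)
  have h2 : σ * t ≤ Real.exp (σ * t) := by linarith
  calc t * (Real.exp (σ * t))⁻¹ * σ = (σ * t) * (Real.exp (σ * t))⁻¹ := by ring
    _ ≤ Real.exp (σ * t) * (Real.exp (σ * t))⁻¹ := by
        apply mul_le_mul_of_nonneg_right h2 (by positivity)
    _ = 1 := mul_inv_cancel₀ (Real.exp_pos _).ne'

theorem c5_exp2 {σ t : ℝ} (hσ : 0 < σ) (ht : 1 ≤ t) :
    Real.exp (-(σ * t)) ≤ (2 / σ) ^ 2 * t ^ (-(3 / 2 : ℝ)) := by
  have ht0 : 0 < t := by linarith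
  have h1 := c5_exp (σ := σ / 2) (t := t) (by positivity)
  have h2 : Real.exp (-(σ * t)) = Real.exp (-(σ / 2 * t)) ^ 2 := by
    rw [← Real.exp_nat_mul]
    congr 1
    push_cast
    ring
  have h3 : Real.exp (-(σ / 2 * t)) ≤ 1 / (σ / 2) / t := by
    rw [le_div_iff₀ ht0, mul_comm]
    exact h1
  have h4 : (1 : ℝ) / t ^ 2 ≤ t ^ (-(3 / 2 : ℝ)) := by
    rw [one_div, ← Real.rpow_natCast, ← Real.rpow_neg ht0.le]
    exact Real.rpow_le_rpow_of_exponent_le ht (by norm_num)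
  rw [h2]
  calc Real.exp (-(σ / 2 * t)) ^ 2 ≤ (1 / (σ / 2) / t) ^ 2 :=
        pow_le_pow_left₀ (Real.exp_pos _).le h3 2
    _ = (2 / σ) ^ 2 * (1 / t ^ 2) := by
        field_simp
    _ ≤ _ := by gcongr

theorem c5_norm_exp (w : ℂ) (t : ℝ) : ‖cexp (-(w * t))‖ = Real.exp (-(w.re * t)) := by
  rw [Complex.norm_exp]
  congr 1
  simp

theorem c5_int1 (F : Frame0 ν ε a f) (hL : LFun ν ε a f L) {σ : ℝ} (hσ : 0 < σ) :
    IntegrableOn (fun t : ℝ => c5_l L t * Real.exp (-(σ * t))) (Ioi 1) := by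
  refine Integrable.mono' ((c5_int F hL).const_mul ((2 / σ) ^ 2)) ?_ ?_
  · have := c5_cont_l hL
    exact Continuous.aestronglyMeasurable (by fun_prop)
  · refine (ae_restrict_iff' measurableSet_Ioi).2 (Eventually.of_forall fun t ht => ?_)
    have h := c5_exp2 hσ (le_of_lt (mem_Ioi.1 ht))
    have hl := c5_l_nonneg L t
    rw [Real.norm_of_nonneg (by positivity)]
    calc c5_l L t * Real.exp (-(σ * t)) ≤ c5_l L t * ((2 / σ) ^ 2 * t ^ (-(3 / 2 : ℝ))) := by
          gcongr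
      _ = _ := by ring

/-- `M(w) = ∫_1^∞ l(t) t^{-1} e^{-wt} dt` -/
noncomputable def c5_M (L : ℂ → ℂ) (w : ℂ) : ℂ :=
  ∫ t in Ioi (1 : ℝ), ((c5_l L t / t : ℝ) : ℂ) * cexp (-(w * t))

theorem c5_M_deriv (F : Frame0 ν ε a f) (hL : LFun ν ε a f L) {w : ℂ} (hw : 0 < w.re) :
    HasDerivAt (c5_M L) (-∫ t in Ioi (1 : ℝ), ((c5_l L t : ℝ) : ℂ) * cexp (-(w * t))) w := by
  have hcl := c5_cont_l hL
  have hball : Metric.ball w (w.re / 2) ∈ 𝓝 w := Metric.ball_mem_nhds w (by positivity)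
  have hre : ∀ z ∈ Metric.ball w (w.re / 2), w.re / 2 ≤ z.re := by
    intro z hz
    rw [Metric.mem_ball, dist_eq_norm] at hz
    have h1 := Complex.abs_re_le_norm (z - w)
    rw [sub_re] at h1
    have h2 := (abs_le.1 h1).1
    linarith
  have hmeas : ∀ z : ℂ, AEStronglyMeasurable (fun t : ℝ => ((c5_l L t / t : ℝ) : ℂ) *
      cexp (-(z * t))) (volume.restrict (Ioi 1)) := by
    intro z
    refine AEStronglyMeasurable.mul ?_ (Continuous.aestronglyMeasurable (by fun_prop))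
    refine (ContinuousOn.aestronglyMeasurable ?_ measurableSet_Ioi)
    refine Complex.continuous_ofReal.comp_continuousOn ?_
    exact hcl.continuousOn.div continuousOn_id (fun t ht => by
      have : (1 : ℝ) < t := ht
      exact (by positivity : (0 : ℝ) < t).ne')
  have key := hasDerivAt_integral_of_dominated_loc_of_deriv_le
    (μ := volume.restrict (Ioi (1 : ℝ)))
    (F := fun (z : ℂ) (t : ℝ) => ((c5_l L t / t : ℝ) : ℂ) * cexp (-(z * t)))
    (F' := fun (z : ℂ) (t : ℝ) => -(((c5_l L t : ℝ) : ℂ) * cexp (-(z * t)))) (x₀ := w)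
    (s := Metric.ball w (w.re / 2))
    (bound := fun t : ℝ => c5_l L t * Real.exp (-(w.re / 2 * t))) hball
    (Eventually.of_forall hmeas) ?_ ?_ ?_ (c5_int1 F hL (by positivity)) ?_
  · have := key.2
    rw [integral_neg] at this
    exact this
  · refine Integrable.mono' (c5_int1 F hL hw) (hmeas w) ?_
    refine (ae_restrict_iff' measurableSet_Ioi).2 (Eventually.of_forall fun t ht => ?_)
    have ht1 : (1 : ℝ) < t := ht
    have hl := c5_l_nonneg L t
    rw [norm_mul, c5_norm_exp, Complex.norm_real, Real.norm_of_nonneg (by positivity)]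
    gcongr
    exact div_le_self hl ht1.le
  · exact Continuous.aestronglyMeasurable (by fun_prop)
  · refine (ae_restrict_iff' measurableSet_Ioi).2 (Eventually.of_forall fun t ht z hz => ?_)
    have ht1 : (1 : ℝ) < t := ht
    have hl := c5_l_nonneg L t
    rw [norm_neg, norm_mul, c5_norm_exp, Complex.norm_real, Real.norm_of_nonneg hl]
    have := hre z hz
    gcongr
  · refine (ae_restrict_iff' measurableSet_Ioi).2 (Eventually.of_forall fun t ht z hz => ?_)
    have ht1 : (1 : ℝ) < t := ht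
    have ht0 : (t : ℂ) ≠ 0 := by
      exact_mod_cast (by positivity : (0 : ℝ) < t).ne'
    have h1 : HasDerivAt (fun z : ℂ => -(z * t)) (-(t : ℂ)) z :=
      (((hasDerivAt_id' z).mul_const (t : ℂ)).fun_neg).congr_deriv (by simp)
    have h2 := (h1.cexp).const_mul ((c5_l L t / t : ℝ) : ℂ)
    refine h2.congr_deriv ?_
    push_cast
    field_simp

theorem c5_FC (F : Frame0 ν ε a f) (hL : LFun ν ε a f L) {r R : ℝ} (hr : 0 < r) :
    ∃ C : ℝ, ∀ θ : ℂ, 0 < θ.re → θ.re ≤ 1 → r ≤ |θ.im| → |θ.im| ≤ R →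
      ‖c5_M L (2 * θ)‖ ≤ C * ‖FC ν ε L θ‖ + C := by
  obtain ⟨C, hC⟩ := Ph_lg F.nu F.eps (r := r) (R := R) hr
  have hcl := c5_cont_l hL
  have hpi := Real.pi_gt_three
  set J : ℝ := ∫ t in Ioc (0 : ℝ) 1, c5_l L t with hJ
  set K : ℝ := ∫ t in Ioi (1 : ℝ), c5_l L t * t ^ (-(3 / 2 : ℝ)) with hK
  have hJ0 : 0 ≤ J := setIntegral_nonneg measurableSet_Ioc (fun t _ => c5_l_nonneg L t)
  have hK0 : 0 ≤ K := setIntegral_nonneg measurableSet_Ioi (fun t ht =>
    mul_nonneg (c5_l_nonneg L t) (Real.rpow_nonneg (by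
      have : (1 : ℝ) < t := ht
      linarith) _))
  refine ⟨|C| * (J + K) + 2 * Real.pi, fun θ h0 h1 h2 h3 => ?_⟩
  have hθπ : θ.re < Real.pi := by linarith
  have hcp : Continuous (fun t : ℝ => Ph ν ε t θ) := c5_cont_Ph F.nu h0 hθπ
  have hC' := fun t : ℝ => hC t θ h0 h1 h2 h3
  -- the error on `t ≥ 1`
  have herr : ∀ t : ℝ, 1 ≤ t → ‖Ph ν ε t θ - (Real.pi ^ 2 / t : ℝ) * cexp (-(2 * θ * t))‖ ≤
      |C| * t ^ (-(3 / 2 : ℝ)) := by
    intro t ht
    have ht0 : 0 < t := by linarith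
    have k := (hC' t).1 ht
    have e1 : Ph ν ε t θ - (Real.pi ^ 2 / t : ℝ) * cexp (-(2 * θ * t)) =
        (Ph ν ε t θ * t * cexp (2 * t * θ) - Real.pi ^ 2) *
          (((1 / t : ℝ) : ℂ) * cexp (-(2 * θ * t))) := by
      have e2 : cexp (2 * t * θ) * cexp (-(2 * θ * t)) = 1 := by
        rw [← Complex.exp_add]
        have : 2 * (t : ℂ) * θ + -(2 * θ * t) = 0 := by ring
        rw [this, Complex.exp_zero]
      have ht0' : (t : ℂ) ≠ 0 := by exact_mod_cast ht0.ne'
      have e3 : (Ph ν ε t θ * t * cexp (2 * t * θ) - Real.pi ^ 2) *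
          (((1 / t : ℝ) : ℂ) * cexp (-(2 * θ * t))) =
          Ph ν ε t θ * (t * ((1 / t : ℝ) : ℂ)) * (cexp (2 * t * θ) * cexp (-(2 * θ * t))) -
          ((Real.pi : ℂ) ^ 2 * ((1 / t : ℝ) : ℂ)) * cexp (-(2 * θ * t)) := by ring
      rw [e3, e2]
      push_cast
      rw [mul_one_div_cancel ht0']
      ring
    rw [e1, norm_mul, norm_mul, c5_norm_exp, Complex.norm_real,
      Real.norm_of_nonneg (by positivity : (0 : ℝ) ≤ 1 / t)]
    have e4 : Real.exp (-((2 * θ).re * t)) ≤ 1 := by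
      rw [Real.exp_le_one_iff]
      have : (2 * θ).re = 2 * θ.re := by simp
      rw [this]
      have : 0 ≤ 2 * θ.re * t := by positivity
      linarith
    have e5 : t ^ (-(3 / 2 : ℝ)) = t ^ (-(1 / 2 : ℝ)) * (1 / t) := by
      have e6 : (1 / t) = t ^ (-1 : ℝ) := by
        rw [Real.rpow_neg_one, one_div]
      rw [e6, ← Real.rpow_add ht0]
      norm_num
    have hp0 : 0 ≤ t ^ (-(1 / 2 : ℝ)) := Real.rpow_nonneg ht0.le _
    rw [e5]
    calc ‖Ph ν ε t θ * t * cexp (2 * t * θ) - Real.pi ^ 2‖ *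
          (1 / t * Real.exp (-((2 * θ).re * t)))
        ≤ (C * t ^ (-(1 / 2 : ℝ))) * (1 / t * 1) := by
          gcongr
          exact (norm_nonneg _).trans k
      _ ≤ (|C| * t ^ (-(1 / 2 : ℝ))) * (1 / t * 1) := by
          gcongr
          exact le_abs_self C
      _ = _ := by ring
  -- integrability of the two pieces
  have hI1 : IntegrableOn (fun t : ℝ => ((c5_l L t : ℝ) : ℂ) *
      (Ph ν ε t θ - (Real.pi ^ 2 / t : ℝ) * cexp (-(2 * θ * t)))) (Ioi 1) := by
    refine Integrable.mono' ((c5_int F hL).const_mul |C|) ?_ ?_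
    · refine ContinuousOn.aestronglyMeasurable ?_ measurableSet_Ioi
      refine (Complex.continuous_ofReal.comp hcl).continuousOn.mul (hcp.continuousOn.sub ?_)
      refine ContinuousOn.mul (Complex.continuous_ofReal.comp_continuousOn
        (continuousOn_const.div continuousOn_id (fun t ht => ?_))) (by fun_prop)
      have : (1 : ℝ) < t := ht
      exact (by positivity : (0 : ℝ) < t).ne'
    · refine (ae_restrict_iff' measurableSet_Ioi).2 (Eventually.of_forall fun t ht => ?_)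
      have ht1 : (1 : ℝ) < t := ht
      have hl := c5_l_nonneg L t
      rw [norm_mul, Complex.norm_real, Real.norm_of_nonneg hl]
      calc c5_l L t * _ ≤ c5_l L t * (|C| * t ^ (-(3 / 2 : ℝ))) := by
            gcongr
            exact herr t ht1.le
        _ = _ := by ring
  have h2θ : 0 < (2 * θ).re := by
    have : (2 * θ).re = 2 * θ.re := by simp
    rw [this]
    positivity
  have hI2 : IntegrableOn (fun t : ℝ => ((c5_l L t / t : ℝ) : ℂ) * cexp (-(2 * θ * t)))
      (Ioi 1) := by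
    refine Integrable.mono' (c5_int1 F hL h2θ) ?_ ?_
    · refine AEStronglyMeasurable.mul ?_ (Continuous.aestronglyMeasurable (by fun_prop))
      refine (ContinuousOn.aestronglyMeasurable ?_ measurableSet_Ioi)
      refine Complex.continuous_ofReal.comp_continuousOn ?_
      exact hcl.continuousOn.div continuousOn_id (fun t ht => by
        have : (1 : ℝ) < t := ht
        exact (by positivity : (0 : ℝ) < t).ne')
    · refine (ae_restrict_iff' measurableSet_Ioi).2 (Eventually.of_forall fun t ht => ?_)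
      have ht1 : (1 : ℝ) < t := ht
      have hl := c5_l_nonneg L t
      rw [norm_mul, c5_norm_exp, Complex.norm_real, Real.norm_of_nonneg (by positivity)]
      gcongr
      exact div_le_self hl ht1.le
  have hsplit : ∀ t ∈ Ioi (1 : ℝ), ((c5_l L t : ℝ) : ℂ) * Ph ν ε t θ =
      ((c5_l L t : ℝ) : ℂ) * (Ph ν ε t θ - (Real.pi ^ 2 / t : ℝ) * cexp (-(2 * θ * t))) +
      ((Real.pi ^ 2 : ℝ) : ℂ) * (((c5_l L t / t : ℝ) : ℂ) * cexp (-(2 * θ * t))) := by
    intro t _
    push_cast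
    ring
  have hI3 : IntegrableOn (fun t : ℝ => ((c5_l L t : ℝ) : ℂ) * Ph ν ε t θ) (Ioi 1) :=
    (hI1.add (hI2.const_mul ((Real.pi ^ 2 : ℝ) : ℂ))).congr_fun
      (fun t ht => (hsplit t ht).symm) measurableSet_Ioi
  have hcc : Continuous (fun t : ℝ => ((c5_l L t : ℝ) : ℂ) * Ph ν ε t θ) :=
    (Complex.continuous_ofReal.comp hcl).mul hcp
  have hI4 : IntegrableOn (fun t : ℝ => ((c5_l L t : ℝ) : ℂ) * Ph ν ε t θ) (Ioc 0 1) :=
    (hcc.integrableOn_Icc (a := 0) (b := 1)).mono_set Ioc_subset_Icc_self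
  have hI5 : IntegrableOn (fun t : ℝ => ((c5_l L t : ℝ) : ℂ) * Ph ν ε t θ) (Ioi 0) := by
    rw [← Ioc_union_Ioi_eq_Ioi (zero_le_one (α := ℝ))]
    exact hI4.union hI3
  -- the integral over the line
  set G : ℝ → ℂ := fun t => ((‖L (ha t)‖ ^ 2 : ℝ) : ℂ) * Ph ν ε t θ with hG
  have hcL := hL.diff.continuous
  have hch := c5_cont_ha
  have hcG : Continuous G := by
    have : Continuous (fun t : ℝ => ((‖L (ha t)‖ ^ 2 : ℝ) : ℂ)) := by fun_prop
    exact this.mul hcp
  have hG1 : IntegrableOn G (Ioi 0) := by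
    refine Integrable.mono hI5 hcG.aestronglyMeasurable (Eventually.of_forall fun t => ?_)
    simp only [hG]
    rw [norm_mul, norm_mul, Complex.norm_real, Complex.norm_real,
      Real.norm_of_nonneg (c5_l_nonneg L t), Real.norm_of_nonneg (by positivity)]
    gcongr
    unfold c5_l
    have : 0 ≤ ‖L (ha (-t))‖ ^ 2 := by positivity
    linarith
  have hsym : ∀ t : ℝ, Ph ν ε (-t) θ = Ph ν ε t θ := fun t => (hC' t).2.2
  have hG2 : IntegrableOn (fun t => G (-t)) (Ioi 0) := by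
    refine Integrable.mono hI5 (hcG.comp continuous_neg).aestronglyMeasurable
      (Eventually.of_forall fun t => ?_)
    simp only [hG]
    rw [hsym, norm_mul, norm_mul, Complex.norm_real, Complex.norm_real,
      Real.norm_of_nonneg (c5_l_nonneg L t), Real.norm_of_nonneg (by positivity)]
    gcongr
    unfold c5_l
    have : 0 ≤ ‖L (ha t)‖ ^ 2 := by positivity
    linarith
  have hG3 : IntegrableOn G (Iic 0) := by
    rw [← integrable_indicator_iff measurableSet_Iic]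
    have h5 : Integrable ((Ici (0 : ℝ)).indicator (fun t => G (-t))) := by
      rw [integrable_indicator_iff measurableSet_Ici]
      exact integrableOn_Ici_iff_integrableOn_Ioi (by simp) |>.2 hG2
    have h6 := h5.comp_neg
    refine h6.congr (Eventually.of_forall fun t => ?_)
    show (Ici (0 : ℝ)).indicator (fun t => G (-t)) (-t) = (Iic (0 : ℝ)).indicator G t
    by_cases h : t ≤ 0
    · have m1 : -t ∈ Ici (0 : ℝ) := by
        rw [mem_Ici]
        linarith
      have m2 : t ∈ Iic (0 : ℝ) := h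
      rw [indicator_of_mem m1, indicator_of_mem m2, neg_neg]
    · have m1 : -t ∉ Ici (0 : ℝ) := by
        rw [mem_Ici]
        linarith
      have m2 : t ∉ Iic (0 : ℝ) := h
      rw [indicator_of_notMem m1, indicator_of_notMem m2]
  have hline : ∫ t : ℝ, G t = ∫ t in Ioi (0 : ℝ), ((c5_l L t : ℝ) : ℂ) * Ph ν ε t θ := by
    rw [← intervalIntegral.integral_Iic_add_Ioi hG3 hG1]
    have h4 := integral_comp_neg_Ioi (0 : ℝ) G
    rw [neg_zero] at h4
    rw [← h4, ← integral_add hG2 hG1]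
    refine integral_congr_ae (Eventually.of_forall fun t => ?_)
    simp only [hG]
    rw [hsym]
    unfold c5_l
    push_cast
    ring
  have hsp2 : ∫ t in Ioi (0 : ℝ), ((c5_l L t : ℝ) : ℂ) * Ph ν ε t θ =
      (∫ t in Ioc (0 : ℝ) 1, ((c5_l L t : ℝ) : ℂ) * Ph ν ε t θ) +
      ((∫ t in Ioi (1 : ℝ), ((c5_l L t : ℝ) : ℂ) *
        (Ph ν ε t θ - (Real.pi ^ 2 / t : ℝ) * cexp (-(2 * θ * t)))) +
        ((Real.pi ^ 2 : ℝ) : ℂ) * c5_M L (2 * θ)) := by
    rw [← Ioc_union_Ioi_eq_Ioi (zero_le_one (α := ℝ)),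
      setIntegral_union (Set.Ioc_disjoint_Ioi le_rfl) measurableSet_Ioi hI4 hI3]
    congr 1
    unfold c5_M
    rw [← integral_const_mul, ← integral_add hI1 (hI2.const_mul _)]
    exact setIntegral_congr_fun measurableSet_Ioi hsplit
  -- the bounds
  have hb1 : ‖∫ t in Ioc (0 : ℝ) 1, ((c5_l L t : ℝ) : ℂ) * Ph ν ε t θ‖ ≤ |C| * J := by
    rw [hJ, ← integral_const_mul]
    refine norm_integral_le_of_norm_le ((hcl.integrableOn_Icc (a := 0) (b := 1)).mono_set
      Ioc_subset_Icc_self |>.const_mul _) ?_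
    refine (ae_restrict_iff' measurableSet_Ioc).2 (Eventually.of_forall fun t ht => ?_)
    rw [norm_mul, Complex.norm_real, Real.norm_of_nonneg (c5_l_nonneg L t), mul_comm]
    exact mul_le_mul_of_nonneg_right (((hC' t).2.1 ht.1.le ht.2).trans (le_abs_self C))
      (c5_l_nonneg L t)
  have hb2 : ‖∫ t in Ioi (1 : ℝ), ((c5_l L t : ℝ) : ℂ) *
      (Ph ν ε t θ - (Real.pi ^ 2 / t : ℝ) * cexp (-(2 * θ * t)))‖ ≤ |C| * K := by
    rw [hK, ← integral_const_mul]
    refine norm_integral_le_of_norm_le ((c5_int F hL).const_mul _) ?_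
    refine (ae_restrict_iff' measurableSet_Ioi).2 (Eventually.of_forall fun t ht => ?_)
    have ht1 : (1 : ℝ) < t := ht
    have hl := c5_l_nonneg L t
    rw [norm_mul, Complex.norm_real, Real.norm_of_nonneg hl]
    calc c5_l L t * _ ≤ c5_l L t * (|C| * t ^ (-(3 / 2 : ℝ))) := by
          gcongr
          exact herr t ht1.le
      _ = _ := by ring
  have hFC : ∫ t : ℝ, G t = ((2 * Real.pi : ℝ) : ℂ) * FC ν ε L θ := by
    unfold FC
    have : ((2 * Real.pi : ℝ) : ℂ) ≠ 0 := by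
      exact_mod_cast (by positivity : (2 * Real.pi : ℝ) ≠ 0)
    rw [← mul_assoc, mul_inv_cancel₀ this, one_mul]
  have hM : ((Real.pi ^ 2 : ℝ) : ℂ) * c5_M L (2 * θ) = ((2 * Real.pi : ℝ) : ℂ) * FC ν ε L θ -
      (∫ t in Ioc (0 : ℝ) 1, ((c5_l L t : ℝ) : ℂ) * Ph ν ε t θ) -
      (∫ t in Ioi (1 : ℝ), ((c5_l L t : ℝ) : ℂ) *
        (Ph ν ε t θ - (Real.pi ^ 2 / t : ℝ) * cexp (-(2 * θ * t)))) := by
    rw [← hFC, hline, hsp2]
    ring
  have hN : Real.pi ^ 2 * ‖c5_M L (2 * θ)‖ ≤ 2 * Real.pi * ‖FC ν ε L θ‖ + |C| * J + |C| * K := by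
    have e1 : Real.pi ^ 2 * ‖c5_M L (2 * θ)‖ = ‖((Real.pi ^ 2 : ℝ) : ℂ) * c5_M L (2 * θ)‖ := by
      rw [norm_mul, Complex.norm_real, Real.norm_of_nonneg (by positivity)]
    have e2 : ‖((2 * Real.pi : ℝ) : ℂ) * FC ν ε L θ‖ = 2 * Real.pi * ‖FC ν ε L θ‖ := by
      rw [norm_mul, Complex.norm_real, Real.norm_of_nonneg (by positivity)]
    rw [e1, hM]
    refine (norm_sub_le _ _).trans (add_le_add ((norm_sub_le _ _).trans
      (add_le_add e2.le hb1)) hb2)
  have hn0 : 0 ≤ ‖FC ν ε L θ‖ := norm_nonneg _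
  have hm0 : 0 ≤ ‖c5_M L (2 * θ)‖ := norm_nonneg _
  have hC0 : 0 ≤ |C| * (J + K) := by positivity
  have h8 : 1 ≤ Real.pi ^ 2 := by nlinarith
  have h9 : ‖c5_M L (2 * θ)‖ ≤ Real.pi ^ 2 * ‖c5_M L (2 * θ)‖ := le_mul_of_one_le_left hm0 h8
  have h10 : 0 ≤ |C| * (J + K) * ‖FC ν ε L θ‖ := by positivity
  nlinarith

/-- C5: a bound for `F` near `i η` gives a bound for the Laplace transform near `2 i η` -/
theorem nbound_pr (F : Frame0 ν ε a f) (hL : LFun ν ε a f L) {η r : ℝ} (hη : 0 < η) (hr : 0 < r)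
    (hb : ∃ C : ℝ, ∀ θ : ℂ, 0 < θ.re → ‖θ - η * I‖ < r → ‖FC ν ε L θ‖ ≤ C) :
    ∃ C ρ : ℝ, 0 < ρ ∧ ∀ w : ℂ, 0 < w.re → ‖w - 2 * η * I‖ < ρ →
      ‖∫ t in Ioi (1 : ℝ), ((‖L (ha t)‖ ^ 2 + ‖L (ha (-t))‖ ^ 2 : ℝ) : ℂ) * cexp (-(w * t))‖ ≤
        C / w.re := by
  obtain ⟨B, hB⟩ := hb
  obtain ⟨C, hC⟩ := c5_FC F hL (r := η / 2) (R := η + 1) (by positivity)
  set ρ : ℝ := min (min (2 * r) η) 1 with hρ
  have hρ0 : 0 < ρ := lt_min (lt_min (by positivity) hη) one_pos
  have hρ1 : ρ ≤ 2 * r := (min_le_left _ _).trans (min_le_left _ _)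
  have hρ2 : ρ ≤ η := (min_le_left _ _).trans (min_le_right _ _)
  have hρ3 : ρ ≤ 1 := min_le_right _ _
  -- `M` is bounded near `2 i η`
  have hM : ∀ w : ℂ, 0 < w.re → ‖w - 2 * η * I‖ < ρ → ‖c5_M L w‖ ≤ |C| * |B| + |C| := by
    intro w hw hwρ
    have e1 : w = 2 * (w / 2) := by ring
    have e2 : (w / 2).re = w.re / 2 := by simp
    have e3 : (w / 2).im = w.im / 2 := by simp
    have e4 : (w / 2 - η * I) = (w - 2 * η * I) / 2 := by ring
    have e5 : ‖w / 2 - η * I‖ < r := by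
      rw [e4, norm_div, Complex.norm_ofNat]
      linarith
    have e6 : |w.re| ≤ ‖w - 2 * η * I‖ := by
      have := Complex.abs_re_le_norm (w - 2 * η * I)
      simpa using this
    have e7 : |w.im - 2 * η| ≤ ‖w - 2 * η * I‖ := by
      have := Complex.abs_im_le_norm (w - 2 * η * I)
      simpa using this
    have e8 := abs_le.1 e7
    have e9 := abs_le.1 e6
    have e10 : 0 < w.im := by linarith
    have e11 : |(w / 2).im| = w.im / 2 := by
      rw [e3, abs_of_pos (by positivity)]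
    have h1 := hC (w / 2) (by rw [e2]; positivity) (by rw [e2]; linarith)
      (by rw [e11]; linarith) (by rw [e11]; linarith)
    rw [← e1] at h1
    have h2 := hB (w / 2) (by rw [e2]; positivity) e5
    calc ‖c5_M L w‖ ≤ C * ‖FC ν ε L (w / 2)‖ + C := h1
      _ ≤ |C| * |B| + |C| := by
          have i1 : C * ‖FC ν ε L (w / 2)‖ ≤ |C| * |B| := by
            calc C * ‖FC ν ε L (w / 2)‖ ≤ |C| * ‖FC ν ε L (w / 2)‖ := by
                  gcongr
                  exact le_abs_self C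
              _ ≤ |C| * |B| := by
                  gcongr
                  exact h2.trans (le_abs_self B)
          have i2 := le_abs_self C
          linarith
  refine ⟨2 * (|C| * |B| + |C|), ρ / 2, by positivity, fun w hw hwρ => ?_⟩
  have hderiv := c5_M_deriv F hL hw
  have hwre : w.re ≤ ‖w - 2 * η * I‖ := by
    have := Complex.abs_re_le_norm (w - 2 * η * I)
    have h2 : (w - 2 * η * I).re = w.re := by simp
    rw [h2] at this
    exact (le_abs_self _).trans this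
  have hin : ∀ z ∈ Metric.closedBall w (w.re / 2), 0 < z.re ∧ ‖z - 2 * η * I‖ < ρ := by
    intro z hz
    rw [Metric.mem_closedBall, dist_eq_norm] at hz
    have h1 := Complex.abs_re_le_norm (z - w)
    rw [sub_re] at h1
    have h2 := (abs_le.1 h1).1
    refine ⟨by linarith, ?_⟩
    calc ‖z - 2 * η * I‖ = ‖(z - w) + (w - 2 * η * I)‖ := by ring_nf
      _ ≤ ‖z - w‖ + ‖w - 2 * η * I‖ := norm_add_le _ _
      _ < ρ := by linarith
  have hdc : DiffContOnCl ℂ (c5_M L) (Metric.ball w (w.re / 2)) := by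
    apply DifferentiableOn.diffContOnCl
    rw [closure_ball w (by positivity : w.re / 2 ≠ 0)]
    intro z hz
    exact (c5_M_deriv F hL (hin z hz).1).differentiableAt.differentiableWithinAt
  have hcau := Complex.norm_deriv_le_of_forall_mem_sphere_norm_le (c := w) (R := w.re / 2)
    (C := |C| * |B| + |C|) (by positivity) hdc (fun z hz =>
      hM z (hin z (Metric.sphere_subset_closedBall hz)).1
        (hin z (Metric.sphere_subset_closedBall hz)).2)
  rw [hderiv.deriv, norm_neg] at hcau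
  have hfin : (|C| * |B| + |C|) / (w.re / 2) = 2 * (|C| * |B| + |C|) / w.re := by
    field_simp
  rw [hfin] at hcau
  exact hcau

end

end Pool.Agent.JO.FM

namespace Pool.Agent.JO.FM

theorem nbound : type_of% @nbound_pr := @nbound_pr

end Pool.Agent.JO.FM
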