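import Pool.Agent.Lib_helper45.JO.Defs2

/-!
# Project JO, part FM: block D2, the function `kap` is holomorphic
-/

set_option autoImplicit false

namespace Pool.Agent.JO.FM

open Complex Filter Topology MeasureTheory Set
open UpperHalfPlane hiding I
open scoped MatrixGroups ComplexConjugate

section

variable {ν : ℂ} {ε : ℝ} {a : ℕ → ℂ} {f : ℍ → ℂ} {L : ℂ → ℂ}

theorem d2_ne {w : ℂ} (h : 0 < w.re ∨ w.im ≠ 0) (m : ℕ) : w ≠ -(m : ℂ) := by
  intro e
  have e1 : w.re = -(m : ℝ) := by rw [e]; simp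
  have e2 : w.im = 0 := by rw [e]; simp
  have e3 : (0 : ℝ) ≤ m := m.cast_nonneg
  rcases h with h | h
  · linarith
  · exact h e2

/-- D2: `kap` is holomorphic -/
theorem kap_diff_pr (hν : GoodNu ν) : DifferentiableOn ℂ (kap ν) {s | 0 < s.re ∧ 0 < s.im} := by
  intro s hs
  obtain ⟨hs1, hs2⟩ := hs
  refine DifferentiableAt.differentiableWithinAt ?_
  have e1 : (s / 2).re = s.re / 2 := by simp
  have e2 : (s / 2).im = s.im / 2 := by simp
  have g0 : DifferentiableAt ℂ Gamma (s / 2) :=
    differentiableAt_Gamma _ (d2_ne (Or.inl (by rw [e1]; linarith)))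
  have g1 : DifferentiableAt ℂ Gamma (s / 2 + ν) := by
    refine differentiableAt_Gamma _ (d2_ne ?_)
    rcases hν.real_or with h | h
    · right
      rw [add_im, e2, h]
      intro h'
      linarith
    · left
      rw [add_re, e1, h]
      linarith
  have g2 : DifferentiableAt ℂ Gamma (s / 2 - ν) := by
    refine differentiableAt_Gamma _ (d2_ne ?_)
    rcases hν.real_or with h | h
    · right
      rw [sub_im, e2, h]
      intro h'
      linarith
    · left
      rw [sub_re, e1, h]
      linarith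
  have g3 : DifferentiableAt ℂ Gamma s := differentiableAt_Gamma _ (d2_ne (Or.inl hs1))
  have g4 : Gamma s ≠ 0 := Gamma_ne_zero (d2_ne (Or.inl hs1))
  have d0 : DifferentiableAt ℂ (fun s : ℂ => s / 2) s := by fun_prop
  have d1 : DifferentiableAt ℂ (fun s : ℂ => s / 2 + ν) s := by fun_prop
  have d2 : DifferentiableAt ℂ (fun s : ℂ => s / 2 - ν) s := by fun_prop
  have d3 : DifferentiableAt ℂ (fun s : ℂ => s - 3) s := by fun_prop
  have h0 : DifferentiableAt ℂ (fun s : ℂ => Gamma (s / 2)) s := g0.comp s d0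
  have h1 : DifferentiableAt ℂ (fun s : ℂ => Gamma (s / 2 + ν)) s := g1.comp s d1
  have h2 : DifferentiableAt ℂ (fun s : ℂ => Gamma (s / 2 - ν)) s := g2.comp s d2
  have h3 : DifferentiableAt ℂ (fun s : ℂ => (2 : ℂ) ^ (s - 3)) s :=
    d3.const_cpow (Or.inl two_ne_zero)
  unfold kap
  exact ((((h3.mul (h0.pow 2)).mul h1).mul h2)).div g3 g4

end

end Pool.Agent.JO.FM

namespace Pool.Agent.JO.FM

theorem kap_diff : type_of% @kap_diff_pr := @kap_diff_pr

end Pool.Agent.JO.FM
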