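import Pool.Agent.Lib_helper45.JO.Defs2
import Pool.Agent.Lib_helper45.JOM.K2
import Pool.Agent.Lib_helper45.JOM.M3
import Pool.Agent.Lib_helper45.JOM.M7
import Pool.Agent.Lib_helper45.JOM.P5
import Pool.Agent.Lib_helper45.JOM.P6
import Pool.Agent.Lib_helper45.JOM.PHA

/-! Project JO, part FM, block D4A: `F` near `0` (uses K2 for the continuity of `WW`) -/

set_option autoImplicit false

namespace Pool.Agent.JO.FM

open Complex Filter Topology MeasureTheory Set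
open UpperHalfPlane hiding I
open scoped MatrixGroups ComplexConjugate

theorem d4a_conj (t : ℝ) : conj (ha t) = ha (-t) := by
  unfold ha
  apply Complex.ext
  · simp
  · simp

theorem d4a_re (t : ℝ) : (ha t).re = 1 / 2 := by
  unfold ha
  simp

theorem d4a_sym {ν : ℂ} {ε : ℝ} (hν : GoodNu ν) (hε : ε = 1 ∨ ε = -1) {θ : ℝ}
    (h0 : 0 < θ) (h1 : θ < Real.pi) (t : ℝ) :
    ‖Gs ν ε (ha (-t)) θ‖ = ‖Gs ν ε (ha t) θ‖ := by
  have h := (Gs_symm (ν := ν) (ε := ε) hν hε (s := ha t) (θ := (θ : ℂ))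
    (by rw [d4a_re]; exact hν.lt_half) (by simpa using h0) (by simpa using h1)).2
  rw [d4a_conj, Complex.conj_ofReal] at h
  have h2 := congrArg norm h
  rw [Complex.norm_conj, norm_mul, Complex.norm_real] at h2
  have h3 : ‖ε‖ = 1 := by
    rcases hε with h | h
    · rw [h]; simp
    · rw [h]; simp
  rw [h3, one_mul] at h2
  exact h2.symm

theorem d4a_half {h : ℝ → ℝ} (hh : Integrable h) :
    IntegrableOn (fun t => h t + h (-t)) (Ioi 0) ∧
      ∫ t, h t = ∫ t in Ioi (0 : ℝ), (h t + h (-t)) := by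
  have h1 : Integrable (fun t => h (-t)) := hh.comp_neg
  refine ⟨hh.integrableOn.add h1.integrableOn, ?_⟩
  rw [integral_add hh.integrableOn h1.integrableOn, integral_comp_neg_Ioi, neg_zero,
    ← intervalIntegral.integral_Iic_add_Ioi (b := (0 : ℝ)) hh.integrableOn hh.integrableOn]
  ring

theorem d4a_split {k : ℝ → ℝ} (hk : IntegrableOn k (Ioi 0)) :
    ∫ t in Ioi (0 : ℝ), k t = (∫ t in Ioc (0 : ℝ) 1, k t) + ∫ t in Ioi (1 : ℝ), k t := by
  rw [← Ioc_union_Ioi_eq_Ioi (zero_le_one (α := ℝ)), setIntegral_union]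
  · exact (Ioc_disjoint_Ioi le_rfl)
  · exact measurableSet_Ioi
  · exact hk.mono_set Ioc_subset_Ioi_self
  · exact hk.mono_set (Ioi_subset_Ioi zero_le_one)

theorem d4a_tail {k G e W b : ℝ → ℝ} (hk : Continuous k)
    (hG : IntegrableOn (fun t => k t * G t) (Ioi 1)) (hW : ContinuousOn W (Ioi 1))
    (he : ContinuousOn e (Ici 1))
    (hb : ∀ t, 1 ≤ t → |G t - 2 * Real.pi / t * (1 + e t) * W t| ≤ b t)
    (hi : IntegrableOn (fun t => |k t| * b t) (Ioi 1)) :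
    IntegrableOn (fun t => k t * (2 * Real.pi / t * (1 + e t) * W t)) (Ioi 1) ∧
      |(∫ t in Ioi (1 : ℝ), k t * G t) -
        ∫ t in Ioi (1 : ℝ), k t * (2 * Real.pi / t * (1 + e t) * W t)| ≤
        ∫ t in Ioi (1 : ℝ), |k t| * b t := by
  have hc : ContinuousOn (fun t => k t * (2 * Real.pi / t * (1 + e t) * W t)) (Ioi 1) := by
    apply hk.continuousOn.mul
    apply ContinuousOn.mul _ hW
    apply ContinuousOn.mul
    · exact continuousOn_const.div continuousOn_id fun t ht => by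
        have : (1 : ℝ) < t := ht
        exact (by linarith : (0 : ℝ) < t).ne'
    · exact continuousOn_const.add (he.mono Ioi_subset_Ici_self)
  have hm := hc.aestronglyMeasurable (μ := volume) measurableSet_Ioi
  have hbd : ∀ᵐ t ∂(volume.restrict (Ioi (1 : ℝ))),
      ‖k t * G t - k t * (2 * Real.pi / t * (1 + e t) * W t)‖ ≤ |k t| * b t := by
    rw [ae_restrict_iff' measurableSet_Ioi]
    refine Eventually.of_forall fun t ht => ?_
    rw [← mul_sub, Real.norm_eq_abs, abs_mul]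
    exact mul_le_mul_of_nonneg_left (hb t (le_of_lt ht)) (abs_nonneg _)
  have hD : IntegrableOn (fun t => k t * G t - k t * (2 * Real.pi / t * (1 + e t) * W t))
      (Ioi 1) := Integrable.mono' hi (hG.aestronglyMeasurable.sub hm) hbd
  have h2 : IntegrableOn (fun t => k t * (2 * Real.pi / t * (1 + e t) * W t)) (Ioi 1) := by
    have h3 := hG.sub hD
    refine h3.congr (Eventually.of_forall fun t => ?_)
    simp only [Pi.sub_apply]
    ring
  refine ⟨h2, ?_⟩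
  rw [← integral_sub hG h2, ← Real.norm_eq_abs]
  exact norm_integral_le_of_norm_le hi hbd

theorem d4a_head {k G e : ℝ → ℝ} {w D : ℝ} (hk : Continuous k)
    (hG : IntegrableOn (fun t => k t * G t) (Ioc 0 1)) (he : ContinuousOn e (Icc 0 1))
    (hb : ∀ t, 0 ≤ t → t ≤ 1 → |G t - e t * w| ≤ D) :
    |(∫ t in Ioc (0 : ℝ) 1, k t * G t) - (∫ t in Ioc (0 : ℝ) 1, k t * e t) * w| ≤
      (∫ t in Ioc (0 : ℝ) 1, |k t|) * D := by
  have h1 : IntegrableOn (fun t => k t * e t) (Ioc 0 1) :=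
    ((hk.continuousOn.mul he).integrableOn_compact isCompact_Icc).mono_set Ioc_subset_Icc_self
  have h2 : IntegrableOn (fun t => |k t|) (Ioc 0 1) :=
    (hk.abs.continuousOn.integrableOn_compact isCompact_Icc).mono_set Ioc_subset_Icc_self
  rw [← integral_mul_const, ← integral_sub hG (h1.mul_const w), ← integral_mul_const,
    ← Real.norm_eq_abs]
  apply norm_integral_le_of_norm_le (h2.mul_const D)
  rw [ae_restrict_iff' measurableSet_Ioc]
  refine Eventually.of_forall fun t ht => ?_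
  rw [Real.norm_eq_abs, show k t * G t - k t * e t * w = k t * (G t - e t * w) by ring, abs_mul]
  exact mul_le_mul_of_nonneg_left (hb t ht.1.le ht.2) (abs_nonneg _)

theorem d4a_WW (ν : ℂ) {x : ℝ} (hx : 0 < x) :
    ContinuousOn (fun t : ℝ => ‖WW ν (t * x)‖ ^ 2) (Ioi 1) := by
  intro t ht
  have ht' : (1 : ℝ) < t := ht
  have h1 : ContinuousAt (WW ν) (t * x) := (WW_deriv ν (by positivity)).1.continuousAt
  have h2 : ContinuousAt (fun t : ℝ => WW ν (t * x)) t :=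
    ContinuousAt.comp (f := fun t : ℝ => t * x) h1 (continuous_id.mul continuous_const).continuousAt
  exact (h2.norm.pow 2).continuousWithinAt

theorem d4a_L {L : ℂ → ℂ} (hL : Differentiable ℂ L) : Continuous (fun t : ℝ => ‖L (ha t)‖ ^ 2) := by
  have h1 : Continuous ha := by
    unfold ha
    fun_prop
  exact (hL.continuous.comp h1).norm.pow 2

theorem d4a_L' {L : ℂ → ℂ} (hL : Differentiable ℂ L) :
    Continuous (fun t : ℝ => ‖L (ha (-t))‖ ^ 2) :=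
  (d4a_L hL).comp continuous_neg

theorem phi_asymp_pr {ν : ℂ} {ε : ℝ} {a : ℕ → ℂ} {f : ℍ → ℂ} {L : ℂ → ℂ}
    (F : Frame0 ν ε a f) (hL : LFun ν ε a f L) {θ₀ : ℝ} (hθ₀ : θ₀ ∈ SP.II) :
    ∃ (e : ℝ → ℝ) (B C : ℝ), ContinuousOn e (Ici 1) ∧ (∀ τ, 1 ≤ τ → |e τ| ≤ C / τ) ∧
      ∀ θ : ℝ, 0 < θ → θ ≤ θ₀ → ‖ray (phi f) θ - (((∫ t in Ioi (1 : ℝ),
        (‖L (ha t)‖ ^ 2 + ‖L (ha (-t))‖ ^ 2) * (1 + e t) * (‖WW ν (t * Real.tan θ)‖ ^ 2 / t)) +
          B * ‖WW ν (Real.tan θ)‖ ^ 2 : ℝ) : ℂ)‖ ≤ C * Real.tan θ ^ (3 / 4 : ℝ) := by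
  obtain ⟨e, C₁, c, hc, he, heb, hasym⟩ := Ph_asymp F.nu F.eps hθ₀.1 hθ₀.2
  obtain ⟨e₁, C₂, he₁, hsm⟩ := Ph_small F.nu F.eps hθ₀.1 hθ₀.2
  set g : ℝ → ℝ := fun t => ‖L (ha t)‖ ^ 2 + ‖L (ha (-t))‖ ^ 2 with hg
  have hgc : Continuous g := (d4a_L hL.diff).add (d4a_L' hL.diff)
  have hg0 : ∀ t, 0 ≤ g t := fun t => by rw [hg]; positivity
  have hgi : IntegrableOn (fun t : ℝ => g t * t ^ (-(5 / 4) : ℝ)) (Ioi 1) :=
    (growth_int F hL (α := 5 / 4) (by norm_num)).mono_set Ioi_subset_Ici_self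
  set I₁ : ℝ := ∫ t in Ioi (1 : ℝ), g t * t ^ (-(5 / 4) : ℝ) with hI₁
  set I₀ : ℝ := ∫ t in Ioc (0 : ℝ) 1, |g t| with hI₀
  set B : ℝ := (2 * Real.pi)⁻¹ * ∫ t in Ioc (0 : ℝ) 1, g t * e₁ t with hB
  have hpi := Real.pi_pos
  refine ⟨e, B, |C₁| + (2 * Real.pi)⁻¹ * (I₀ * |C₂| + |C₁| * I₁), he, ?_, ?_⟩
  · intro τ hτ
    refine (heb τ hτ).trans ?_
    apply div_le_div_of_nonneg_right _ (by linarith)
    have h1 : 0 ≤ I₀ := setIntegral_nonneg measurableSet_Ioc fun t _ => abs_nonneg _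
    have h2 : 0 ≤ I₁ := setIntegral_nonneg measurableSet_Ioi fun t ht => by
      have : (1 : ℝ) < t := ht
      exact mul_nonneg (hg0 t) (by positivity)
    have h3 : 0 ≤ (2 * Real.pi)⁻¹ * (I₀ * |C₂| + |C₁| * I₁) := by positivity
    linarith [le_abs_self C₁]
  intro θ hθ0 hθ1
  have hθπ : θ < Real.pi := by linarith [hθ₀.2]
  have hθI : θ ∈ Ioo 0 Real.pi := ⟨hθ0, hθπ⟩
  have hx : 0 < Real.tan θ := Real.tan_pos_of_pos_of_lt_pi_div_two hθ0 (lt_of_le_of_lt hθ1 hθ₀.2)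
  set x : ℝ := Real.tan θ with hxd
  obtain ⟨hint, hray⟩ := ray_phi F hL hθI
  set G : ℝ → ℝ := fun t => ‖Gs ν ε (ha t) θ‖ ^ 2 with hG
  obtain ⟨hi2, he2⟩ := d4a_half hint
  have hcg : ∀ t : ℝ, ‖L (ha t)‖ ^ 2 * ‖Gs ν ε (ha t) θ‖ ^ 2 +
      ‖L (ha (-t))‖ ^ 2 * ‖Gs ν ε (ha (-t)) θ‖ ^ 2 = g t * G t := by
    intro t
    rw [d4a_sym F.nu F.eps hθ0 hθπ t, hg, hG]
    ring
  simp only [hcg] at hi2 he2
  have hiH : IntegrableOn (fun t => g t * G t) (Ioc 0 1) := hi2.mono_set Ioc_subset_Ioi_self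
  have hiT : IntegrableOn (fun t => g t * G t) (Ioi 1) := hi2.mono_set (Ioi_subset_Ioi zero_le_one)
  -- the tail
  have hbt : ∀ t, 1 ≤ t → |G t - 2 * Real.pi / t * (1 + e t) * ‖WW ν (t * x)‖ ^ 2| ≤
      |C₁| * x ^ (3 / 4 : ℝ) * t ^ (-(5 / 4) : ℝ) := by
    intro t ht
    have ht0 : (0 : ℝ) < t := by linarith
    refine (hasym t θ ht hθ0 hθ1).trans ?_
    have e1 : (t * x) ^ (3 / 4 : ℝ) = t ^ (3 / 4 : ℝ) * x ^ (3 / 4 : ℝ) :=
      Real.mul_rpow ht0.le hx.le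
    have e2 : Real.exp (-(c * (t * x))) ≤ 1 := by
      rw [Real.exp_le_one_iff]
      have : 0 < c * (t * x) := by positivity
      linarith
    have e3 : t ^ (3 / 4 : ℝ) / t ^ 2 = t ^ (-(5 / 4) : ℝ) := by
      rw [← Real.rpow_natCast t 2, ← Real.rpow_sub ht0]
      norm_num
    calc C₁ / t ^ 2 * (t * x) ^ (3 / 4 : ℝ) * Real.exp (-(c * (t * x)))
        ≤ |C₁| / t ^ 2 * (t * x) ^ (3 / 4 : ℝ) * 1 := by
          apply mul_le_mul _ e2 (Real.exp_pos _).le (by positivity)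
          apply mul_le_mul_of_nonneg_right _ (by positivity)
          apply div_le_div_of_nonneg_right (le_abs_self _) (by positivity)
      _ = |C₁| * x ^ (3 / 4 : ℝ) * (t ^ (3 / 4 : ℝ) / t ^ 2) := by
          rw [e1]
          ring
      _ = _ := by rw [e3]
  have hit : IntegrableOn (fun t => |g t| * (|C₁| * x ^ (3 / 4 : ℝ) * t ^ (-(5 / 4) : ℝ)))
      (Ioi 1) := by
    refine (hgi.const_mul (|C₁| * x ^ (3 / 4 : ℝ))).congr (Eventually.of_forall fun t => ?_)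
    simp only
    rw [abs_of_nonneg (hg0 t)]
    ring
  obtain ⟨hT1, hT2⟩ := d4a_tail (G := G) (W := fun t => ‖WW ν (t * x)‖ ^ 2) hgc hiT
    (d4a_WW ν hx) he hbt hit
  have hT3 : ∫ t in Ioi (1 : ℝ), |g t| * (|C₁| * x ^ (3 / 4 : ℝ) * t ^ (-(5 / 4) : ℝ)) =
      |C₁| * x ^ (3 / 4 : ℝ) * I₁ := by
    rw [hI₁, ← integral_const_mul]
    congr 1
    funext t
    rw [abs_of_nonneg (hg0 t)]
    ring
  rw [hT3] at hT2
  -- the head
  have hH := d4a_head (k := g) (G := G) (e := e₁) (w := ‖WW ν x‖ ^ 2)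
    (D := |C₂| * x ^ (3 / 4 : ℝ)) hgc hiH he₁ (fun t h0 h1 => by
      refine (hsm t θ h0 h1 hθ0 hθ1).trans ?_
      exact mul_le_mul_of_nonneg_right (le_abs_self _) (by positivity))
  have hmain : ∫ t in Ioi (1 : ℝ), g t * (1 + e t) * (‖WW ν (t * x)‖ ^ 2 / t) =
      (2 * Real.pi)⁻¹ * ∫ t in Ioi (1 : ℝ), g t *
        (2 * Real.pi / t * (1 + e t) * ‖WW ν (t * x)‖ ^ 2) := by
    rw [← integral_const_mul]
    congr 1
    funext t
    field_simp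
  rw [hray, ← Complex.ofReal_sub, Complex.norm_real, Real.norm_eq_abs, he2, d4a_split hi2, hmain,
    hB]
  have e4 : (2 * Real.pi)⁻¹ * ((∫ t in Ioc (0 : ℝ) 1, g t * G t) + ∫ t in Ioi (1 : ℝ), g t * G t) -
      ((2 * Real.pi)⁻¹ * (∫ t in Ioi (1 : ℝ), g t *
        (2 * Real.pi / t * (1 + e t) * ‖WW ν (t * x)‖ ^ 2)) +
        (2 * Real.pi)⁻¹ * (∫ t in Ioc (0 : ℝ) 1, g t * e₁ t) * ‖WW ν x‖ ^ 2) =
      (2 * Real.pi)⁻¹ * (((∫ t in Ioc (0 : ℝ) 1, g t * G t) -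
        (∫ t in Ioc (0 : ℝ) 1, g t * e₁ t) * ‖WW ν x‖ ^ 2) +
        ((∫ t in Ioi (1 : ℝ), g t * G t) - ∫ t in Ioi (1 : ℝ), g t *
          (2 * Real.pi / t * (1 + e t) * ‖WW ν (t * x)‖ ^ 2))) := by ring
  rw [e4, abs_mul, abs_of_pos (by positivity : (0 : ℝ) < (2 * Real.pi)⁻¹)]
  calc (2 * Real.pi)⁻¹ * |((∫ t in Ioc (0 : ℝ) 1, g t * G t) -
        (∫ t in Ioc (0 : ℝ) 1, g t * e₁ t) * ‖WW ν x‖ ^ 2) +
        ((∫ t in Ioi (1 : ℝ), g t * G t) - ∫ t in Ioi (1 : ℝ), g t *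
          (2 * Real.pi / t * (1 + e t) * ‖WW ν (t * x)‖ ^ 2))|
      ≤ (2 * Real.pi)⁻¹ * (I₀ * (|C₂| * x ^ (3 / 4 : ℝ)) + |C₁| * x ^ (3 / 4 : ℝ) * I₁) := by
        apply mul_le_mul_of_nonneg_left _ (by positivity)
        exact (abs_add_le _ _).trans (add_le_add hH hT2)
    _ = ((2 * Real.pi)⁻¹ * (I₀ * |C₂| + |C₁| * I₁)) * x ^ (3 / 4 : ℝ) := by ring
    _ ≤ (|C₁| + (2 * Real.pi)⁻¹ * (I₀ * |C₂| + |C₁| * I₁)) * x ^ (3 / 4 : ℝ) := by
        apply mul_le_mul_of_nonneg_right _ (by positivity)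
        linarith [abs_nonneg C₁]

end Pool.Agent.JO.FM

namespace Pool.Agent.JO.FM

theorem phi_asymp : type_of% @phi_asymp_pr := @phi_asymp_pr

end Pool.Agent.JO.FM
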