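import Pool.Agent.Lib_helper45.JO.Defs2
import Pool.Agent.Lib_helper45.JOM.D3
import Pool.Agent.Lib_helper45.JOM.K2
import Pool.Agent.Lib_helper45.JOM.KKA

/-!
# Project JO, part FM, block D4B: the transform of the main term
-/

set_option autoImplicit false

namespace Pool.Agent.JO.FM

open Complex Filter Topology MeasureTheory Set
open UpperHalfPlane hiding I
open scoped MatrixGroups ComplexConjugate

/-- the bound of the kernel -/
theorem d4b_kb {ν : ℂ} (hν : GoodNu ν) : ∃ K : ℝ, 0 ≤ K ∧ ∀ t v : ℝ, 1 ≤ t → 0 < v →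
    ‖WW ν (t * v)‖ ^ 2 / t ≤
      K * (t ^ (-(5 / 4) : ℝ) * (v ^ (-(1 / 4) : ℝ) * Real.exp (-(1 / 2) * v))) := by
  set b : ℝ := (ν.re + 1 / 2) / 2 with hb
  have h0 := hν.nonneg
  have h1 := hν.lt_half
  have hb1 : ν.re < b := by rw [hb]; linarith
  have hb2 : b < 1 / 2 := by rw [hb]; linarith
  have hb3 : 1 / 4 ≤ b := by rw [hb]; linarith
  obtain ⟨C, hC⟩ := WW_bound hν hb1
  refine ⟨C ^ 2 * 2, by positivity, fun t v ht hv => ?_⟩
  have ht0 : 0 < t := by linarith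
  have hx : 0 < t * v := mul_pos ht0 hv
  have hW := (hC (t * v) hx).1
  set x : ℝ := t * v with hxd
  have hpx : 0 < x ^ (1 / 2 - b) := Real.rpow_pos_of_pos hx _
  have e1 : ‖WW ν x‖ ^ 2 ≤ C ^ 2 * (x ^ (-(1 / 4) : ℝ) * x ^ (5 / 4 - 2 * b)) *
      (Real.exp (-(x / 2)) * Real.exp (-(x / 2))) := by
    have : x ^ (-(1 / 4) : ℝ) * x ^ (5 / 4 - 2 * b) = x ^ (1 / 2 - b) * x ^ (1 / 2 - b) := by
      rw [← Real.rpow_add hx, ← Real.rpow_add hx]
      congr 1; ring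
    rw [this]
    calc ‖WW ν x‖ ^ 2 ≤ (C * x ^ (1 / 2 - b) * Real.exp (-(x / 2))) ^ 2 :=
          pow_le_pow_left₀ (norm_nonneg _) hW 2
      _ = _ := by ring
  have e2 : x ^ (5 / 4 - 2 * b) * Real.exp (-(x / 2)) ≤ 2 := by
    have h2 : x ^ (5 / 4 - 2 * b) ≤ 1 + x := by
      rcases le_total x 1 with h | h
      · have : x ^ (5 / 4 - 2 * b) ≤ 1 := Real.rpow_le_one hx.le h (by linarith)
        linarith
      · have : x ^ (5 / 4 - 2 * b) ≤ x ^ (1 : ℝ) := Real.rpow_le_rpow_of_exponent_le h (by linarith)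
        rw [Real.rpow_one] at this
        linarith
    have h3 : 1 + x ≤ 2 * Real.exp (x / 2) := by
      have := Real.add_one_le_exp (x / 2)
      linarith
    have h6 : Real.exp (x / 2) * Real.exp (-(x / 2)) = 1 := by
      rw [← Real.exp_add]; simp
    calc x ^ (5 / 4 - 2 * b) * Real.exp (-(x / 2)) ≤
          (2 * Real.exp (x / 2)) * Real.exp (-(x / 2)) :=
          mul_le_mul_of_nonneg_right (h2.trans h3) (Real.exp_pos _).le
      _ = 2 * (Real.exp (x / 2) * Real.exp (-(x / 2))) := by ring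
      _ = 2 := by rw [h6]; ring
  have e3 : Real.exp (-(x / 2)) ≤ Real.exp (-(1 / 2) * v) := by
    apply Real.exp_le_exp.2
    rw [hxd]; nlinarith
  have e4 : x ^ (-(1 / 4) : ℝ) / t = t ^ (-(5 / 4) : ℝ) * v ^ (-(1 / 4) : ℝ) := by
    rw [hxd, Real.mul_rpow ht0.le hv.le]
    have : t ^ (-(5 / 4) : ℝ) = t ^ (-(1 / 4) : ℝ) * t⁻¹ := by
      rw [← Real.rpow_neg_one, ← Real.rpow_add ht0]; norm_num
    rw [this]; ring
  have hq : 0 ≤ x ^ (-(1 / 4) : ℝ) / t := by positivity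
  calc ‖WW ν x‖ ^ 2 / t ≤ (C ^ 2 * (x ^ (-(1 / 4) : ℝ) * x ^ (5 / 4 - 2 * b)) *
      (Real.exp (-(x / 2)) * Real.exp (-(x / 2)))) / t := by gcongr
    _ = C ^ 2 * (x ^ (-(1 / 4) : ℝ) / t) *
        ((x ^ (5 / 4 - 2 * b) * Real.exp (-(x / 2))) * Real.exp (-(x / 2))) := by ring
    _ ≤ C ^ 2 * (x ^ (-(1 / 4) : ℝ) / t) * (2 * Real.exp (-(1 / 2) * v)) := by
        gcongr
    _ = _ := by rw [e4]; ring

/-- the main term as a function of `v = tan θ` -/
noncomputable def d4b_G (ν : ℂ) (g : ℝ → ℝ) (v : ℝ) : ℝ :=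
  ∫ t in Ioi (1 : ℝ), g t * (‖WW ν (t * v)‖ ^ 2 / t)

theorem d4b_WWc {ν : ℂ} {x : ℝ} (hx : 0 < x) : ContinuousAt (WW ν) x :=
  (WW_deriv ν hx).1.continuousAt

theorem d4b_gm {g : ℝ → ℝ}
    (hg : ∀ α : ℝ, 9 / 8 < α → IntegrableOn (fun t : ℝ => g t * t ^ (-α)) (Ici 1)) :
    AEStronglyMeasurable g (volume.restrict (Ioi 1)) := by
  have h1 := ((hg 2 (by norm_num)).mono_set Ioi_subset_Ici_self).aestronglyMeasurable
  have h2 : ContinuousOn (fun t : ℝ => t ^ (2 : ℝ)) (Ioi 1) := fun t ht =>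
    (Real.continuousAt_rpow_const _ _ (Or.inl (by
      have : (1 : ℝ) < t := ht
      positivity))).continuousWithinAt
  have h3 := h1.mul (h2.aestronglyMeasurable measurableSet_Ioi)
  refine h3.congr ((ae_restrict_iff' measurableSet_Ioi).2 (ae_of_all _ fun t ht => ?_))
  have ht0 : 0 < t := lt_trans one_pos ht
  simp only [Pi.mul_apply]
  rw [mul_assoc, ← Real.rpow_add ht0]
  norm_num

theorem d4b_gi {g : ℝ → ℝ}
    (hg : ∀ α : ℝ, 9 / 8 < α → IntegrableOn (fun t : ℝ => g t * t ^ (-α)) (Ici 1)) :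
    IntegrableOn (fun t : ℝ => |g t| * t ^ (-(5 / 4) : ℝ)) (Ioi 1) := by
  have h1 := ((hg (5 / 4) (by norm_num)).mono_set Ioi_subset_Ici_self).norm
  refine h1.congr ((ae_restrict_iff' measurableSet_Ioi).2 (ae_of_all _ fun t ht => ?_))
  have ht0 : 0 < t := lt_trans one_pos ht
  dsimp only
  rw [norm_mul, Real.norm_eq_abs, Real.norm_of_nonneg (Real.rpow_nonneg ht0.le _)]

theorem d4b_kern_meas {ν : ℂ} {g : ℝ → ℝ} (hm : AEStronglyMeasurable g (volume.restrict (Ioi 1)))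
    {v : ℝ} (hv : 0 < v) :
    AEStronglyMeasurable (fun t : ℝ => g t * (‖WW ν (t * v)‖ ^ 2 / t)) (volume.restrict (Ioi 1)) := by
  apply hm.mul
  have : ContinuousOn (fun t : ℝ => ‖WW ν (t * v)‖ ^ 2 / t) (Ioi 1) := by
    intro t ht
    have ht0 : 0 < t := lt_trans one_pos ht
    apply ContinuousAt.continuousWithinAt
    apply ContinuousAt.div _ continuousAt_id ht0.ne'
    apply ContinuousAt.pow
    apply ContinuousAt.norm
    exact ContinuousAt.comp (f := fun t : ℝ => t * v) (d4b_WWc (mul_pos ht0 hv)) (by fun_prop)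
  exact this.aestronglyMeasurable measurableSet_Ioi

theorem d4b_G_facts {ν : ℂ} (hν : GoodNu ν) {g : ℝ → ℝ}
    (hg : ∀ α : ℝ, 9 / 8 < α → IntegrableOn (fun t : ℝ => g t * t ^ (-α)) (Ici 1)) :
    (∃ K : ℝ, 0 ≤ K ∧ (∀ v, 0 < v →
      |d4b_G ν g v| ≤ K * (v ^ (-(1 / 4) : ℝ) * Real.exp (-(1 / 2) * v)))) ∧
    ContinuousOn (d4b_G ν g) (Ioi 0) := by
  obtain ⟨K, hK, hb⟩ := d4b_kb hν
  have gi := d4b_gi hg
  have gm := d4b_gm hg
  have ptw : ∀ v, 0 < v → ∀ᵐ t ∂(volume.restrict (Ioi (1 : ℝ))),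
      ‖g t * (‖WW ν (t * v)‖ ^ 2 / t)‖ ≤
        (K * (v ^ (-(1 / 4) : ℝ) * Real.exp (-(1 / 2) * v))) * (|g t| * t ^ (-(5 / 4) : ℝ)) := by
    intro v hv
    refine (ae_restrict_iff' measurableSet_Ioi).2 (ae_of_all _ fun t ht => ?_)
    have ht1 : (1 : ℝ) ≤ t := le_of_lt ht
    have ht0 : 0 < t := by linarith
    rw [norm_mul, Real.norm_eq_abs, Real.norm_of_nonneg (by positivity)]
    calc |g t| * (‖WW ν (t * v)‖ ^ 2 / t) ≤ |g t| *
          (K * (t ^ (-(5 / 4) : ℝ) * (v ^ (-(1 / 4) : ℝ) * Real.exp (-(1 / 2) * v)))) :=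
          mul_le_mul_of_nonneg_left (hb t v ht1 hv) (abs_nonneg _)
      _ = _ := by ring
  refine ⟨⟨K * ∫ t in Ioi (1 : ℝ), |g t| * t ^ (-(5 / 4) : ℝ), ?_, fun v hv => ?_⟩, ?_⟩
  · apply mul_nonneg hK
    apply setIntegral_nonneg measurableSet_Ioi
    intro t ht
    have ht0 : 0 < t := lt_trans one_pos ht
    positivity
  · have := norm_integral_le_of_norm_le (gi.const_mul
      (K * (v ^ (-(1 / 4) : ℝ) * Real.exp (-(1 / 2) * v)))) (ptw v hv)
    rw [integral_const_mul] at this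
    unfold d4b_G
    rw [← Real.norm_eq_abs]
    refine this.trans (le_of_eq ?_)
    ring
  · intro v₀ hv₀
    have hv0 : (0 : ℝ) < v₀ := hv₀
    apply ContinuousAt.continuousWithinAt
    have hn : Ioi (v₀ / 2) ∈ 𝓝 v₀ := Ioi_mem_nhds (by linarith)
    unfold d4b_G
    refine continuousAt_of_dominated (bound := fun t => (K * ((v₀ / 2) ^ (-(1 / 4) : ℝ) * 1)) *
      (|g t| * t ^ (-(5 / 4) : ℝ))) ?_ ?_ (gi.const_mul _) ?_
    · filter_upwards [hn] with v hv
      exact d4b_kern_meas gm (lt_trans (half_pos hv0) hv)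
    · filter_upwards [hn] with v hv
      have hv' : 0 < v := lt_trans (half_pos hv0) hv
      filter_upwards [ptw v hv', ae_restrict_mem measurableSet_Ioi] with t ht ht1
      have ht0 : 0 < t := lt_trans one_pos ht1
      refine ht.trans ?_
      apply mul_le_mul_of_nonneg_right _ (by positivity)
      apply mul_le_mul_of_nonneg_left _ hK
      apply mul_le_mul _ _ (Real.exp_pos _).le (by positivity)
      · exact Real.rpow_le_rpow_of_nonpos (half_pos hv0) (le_of_lt hv) (by norm_num)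
      · rw [Real.exp_le_one_iff]; linarith
    · refine (ae_restrict_iff' measurableSet_Ioi).2 (ae_of_all _ fun t ht => ?_)
      have ht0 : 0 < t := lt_trans one_pos ht
      apply ContinuousAt.mul continuousAt_const
      apply ContinuousAt.div_const
      apply ContinuousAt.pow
      apply ContinuousAt.norm
      exact ContinuousAt.comp (f := fun v : ℝ => t * v) (d4b_WWc (mul_pos ht0 hv0)) (by fun_prop)

theorem d4b_exp_int {p : ℝ} (hp : -1 < p) :
    IntegrableOn (fun v : ℝ => v ^ p * Real.exp (-(1 / 2) * v)) (Ioi 0) := by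
  have := integrableOn_rpow_mul_exp_neg_mul_rpow (s := p) (p := 1) (b := 1 / 2) hp one_pos
    (by norm_num)
  refine this.congr (ae_of_all _ fun v => ?_)
  simp only [Real.rpow_one]

/-- `bb` is holomorphic -/
theorem d4b_bb : DifferentiableOn ℂ SP.bb {s | 0 < s.re} := by
  unfold SP.bb
  apply SP.hol_int volume (fun (s : ℂ) (τ : ℝ) => ((SP.qq 1 τ : ℝ) : ℂ) ^ s)
  · intro s hs
    refine Continuous.aestronglyMeasurable ?_
    refine Continuous.cpow (Complex.continuous_ofReal.comp ?_) continuous_const (fun τ => ?_)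
    · unfold SP.qq
      refine continuous_const.div (by fun_prop) (fun τ => ?_)
      have := Real.cosh_pos τ
      positivity
    · exact Or.inl (by simpa using SP.qq_pos zero_le_one τ)
  · refine ae_of_all _ fun τ => ?_
    have h0 : ((SP.qq 1 τ : ℝ) : ℂ) ≠ 0 := by exact_mod_cast (SP.qq_pos zero_le_one τ).ne'
    intro s _
    exact (differentiableAt_id.const_cpow (Or.inl h0)).differentiableWithinAt
  · intro s hs
    have hs' : 0 < s.re := hs
    have hre : ∀ z ∈ Metric.ball s (s.re / 2), s.re / 2 < z.re := by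
      intro z hz
      rw [Metric.mem_ball, dist_eq_norm] at hz
      have := (Complex.abs_re_le_norm (z - s)).trans_lt hz
      rw [Complex.sub_re, abs_lt] at this
      linarith [this.1]
    refine ⟨s.re / 2, by positivity, fun z hz => ?_, fun τ => Real.exp (-(s.re / 2 * |τ|)),
      SP.f2_int (by positivity), ae_of_all _ fun τ z hz => ?_⟩
    · have := hre z hz
      show 0 < z.re
      linarith
    · have h1 := hre z hz
      refine (SP.qq_bound zero_le_one τ (by linarith)).trans ?_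
      apply Real.exp_le_exp.2
      have := abs_nonneg τ
      nlinarith

/-- the radius for the local domination -/
theorem d4b_ball {s : ℂ} (hs : 1 / 4 < s.re ∧ 0 < s.im) : ∃ r > 0,
    Metric.ball s r ⊆ {s : ℂ | 1 / 4 < s.re ∧ 0 < s.im} ∧
    ∀ z ∈ Metric.ball s r, (s.re + 1 / 4) / 2 ≤ z.re ∧ z.re ≤ ‖s‖ + 1 ∧ ‖z‖ ≤ ‖s‖ + 1 := by
  obtain ⟨h1, h2⟩ := hs
  refine ⟨min 1 (min ((s.re - 1 / 4) / 2) (s.im / 2)), by
    refine lt_min one_pos (lt_min (by linarith) (by linarith)), ?_, ?_⟩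
  · intro z hz
    rw [Metric.mem_ball, dist_eq_norm] at hz
    have a1 := (Complex.abs_re_le_norm (z - s)).trans_lt (hz.trans_le ((min_le_right _ _).trans
      (min_le_left _ _)))
    have a2 := (Complex.abs_im_le_norm (z - s)).trans_lt (hz.trans_le ((min_le_right _ _).trans
      (min_le_right _ _)))
    rw [Complex.sub_re, abs_lt] at a1
    rw [Complex.sub_im, abs_lt] at a2
    constructor
    · linarith [a1.1]
    · linarith [a2.1]
  · intro z hz
    rw [Metric.mem_ball, dist_eq_norm] at hz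
    have a1 := (Complex.abs_re_le_norm (z - s)).trans_lt (hz.trans_le ((min_le_right _ _).trans
      (min_le_left _ _)))
    have a3 := hz.trans_le (min_le_left _ _)
    rw [Complex.sub_re, abs_lt] at a1
    have a4 : ‖z‖ ≤ ‖s‖ + 1 := by
      calc ‖z‖ = ‖s + (z - s)‖ := by congr 1; ring
        _ ≤ ‖s‖ + ‖z - s‖ := norm_add_le _ _
        _ ≤ ‖s‖ + 1 := by linarith
    refine ⟨by linarith [a1.1], (Complex.re_le_norm z).trans a4, a4⟩

/-- the pointwise bound of the first remainder -/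
theorem d4b_W1 {θ₀ : ℝ} (hθ₀ : θ₀ ∈ SP.II) {G : ℝ → ℝ} {K : ℝ} (hK : 0 ≤ K)
    (hG : ∀ v, 0 < v → |G v| ≤ K * (v ^ (-(1 / 4) : ℝ) * Real.exp (-(1 / 2) * v)))
    {σ R : ℝ} (hσ : 1 / 4 < σ) : ∃ (C e : ℝ), -1 < e ∧ ∀ z : ℂ, σ ≤ z.re → z.re ≤ R → ‖z‖ ≤ R →
      ∀ θ : ℝ, 0 < θ → θ < θ₀ →
      ‖(SP.ff z θ - SP.bb z * (Real.tan θ : ℂ) ^ z) * ((G (Real.tan θ) : ℝ) : ℂ) /
        ((Real.sin θ : ℝ) : ℂ) ^ 2‖ ≤ C * θ ^ e := by
  obtain ⟨C0, hC0⟩ := ff_tan hθ₀ (R := R)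
  set v0 : ℝ := Real.tan θ₀ with hv0
  have hv0p : 0 < v0 := Real.tan_pos_of_pos_of_lt_pi_div_two hθ₀.1 hθ₀.2
  set m : ℝ := max 1 v0 with hm
  have hm1 : 1 ≤ m := le_max_left _ _
  have hm0 : 0 < m := by linarith
  refine ⟨|C0| * K * (1 + m ^ 2) * m ^ |R|, min σ (5 / 4) - 5 / 4, ?_, ?_⟩
  · have : 1 / 4 < min σ (5 / 4) := lt_min hσ (by norm_num)
    linarith
  intro z hz1 hz2 hz3 θ h0 h1
  have hθI : θ ∈ SP.II := ⟨h0, h1.trans hθ₀.2⟩
  have hsin := SP.sin_pos' hθI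
  have hcos := SP.cos_pos' hθI
  set v : ℝ := Real.tan θ with hv
  have hvp : 0 < v := Real.tan_pos_of_pos_of_lt_pi_div_two h0 hθI.2
  have hvm : v ≤ m := by
    have : v ≤ v0 := by
      apply le_of_lt
      exact Real.tan_lt_tan_of_lt_of_lt_pi_div_two (by linarith [Real.pi_pos]) hθ₀.2 h1
    exact this.trans (le_max_right _ _)
  have hvt : θ ≤ v := (Real.lt_tan h0 hθI.2).le
  have hsv : (Real.sin θ ^ 2)⁻¹ = (1 + v ^ 2) / v ^ 2 := by
    have e1 : v = Real.sin θ / Real.cos θ := Real.tan_eq_sin_div_cos θ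
    have e2 := Real.sin_sq_add_cos_sq θ
    rw [e1]
    field_simp
    linarith
  have a1 : ‖SP.ff z θ - SP.bb z * (v : ℂ) ^ z‖ ≤ |C0| * v ^ (z.re + 1) :=
    ((hC0 z θ (by linarith) (by linarith) hz3 h0 h1.le).1).trans
      (mul_le_mul_of_nonneg_right (le_abs_self _) (Real.rpow_nonneg hvp.le _))
  have a2 : |G v| ≤ K * v ^ (-(1 / 4) : ℝ) := by
    refine (hG v hvp).trans ?_
    apply mul_le_mul_of_nonneg_left _ hK
    apply mul_le_of_le_one_right (Real.rpow_nonneg hvp.le _)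
    rw [Real.exp_le_one_iff]; linarith
  set q : ℝ := z.re - min σ (5 / 4) with hq
  have hq0 : 0 ≤ q := by
    have := min_le_left σ (5 / 4)
    rw [hq]; linarith
  have hq1 : q ≤ |R| := by
    have : 0 < min σ (5 / 4) := lt_min (by linarith) (by norm_num)
    have := le_abs_self R
    rw [hq]; linarith
  have a3 : v ^ q ≤ m ^ |R| := by
    calc v ^ q ≤ m ^ q := Real.rpow_le_rpow hvp.le hvm hq0
      _ ≤ m ^ |R| := Real.rpow_le_rpow_of_exponent_le hm1 hq1
  have a4 : v ^ (min σ (5 / 4) - 5 / 4) ≤ θ ^ (min σ (5 / 4) - 5 / 4) := by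
    apply Real.rpow_le_rpow_of_nonpos h0 hvt
    have := min_le_right σ (5 / 4)
    linarith
  have a5 : v ^ (z.re + 1) * v ^ (-(1 / 4) : ℝ) / v ^ 2 =
      v ^ q * v ^ (min σ (5 / 4) - 5 / 4) := by
    have : v ^ 2 = v ^ (2 : ℝ) := by norm_cast
    rw [this, ← Real.rpow_add hvp, ← Real.rpow_sub hvp, ← Real.rpow_add hvp]
    congr 1
    rw [hq]; ring
  rw [norm_div, norm_mul, Complex.norm_real, Real.norm_eq_abs, norm_pow, Complex.norm_real,
    Real.norm_of_nonneg hsin.le, div_eq_mul_inv, hsv]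
  have hθe : 0 ≤ θ ^ (min σ (5 / 4) - 5 / 4) := Real.rpow_nonneg h0.le _
  calc ‖SP.ff z θ - SP.bb z * (v : ℂ) ^ z‖ * |G v| * ((1 + v ^ 2) / v ^ 2)
      ≤ (|C0| * v ^ (z.re + 1)) * (K * v ^ (-(1 / 4) : ℝ)) * ((1 + v ^ 2) / v ^ 2) := by
        apply mul_le_mul_of_nonneg_right _ (by positivity)
        exact mul_le_mul a1 a2 (abs_nonneg _) (by positivity)
    _ = |C0| * K * (1 + v ^ 2) * (v ^ (z.re + 1) * v ^ (-(1 / 4) : ℝ) / v ^ 2) := by ring
    _ = |C0| * K * (1 + v ^ 2) * (v ^ q * v ^ (min σ (5 / 4) - 5 / 4)) := by rw [a5]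
    _ ≤ |C0| * K * (1 + m ^ 2) * (m ^ |R| * θ ^ (min σ (5 / 4) - 5 / 4)) := by
        gcongr
    _ = _ := by ring

/-- continuity in `θ` of the first remainder -/
theorem d4b_W1c {θ₀ : ℝ} (hθ₀ : θ₀ ∈ SP.II) {G : ℝ → ℝ} (hG : ContinuousOn G (Ioi 0)) {z : ℂ}
    (hz : 0 < z.re) : ContinuousOn (fun θ : ℝ =>
      (SP.ff z θ - SP.bb z * (Real.tan θ : ℂ) ^ z) * ((G (Real.tan θ) : ℝ) : ℂ) /
        ((Real.sin θ : ℝ) : ℂ) ^ 2) (Ioo 0 θ₀) := by
  intro θ hθ
  have hθI : θ ∈ SP.II := ⟨hθ.1, hθ.2.trans hθ₀.2⟩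
  have hsin := SP.sin_pos' hθI
  have hcos := SP.cos_pos' hθI
  have hvp : 0 < Real.tan θ := Real.tan_pos_of_pos_of_lt_pi_div_two hθ.1 hθI.2
  have hct : ContinuousAt Real.tan θ := Real.continuousAt_tan.2 hcos.ne'
  apply ContinuousAt.continuousWithinAt
  apply ContinuousAt.div
  · apply ContinuousAt.mul
    · apply ContinuousAt.sub (SP.ff_hasDeriv hθI hz).continuousAt
      apply ContinuousAt.mul continuousAt_const
      apply ContinuousAt.cpow _ continuousAt_const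
      · exact Or.inl (by rw [Complex.ofReal_re]; exact hvp)
      · exact ContinuousAt.comp (g := fun x : ℝ => (x : ℂ)) Complex.continuous_ofReal.continuousAt hct
    · refine ContinuousAt.comp (g := fun x : ℝ => (x : ℂ)) Complex.continuous_ofReal.continuousAt ?_
      exact ContinuousAt.comp (f := Real.tan) (hG.continuousAt (Ioi_mem_nhds hvp)) hct
  · fun_prop
  · apply pow_ne_zero
    exact_mod_cast hsin.ne'

/-- the second remainder is holomorphic -/
theorem d4b_H2 {G : ℝ → ℝ} {K : ℝ} (hK : 0 ≤ K) (hGc : ContinuousOn G (Ioi 0))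
    (hG : ∀ v, 0 < v → |G v| ≤ K * (v ^ (-(1 / 4) : ℝ) * Real.exp (-(1 / 2) * v)))
    {v0 : ℝ} (hv0 : 0 < v0) :
    DifferentiableOn ℂ (fun s : ℂ => ∫ v in Ioi v0, (v : ℂ) ^ (s - 2) * ((G v : ℝ) : ℂ))
      {s | 1 / 4 < s.re ∧ 0 < s.im} := by
  have sub : Ioi v0 ⊆ Ioi (0 : ℝ) := fun x hx => hv0.trans hx
  have hm : ∀ s : ℂ, AEStronglyMeasurable (fun v : ℝ => (v : ℂ) ^ (s - 2) * ((G v : ℝ) : ℂ))
      (volume.restrict (Ioi v0)) := by
    intro s
    refine ContinuousOn.aestronglyMeasurable ?_ measurableSet_Ioi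
    intro v hv
    have hvp : 0 < v := hv0.trans hv
    apply ContinuousAt.continuousWithinAt
    apply ContinuousAt.mul
    · exact Complex.continuousAt_ofReal_cpow_const _ _ (Or.inr hvp.ne')
    · exact ContinuousAt.comp (g := fun x : ℝ => (x : ℂ)) Complex.continuous_ofReal.continuousAt
        (hGc.continuousAt (Ioi_mem_nhds hvp))
  apply SP.hol_int (volume.restrict (Ioi v0))
    (fun (s : ℂ) (v : ℝ) => (v : ℂ) ^ (s - 2) * ((G v : ℝ) : ℂ))
  · intro s _
    exact hm s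
  · refine (ae_restrict_iff' measurableSet_Ioi).2 (ae_of_all _ fun v hv => ?_)
    have hvp : 0 < v := hv0.trans hv
    have hvc : (v : ℂ) ≠ 0 := by exact_mod_cast hvp.ne'
    intro s _
    apply DifferentiableAt.differentiableWithinAt
    apply DifferentiableAt.mul_const
    exact (differentiableAt_id.sub_const _).const_cpow (Or.inl hvc)
  · intro s hs
    obtain ⟨r, hr, hsub, hz⟩ := d4b_ball hs
    set R : ℝ := ‖s‖ + 1 with hR
    have hR0 : 0 < R := by rw [hR]; positivity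
    set m : ℝ := max 1 v0⁻¹ with hm'
    have hm1 : 1 ≤ m := le_max_left _ _
    have hm0 : 0 < m := by linarith
    refine ⟨r, hr, hsub, fun v => (m ^ (R + 2) * (K * v0 ^ (-(1 / 4) : ℝ))) *
      (v ^ R * Real.exp (-(1 / 2) * v)),
      ((d4b_exp_int (p := R) (by linarith)).mono_set sub).const_mul _, ?_⟩
    refine (ae_restrict_iff' measurableSet_Ioi).2 (ae_of_all _ fun v hv z hzb => ?_)
    have hvp : 0 < v := hv0.trans hv
    obtain ⟨z1, z2, z3⟩ := hz z hzb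
    have hs1 := hs.1
    rw [norm_mul, Complex.norm_cpow_eq_rpow_re_of_pos hvp, Complex.norm_real, Real.norm_eq_abs]
    have e0 : (z - 2).re = R + (-(R + 2 - z.re)) := by
      rw [Complex.sub_re]; simp; ring
    have e1 : v ^ (z - 2).re ≤ v ^ R * m ^ (R + 2) := by
      rw [e0, Real.rpow_add hvp]
      apply mul_le_mul_of_nonneg_left _ (Real.rpow_nonneg hvp.le _)
      rw [Real.rpow_neg hvp.le, ← Real.inv_rpow hvp.le]
      calc v⁻¹ ^ (R + 2 - z.re) ≤ m ^ (R + 2 - z.re) := by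
            apply Real.rpow_le_rpow (by positivity) _ (by linarith)
            exact (inv_anti₀ hv0 (le_of_lt hv)).trans (le_max_right _ _)
        _ ≤ m ^ (R + 2) := Real.rpow_le_rpow_of_exponent_le hm1 (by linarith)
    have e2 : |G v| ≤ K * (v0 ^ (-(1 / 4) : ℝ) * Real.exp (-(1 / 2) * v)) := by
      refine (hG v hvp).trans ?_
      apply mul_le_mul_of_nonneg_left _ hK
      apply mul_le_mul_of_nonneg_right _ (Real.exp_pos _).le
      exact Real.rpow_le_rpow_of_nonpos hv0 (le_of_lt hv) (by norm_num)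
    calc v ^ (z - 2).re * |G v| ≤ (v ^ R * m ^ (R + 2)) *
          (K * (v0 ^ (-(1 / 4) : ℝ) * Real.exp (-(1 / 2) * v))) :=
          mul_le_mul e1 e2 (abs_nonneg _) (by positivity)
      _ = _ := by ring

/-- the Mellin transform of `‖W‖²` -/
theorem d4b_mellin {ν : ℂ} (hν : GoodNu ν) {s : ℂ} (hs : 2 < s.re) {t : ℝ} (ht : 0 < t) :
    ∫ v in Ioi (0 : ℝ), (v : ℂ) ^ (s - 2) * ((‖WW ν (t * v)‖ ^ 2 : ℝ) : ℂ) =
      (t : ℂ) ^ (1 - s) * kap ν s := by
  have h1 := integral_comp_mul_left_Ioi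
    (fun x : ℝ => (x : ℂ) ^ (s - 2) * ((‖WW ν x‖ ^ 2 : ℝ) : ℂ)) 0 ht
  rw [mul_zero] at h1
  have htc : (t : ℂ) ≠ 0 := by exact_mod_cast ht.ne'
  have h2 : ∫ x in Ioi (0 : ℝ), (x : ℂ) ^ (s - 2) * ((‖WW ν x‖ ^ 2 : ℝ) : ℂ) = kap ν s := by
    rw [← (kk_mellin hν (s := s) (by have := hν.lt_half; linarith)).2]
    apply setIntegral_congr_fun measurableSet_Ioi
    intro x hx
    have hx0 : 0 < x := hx
    have hxc : (x : ℂ) ≠ 0 := by exact_mod_cast hx0.ne'
    dsimp only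
    have e1 : ((‖WW ν x‖ ^ 2 : ℝ) : ℂ) = x * KK ν x ^ 2 := by
      have r1 : KK ν x = (((KK ν x).re : ℝ) : ℂ) := by
        apply Complex.ext
        · simp
        · rw [KK_real hν x]; simp
      have r2 : ‖KK ν x‖ ^ 2 = (KK ν x).re ^ 2 := by
        rw [r1, Complex.norm_real, Real.norm_eq_abs, sq_abs]; simp
      unfold WW
      rw [norm_mul, mul_pow, Complex.norm_real, Real.norm_of_nonneg (Real.sqrt_nonneg _),
        Real.sq_sqrt hx0.le, r2]
      push_cast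
      rw [← r1]
    rw [e1]
    have e2 : (x : ℂ) ^ (s - 1) = (x : ℂ) ^ (s - 2) * x := by
      rw [show s - 1 = (s - 2) + 1 by ring, Complex.cpow_add _ _ hxc, Complex.cpow_one]
    rw [e2]; ring
  rw [h2] at h1
  have h3 : ∀ v ∈ Ioi (0 : ℝ), (v : ℂ) ^ (s - 2) * ((‖WW ν (t * v)‖ ^ 2 : ℝ) : ℂ) =
      (t : ℂ) ^ (2 - s) * (((t * v : ℝ) : ℂ) ^ (s - 2) * ((‖WW ν (t * v)‖ ^ 2 : ℝ) : ℂ)) := by
    intro v hv
    have hv0 : 0 < v := hv
    rw [Complex.ofReal_mul, Complex.mul_cpow_ofReal_nonneg ht.le hv0.le]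
    have : (t : ℂ) ^ (2 - s) * (t : ℂ) ^ (s - 2) = 1 := by
      rw [← Complex.cpow_add _ _ htc]
      simp
    calc (v : ℂ) ^ (s - 2) * ((‖WW ν (t * v)‖ ^ 2 : ℝ) : ℂ)
        = ((t : ℂ) ^ (2 - s) * (t : ℂ) ^ (s - 2)) *
          ((v : ℂ) ^ (s - 2) * ((‖WW ν (t * v)‖ ^ 2 : ℝ) : ℂ)) := by rw [this, one_mul]
      _ = _ := by ring
  rw [setIntegral_congr_fun measurableSet_Ioi h3, integral_const_mul, h1, Complex.real_smul]
  have : (t : ℂ) ^ (1 - s) = (t : ℂ) ^ (2 - s) * ((t⁻¹ : ℝ) : ℂ) := by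
    rw [show 1 - s = (2 - s) - 1 by ring, Complex.cpow_sub _ _ htc, Complex.cpow_one]
    push_cast
    rw [div_eq_mul_inv]
  rw [this]; ring

/-- Fubini -/
theorem d4b_fubini {ν : ℂ} (hν : GoodNu ν) {g : ℝ → ℝ}
    (hg : ∀ α : ℝ, 9 / 8 < α → IntegrableOn (fun t : ℝ => g t * t ^ (-α)) (Ici 1)) {s : ℂ}
    (hs : 2 < s.re) :
    ∫ v in Ioi (0 : ℝ), (v : ℂ) ^ (s - 2) * ((d4b_G ν g v : ℝ) : ℂ) =
      kap ν s * ∫ t in Ioi (1 : ℝ), (g t : ℂ) * (t : ℂ) ^ (-s) := by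
  obtain ⟨K, hK, hb⟩ := d4b_kb hν
  have gi := d4b_gi hg
  have gm := d4b_gm hg
  have hi : Integrable (Function.uncurry fun (v t : ℝ) => (v : ℂ) ^ (s - 2) *
      ((g t * (‖WW ν (t * v)‖ ^ 2 / t) : ℝ) : ℂ))
      ((volume.restrict (Ioi (0 : ℝ))).prod (volume.restrict (Ioi (1 : ℝ)))) := by
    have hdom := (d4b_exp_int (p := s.re - 2 - 1 / 4) (by linarith)).mul_prod gi
    refine Integrable.mono' (hdom.const_mul K) ?_ ?_
    · have m1 : AEStronglyMeasurable (fun p : ℝ × ℝ => (p.1 : ℂ) ^ (s - 2) *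
          ((‖WW ν (p.2 * p.1)‖ ^ 2 / p.2 : ℝ) : ℂ))
          ((volume.restrict (Ioi (0 : ℝ))).prod (volume.restrict (Ioi (1 : ℝ)))) := by
        rw [Measure.prod_restrict]
        refine ContinuousOn.aestronglyMeasurable ?_ (measurableSet_Ioi.prod measurableSet_Ioi)
        intro p hp
        have hp1 : 0 < p.1 := hp.1
        have hp2 : 0 < p.2 := lt_trans one_pos hp.2
        apply ContinuousAt.continuousWithinAt
        apply ContinuousAt.mul
        · exact ContinuousAt.comp (g := fun x : ℝ => (x : ℂ) ^ (s - 2)) (f := fun p : ℝ × ℝ => p.1)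
            (Complex.continuousAt_ofReal_cpow_const _ _ (Or.inr hp1.ne')) continuousAt_fst
        · refine ContinuousAt.comp (g := fun x : ℝ => (x : ℂ))
            Complex.continuous_ofReal.continuousAt ?_
          apply ContinuousAt.div _ continuousAt_snd hp2.ne'
          apply ContinuousAt.pow
          apply ContinuousAt.norm
          exact ContinuousAt.comp (f := fun p : ℝ × ℝ => p.2 * p.1) (g := WW ν)
            (d4b_WWc (mul_pos hp2 hp1)) (by fun_prop)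
      have m2 : AEStronglyMeasurable (fun p : ℝ × ℝ => ((g p.2 : ℝ) : ℂ))
          ((volume.restrict (Ioi (0 : ℝ))).prod (volume.restrict (Ioi (1 : ℝ)))) :=
        (Complex.continuous_ofReal.comp_aestronglyMeasurable gm).comp_snd
      refine (m1.mul m2).congr (ae_of_all _ fun p => ?_)
      simp only [Function.uncurry, Pi.mul_apply]
      push_cast; ring
    · rw [Measure.prod_restrict]
      refine (ae_restrict_iff' (measurableSet_Ioi.prod measurableSet_Ioi)).2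
        (ae_of_all _ fun p hp => ?_)
      have hp1 : 0 < p.1 := hp.1
      have hp2 : (1 : ℝ) < p.2 := hp.2
      have hp3 : 0 < p.2 := by linarith
      simp only [Function.uncurry]
      rw [norm_mul, Complex.norm_cpow_eq_rpow_re_of_pos hp1, Complex.norm_real, norm_mul,
        Real.norm_eq_abs (g p.2), Real.norm_of_nonneg (by positivity : 0 ≤ ‖WW ν (p.2 * p.1)‖ ^ 2 / p.2)]
      have e1 : (s - 2).re = s.re - 2 := by rw [Complex.sub_re]; simp
      rw [e1]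
      have e2 : p.1 ^ (s.re - 2 - 1 / 4) = p.1 ^ (s.re - 2) * p.1 ^ (-(1 / 4) : ℝ) := by
        rw [← Real.rpow_add hp1]; congr 1
      rw [e2]
      calc p.1 ^ (s.re - 2) * (|g p.2| * (‖WW ν (p.2 * p.1)‖ ^ 2 / p.2))
          ≤ p.1 ^ (s.re - 2) * (|g p.2| * (K * (p.2 ^ (-(5 / 4) : ℝ) *
            (p.1 ^ (-(1 / 4) : ℝ) * Real.exp (-(1 / 2) * p.1))))) := by
            gcongr
            exact hb p.2 p.1 hp2.le hp1
        _ = _ := by ring
  have h1 : ∀ v : ℝ, (v : ℂ) ^ (s - 2) * ((d4b_G ν g v : ℝ) : ℂ) =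
      ∫ t in Ioi (1 : ℝ), (v : ℂ) ^ (s - 2) * ((g t * (‖WW ν (t * v)‖ ^ 2 / t) : ℝ) : ℂ) := by
    intro v
    unfold d4b_G
    rw [integral_const_mul]
    congr 1
    exact (integral_ofReal (𝕜 := ℂ)).symm
  simp_rw [h1]
  rw [integral_integral_swap hi, ← integral_const_mul]
  apply setIntegral_congr_fun measurableSet_Ioi
  intro t ht
  have ht0 : 0 < t := lt_trans one_pos ht
  have htc : (t : ℂ) ≠ 0 := by exact_mod_cast ht0.ne'
  dsimp only
  have h2 : ∀ v : ℝ, (v : ℂ) ^ (s - 2) * ((g t * (‖WW ν (t * v)‖ ^ 2 / t) : ℝ) : ℂ) =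
      ((g t / t : ℝ) : ℂ) * ((v : ℂ) ^ (s - 2) * ((‖WW ν (t * v)‖ ^ 2 : ℝ) : ℂ)) := by
    intro v
    push_cast; ring
  simp_rw [h2]
  rw [integral_const_mul, d4b_mellin hν hs ht0]
  have : (t : ℂ) ^ (1 - s) = t * (t : ℂ) ^ (-s) := by
    rw [show 1 - s = 1 + -s by ring, Complex.cpow_add _ _ htc, Complex.cpow_one]
  rw [this]
  push_cast
  field_simp

/-- D4B: the transform of the main term -/
theorem Dt_main_pr {ν : ℂ} (hν : GoodNu ν) {θ₀ : ℝ} (hθ₀ : θ₀ ∈ SP.II) {g : ℝ → ℝ}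
    (hg : ∀ α : ℝ, 9 / 8 < α → IntegrableOn (fun t : ℝ => g t * t ^ (-α)) (Ici 1)) :
    ∃ H : ℂ → ℂ, DifferentiableOn ℂ H {s | 1 / 4 < s.re ∧ 0 < s.im} ∧
      ∀ s : ℂ, 2 < s.re → 0 < s.im →
        Dt (fun θ => ((∫ t in Ioi (1 : ℝ), g t * (‖WW ν (t * Real.tan θ)‖ ^ 2 / t) : ℝ) : ℂ)) θ₀ s =
        SP.bb s * kap ν s * (∫ t in Ioi (1 : ℝ), (g t : ℂ) * (t : ℂ) ^ (-s)) + H s := by
  obtain ⟨⟨K, hK, hGb⟩, hGc⟩ := d4b_G_facts hν hg
  set G : ℝ → ℝ := d4b_G ν g with hG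
  set v0 : ℝ := Real.tan θ₀ with hv0
  have hv0p : 0 < v0 := Real.tan_pos_of_pos_of_lt_pi_div_two hθ₀.1 hθ₀.2
  set W1 : ℂ → ℝ → ℂ := fun s θ => (SP.ff s θ - SP.bb s * (Real.tan θ : ℂ) ^ s) *
    ((G (Real.tan θ) : ℝ) : ℂ) / ((Real.sin θ : ℝ) : ℂ) ^ 2 with hW1
  have hW1i : ∀ s : ℂ, 1 / 4 < s.re → IntegrableOn (W1 s) (Ioo 0 θ₀) := by
    intro s hs
    obtain ⟨C, e, he, hC⟩ := d4b_W1 hθ₀ hK hGb (σ := s.re) (R := ‖s‖) hs
    refine Integrable.mono' (((intervalIntegral.integrableOn_Ioo_rpow_iff hθ₀.1).2 he).const_mul C)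
      ((d4b_W1c hθ₀ hGc (by linarith)).aestronglyMeasurable measurableSet_Ioo) ?_
    refine (ae_restrict_iff' measurableSet_Ioo).2 (ae_of_all _ fun θ hθ => ?_)
    exact hC s le_rfl (Complex.re_le_norm s) le_rfl θ hθ.1 hθ.2
  refine ⟨fun s => (∫ θ in Ioo 0 θ₀, W1 s θ) -
    SP.bb s * ∫ v in Ioi v0, (v : ℂ) ^ (s - 2) * ((G v : ℝ) : ℂ), ?_, ?_⟩
  · apply DifferentiableOn.sub
    · apply SP.hol_int (volume.restrict (Ioo 0 θ₀)) W1
      · intro s hs
        have hs1 : 1 / 4 < s.re := hs.1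
        exact (d4b_W1c hθ₀ hGc (by linarith)).aestronglyMeasurable measurableSet_Ioo
      · refine (ae_restrict_iff' measurableSet_Ioo).2 (ae_of_all _ fun θ hθ => ?_)
        have hθI : θ ∈ SP.II := ⟨hθ.1, hθ.2.trans hθ₀.2⟩
        have hvp : 0 < Real.tan θ := Real.tan_pos_of_pos_of_lt_pi_div_two hθ.1 hθI.2
        have hvc : ((Real.tan θ : ℝ) : ℂ) ≠ 0 := by exact_mod_cast hvp.ne'
        have sub : {s : ℂ | 1 / 4 < s.re ∧ 0 < s.im} ⊆ {s | 0 < s.re} := by
          intro s hs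
          have hs1 : 1 / 4 < s.re := hs.1
          show 0 < s.re
          linarith
        have d1 := (SP.ff_diff hθI).mono sub
        have d2 := d4b_bb.mono sub
        have d3 : DifferentiableOn ℂ (fun s : ℂ => (Real.tan θ : ℂ) ^ s)
            {s : ℂ | 1 / 4 < s.re ∧ 0 < s.im} := fun s _ =>
          (differentiableAt_id.const_cpow (Or.inl hvc)).differentiableWithinAt
        exact ((d1.sub (d2.mul d3)).mul_const _).div_const _
      · intro s hs
        obtain ⟨r, hr, hsub, hz⟩ := d4b_ball hs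
        obtain ⟨C, e, he, hC⟩ := d4b_W1 hθ₀ hK hGb (σ := (s.re + 1 / 4) / 2) (R := ‖s‖ + 1)
          (by have := hs.1; linarith)
        refine ⟨r, hr, hsub, fun θ => C * θ ^ e,
          ((intervalIntegral.integrableOn_Ioo_rpow_iff hθ₀.1).2 he).const_mul C, ?_⟩
        refine (ae_restrict_iff' measurableSet_Ioo).2 (ae_of_all _ fun θ hθ z hzb => ?_)
        obtain ⟨z1, z2, z3⟩ := hz z hzb
        exact hC z z1 z2 z3 θ hθ.1 hθ.2
    · apply DifferentiableOn.mul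
      · apply d4b_bb.mono
        intro s hs
        have hs1 : 1 / 4 < s.re := hs.1
        show 0 < s.re
        linarith
      · exact d4b_H2 hK hGc hGb hv0p
  · intro s hs1 hs2
    -- integrability over the whole half line
    have hInt : IntegrableOn (fun v : ℝ => (v : ℂ) ^ (s - 2) * ((G v : ℝ) : ℂ)) (Ioi 0) := by
      refine Integrable.mono' ((d4b_exp_int (p := s.re - 2 - 1 / 4) (by linarith)).const_mul K)
        ?_ ?_
      · refine ContinuousOn.aestronglyMeasurable ?_ measurableSet_Ioi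
        intro v hv
        have hvp : 0 < v := hv
        apply ContinuousAt.continuousWithinAt
        apply ContinuousAt.mul
        · exact Complex.continuousAt_ofReal_cpow_const _ _ (Or.inr hvp.ne')
        · exact ContinuousAt.comp (g := fun x : ℝ => (x : ℂ))
            Complex.continuous_ofReal.continuousAt (hGc.continuousAt (Ioi_mem_nhds hvp))
      · refine (ae_restrict_iff' measurableSet_Ioi).2 (ae_of_all _ fun v hv => ?_)
        have hvp : 0 < v := hv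
        rw [norm_mul, Complex.norm_cpow_eq_rpow_re_of_pos hvp, Complex.norm_real, Real.norm_eq_abs]
        have e1 : (s - 2).re = s.re - 2 := by rw [Complex.sub_re]; simp
        have e2 : v ^ (s.re - 2 - 1 / 4) = v ^ (s.re - 2) * v ^ (-(1 / 4) : ℝ) := by
          rw [← Real.rpow_add hvp]; congr 1
        rw [e1, e2]
        calc v ^ (s.re - 2) * |G v| ≤ v ^ (s.re - 2) *
              (K * (v ^ (-(1 / 4) : ℝ) * Real.exp (-(1 / 2) * v))) := by
              gcongr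
              exact hGb v hvp
          _ = _ := by ring
    -- the substitution
    have himg : Real.tan '' (Ioo 0 θ₀) = Ioo 0 v0 := by
      ext v
      constructor
      · rintro ⟨θ, hθ, rfl⟩
        refine ⟨Real.tan_pos_of_pos_of_lt_pi_div_two hθ.1 (hθ.2.trans hθ₀.2), ?_⟩
        exact Real.tan_lt_tan_of_lt_of_lt_pi_div_two (by linarith [Real.pi_pos, hθ.1]) hθ₀.2 hθ.2
      · intro hv
        refine ⟨Real.arctan v, ⟨?_, ?_⟩, Real.tan_arctan v⟩
        · exact Real.arctan_pos.2 hv.1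
        · have := Real.arctan_strictMono hv.2
          rwa [hv0, Real.arctan_tan (by linarith [Real.pi_pos, hθ₀.1]) hθ₀.2] at this
    have hder : ∀ θ ∈ Ioo 0 θ₀, HasDerivWithinAt Real.tan (1 / Real.cos θ ^ 2) (Ioo 0 θ₀) θ := by
      intro θ hθ
      have hθI : θ ∈ SP.II := ⟨hθ.1, hθ.2.trans hθ₀.2⟩
      exact (Real.hasDerivAt_tan (SP.cos_pos' hθI).ne').hasDerivWithinAt
    have hinj : InjOn Real.tan (Ioo 0 θ₀) := by
      intro a ha b hb hab
      exact Real.tan_inj_of_lt_of_lt_pi_div_two (by linarith [Real.pi_pos, ha.1])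
        (ha.2.trans hθ₀.2) (by linarith [Real.pi_pos, hb.1]) (hb.2.trans hθ₀.2) hab
    have hcg : ∀ θ ∈ Ioo 0 θ₀, |1 / Real.cos θ ^ 2| •
        (((Real.tan θ : ℝ) : ℂ) ^ (s - 2) * ((G (Real.tan θ) : ℝ) : ℂ)) =
        (Real.tan θ : ℂ) ^ s * ((G (Real.tan θ) : ℝ) : ℂ) / ((Real.sin θ : ℝ) : ℂ) ^ 2 := by
      intro θ hθ
      have hθI : θ ∈ SP.II := ⟨hθ.1, hθ.2.trans hθ₀.2⟩
      have hsin := SP.sin_pos' hθI
      have hcos := SP.cos_pos' hθI
      have hvp : 0 < Real.tan θ := Real.tan_pos_of_pos_of_lt_pi_div_two hθ.1 hθI.2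
      have hvc : ((Real.tan θ : ℝ) : ℂ) ≠ 0 := by exact_mod_cast hvp.ne'
      have hsc : ((Real.sin θ : ℝ) : ℂ) ≠ 0 := by exact_mod_cast hsin.ne'
      have hcc : ((Real.cos θ : ℝ) : ℂ) ≠ 0 := by exact_mod_cast hcos.ne'
      rw [abs_of_pos (by positivity), Complex.real_smul]
      rw [show s - 2 = s - (2 : ℕ) by norm_num, Complex.cpow_sub _ _ hvc, Complex.cpow_natCast]
      have e1 : ((Real.tan θ : ℝ) : ℂ) ^ 2 =
          ((Real.sin θ : ℝ) : ℂ) ^ 2 / ((Real.cos θ : ℝ) : ℂ) ^ 2 := by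
        rw [Real.tan_eq_sin_div_cos]; push_cast; rw [div_pow]
      rw [e1]
      have e2 : ((1 / Real.cos θ ^ 2 : ℝ) : ℂ) = 1 / ((Real.cos θ : ℝ) : ℂ) ^ 2 := by
        rw [Complex.ofReal_div, Complex.ofReal_one, Complex.ofReal_pow]
      rw [e2]
      field_simp
    have hsubst : ∫ v in Ioo 0 v0, (v : ℂ) ^ (s - 2) * ((G v : ℝ) : ℂ) =
        ∫ θ in Ioo 0 θ₀, (Real.tan θ : ℂ) ^ s * ((G (Real.tan θ) : ℝ) : ℂ) /
          ((Real.sin θ : ℝ) : ℂ) ^ 2 := by
      rw [← himg, integral_image_eq_integral_abs_deriv_smul measurableSet_Ioo hder hinj]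
      exact setIntegral_congr_fun measurableSet_Ioo hcg
    have hi2 : IntegrableOn (fun θ : ℝ => (Real.tan θ : ℂ) ^ s * ((G (Real.tan θ) : ℝ) : ℂ) /
          ((Real.sin θ : ℝ) : ℂ) ^ 2) (Ioo 0 θ₀) := by
      have h1 : IntegrableOn (fun v : ℝ => (v : ℂ) ^ (s - 2) * ((G v : ℝ) : ℂ))
          (Real.tan '' (Ioo 0 θ₀)) := by
        rw [himg]
        exact hInt.mono_set (fun v hv => hv.1)
      rw [integrableOn_image_iff_integrableOn_abs_deriv_smul measurableSet_Ioo hder hinj] at h1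
      exact h1.congr_fun hcg measurableSet_Ioo
    have hsplit : ∫ v in Ioo 0 v0, (v : ℂ) ^ (s - 2) * ((G v : ℝ) : ℂ) =
        (∫ v in Ioi (0 : ℝ), (v : ℂ) ^ (s - 2) * ((G v : ℝ) : ℂ)) -
          ∫ v in Ioi v0, (v : ℂ) ^ (s - 2) * ((G v : ℝ) : ℂ) := by
      have := intervalIntegral.integral_interval_add_Ioi hInt
        (hInt.mono_set (Ioi_subset_Ioi hv0p.le))
      rw [intervalIntegral.integral_of_le hv0p.le, integral_Ioc_eq_integral_Ioo] at this
      rw [← this]; ring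
    have hfub := d4b_fubini hν hg hs1
    rw [← hG] at hfub
    have hmain : Dt (fun θ => ((G (Real.tan θ) : ℝ) : ℂ)) θ₀ s =
        (∫ θ in Ioo 0 θ₀, W1 s θ) + SP.bb s * ∫ θ in Ioo 0 θ₀,
          (Real.tan θ : ℂ) ^ s * ((G (Real.tan θ) : ℝ) : ℂ) / ((Real.sin θ : ℝ) : ℂ) ^ 2 := by
      rw [← integral_const_mul, ← integral_add (hW1i s (by linarith)) (hi2.const_mul _)]
      unfold Dt
      apply setIntegral_congr_fun measurableSet_Ioo
      intro θ hθ
      simp only [hW1]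
      ring
    have hgoal : Dt (fun θ => ((∫ t in Ioi (1 : ℝ), g t * (‖WW ν (t * Real.tan θ)‖ ^ 2 / t) : ℝ) :
        ℂ)) θ₀ s = Dt (fun θ => ((G (Real.tan θ) : ℝ) : ℂ)) θ₀ s := rfl
    rw [hgoal, hmain, ← hsubst, hsplit, hfub]
    ring


end Pool.Agent.JO.FM

namespace Pool.Agent.JO.FM

theorem Dt_main : type_of% @Dt_main_pr := @Dt_main_pr

end Pool.Agent.JO.FM
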