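import Pool.Agent.Lib_helper45.JO.Defs2
import Pool.Agent.Lib_helper45.JOM.D2
import Pool.Agent.Lib_helper45.JOM.D3
import Pool.Agent.Lib_helper45.JOM.K2
import Pool.Agent.Lib_helper45.JOM.KKA

/-!
# Project JO, part FM, block D4C: the transform of `W(tan θ)²`
-/

set_option autoImplicit false

namespace Pool.Agent.JO.FM

open Complex Filter Topology MeasureTheory Set
open UpperHalfPlane hiding I
open scoped MatrixGroups ComplexConjugate

/-- `W(v)²` -/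
noncomputable def d4c_w (ν : ℂ) (v : ℝ) : ℂ := ((‖WW ν v‖ ^ 2 : ℝ) : ℂ)

theorem d4c_w_eq {ν : ℂ} (hν : GoodNu ν) {v : ℝ} (hv : 0 < v) : d4c_w ν v = v * KK ν v ^ 2 := by
  unfold d4c_w WW
  have h1 : ((‖KK ν v‖ ^ 2 : ℝ) : ℂ) = KK ν v ^ 2 := by
    have h2 : ((KK ν v).re : ℂ) = KK ν v :=
      Complex.ext (by simp) (by simp [KK_real hν v])
    rw [← h2, Complex.norm_real, Real.norm_eq_abs, sq_abs]
    push_cast
    ring
  rw [norm_mul, mul_pow, Complex.norm_real, Real.norm_eq_abs, sq_abs, Real.sq_sqrt hv.le]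
  rw [Complex.ofReal_mul, h1]

theorem d4c_w_cont {ν : ℂ} : ContinuousOn (d4c_w ν) (Ioi 0) := by
  intro v hv
  have h1 : ContinuousAt (WW ν) v := (WW_deriv ν (x := v) hv).1.continuousAt
  unfold d4c_w
  exact (Complex.continuous_ofReal.continuousAt.comp (h1.norm.pow 2)).continuousWithinAt

theorem d4c_w_bdd {ν : ℂ} (hν : GoodNu ν) (v₀ : ℝ) :
    ∃ C : ℝ, 0 ≤ C ∧ ∀ v : ℝ, 0 < v → v ≤ v₀ → ‖d4c_w ν v‖ ≤ C := by
  have hb1 : ν.re < (ν.re + 1 / 2) / 2 := by linarith [hν.lt_half]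
  have hb2 : (ν.re + 1 / 2) / 2 < 1 / 2 := by linarith [hν.lt_half]
  obtain ⟨C, hC⟩ := WW_bound hν hb1
  refine ⟨(C * (1 + |v₀|) ^ (1 / 2 - (ν.re + 1 / 2) / 2)) ^ 2, sq_nonneg _, fun v hv hv' => ?_⟩
  have h1 := (hC v hv).1
  have hpos : 0 < v ^ (1 / 2 - (ν.re + 1 / 2) / 2) * Real.exp (-(v / 2)) := by positivity
  have hC0 : 0 ≤ C := by
    by_contra hneg
    push Not at hneg
    have h2 : C * v ^ (1 / 2 - (ν.re + 1 / 2) / 2) * Real.exp (-(v / 2)) < 0 := by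
      rw [mul_assoc]
      exact mul_neg_of_neg_of_pos hneg hpos
    linarith [norm_nonneg (WW ν v)]
  have h3 : ‖WW ν v‖ ≤ C * (1 + |v₀|) ^ (1 / 2 - (ν.re + 1 / 2) / 2) := by
    refine h1.trans ?_
    have h4 : Real.exp (-(v / 2)) ≤ 1 := Real.exp_le_one_iff.2 (by linarith)
    have h5 : v ^ (1 / 2 - (ν.re + 1 / 2) / 2) ≤ (1 + |v₀|) ^ (1 / 2 - (ν.re + 1 / 2) / 2) :=
      Real.rpow_le_rpow hv.le (by linarith [le_abs_self v₀]) (by linarith)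
    calc C * v ^ (1 / 2 - (ν.re + 1 / 2) / 2) * Real.exp (-(v / 2))
        ≤ C * v ^ (1 / 2 - (ν.re + 1 / 2) / 2) * 1 :=
          mul_le_mul_of_nonneg_left h4 (by positivity)
      _ ≤ C * (1 + |v₀|) ^ (1 / 2 - (ν.re + 1 / 2) / 2) := by
          rw [mul_one]
          exact mul_le_mul_of_nonneg_left h5 hC0
  unfold d4c_w
  rw [Complex.norm_real, Real.norm_eq_abs, abs_of_nonneg (by positivity)]
  exact pow_le_pow_left₀ (norm_nonneg _) h3 2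

theorem d4c_bb : DifferentiableOn ℂ SP.bb {s | 0 < s.re} := by
  have h1 : ∀ s ∈ {s : ℂ | 0 < s.re}, SP.bb s = Gamma s * Gamma s / Gamma (s + s) := by
    intro s hs
    rw [SP.bb_eq, Complex.Gamma_mul_Gamma_eq_betaIntegral hs hs, mul_div_cancel_left₀]
    apply Complex.Gamma_ne_zero_of_re_pos
    simp only [Complex.add_re]
    have : 0 < s.re := hs
    linarith
  refine DifferentiableOn.congr ?_ h1
  intro s hs
  have hs' : 0 < s.re := hs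
  have hG : ∀ z : ℂ, 0 < z.re → DifferentiableAt ℂ Gamma z := fun z hz => by
    refine Complex.differentiableAt_Gamma z fun m h => ?_
    rw [h] at hz
    simp at hz
    have : (0 : ℝ) ≤ m := by positivity
    linarith
  have h2 : DifferentiableAt ℂ (fun s : ℂ => Gamma (s + s)) s := by
    have h3 : 0 < (s + s).re := by simp only [Complex.add_re]; linarith
    have h4 : DifferentiableAt ℂ (fun s : ℂ => s + s) s := by fun_prop
    exact DifferentiableAt.comp (f := fun s : ℂ => s + s) s (hG (s + s) h3) h4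
  refine DifferentiableAt.differentiableWithinAt ?_
  refine ((hG s hs').mul (hG s hs')).div h2 ?_
  apply Complex.Gamma_ne_zero_of_re_pos
  simp only [Complex.add_re]
  linarith

/-- the tail -/
theorem d4c_tail {ν : ℂ} (hν : GoodNu ν) {v₀ : ℝ} (hv₀ : 0 < v₀) :
    Differentiable ℂ (fun s : ℂ => ∫ v in Ioi v₀, (v : ℂ) ^ (s - 2) * d4c_w ν v) := by
  rw [← differentiableOn_univ]
  have hsub : Ioi v₀ ⊆ Ioi 0 := Ioi_subset_Ioi hv₀.le
  refine SP.hol_int (volume.restrict (Ioi v₀)) (fun s v => (v : ℂ) ^ (s - 2) * d4c_w ν v) univ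
    ?_ ?_ ?_
  · intro s _
    refine ContinuousOn.aestronglyMeasurable ?_ measurableSet_Ioi
    refine ContinuousOn.mul ?_ (d4c_w_cont.mono hsub)
    intro v hv
    refine ContinuousAt.continuousWithinAt ?_
    refine ContinuousAt.cpow Complex.continuous_ofReal.continuousAt continuousAt_const ?_
    exact Or.inl (by simpa using hsub hv)
  · refine (ae_restrict_iff' measurableSet_Ioi).2 (ae_of_all _ fun v hv => ?_)
    have hv0 : (v : ℂ) ≠ 0 := by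
      have : (0 : ℝ) < v := hsub hv
      exact_mod_cast this.ne'
    refine DifferentiableOn.mul ?_ (differentiableOn_const _)
    intro s _
    exact ((differentiableAt_id.sub_const 2).const_cpow (Or.inl hv0)).differentiableWithinAt
  · intro s _
    set σ : ℝ := max (s.re + 3) 2 with hσ
    have hσ2 : 2 ≤ σ := le_max_right _ _
    have hint := (kk_mellin hν (s := (σ : ℂ)) (by
      rw [Complex.ofReal_re]; linarith [hν.lt_half])).1
    refine ⟨1, one_pos, subset_univ _, fun v => (1 + v₀⁻¹) ^ (σ - s.re + 1) *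
      ‖KK ν v ^ 2 * (v : ℂ) ^ ((σ : ℂ) - 1)‖, ((hint.mono_set hsub).norm).const_mul _, ?_⟩
    refine (ae_restrict_iff' measurableSet_Ioi).2 (ae_of_all _ fun v hv z hz => ?_)
    have hv0 : (0 : ℝ) < v := hsub hv
    have hvv : v₀ < v := hv
    simp only [d4c_w_eq hν hv0]
    have hz1 : |z.re - s.re| < 1 := by
      have h1 : ‖z - s‖ < 1 := by
        rw [← dist_eq_norm]; exact hz
      exact lt_of_le_of_lt (by simpa using Complex.abs_re_le_norm (z - s)) h1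
    have hz2 := abs_lt.1 hz1
    have hn1 : ‖(v : ℂ) ^ (z - 2) * (v * KK ν v ^ 2)‖ = v ^ (z.re - 1) * ‖KK ν v ^ 2‖ := by
      rw [norm_mul, norm_mul, Complex.norm_cpow_eq_rpow_re_of_pos hv0, Complex.norm_real,
        Real.norm_eq_abs, abs_of_pos hv0]
      have e1 : v ^ (z.re - 1) = v ^ (z - 2).re * v := by
        rw [Complex.sub_re, show z.re - 1 = (z.re - 2) + 1 by ring, Real.rpow_add hv0,
          Real.rpow_one]
        norm_num
      rw [e1]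
      ring
    have hn2 : ‖KK ν v ^ 2 * (v : ℂ) ^ ((σ : ℂ) - 1)‖ = v ^ (σ - 1) * ‖KK ν v ^ 2‖ := by
      rw [norm_mul, Complex.norm_cpow_eq_rpow_re_of_pos hv0]
      have : ((σ : ℂ) - 1).re = σ - 1 := by simp
      rw [this, mul_comm]
    show ‖(v : ℂ) ^ (z - 2) * (v * KK ν v ^ 2)‖ ≤ (1 + v₀⁻¹) ^ (σ - s.re + 1) *
      ‖KK ν v ^ 2 * (v : ℂ) ^ ((σ : ℂ) - 1)‖
    rw [hn1, hn2, ← mul_assoc]
    apply mul_le_mul_of_nonneg_right _ (norm_nonneg _)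
    have e2 : v ^ (z.re - 1) = (v⁻¹) ^ (σ - z.re) * v ^ (σ - 1) := by
      rw [Real.inv_rpow hv0.le, ← Real.rpow_neg hv0.le, ← Real.rpow_add hv0]
      congr 1
      ring
    rw [e2]
    apply mul_le_mul_of_nonneg_right _ (by positivity)
    have hle : σ - z.re ≤ σ - s.re + 1 := by linarith
    have h0 : 0 ≤ σ - z.re := by
      have : s.re + 3 ≤ σ := le_max_left _ _
      linarith
    have hvi : v⁻¹ ≤ 1 + v₀⁻¹ := by
      have : v⁻¹ ≤ v₀⁻¹ := inv_anti₀ hv₀ hvv.le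
      linarith
    calc (v⁻¹) ^ (σ - z.re) ≤ (1 + v₀⁻¹) ^ (σ - z.re) :=
          Real.rpow_le_rpow (by positivity) hvi h0
      _ ≤ (1 + v₀⁻¹) ^ (σ - s.re + 1) := by
          apply Real.rpow_le_rpow_of_exponent_le _ hle
          have : 0 < v₀⁻¹ := by positivity
          linarith

/-- the change of variables `v = tan θ` -/
theorem d4c_tan_image {θ₀ : ℝ} (hθ₀ : θ₀ ∈ SP.II) :
    Real.tan '' Ioo 0 θ₀ = Ioo 0 (Real.tan θ₀) := by
  have hpi := Real.pi_pos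
  ext v
  constructor
  · rintro ⟨θ, hθ, rfl⟩
    have h1 : θ < Real.pi / 2 := hθ.2.trans hθ₀.2
    refine ⟨Real.tan_pos_of_pos_of_lt_pi_div_two hθ.1 h1, ?_⟩
    exact Real.tan_lt_tan_of_nonneg_of_lt_pi_div_two hθ.1.le hθ₀.2 hθ.2
  · rintro ⟨h1, h2⟩
    refine ⟨Real.arctan v, ⟨Real.arctan_pos.2 h1, ?_⟩, Real.tan_arctan v⟩
    have h3 : Real.arctan (Real.tan θ₀) = θ₀ :=
      Real.arctan_tan (by linarith [hθ₀.1]) hθ₀.2
    rw [← h3]
    exact Real.arctan_strictMono h2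

theorem d4c_tan_deriv {θ₀ : ℝ} (hθ₀ : θ₀ ∈ SP.II) : ∀ θ ∈ Ioo 0 θ₀,
    HasDerivWithinAt Real.tan (1 / Real.cos θ ^ 2) (Ioo 0 θ₀) θ := fun θ hθ =>
  (Real.hasDerivAt_tan (SP.cos_pos' (SP.sub_II hθ₀ hθ)).ne').hasDerivWithinAt

theorem d4c_tan_inj {θ₀ : ℝ} (hθ₀ : θ₀ ∈ SP.II) : InjOn Real.tan (Ioo 0 θ₀) := by
  have hpi := Real.pi_pos
  refine Real.injOn_tan.mono fun θ hθ => ?_
  have h1 := hθ.1
  have h2 := hθ.2.trans hθ₀.2
  exact ⟨by linarith, h2⟩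

theorem d4c_cov {θ₀ : ℝ} (hθ₀ : θ₀ ∈ SP.II) (ν s : ℂ) :
    (IntegrableOn (fun v : ℝ => (v : ℂ) ^ (s - 2) * d4c_w ν v) (Ioo 0 (Real.tan θ₀)) →
      IntegrableOn (fun θ : ℝ => (Real.tan θ : ℂ) ^ s * d4c_w ν (Real.tan θ) /
        ((Real.sin θ : ℝ) : ℂ) ^ 2) (Ioo 0 θ₀)) ∧
    ∫ θ in Ioo 0 θ₀, (Real.tan θ : ℂ) ^ s * d4c_w ν (Real.tan θ) / ((Real.sin θ : ℝ) : ℂ) ^ 2 =
      ∫ v in Ioo 0 (Real.tan θ₀), (v : ℂ) ^ (s - 2) * d4c_w ν v := by
  have hcongr : ∀ θ ∈ Ioo 0 θ₀, |1 / Real.cos θ ^ 2| • ((Real.tan θ : ℂ) ^ (s - 2) *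
      d4c_w ν (Real.tan θ)) = (Real.tan θ : ℂ) ^ s * d4c_w ν (Real.tan θ) /
        ((Real.sin θ : ℝ) : ℂ) ^ 2 := by
    intro θ hθ
    have hII := SP.sub_II hθ₀ hθ
    have hc := SP.cos_pos' hII
    have hs := SP.sin_pos' hII
    have ht : 0 < Real.tan θ := Real.tan_pos_of_pos_of_lt_pi_div_two hII.1 hII.2
    have htc : (Real.tan θ : ℂ) ≠ 0 := by exact_mod_cast ht.ne'
    have hcc : ((Real.cos θ : ℝ) : ℂ) ≠ 0 := by exact_mod_cast hc.ne'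
    have hsc : ((Real.sin θ : ℝ) : ℂ) ≠ 0 := by exact_mod_cast hs.ne'
    have e1 : (Real.tan θ : ℂ) ^ (s - 2) = (Real.tan θ : ℂ) ^ s / (Real.tan θ : ℂ) ^ 2 := by
      rw [Complex.cpow_sub _ _ htc]
      norm_num
    have e2 : ((Real.tan θ : ℝ) : ℂ) ^ 2 =
        ((Real.sin θ : ℝ) : ℂ) ^ 2 / ((Real.cos θ : ℝ) : ℂ) ^ 2 := by
      rw [Real.tan_eq_sin_div_cos]
      push_cast
      rw [div_pow]
    have e3 : ((1 / Real.cos θ ^ 2 : ℝ) : ℂ) = 1 / ((Real.cos θ : ℝ) : ℂ) ^ 2 := by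
      rw [Complex.ofReal_div, Complex.ofReal_one, Complex.ofReal_pow]
    rw [abs_of_pos (by positivity), Complex.real_smul, e1, e2, e3]
    field_simp
  constructor
  · intro hi
    rw [← d4c_tan_image hθ₀, integrableOn_image_iff_integrableOn_abs_deriv_smul measurableSet_Ioo
      (d4c_tan_deriv hθ₀) (d4c_tan_inj hθ₀)] at hi
    exact hi.congr_fun hcongr measurableSet_Ioo
  · rw [← d4c_tan_image hθ₀, integral_image_eq_integral_abs_deriv_smul measurableSet_Ioo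
      (d4c_tan_deriv hθ₀) (d4c_tan_inj hθ₀)]
    exact (setIntegral_congr_fun measurableSet_Ioo hcongr).symm

/-- the correction, bound -/
theorem d4c_R_bound {ν : ℂ} (hν : GoodNu ν) {θ₀ : ℝ} (hθ₀ : θ₀ ∈ SP.II) (R : ℝ) :
    ∃ C : ℝ, ∀ (z : ℂ) (θ : ℝ), 1 / 4 ≤ z.re → ‖z‖ ≤ R → θ ∈ Ioo 0 θ₀ →
      ‖(SP.ff z θ - SP.bb z * (Real.tan θ : ℂ) ^ z) * d4c_w ν (Real.tan θ) /
        ((Real.sin θ : ℝ) : ℂ) ^ 2‖ ≤ C * θ ^ (-(3 / 4) : ℝ) := by
  obtain ⟨C₁, hC₁⟩ := ff_tan hθ₀ (R := R)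
  obtain ⟨C₂, hC₂0, hC₂⟩ := d4c_w_bdd hν (Real.tan θ₀)
  set v₀ := Real.tan θ₀ with hv₀
  have hv₀pos : 0 < v₀ := Real.tan_pos_of_pos_of_lt_pi_div_two hθ₀.1 hθ₀.2
  have hc₀ := SP.cos_pos' hθ₀
  refine ⟨|C₁| * (1 + v₀) ^ |R| * C₂ / Real.cos θ₀ ^ 2, fun z θ hz hzR hθ => ?_⟩
  have hII := SP.sub_II hθ₀ hθ
  have hc := SP.cos_pos' hII
  have hs := SP.sin_pos' hII
  have ht : 0 < Real.tan θ := Real.tan_pos_of_pos_of_lt_pi_div_two hII.1 hII.2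
  have htv : Real.tan θ < v₀ :=
    Real.tan_lt_tan_of_nonneg_of_lt_pi_div_two hθ.1.le hθ₀.2 hθ.2
  have h1 := (hC₁ z θ (by linarith) (by linarith) hzR hθ.1 hθ.2.le).1
  have h2 := hC₂ (Real.tan θ) ht htv.le
  rw [norm_div, norm_mul, norm_pow, Complex.norm_real, Real.norm_eq_abs, abs_of_pos hs]
  have hzre : z.re ≤ R := (Complex.re_le_norm z).trans hzR
  have h3 : Real.tan θ ^ (z.re + 1) ≤ (1 + v₀) ^ |R| * Real.tan θ ^ (5 / 4 : ℝ) := by
    rw [show z.re + 1 = (z.re - 1 / 4) + 5 / 4 by ring, Real.rpow_add ht]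
    apply mul_le_mul_of_nonneg_right _ (by positivity)
    calc Real.tan θ ^ (z.re - 1 / 4) ≤ (1 + v₀) ^ (z.re - 1 / 4) :=
          Real.rpow_le_rpow ht.le (by linarith) (by linarith)
      _ ≤ (1 + v₀) ^ |R| := by
          apply Real.rpow_le_rpow_of_exponent_le (by linarith)
          have := le_abs_self R
          linarith
  have h4 : ‖SP.ff z θ - SP.bb z * (Real.tan θ : ℂ) ^ z‖ ≤
      |C₁| * ((1 + v₀) ^ |R| * Real.tan θ ^ (5 / 4 : ℝ)) := by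
    refine h1.trans ?_
    apply mul_le_mul (le_abs_self C₁) h3 (by positivity) (abs_nonneg _)
  have h5 : Real.tan θ ^ (5 / 4 : ℝ) / Real.sin θ ^ 2 ≤
      θ ^ (-(3 / 4) : ℝ) / Real.cos θ₀ ^ 2 := by
    have e1 : Real.tan θ ^ (5 / 4 : ℝ) = Real.tan θ ^ (-(3 / 4) : ℝ) * Real.tan θ ^ 2 := by
      rw [← Real.rpow_natCast (Real.tan θ) 2, ← Real.rpow_add ht]
      norm_num
    have e2 : Real.tan θ ^ 2 = Real.sin θ ^ 2 / Real.cos θ ^ 2 := by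
      rw [Real.tan_eq_sin_div_cos, div_pow]
    have e3 : Real.tan θ ^ (5 / 4 : ℝ) / Real.sin θ ^ 2 =
        Real.tan θ ^ (-(3 / 4) : ℝ) / Real.cos θ ^ 2 := by
      rw [e1, e2]
      field_simp
    rw [e3]
    have h6 : Real.tan θ ^ (-(3 / 4) : ℝ) ≤ θ ^ (-(3 / 4) : ℝ) := by
      apply Real.rpow_le_rpow_of_nonpos hθ.1 _ (by norm_num)
      exact (Real.lt_tan hII.1 hII.2).le
    have h7 : Real.cos θ₀ ≤ Real.cos θ :=
      Real.cos_le_cos_of_nonneg_of_le_pi hθ.1.le (by linarith [hθ₀.2, Real.pi_pos]) hθ.2.le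
    apply div_le_div₀ (Real.rpow_nonneg hθ.1.le _) h6 (by positivity)
    exact pow_le_pow_left₀ hc₀.le h7 2
  calc ‖SP.ff z θ - SP.bb z * (Real.tan θ : ℂ) ^ z‖ * ‖d4c_w ν (Real.tan θ)‖ / Real.sin θ ^ 2
      ≤ |C₁| * ((1 + v₀) ^ |R| * Real.tan θ ^ (5 / 4 : ℝ)) * C₂ / Real.sin θ ^ 2 := by
        apply div_le_div_of_nonneg_right _ (by positivity)
        exact mul_le_mul h4 h2 (norm_nonneg _) (by positivity)
    _ = |C₁| * (1 + v₀) ^ |R| * C₂ * (Real.tan θ ^ (5 / 4 : ℝ) / Real.sin θ ^ 2) := by ring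
    _ ≤ |C₁| * (1 + v₀) ^ |R| * C₂ * (θ ^ (-(3 / 4) : ℝ) / Real.cos θ₀ ^ 2) :=
        mul_le_mul_of_nonneg_left h5 (by positivity)
    _ = _ := by ring

theorem d4c_R_meas {ν : ℂ} {θ₀ : ℝ} (hθ₀ : θ₀ ∈ SP.II) {s : ℂ} (hs : 0 < s.re) :
    AEStronglyMeasurable (fun θ : ℝ => (SP.ff s θ - SP.bb s * (Real.tan θ : ℂ) ^ s) *
      d4c_w ν (Real.tan θ) / ((Real.sin θ : ℝ) : ℂ) ^ 2) (volume.restrict (Ioo 0 θ₀)) := by
  refine ContinuousOn.aestronglyMeasurable ?_ measurableSet_Ioo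
  have hsub : Ioo 0 θ₀ ⊆ SP.II := fun θ hθ => SP.sub_II hθ₀ hθ
  have htan : ContinuousOn Real.tan (Ioo 0 θ₀) := fun θ hθ =>
    (d4c_tan_deriv hθ₀ θ hθ).continuousWithinAt
  have htpos : ∀ θ ∈ Ioo 0 θ₀, 0 < Real.tan θ := fun θ hθ =>
    Real.tan_pos_of_pos_of_lt_pi_div_two (hsub hθ).1 (hsub hθ).2
  refine ContinuousOn.div (ContinuousOn.mul (ContinuousOn.sub ((SP.cont_ff hs).mono hsub)
    (continuousOn_const.mul ?_)) (d4c_w_cont.comp htan htpos)) (SP.cont_sin2.mono hsub) ?_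
  · refine ContinuousOn.cpow (Complex.continuous_ofReal.comp_continuousOn htan)
      continuousOn_const fun θ hθ => Or.inl ?_
    show 0 < ((Real.tan θ : ℝ) : ℂ).re
    rw [Complex.ofReal_re]
    exact htpos θ hθ
  · intro θ hθ
    have h1 := SP.sin_pos' (hsub hθ)
    have h2 : ((Real.sin θ : ℝ) : ℂ) ≠ 0 := by exact_mod_cast h1.ne'
    exact pow_ne_zero 2 h2

theorem d4c_R_diff {ν : ℂ} (hν : GoodNu ν) {θ₀ : ℝ} (hθ₀ : θ₀ ∈ SP.II) :
    DifferentiableOn ℂ (fun s : ℂ => ∫ θ in Ioo 0 θ₀, (SP.ff s θ -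
      SP.bb s * (Real.tan θ : ℂ) ^ s) * d4c_w ν (Real.tan θ) / ((Real.sin θ : ℝ) : ℂ) ^ 2)
      {s | 1 / 4 < s.re ∧ 0 < s.im} := by
  refine SP.hol_int (volume.restrict (Ioo 0 θ₀)) (fun (s : ℂ) (θ : ℝ) => (SP.ff s θ -
      SP.bb s * (Real.tan θ : ℂ) ^ s) * d4c_w ν (Real.tan θ) / ((Real.sin θ : ℝ) : ℂ) ^ 2)
      {s | 1 / 4 < s.re ∧ 0 < s.im} ?_ ?_ ?_
  · intro s hs
    exact d4c_R_meas hθ₀ (by linarith [hs.1])
  · refine (ae_restrict_iff' measurableSet_Ioo).2 (ae_of_all _ fun θ hθ => ?_)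
    have hII := SP.sub_II hθ₀ hθ
    have ht : 0 < Real.tan θ := Real.tan_pos_of_pos_of_lt_pi_div_two hII.1 hII.2
    have htc : (Real.tan θ : ℂ) ≠ 0 := by exact_mod_cast ht.ne'
    have hsub : {s : ℂ | 1 / 4 < s.re ∧ 0 < s.im} ⊆ {s : ℂ | 0 < s.re} := by
      intro s hs
      have := hs.1
      show 0 < s.re
      linarith
    refine DifferentiableOn.div_const (DifferentiableOn.mul_const (DifferentiableOn.sub
      ((SP.ff_diff hII).mono hsub) (DifferentiableOn.mul (d4c_bb.mono hsub) ?_)) _) _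
    intro s _
    exact (differentiableAt_id.const_cpow (Or.inl htc)).differentiableWithinAt
  · intro s hs
    have hopen : IsOpen {s : ℂ | 1 / 4 < s.re ∧ 0 < s.im} :=
      (isOpen_lt continuous_const Complex.continuous_re).inter
        (isOpen_lt continuous_const Complex.continuous_im)
    obtain ⟨r, hr, hrU⟩ := Metric.isOpen_iff.1 hopen s hs
    obtain ⟨C, hC⟩ := d4c_R_bound hν hθ₀ (‖s‖ + r)
    refine ⟨r, hr, hrU, fun θ => C * θ ^ (-(3 / 4) : ℝ),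
      (SP.integ_rpow (by norm_num) hθ₀.1).const_mul C, ?_⟩
    refine (ae_restrict_iff' measurableSet_Ioo).2 (ae_of_all _ fun θ hθ z hz => ?_)
    refine hC z θ (hrU hz).1.le ?_ hθ
    have h1 : ‖z - s‖ < r := by
      rw [← dist_eq_norm]; exact hz
    calc ‖z‖ = ‖s + (z - s)‖ := by congr 1; ring
      _ ≤ ‖s‖ + ‖z - s‖ := norm_add_le _ _
      _ ≤ ‖s‖ + r := by linarith

section

variable {ν : ℂ} {ε : ℝ} {a : ℕ → ℂ} {f : ℍ → ℂ} {L : ℂ → ℂ}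

/-- D4C: the transform of `W(tan θ)²` -/
theorem Dt_one_pr (hν : GoodNu ν) {θ₀ : ℝ} (hθ₀ : θ₀ ∈ SP.II) :
    ∃ H : ℂ → ℂ, DifferentiableOn ℂ H {s | 1 / 4 < s.re ∧ 0 < s.im} ∧
      ∀ s : ℂ, 2 < s.re → 0 < s.im →
        Dt (fun θ => ((‖WW ν (Real.tan θ)‖ ^ 2 : ℝ) : ℂ)) θ₀ s = H s := by
  set v₀ := Real.tan θ₀ with hv₀
  have hv₀pos : 0 < v₀ := Real.tan_pos_of_pos_of_lt_pi_div_two hθ₀.1 hθ₀.2
  refine ⟨fun s => SP.bb s * (kap ν s - ∫ v in Ioi v₀, (v : ℂ) ^ (s - 2) * d4c_w ν v) +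
    ∫ θ in Ioo 0 θ₀, (SP.ff s θ - SP.bb s * (Real.tan θ : ℂ) ^ s) * d4c_w ν (Real.tan θ) /
      ((Real.sin θ : ℝ) : ℂ) ^ 2, ?_, ?_⟩
  · have hsub : {s : ℂ | 1 / 4 < s.re ∧ 0 < s.im} ⊆ {s : ℂ | 0 < s.re} := by
      intro s hs
      have := hs.1
      show 0 < s.re
      linarith
    have hsub2 : {s : ℂ | 1 / 4 < s.re ∧ 0 < s.im} ⊆ {s : ℂ | 0 < s.re ∧ 0 < s.im} := by
      intro s hs
      exact ⟨hsub hs, hs.2⟩
    refine DifferentiableOn.add (DifferentiableOn.mul (d4c_bb.mono hsub)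
      (((kap_diff hν).mono hsub2).sub (d4c_tail hν hv₀pos).differentiableOn)) (d4c_R_diff hν hθ₀)
  · intro s hs him
    have hs0 : 0 < s.re := by linarith
    -- integrability
    obtain ⟨hint, hval⟩ := kk_mellin hν (s := s) (by linarith [hν.lt_half])
    have hcg : ∀ v ∈ Ioi (0 : ℝ), KK ν v ^ 2 * (v : ℂ) ^ (s - 1) = (v : ℂ) ^ (s - 2) * d4c_w ν v := by
      intro v hv
      have hvc : (v : ℂ) ≠ 0 := by
        have : (0 : ℝ) < v := hv
        exact_mod_cast this.ne'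
      rw [d4c_w_eq hν hv, show s - 1 = (s - 2) + 1 by ring, Complex.cpow_add _ _ hvc,
        Complex.cpow_one]
      ring
    have hint' : IntegrableOn (fun v : ℝ => (v : ℂ) ^ (s - 2) * d4c_w ν v) (Ioi 0) :=
      hint.congr_fun hcg measurableSet_Ioi
    have hval' : ∫ v in Ioi (0 : ℝ), (v : ℂ) ^ (s - 2) * d4c_w ν v = kap ν s := by
      rw [← hval]
      exact (setIntegral_congr_fun measurableSet_Ioi hcg).symm
    have hsplit : ∫ v in Ioi (0 : ℝ), (v : ℂ) ^ (s - 2) * d4c_w ν v =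
        (∫ v in Ioo 0 v₀, (v : ℂ) ^ (s - 2) * d4c_w ν v) +
          ∫ v in Ioi v₀, (v : ℂ) ^ (s - 2) * d4c_w ν v := by
      rw [← integral_Ioc_eq_integral_Ioo, ← setIntegral_union Ioc_disjoint_Ioi_same
        measurableSet_Ioi (hint'.mono_set Ioc_subset_Ioi_self)
        (hint'.mono_set (Ioi_subset_Ioi hv₀pos.le)), Ioc_union_Ioi_eq_Ioi hv₀pos.le]
    obtain ⟨hc1, hc2⟩ := d4c_cov hθ₀ ν s
    have hi2 := hc1 (hint'.mono_set Ioo_subset_Ioi_self)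
    have hi1 : IntegrableOn (fun θ : ℝ => (SP.ff s θ - SP.bb s * (Real.tan θ : ℂ) ^ s) *
        d4c_w ν (Real.tan θ) / ((Real.sin θ : ℝ) : ℂ) ^ 2) (Ioo 0 θ₀) := by
      obtain ⟨C, hC⟩ := d4c_R_bound hν hθ₀ ‖s‖
      refine Integrable.mono' ((SP.integ_rpow (a := -(3 / 4)) (by norm_num) hθ₀.1).const_mul C)
        (d4c_R_meas hθ₀ hs0) ?_
      exact (ae_restrict_iff' measurableSet_Ioo).2
        (ae_of_all _ fun θ hθ => hC s θ (by linarith) le_rfl hθ)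
    have hDt : Dt (fun θ => ((‖WW ν (Real.tan θ)‖ ^ 2 : ℝ) : ℂ)) θ₀ s =
        (∫ θ in Ioo 0 θ₀, (SP.ff s θ - SP.bb s * (Real.tan θ : ℂ) ^ s) * d4c_w ν (Real.tan θ) /
          ((Real.sin θ : ℝ) : ℂ) ^ 2) + SP.bb s * ∫ θ in Ioo 0 θ₀, (Real.tan θ : ℂ) ^ s *
            d4c_w ν (Real.tan θ) / ((Real.sin θ : ℝ) : ℂ) ^ 2 := by
      rw [← integral_const_mul, ← integral_add hi1 (hi2.const_mul _)]
      unfold Dt
      refine setIntegral_congr_fun measurableSet_Ioo fun θ _ => ?_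
      show SP.ff s θ * d4c_w ν (Real.tan θ) / ((Real.sin θ : ℝ) : ℂ) ^ 2 = _
      ring
    rw [hDt, hc2]
    have h3 : ∫ v in Ioo 0 v₀, (v : ℂ) ^ (s - 2) * d4c_w ν v =
        kap ν s - ∫ v in Ioi v₀, (v : ℂ) ^ (s - 2) * d4c_w ν v := by
      rw [← hval', hsplit]
      ring
    rw [h3]
    ring

end

end Pool.Agent.JO.FM

namespace Pool.Agent.JO.FM

theorem Dt_one : type_of% @Dt_one_pr := @Dt_one_pr

end Pool.Agent.JO.FM
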