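import Pool.Agent.Lib_helper45.JO.Defs2
import Pool.Agent.Lib_helper45.JOM.D2
import Pool.Agent.Lib_helper45.JOM.D4A
import Pool.Agent.Lib_helper45.JOM.D4B
import Pool.Agent.Lib_helper45.JOM.D4C
import Pool.Agent.Lib_helper45.JOM.D4D
import Pool.Agent.Lib_helper45.JOM.KKA
import Pool.Agent.Lib_helper45.JOM.P6

/-! Project JO, part FM, block D4 (by helper14). Needs D2 D4A D4B D4C D4D P6 and KK_bound (K1). -/

set_option autoImplicit false
set_option linter.unusedSectionVars false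

namespace Pool.Agent.JO.FM

open Complex Filter Topology MeasureTheory Set
open UpperHalfPlane hiding I
open scoped MatrixGroups ComplexConjugate

/-! ### measurability -/

theorem d4_KK_meas (ν : ℂ) : Measurable (KK ν) := by
  have h1 : Continuous (fun p : ℝ × ℝ => cexp (-(p.1 : ℂ) * (Real.cosh p.2 : ℝ) + ν * p.2)) := by
    fun_prop
  have h2 := (h1.stronglyMeasurable).integral_prod_right' (ν := (volume : Measure ℝ))
  exact (h2.measurable).const_mul _

theorem d4_WW_meas (ν : ℂ) : Measurable (WW ν) :=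
  (Complex.measurable_ofReal.comp Real.continuous_sqrt.measurable).mul (d4_KK_meas ν)

theorem d4_tan_meas : Measurable Real.tan := by
  have h : Real.tan = fun x => Real.sin x / Real.cos x := by
    funext x
    exact Real.tan_eq_sin_div_cos x
  rw [h]
  exact Real.measurable_sin.div Real.measurable_cos

theorem d4_G_meas (ν : ℂ) {g : ℝ → ℝ} {θ₀ : ℝ}
    (hg : AEStronglyMeasurable g (volume.restrict (Ioi 1))) :
    AEStronglyMeasurable
      (fun θ : ℝ => ((∫ t in Ioi (1 : ℝ), g t * (‖WW ν (t * Real.tan θ)‖ ^ 2 / t) : ℝ) : ℂ))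
      (volume.restrict (Ioo 0 θ₀)) := by
  have h1 : AEStronglyMeasurable (fun p : ℝ × ℝ => g p.2 * (‖WW ν (p.2 * Real.tan p.1)‖ ^ 2 / p.2))
      ((volume.restrict (Ioo 0 θ₀)).prod (volume.restrict (Ioi 1))) := by
    refine (hg.comp_snd).mul (Measurable.aestronglyMeasurable ?_)
    refine Measurable.div (Measurable.pow_const (Measurable.norm ?_) 2) measurable_snd
    exact (d4_WW_meas ν).comp (measurable_snd.mul (d4_tan_meas.comp measurable_fst))
  have h2 := h1.integral_prod_right'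
  exact Complex.continuous_ofReal.comp_aestronglyMeasurable h2

theorem d4_ray_meas {ν : ℂ} {ε : ℝ} {a : ℕ → ℂ} {f : ℍ → ℂ} (F : Frame0 ν ε a f) {θ₀ : ℝ}
    (hθ₀ : θ₀ ∈ SP.II) : AEStronglyMeasurable (ray (phi f)) (volume.restrict (Ioo 0 θ₀)) := by
  have h1 : AEStronglyMeasurable
      (fun p : ℝ × ℝ => phi f (ofComplex (p.2 * cexp (p.1 * Complex.I))) / p.2)
      ((volume.restrict (Ioo 0 θ₀)).prod (volume.restrict (Ioi 0))) := by
    rw [Measure.prod_restrict]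
    refine ContinuousOn.aestronglyMeasurable ?_ (measurableSet_Ioo.prod measurableSet_Ioi)
    have hc : ContinuousOn (fun p : ℝ × ℝ => ((p.2 : ℝ) : ℂ) * cexp ((p.1 : ℂ) * Complex.I))
        (Ioo 0 θ₀ ×ˢ Ioi 0) := by fun_prop
    have hm : MapsTo (fun p : ℝ × ℝ => ((p.2 : ℝ) : ℂ) * cexp ((p.1 : ℂ) * Complex.I))
        (Ioo 0 θ₀ ×ˢ Ioi 0) {z | 0 < z.im} := by
      intro p hp
      have h2 : 0 < Real.sin p.1 := SP.sin_pos' (SP.sub_II hθ₀ hp.1)
      have h3 : (0 : ℝ) < p.2 := hp.2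
      have h4 : (((p.2 : ℝ) : ℂ) * cexp ((p.1 : ℂ) * Complex.I)).im = p.2 * Real.sin p.1 := by
        rw [Complex.im_ofReal_mul, Complex.exp_ofReal_mul_I_im]
      have h5 : 0 < p.2 * Real.sin p.1 := by positivity
      rw [← h4] at h5
      exact h5
    have h5 := F.smooth.continuousOn.comp hc hm
    refine ContinuousOn.div ?_ (by fun_prop) (fun p hp => ?_)
    · unfold phi
      exact Complex.continuous_ofReal.comp_continuousOn ((h5.norm).pow 2)
    · have h3 : (0 : ℝ) < p.2 := hp.2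
      exact_mod_cast h3.ne'
  exact h1.integral_prod_right'

/-! ### integrability -/

theorem d4_int {θ₀ D : ℝ} (hθ₀ : θ₀ ∈ SP.II) {y : ℝ → ℂ}
    (hm : AEStronglyMeasurable y (volume.restrict (Ioo 0 θ₀)))
    (hy : ∀ θ : ℝ, 0 < θ → θ < θ₀ → ‖y θ‖ ≤ D * θ ^ (-(1 / 4) : ℝ)) {s : ℂ} (hs : 2 < s.re) :
    IntegrableOn (fun θ => SP.ff s θ * y θ / ((Real.sin θ : ℝ) : ℂ) ^ 2) (Ioo 0 θ₀) := by
  have h1 : IntegrableOn (fun θ : ℝ => D * θ ^ (-(1 / 4) : ℝ)) (Ioo 0 θ₀) :=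
    (SP.integ_rpow (by norm_num) hθ₀.1).const_mul D
  refine Integrable.mono' h1 ?_ ?_
  · have hf : AEStronglyMeasurable (fun θ => SP.ff s θ) (volume.restrict (Ioo 0 θ₀)) :=
      ((SP.cont_ff (by linarith)).mono (fun θ h => SP.sub_II hθ₀ h)).aestronglyMeasurable
        measurableSet_Ioo
    have hsin : AEStronglyMeasurable (fun θ : ℝ => ((Real.sin θ : ℝ) : ℂ) ^ 2)
        (volume.restrict (Ioo 0 θ₀)) :=
      (SP.cont_sin2.mono (fun θ h => SP.sub_II hθ₀ h)).aestronglyMeasurable measurableSet_Ioo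
    exact ((hf.mul hm).aemeasurable.div hsin.aemeasurable).aestronglyMeasurable
  · refine (ae_restrict_iff' measurableSet_Ioo).2 (ae_of_all _ fun θ hθ => ?_)
    have hII := SP.sub_II hθ₀ hθ
    have hS := SP.sin_pos' hII
    have h2 := SP.ff_norm_le hII (s := s) (by linarith)
    have h3 : ‖((Real.sin θ : ℝ) : ℂ) ^ 2‖ = Real.sin θ ^ 2 := by
      rw [norm_pow, Complex.norm_real, Real.norm_of_nonneg hS.le]
    rw [norm_div, norm_mul, h3, div_le_iff₀ (by positivity)]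
    have h4 : Real.sin θ ^ s.re ≤ Real.sin θ ^ 2 := by
      rw [← Real.rpow_natCast]
      exact Real.rpow_le_rpow_of_exponent_ge hS (Real.sin_le_one _) (by push_cast; linarith)
    have h5 : 2 / s.re ≤ 1 := by
      rw [div_le_one (by linarith)]
      linarith
    have h6 : ‖SP.ff s θ‖ ≤ Real.sin θ ^ 2 := by
      refine h2.trans ?_
      calc 2 / s.re * Real.sin θ ^ s.re ≤ 1 * Real.sin θ ^ 2 :=
            mul_le_mul h5 h4 (Real.rpow_nonneg hS.le _) zero_le_one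
        _ = _ := one_mul _
    have h7 := hy θ hθ.1 hθ.2
    calc ‖SP.ff s θ‖ * ‖y θ‖ ≤ Real.sin θ ^ 2 * (D * θ ^ (-(1 / 4) : ℝ)) :=
          mul_le_mul h6 h7 (norm_nonneg _) (by positivity)
      _ = _ := mul_comm _ _

theorem d4_WW {ν : ℂ} (hν : GoodNu ν) : ∃ C : ℝ, 0 ≤ C ∧ ∀ x : ℝ, 0 < x →
    ‖WW ν x‖ ≤ C * Real.exp (-(x / 2)) := by
  obtain ⟨C, hC⟩ := KK_bound ν (b := 1 / 2) (by
    rw [abs_of_nonneg hν.nonneg]
    exact hν.lt_half)
  refine ⟨|C|, abs_nonneg _, fun x hx => ?_⟩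
  have h1 := hC x hx
  have hx' : 0 < √x := Real.sqrt_pos.2 hx
  rw [WW, norm_mul, Complex.norm_real, Real.norm_of_nonneg hx'.le]
  calc √x * ‖KK ν x‖ ≤ √x * (C * x ^ (-(1 / 2) : ℝ) * Real.exp (-(x / 2))) :=
        mul_le_mul_of_nonneg_left h1 hx'.le
    _ = C * Real.exp (-(x / 2)) := by
        rw [Real.rpow_neg hx.le, ← Real.sqrt_eq_rpow]
        field_simp
    _ ≤ |C| * Real.exp (-(x / 2)) :=
        mul_le_mul_of_nonneg_right (le_abs_self _) (Real.exp_nonneg _)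

theorem d4_exp {x : ℝ} (hx : 0 < x) : Real.exp (-x) ≤ x ^ (-(1 / 4) : ℝ) := by
  rw [Real.exp_neg, Real.rpow_neg hx.le]
  refine inv_anti₀ (by positivity) ?_
  rcases le_or_gt 1 x with h | h
  · calc x ^ (1 / 4 : ℝ) ≤ x ^ (1 : ℝ) := Real.rpow_le_rpow_of_exponent_le h (by norm_num)
      _ = x := Real.rpow_one x
      _ ≤ Real.exp x := by linarith [Real.add_one_le_exp x]
  · calc x ^ (1 / 4 : ℝ) ≤ 1 := Real.rpow_le_one hx.le h.le (by norm_num)
      _ ≤ Real.exp x := Real.one_le_exp hx.le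

theorem d4_rpow_ge {θ₀ : ℝ} (hθ₀ : θ₀ ∈ SP.II) {θ : ℝ} (h0 : 0 < θ) (h1 : θ < θ₀) :
    1 ≤ 2 * θ ^ (-(1 / 4) : ℝ) := by
  have h2 : θ < 2 := (SP.lt_two ⟨h0, h1.trans hθ₀.2⟩)
  have h3 : (2 : ℝ) ^ (-(1 / 4) : ℝ) ≤ θ ^ (-(1 / 4) : ℝ) :=
    Real.rpow_le_rpow_of_nonpos h0 h2.le (by norm_num)
  have h4 : (2 : ℝ) ^ (-1 : ℝ) ≤ (2 : ℝ) ^ (-(1 / 4) : ℝ) :=
    Real.rpow_le_rpow_of_exponent_le (by norm_num) (by norm_num)
  rw [Real.rpow_neg_one] at h4
  linarith

/-- the bound of the main term -/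
theorem d4_G_bound {ν : ℂ} (hν : GoodNu ν) {g : ℝ → ℝ} {θ₀ : ℝ} (hθ₀ : θ₀ ∈ SP.II)
    (hg : IntegrableOn (fun t : ℝ => g t * t ^ (-(5 / 4) : ℝ)) (Ioi 1)) :
    ∃ D : ℝ, ∀ θ : ℝ, 0 < θ → θ < θ₀ →
      ‖((∫ t in Ioi (1 : ℝ), g t * (‖WW ν (t * Real.tan θ)‖ ^ 2 / t) : ℝ) : ℂ)‖ ≤
        D * θ ^ (-(1 / 4) : ℝ) := by
  obtain ⟨C, hC, hW⟩ := d4_WW hν
  refine ⟨∫ t in Ioi (1 : ℝ), C ^ 2 * ‖g t * t ^ (-(5 / 4) : ℝ)‖, fun θ h0 h1 => ?_⟩
  have hII : θ ∈ SP.II := ⟨h0, h1.trans hθ₀.2⟩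
  have htan : θ < Real.tan θ := Real.lt_tan h0 hII.2
  have hv : 0 < Real.tan θ := h0.trans htan
  have hv4 : Real.tan θ ^ (-(1 / 4) : ℝ) ≤ θ ^ (-(1 / 4) : ℝ) :=
    Real.rpow_le_rpow_of_nonpos h0 htan.le (by norm_num)
  rw [Complex.norm_real, ← integral_mul_const]
  refine norm_integral_le_of_norm_le ((hg.norm.const_mul (C ^ 2)).mul_const _) ?_
  refine (ae_restrict_iff' measurableSet_Ioi).2 (ae_of_all _ fun t ht => ?_)
  have ht0 : 0 < t := one_pos.trans ht
  have hX : 0 < t * Real.tan θ := by positivity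
  have h2 : ‖WW ν (t * Real.tan θ)‖ ^ 2 ≤ C ^ 2 * (t ^ (-(1 / 4) : ℝ) * θ ^ (-(1 / 4) : ℝ)) := by
    calc ‖WW ν (t * Real.tan θ)‖ ^ 2 ≤ (C * Real.exp (-(t * Real.tan θ / 2))) ^ 2 :=
          pow_le_pow_left₀ (norm_nonneg _) (hW _ hX) 2
      _ = C ^ 2 * Real.exp (-(t * Real.tan θ)) := by
          rw [mul_pow, ← Real.exp_nat_mul]
          congr 2
          push_cast
          ring
      _ ≤ C ^ 2 * (t * Real.tan θ) ^ (-(1 / 4) : ℝ) :=
          mul_le_mul_of_nonneg_left (d4_exp hX) (by positivity)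
      _ = C ^ 2 * (t ^ (-(1 / 4) : ℝ) * Real.tan θ ^ (-(1 / 4) : ℝ)) := by
          rw [Real.mul_rpow ht0.le hv.le]
      _ ≤ _ := by gcongr
  have h3 : t ^ (-(5 / 4) : ℝ) = t ^ (-(1 / 4) : ℝ) / t := by
    rw [eq_div_iff ht0.ne']
    nth_rewrite 2 [← Real.rpow_one t]
    rw [← Real.rpow_add ht0]
    norm_num
  rw [norm_mul, norm_mul, Real.norm_of_nonneg (by positivity : 0 ≤ ‖WW ν (t * Real.tan θ)‖ ^ 2 / t),
    Real.norm_of_nonneg (Real.rpow_nonneg ht0.le _)]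
  calc ‖g t‖ * (‖WW ν (t * Real.tan θ)‖ ^ 2 / t)
      ≤ ‖g t‖ * (C ^ 2 * (t ^ (-(1 / 4) : ℝ) * θ ^ (-(1 / 4) : ℝ)) / t) := by gcongr
    _ = C ^ 2 * (‖g t‖ * t ^ (-(5 / 4) : ℝ)) * θ ^ (-(1 / 4) : ℝ) := by
        rw [h3]
        ring

/-! ### holomorphy -/

theorem d4_bb_diff : DifferentiableOn ℂ SP.bb {s : ℂ | 0 < s.re} := by
  have := SP.ml (volume : Measure ℝ) (fun τ => SP.qq 1 τ) (fun _ => 1)
    (fun τ => SP.qq_pos zero_le_one τ)
    (fun τ => (SP.qq_le zero_le_one τ).trans (by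
      rw [Real.exp_le_one_iff]
      linarith [abs_nonneg τ]))
    (by
      unfold SP.qq
      have hc : Continuous (fun τ : ℝ => 1 / (2 * (Real.cosh τ + 1))) := by
        refine continuous_const.div (by fun_prop) (fun τ => ?_)
        have := Real.cosh_pos τ
        positivity
      exact hc.aestronglyMeasurable) aestronglyMeasurable_const 0 (fun σ hσ => ?_)
  · refine this.congr (fun s _ => ?_)
    simp only [SP.bb, mul_one]
  · refine (SP.f2_int hσ).mono' ?_ (ae_of_all _ fun τ => ?_)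
    · refine Continuous.aestronglyMeasurable ?_
      simp only [norm_one, mul_one]
      unfold SP.qq
      refine Continuous.rpow_const ?_ (fun τ => Or.inl ?_)
      · refine continuous_const.div (by fun_prop) (fun τ => ?_)
        have := Real.cosh_pos τ
        positivity
      · have := Real.cosh_pos τ
        positivity
    · rw [norm_one, mul_one, Real.norm_of_nonneg (Real.rpow_nonneg (SP.qq_pos zero_le_one τ).le _)]
      calc SP.qq 1 τ ^ σ ≤ Real.exp (-|τ|) ^ σ :=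
            Real.rpow_le_rpow (SP.qq_pos zero_le_one τ).le (SP.qq_le zero_le_one τ) hσ.le
        _ = Real.exp (-(σ * |τ|)) := by
            rw [← Real.exp_mul]
            congr 1
            ring

theorem d4_E_diff {w : ℝ → ℂ} (hw : AEStronglyMeasurable w (volume.restrict (Ioi 1)))
    (hi : ∀ σ : ℝ, 1 / 8 < σ → IntegrableOn (fun t : ℝ => t ^ (-σ) * ‖w t‖) (Ioi 1)) :
    DifferentiableOn ℂ (fun s : ℂ => ∫ t in Ioi (1 : ℝ), w t * (t : ℂ) ^ (-s)) {s | 1 / 8 < s.re} := by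
  have hcongr : ∀ t : ℝ, 1 < t → (max t 1)⁻¹ = t⁻¹ := fun t ht => by rw [max_eq_left ht.le]
  have := SP.ml (volume.restrict (Ioi (1 : ℝ))) (fun t => (max t 1)⁻¹) w
    (fun t => by
      have : 0 < max t 1 := lt_of_lt_of_le one_pos (le_max_right _ _)
      positivity)
    (fun t => inv_le_one_of_one_le₀ (le_max_right _ _))
    (Measurable.aestronglyMeasurable (by fun_prop)) hw (1 / 8) (fun σ hσ => ?_)
  · refine this.congr (fun s _ => ?_)
    refine setIntegral_congr_fun measurableSet_Ioi (fun t ht => ?_)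
    have ht' : (1 : ℝ) < t := ht
    have ht0 : (0 : ℝ) < t := one_pos.trans ht'
    rw [hcongr t ht', Complex.cpow_neg, mul_comm, Complex.ofReal_inv, Complex.inv_cpow]
    rw [Complex.arg_ofReal_of_nonneg ht0.le]
    exact Real.pi_ne_zero.symm
  · refine (integrable_congr ((ae_restrict_iff' measurableSet_Ioi).2
      (ae_of_all _ fun t ht => ?_))).1 (hi σ hσ)
    have ht' : (1 : ℝ) < t := ht
    have ht0 : (0 : ℝ) < t := one_pos.trans ht'
    rw [hcongr t ht', Real.inv_rpow ht0.le, Real.rpow_neg ht0.le]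

variable {ν : ℂ} {ε : ℝ} {a : ℕ → ℂ} {f : ℍ → ℂ} {L : ℂ → ℂ}

/-- D4: `D_F` -/
theorem Dt_phi_pr (F : Frame0 ν ε a f) (hL : LFun ν ε a f L) {θ₀ : ℝ} (hθ₀ : θ₀ ∈ SP.II) :
    ∃ H : ℂ → ℂ, DifferentiableOn ℂ H {s | 1 / 4 < s.re ∧ 0 < s.im} ∧
      ∀ s : ℂ, 2 < s.re → 0 < s.im → Dt (ray (phi f)) θ₀ s = SP.bb s * kap ν s *
        (∫ t in Ioi (1 : ℝ), ((‖L (ha t)‖ ^ 2 + ‖L (ha (-t))‖ ^ 2 : ℝ) : ℂ) * (t : ℂ) ^ (-s)) +
          H s := by
  obtain ⟨e, B, C, he, heC, hasy⟩ := phi_asymp F hL hθ₀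
  have hC : 0 ≤ C := by
    have := (abs_nonneg _).trans (heC 1 le_rfl)
    simpa using this
  set le : ℝ → ℝ := fun t => ‖L (ha t)‖ ^ 2 + ‖L (ha (-t))‖ ^ 2 with hle
  have hle0 : ∀ t, 0 ≤ le t := fun t => by positivity
  have hlec : Continuous le := by
    have h1 := hL.diff.continuous
    have h2 : Continuous ha := by
      unfold ha
      fun_prop
    have h3 : Continuous (fun t : ℝ => ha (-t)) := h2.comp continuous_neg
    exact ((h1.comp h2).norm.pow 2).add ((h1.comp h3).norm.pow 2)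
  have hgi : ∀ {α : ℝ}, 9 / 8 < α → IntegrableOn (fun t : ℝ => le t * t ^ (-α)) (Ici 1) :=
    fun hα => growth_int F hL hα
  have hrpow : ∀ α : ℝ, ContinuousOn (fun t : ℝ => t ^ α) (Ici (1 : ℝ)) := fun α =>
    ContinuousOn.rpow_const continuousOn_id (fun t ht => Or.inl (by
      have : (1 : ℝ) ≤ t := ht
      exact (lt_of_lt_of_le one_pos this).ne'))
  -- the weight with the correction
  have hg : ∀ α : ℝ, 9 / 8 < α →
      IntegrableOn (fun t : ℝ => le t * (1 + e t) * t ^ (-α)) (Ici 1) := by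
    intro α hα
    refine Integrable.mono' ((hgi hα).const_mul (1 + C)) ?_ ?_
    · exact ((hlec.continuousOn.mul (continuousOn_const.add he)).mul
        (hrpow _)).aestronglyMeasurable measurableSet_Ici
    · refine (ae_restrict_iff' measurableSet_Ici).2 (ae_of_all _ fun t ht => ?_)
      have ht1 : (1 : ℝ) ≤ t := ht
      have ht0 : (0 : ℝ) < t := lt_of_lt_of_le one_pos ht1
      have h1 : |e t| ≤ C := (heC t ht1).trans (div_le_self hC ht1)
      have h2 : |1 + e t| ≤ 1 + C := (abs_add_le _ _).trans (by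
        rw [abs_one]
        linarith)
      rw [norm_mul, norm_mul, Real.norm_of_nonneg (hle0 t), Real.norm_eq_abs (1 + e t),
        Real.norm_of_nonneg (Real.rpow_nonneg ht0.le _)]
      calc le t * |1 + e t| * t ^ (-α) ≤ le t * (1 + C) * t ^ (-α) := by
            have := hle0 t
            have := Real.rpow_nonneg ht0.le (-α)
            gcongr
        _ = (1 + C) * (le t * t ^ (-α)) := by ring
  obtain ⟨H₁, hH₁, hD₁⟩ := Dt_main F.nu hθ₀ (g := fun t => le t * (1 + e t)) hg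
  obtain ⟨H₂, hH₂, hD₂⟩ := Dt_one F.nu hθ₀
  set G : ℝ → ℂ := fun θ => ((∫ t in Ioi (1 : ℝ),
    le t * (1 + e t) * (‖WW ν (t * Real.tan θ)‖ ^ 2 / t) : ℝ) : ℂ) with hG
  set W2 : ℝ → ℂ := fun θ => ((‖WW ν (Real.tan θ)‖ ^ 2 : ℝ) : ℂ) with hW2
  set y : ℝ → ℂ := fun θ => ray (phi f) θ - (G θ + B * W2 θ) with hy
  -- measurability
  have hmG : AEStronglyMeasurable G (volume.restrict (Ioo 0 θ₀)) := by
    refine d4_G_meas ν ?_
    exact ((hlec.continuousOn.mul (continuousOn_const.add he)).mono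
      Ioi_subset_Ici_self).aestronglyMeasurable measurableSet_Ioi
  have hmW : AEStronglyMeasurable W2 (volume.restrict (Ioo 0 θ₀)) := by
    refine (Complex.measurable_ofReal.comp (Measurable.pow_const (Measurable.norm
      ((d4_WW_meas ν).comp d4_tan_meas)) 2)).aestronglyMeasurable
  have hmy : AEStronglyMeasurable y (volume.restrict (Ioo 0 θ₀)) :=
    (d4_ray_meas F hθ₀).sub (hmG.add (hmW.const_mul _))
  -- bounds
  have hyb : ∀ θ : ℝ, 0 < θ → θ < θ₀ → ‖y θ‖ ≤ C * Real.tan θ ^ (3 / 4 : ℝ) := by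
    intro θ h0 h1
    have h2 := hasy θ h0 h1.le
    have h3 : y θ = ray (phi f) θ - (((∫ t in Ioi (1 : ℝ),
        (‖L (ha t)‖ ^ 2 + ‖L (ha (-t))‖ ^ 2) * (1 + e t) * (‖WW ν (t * Real.tan θ)‖ ^ 2 / t)) +
          B * ‖WW ν (Real.tan θ)‖ ^ 2 : ℝ) : ℂ) := by
      simp only [hy, hG, hW2, hle]
      push_cast
      ring
    rw [h3]
    exact h2
  have hyb' : ∀ θ : ℝ, 0 < θ → θ < θ₀ →
      ‖y θ‖ ≤ (2 * (C * Real.tan θ₀ ^ (3 / 4 : ℝ))) * θ ^ (-(1 / 4) : ℝ) := by
    intro θ h0 h1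
    have h2 : Real.tan θ ≤ Real.tan θ₀ :=
      (Real.tan_lt_tan_of_nonneg_of_lt_pi_div_two h0.le hθ₀.2 h1).le
    have h3 : 0 ≤ Real.tan θ := (Real.tan_pos_of_pos_of_lt_pi_div_two h0 (h1.trans hθ₀.2)).le
    have h4 : Real.tan θ ^ (3 / 4 : ℝ) ≤ Real.tan θ₀ ^ (3 / 4 : ℝ) :=
      Real.rpow_le_rpow h3 h2 (by norm_num)
    have h5 := d4_rpow_ge hθ₀ h0 h1
    have h6 : 0 ≤ C * Real.tan θ₀ ^ (3 / 4 : ℝ) :=
      mul_nonneg hC (Real.rpow_nonneg (h3.trans h2) _)
    calc ‖y θ‖ ≤ C * Real.tan θ ^ (3 / 4 : ℝ) := hyb θ h0 h1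
      _ ≤ C * Real.tan θ₀ ^ (3 / 4 : ℝ) := mul_le_mul_of_nonneg_left h4 hC
      _ ≤ C * Real.tan θ₀ ^ (3 / 4 : ℝ) * (2 * θ ^ (-(1 / 4) : ℝ)) :=
          le_mul_of_one_le_right h6 h5
      _ = _ := by ring
  obtain ⟨CW, hCW, hWb⟩ := d4_WW F.nu
  have hWb' : ∀ θ : ℝ, 0 < θ → θ < θ₀ → ‖W2 θ‖ ≤ (2 * CW ^ 2) * θ ^ (-(1 / 4) : ℝ) := by
    intro θ h0 h1
    have h3 : 0 < Real.tan θ := Real.tan_pos_of_pos_of_lt_pi_div_two h0 (h1.trans hθ₀.2)
    have h5 := d4_rpow_ge hθ₀ h0 h1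
    have h6 : ‖WW ν (Real.tan θ)‖ ≤ CW := by
      refine (hWb _ h3).trans (mul_le_of_le_one_right hCW ?_)
      rw [Real.exp_le_one_iff]
      linarith
    have h7 : ‖W2 θ‖ = ‖WW ν (Real.tan θ)‖ ^ 2 := by
      simp only [hW2]
      rw [Complex.norm_real, Real.norm_of_nonneg (by positivity)]
    rw [h7]
    calc ‖WW ν (Real.tan θ)‖ ^ 2 ≤ CW ^ 2 := pow_le_pow_left₀ (norm_nonneg _) h6 2
      _ ≤ CW ^ 2 * (2 * θ ^ (-(1 / 4) : ℝ)) := le_mul_of_one_le_right (by positivity) h5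
      _ = _ := by ring
  obtain ⟨DG, hGb⟩ := d4_G_bound F.nu hθ₀ (g := fun t => le t * (1 + e t))
    ((hg (5 / 4) (by norm_num)).mono_set Ioi_subset_Ici_self)
  -- the correction
  have hE : DifferentiableOn ℂ (fun s : ℂ => ∫ t in Ioi (1 : ℝ),
      ((le t * e t : ℝ) : ℂ) * (t : ℂ) ^ (-s)) {s | 1 / 8 < s.re} := by
    refine d4_E_diff ?_ (fun σ hσ => ?_)
    · exact Complex.continuous_ofReal.comp_aestronglyMeasurable
        (((hlec.continuousOn.mul he).mono Ioi_subset_Ici_self).aestronglyMeasurable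
          measurableSet_Ioi)
    · refine Integrable.mono' (((hgi (α := σ + 1) (by linarith)).mono_set
        Ioi_subset_Ici_self).const_mul C) ?_ ?_
      · refine ContinuousOn.aestronglyMeasurable ?_ measurableSet_Ioi
        exact ((hrpow _).mul (Complex.continuous_ofReal.comp_continuousOn
          (hlec.continuousOn.mul he)).norm).mono Ioi_subset_Ici_self
      · refine (ae_restrict_iff' measurableSet_Ioi).2 (ae_of_all _ fun t ht => ?_)
        have ht1 : (1 : ℝ) < t := ht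
        have ht0 : (0 : ℝ) < t := one_pos.trans ht1
        have h1 := heC t ht1.le
        have h2 : t ^ (-(σ + 1)) = t ^ (-σ) / t := by
          rw [eq_div_iff ht0.ne']
          nth_rewrite 2 [← Real.rpow_one t]
          rw [← Real.rpow_add ht0]
          congr 1
          ring
        rw [norm_mul, norm_norm, Complex.norm_real, norm_mul, Real.norm_of_nonneg (hle0 t),
          Real.norm_eq_abs (e t), Real.norm_of_nonneg (Real.rpow_nonneg ht0.le _), h2]
        calc t ^ (-σ) * (le t * |e t|) ≤ t ^ (-σ) * (le t * (C / t)) := by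
              have := hle0 t
              have := Real.rpow_nonneg ht0.le (-σ)
              gcongr
          _ = _ := by ring
  refine ⟨fun s => SP.bb s * kap ν s * (∫ t in Ioi (1 : ℝ),
      ((le t * e t : ℝ) : ℂ) * (t : ℂ) ^ (-s)) + H₁ s + B * H₂ s + Dt y θ₀ s, ?_, ?_⟩
  · have hb1 : DifferentiableOn ℂ SP.bb {s : ℂ | 1 / 4 < s.re ∧ 0 < s.im} :=
      d4_bb_diff.mono (fun s hs => by
        have := hs.1
        show 0 < s.re
        linarith)
    have hb2 : DifferentiableOn ℂ (kap ν) {s : ℂ | 1 / 4 < s.re ∧ 0 < s.im} :=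
      (kap_diff F.nu).mono (fun s hs => ⟨by
        have := hs.1
        linarith, hs.2⟩)
    have hb3 := hE.mono (s := {s : ℂ | 1 / 4 < s.re ∧ 0 < s.im}) (fun s hs => by
        have := hs.1
        show 1 / 8 < s.re
        linarith)
    have hb4 : DifferentiableOn ℂ (Dt y θ₀) {s : ℂ | 1 / 4 < s.re ∧ 0 < s.im} := by
      refine (Dt_err hθ₀ hmy (α := 3 / 4) (by norm_num) hyb).mono (fun s hs => ⟨?_, hs.2⟩)
      have h1 : max (0 : ℝ) (1 - 3 / 4) = 1 / 4 := by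
        rw [max_eq_right] <;> norm_num
      rw [h1]
      exact hs.1
    exact ((((hb1.mul hb2).mul hb3).add hH₁).add (hH₂.const_mul _)).add hb4
  · intro s hs1 hs2
    have i1 := d4_int hθ₀ hmG hGb hs1
    have i2 := d4_int hθ₀ hmW hWb' hs1
    have i3 := d4_int hθ₀ hmy hyb' hs1
    have i12 : IntegrableOn (fun θ => SP.ff s θ * G θ / ((Real.sin θ : ℝ) : ℂ) ^ 2 +
        (B : ℂ) * (SP.ff s θ * W2 θ / ((Real.sin θ : ℝ) : ℂ) ^ 2)) (Ioo 0 θ₀) :=
      i1.add (i2.const_mul _)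
    have hsplit : Dt (ray (phi f)) θ₀ s = Dt G θ₀ s + B * Dt W2 θ₀ s + Dt y θ₀ s := by
      unfold Dt
      rw [← integral_const_mul, ← integral_add i1 (i2.const_mul _), ← integral_add i12 i3]
      refine setIntegral_congr_fun measurableSet_Ioo (fun θ _ => ?_)
      simp only [hy]
      ring
    have hj1 : IntegrableOn (fun t : ℝ => ((le t : ℝ) : ℂ) * (t : ℂ) ^ (-s)) (Ioi 1) := by
      refine Integrable.mono' ((hgi (α := s.re) (by linarith)).mono_set
        Ioi_subset_Ici_self) ?_ ?_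
      · refine ContinuousOn.aestronglyMeasurable ?_ measurableSet_Ioi
        refine (Complex.continuous_ofReal.comp hlec).continuousOn.mul ?_
        exact fun t ht => ((continuousAt_ofReal_cpow_const t (-s) (Or.inr
          (one_pos.trans ht).ne')).continuousWithinAt)
      · refine (ae_restrict_iff' measurableSet_Ioi).2 (ae_of_all _ fun t ht => ?_)
        have ht0 : (0 : ℝ) < t := one_pos.trans ht
        rw [norm_mul, Complex.norm_real, Real.norm_of_nonneg (hle0 t),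
          Complex.norm_cpow_eq_rpow_re_of_pos ht0, Complex.neg_re]
    have hj2 : IntegrableOn (fun t : ℝ => ((le t * e t : ℝ) : ℂ) * (t : ℂ) ^ (-s)) (Ioi 1) := by
      refine Integrable.mono' (((hgi (α := s.re) (by linarith)).mono_set
        Ioi_subset_Ici_self).const_mul C) ?_ ?_
      · refine ContinuousOn.aestronglyMeasurable ?_ measurableSet_Ioi
        refine (Complex.continuous_ofReal.comp_continuousOn
          ((hlec.continuousOn.mul he).mono Ioi_subset_Ici_self)).mul ?_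
        exact fun t ht => ((continuousAt_ofReal_cpow_const t (-s) (Or.inr
          (one_pos.trans ht).ne')).continuousWithinAt)
      · refine (ae_restrict_iff' measurableSet_Ioi).2 (ae_of_all _ fun t ht => ?_)
        have ht1 : (1 : ℝ) < t := ht
        have ht0 : (0 : ℝ) < t := one_pos.trans ht
        have h1 : |e t| ≤ C := (heC t ht1.le).trans (div_le_self hC ht1.le)
        rw [norm_mul, Complex.norm_real, norm_mul, Real.norm_of_nonneg (hle0 t),
          Real.norm_eq_abs, Complex.norm_cpow_eq_rpow_re_of_pos ht0, Complex.neg_re]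
        calc le t * |e t| * t ^ (-s.re) ≤ le t * C * t ^ (-s.re) := by
              have := hle0 t
              have := Real.rpow_nonneg ht0.le (-s.re)
              gcongr
          _ = _ := by ring
    have hj : ∫ t in Ioi (1 : ℝ), ((le t * (1 + e t) : ℝ) : ℂ) * (t : ℂ) ^ (-s) =
        (∫ t in Ioi (1 : ℝ), ((le t : ℝ) : ℂ) * (t : ℂ) ^ (-s)) +
          ∫ t in Ioi (1 : ℝ), ((le t * e t : ℝ) : ℂ) * (t : ℂ) ^ (-s) := by
      rw [← integral_add hj1 hj2]
      refine setIntegral_congr_fun measurableSet_Ioi (fun t _ => ?_)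
      push_cast
      ring
    rw [hsplit, hD₁ s hs1 hs2, hD₂ s hs1 hs2, hj]
    ring

end Pool.Agent.JO.FM

namespace Pool.Agent.JO.FM

theorem Dt_phi : type_of% @Dt_phi_pr := @Dt_phi_pr

end Pool.Agent.JO.FM
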