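import Pool.Agent.Lib_helper45.JO.Defs2
import Pool.Agent.Lib_helper45.JOM.K2
import Pool.Agent.Lib_helper45.JOM.M3
import Pool.Agent.Lib_helper45.JOM.M7
import Pool.Agent.Lib_helper45.JOM.P5
import Pool.Agent.Lib_helper45.JOM.P6
import Pool.Agent.Lib_helper45.JOM.PHA

/-! Project JO, part FM, block D5A: `J` near `0` (uses K2: WW_deriv, WW_bound) -/

set_option autoImplicit false

namespace Pool.Agent.JO.FM

open Complex Filter Topology MeasureTheory Set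
open UpperHalfPlane hiding I
open scoped MatrixGroups ComplexConjugate

theorem d5a_conj (t : ℝ) : conj (ha t) = ha (-t) := by
  unfold ha
  apply Complex.ext
  · simp
  · simp

theorem d5a_re (t : ℝ) : (ha t).re = 1 / 2 := by
  unfold ha
  simp

theorem d5a_sym {ν : ℂ} {ε : ℝ} (hν : GoodNu ν) (hε : ε = 1 ∨ ε = -1) {θ : ℝ}
    (h0 : 0 < θ) (h1 : θ < Real.pi) (t : ℝ) :
    ‖Gs ν ε (ha (-t)) θ‖ = ‖Gs ν ε (ha t) θ‖ := by
  have h := (Gs_symm (ν := ν) (ε := ε) hν hε (s := ha t) (θ := (θ : ℂ))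
    (by rw [d5a_re]; exact hν.lt_half) (by simpa using h0) (by simpa using h1)).2
  rw [d5a_conj, Complex.conj_ofReal] at h
  have h2 := congrArg norm h
  rw [Complex.norm_conj, norm_mul, Complex.norm_real] at h2
  have h3 : ‖ε‖ = 1 := by
    rcases hε with h | h
    · rw [h]; simp
    · rw [h]; simp
  rw [h3, one_mul] at h2
  exact h2.symm

theorem d5a_half {h : ℝ → ℝ} (hh : Integrable h) :
    IntegrableOn (fun t => h t + h (-t)) (Ioi 0) ∧
      ∫ t, h t = ∫ t in Ioi (0 : ℝ), (h t + h (-t)) := by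
  have h1 : Integrable (fun t => h (-t)) := hh.comp_neg
  refine ⟨hh.integrableOn.add h1.integrableOn, ?_⟩
  rw [integral_add hh.integrableOn h1.integrableOn, integral_comp_neg_Ioi, neg_zero,
    ← intervalIntegral.integral_Iic_add_Ioi (b := (0 : ℝ)) hh.integrableOn hh.integrableOn]
  ring

theorem d5a_split {k : ℝ → ℝ} (hk : IntegrableOn k (Ioi 0)) :
    ∫ t in Ioi (0 : ℝ), k t = (∫ t in Ioc (0 : ℝ) 1, k t) + ∫ t in Ioi (1 : ℝ), k t := by
  rw [← Ioc_union_Ioi_eq_Ioi (zero_le_one (α := ℝ)), setIntegral_union]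
  · exact (Ioc_disjoint_Ioi le_rfl)
  · exact measurableSet_Ioi
  · exact hk.mono_set Ioc_subset_Ioi_self
  · exact hk.mono_set (Ioi_subset_Ioi zero_le_one)

theorem d5a_tail {k G e W b : ℝ → ℝ} (hk : Continuous k)
    (hG : IntegrableOn (fun t => k t * G t) (Ioi 1)) (hW : ContinuousOn W (Ioi 1))
    (he : ContinuousOn e (Ici 1))
    (hb : ∀ t, 1 ≤ t → |G t - 2 * Real.pi / t * (1 + e t) * W t| ≤ b t)
    (hi : IntegrableOn (fun t => |k t| * b t) (Ioi 1)) :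
    IntegrableOn (fun t => k t * (2 * Real.pi / t * (1 + e t) * W t)) (Ioi 1) ∧
      |(∫ t in Ioi (1 : ℝ), k t * G t) -
        ∫ t in Ioi (1 : ℝ), k t * (2 * Real.pi / t * (1 + e t) * W t)| ≤
        ∫ t in Ioi (1 : ℝ), |k t| * b t := by
  have hc : ContinuousOn (fun t => k t * (2 * Real.pi / t * (1 + e t) * W t)) (Ioi 1) := by
    apply hk.continuousOn.mul
    apply ContinuousOn.mul _ hW
    apply ContinuousOn.mul
    · exact continuousOn_const.div continuousOn_id fun t ht => by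
        have : (1 : ℝ) < t := ht
        exact (by linarith : (0 : ℝ) < t).ne'
    · exact continuousOn_const.add (he.mono Ioi_subset_Ici_self)
  have hm := hc.aestronglyMeasurable (μ := volume) measurableSet_Ioi
  have hbd : ∀ᵐ t ∂(volume.restrict (Ioi (1 : ℝ))),
      ‖k t * G t - k t * (2 * Real.pi / t * (1 + e t) * W t)‖ ≤ |k t| * b t := by
    rw [ae_restrict_iff' measurableSet_Ioi]
    refine Eventually.of_forall fun t ht => ?_
    rw [← mul_sub, Real.norm_eq_abs, abs_mul]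
    exact mul_le_mul_of_nonneg_left (hb t (le_of_lt ht)) (abs_nonneg _)
  have hD : IntegrableOn (fun t => k t * G t - k t * (2 * Real.pi / t * (1 + e t) * W t))
      (Ioi 1) := Integrable.mono' hi (hG.aestronglyMeasurable.sub hm) hbd
  have h2 : IntegrableOn (fun t => k t * (2 * Real.pi / t * (1 + e t) * W t)) (Ioi 1) := by
    have h3 := hG.sub hD
    refine h3.congr (Eventually.of_forall fun t => ?_)
    simp only [Pi.sub_apply]
    ring
  refine ⟨h2, ?_⟩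
  rw [← integral_sub hG h2, ← Real.norm_eq_abs]
  exact norm_integral_le_of_norm_le hi hbd

theorem d5a_head {k G e : ℝ → ℝ} {w D : ℝ} (hk : Continuous k)
    (hG : IntegrableOn (fun t => k t * G t) (Ioc 0 1)) (he : ContinuousOn e (Icc 0 1))
    (hb : ∀ t, 0 ≤ t → t ≤ 1 → |G t - e t * w| ≤ D) :
    |(∫ t in Ioc (0 : ℝ) 1, k t * G t) - (∫ t in Ioc (0 : ℝ) 1, k t * e t) * w| ≤
      (∫ t in Ioc (0 : ℝ) 1, |k t|) * D := by
  have h1 : IntegrableOn (fun t => k t * e t) (Ioc 0 1) :=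
    ((hk.continuousOn.mul he).integrableOn_compact isCompact_Icc).mono_set Ioc_subset_Icc_self
  have h2 : IntegrableOn (fun t => |k t|) (Ioc 0 1) :=
    (hk.abs.continuousOn.integrableOn_compact isCompact_Icc).mono_set Ioc_subset_Icc_self
  rw [← integral_mul_const, ← integral_sub hG (h1.mul_const w), ← integral_mul_const,
    ← Real.norm_eq_abs]
  apply norm_integral_le_of_norm_le (h2.mul_const D)
  rw [ae_restrict_iff' measurableSet_Ioc]
  refine Eventually.of_forall fun t ht => ?_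
  rw [Real.norm_eq_abs, show k t * G t - k t * e t * w = k t * (G t - e t * w) by ring, abs_mul]
  exact mul_le_mul_of_nonneg_left (hb t ht.1.le ht.2) (abs_nonneg _)

theorem d5a_WW (ν : ℂ) {x : ℝ} (hx : 0 < x) :
    ContinuousOn (fun t : ℝ => ‖WW ν (t * x)‖ ^ 2) (Ioi 1) := by
  intro t ht
  have ht' : (1 : ℝ) < t := ht
  have h1 : ContinuousAt (WW ν) (t * x) := (WW_deriv ν (by positivity)).1.continuousAt
  have h2 : ContinuousAt (fun t : ℝ => WW ν (t * x)) t :=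
    ContinuousAt.comp (f := fun t : ℝ => t * x) h1 (continuous_id.mul continuous_const).continuousAt
  exact (h2.norm.pow 2).continuousWithinAt

theorem d5a_L {L : ℂ → ℂ} (hL : Differentiable ℂ L) : Continuous (fun t : ℝ => ‖L (ha t)‖ ^ 2) := by
  have h1 : Continuous ha := by
    unfold ha
    fun_prop
  exact (hL.continuous.comp h1).norm.pow 2

theorem d5a_L' {L : ℂ → ℂ} (hL : Differentiable ℂ L) :
    Continuous (fun t : ℝ => ‖L (ha (-t))‖ ^ 2) :=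
  (d5a_L hL).comp continuous_neg

/-- `y^a e^{-cy}` is bounded -/
theorem d5a_pow_exp {a c y : ℝ} (ha : 0 < a) (hc : 0 < c) (hy : 0 < y) :
    y ^ a * Real.exp (-(c * y)) ≤ (a / c) ^ a := by
  have h1 : c * y / a ≤ Real.exp (c * y / a) := by
    have := Real.add_one_le_exp (c * y / a)
    linarith
  have h2 : (c * y / a) ^ a ≤ Real.exp (c * y) := by
    calc (c * y / a) ^ a ≤ (Real.exp (c * y / a)) ^ a :=
          Real.rpow_le_rpow (by positivity) h1 ha.le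
      _ = Real.exp (c * y) := by
          rw [← Real.exp_mul]
          congr 1
          field_simp
  have h3 : y ^ a = (a / c) ^ a * (c * y / a) ^ a := by
    rw [← Real.mul_rpow (by positivity) (by positivity)]
    congr 1
    field_simp
  rw [h3, Real.exp_neg, mul_assoc]
  have h4 : (c * y / a) ^ a * (Real.exp (c * y))⁻¹ ≤ 1 := by
    rw [mul_inv_le_iff₀ (Real.exp_pos _), one_mul]
    exact h2
  calc (a / c) ^ a * ((c * y / a) ^ a * (Real.exp (c * y))⁻¹) ≤ (a / c) ^ a * 1 :=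
        mul_le_mul_of_nonneg_left h4 (by positivity)
    _ = _ := mul_one _

theorem d5a_phi_deriv (a : ℝ) {t : ℝ} (ht : 0 < t) :
    HasDerivAt (fun t : ℝ => t ^ (-(1 / 4) : ℝ) * Real.exp (-(a * t)))
      (-(1 / 4 * t ^ (-(5 / 4) : ℝ) * Real.exp (-(a * t)) +
        a * (t ^ (-(1 / 4) : ℝ) * Real.exp (-(a * t))))) t := by
  have h1 : HasDerivAt (fun t : ℝ => t ^ (-(1 / 4) : ℝ))
      (-(1 / 4) * t ^ (-(1 / 4) - 1 : ℝ)) t := Real.hasDerivAt_rpow_const (Or.inl ht.ne')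
  have h2 : HasDerivAt (fun t : ℝ => Real.exp (-(a * t))) (Real.exp (-(a * t)) * (-(a * 1))) t :=
    (((hasDerivAt_id t).const_mul a).neg).exp
  have h3 := h1.mul h2
  have e : -(1 / 4 * t ^ (-(5 / 4) : ℝ) * Real.exp (-(a * t)) +
      a * (t ^ (-(1 / 4) : ℝ) * Real.exp (-(a * t)))) =
      -(1 / 4) * t ^ (-(1 / 4) - 1 : ℝ) * Real.exp (-(a * t)) +
        t ^ (-(1 / 4) : ℝ) * (Real.exp (-(a * t)) * (-(a * 1))) := by
    have : (-(1 / 4) - 1 : ℝ) = -(5 / 4) := by norm_num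
    rw [this]
    ring
  rw [e]
  exact h3

/-- the partial integrals -/
theorem d5a_partial {g : ℝ → ℝ} (hg : Continuous g) (h0 : ∀ t, 0 ≤ g t) {C : ℝ} (hC0 : 0 ≤ C)
    (hC : ∀ T : ℝ, 1 ≤ T → ∫ t in (0 : ℝ)..T, g t ≤ C * T ^ (9 / 8 : ℝ)) {a : ℝ} (ha : 0 < a)
    {R : ℝ} (hR : 1 ≤ R) :
    ∫ t in (1 : ℝ)..R, g t * (t ^ (-(1 / 4) : ℝ) * Real.exp (-(a * t))) ≤
      C * ((7 / 8 : ℝ) ^ (7 / 8 : ℝ) + Real.Gamma (7 / 8) / 4 + Real.Gamma (15 / 8)) *
        a ^ (-(7 / 8) : ℝ) := by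
  set φ : ℝ → ℝ := fun t => t ^ (-(1 / 4) : ℝ) * Real.exp (-(a * t)) with hφ
  set φ' : ℝ → ℝ := fun t => -(1 / 4 * t ^ (-(5 / 4) : ℝ) * Real.exp (-(a * t)) +
        a * (t ^ (-(1 / 4) : ℝ) * Real.exp (-(a * t)))) with hφ'
  set h : ℝ → ℝ := fun t => ∫ s in (1 : ℝ)..t, g s with hh
  have hu : ∀ t ∈ uIcc 1 R, HasDerivAt φ (φ' t) t := by
    intro t ht
    rw [uIcc_of_le hR] at ht
    exact d5a_phi_deriv a (by linarith [ht.1])
  have hv : ∀ t ∈ uIcc 1 R, HasDerivAt h (g t) t := fun t _ =>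
    intervalIntegral.integral_hasDerivAt_right (hg.intervalIntegrable _ _)
      (hg.stronglyMeasurableAtFilter _ _) hg.continuousAt
  have hφ'c : ContinuousOn φ' (Icc 1 R) := by
    have h1 : ∀ r : ℝ, ContinuousOn (fun t : ℝ => t ^ r) (Icc 1 R) := fun r t ht =>
      (Real.continuousAt_rpow_const t r (Or.inl (by linarith [ht.1]))).continuousWithinAt
    have h2 : ContinuousOn (fun t : ℝ => Real.exp (-(a * t))) (Icc 1 R) := by fun_prop
    exact (((continuousOn_const.mul (h1 _)).mul h2).add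
      (continuousOn_const.mul ((h1 _).mul h2))).neg
  have hφ'i : IntervalIntegrable φ' volume 1 R := by
    apply ContinuousOn.intervalIntegrable
    rw [uIcc_of_le hR]
    exact hφ'c
  have hparts := intervalIntegral.integral_mul_deriv_eq_deriv_mul hu hv hφ'i
    (hg.intervalIntegrable _ _)
  have hh1 : h 1 = 0 := by
    rw [hh]
    simp
  have hhb : ∀ t, 1 ≤ t → 0 ≤ h t ∧ h t ≤ C * t ^ (9 / 8 : ℝ) := by
    intro t ht
    constructor
    · exact intervalIntegral.integral_nonneg ht fun s _ => h0 s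
    · refine le_trans ?_ (hC t ht)
      rw [hh]
      simp only
      have h1 : (∫ s in (0 : ℝ)..1, g s) + ∫ s in (1 : ℝ)..t, g s = ∫ s in (0 : ℝ)..t, g s :=
        intervalIntegral.integral_add_adjacent_intervals (hg.intervalIntegrable _ _)
          (hg.intervalIntegrable _ _)
      have h2 : 0 ≤ ∫ s in (0 : ℝ)..1, g s :=
        intervalIntegral.integral_nonneg zero_le_one fun s _ => h0 s
      linarith
  have hcomm : ∫ t in (1 : ℝ)..R, g t * (t ^ (-(1 / 4) : ℝ) * Real.exp (-(a * t))) =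
      ∫ t in (1 : ℝ)..R, φ t * g t := by
    congr 1
    funext t
    rw [hφ]
    ring
  rw [hcomm, hparts, hh1, mul_zero, sub_zero]
  -- the boundary term
  have hR0 : (0 : ℝ) < R := by linarith
  have hbd : φ R * h R ≤ C * (7 / 8 : ℝ) ^ (7 / 8 : ℝ) * a ^ (-(7 / 8) : ℝ) := by
    have h1 : φ R * h R ≤ φ R * (C * R ^ (9 / 8 : ℝ)) := by
      apply mul_le_mul_of_nonneg_left (hhb R hR).2
      rw [hφ]
      positivity
    have h2 : φ R * (C * R ^ (9 / 8 : ℝ)) = C * (R ^ (7 / 8 : ℝ) * Real.exp (-(a * R))) := by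
      rw [hφ]
      simp only
      have : R ^ (7 / 8 : ℝ) = R ^ (-(1 / 4) : ℝ) * R ^ (9 / 8 : ℝ) := by
        rw [← Real.rpow_add hR0]
        norm_num
      rw [this]
      ring
    have h3 := d5a_pow_exp (a := 7 / 8) (by norm_num) ha hR0
    have h4 : (7 / 8 / a : ℝ) ^ (7 / 8 : ℝ) = (7 / 8 : ℝ) ^ (7 / 8 : ℝ) * a ^ (-(7 / 8) : ℝ) := by
      rw [Real.div_rpow (by norm_num) ha.le, Real.rpow_neg ha.le]
      ring
    rw [h4] at h3
    calc φ R * h R ≤ C * (R ^ (7 / 8 : ℝ) * Real.exp (-(a * R))) := by rw [← h2]; exact h1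
      _ ≤ C * ((7 / 8 : ℝ) ^ (7 / 8 : ℝ) * a ^ (-(7 / 8) : ℝ)) :=
          mul_le_mul_of_nonneg_left h3 hC0
      _ = _ := by ring
  -- the integral
  have hin : -∫ t in (1 : ℝ)..R, φ' t * h t ≤
      C * (Real.Gamma (7 / 8) / 4 + Real.Gamma (15 / 8)) * a ^ (-(7 / 8) : ℝ) := by
    have hi1 : IntegrableOn (fun t : ℝ => t ^ ((7 / 8 : ℝ) - 1) * Real.exp (-(a * t))) (Ioi 0) := by
      have h := integrableOn_rpow_mul_exp_neg_mul_rpow (p := 1) (s := (7 / 8 : ℝ) - 1) (b := a)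
        (by norm_num) one_pos ha
      refine h.congr_fun (fun B _ => ?_) measurableSet_Ioi
      simp only
      rw [Real.rpow_one, neg_mul]
    have hi2 : IntegrableOn (fun t : ℝ => t ^ ((15 / 8 : ℝ) - 1) * Real.exp (-(a * t))) (Ioi 0) := by
      have h := integrableOn_rpow_mul_exp_neg_mul_rpow (p := 1) (s := (15 / 8 : ℝ) - 1) (b := a)
        (by norm_num) one_pos ha
      refine h.congr_fun (fun B _ => ?_) measurableSet_Ioi
      simp only
      rw [Real.rpow_one, neg_mul]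
    have hI1 := Real.integral_rpow_mul_exp_neg_mul_Ioi (a := (7 / 8 : ℝ)) (by norm_num) ha
    have hI2 := Real.integral_rpow_mul_exp_neg_mul_Ioi (a := (15 / 8 : ℝ)) (by norm_num) ha
    set ψ : ℝ → ℝ := fun t => C * (1 / 4 * (t ^ ((7 / 8 : ℝ) - 1) * Real.exp (-(a * t))) +
      a * (t ^ ((15 / 8 : ℝ) - 1) * Real.exp (-(a * t)))) with hψ
    have hψi : IntegrableOn ψ (Ioi 0) :=
      ((hi1.const_mul (1 / 4)).add (hi2.const_mul a)).const_mul C
    have hψ0 : ∀ t, 0 < t → 0 ≤ ψ t := by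
      intro t ht
      rw [hψ]
      positivity
    have hhc : Continuous h := by
      rw [hh]
      exact intervalIntegral.continuous_primitive (fun a b => hg.intervalIntegrable a b) 1
    have hle : ∫ t in (1 : ℝ)..R, -(φ' t * h t) ≤ ∫ t in (1 : ℝ)..R, ψ t := by
      apply intervalIntegral.integral_mono_on hR
      · apply IntervalIntegrable.neg
        apply ContinuousOn.intervalIntegrable
        rw [uIcc_of_le hR]
        exact hφ'c.mul hhc.continuousOn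
      · rw [intervalIntegrable_iff_integrableOn_Ioc_of_le hR]
        exact hψi.mono_set fun t ht => lt_trans zero_lt_one ht.1
      · intro t ht
        have ht0 : (0 : ℝ) < t := by linarith [ht.1]
        rw [← neg_mul]
        have h1 : 0 ≤ -φ' t := by
          rw [hφ']
          simp only
          rw [neg_neg]
          positivity
        refine (mul_le_mul_of_nonneg_left (hhb t ht.1).2 h1).trans ?_
        apply le_of_eq
        rw [hφ', hψ]
        simp only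
        rw [neg_neg]
        have e1 : t ^ ((7 / 8 : ℝ) - 1) = t ^ (-(5 / 4) : ℝ) * t ^ (9 / 8 : ℝ) := by
          rw [← Real.rpow_add ht0]
          norm_num
        have e2 : t ^ ((15 / 8 : ℝ) - 1) = t ^ (-(1 / 4) : ℝ) * t ^ (9 / 8 : ℝ) := by
          rw [← Real.rpow_add ht0]
          norm_num
        rw [e1, e2]
        ring
    have hle2 : ∫ t in (1 : ℝ)..R, ψ t ≤ ∫ t in Ioi (0 : ℝ), ψ t := by
      rw [intervalIntegral.integral_of_le hR]
      apply setIntegral_mono_set hψi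
      · rw [EventuallyLE, ae_restrict_iff' measurableSet_Ioi]
        exact Eventually.of_forall fun t ht => hψ0 t ht
      · exact Eventually.of_forall fun t (ht : t ∈ Ioc (1 : ℝ) R) => lt_trans zero_lt_one ht.1
    have hval : ∫ t in Ioi (0 : ℝ), ψ t =
        C * (Real.Gamma (7 / 8) / 4 + Real.Gamma (15 / 8)) * a ^ (-(7 / 8) : ℝ) := by
      rw [hψ]
      simp only
      rw [integral_const_mul, integral_add (hi1.const_mul (1 / 4)) (hi2.const_mul a),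
        integral_const_mul, integral_const_mul, hI1, hI2]
      have e1 : (1 / a) ^ (7 / 8 : ℝ) = a ^ (-(7 / 8) : ℝ) := by
        rw [one_div, Real.inv_rpow ha.le, Real.rpow_neg ha.le]
      have e2 : a * (1 / a) ^ (15 / 8 : ℝ) = a ^ (-(7 / 8) : ℝ) := by
        rw [one_div, Real.inv_rpow ha.le, ← Real.rpow_neg ha.le]
        nth_rewrite 1 [← Real.rpow_one a]
        rw [← Real.rpow_add ha]
        norm_num
      have e3 : a * ((1 / a) ^ (15 / 8 : ℝ) * Real.Gamma (15 / 8)) =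
          a ^ (-(7 / 8) : ℝ) * Real.Gamma (15 / 8) := by rw [← mul_assoc, e2]
      rw [e3, e1]
      ring
    rw [← intervalIntegral.integral_neg, ← hval]
    exact hle.trans hle2
  have hfin : C * ((7 / 8 : ℝ) ^ (7 / 8 : ℝ) + Real.Gamma (7 / 8) / 4 + Real.Gamma (15 / 8)) *
        a ^ (-(7 / 8) : ℝ) = C * (7 / 8 : ℝ) ^ (7 / 8 : ℝ) * a ^ (-(7 / 8) : ℝ) +
        C * (Real.Gamma (7 / 8) / 4 + Real.Gamma (15 / 8)) * a ^ (-(7 / 8) : ℝ) := by ring
  rw [hfin]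
  have : φ R * h R - ∫ t in (1 : ℝ)..R, φ' t * h t =
      φ R * h R + -∫ t in (1 : ℝ)..R, φ' t * h t := by ring
  linarith

theorem d5a_growth {g : ℝ → ℝ} (hg : Continuous g) (h0 : ∀ t, 0 ≤ g t) {C : ℝ} (hC0 : 0 ≤ C)
    (hC : ∀ T : ℝ, 1 ≤ T → ∫ t in (0 : ℝ)..T, g t ≤ C * T ^ (9 / 8 : ℝ)) {a : ℝ} (ha : 0 < a) :
    IntegrableOn (fun t => g t * (t ^ (-(1 / 4) : ℝ) * Real.exp (-(a * t)))) (Ioi 1) ∧
    ∫ t in Ioi (1 : ℝ), g t * (t ^ (-(1 / 4) : ℝ) * Real.exp (-(a * t))) ≤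
      C * ((7 / 8 : ℝ) ^ (7 / 8 : ℝ) + Real.Gamma (7 / 8) / 4 + Real.Gamma (15 / 8)) *
        a ^ (-(7 / 8) : ℝ) := by
  have hc : ∀ R : ℝ, ContinuousOn (fun t => g t * (t ^ (-(1 / 4) : ℝ) * Real.exp (-(a * t))))
      (Icc 1 R) := by
    intro R
    have h1 : ContinuousOn (fun t : ℝ => t ^ (-(1 / 4) : ℝ)) (Icc 1 R) := fun t ht =>
      (Real.continuousAt_rpow_const t _ (Or.inl (by linarith [ht.1]))).continuousWithinAt
    have h2 : ContinuousOn (fun t : ℝ => Real.exp (-(a * t))) (Icc 1 R) := by fun_prop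
    exact hg.continuousOn.mul (h1.mul h2)
  have hi : ∀ R : ℝ, IntegrableOn
      (fun t => g t * (t ^ (-(1 / 4) : ℝ) * Real.exp (-(a * t)))) (Ioc 1 R) := fun R =>
    ((hc R).integrableOn_compact isCompact_Icc).mono_set Ioc_subset_Icc_self
  have hint : IntegrableOn (fun t => g t * (t ^ (-(1 / 4) : ℝ) * Real.exp (-(a * t)))) (Ioi 1) := by
    refine integrableOn_Ioi_of_intervalIntegral_norm_bounded (l := atTop) (b := fun R : ℝ => R)
      (C * ((7 / 8 : ℝ) ^ (7 / 8 : ℝ) + Real.Gamma (7 / 8) / 4 + Real.Gamma (15 / 8)) *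
        a ^ (-(7 / 8) : ℝ)) 1 hi tendsto_id ?_
    filter_upwards [eventually_ge_atTop (1 : ℝ)] with R hR
    refine le_trans (le_of_eq ?_) (d5a_partial hg h0 hC0 hC ha hR)
    apply intervalIntegral.integral_congr
    intro t ht
    rw [uIcc_of_le hR] at ht
    have ht0 : (0 : ℝ) < t := by linarith [ht.1]
    simp only
    rw [Real.norm_eq_abs, abs_of_nonneg]
    have := h0 t
    positivity
  refine ⟨hint, ?_⟩
  refine le_of_tendsto (intervalIntegral_tendsto_integral_Ioi 1 hint tendsto_id) ?_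
  filter_upwards [eventually_ge_atTop (1 : ℝ)] with R hR
  exact d5a_partial hg h0 hC0 hC ha hR

/-- the main term is integrable with an additional factor `t` -/
theorem d5a_WW_bd {ν : ℂ} (hν : GoodNu ν) : ∃ K : ℝ, 0 ≤ K ∧ ∀ y : ℝ, 0 < y →
    ‖WW ν y‖ ^ 2 ≤ K * y ^ (-2 : ℝ) := by
  obtain ⟨C, hC⟩ := WW_bound hν (b := (ν.re + 1 / 2) / 2) (by linarith [hν.lt_half])
  set b : ℝ := (ν.re + 1 / 2) / 2 with hb
  have hb1 : b < 1 / 2 := by
    rw [hb]
    linarith [hν.lt_half]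
  have ha : 0 < 2 * (1 / 2 - b) + 2 := by linarith
  refine ⟨C ^ 2 * ((2 * (1 / 2 - b) + 2) / 1) ^ (2 * (1 / 2 - b) + 2), by positivity, ?_⟩
  intro y hy
  have h1 := (hC y hy).1
  have h2 : ‖WW ν y‖ ^ 2 ≤ (C * y ^ (1 / 2 - b) * Real.exp (-(y / 2))) ^ 2 :=
    pow_le_pow_left₀ (norm_nonneg _) h1 2
  have h3 : (C * y ^ (1 / 2 - b) * Real.exp (-(y / 2))) ^ 2 =
      C ^ 2 * (y ^ (2 * (1 / 2 - b) + 2) * Real.exp (-(1 * y))) * y ^ (-2 : ℝ) := by
    rw [mul_pow, mul_pow, ← Real.exp_nat_mul, ← Real.rpow_natCast (y ^ (1 / 2 - b)) 2,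
      ← Real.rpow_mul hy.le]
    have e1 : ((2 : ℕ) : ℝ) * -(y / 2) = -(1 * y) := by push_cast; ring
    have e2 : y ^ ((1 / 2 - b) * ((2 : ℕ) : ℝ)) =
        y ^ (2 * (1 / 2 - b) + 2) * y ^ (-2 : ℝ) := by
      rw [← Real.rpow_add hy]
      congr 1
      push_cast
      ring
    rw [e1, e2]
    ring
  rw [h3] at h2
  refine h2.trans ?_
  apply mul_le_mul_of_nonneg_right _ (by positivity)
  apply mul_le_mul_of_nonneg_left _ (by positivity)
  exact d5a_pow_exp ha one_pos hy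

theorem J_asymp_pr {ν : ℂ} {ε : ℝ} {a : ℕ → ℂ} {f : ℍ → ℂ} {L : ℂ → ℂ}
    (F : Frame0 ν ε a f) (hL : LFun ν ε a f L) {θ₀ : ℝ} (hθ₀ : θ₀ ∈ SP.II) :
    ∃ (e : ℝ → ℝ) (B C : ℝ), ContinuousOn e (Ici 1) ∧ (∀ τ, 1 ≤ τ → |e τ| ≤ C / τ) ∧
      ∀ θ : ℝ, 0 < θ → θ ≤ θ₀ → |(2 * Real.pi)⁻¹ *
          (∫ t : ℝ, t * (‖L (ha t)‖ ^ 2 * ‖Gs ν ε (ha t) θ‖ ^ 2)) - ((∫ t in Ioi (1 : ℝ),
        (‖L (ha t)‖ ^ 2 - ‖L (ha (-t))‖ ^ 2) * (1 + e t) * ‖WW ν (t * Real.tan θ)‖ ^ 2) +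
          B * ‖WW ν (Real.tan θ)‖ ^ 2)| ≤ C * Real.tan θ ^ (-(1 / 8 : ℝ)) := by
  obtain ⟨e, C₁, c, hc, he, heb, hasym⟩ := Ph_asymp F.nu F.eps hθ₀.1 hθ₀.2
  obtain ⟨e₁, C₂, he₁, hsm⟩ := Ph_small F.nu F.eps hθ₀.1 hθ₀.2
  obtain ⟨C₃, hgr⟩ := growth F hL
  obtain ⟨K, hK0, hK⟩ := d5a_WW_bd F.nu
  set g : ℝ → ℝ := fun t => ‖L (ha t)‖ ^ 2 + ‖L (ha (-t))‖ ^ 2 with hg
  set k : ℝ → ℝ := fun t => t * (‖L (ha t)‖ ^ 2 - ‖L (ha (-t))‖ ^ 2) with hk
  have hgc : Continuous g := (d5a_L hL.diff).add (d5a_L' hL.diff)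
  have hkc : Continuous k := continuous_id.mul ((d5a_L hL.diff).sub (d5a_L' hL.diff))
  have hg0 : ∀ t, 0 ≤ g t := fun t => by rw [hg]; positivity
  have hkg : ∀ t, 0 ≤ t → |k t| ≤ t * g t := by
    intro t ht
    rw [hk, hg]
    simp only
    rw [abs_mul, abs_of_nonneg ht]
    apply mul_le_mul_of_nonneg_left _ ht
    rw [abs_le]
    constructor
    · nlinarith [sq_nonneg ‖L (ha t)‖, sq_nonneg ‖L (ha (-t))‖]
    · nlinarith [sq_nonneg ‖L (ha t)‖, sq_nonneg ‖L (ha (-t))‖]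
  have hgi : IntegrableOn (fun t : ℝ => g t * t ^ (-2 : ℝ)) (Ioi 1) :=
    (growth_int F hL (α := 2) (by norm_num)).mono_set Ioi_subset_Ici_self
  have hC₃ : ∀ T : ℝ, 1 ≤ T → ∫ t in (0 : ℝ)..T, g t ≤ |C₃| * T ^ (9 / 8 : ℝ) := by
    intro T hT
    refine (hgr T hT).trans ?_
    exact mul_le_mul_of_nonneg_right (le_abs_self _) (by positivity)
  set M : ℝ := |C₃| * ((7 / 8 : ℝ) ^ (7 / 8 : ℝ) + Real.Gamma (7 / 8) / 4 +
    Real.Gamma (15 / 8)) with hM
  have hM0 : 0 ≤ M := by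
    have h1 : 0 < Real.Gamma (7 / 8) := Real.Gamma_pos_of_pos (by norm_num)
    have h2 : 0 < Real.Gamma (15 / 8) := Real.Gamma_pos_of_pos (by norm_num)
    rw [hM]
    positivity
  set I₀ : ℝ := ∫ t in Ioc (0 : ℝ) 1, |k t| with hI₀
  have hI₀0 : 0 ≤ I₀ := setIntegral_nonneg measurableSet_Ioc fun t _ => abs_nonneg _
  set B : ℝ := (2 * Real.pi)⁻¹ * ∫ t in Ioc (0 : ℝ) 1, k t * e₁ t with hB
  have hpi := Real.pi_pos
  set x₀ : ℝ := Real.tan θ₀ with hx₀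
  have hx₀p : 0 < x₀ := Real.tan_pos_of_pos_of_lt_pi_div_two hθ₀.1 hθ₀.2
  refine ⟨e, B, |C₁| + (2 * Real.pi)⁻¹ * (I₀ * |C₂| * x₀ ^ (7 / 8 : ℝ) +
    |C₁| * M * c ^ (-(7 / 8) : ℝ)), he, ?_, ?_⟩
  · intro τ hτ
    refine (heb τ hτ).trans ?_
    apply div_le_div_of_nonneg_right _ (by linarith)
    have h3 : 0 ≤ (2 * Real.pi)⁻¹ * (I₀ * |C₂| * x₀ ^ (7 / 8 : ℝ) +
      |C₁| * M * c ^ (-(7 / 8) : ℝ)) := by positivity
    linarith [le_abs_self C₁]
  intro θ hθ0 hθ1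
  have hθπ : θ < Real.pi := by linarith [hθ₀.2]
  have hθI : θ ∈ Ioo 0 Real.pi := ⟨hθ0, hθπ⟩
  have hθ2 : θ < Real.pi / 2 := lt_of_le_of_lt hθ1 hθ₀.2
  have hx : 0 < Real.tan θ := Real.tan_pos_of_pos_of_lt_pi_div_two hθ0 hθ2
  have hxx : Real.tan θ ≤ x₀ := by
    rw [hx₀]
    rcases hθ1.eq_or_lt with h | h
    · rw [h]
    · exact (Real.tan_lt_tan_of_nonneg_of_lt_pi_div_two hθ0.le hθ₀.2 h).le
  set x : ℝ := Real.tan θ with hxd
  obtain ⟨hint, -⟩ := ray_phi F hL hθI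
  set G : ℝ → ℝ := fun t => ‖Gs ν ε (ha t) θ‖ ^ 2 with hG
  have hG0 : ∀ t, 0 ≤ G t := fun t => by rw [hG]; positivity
  -- integrability
  obtain ⟨hi2, -⟩ := d5a_half hint
  have hcg : ∀ t : ℝ, ‖L (ha t)‖ ^ 2 * ‖Gs ν ε (ha t) θ‖ ^ 2 +
      ‖L (ha (-t))‖ ^ 2 * ‖Gs ν ε (ha (-t)) θ‖ ^ 2 = g t * G t := by
    intro t
    rw [d5a_sym F.nu F.eps hθ0 hθπ t, hg, hG]
    ring
  simp only [hcg] at hi2
  have hbt : ∀ t, 1 ≤ t → |G t - 2 * Real.pi / t * (1 + e t) * ‖WW ν (t * x)‖ ^ 2| ≤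
      |C₁| * x ^ (3 / 4 : ℝ) * (t⁻¹ * (t ^ (-(1 / 4) : ℝ) * Real.exp (-(c * x * t)))) := by
    intro t ht
    have ht0 : (0 : ℝ) < t := by linarith
    refine (hasym t θ ht hθ0 hθ1).trans ?_
    have e1 : (t * x) ^ (3 / 4 : ℝ) = t ^ (3 / 4 : ℝ) * x ^ (3 / 4 : ℝ) :=
      Real.mul_rpow ht0.le hx.le
    have e3 : t ^ (3 / 4 : ℝ) / t ^ 2 = t⁻¹ * t ^ (-(1 / 4) : ℝ) := by
      rw [← Real.rpow_natCast t 2, ← Real.rpow_sub ht0, ← Real.rpow_neg_one t,
        ← Real.rpow_add ht0]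
      norm_num
    have e4 : c * (t * x) = c * x * t := by ring
    calc C₁ / t ^ 2 * (t * x) ^ (3 / 4 : ℝ) * Real.exp (-(c * (t * x)))
        ≤ |C₁| / t ^ 2 * (t * x) ^ (3 / 4 : ℝ) * Real.exp (-(c * (t * x))) := by
          apply mul_le_mul_of_nonneg_right _ (Real.exp_pos _).le
          apply mul_le_mul_of_nonneg_right _ (by positivity)
          apply div_le_div_of_nonneg_right (le_abs_self _) (by positivity)
      _ = |C₁| * x ^ (3 / 4 : ℝ) * ((t ^ (3 / 4 : ℝ) / t ^ 2) * Real.exp (-(c * x * t))) := by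
          rw [e1, e4]
          ring
      _ = _ := by
          rw [e3]
          ring
  have hcx : 0 < c * x := by positivity
  obtain ⟨hgi2, hgb⟩ := d5a_growth hgc hg0 (abs_nonneg C₃) hC₃ hcx
  have htG : IntegrableOn (fun t => t * (g t * G t)) (Ioi 1) := by
    have hD : IntegrableOn (fun t => (2 * Real.pi * (1 + |C₁|) * K * x ^ (-2 : ℝ)) *
        (g t * t ^ (-2 : ℝ)) + |C₁| * x ^ (3 / 4 : ℝ) *
          (g t * (t ^ (-(1 / 4) : ℝ) * Real.exp (-(c * x * t))))) (Ioi 1) :=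
      (hgi.const_mul _).add (hgi2.const_mul _)
    have hm : AEStronglyMeasurable (fun t => t * (g t * G t)) (volume.restrict (Ioi (1 : ℝ))) :=
      (continuous_id.aestronglyMeasurable).mul
        (hi2.mono_set (Ioi_subset_Ioi zero_le_one)).aestronglyMeasurable
    refine Integrable.mono' hD hm ?_
    rw [ae_restrict_iff' measurableSet_Ioi]
    refine Eventually.of_forall fun t ht => ?_
    have ht1 : (1 : ℝ) < t := ht
    have ht0 : (0 : ℝ) < t := by linarith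
    rw [Real.norm_eq_abs, abs_of_nonneg (mul_nonneg ht0.le (mul_nonneg (hg0 t) (hG0 t)))]
    have h1 := hbt t ht1.le
    have h2 : |1 + e t| ≤ 1 + |C₁| := by
      have h3 := heb t ht1.le
      have h4 : C₁ / t ≤ |C₁| := by
        calc C₁ / t ≤ |C₁| / t := div_le_div_of_nonneg_right (le_abs_self _) ht0.le
          _ ≤ |C₁| / 1 := div_le_div_of_nonneg_left (abs_nonneg _) one_pos ht1.le
          _ = |C₁| := div_one _
      calc |1 + e t| ≤ |1| + |e t| := abs_add_le _ _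
        _ ≤ 1 + |C₁| := by rw [abs_one]; linarith
    have h3 := hK (t * x) (by positivity)
    have h4 : (t * x) ^ (-2 : ℝ) = t ^ (-2 : ℝ) * x ^ (-2 : ℝ) := Real.mul_rpow ht0.le hx.le
    rw [h4] at h3
    have h5 : 2 * Real.pi / t * (1 + e t) * ‖WW ν (t * x)‖ ^ 2 ≤
        2 * Real.pi / t * (1 + |C₁|) * (K * (t ^ (-2 : ℝ) * x ^ (-2 : ℝ))) := by
      apply mul_le_mul _ h3 (by positivity) (by positivity)
      apply mul_le_mul_of_nonneg_left _ (by positivity)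
      exact (le_abs_self _).trans h2
    have h6 : G t ≤ 2 * Real.pi / t * (1 + |C₁|) * (K * (t ^ (-2 : ℝ) * x ^ (-2 : ℝ))) +
        |C₁| * x ^ (3 / 4 : ℝ) * (t⁻¹ * (t ^ (-(1 / 4) : ℝ) * Real.exp (-(c * x * t)))) := by
      linarith [(abs_le.mp h1).2]
    calc t * (g t * G t) ≤ t * (g t * (2 * Real.pi / t * (1 + |C₁|) *
          (K * (t ^ (-2 : ℝ) * x ^ (-2 : ℝ))) + |C₁| * x ^ (3 / 4 : ℝ) *
            (t⁻¹ * (t ^ (-(1 / 4) : ℝ) * Real.exp (-(c * x * t)))))) := by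
          apply mul_le_mul_of_nonneg_left _ ht0.le
          exact mul_le_mul_of_nonneg_left h6 (hg0 t)
      _ = _ := by
          field_simp
  have htH : IntegrableOn (fun t => t * (g t * G t)) (Ioc 0 1) := by
    have hm : AEStronglyMeasurable (fun t => t * (g t * G t)) (volume.restrict (Ioc (0 : ℝ) 1)) :=
      (continuous_id.aestronglyMeasurable).mul
        (hi2.mono_set Ioc_subset_Ioi_self).aestronglyMeasurable
    refine Integrable.mono' (hi2.mono_set Ioc_subset_Ioi_self) hm ?_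
    rw [ae_restrict_iff' measurableSet_Ioc]
    refine Eventually.of_forall fun t ht => ?_
    have h1 := mul_nonneg (hg0 t) (hG0 t)
    rw [Real.norm_eq_abs, abs_of_nonneg (mul_nonneg ht.1.le h1)]
    nlinarith [ht.1, ht.2]
  have htI : IntegrableOn (fun t => t * (g t * G t)) (Ioi 0) := by
    rw [← Ioc_union_Ioi_eq_Ioi (zero_le_one (α := ℝ))]
    exact htH.union htG
  have hint2 : Integrable (fun t : ℝ => t * (‖L (ha t)‖ ^ 2 * ‖Gs ν ε (ha t) θ‖ ^ 2)) := by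
    have hm : AEStronglyMeasurable
        (fun t : ℝ => t * (‖L (ha t)‖ ^ 2 * ‖Gs ν ε (ha t) θ‖ ^ 2)) volume :=
      (continuous_id.aestronglyMeasurable).mul hint.aestronglyMeasurable
    have h1 : IntegrableOn (fun t : ℝ => t * (‖L (ha t)‖ ^ 2 * ‖Gs ν ε (ha t) θ‖ ^ 2))
        (Ioi 0) := by
      refine Integrable.mono' htI hm.restrict ?_
      rw [ae_restrict_iff' measurableSet_Ioi]
      refine Eventually.of_forall fun t ht => ?_
      have ht0 : (0 : ℝ) < t := ht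
      rw [← hcg t, Real.norm_eq_abs, abs_mul, abs_of_pos ht0]
      apply mul_le_mul_of_nonneg_left _ ht0.le
      rw [abs_of_nonneg (by positivity)]
      have : 0 ≤ ‖L (ha (-t))‖ ^ 2 * ‖Gs ν ε (ha (-t)) θ‖ ^ 2 := by positivity
      linarith
    have h2 : IntegrableOn (fun t : ℝ => (-t) * (‖L (ha (-t))‖ ^ 2 *
        ‖Gs ν ε (ha (-t)) θ‖ ^ 2)) (Ioi 0) := by
      have hm2 : AEStronglyMeasurable (fun t : ℝ => (-t) * (‖L (ha (-t))‖ ^ 2 *
          ‖Gs ν ε (ha (-t)) θ‖ ^ 2)) volume :=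
        (continuous_neg.aestronglyMeasurable).mul hint.comp_neg.aestronglyMeasurable
      refine Integrable.mono' htI hm2.restrict ?_
      rw [ae_restrict_iff' measurableSet_Ioi]
      refine Eventually.of_forall fun t ht => ?_
      have ht0 : (0 : ℝ) < t := ht
      rw [← hcg t, Real.norm_eq_abs, abs_mul, abs_neg, abs_of_pos ht0]
      apply mul_le_mul_of_nonneg_left _ ht0.le
      rw [abs_of_nonneg (by positivity)]
      have : 0 ≤ ‖L (ha t)‖ ^ 2 * ‖Gs ν ε (ha t) θ‖ ^ 2 := by positivity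
      linarith
    have h3 : IntegrableOn (fun t : ℝ => t * (‖L (ha t)‖ ^ 2 * ‖Gs ν ε (ha t) θ‖ ^ 2))
        (Iic 0) := by
      have h2' : IntegrableOn (fun t : ℝ => (-t) * (‖L (ha (-t))‖ ^ 2 *
          ‖Gs ν ε (ha (-t)) θ‖ ^ 2)) (Ioi (-(0 : ℝ))) := by
        rw [neg_zero]
        exact h2
      have h4 := h2'.comp_neg_Iio
      simp only [neg_neg] at h4
      rw [integrableOn_Iic_iff_integrableOn_Iio]
      exact h4
    rw [← integrableOn_univ, ← Iic_union_Ioi (a := (0 : ℝ))]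
    exact h3.union h1
  obtain ⟨hi3, he3⟩ := d5a_half hint2
  have hck : ∀ t : ℝ, t * (‖L (ha t)‖ ^ 2 * ‖Gs ν ε (ha t) θ‖ ^ 2) +
      (-t) * (‖L (ha (-t))‖ ^ 2 * ‖Gs ν ε (ha (-t)) θ‖ ^ 2) = k t * G t := by
    intro t
    rw [d5a_sym F.nu F.eps hθ0 hθπ t, hk, hG]
    ring
  simp only [hck] at hi3 he3
  have hiH : IntegrableOn (fun t => k t * G t) (Ioc 0 1) := hi3.mono_set Ioc_subset_Ioi_self
  have hiT : IntegrableOn (fun t => k t * G t) (Ioi 1) := hi3.mono_set (Ioi_subset_Ioi zero_le_one)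
  -- the tail
  have hkt : ∀ t, 1 < t → |k t| * (|C₁| * x ^ (3 / 4 : ℝ) *
      (t⁻¹ * (t ^ (-(1 / 4) : ℝ) * Real.exp (-(c * x * t))))) ≤ |C₁| * x ^ (3 / 4 : ℝ) *
        (g t * (t ^ (-(1 / 4) : ℝ) * Real.exp (-(c * x * t)))) := by
    intro t ht
    have ht0 : (0 : ℝ) < t := by linarith
    calc |k t| * (|C₁| * x ^ (3 / 4 : ℝ) *
        (t⁻¹ * (t ^ (-(1 / 4) : ℝ) * Real.exp (-(c * x * t)))))
        ≤ (t * g t) * (|C₁| * x ^ (3 / 4 : ℝ) *
          (t⁻¹ * (t ^ (-(1 / 4) : ℝ) * Real.exp (-(c * x * t))))) :=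
          mul_le_mul_of_nonneg_right (hkg t ht0.le) (by positivity)
      _ = _ := by field_simp
  have hcb : ContinuousOn (fun t => |k t| * (|C₁| * x ^ (3 / 4 : ℝ) *
      (t⁻¹ * (t ^ (-(1 / 4) : ℝ) * Real.exp (-(c * x * t)))))) (Ioi 1) := by
    have h1 : ContinuousOn (fun t : ℝ => t ^ (-(1 / 4) : ℝ)) (Ioi 1) := fun t ht => by
      have : (1 : ℝ) < t := ht
      exact (Real.continuousAt_rpow_const t _ (Or.inl (by linarith))).continuousWithinAt
    have h2 : ContinuousOn (fun t : ℝ => Real.exp (-(c * x * t))) (Ioi 1) := by fun_prop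
    have h3 : ContinuousOn (fun t : ℝ => t⁻¹) (Ioi 1) := fun t ht => by
      have : (1 : ℝ) < t := ht
      exact (continuousAt_inv₀ (by linarith)).continuousWithinAt
    exact hkc.abs.continuousOn.mul (continuousOn_const.mul (h3.mul (h1.mul h2)))
  have hit : IntegrableOn (fun t => |k t| * (|C₁| * x ^ (3 / 4 : ℝ) *
      (t⁻¹ * (t ^ (-(1 / 4) : ℝ) * Real.exp (-(c * x * t)))))) (Ioi 1) := by
    refine Integrable.mono' (hgi2.const_mul (|C₁| * x ^ (3 / 4 : ℝ)))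
      (hcb.aestronglyMeasurable measurableSet_Ioi) ?_
    rw [ae_restrict_iff' measurableSet_Ioi]
    refine Eventually.of_forall fun t ht => ?_
    have ht1 : (1 : ℝ) < t := ht
    have ht0 : (0 : ℝ) < t := by linarith
    rw [Real.norm_eq_abs, abs_of_nonneg (by positivity)]
    exact hkt t ht1
  obtain ⟨hT1, hT2⟩ := d5a_tail (G := G) (W := fun t => ‖WW ν (t * x)‖ ^ 2) hkc hiT
    (d5a_WW ν hx) he hbt hit
  have hT3 : ∫ t in Ioi (1 : ℝ), |k t| * (|C₁| * x ^ (3 / 4 : ℝ) *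
      (t⁻¹ * (t ^ (-(1 / 4) : ℝ) * Real.exp (-(c * x * t))))) ≤
      |C₁| * M * c ^ (-(7 / 8) : ℝ) * x ^ (-(1 / 8) : ℝ) := by
    calc ∫ t in Ioi (1 : ℝ), |k t| * (|C₁| * x ^ (3 / 4 : ℝ) *
        (t⁻¹ * (t ^ (-(1 / 4) : ℝ) * Real.exp (-(c * x * t)))))
        ≤ ∫ t in Ioi (1 : ℝ), |C₁| * x ^ (3 / 4 : ℝ) *
          (g t * (t ^ (-(1 / 4) : ℝ) * Real.exp (-(c * x * t)))) := by
          apply setIntegral_mono_on hit (hgi2.const_mul _) measurableSet_Ioi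
          exact fun t ht => hkt t ht
      _ = |C₁| * x ^ (3 / 4 : ℝ) * ∫ t in Ioi (1 : ℝ),
          (g t * (t ^ (-(1 / 4) : ℝ) * Real.exp (-(c * x * t)))) := integral_const_mul _ _
      _ ≤ |C₁| * x ^ (3 / 4 : ℝ) * (M * (c * x) ^ (-(7 / 8) : ℝ)) :=
          mul_le_mul_of_nonneg_left hgb (by positivity)
      _ = _ := by
          have e1 : (c * x) ^ (-(7 / 8) : ℝ) = c ^ (-(7 / 8) : ℝ) * x ^ (-(7 / 8) : ℝ) :=
            Real.mul_rpow hc.le hx.le
          have e2 : x ^ (-(1 / 8) : ℝ) = x ^ (3 / 4 : ℝ) * x ^ (-(7 / 8) : ℝ) := by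
            rw [← Real.rpow_add hx]
            norm_num
          rw [e1, e2]
          ring
  -- the head
  have hH := d5a_head (k := k) (G := G) (e := e₁) (w := ‖WW ν x‖ ^ 2)
    (D := |C₂| * (x₀ ^ (7 / 8 : ℝ) * x ^ (-(1 / 8) : ℝ))) hkc hiH he₁ (fun t h0 h1 => by
      refine (hsm t θ h0 h1 hθ0 hθ1).trans ?_
      apply mul_le_mul (le_abs_self _) _ (by positivity) (abs_nonneg _)
      have e2 : x ^ (3 / 4 : ℝ) = x ^ (7 / 8 : ℝ) * x ^ (-(1 / 8) : ℝ) := by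
        rw [← Real.rpow_add hx]
        norm_num
      rw [e2]
      apply mul_le_mul_of_nonneg_right _ (by positivity)
      exact Real.rpow_le_rpow hx.le hxx (by norm_num))
  have hmain : ∫ t in Ioi (1 : ℝ), (‖L (ha t)‖ ^ 2 - ‖L (ha (-t))‖ ^ 2) * (1 + e t) *
      ‖WW ν (t * x)‖ ^ 2 = (2 * Real.pi)⁻¹ * ∫ t in Ioi (1 : ℝ), k t *
        (2 * Real.pi / t * (1 + e t) * ‖WW ν (t * x)‖ ^ 2) := by
    rw [← integral_const_mul]
    apply setIntegral_congr_fun measurableSet_Ioi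
    intro t ht
    have ht1 : (1 : ℝ) < t := ht
    have ht0 : (0 : ℝ) < t := by linarith
    rw [hk]
    simp only
    field_simp
  rw [he3, d5a_split hi3, hmain, hB]
  have e4 : (2 * Real.pi)⁻¹ * ((∫ t in Ioc (0 : ℝ) 1, k t * G t) + ∫ t in Ioi (1 : ℝ), k t * G t) -
      ((2 * Real.pi)⁻¹ * (∫ t in Ioi (1 : ℝ), k t *
        (2 * Real.pi / t * (1 + e t) * ‖WW ν (t * x)‖ ^ 2)) +
        (2 * Real.pi)⁻¹ * (∫ t in Ioc (0 : ℝ) 1, k t * e₁ t) * ‖WW ν x‖ ^ 2) =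
      (2 * Real.pi)⁻¹ * (((∫ t in Ioc (0 : ℝ) 1, k t * G t) -
        (∫ t in Ioc (0 : ℝ) 1, k t * e₁ t) * ‖WW ν x‖ ^ 2) +
        ((∫ t in Ioi (1 : ℝ), k t * G t) - ∫ t in Ioi (1 : ℝ), k t *
          (2 * Real.pi / t * (1 + e t) * ‖WW ν (t * x)‖ ^ 2))) := by ring
  rw [e4, abs_mul, abs_of_pos (by positivity : (0 : ℝ) < (2 * Real.pi)⁻¹)]
  calc (2 * Real.pi)⁻¹ * |((∫ t in Ioc (0 : ℝ) 1, k t * G t) -
        (∫ t in Ioc (0 : ℝ) 1, k t * e₁ t) * ‖WW ν x‖ ^ 2) +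
        ((∫ t in Ioi (1 : ℝ), k t * G t) - ∫ t in Ioi (1 : ℝ), k t *
          (2 * Real.pi / t * (1 + e t) * ‖WW ν (t * x)‖ ^ 2))|
      ≤ (2 * Real.pi)⁻¹ * (I₀ * (|C₂| * (x₀ ^ (7 / 8 : ℝ) * x ^ (-(1 / 8) : ℝ))) +
        |C₁| * M * c ^ (-(7 / 8) : ℝ) * x ^ (-(1 / 8) : ℝ)) := by
        apply mul_le_mul_of_nonneg_left _ (by positivity)
        exact (abs_add_le _ _).trans (add_le_add hH (hT2.trans hT3))
    _ = ((2 * Real.pi)⁻¹ * (I₀ * |C₂| * x₀ ^ (7 / 8 : ℝ) +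
        |C₁| * M * c ^ (-(7 / 8) : ℝ))) * x ^ (-(1 / 8) : ℝ) := by ring
    _ ≤ (|C₁| + (2 * Real.pi)⁻¹ * (I₀ * |C₂| * x₀ ^ (7 / 8 : ℝ) +
        |C₁| * M * c ^ (-(7 / 8) : ℝ))) * x ^ (-(1 / 8) : ℝ) := by
        apply mul_le_mul_of_nonneg_right _ (by positivity)
        linarith [abs_nonneg C₁]

end Pool.Agent.JO.FM

namespace Pool.Agent.JO.FM

theorem J_asymp : type_of% @J_asymp_pr := @J_asymp_pr

end Pool.Agent.JO.FM
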