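import Pool.Agent.Lib_helper45.JO.Defs2

/-!
# Project JO, part FM, block M5: the Mellin transforms on rays are entire
-/

set_option autoImplicit false

namespace Pool.Agent.JO.FM

open Complex Filter Topology MeasureTheory Set Asymptotics
open UpperHalfPlane hiding I
open scoped MatrixGroups ComplexConjugate

/-! ## points on rays -/

/-- the point `r e^{iθ}` as a complex number -/
noncomputable def m5_w (r θ : ℝ) : ℂ := (r : ℂ) * cexp (θ * I)

theorem m5_w_re (r θ : ℝ) : (m5_w r θ).re = r * Real.cos θ := by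
  unfold m5_w
  rw [Complex.re_ofReal_mul, Complex.exp_ofReal_mul_I_re]

theorem m5_w_im (r θ : ℝ) : (m5_w r θ).im = r * Real.sin θ := by
  unfold m5_w
  rw [Complex.im_ofReal_mul, Complex.exp_ofReal_mul_I_im]

theorem m5_w_pos {r θ : ℝ} (hr : 0 < r) (hθ : θ ∈ Ioo 0 Real.pi) : 0 < (m5_w r θ).im := by
  rw [m5_w_im]
  exact mul_pos hr (Real.sin_pos_of_mem_Ioo hθ)

theorem m5_w_norm {r : ℝ} (θ : ℝ) (hr : 0 < r) : ‖m5_w r θ‖ = r := by
  unfold m5_w
  rw [norm_mul, Complex.norm_exp_ofReal_mul_I, mul_one, Complex.norm_real, Real.norm_eq_abs,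
    abs_of_pos hr]

theorem m5_pr_coe {r θ : ℝ} (hr : 0 < r) (hθ : θ ∈ Ioo 0 Real.pi) :
    ((pr r θ : ℍ) : ℂ) = m5_w r θ := by
  unfold pr
  have h : 0 < ((r : ℂ) * cexp (θ * I)).im := m5_w_pos hr hθ
  rw [ofComplex_apply_of_im_pos h]
  rfl

theorem m5_pr_re {r θ : ℝ} (hr : 0 < r) (hθ : θ ∈ Ioo 0 Real.pi) :
    (pr r θ).re = r * Real.cos θ := by
  have h : ((pr r θ : ℍ) : ℂ).re = r * Real.cos θ := by
    rw [m5_pr_coe hr hθ, m5_w_re]
  exact h

theorem m5_pr_im {r θ : ℝ} (hr : 0 < r) (hθ : θ ∈ Ioo 0 Real.pi) :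
    (pr r θ).im = r * Real.sin θ := by
  have h : ((pr r θ : ℍ) : ℂ).im = r * Real.sin θ := by
    rw [m5_pr_coe hr hθ, m5_w_im]
  exact h

theorem m5_pr_normSq {r θ : ℝ} (hr : 0 < r) (hθ : θ ∈ Ioo 0 Real.pi) :
    normSq ((pr r θ : ℍ) : ℂ) = r ^ 2 := by
  rw [m5_pr_coe hr hθ, Complex.normSq_eq_norm_sq, m5_w_norm θ hr]

/-! ## the function which bounds everything -/

/-- two-sided exponential decay -/
noncomputable def m5_g (κ r : ℝ) : ℝ := Real.exp (-(κ * (r + r⁻¹)))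

theorem m5_min {x C κ r : ℝ} (hx : 0 ≤ x) (h1 : x ≤ C * Real.exp (-(κ * r)))
    (h2 : x ≤ C * Real.exp (-(κ * r⁻¹))) : x ≤ C * m5_g (κ / 2) r := by
  have hC : 0 ≤ C := by
    by_contra hC
    have : C * Real.exp (-(κ * r)) < 0 := mul_neg_of_neg_of_pos (by linarith) (Real.exp_pos _)
    linarith
  have h3 : x ^ 2 ≤ (C * m5_g (κ / 2) r) ^ 2 := by
    have h4 : x * x ≤ (C * Real.exp (-(κ * r))) * (C * Real.exp (-(κ * r⁻¹))) :=
      mul_le_mul h1 h2 hx (by positivity)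
    have h5 : (C * m5_g (κ / 2) r) ^ 2 =
        (C * Real.exp (-(κ * r))) * (C * Real.exp (-(κ * r⁻¹))) := by
      unfold m5_g
      have h6 : Real.exp (-(κ / 2 * (r + r⁻¹))) ^ 2 =
          Real.exp (-(κ * r)) * Real.exp (-(κ * r⁻¹)) := by
        rw [← Real.exp_add, ← Real.exp_nat_mul]
        congr 1
        push_cast
        ring
      rw [mul_pow, h6]
      ring
    rw [h5, sq]
    exact h4
  exact (pow_le_pow_iff_left₀ hx (mul_nonneg hC (Real.exp_pos _).le) two_ne_zero).1 h3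

theorem m5_top {κ : ℝ} (hκ : 0 < κ) (a : ℝ) : m5_g κ =O[atTop] (fun r : ℝ => r ^ (-a)) := by
  have h1 : m5_g κ =O[atTop] (fun r : ℝ => Real.exp (-κ * r)) := by
    refine IsBigO.of_bound 1 ?_
    filter_upwards [eventually_gt_atTop (0 : ℝ)] with r hr
    unfold m5_g
    rw [Real.norm_of_nonneg (Real.exp_pos _).le, Real.norm_of_nonneg (Real.exp_pos _).le, one_mul]
    refine Real.exp_le_exp.2 ?_
    have : 0 < κ * r⁻¹ := by positivity
    nlinarith
  exact h1.trans (isLittleO_exp_neg_mul_rpow_atTop hκ _).isBigO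

theorem m5_bot {κ : ℝ} (hκ : 0 < κ) (b : ℝ) : m5_g κ =O[𝓝[>] 0] (fun r : ℝ => r ^ (-b)) := by
  have h1 : m5_g κ =O[𝓝[>] 0] (fun r : ℝ => Real.exp (-κ * r⁻¹)) := by
    refine IsBigO.of_bound 1 ?_
    filter_upwards [self_mem_nhdsWithin] with r hr
    have hr' : (0 : ℝ) < r := hr
    unfold m5_g
    rw [Real.norm_of_nonneg (Real.exp_pos _).le, Real.norm_of_nonneg (Real.exp_pos _).le, one_mul]
    refine Real.exp_le_exp.2 ?_
    have : 0 < κ * r := by positivity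
    nlinarith
  have h2 : (fun r : ℝ => Real.exp (-κ * r⁻¹)) =O[𝓝[>] 0] (fun r : ℝ => r⁻¹ ^ b) :=
    ((isLittleO_exp_neg_mul_rpow_atTop hκ b).isBigO.comp_tendsto
      (tendsto_inv_nhdsGT_zero (𝕜 := ℝ)))
  refine (h1.trans h2).trans (IsBigO.of_bound 1 ?_)
  filter_upwards [self_mem_nhdsWithin] with r hr
  have hr' : (0 : ℝ) < r := hr
  rw [one_mul, Real.inv_rpow hr'.le, Real.rpow_neg hr'.le]

theorem m5_g_cont (κ : ℝ) : ContinuousOn (m5_g κ) (Ioi 0) := by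
  unfold m5_g
  refine ContinuousOn.rexp (ContinuousOn.neg (ContinuousOn.mul continuousOn_const
    (continuousOn_id.add (continuousOn_id.inv₀ fun x hx => ?_))))
  exact (ne_of_gt hx)

theorem m5_norm_g (κ r : ℝ) : ‖m5_g κ r‖ = m5_g κ r := Real.norm_of_nonneg (Real.exp_pos _).le

/-- a continuous function with two-sided exponential decay has an entire Mellin transform -/
theorem m5_mellin {h : ℝ → ℂ} {K κ : ℝ} (hκ : 0 < κ) (hc : ContinuousOn h (Ioi 0))
    (hb : ∀ r : ℝ, 0 < r → ‖h r‖ ≤ K * m5_g κ r) (s : ℂ) :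
    MellinConvergent h s ∧ DifferentiableAt ℂ (mellin h) s := by
  have hloc : LocallyIntegrableOn h (Ioi 0) := hc.locallyIntegrableOn measurableSet_Ioi
  have htop : h =O[atTop] (fun r : ℝ => r ^ (-(s.re + 1))) := by
    refine IsBigO.trans ?_ (m5_top hκ (s.re + 1))
    refine IsBigO.of_bound K ?_
    filter_upwards [eventually_gt_atTop (0 : ℝ)] with r hr
    rw [m5_norm_g]
    exact hb r hr
  have hbot : h =O[𝓝[>] 0] (fun r : ℝ => r ^ (-(s.re - 1))) := by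
    refine IsBigO.trans ?_ (m5_bot hκ (s.re - 1))
    refine IsBigO.of_bound K ?_
    filter_upwards [self_mem_nhdsWithin] with r hr
    rw [m5_norm_g]
    exact hb r hr
  exact ⟨mellinConvergent_of_isBigO_rpow hloc htop (by linarith) hbot (by linarith),
    mellin_differentiableAt_of_isBigO_rpow hloc htop (by linarith) hbot (by linarith)⟩

/-- the shifted form used for `Mf` -/
theorem m5_shift (h : ℝ → ℂ) (s : ℂ) :
    ∫ r in Ioi (0 : ℝ), h r * (r : ℂ) ^ (s - 3 / 2) = mellin h (s - 1 / 2) := by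
  unfold mellin
  refine setIntegral_congr_fun measurableSet_Ioi fun r _ => ?_
  show h r * (r : ℂ) ^ (s - 3 / 2) = (r : ℂ) ^ (s - 1 / 2 - 1) • h r
  rw [smul_eq_mul, mul_comm]
  congr 2
  ring

theorem m5_shift_int {h : ℝ → ℂ} {s : ℂ} (hc : MellinConvergent h (s - 1 / 2)) :
    IntegrableOn (fun r : ℝ => h r * (r : ℂ) ^ (s - 3 / 2)) (Ioi 0) := by
  refine (integrableOn_congr_fun (fun r _ => ?_) measurableSet_Ioi).1 hc
  show (r : ℂ) ^ (s - 1 / 2 - 1) • h r = h r * (r : ℂ) ^ (s - 3 / 2)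
  rw [smul_eq_mul, mul_comm]
  congr 2
  ring

theorem m5_entire {h : ℝ → ℂ} {K κ : ℝ} (hκ : 0 < κ) (hc : ContinuousOn h (Ioi 0))
    (hb : ∀ r : ℝ, 0 < r → ‖h r‖ ≤ K * m5_g κ r) :
    Differentiable ℂ (fun s : ℂ => ∫ r in Ioi (0 : ℝ), h r * (r : ℂ) ^ (s - 3 / 2)) := by
  intro s
  have h1 : (fun s : ℂ => ∫ r in Ioi (0 : ℝ), h r * (r : ℂ) ^ (s - 3 / 2)) =
      fun s : ℂ => mellin h (s - 1 / 2) := funext fun s => m5_shift h s
  rw [h1]
  have h2 : HasDerivAt (fun s : ℂ => s - 1 / 2) 1 s := (hasDerivAt_id s).sub_const _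
  have h3 := (m5_mellin hκ hc hb (s - 1 / 2)).2.hasDerivAt
  exact (HasDerivAt.comp s h3 h2).differentiableAt

/-! ## the derivatives of `f` -/

variable {ν : ℂ} {ε : ℝ} {a : ℕ → ℂ} {f : ℍ → ℂ} {L : ℂ → ℂ}

/-- `f` on the complex plane -/
noncomputable def m5_f (f : ℍ → ℂ) (z : ℂ) : ℂ := f (ofComplex z)

theorem m5_open : IsOpen {z : ℂ | 0 < z.im} := isOpen_lt continuous_const Complex.continuous_im

theorem m5_hasF (hf : ContDiffOn ℝ 2 (fun z : ℂ => f (ofComplex z)) {z | 0 < z.im}) {w : ℂ}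
    (hw : 0 < w.im) : HasFDerivAt (m5_f f) (fderiv ℝ (m5_f f) w) w := by
  have h1 : ContDiffAt ℝ 2 (m5_f f) w := hf.contDiffAt (m5_open.mem_nhds hw)
  exact (h1.differentiableAt (by norm_num)).hasFDerivAt

theorem m5_dX (hf : ContDiffOn ℝ 2 (fun z : ℂ => f (ofComplex z)) {z | 0 < z.im}) (z : ℍ) :
    dX f z = fderiv ℝ (m5_f f) (z : ℂ) 1 := by
  have h1 := m5_hasF hf z.im_pos
  have h2 : HasDerivAt (fun t : ℝ => (z : ℂ) + (t : ℂ)) 1 0 := by
    have := (Complex.ofRealCLM.hasDerivAt (x := (0 : ℝ))).const_add (z : ℂ)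
    simpa using this
  have h3 : HasFDerivAt (m5_f f) (fderiv ℝ (m5_f f) (z : ℂ)) ((z : ℂ) + ((0 : ℝ) : ℂ)) := by
    rw [Complex.ofReal_zero, add_zero]
    exact h1
  exact (h3.comp_hasDerivAt (0 : ℝ) h2).deriv

theorem m5_dY (hf : ContDiffOn ℝ 2 (fun z : ℂ => f (ofComplex z)) {z | 0 < z.im}) (z : ℍ) :
    dY f z = fderiv ℝ (m5_f f) (z : ℂ) I := by
  have h1 := m5_hasF hf z.im_pos
  have h2 : HasDerivAt (fun t : ℝ => (z : ℂ) + (t : ℂ) * I) I 0 := by
    have := ((Complex.ofRealCLM.hasDerivAt (x := (0 : ℝ))).mul_const I).const_add (z : ℂ)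
    simpa using this
  have h3 : HasFDerivAt (m5_f f) (fderiv ℝ (m5_f f) (z : ℂ))
      ((z : ℂ) + ((0 : ℝ) : ℂ) * I) := by
    rw [Complex.ofReal_zero, zero_mul, add_zero]
    exact h1
  exact (h3.comp_hasDerivAt (0 : ℝ) h2).deriv

/-- the angular derivative -/
noncomputable def m5_h (f : ℍ → ℂ) (θ r : ℝ) : ℂ :=
  ((pr r θ).re : ℂ) * dY f (pr r θ) - ((pr r θ).im : ℂ) * dX f (pr r θ)

theorem m5_h_eq (hf : ContDiffOn ℝ 2 (fun z : ℂ => f (ofComplex z)) {z | 0 < z.im}) {r θ : ℝ}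
    (hr : 0 < r) (hθ : θ ∈ Ioo 0 Real.pi) :
    m5_h f θ r = fderiv ℝ (m5_f f) (m5_w r θ) (m5_w r θ * I) := by
  unfold m5_h
  rw [m5_dX hf, m5_dY hf, m5_pr_coe hr hθ, m5_pr_re hr hθ, m5_pr_im hr hθ]
  have h1 : m5_w r θ * I = (r * Real.cos θ : ℝ) • I - (r * Real.sin θ : ℝ) • (1 : ℂ) := by
    apply Complex.ext
    · rw [Complex.mul_I_re, m5_w_im, Complex.sub_re, Complex.smul_re, Complex.smul_re,
        Complex.I_re, Complex.one_re, smul_zero, smul_eq_mul]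
      ring
    · rw [Complex.mul_I_im, m5_w_re, Complex.sub_im, Complex.smul_im, Complex.smul_im,
        Complex.I_im, Complex.one_im, smul_zero, smul_eq_mul]
      ring
  rw [h1, map_sub, map_smul, map_smul, Complex.real_smul, Complex.real_smul]

theorem m5_hasDeriv (hf : ContDiffOn ℝ 2 (fun z : ℂ => f (ofComplex z)) {z | 0 < z.im}) {r θ : ℝ}
    (hr : 0 < r) (hθ : θ ∈ Ioo 0 Real.pi) :
    HasDerivAt (fun θ : ℝ => f (pr r θ)) (m5_h f θ r) θ := by
  rw [m5_h_eq hf hr hθ]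
  have h1 := m5_hasF hf (m5_w_pos hr hθ)
  have h2 : HasDerivAt (fun θ : ℝ => m5_w r θ) (m5_w r θ * I) θ := by
    have h3 : HasDerivAt (fun θ : ℝ => (θ : ℂ) * I) I θ := by
      have := (Complex.ofRealCLM.hasDerivAt (x := θ)).mul_const I
      simpa using this
    have h4 := (h3.cexp).const_mul (r : ℂ)
    unfold m5_w
    rw [mul_assoc]
    exact h4
  exact h1.comp_hasDerivAt θ h2

theorem m5_f_cont (hf : ContDiffOn ℝ 2 (fun z : ℂ => f (ofComplex z)) {z | 0 < z.im}) {θ : ℝ}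
    (hθ : θ ∈ Ioo 0 Real.pi) : ContinuousOn (fun r : ℝ => f (pr r θ)) (Ioi 0) := by
  have h1 : ContinuousOn (m5_f f) {z | 0 < z.im} := hf.continuousOn
  have h2 : Continuous (fun r : ℝ => m5_w r θ) := by
    unfold m5_w
    fun_prop
  exact h1.comp h2.continuousOn (fun r hr => m5_w_pos hr hθ)

theorem m5_h_cont (hf : ContDiffOn ℝ 2 (fun z : ℂ => f (ofComplex z)) {z | 0 < z.im}) {θ : ℝ}
    (hθ : θ ∈ Ioo 0 Real.pi) : ContinuousOn (m5_h f θ) (Ioi 0) := by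
  have h1 : ContinuousOn (fderiv ℝ (m5_f f)) {z | 0 < z.im} :=
    hf.continuousOn_fderiv_of_isOpen m5_open (by norm_num)
  have h2 : Continuous (fun r : ℝ => m5_w r θ) := by
    unfold m5_w
    fun_prop
  have h3 : ContinuousOn (fun r : ℝ => fderiv ℝ (m5_f f) (m5_w r θ)) (Ioi 0) :=
    h1.comp h2.continuousOn (fun r hr => m5_w_pos hr hθ)
  have h4 : ContinuousOn (fun r : ℝ => fderiv ℝ (m5_f f) (m5_w r θ) (m5_w r θ * I)) (Ioi 0) :=
    h3.clm_apply (h2.mul continuous_const).continuousOn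
  exact h4.congr fun r hr => m5_h_eq hf hr hθ

theorem m5_f_bd (F : Frame0 ν ε a f) : ∃ C c : ℝ, 0 < c ∧ ∀ r θ : ℝ, 0 < r →
    θ ∈ Ioo 0 Real.pi → ‖f (pr r θ)‖ ≤ C * m5_g (c * Real.sin θ) r := by
  obtain ⟨C, c, hc, h⟩ := F.dec
  refine ⟨C, c / 2, by positivity, fun r θ hr hθ => ?_⟩
  obtain ⟨h1, h2⟩ := h (pr r θ)
  rw [m5_pr_im hr hθ] at h1 h2
  rw [m5_pr_normSq hr hθ] at h2
  have e1 : c / 2 * Real.sin θ = c * Real.sin θ / 2 := by ring
  rw [e1]
  refine m5_min (norm_nonneg _) ?_ ?_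
  · refine h1.trans_eq ?_
    congr 2
    ring
  · refine h2.trans_eq ?_
    have : r ≠ 0 := hr.ne'
    congr 2
    field_simp

theorem m5_h_bd (F : Frame0 ν ε a f) : ∃ C c : ℝ, 0 < c ∧ 0 ≤ C ∧ ∀ r θ : ℝ, 0 < r →
    θ ∈ Ioo 0 Real.pi → ‖m5_h f θ r‖ ≤ C / Real.sin θ * m5_g (c * Real.sin θ) r := by
  obtain ⟨C, c, hc, h⟩ := F.decd
  have hC : 0 ≤ C := by
    by_contra hC
    have h1 := (h UpperHalfPlane.I).1
    have h2 : C * Real.exp (-(c * UpperHalfPlane.I.im)) < 0 :=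
      mul_neg_of_neg_of_pos (by linarith) (Real.exp_pos _)
    have h3 : 0 ≤ UpperHalfPlane.I.im * (‖dX f UpperHalfPlane.I‖ + ‖dY f UpperHalfPlane.I‖) :=
      mul_nonneg UpperHalfPlane.I.im_pos.le (by positivity)
    linarith
  refine ⟨C, c / 2, by positivity, hC, fun r θ hr hθ => ?_⟩
  obtain ⟨h1, h2⟩ := h (pr r θ)
  have hs : 0 < Real.sin θ := Real.sin_pos_of_mem_Ioo hθ
  have e1 : c / 2 * Real.sin θ = c * Real.sin θ / 2 := by ring
  have hn : ‖m5_h f θ r‖ ≤ (pr r θ).im * (‖dX f (pr r θ)‖ + ‖dY f (pr r θ)‖) / Real.sin θ := by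
    unfold m5_h
    refine (norm_sub_le _ _).trans ?_
    rw [norm_mul, norm_mul, Complex.norm_real, Complex.norm_real, m5_pr_re hr hθ,
      m5_pr_im hr hθ, Real.norm_eq_abs, Real.norm_eq_abs, le_div_iff₀ hs]
    have h3 : |r * Real.cos θ| ≤ r := by
      rw [abs_mul, abs_of_pos hr]
      exact mul_le_of_le_one_right hr.le (Real.abs_cos_le_one θ)
    have h4 : |r * Real.sin θ| ≤ r := by
      rw [abs_mul, abs_of_pos hr]
      exact mul_le_of_le_one_right hr.le (Real.abs_sin_le_one θ)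
    have h5 : |r * Real.cos θ| * ‖dY f (pr r θ)‖ + |r * Real.sin θ| * ‖dX f (pr r θ)‖ ≤
        r * ‖dY f (pr r θ)‖ + r * ‖dX f (pr r θ)‖ :=
      add_le_add (mul_le_mul_of_nonneg_right h3 (norm_nonneg _))
        (mul_le_mul_of_nonneg_right h4 (norm_nonneg _))
    calc (|r * Real.cos θ| * ‖dY f (pr r θ)‖ + |r * Real.sin θ| * ‖dX f (pr r θ)‖) *
          Real.sin θ ≤ (r * ‖dY f (pr r θ)‖ + r * ‖dX f (pr r θ)‖) * Real.sin θ :=
          mul_le_mul_of_nonneg_right h5 hs.le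
      _ = r * Real.sin θ * (‖dX f (pr r θ)‖ + ‖dY f (pr r θ)‖) := by ring
  rw [m5_pr_normSq hr hθ] at h2
  rw [e1]
  have h6 : (pr r θ).im * (‖dX f (pr r θ)‖ + ‖dY f (pr r θ)‖) ≤
      C * m5_g (c * Real.sin θ / 2) r := by
    refine m5_min (mul_nonneg (pr r θ).im_pos.le (by positivity)) ?_ ?_
    · refine h1.trans_eq ?_
      rw [m5_pr_im hr hθ]
      congr 2
      ring
    · refine h2.trans_eq ?_
      have : r ≠ 0 := hr.ne'
      rw [m5_pr_im hr hθ]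
      congr 2
      field_simp
  refine hn.trans ?_
  rw [div_mul_eq_mul_div]
  exact div_le_div_of_nonneg_right h6 hs.le

theorem Mf_entire_pr (F : Frame0 ν ε a f) {θ : ℝ} (hθ : θ ∈ Ioo 0 Real.pi) :
    Differentiable ℂ (fun s => Mf f s θ) := by
  obtain ⟨C, c, hc, hb⟩ := m5_f_bd F
  have hs : 0 < Real.sin θ := Real.sin_pos_of_mem_Ioo hθ
  exact m5_entire (mul_pos hc hs) (m5_f_cont F.smooth hθ) (fun r hr => hb r θ hr hθ)

theorem Mf_deriv_pr (F : Frame0 ν ε a f) (s : ℂ) {θ : ℝ} (hθ : θ ∈ Ioo 0 Real.pi) :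
    HasDerivAt (fun θ => Mf f s θ)
      (∫ r in Ioi (0 : ℝ), (((pr r θ).re : ℂ) * dY f (pr r θ) - ((pr r θ).im : ℂ) * dX f (pr r θ)) *
        (r : ℂ) ^ (s - 3 / 2)) θ ∧
    Differentiable ℂ (fun s : ℂ => ∫ r in Ioi (0 : ℝ),
      (((pr r θ).re : ℂ) * dY f (pr r θ) - ((pr r θ).im : ℂ) * dX f (pr r θ)) *
        (r : ℂ) ^ (s - 3 / 2)) := by
  obtain ⟨C, c, hc, hC, hb⟩ := m5_h_bd F
  obtain ⟨C', c', hc', hb'⟩ := m5_f_bd F
  have hs : 0 < Real.sin θ := Real.sin_pos_of_mem_Ioo hθ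
  constructor
  · obtain ⟨m, hm⟩ : ∃ m : ℝ, m = Real.sin θ / 2 := ⟨_, rfl⟩
    have hm0 : 0 < m := by
      rw [hm]
      positivity
    have hU : {x : ℝ | x ∈ Ioo 0 Real.pi ∧ m < Real.sin x} ∈ 𝓝 θ := by
      refine inter_mem (isOpen_Ioo.mem_nhds hθ) ?_
      refine (isOpen_lt continuous_const Real.continuous_sin).mem_nhds ?_
      show m < Real.sin θ
      rw [hm]
      linarith
    have hpow : ContinuousOn (fun r : ℝ => (r : ℂ) ^ (s - 3 / 2)) (Ioi 0) := fun r hr =>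
      (continuousAt_ofReal_cpow_const _ _ (Or.inr (ne_of_gt hr))).continuousWithinAt
    have hbd : IntegrableOn (fun r : ℝ => C / m * ‖(m5_g (c * m) r : ℂ) * (r : ℂ) ^ (s - 3 / 2)‖)
        (Ioi 0) := by
      refine Integrable.const_mul (Integrable.norm ?_) _
      refine m5_shift_int (m5_mellin (K := 1) (mul_pos hc hm0) ?_ ?_ _).1
      · exact Complex.continuous_ofReal.comp_continuousOn (m5_g_cont _)
      · intro r _
        rw [Complex.norm_real, m5_norm_g, one_mul]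
    have hmain := hasDerivAt_integral_of_dominated_loc_of_deriv_le
      (μ := volume.restrict (Ioi (0 : ℝ)))
      (F := fun (x r : ℝ) => f (pr r x) * (r : ℂ) ^ (s - 3 / 2))
      (F' := fun (x r : ℝ) => m5_h f x r * (r : ℂ) ^ (s - 3 / 2)) (x₀ := θ) hU
      (bound := fun r : ℝ => C / m * ‖(m5_g (c * m) r : ℂ) * (r : ℂ) ^ (s - 3 / 2)‖)
      ?_ ?_ ?_ ?_ hbd ?_
    · exact hmain.2
    · filter_upwards [isOpen_Ioo.mem_nhds hθ] with x hx
      exact ((m5_f_cont F.smooth hx).mul hpow).aestronglyMeasurable measurableSet_Ioi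
    · exact m5_shift_int (m5_mellin (mul_pos hc' hs) (m5_f_cont F.smooth hθ)
        (fun r hr => hb' r θ hr hθ) _).1
    · exact ((m5_h_cont F.smooth hθ).mul hpow).aestronglyMeasurable measurableSet_Ioi
    · refine (ae_restrict_iff' measurableSet_Ioi).2 (Eventually.of_forall fun r hr x hx => ?_)
      obtain ⟨hx1, hx2⟩ := hx
      have hr' : (0 : ℝ) < r := hr
      have h1 := hb r x hr' hx1
      have h2 : C / Real.sin x ≤ C / m := div_le_div_of_nonneg_left hC hm0 hx2.le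
      have h3 : m5_g (c * Real.sin x) r ≤ m5_g (c * m) r := by
        unfold m5_g
        refine Real.exp_le_exp.2 (neg_le_neg ?_)
        refine mul_le_mul_of_nonneg_right ?_ (by positivity)
        exact mul_le_mul_of_nonneg_left hx2.le hc.le
      have h4 : ‖m5_h f x r‖ ≤ C / m * m5_g (c * m) r :=
        h1.trans (mul_le_mul h2 h3 (Real.exp_pos _).le (by positivity))
      rw [norm_mul, norm_mul, Complex.norm_real, m5_norm_g, ← mul_assoc]
      exact mul_le_mul_of_nonneg_right h4 (norm_nonneg _)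
    · refine (ae_restrict_iff' measurableSet_Ioi).2 (Eventually.of_forall fun r hr x hx => ?_)
      exact (m5_hasDeriv F.smooth hr hx.1).mul_const _
  · exact m5_entire (mul_pos hc hs) (m5_h_cont F.smooth hθ) (fun r hr => hb r θ hr hθ)

end Pool.Agent.JO.FM

namespace Pool.Agent.JO.FM

theorem Mf_entire : type_of% @Mf_entire_pr := @Mf_entire_pr
theorem Mf_deriv : type_of% @Mf_deriv_pr := @Mf_deriv_pr

end Pool.Agent.JO.FM
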