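import Pool.Agent.Lib_helper45.JO.Defs2
import Pool.Agent.Lib_helper45.JOM.M2
import Pool.Agent.Lib_helper45.JOM.M5
import Pool.Agent.Lib_helper45.JOM.M8
import Pool.Agent.Lib_helper45.JOM.P6
import Pool.Agent.Lib_helper24.SQ.PL

/-!
# Project JO, part FM: block M10
-/

set_option autoImplicit false

namespace Pool.Agent.JO.FM

open Complex Filter Topology MeasureTheory Set
open UpperHalfPlane hiding I
open scoped MatrixGroups ComplexConjugate

/-! ### Fourier transforms -/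

theorem m10_im (a b : ℂ) : (a * conj b).im = (‖a + I * b‖ ^ 2 - ‖a - I * b‖ ^ 2) / 4 := by
  rw [← Complex.normSq_eq_norm_sq, ← Complex.normSq_eq_norm_sq, Complex.normSq_apply,
    Complex.normSq_apply]
  simp
  ring

theorem m10_cont (t : ℝ) : Continuous (fun u : ℝ => cexp (t * u * I)) := by fun_prop

theorem m10_mul_int {h : ℝ → ℂ} (h1 : Integrable h) (t : ℝ) :
    Integrable (fun u : ℝ => h u * cexp (t * u * I)) := by
  refine h1.mul_bdd (c := 1) (m10_cont t).aestronglyMeasurable (ae_of_all _ fun u => ?_)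
  rw [← Complex.ofReal_mul, Complex.norm_exp_ofReal_mul_I]

theorem m10_hat_add {a b : ℝ → ℂ} (ha : Integrable a) (hb : Integrable b) (c : ℂ) (t : ℝ) :
    SQS.hat (fun u => a u + c * b u) t = SQS.hat a t + c * SQS.hat b t := by
  unfold SQS.hat
  rw [← integral_const_mul, ← integral_add (m10_mul_int ha t) ((m10_mul_int hb t).const_mul c)]
  congr 1
  funext u
  ring

/-- Parseval, polarised -/
theorem m10_pars {a b : ℝ → ℂ} (ha : Integrable a) (hb : Integrable b)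
    (ha2 : Integrable (fun u => ‖a u‖ ^ 2)) (hb2 : Integrable (fun u => ‖b u‖ ^ 2)) :
    ∫ t : ℝ, (SQS.hat a t * conj (SQS.hat b t)).im =
      2 * Real.pi * ∫ u : ℝ, (a u * conj (b u)).im := by
  have key : ∀ c : ℂ, ‖c‖ = 1 → Integrable (fun u => ‖a u + c * b u‖ ^ 2) := by
    intro c hc
    refine ((ha2.const_mul 2).add (hb2.const_mul 2)).mono'
      ((ha.1.add (hb.1.const_mul c)).norm.pow 2) (ae_of_all _ fun u => ?_)
    rw [Real.norm_eq_abs, abs_of_nonneg (by positivity)]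
    have h1 : ‖a u + c * b u‖ ≤ ‖a u‖ + ‖b u‖ := by
      refine (norm_add_le _ _).trans ?_
      rw [norm_mul, hc, one_mul]
    have h2 : ‖a u + c * b u‖ ^ 2 ≤ (‖a u‖ + ‖b u‖) ^ 2 := pow_le_pow_left₀ (norm_nonneg _) h1 2
    simp only [Pi.add_apply]
    nlinarith [sq_nonneg (‖a u‖ - ‖b u‖)]
  have i1 := key I (by simp)
  have i2 := key (-I) (by simp)
  have p1 := SQS.PL1 (fun u => a u + I * b u) (ha.add (hb.const_mul I)) i1
  have p2 := SQS.PL1 (fun u => a u + -I * b u) (ha.add (hb.const_mul (-I))) i2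
  have e1 : ∀ t : ℝ, (SQS.hat a t * conj (SQS.hat b t)).im =
      (1 / 4) * (‖SQS.hat (fun u => a u + I * b u) t‖ ^ 2 -
        ‖SQS.hat (fun u => a u + -I * b u) t‖ ^ 2) := by
    intro t
    rw [m10_hat_add ha hb, m10_hat_add ha hb, m10_im]
    rw [show SQS.hat a t + -I * SQS.hat b t = SQS.hat a t - I * SQS.hat b t by ring]
    ring
  have e2 : ∀ u : ℝ, (a u * conj (b u)).im =
      (1 / 4) * (‖a u + I * b u‖ ^ 2 - ‖a u + -I * b u‖ ^ 2) := by
    intro u
    rw [m10_im]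
    rw [show a u + -I * b u = a u - I * b u by ring]
    ring
  simp_rw [e1, e2]
  rw [integral_const_mul, integral_const_mul, integral_sub p1.1 p2.1, integral_sub i1 i2, p1.2,
    p2.2]
  ring

/-- the transform of a derivative -/
theorem m10_hat_deriv {u u' : ℝ → ℂ} (hu : ∀ v, HasDerivAt u (u' v) v) (h1 : Integrable u)
    (h2 : Integrable u') (t : ℝ) : SQS.hat u' t = -(t * I) * SQS.hat u t := by
  have hv : ∀ v : ℝ, HasDerivAt (fun v : ℝ => cexp (t * v * I))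
      (cexp (t * v * I) * (t * I)) v := by
    intro v
    have h3 : HasDerivAt (fun v : ℝ => (t : ℂ) * (v : ℂ) * I) (t * I) v := by
      have h4 := ((hasDerivAt_id v).ofReal_comp.const_mul (t : ℂ)).mul_const I
      simpa using h4
    exact h3.cexp
  have h := integral_mul_deriv_eq_deriv_mul_of_integrable (fun x _ => hu x) (fun x _ => hv x)
    (by
      have := (m10_mul_int h1 t).mul_const (t * I)
      refine this.congr (ae_of_all _ fun x => ?_)
      simp only [Pi.mul_apply]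
      ring)
    (m10_mul_int h2 t) (m10_mul_int h1 t)
  unfold SQS.hat
  rw [← integral_const_mul]
  have h3 : ∫ x : ℝ, u' x * cexp (t * x * I) = -∫ x : ℝ, u x * (cexp (t * x * I) * (t * I)) := by
    rw [h, neg_neg]
  rw [h3, ← integral_neg]
  congr 1
  funext x
  ring

/-- an integral over the ray in logarithmic coordinates -/
theorem m10_exp (g : ℝ → ℂ) : ∫ r in Ioi (0 : ℝ), g r = ∫ v : ℝ, (Real.exp v : ℂ) * g (Real.exp v) := by
  have h := integral_image_eq_integral_abs_deriv_smul (s := univ) (f := Real.exp)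
    (f' := Real.exp) MeasurableSet.univ (fun v _ => (Real.hasDerivAt_exp v).hasDerivWithinAt)
    Real.exp_injective.injOn g
  rw [image_univ, Real.range_exp, setIntegral_univ] at h
  rw [h]
  congr 1
  funext v
  rw [abs_of_pos (Real.exp_pos v), Complex.real_smul]

theorem m10_mellin (g : ℝ → ℂ) (t : ℝ) :
    ∫ r in Ioi (0 : ℝ), g r * (r : ℂ) ^ (ha t - 3 / 2) =
      SQS.hat (fun v => g (Real.exp v)) t := by
  rw [m10_exp]
  unfold SQS.hat
  congr 1
  funext v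
  have h0 : ((Real.exp v : ℝ) : ℂ) ≠ 0 := by exact_mod_cast (Real.exp_pos v).ne'
  rw [Complex.cpow_def_of_ne_zero h0, ← Complex.ofReal_log (Real.exp_pos v).le, Real.log_exp]
  have e : ((Real.exp v : ℝ) : ℂ) * cexp (v * (ha t - 3 / 2)) = cexp (t * v * I) := by
    rw [Complex.ofReal_exp, ← Complex.exp_add]
    congr 1
    unfold ha
    ring
  rw [← e]
  ring

/-! ### The function on a ray -/

theorem m10_hasF {f : ℍ → ℂ} (hf : ContDiffOn ℝ 2 (fun z : ℂ => f (ofComplex z)) {z | 0 < z.im})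
    {z : ℂ} (hz : 0 < z.im) : HasFDerivAt (fun z : ℂ => f (ofComplex z))
      (fderiv ℝ (fun z : ℂ => f (ofComplex z)) z) z := by
  have hopen : IsOpen {z : ℂ | 0 < z.im} := isOpen_lt continuous_const Complex.continuous_im
  exact ((hf.contDiffAt (hopen.mem_nhds hz)).differentiableAt (by norm_num)).hasFDerivAt

theorem m10_dX {f : ℍ → ℂ} (hf : ContDiffOn ℝ 2 (fun z : ℂ => f (ofComplex z)) {z | 0 < z.im})
    (z : ℍ) : dX f z = fderiv ℝ (fun z : ℂ => f (ofComplex z)) (z : ℂ) 1 := by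
  have h1 := m10_hasF hf (z := (z : ℂ)) z.im_pos
  have h2 : HasDerivAt (fun t : ℝ => (z : ℂ) + t) 1 0 := by
    simpa using (hasDerivAt_id (0 : ℝ)).ofReal_comp.const_add (z : ℂ)
  have h3 : HasFDerivAt (fun z : ℂ => f (ofComplex z))
      (fderiv ℝ (fun z : ℂ => f (ofComplex z)) (z : ℂ)) ((z : ℂ) + ((0 : ℝ) : ℂ)) := by
    rwa [Complex.ofReal_zero, add_zero]
  exact (h3.comp_hasDerivAt (0 : ℝ) h2).deriv

theorem m10_dY {f : ℍ → ℂ} (hf : ContDiffOn ℝ 2 (fun z : ℂ => f (ofComplex z)) {z | 0 < z.im})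
    (z : ℍ) : dY f z = fderiv ℝ (fun z : ℂ => f (ofComplex z)) (z : ℂ) I := by
  have h1 := m10_hasF hf (z := (z : ℂ)) z.im_pos
  have h2 : HasDerivAt (fun t : ℝ => (z : ℂ) + t * I) I 0 := by
    simpa using ((hasDerivAt_id (0 : ℝ)).ofReal_comp.mul_const I).const_add (z : ℂ)
  have h3 : HasFDerivAt (fun z : ℂ => f (ofComplex z))
      (fderiv ℝ (fun z : ℂ => f (ofComplex z)) (z : ℂ)) ((z : ℂ) + ((0 : ℝ) : ℂ) * I) := by
    rwa [Complex.ofReal_zero, zero_mul, add_zero]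
  exact (h3.comp_hasDerivAt (0 : ℝ) h2).deriv

/-- the point `e^v e^{iθ}` -/
noncomputable def m10_p (θ v : ℝ) : ℂ := ((Real.exp v : ℝ) : ℂ) * cexp (θ * I)

theorem m10_p_im (θ v : ℝ) : (m10_p θ v).im = Real.exp v * Real.sin θ := by
  rw [m10_p, Complex.im_ofReal_mul, Complex.exp_ofReal_mul_I_im]

theorem m10_p_re (θ v : ℝ) : (m10_p θ v).re = Real.exp v * Real.cos θ := by
  rw [m10_p, Complex.re_ofReal_mul, Complex.exp_ofReal_mul_I_re]

theorem m10_p_pos {θ : ℝ} (hθ : θ ∈ Ioo 0 Real.pi) (v : ℝ) : 0 < (m10_p θ v).im := by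
  rw [m10_p_im]
  exact mul_pos (Real.exp_pos v) (Real.sin_pos_of_pos_of_lt_pi hθ.1 hθ.2)

theorem m10_pr_coe {θ : ℝ} (hθ : θ ∈ Ioo 0 Real.pi) (v : ℝ) :
    ((pr (Real.exp v) θ : ℍ) : ℂ) = m10_p θ v := by
  unfold pr
  exact ofComplex_apply_of_im_pos (m10_p_pos hθ v) ▸ rfl

theorem m10_p_deriv (θ v : ℝ) : HasDerivAt (m10_p θ) (m10_p θ v) v := by
  unfold m10_p
  exact ((Real.hasDerivAt_exp v).ofReal_comp).mul_const _

/-- `U_v` -/
noncomputable def m10_a (f : ℍ → ℂ) (θ v : ℝ) : ℂ :=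
  fderiv ℝ (fun z : ℂ => f (ofComplex z)) (m10_p θ v) (m10_p θ v)

/-- `U_θ` -/
noncomputable def m10_b (f : ℍ → ℂ) (θ v : ℝ) : ℂ :=
  fderiv ℝ (fun z : ℂ => f (ofComplex z)) (m10_p θ v) (I * m10_p θ v)

section ray

variable {f : ℍ → ℂ} {θ : ℝ}

theorem m10_U_deriv (hf : ContDiffOn ℝ 2 (fun z : ℂ => f (ofComplex z)) {z | 0 < z.im})
    (hθ : θ ∈ Ioo 0 Real.pi) (v : ℝ) :
    HasDerivAt (fun v => f (pr (Real.exp v) θ)) (m10_a f θ v) v :=
  (m10_hasF hf (m10_p_pos hθ v)).comp_hasDerivAt v (m10_p_deriv θ v)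

theorem m10_ri {A B : ℝ} {z : ℂ} (h1 : z.re = A) (h2 : z.im = B) : z = A • (1 : ℂ) + B • I := by
  apply Complex.ext
  · simp [h1]
  · simp [h2]

theorem m10_a_eq (hf : ContDiffOn ℝ 2 (fun z : ℂ => f (ofComplex z)) {z | 0 < z.im})
    (hθ : θ ∈ Ioo 0 Real.pi) (v : ℝ) : m10_a f θ v =
      ((Real.exp v * Real.cos θ : ℝ) : ℂ) * dX f (pr (Real.exp v) θ) +
      ((Real.exp v * Real.sin θ : ℝ) : ℂ) * dY f (pr (Real.exp v) θ) := by
  rw [m10_dX hf, m10_dY hf, m10_pr_coe hθ, m10_a]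
  have e : m10_p θ v = (Real.exp v * Real.cos θ) • (1 : ℂ) + (Real.exp v * Real.sin θ) • I :=
    m10_ri (m10_p_re θ v) (m10_p_im θ v)
  conv_lhs => rw [show (fderiv ℝ (fun z : ℂ => f (ofComplex z)) (m10_p θ v)) (m10_p θ v) =
    (fderiv ℝ (fun z : ℂ => f (ofComplex z)) (m10_p θ v))
      ((Real.exp v * Real.cos θ) • (1 : ℂ) + (Real.exp v * Real.sin θ) • I) from
        congrArg _ e]
  rw [map_add, map_smul, map_smul, Complex.real_smul, Complex.real_smul]

theorem m10_b_eq (hf : ContDiffOn ℝ 2 (fun z : ℂ => f (ofComplex z)) {z | 0 < z.im})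
    (hθ : θ ∈ Ioo 0 Real.pi) (v : ℝ) : m10_b f θ v =
      ((Real.exp v * Real.cos θ : ℝ) : ℂ) * dY f (pr (Real.exp v) θ) -
      ((Real.exp v * Real.sin θ : ℝ) : ℂ) * dX f (pr (Real.exp v) θ) := by
  rw [m10_dX hf, m10_dY hf, m10_pr_coe hθ, m10_b]
  have e : I * m10_p θ v =
      (-(Real.exp v * Real.sin θ)) • (1 : ℂ) + (Real.exp v * Real.cos θ) • I :=
    m10_ri (by rw [Complex.I_mul_re, m10_p_im]) (by rw [Complex.I_mul_im, m10_p_re])
  rw [e, map_add, map_smul, map_smul, Complex.real_smul, Complex.real_smul]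
  push_cast
  ring

theorem m10_p_cont (θ : ℝ) : Continuous (m10_p θ) := by
  unfold m10_p
  fun_prop

theorem m10_fd_cont (hf : ContDiffOn ℝ 2 (fun z : ℂ => f (ofComplex z)) {z | 0 < z.im})
    (hθ : θ ∈ Ioo 0 Real.pi) :
    Continuous (fun v => fderiv ℝ (fun z : ℂ => f (ofComplex z)) (m10_p θ v)) := by
  have hopen : IsOpen {z : ℂ | 0 < z.im} := isOpen_lt continuous_const Complex.continuous_im
  have h1 := hf.continuousOn_fderiv_of_isOpen hopen (by norm_num)
  exact h1.comp_continuous (m10_p_cont θ) (fun v => m10_p_pos hθ v)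

theorem m10_a_cont (hf : ContDiffOn ℝ 2 (fun z : ℂ => f (ofComplex z)) {z | 0 < z.im})
    (hθ : θ ∈ Ioo 0 Real.pi) : Continuous (m10_a f θ) :=
  (m10_fd_cont hf hθ).clm_apply (m10_p_cont θ)

theorem m10_b_cont (hf : ContDiffOn ℝ 2 (fun z : ℂ => f (ofComplex z)) {z | 0 < z.im})
    (hθ : θ ∈ Ioo 0 Real.pi) : Continuous (m10_b f θ) :=
  (m10_fd_cont hf hθ).clm_apply (continuous_const.mul (m10_p_cont θ))

theorem m10_min {c s : ℝ} (hc : 0 < c) (hs : 0 < s) (v : ℝ) {A C : ℝ}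
    (h1 : A ≤ C * Real.exp (-(c * (Real.exp v * s))))
    (h2 : A ≤ C * Real.exp (-(c * (Real.exp v * s / (Real.exp v) ^ 2)))) :
    A ≤ |C| * Real.exp (-(c * s * |v|)) := by
  have hC := le_abs_self C
  have key : ∀ w : ℝ, |v| ≤ w → A ≤ C * Real.exp (-(c * (w * s))) →
      A ≤ |C| * Real.exp (-(c * s * |v|)) := by
    intro w hw hA
    refine hA.trans (mul_le_mul hC ?_ (Real.exp_pos _).le (abs_nonneg C))
    rw [Real.exp_le_exp]
    have : c * s * |v| ≤ c * s * w := mul_le_mul_of_nonneg_left hw (by positivity)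
    linarith
  rcases le_total 0 v with hv | hv
  · refine key (Real.exp v) ?_ h1
    rw [abs_of_nonneg hv]
    linarith [Real.add_one_le_exp v]
  · refine key (Real.exp (-v)) ?_ ?_
    · rw [abs_of_nonpos hv]
      linarith [Real.add_one_le_exp (-v)]
    · have e : Real.exp v * s / (Real.exp v) ^ 2 = Real.exp (-v) * s := by
        rw [Real.exp_neg]
        field_simp
      rwa [e] at h2

theorem m10_coe_im (hθ : θ ∈ Ioo 0 Real.pi) (v : ℝ) :
    (pr (Real.exp v) θ).im = Real.exp v * Real.sin θ := by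
  rw [← m10_p_im, ← m10_pr_coe hθ]
  rfl

theorem m10_coe_re (hθ : θ ∈ Ioo 0 Real.pi) (v : ℝ) :
    (pr (Real.exp v) θ).re = Real.exp v * Real.cos θ := by
  rw [← m10_p_re, ← m10_pr_coe hθ]
  rfl

theorem m10_normSq (hθ : θ ∈ Ioo 0 Real.pi) (v : ℝ) :
    normSq ((pr (Real.exp v) θ : ℍ) : ℂ) = (Real.exp v) ^ 2 := by
  rw [m10_pr_coe hθ, Complex.normSq_apply, m10_p_im, m10_p_re]
  nlinarith [Real.sin_sq_add_cos_sq θ]

/-- decay on the ray -/
theorem m10_dec {ν : ℂ} {ε : ℝ} {a : ℕ → ℂ} (F : Frame0 ν ε a f) (hθ : θ ∈ Ioo 0 Real.pi) :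
    ∃ K σ : ℝ, 0 < σ ∧ ∀ v : ℝ, ‖f (pr (Real.exp v) θ)‖ ≤ K * Real.exp (-(σ * |v|)) ∧
      ‖m10_a f θ v‖ ≤ K * Real.exp (-(σ * |v|)) ∧ ‖m10_b f θ v‖ ≤ K * Real.exp (-(σ * |v|)) := by
  have hs : 0 < Real.sin θ := Real.sin_pos_of_pos_of_lt_pi hθ.1 hθ.2
  obtain ⟨C, c, hc, h⟩ := F.dec
  obtain ⟨C', c', hc', h'⟩ := F.decd
  set σ := min (c * Real.sin θ) (c' * Real.sin θ) with hσ
  have hσ0 : 0 < σ := lt_min (by positivity) (by positivity)
  have key : ∀ (A D d : ℝ) (v : ℝ), σ ≤ d → A ≤ |D| * Real.exp (-(d * |v|)) →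
      |D| ≤ |C| + |C'| / Real.sin θ → A ≤ (|C| + |C'| / Real.sin θ) * Real.exp (-(σ * |v|)) := by
    intro A D d v hd hA hD
    refine hA.trans (mul_le_mul hD ?_ (Real.exp_pos _).le (by positivity))
    rw [Real.exp_le_exp]
    have := mul_le_mul_of_nonneg_right hd (abs_nonneg v)
    linarith
  have hgrad : ∀ v : ℝ, Real.exp v * (‖dX f (pr (Real.exp v) θ)‖ + ‖dY f (pr (Real.exp v) θ)‖) ≤
      |C' / Real.sin θ| * Real.exp (-(c' * Real.sin θ * |v|)) := by
    intro v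
    obtain ⟨g1, g2⟩ := h' (pr (Real.exp v) θ)
    rw [m10_coe_im hθ] at g1
    rw [m10_normSq hθ, m10_coe_im hθ] at g2
    have g3 := m10_min hc' hs v g1 g2
    rw [abs_div, abs_of_pos hs, div_mul_eq_mul_div, le_div_iff₀ hs]
    linarith
  have hD1 : |C' / Real.sin θ| ≤ |C| + |C'| / Real.sin θ := by
    rw [abs_div, abs_of_pos hs]
    linarith [abs_nonneg C]
  have hcos := Real.abs_cos_le_one θ
  have hsin : |Real.sin θ| ≤ 1 := Real.abs_sin_le_one θ
  refine ⟨|C| + |C'| / Real.sin θ, σ, hσ0, fun v => ⟨?_, ?_, ?_⟩⟩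
  · obtain ⟨g1, g2⟩ := h (pr (Real.exp v) θ)
    rw [m10_coe_im hθ] at g1
    rw [m10_normSq hθ, m10_coe_im hθ] at g2
    refine key _ C (c * Real.sin θ) v (min_le_left _ _) (m10_min hc hs v g1 g2) ?_
    have : 0 ≤ |C'| / Real.sin θ := by positivity
    linarith
  · refine key _ (C' / Real.sin θ) (c' * Real.sin θ) v (min_le_right _ _) ?_ hD1
    refine le_trans ?_ (hgrad v)
    rw [m10_a_eq F.smooth hθ]
    refine (norm_add_le _ _).trans ?_
    rw [norm_mul, norm_mul, Complex.norm_real, Complex.norm_real, Real.norm_eq_abs,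
      Real.norm_eq_abs, abs_mul, abs_mul, abs_of_pos (Real.exp_pos v), mul_add]
    refine add_le_add ?_ ?_
    · refine mul_le_mul_of_nonneg_right ?_ (norm_nonneg _)
      exact mul_le_of_le_one_right (Real.exp_pos v).le hcos
    · refine mul_le_mul_of_nonneg_right ?_ (norm_nonneg _)
      exact mul_le_of_le_one_right (Real.exp_pos v).le hsin
  · refine key _ (C' / Real.sin θ) (c' * Real.sin θ) v (min_le_right _ _) ?_ hD1
    refine le_trans ?_ (hgrad v)
    rw [m10_b_eq F.smooth hθ]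
    refine (norm_sub_le _ _).trans ?_
    rw [norm_mul, norm_mul, Complex.norm_real, Complex.norm_real, Real.norm_eq_abs,
      Real.norm_eq_abs, abs_mul, abs_mul, abs_of_pos (Real.exp_pos v), mul_add, add_comm]
    refine add_le_add ?_ ?_
    · refine mul_le_mul_of_nonneg_right ?_ (norm_nonneg _)
      exact mul_le_of_le_one_right (Real.exp_pos v).le hsin
    · refine mul_le_mul_of_nonneg_right ?_ (norm_nonneg _)
      exact mul_le_of_le_one_right (Real.exp_pos v).le hcos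

theorem m10_integrable {h : ℝ → ℂ} (hc : Continuous h) {K σ : ℝ} (hσ : 0 < σ)
    (hb : ∀ v, ‖h v‖ ≤ K * Real.exp (-(σ * |v|))) :
    Integrable h ∧ Integrable (fun v => ‖h v‖ ^ 2) := by
  constructor
  · exact ((SP.f2_int hσ).const_mul K).mono' hc.aestronglyMeasurable (ae_of_all _ hb)
  · refine ((SP.f2_int (σ := 2 * σ) (by positivity)).const_mul (K ^ 2)).mono'
      (hc.norm.pow 2).aestronglyMeasurable (ae_of_all _ fun v => ?_)
    rw [Real.norm_eq_abs, abs_of_nonneg (by positivity)]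
    calc ‖h v‖ ^ 2 ≤ (K * Real.exp (-(σ * |v|))) ^ 2 :=
          pow_le_pow_left₀ (norm_nonneg _) (hb v) 2
      _ = K ^ 2 * Real.exp (-(2 * σ * |v|)) := by
          rw [mul_pow, ← Real.exp_nat_mul]
          congr 2
          push_cast
          ring

/-- `χ` on the ray -/
theorem m10_chi (hf : ContDiffOn ℝ 2 (fun z : ℂ => f (ofComplex z)) {z | 0 < z.im})
    (hθ : θ ∈ Ioo 0 Real.pi) (v : ℝ) : chi f (pr (Real.exp v) θ) =
      ((-2 * Real.sin θ ^ 2 * (m10_a f θ v * conj (m10_b f θ v)).im : ℝ) : ℂ) := by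
  unfold chi
  rw [m10_a_eq hf hθ, m10_b_eq hf hθ, m10_coe_im hθ]
  congr 1
  set x := dX f (pr (Real.exp v) θ)
  set y := dY f (pr (Real.exp v) θ)
  set e := Real.exp v
  have h1 := Real.sin_sq_add_cos_sq θ
  simp only [Complex.mul_im, Complex.mul_re, Complex.add_im, Complex.add_re, Complex.sub_im,
    Complex.sub_re, Complex.conj_im, Complex.conj_re, Complex.ofReal_re, Complex.ofReal_im, map_sub,
    map_mul, Complex.conj_ofReal]
  have h2 : Real.cos θ ^ 2 = 1 - Real.sin θ ^ 2 := by linarith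
  ring_nf
  simp only [h2]
  ring

theorem m10_ray_chi (hf : ContDiffOn ℝ 2 (fun z : ℂ => f (ofComplex z)) {z | 0 < z.im})
    (hθ : θ ∈ Ioo 0 Real.pi) : ray (chi f) θ =
      ((-2 * Real.sin θ ^ 2 * ∫ v : ℝ, (m10_a f θ v * conj (m10_b f θ v)).im : ℝ) : ℂ) := by
  have h1 : ray (chi f) θ = ∫ r in Ioi (0 : ℝ), chi f (pr r θ) / r := rfl
  rw [h1, m10_exp (fun r => chi f (pr r θ) / r), ← integral_const_mul, ← integral_complex_ofReal]
  congr 1
  funext v
  have h0 : ((Real.exp v : ℝ) : ℂ) ≠ 0 := by exact_mod_cast (Real.exp_pos v).ne'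
  rw [mul_div_cancel₀ _ h0, m10_chi hf hθ]

end ray

/-! ### Integrability in `t` -/

section tint

variable {ν : ℂ} {ε : ℝ} {a : ℕ → ℂ} {f : ℍ → ℂ} {L : ℂ → ℂ}

theorem m10_L_cont (hL : LFun ν ε a f L) : Continuous (fun t : ℝ => L (ha t)) := by
  refine hL.diff.continuous.comp ?_
  unfold ha
  fun_prop

theorem m10_pow {c t : ℝ} (hc : 0 < c) (ht : 1 ≤ t) :
    t * Real.exp (-(c * t)) ≤ 6 / c ^ 3 * t ^ (-(2 : ℝ)) := by
  have h1 := Real.pow_div_factorial_le_exp (c * t) (by positivity) 3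
  have ht0 : 0 < t := by linarith
  rw [Real.rpow_neg ht0.le, Real.rpow_two, Real.exp_neg]
  have h2 : (c * t) ^ 3 / 6 ≤ Real.exp (c * t) := by
    simpa [Nat.factorial] using h1
  have h3 : 0 < (c * t) ^ 3 / 6 := by positivity
  calc t * (Real.exp (c * t))⁻¹ ≤ t * ((c * t) ^ 3 / 6)⁻¹ :=
        mul_le_mul_of_nonneg_left (inv_anti₀ h3 h2) ht0.le
    _ = _ := by field_simp

theorem m10_wt (F : Frame0 ν ε a f) (hL : LFun ν ε a f L) {c : ℝ} (hc : 0 < c) :
    Integrable (fun t : ℝ => |t| * ‖L (ha t)‖ ^ 2 * Real.exp (-(c * |t|))) := by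
  have hg := growth_int F hL (α := 2) (by norm_num)
  have hLc := m10_L_cont hL
  have hcont : Continuous (fun t : ℝ => |t| * ‖L (ha t)‖ ^ 2 * Real.exp (-(c * |t|))) :=
    (continuous_abs.mul (hLc.norm.pow 2)).mul
      (Real.continuous_exp.comp (continuous_const.mul continuous_abs).neg)
  set h : ℝ → ℝ := fun t => |t| * ‖L (ha t)‖ ^ 2 * Real.exp (-(c * |t|)) with hh
  have hpos : ∀ t, 0 ≤ h t := fun t => by positivity
  have hbd : ∀ t : ℝ, 1 ≤ t → h t + h (-t) ≤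
      6 / c ^ 3 * ((‖L (ha t)‖ ^ 2 + ‖L (ha (-t))‖ ^ 2) * t ^ (-(2 : ℝ))) := by
    intro t ht
    simp only [hh, abs_neg, abs_of_pos (by linarith : (0 : ℝ) < t)]
    have h1 := m10_pow hc ht
    calc t * ‖L (ha t)‖ ^ 2 * Real.exp (-(c * t)) + t * ‖L (ha (-t))‖ ^ 2 * Real.exp (-(c * t)) =
        (‖L (ha t)‖ ^ 2 + ‖L (ha (-t))‖ ^ 2) * (t * Real.exp (-(c * t))) := by ring
      _ ≤ (‖L (ha t)‖ ^ 2 + ‖L (ha (-t))‖ ^ 2) * (6 / c ^ 3 * t ^ (-(2 : ℝ))) :=
          mul_le_mul_of_nonneg_left h1 (by positivity)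
      _ = _ := by ring
  have i1 : IntegrableOn h (Ici 1) := by
    refine Integrable.mono' (hg.const_mul (6 / c ^ 3)) hcont.aestronglyMeasurable ?_
    refine (ae_restrict_iff' measurableSet_Ici).2 (ae_of_all _ fun t ht => ?_)
    rw [Real.norm_eq_abs, abs_of_nonneg (hpos t)]
    have := hbd t ht
    have := hpos (-t)
    linarith
  have i2 : IntegrableOn (fun t => h (-t)) (Ici 1) := by
    refine Integrable.mono' (hg.const_mul (6 / c ^ 3))
      (hcont.comp continuous_neg).aestronglyMeasurable ?_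
    refine (ae_restrict_iff' measurableSet_Ici).2 (ae_of_all _ fun t ht => ?_)
    rw [Real.norm_eq_abs, abs_of_nonneg (hpos _)]
    have := hbd t ht
    have := hpos t
    linarith
  have i3 : IntegrableOn h (Iic (-1)) := by
    rw [← integrable_indicator_iff measurableSet_Iic]
    rw [← integrable_indicator_iff measurableSet_Ici] at i2
    refine (i2.comp_neg).congr (ae_of_all _ fun t => ?_)
    change (Ici (1 : ℝ)).indicator (fun t => h (-t)) (-t) = (Iic (-1 : ℝ)).indicator h t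
    by_cases ht : t ≤ -1
    · rw [indicator_of_mem (show t ∈ Iic (-1 : ℝ) from ht),
        indicator_of_mem (show -t ∈ Ici (1 : ℝ) from by simp only [mem_Ici]; linarith), neg_neg]
    · rw [indicator_of_notMem (show t ∉ Iic (-1 : ℝ) from ht),
        indicator_of_notMem (show -t ∉ Ici (1 : ℝ) from by
          simp only [mem_Ici, not_le]; linarith [not_le.1 ht])]
  have i4 : IntegrableOn h (Icc (-1) 1) := hcont.continuousOn.integrableOn_Icc
  have i5 := (i3.union i4).union i1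
  have e : (Iic (-1 : ℝ) ∪ Icc (-1) 1) ∪ Ici 1 = univ := by
    ext t
    simp only [mem_union, mem_Iic, mem_Icc, mem_Ici, mem_univ, iff_true]
    rcases le_total t (-1) with h1 | h1
    · exact Or.inl (Or.inl h1)
    · rcases le_total t 1 with h2 | h2
      · exact Or.inl (Or.inr ⟨h1, h2⟩)
      · exact Or.inr h2
  rw [e, integrableOn_univ] at i5
  exact i5

/-- the bounds of `Gs` and of its derivative near a real point -/
theorem m10_Gs (F : Frame0 ν ε a f) {θ : ℝ} (hθ : θ ∈ Ioo 0 Real.pi) :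
    ∃ α C r : ℝ, 0 < α ∧ 0 < r ∧ 0 ≤ C ∧ ∀ θ' ∈ Metric.ball θ r, θ' ∈ Ioo 0 Real.pi ∧ ∀ t : ℝ,
      ‖Gs ν ε (ha t) (θ' : ℝ)‖ ≤ C * Real.exp (-(α * |t|)) ∧
      ‖deriv (fun z : ℂ => Gs ν ε (ha t) z) (θ' : ℝ)‖ ≤ C * Real.exp (-(α * |t|)) ∧
      HasDerivAt (fun x : ℝ => Gs ν ε (ha t) (x : ℝ))
        (deriv (fun z : ℂ => Gs ν ε (ha t) z) (θ' : ℝ)) θ' := by
  have hpi := Real.pi_pos
  set α : ℝ := min θ (Real.pi - θ) / 2 with hα
  have hα0 : 0 < α := by
    have : 0 < min θ (Real.pi - θ) := lt_min hθ.1 (by linarith [hθ.2])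
    linarith
  have hα1 : 2 * α ≤ θ := by
    have := min_le_left θ (Real.pi - θ)
    linarith
  have hα2 : 2 * α ≤ Real.pi - θ := by
    have := min_le_right θ (Real.pi - θ)
    linarith
  obtain ⟨C, hC⟩ := Gs_bound F.nu F.eps (R := α) hα0 (by linarith : α ≤ Real.pi / 2)
  have hC' : ∀ (t : ℝ) (z : ℂ), α ≤ z.re → z.re ≤ Real.pi - α → |z.im| ≤ α →
      ‖Gs ν ε (ha t) z‖ ≤ |C| * Real.exp (-(α * |t|)) := fun t z h1 h2 h3 =>
    (hC t z h1 h2 h3).trans (mul_le_mul_of_nonneg_right (le_abs_self C) (Real.exp_pos _).le)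
  have hnu : ∀ t : ℝ, ν.re < (ha t).re := by
    intro t
    have h1 : (ha t).re = 1 / 2 := by simp [ha]
    rw [h1]
    exact F.nu.lt_half
  refine ⟨α, |C| + |C| / (α / 2), α / 2, hα0, by linarith, by positivity, ?_⟩
  intro θ' hθ'
  rw [Metric.mem_ball, Real.dist_eq, abs_lt] at hθ'
  refine ⟨⟨by linarith [hθ'.1], by linarith [hθ'.2]⟩, fun t => ⟨?_, ?_, ?_⟩⟩
  · refine (hC' t (θ' : ℝ) ?_ ?_ ?_).trans ?_
    · rw [Complex.ofReal_re]; linarith [hθ'.1]
    · rw [Complex.ofReal_re]; linarith [hθ'.2]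
    · rw [Complex.ofReal_im, abs_zero]; exact hα0.le
    · refine mul_le_mul_of_nonneg_right ?_ (Real.exp_pos _).le
      have : 0 ≤ |C| / (α / 2) := by positivity
      linarith
  · have hd : DifferentiableOn ℂ (fun z : ℂ => Gs ν ε (ha t) z)
        (Metric.closedBall ((θ' : ℝ) : ℂ) (α / 2)) := by
      refine (Gs_diff F.nu (hnu t)).mono fun z hz => ?_
      rw [Metric.mem_closedBall, dist_eq_norm] at hz
      have h1 := (Complex.abs_re_le_norm _).trans hz
      rw [Complex.sub_re, Complex.ofReal_re, abs_le] at h1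
      exact ⟨by linarith [h1.1, hθ'.1], by linarith [h1.2, hθ'.2]⟩
    have h2 := Complex.norm_deriv_le_of_forall_mem_sphere_norm_le (c := ((θ' : ℝ) : ℂ))
      (f := fun z : ℂ => Gs ν ε (ha t) z) (by linarith : 0 < α / 2)
      (hd.diffContOnCl_ball subset_rfl) (C := |C| * Real.exp (-(α * |t|))) (fun z hz => ?_)
    · refine h2.trans ?_
      rw [mul_div_right_comm]
      refine mul_le_mul_of_nonneg_right ?_ (Real.exp_pos _).le
      linarith [abs_nonneg C]
    · rw [mem_sphere_iff_norm] at hz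
      have h1 := (Complex.abs_re_le_norm _).trans hz.le
      have h3 := (Complex.abs_im_le_norm _).trans hz.le
      rw [Complex.sub_re, Complex.ofReal_re, abs_le] at h1
      rw [Complex.sub_im, Complex.ofReal_im, sub_zero] at h3
      exact hC' t z (by linarith [h1.1, hθ'.1]) (by linarith [h1.2, hθ'.2]) (by linarith)
  · have hopen : IsOpen {z : ℂ | 0 < z.re ∧ z.re < Real.pi} :=
      (isOpen_lt continuous_const Complex.continuous_re).inter
        (isOpen_lt Complex.continuous_re continuous_const)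
    have hmem : ((θ' : ℝ) : ℂ) ∈ {z : ℂ | 0 < z.re ∧ z.re < Real.pi} := by
      refine ⟨?_, ?_⟩
      · rw [Complex.ofReal_re]; linarith [hθ'.1]
      · rw [Complex.ofReal_re]; linarith [hθ'.2]
    exact (((Gs_diff F.nu (hnu t)).differentiableAt (hopen.mem_nhds hmem)).hasDerivAt).comp_ofReal

theorem m10_sq {g : ℝ → ℂ} {g' : ℂ} {x : ℝ} (h : HasDerivAt g g' x) :
    HasDerivAt (fun x => ‖g x‖ ^ 2) (2 * (g x * conj g').re) x := by
  have h1 : HasDerivAt (fun x => (g x).re) g'.re x :=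
    (Complex.reCLM.hasFDerivAt.comp_hasDerivAt x h)
  have h2 : HasDerivAt (fun x => (g x).im) g'.im x :=
    (Complex.imCLM.hasFDerivAt.comp_hasDerivAt x h)
  have h3 := (h1.pow 2).add (h2.pow 2)
  have e1 : (fun x => ‖g x‖ ^ 2) = (fun x => (g x).re ^ 2 + (g x).im ^ 2) := by
    funext x
    rw [← Complex.normSq_eq_norm_sq, Complex.normSq_apply]
    ring
  rw [e1]
  refine h3.congr_deriv ?_
  simp
  ring

/-- M10: the derivative of `J(θ) = -(1/2π) ∫ t |L|² |G|² dt` -/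
theorem ray_chi_pr (F : Frame0 ν ε a f) (hL : LFun ν ε a f L) {θ : ℝ} (hθ : θ ∈ Ioo 0 Real.pi) :
    HasDerivAt (fun θ : ℝ => ((-(2 * Real.pi)⁻¹ *
      ∫ t : ℝ, t * (‖L (ha t)‖ ^ 2 * ‖Gs ν ε (ha t) θ‖ ^ 2) : ℝ) : ℂ))
      (-(ray (chi f) θ / ((Real.sin θ : ℝ) : ℂ) ^ 2)) θ := by
  have hs : 0 < Real.sin θ := Real.sin_pos_of_pos_of_lt_pi hθ.1 hθ.2
  have hpi := Real.pi_pos
  obtain ⟨α, C, r, hα, hr, hC, hG⟩ := m10_Gs F hθ
  have hnu : ∀ t : ℝ, ν.re < (ha t).re := by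
    intro t
    have h1 : (ha t).re = 1 / 2 := by simp [ha]
    rw [h1]
    exact F.nu.lt_half
  -- the transforms
  obtain ⟨K, σ, hσ, hK⟩ := m10_dec F hθ
  have hUd := m10_U_deriv F.smooth hθ
  have hUc : Continuous (fun v => f (pr (Real.exp v) θ)) :=
    continuous_iff_continuousAt.2 fun v => (hUd v).continuousAt
  obtain ⟨iU, -⟩ := m10_integrable hUc hσ (fun v => (hK v).1)
  obtain ⟨ia, ia2⟩ := m10_integrable (m10_a_cont F.smooth hθ) hσ (fun v => (hK v).2.1)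
  obtain ⟨ib, ib2⟩ := m10_integrable (m10_b_cont F.smooth hθ) hσ (fun v => (hK v).2.2)
  set A : ℝ → ℂ := SQS.hat (fun v => f (pr (Real.exp v) θ)) with hA
  set B : ℝ → ℂ := SQS.hat (m10_b f θ) with hB
  have hAM : ∀ t : ℝ, Mf f (ha t) θ = A t := by
    intro t
    unfold Mf
    rw [hA, ← m10_mellin (fun r => f (pr r θ))]
  have hAL : ∀ t : ℝ, L (ha t) * Gs ν ε (ha t) θ = A t := fun t => by
    rw [← hAM, hL.mf _ _ (hnu t) hθ]
  have hBM : ∀ t : ℝ, (∫ r in Ioi (0 : ℝ), (((pr r θ).re : ℂ) * dY f (pr r θ) -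
      ((pr r θ).im : ℂ) * dX f (pr r θ)) * (r : ℂ) ^ (ha t - 3 / 2)) = B t := by
    intro t
    rw [m10_mellin (fun r => ((pr r θ).re : ℂ) * dY f (pr r θ) - ((pr r θ).im : ℂ) * dX f (pr r θ)),
      hB]
    congr 1
    funext v
    rw [m10_b_eq F.smooth hθ, m10_coe_im hθ, m10_coe_re hθ]
  have hBL : ∀ t : ℝ, L (ha t) * deriv (fun z : ℂ => Gs ν ε (ha t) z) (θ : ℝ) = B t := by
    intro t
    have h1 := (Mf_deriv F (ha t) hθ).1
    rw [hBM t] at h1
    have h2 := ((hG θ (Metric.mem_ball_self hr)).2 t).2.2.const_mul (L (ha t))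
    have h3 : (fun θ => Mf f (ha t) θ) =ᶠ[𝓝 θ] fun x : ℝ => L (ha t) * Gs ν ε (ha t) (x : ℝ) := by
      filter_upwards [isOpen_Ioo.mem_nhds hθ] with x hx
      exact hL.mf _ _ (hnu t) hx
    exact (h2.congr_of_eventuallyEq h3).unique h1
  have hAc : Continuous A := by
    have h1 : Continuous (fun t : ℝ => Mf f (ha t) θ) := by
      refine (Mf_entire F hθ).continuous.comp ?_
      unfold ha
      fun_prop
    have h2 : A = fun t : ℝ => Mf f (ha t) θ := funext fun t => (hAM t).symm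
    rwa [h2]
  have hBc : Continuous B := by
    have h1 := ((Mf_deriv F (ha 0) hθ).2).continuous
    have h2 : B = fun t : ℝ => (fun s : ℂ => ∫ r in Ioi (0 : ℝ),
        (((pr r θ).re : ℂ) * dY f (pr r θ) - ((pr r θ).im : ℂ) * dX f (pr r θ)) *
          (r : ℂ) ^ (s - 3 / 2)) (ha t) := funext fun t => (hBM t).symm
    rw [h2]
    refine h1.comp ?_
    unfold ha
    fun_prop
  -- differentiation under the integral sign
  have hGc : ∀ θ' ∈ Ioo 0 Real.pi, Continuous (fun t : ℝ => Gs ν ε (ha t) (θ' : ℝ)) := by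
    intro θ' hθ'
    have h1 := (Gs_diff_s (ε := ε) F.nu (θ := ((θ' : ℝ) : ℂ))
      (by rw [Complex.ofReal_re]; exact hθ'.1) (by rw [Complex.ofReal_re]; exact hθ'.2)).continuousOn
    refine h1.comp_continuous (f := ha) ?_ (fun t => hnu t)
    unfold ha
    fun_prop
  have hLc := m10_L_cont hL
  have hwt := m10_wt F hL (c := 2 * α) (by positivity)
  have hFm : ∀ θ' ∈ Ioo 0 Real.pi, Continuous (fun t : ℝ =>
      t * (‖L (ha t)‖ ^ 2 * ‖Gs ν ε (ha t) (θ' : ℝ)‖ ^ 2)) := by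
    intro θ' hθ'
    exact continuous_id.mul ((hLc.norm.pow 2).mul ((hGc θ' hθ').norm.pow 2))
  have hexp : ∀ t : ℝ, Real.exp (-(α * |t|)) * Real.exp (-(α * |t|)) =
      Real.exp (-(2 * α * |t|)) := by
    intro t
    rw [← Real.exp_add]
    congr 1
    ring
  have key := hasDerivAt_integral_of_dominated_loc_of_deriv_le (μ := (volume : Measure ℝ))
    (𝕜 := ℝ) (x₀ := θ) (s := Metric.ball θ r) (Metric.ball_mem_nhds θ hr)
    (F := fun (x : ℝ) (t : ℝ) => t * (‖L (ha t)‖ ^ 2 * ‖Gs ν ε (ha t) (x : ℝ)‖ ^ 2))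
    (F' := fun (x : ℝ) (t : ℝ) => t * (‖L (ha t)‖ ^ 2 * (2 * (Gs ν ε (ha t) (x : ℝ) *
      conj (deriv (fun z : ℂ => Gs ν ε (ha t) z) (x : ℝ))).re)))
    (bound := fun t => 2 * C ^ 2 * (|t| * ‖L (ha t)‖ ^ 2 * Real.exp (-(2 * α * |t|))))
    ?_ ?_ ?_ ?_ ?_ ?_
  rotate_left
  · filter_upwards [isOpen_Ioo.mem_nhds hθ] with x hx
    exact (hFm x hx).aestronglyMeasurable
  · refine (hwt.const_mul (C ^ 2)).mono' (hFm θ hθ).aestronglyMeasurable (ae_of_all _ fun t => ?_)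
    have h1 := ((hG θ (Metric.mem_ball_self hr)).2 t).1
    rw [Real.norm_eq_abs, abs_mul, abs_of_nonneg (by positivity :
      0 ≤ ‖L (ha t)‖ ^ 2 * ‖Gs ν ε (ha t) (θ : ℝ)‖ ^ 2)]
    calc |t| * (‖L (ha t)‖ ^ 2 * ‖Gs ν ε (ha t) (θ : ℝ)‖ ^ 2) ≤
        |t| * (‖L (ha t)‖ ^ 2 * (C * Real.exp (-(α * |t|))) ^ 2) := by
          refine mul_le_mul_of_nonneg_left (mul_le_mul_of_nonneg_left ?_ (by positivity))
            (abs_nonneg t)
          exact pow_le_pow_left₀ (norm_nonneg _) h1 2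
      _ = _ := by rw [← hexp t]; ring
  · have e : (fun t : ℝ => t * (‖L (ha t)‖ ^ 2 * (2 * (Gs ν ε (ha t) (θ : ℝ) *
        conj (deriv (fun z : ℂ => Gs ν ε (ha t) z) (θ : ℝ))).re))) =
        fun t => t * (2 * (A t * conj (B t)).re) := by
      funext t
      rw [← hAL, ← hBL, map_mul]
      have e2 : L (ha t) * Gs ν ε (ha t) (θ : ℝ) * (conj (L (ha t)) *
          conj (deriv (fun z : ℂ => Gs ν ε (ha t) z) (θ : ℝ))) =
          ((‖L (ha t)‖ ^ 2 : ℝ) : ℂ) * (Gs ν ε (ha t) (θ : ℝ) *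
            conj (deriv (fun z : ℂ => Gs ν ε (ha t) z) (θ : ℝ))) := by
        rw [← Complex.normSq_eq_norm_sq, ← Complex.mul_conj]
        ring
      rw [e2, Complex.re_ofReal_mul]
      ring
    rw [e]
    refine Continuous.aestronglyMeasurable ?_
    have h1 : Continuous (fun t => (A t * conj (B t)).re) :=
      Complex.continuous_re.comp (hAc.mul (Complex.continuous_conj.comp hBc))
    fun_prop
  · refine ae_of_all _ fun t x hx => ?_
    obtain ⟨h1, h2, -⟩ := (hG x hx).2 t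
    rw [Real.norm_eq_abs, abs_mul, abs_mul, abs_mul, abs_two, abs_of_nonneg (by positivity :
      0 ≤ ‖L (ha t)‖ ^ 2)]
    have h3 : |(Gs ν ε (ha t) (x : ℝ) *
        conj (deriv (fun z : ℂ => Gs ν ε (ha t) z) (x : ℝ))).re| ≤
        (C * Real.exp (-(α * |t|))) * (C * Real.exp (-(α * |t|))) := by
      refine (Complex.abs_re_le_norm _).trans ?_
      rw [norm_mul, RCLike.norm_conj]
      exact mul_le_mul h1 h2 (norm_nonneg _) (by positivity)
    calc |t| * (‖L (ha t)‖ ^ 2 * (2 * |(Gs ν ε (ha t) (x : ℝ) *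
        conj (deriv (fun z : ℂ => Gs ν ε (ha t) z) (x : ℝ))).re|)) ≤
        |t| * (‖L (ha t)‖ ^ 2 * (2 * ((C * Real.exp (-(α * |t|))) *
          (C * Real.exp (-(α * |t|)))))) := by
          refine mul_le_mul_of_nonneg_left (mul_le_mul_of_nonneg_left ?_ (by positivity))
            (abs_nonneg t)
          linarith
      _ = _ := by rw [← hexp t]; ring
  · exact hwt.const_mul _
  · refine ae_of_all _ fun t x hx => ?_
    exact ((m10_sq ((hG x hx).2 t).2.2).const_mul (‖L (ha t)‖ ^ 2)).const_mul t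
  -- the value of the derivative
  have hval : ∫ t : ℝ, t * (‖L (ha t)‖ ^ 2 * (2 * (Gs ν ε (ha t) (θ : ℝ) *
      conj (deriv (fun z : ℂ => Gs ν ε (ha t) z) (θ : ℝ))).re)) =
      2 * (2 * Real.pi) * -(∫ v : ℝ, (m10_a f θ v * conj (m10_b f θ v)).im) := by
    have h1 := m10_pars ia ib ia2 ib2
    rw [mul_assoc, mul_neg, ← h1, ← integral_neg, ← integral_const_mul]
    congr 1
    funext t
    rw [m10_hat_deriv hUd iU ia t]
    have e2 : ((‖L (ha t)‖ ^ 2 : ℝ) : ℂ) * (Gs ν ε (ha t) (θ : ℝ) *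
            conj (deriv (fun z : ℂ => Gs ν ε (ha t) z) (θ : ℝ))) = A t * conj (B t) := by
      rw [← hAL, ← hBL, map_mul, ← Complex.normSq_eq_norm_sq, ← Complex.mul_conj]
      ring
    have e3 : ‖L (ha t)‖ ^ 2 * (Gs ν ε (ha t) (θ : ℝ) *
            conj (deriv (fun z : ℂ => Gs ν ε (ha t) z) (θ : ℝ))).re = (A t * conj (B t)).re := by
      rw [← e2, Complex.re_ofReal_mul]
    have e4 : (-(t * I) * SQS.hat (fun v => f (pr (Real.exp v) θ)) t *
        conj (SQS.hat (m10_b f θ) t)).im = -(t * (A t * conj (B t)).re) := by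
      have e5 : -(t * I) * SQS.hat (fun v => f (pr (Real.exp v) θ)) t *
        conj (SQS.hat (m10_b f θ) t) = ((-t : ℝ) : ℂ) * (I * (A t * conj (B t))) := by
        rw [hA, hB]
        push_cast
        ring
      rw [e5, Complex.im_ofReal_mul, Complex.I_mul_im]
      ring
    rw [e4, ← e3]
    ring
  have h1 := (key.2.const_mul (-(2 * Real.pi)⁻¹)).ofReal_comp
  refine h1.congr_deriv ?_
  rw [hval, m10_ray_chi F.smooth hθ]
  have hs' : ((Real.sin θ : ℝ) : ℂ) ≠ 0 := by exact_mod_cast hs.ne'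
  have hpi' : ((Real.pi : ℝ) : ℂ) ≠ 0 := by exact_mod_cast hpi.ne'
  push_cast
  push_cast at hs'
  field_simp

end tint

end Pool.Agent.JO.FM

namespace Pool.Agent.JO.FM

theorem ray_chi : type_of% @ray_chi_pr := @ray_chi_pr

end Pool.Agent.JO.FM
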