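import Pool.Agent.Lib_helper45.JO.Defs2
import Pool.Agent.Lib_helper45.JOM.D2
import Pool.Agent.Lib_helper45.JOM.D4D
import Pool.Agent.Lib_helper45.JOM.D5A
import Pool.Agent.Lib_helper45.JOM.D5B
import Pool.Agent.Lib_helper45.JOM.K2
import Pool.Agent.Lib_helper45.JOM.M10
import Pool.Agent.Lib_helper45.JOM.P6

/-! Project JO, part FM, block D5: the transform `D_χ` -/

set_option autoImplicit false

namespace Pool.Agent.JO.FM

open Complex Filter Topology MeasureTheory Set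
open UpperHalfPlane hiding I
open scoped MatrixGroups ComplexConjugate

variable {ν : ℂ} {ε : ℝ} {a : ℕ → ℂ} {f : ℍ → ℂ} {L : ℂ → ℂ}

theorem d5_pr {r θ : ℝ} (hr : 0 < r) (hθ : θ ∈ Ioo 0 Real.pi) :
    (pr r θ).im = r * Real.sin θ ∧ normSq ((pr r θ : ℍ) : ℂ) = r ^ 2 := by
  have hs : 0 < Real.sin θ := Real.sin_pos_of_pos_of_lt_pi hθ.1 hθ.2
  have h1 : ((r : ℂ) * cexp (θ * I)).im = r * Real.sin θ := by
    rw [Complex.im_ofReal_mul, Complex.exp_ofReal_mul_I_im]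
  have h2 : ((pr r θ : ℍ) : ℂ) = (r : ℂ) * cexp (θ * I) := by
    unfold pr
    rw [ofComplex_apply_of_im_pos (by rw [h1]; positivity)]
  constructor
  · rw [← h1, ← h2]
    rfl
  · rw [h2, Complex.normSq_eq_norm_sq, norm_mul, Complex.norm_exp_ofReal_mul_I, mul_one,
      Complex.norm_real, Real.norm_of_nonneg hr.le]

/-- the size of the ray integral of `chi` -/
theorem d5_ray (F : Frame0 ν ε a f) : ∃ C : ℝ, 0 ≤ C ∧ ∀ θ : ℝ, θ ∈ Ioo 0 Real.pi →
    ‖ray (chi f) θ‖ ≤ C / Real.sin θ := by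
  obtain ⟨C, c, hc, h⟩ := F.decd
  refine ⟨C ^ 2 / c, by positivity, fun θ hθ => ?_⟩
  have hs : 0 < Real.sin θ := Real.sin_pos_of_pos_of_lt_pi hθ.1 hθ.2
  set k : ℝ := 2 * c * Real.sin θ with hk
  have hk0 : 0 < k := by positivity
  have hchi : ∀ (z : ℍ) (B : ℝ), z.im * (‖dX f z‖ + ‖dY f z‖) ≤ C * B →
      ‖chi f z‖ ≤ C ^ 2 * B ^ 2 := by
    intro z B hB
    have hy := z.im_pos
    have h1 : |(conj (dX f z) * dY f z).im| ≤ ‖dX f z‖ * ‖dY f z‖ := by
      refine (Complex.abs_im_le_norm _).trans ?_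
      rw [norm_mul, RCLike.norm_conj]
    have h2 : ‖chi f z‖ ≤ 2 * z.im ^ 2 * (‖dX f z‖ * ‖dY f z‖) := by
      unfold chi
      rw [Complex.norm_real, Real.norm_eq_abs, abs_mul, abs_of_nonneg (by positivity)]
      gcongr
    have h3 : 0 ≤ z.im * (‖dX f z‖ + ‖dY f z‖) := by positivity
    have h4 : (z.im * (‖dX f z‖ + ‖dY f z‖)) ^ 2 ≤ (C * B) ^ 2 := by gcongr
    have h5 := norm_nonneg (dX f z)
    have h6 := norm_nonneg (dY f z)
    calc ‖chi f z‖ ≤ 2 * z.im ^ 2 * (‖dX f z‖ * ‖dY f z‖) := h2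
      _ ≤ (z.im * (‖dX f z‖ + ‖dY f z‖)) ^ 2 := by
        have : 0 ≤ z.im ^ 2 * (‖dX f z‖ ^ 2 + ‖dY f z‖ ^ 2) := by positivity
        nlinarith
      _ ≤ (C * B) ^ 2 := h4
      _ = _ := by ring
  have hb : ∀ r : ℝ, 0 < r → ‖chi f (pr r θ) / r‖ ≤
      (Ioc (0 : ℝ) 1).indicator (fun _ => C ^ 2 / k) r + C ^ 2 * Real.exp (-k * r) := by
    intro r hr
    obtain ⟨e1, e2⟩ := d5_pr hr hθ
    obtain ⟨h1, h2⟩ := h (pr r θ)
    rw [norm_div, Complex.norm_real, Real.norm_of_nonneg hr.le]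
    by_cases hr1 : r ≤ 1
    · rw [indicator_of_mem (show r ∈ Ioc (0 : ℝ) 1 from ⟨hr, hr1⟩)]
      have h3 := hchi _ _ h2
      rw [e1, e2] at h3
      have h4 : Real.exp (-(c * (r * Real.sin θ / r ^ 2))) ^ 2 = Real.exp (-(k / r)) := by
        rw [← Real.exp_nat_mul]
        congr 1
        rw [hk]
        field_simp
        push_cast
        ring
      rw [h4] at h3
      have h5 : Real.exp (-(k / r)) ≤ r / k := by
        rw [Real.exp_neg, ← one_div, div_le_div_iff₀ (Real.exp_pos _) hk0, one_mul]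
        have := Real.add_one_le_exp (k / r)
        have h6 : k = r * (k / r) := by field_simp
        nlinarith
      have h6 : 0 ≤ C ^ 2 * Real.exp (-k * r) := by positivity
      have h7 : ‖chi f (pr r θ)‖ / r ≤ C ^ 2 / k := by
        rw [div_le_iff₀ hr]
        calc ‖chi f (pr r θ)‖ ≤ C ^ 2 * Real.exp (-(k / r)) := h3
          _ ≤ C ^ 2 * (r / k) := by gcongr
          _ = _ := by ring
      linarith
    · push Not at hr1
      rw [indicator_of_notMem (fun hh => by linarith [hh.2]), zero_add]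
      have h3 := hchi _ _ h1
      rw [e1] at h3
      have h4 : Real.exp (-(c * (r * Real.sin θ))) ^ 2 = Real.exp (-k * r) := by
        rw [← Real.exp_nat_mul]
        congr 1
        rw [hk]
        push_cast
        ring
      rw [h4] at h3
      exact (div_le_self (norm_nonneg _) hr1.le).trans h3
  have hi1 : IntegrableOn (fun r : ℝ => (Ioc (0 : ℝ) 1).indicator (fun _ => C ^ 2 / k) r)
      (Ioi 0) := by
    apply Integrable.integrableOn
    rw [integrable_indicator_iff measurableSet_Ioc]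
    exact integrableOn_const (by simp)
  have hi2 : IntegrableOn (fun r : ℝ => C ^ 2 * Real.exp (-k * r)) (Ioi 0) :=
    (integrableOn_exp_mul_Ioi (by linarith) 0).const_mul _
  have hle : ‖ray (chi f) θ‖ ≤ ∫ r in Ioi (0 : ℝ),
      ((Ioc (0 : ℝ) 1).indicator (fun _ => C ^ 2 / k) r + C ^ 2 * Real.exp (-k * r)) := by
    unfold ray
    refine norm_integral_le_of_norm_le (hi1.add hi2) ?_
    refine (ae_restrict_iff' measurableSet_Ioi).2 (Eventually.of_forall fun r hr => ?_)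
    exact hb r hr
  refine hle.trans ?_
  rw [integral_add hi1 hi2, integral_const_mul, integral_exp_mul_Ioi (by linarith),
    setIntegral_indicator measurableSet_Ioc]
  have h1 : Ioi (0 : ℝ) ∩ Ioc 0 1 = Ioc 0 1 := by
    ext x; simp only [mem_inter_iff, mem_Ioi, mem_Ioc]; tauto
  rw [h1, setIntegral_const]
  simp only [Measure.real, Real.volume_Ioc, sub_zero, ENNReal.ofReal_one, ENNReal.toReal_one,
    one_smul, mul_zero, Real.exp_zero]
  rw [hk]
  apply le_of_eq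
  field_simp
  norm_num


/-! ### bounds for the Whittaker function -/

theorem d5_pow {p x : ℝ} (hp : 0 ≤ p) (hp3 : p ≤ 3) (hx : 0 < x) :
    x ^ p * Real.exp (-x) ≤ 6 := by
  have he := Real.exp_pos x
  rw [Real.exp_neg, ← div_eq_mul_inv, div_le_iff₀ he]
  rcases le_total x 1 with h | h
  · have h1 : x ^ p ≤ 1 := Real.rpow_le_one hx.le h hp
    have h2 : 1 ≤ Real.exp x := Real.one_le_exp hx.le
    linarith
  · have h1 : x ^ p ≤ x ^ (3 : ℝ) := Real.rpow_le_rpow_of_exponent_le h hp3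
    have h2 := Real.pow_div_factorial_le_exp (x := x) hx.le 3
    have h3 : x ^ (3 : ℝ) = x ^ 3 := by
      rw [← Real.rpow_natCast]; norm_num
    rw [h3] at h1
    have h4 : ((Nat.factorial 3 : ℕ) : ℝ) = 6 := by norm_num [Nat.factorial]
    rw [h4, div_le_iff₀ (by norm_num)] at h2
    linarith

theorem d5_WW (hν : GoodNu ν) : ∃ C : ℝ, 0 ≤ C ∧ ∀ x : ℝ, 0 < x → ‖WW ν x‖ ^ 2 ≤ C ∧
    ‖WW ν x‖ ^ 2 ≤ C * x ^ (-(5 / 4) : ℝ) := by
  have h0 := hν.nonneg
  have h1 := hν.lt_half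
  set b : ℝ := (ν.re + 1 / 2) / 2 with hb
  obtain ⟨C, hC⟩ := WW_bound hν (b := b) (by linarith)
  refine ⟨6 * C ^ 2, by positivity, fun x hx => ?_⟩
  have h2 := (hC x hx).1
  have h3 : ‖WW ν x‖ ^ 2 ≤ C ^ 2 * (x ^ (1 - 2 * b) * Real.exp (-x)) := by
    calc ‖WW ν x‖ ^ 2 ≤ (C * x ^ (1 / 2 - b) * Real.exp (-(x / 2))) ^ 2 := by gcongr
      _ = C ^ 2 * ((x ^ (1 / 2 - b)) ^ 2 * Real.exp (-(x / 2)) ^ 2) := by ring
      _ = _ := by
        have e1 : (x ^ (1 / 2 - b)) ^ 2 = x ^ (1 - 2 * b) := by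
          rw [← Real.rpow_natCast, ← Real.rpow_mul hx.le]
          congr 1
          push_cast
          ring
        have e2 : Real.exp (-(x / 2)) ^ 2 = Real.exp (-x) := by
          rw [← Real.exp_nat_mul]
          congr 1
          push_cast
          ring
        rw [e1, e2]
  constructor
  · refine h3.trans ?_
    have := d5_pow (p := 1 - 2 * b) (by linarith) (by linarith) hx
    nlinarith [sq_nonneg C]
  · have h4 : x ^ (1 - 2 * b) = x ^ (-(5 / 4) : ℝ) * x ^ (9 / 4 - 2 * b) := by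
      rw [← Real.rpow_add hx]
      congr 1
      ring
    have h5 := d5_pow (p := 9 / 4 - 2 * b) (by linarith) (by linarith) hx
    have h6 : 0 < x ^ (-(5 / 4) : ℝ) := by positivity
    calc ‖WW ν x‖ ^ 2 ≤ C ^ 2 * (x ^ (1 - 2 * b) * Real.exp (-x)) := h3
      _ = C ^ 2 * x ^ (-(5 / 4) : ℝ) * (x ^ (9 / 4 - 2 * b) * Real.exp (-x)) := by
        rw [h4]; ring
      _ ≤ C ^ 2 * x ^ (-(5 / 4) : ℝ) * 6 := by gcongr
      _ = _ := by ring

theorem d5_WW_cont (ν : ℂ) : ContinuousOn (WW ν) (Ioi 0) := fun _ hx =>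
  (WW_deriv ν hx).1.continuousAt.continuousWithinAt

/-! ### the functions on the critical line -/

/-- the symmetric and the antisymmetric part -/
noncomputable def d5e (L : ℂ → ℂ) (t : ℝ) : ℝ := ‖L (ha t)‖ ^ 2 + ‖L (ha (-t))‖ ^ 2
noncomputable def d5o (L : ℂ → ℂ) (t : ℝ) : ℝ := ‖L (ha t)‖ ^ 2 - ‖L (ha (-t))‖ ^ 2

theorem d5_cont1 (hL : LFun ν ε a f L) : Continuous fun t : ℝ => ‖L (ha t)‖ ^ 2 := by
  have h1 : Continuous fun t : ℝ => ha t := by unfold ha; fun_prop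
  exact (hL.diff.continuous.comp h1).norm.pow 2

theorem d5_cont2 (hL : LFun ν ε a f L) : Continuous fun t : ℝ => ‖L (ha (-t))‖ ^ 2 := by
  have h1 : Continuous fun t : ℝ => ha (-t) := by unfold ha; fun_prop
  exact (hL.diff.continuous.comp h1).norm.pow 2

theorem d5_o_le (L : ℂ → ℂ) (t : ℝ) : |d5o L t| ≤ d5e L t := by
  unfold d5o d5e
  rw [abs_le]
  constructor <;> nlinarith [sq_nonneg ‖L (ha t)‖, sq_nonneg ‖L (ha (-t))‖]

theorem d5_e_nonneg (L : ℂ → ℂ) (t : ℝ) : 0 ≤ d5e L t := by unfold d5e; positivity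

theorem d5_o_cont (hL : LFun ν ε a f L) : Continuous (d5o L) := (d5_cont1 hL).sub (d5_cont2 hL)

theorem d5_e_cont (hL : LFun ν ε a f L) : Continuous (d5e L) := (d5_cont1 hL).add (d5_cont2 hL)

/-- integrability of `h` times a power, if `|h| ≤ C l_e` -/
theorem d5_int (F : Frame0 ν ε a f) (hL : LFun ν ε a f L) {h : ℝ → ℝ} {C β : ℝ}
    (hc : ContinuousOn h (Ici 1)) (hb : ∀ t, 1 ≤ t → |h t| ≤ C * (d5e L t * t ^ (-β))) {α : ℝ}
    (hα : 9 / 8 < α + β) : IntegrableOn (fun t : ℝ => h t * t ^ (-α)) (Ici 1) := by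
  have h1 : IntegrableOn (fun t : ℝ => C * (d5e L t * t ^ (-(α + β)))) (Ici 1) :=
    (growth_int F hL hα).const_mul C
  refine Integrable.mono' h1 ?_ ?_
  · apply ContinuousOn.aestronglyMeasurable _ measurableSet_Ici
    refine hc.mul (continuousOn_id.rpow_const (fun t ht => Or.inl ?_))
    have : (1 : ℝ) ≤ t := ht
    exact ne_of_gt (by simp only [id]; linarith)
  · refine (ae_restrict_iff' measurableSet_Ici).2 (Eventually.of_forall fun t ht => ?_)
    have ht1 : (1 : ℝ) ≤ t := ht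
    have ht0 : 0 < t := by linarith
    rw [norm_mul, Real.norm_eq_abs, Real.norm_of_nonneg (by positivity : 0 ≤ t ^ (-α))]
    calc |h t| * t ^ (-α) ≤ (C * (d5e L t * t ^ (-β))) * t ^ (-α) := by
          gcongr
          exact hb t ht1
      _ = C * (d5e L t * (t ^ (-β) * t ^ (-α))) := by ring
      _ = C * (d5e L t * t ^ (-(α + β))) := by
        rw [← Real.rpow_add ht0]
        congr 3
        ring

/-- holomorphy of the Dirichlet integral -/
theorem d5_hol {h : ℝ → ℝ} {α : ℝ} (hc : ContinuousOn h (Ici 1))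
    (hi : IntegrableOn (fun t : ℝ => h t * t ^ (-α)) (Ici 1)) :
    DifferentiableOn ℂ (fun s : ℂ => ∫ t in Ioi (1 : ℝ), (h t : ℂ) * (t : ℂ) ^ (-s))
      {s | α < s.re} := by
  have hop : IsOpen {s : ℂ | α < s.re} := isOpen_lt continuous_const Complex.continuous_re
  refine SP.hol_int _ (fun s t => (h t : ℂ) * (t : ℂ) ^ (-s)) _ ?_ ?_ ?_
  · intro s _
    apply ContinuousOn.aestronglyMeasurable _ measurableSet_Ioi
    refine ContinuousOn.mul ?_ ?_
    · exact Complex.continuous_ofReal.comp_continuousOn (hc.mono Ioi_subset_Ici_self)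
    · refine ContinuousOn.cpow_const (Complex.continuous_ofReal.continuousOn) (fun t ht => ?_)
      rw [Complex.ofReal_mem_slitPlane]
      exact lt_trans one_pos ht
  · refine (ae_restrict_iff' measurableSet_Ioi).2 (Eventually.of_forall fun t ht => ?_)
    have ht0 : (t : ℂ) ≠ 0 := by
      have : (0 : ℝ) < t := lt_trans one_pos ht
      exact_mod_cast this.ne'
    refine DifferentiableOn.const_mul ?_ _
    exact (differentiable_id.neg.const_cpow (Or.inl ht0)).differentiableOn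
  · intro s hs
    obtain ⟨r, hr, hrU⟩ := Metric.isOpen_iff.1 hop s hs
    refine ⟨r, hr, hrU, fun t => |h t * t ^ (-α)|, ?_, ?_⟩
    · exact (hi.mono_set Ioi_subset_Ici_self).abs
    · refine (ae_restrict_iff' measurableSet_Ioi).2 (Eventually.of_forall fun t ht z hz => ?_)
      have ht1 : (1 : ℝ) < t := ht
      have ht0 : (0 : ℝ) < t := by linarith
      have hz' : α < z.re := hrU hz
      show ‖(h t : ℂ) * (t : ℂ) ^ (-z)‖ ≤ |h t * t ^ (-α)|
      rw [norm_mul, Complex.norm_real, Real.norm_eq_abs, abs_mul,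
        Complex.norm_cpow_eq_rpow_re_of_pos ht0, abs_of_nonneg (by positivity : 0 ≤ t ^ (-α))]
      gcongr
      · exact ht1.le
      · simp only [Complex.neg_re]; linarith


/-! ### the main term -/

/-- the main term -/
noncomputable def d5M (ν : ℂ) (g : ℝ → ℝ) (θ : ℝ) : ℝ :=
  ∫ t in Ioi (1 : ℝ), g t * ‖WW ν (t * Real.tan θ)‖ ^ 2

theorem d5_tan_pos {θ : ℝ} (h : θ ∈ SP.II) : 0 < Real.tan θ :=
  Real.tan_pos_of_pos_of_lt_pi_div_two h.1 h.2

theorem d5_M_le (hν : GoodNu ν) {g : ℝ → ℝ}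
    (hg : IntegrableOn (fun t : ℝ => g t * t ^ (-(5 / 4) : ℝ)) (Ici 1)) :
    ∃ C : ℝ, 0 ≤ C ∧ ∀ θ : ℝ, θ ∈ SP.II → |d5M ν g θ| ≤ C * Real.tan θ ^ (-(5 / 4) : ℝ) := by
  obtain ⟨C, hC, hW⟩ := d5_WW hν
  refine ⟨C * ∫ t in Ioi (1 : ℝ), |g t * t ^ (-(5 / 4) : ℝ)|, ?_, fun θ hθ => ?_⟩
  · exact mul_nonneg hC (integral_nonneg fun t => abs_nonneg _)
  have hv := d5_tan_pos hθ
  have hi : IntegrableOn (fun t : ℝ => |g t * t ^ (-(5 / 4) : ℝ)|) (Ioi 1) :=
    (hg.mono_set Ioi_subset_Ici_self).abs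
  rw [← Real.norm_eq_abs]
  unfold d5M
  have hle : ‖∫ t in Ioi (1 : ℝ), g t * ‖WW ν (t * Real.tan θ)‖ ^ 2‖ ≤
      ∫ t in Ioi (1 : ℝ), (C * Real.tan θ ^ (-(5 / 4) : ℝ)) * |g t * t ^ (-(5 / 4) : ℝ)| := by
    refine norm_integral_le_of_norm_le (hi.const_mul _) ?_
    refine (ae_restrict_iff' measurableSet_Ioi).2 (Eventually.of_forall fun t ht => ?_)
    have ht0 : (0 : ℝ) < t := lt_trans one_pos ht
    have h1 := (hW (t * Real.tan θ) (by positivity)).2
    rw [Real.mul_rpow ht0.le hv.le] at h1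
    rw [norm_mul, Real.norm_eq_abs, Real.norm_of_nonneg (by positivity), abs_mul,
      abs_of_nonneg (by positivity : (0 : ℝ) ≤ t ^ (-(5 / 4) : ℝ))]
    calc |g t| * ‖WW ν (t * Real.tan θ)‖ ^ 2
        ≤ |g t| * (C * (t ^ (-(5 / 4) : ℝ) * Real.tan θ ^ (-(5 / 4) : ℝ))) := by gcongr
      _ = _ := by ring
  refine hle.trans (le_of_eq ?_)
  rw [integral_const_mul]
  ring

theorem d5_M_meas (ν : ℂ) {g : ℝ → ℝ} (hc : ContinuousOn g (Ici 1)) {θ₀ : ℝ}
    (hθ₀ : θ₀ ∈ SP.II) :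
    AEStronglyMeasurable (d5M ν g) (volume.restrict (Ioo 0 θ₀)) := by
  have h1 : ContinuousOn (fun q : ℝ × ℝ => g q.2 * ‖WW ν (q.2 * Real.tan q.1)‖ ^ 2)
      (Ioo 0 θ₀ ×ˢ Ioi 1) := by
    refine ContinuousOn.mul ?_ ?_
    · exact hc.comp continuousOn_snd (fun q hq => by
        have h : (1 : ℝ) < q.2 := hq.2
        exact h.le)
    · refine (ContinuousOn.norm ?_).pow 2
      refine (d5_WW_cont ν).comp ?_ ?_
      · refine continuousOn_snd.mul ?_
        refine (Real.continuousOn_tan_Ioo).comp continuousOn_fst (fun q hq => ?_)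
        exact ⟨by linarith [hq.1.1, Real.pi_pos], by linarith [hq.1.2, hθ₀.2]⟩
      · intro q hq
        have h2 : 0 < Real.tan q.1 := d5_tan_pos ⟨hq.1.1, hq.1.2.trans hθ₀.2⟩
        have h3 : (1 : ℝ) < q.2 := hq.2
        exact mul_pos (by linarith) h2
  have h2 := h1.aestronglyMeasurable (μ := (volume : Measure ℝ).prod volume)
    (measurableSet_Ioo.prod measurableSet_Ioi)
  rw [← Measure.prod_restrict] at h2
  exact h2.integral_prod_right'

/-! ### integration by parts -/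

/-- the function `J` up to sign -/
noncomputable def d5K (ν : ℂ) (ε : ℝ) (L : ℂ → ℂ) (θ : ℝ) : ℝ :=
  (2 * Real.pi)⁻¹ * ∫ t : ℝ, t * (‖L (ha t)‖ ^ 2 * ‖Gs ν ε (ha t) θ‖ ^ 2)

theorem d5_K_deriv (F : Frame0 ν ε a f) (hL : LFun ν ε a f L) {θ : ℝ}
    (hθ : θ ∈ Ioo 0 Real.pi) : HasDerivAt (fun θ : ℝ => (d5K ν ε L θ : ℂ))
      (ray (chi f) θ / ((Real.sin θ : ℝ) : ℂ) ^ 2) θ := by
  have h1 := (ray_chi F hL hθ).neg
  rw [neg_neg] at h1
  refine h1.congr_of_eventuallyEq (Eventually.of_forall fun x => ?_)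
  simp only [d5K, Pi.neg_apply]
  push_cast
  ring

theorem d5_dom {θ₀ p : ℝ} (hθ₀ : θ₀ ∈ SP.II) (hp : -1 < p) :
    IntegrableOn (fun θ : ℝ => Real.sin θ ^ p) (Ioo 0 θ₀) := by
  set q : ℝ := min p 0 with hq
  have hq1 : -1 < q := lt_min hp (by norm_num)
  have hq0 : q ≤ 0 := min_le_right _ _
  have hqp : q ≤ p := min_le_left _ _
  have h1 : IntegrableOn (fun θ : ℝ => (1 / 2 : ℝ) ^ q * θ ^ q) (Ioo 0 θ₀) :=
    (SP.integ_rpow hq1 hθ₀.1).const_mul _
  refine Integrable.mono' h1 ?_ ?_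
  · apply ContinuousOn.aestronglyMeasurable _ measurableSet_Ioo
    refine Real.continuous_sin.continuousOn.rpow_const (fun θ hθ => Or.inl ?_)
    exact (SP.sin_pos' (SP.sub_II hθ₀ hθ)).ne'
  · refine (ae_restrict_iff' measurableSet_Ioo).2 (Eventually.of_forall fun θ hθ => ?_)
    have hII := SP.sub_II hθ₀ hθ
    have hs := SP.sin_pos' hII
    have hθ0 : 0 < θ := hθ.1
    rw [Real.norm_of_nonneg (by positivity)]
    calc Real.sin θ ^ p ≤ Real.sin θ ^ q :=
          Real.rpow_le_rpow_of_exponent_ge hs (Real.sin_le_one θ) hqp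
      _ ≤ (θ / 2) ^ q := Real.rpow_le_rpow_of_nonpos (by positivity) (SP.sin_ge hII) hq0
      _ = (1 / 2 : ℝ) ^ q * θ ^ q := by
        rw [← Real.mul_rpow (by norm_num) hθ0.le]
        congr 1
        ring

theorem d5_tan_sin {θ : ℝ} (h : θ ∈ SP.II) :
    Real.tan θ ^ (-(5 / 4) : ℝ) ≤ Real.sin θ ^ (-(5 / 4) : ℝ) := by
  have hs := SP.sin_pos' h
  have hc := SP.cos_pos' h
  apply Real.rpow_le_rpow_of_nonpos hs _ (by norm_num)
  rw [Real.tan_eq_sin_div_cos, le_div_iff₀ hc]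
  have := Real.cos_le_one θ
  nlinarith

theorem d5_ibp (F : Frame0 ν ε a f) (hL : LFun ν ε a f L) {θ₀ : ℝ} (hθ₀ : θ₀ ∈ SP.II) {CK : ℝ}
    (hCK : 0 ≤ CK)
    (hK : ∀ θ : ℝ, 0 < θ → θ ≤ θ₀ → |d5K ν ε L θ| ≤ CK * Real.tan θ ^ (-(5 / 4) : ℝ)) {s : ℂ}
    (hs : 2 < s.re) :
    IntegrableOn (fun θ => SP.fp s θ * (d5K ν ε L θ : ℂ)) (Ioo 0 θ₀) ∧
    Dt (ray (chi f)) θ₀ s = SP.ff s θ₀ * (d5K ν ε L θ₀ : ℂ) -
      ∫ θ in Ioo 0 θ₀, SP.fp s θ * (d5K ν ε L θ : ℂ) := by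
  have hs0 : 0 < s.re := by linarith
  have hsub : ∀ θ ∈ Ioo 0 θ₀, θ ∈ Ioo 0 Real.pi := fun θ hθ =>
    ⟨hθ.1, by linarith [hθ.2, hθ₀.2, Real.pi_pos]⟩
  have hKc : ContinuousOn (fun θ : ℝ => (d5K ν ε L θ : ℂ)) (Ioo 0 Real.pi) := fun θ hθ =>
    (d5_K_deriv F hL hθ).continuousAt.continuousWithinAt
  have hfpc : ContinuousOn (fun θ => SP.fp s θ) SP.II := fun θ hθ =>
    (SP.fp_hasDeriv hθ hs0).continuousAt.continuousWithinAt
  have hsubII : Ioo 0 θ₀ ⊆ SP.II := fun θ hθ => SP.sub_II hθ₀ hθ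
  -- first integrability
  have hi1 : IntegrableOn (fun θ => SP.fp s θ * (d5K ν ε L θ : ℂ)) (Ioo 0 θ₀) := by
    have h1 := (d5_dom hθ₀ (p := s.re - 1 - 5 / 4) (by linarith)).const_mul
      (‖s‖ * (2 / s.re) * CK)
    refine Integrable.mono' h1 ?_ ?_
    · exact ((hfpc.mono hsubII).mul (hKc.mono hsub)).aestronglyMeasurable measurableSet_Ioo
    · refine (ae_restrict_iff' measurableSet_Ioo).2 (Eventually.of_forall fun θ hθ => ?_)
      have hII := hsubII hθ
      have hsin := SP.sin_pos' hII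
      have h2 := SP.fp_norm_le hII hs0
      have h3 := (hK θ hθ.1 hθ.2.le).trans (mul_le_mul_of_nonneg_left (d5_tan_sin hII) hCK)
      rw [norm_mul, Complex.norm_real, Real.norm_eq_abs]
      calc ‖SP.fp s θ‖ * |d5K ν ε L θ|
          ≤ (‖s‖ * (2 / s.re) * (Real.sin θ ^ s.re / Real.sin θ)) *
            (CK * Real.sin θ ^ (-(5 / 4) : ℝ)) := by gcongr
        _ = ‖s‖ * (2 / s.re) * CK * (Real.sin θ ^ s.re / Real.sin θ *
            Real.sin θ ^ (-(5 / 4) : ℝ)) := by ring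
        _ = _ := by
          rw [← Real.rpow_sub_one hsin.ne', ← Real.rpow_add hsin]
          congr 2
  obtain ⟨C, hC, hray⟩ := d5_ray F
  have hi2 : IntegrableOn (fun θ => SP.ff s θ * (ray (chi f) θ / ((Real.sin θ : ℝ) : ℂ) ^ 2))
      (Ioo 0 θ₀) := by
    have h1 := (d5_dom hθ₀ (p := s.re - 3) (by linarith)).const_mul (2 / s.re * C)
    refine Integrable.mono' h1 ?_ ?_
    · have h2 : AEStronglyMeasurable (fun θ => SP.ff s θ * deriv (fun θ : ℝ => (d5K ν ε L θ : ℂ)) θ)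
          (volume.restrict (Ioo 0 θ₀)) :=
        (((SP.cont_ff hs0).mono hsubII).aestronglyMeasurable measurableSet_Ioo).mul
          (measurable_deriv _).aestronglyMeasurable
      refine h2.congr ?_
      refine (ae_restrict_iff' measurableSet_Ioo).2 (Eventually.of_forall fun θ hθ => ?_)
      simp only [(d5_K_deriv F hL (hsub θ hθ)).deriv]
    · refine (ae_restrict_iff' measurableSet_Ioo).2 (Eventually.of_forall fun θ hθ => ?_)
      have hII := hsubII hθ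
      have hsin := SP.sin_pos' hII
      have h2 := SP.ff_norm_le hII hs0
      have h3 := hray θ (hsub θ hθ)
      rw [norm_mul, norm_div, norm_pow, Complex.norm_real, Real.norm_of_nonneg hsin.le]
      calc ‖SP.ff s θ‖ * (‖ray (chi f) θ‖ / Real.sin θ ^ 2)
          ≤ (2 / s.re * Real.sin θ ^ s.re) * (C / Real.sin θ / Real.sin θ ^ 2) := by gcongr
        _ = 2 / s.re * C * Real.sin θ ^ (s.re - 3) := by
          have h4 : Real.sin θ ^ (s.re - 3) = Real.sin θ ^ s.re / Real.sin θ ^ 3 := by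
            rw [Real.rpow_sub hsin]
            congr 1
            rw [← Real.rpow_natCast]
            norm_num
          rw [h4]
          field_simp
  refine ⟨hi1, ?_⟩
  have hib : ∫ θ in (0 : ℝ)..θ₀, (SP.fp s θ * (d5K ν ε L θ : ℂ) +
      SP.ff s θ * (ray (chi f) θ / ((Real.sin θ : ℝ) : ℂ) ^ 2)) =
      SP.ff s θ₀ * (d5K ν ε L θ₀ : ℂ) - 0 := by
    apply intervalIntegral.integral_eq_sub_of_hasDerivAt_of_tendsto hθ₀.1
      (f := fun θ => SP.ff s θ * (d5K ν ε L θ : ℂ))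
    · intro θ hθ
      exact (SP.ff_hasDeriv (hsubII hθ) hs0).mul (d5_K_deriv F hL (hsub θ hθ))
    · rw [intervalIntegrable_iff_integrableOn_Ioo_of_le hθ₀.1.le]
      exact hi1.add hi2
    · have hlim : Tendsto (fun θ : ℝ => 2 / s.re * CK * Real.sin θ ^ (s.re - 5 / 4)) (𝓝[>] 0)
          (𝓝 0) := by
        have h1 : Continuous fun θ : ℝ => 2 / s.re * CK * Real.sin θ ^ (s.re - 5 / 4) :=
          continuous_const.mul (Real.continuous_sin.rpow_const (fun _ => Or.inr (by linarith)))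
        have h2 := h1.tendsto 0
        rw [Real.sin_zero, Real.zero_rpow (by linarith), mul_zero] at h2
        exact h2.mono_left nhdsWithin_le_nhds
      refine squeeze_zero_norm' ?_ hlim
      filter_upwards [Ioo_mem_nhdsGT hθ₀.1] with θ hθ
      have hII := hsubII hθ
      have hsin := SP.sin_pos' hII
      have h2 := SP.ff_norm_le hII hs0
      have h3 := (hK θ hθ.1 hθ.2.le).trans (mul_le_mul_of_nonneg_left (d5_tan_sin hII) hCK)
      rw [norm_mul, Complex.norm_real, Real.norm_eq_abs]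
      calc ‖SP.ff s θ‖ * |d5K ν ε L θ|
          ≤ (2 / s.re * Real.sin θ ^ s.re) * (CK * Real.sin θ ^ (-(5 / 4) : ℝ)) := by gcongr
        _ = 2 / s.re * CK * (Real.sin θ ^ s.re * Real.sin θ ^ (-(5 / 4) : ℝ)) := by ring
        _ = _ := by
          rw [← Real.rpow_add hsin]
          congr 2
    · have h1 : ContinuousAt (fun θ => SP.ff s θ * (d5K ν ε L θ : ℂ)) θ₀ :=
        (SP.ff_hasDeriv hθ₀ hs0).continuousAt.mul
          (d5_K_deriv F hL ⟨hθ₀.1, by linarith [hθ₀.2, Real.pi_pos]⟩).continuousAt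
      exact h1.tendsto.mono_left nhdsWithin_le_nhds
  rw [intervalIntegral.integral_of_le hθ₀.1.le, integral_Ioc_eq_integral_Ioo,
    integral_add hi1 hi2, sub_zero] at hib
  have hDt : Dt (ray (chi f)) θ₀ s = ∫ θ in Ioo 0 θ₀,
      SP.ff s θ * (ray (chi f) θ / ((Real.sin θ : ℝ) : ℂ) ^ 2) := by
    unfold Dt
    refine integral_congr_ae (Eventually.of_forall fun θ => ?_)
    simp only [mul_div_assoc]
  rw [hDt]
  linear_combination hib

/-! ### the function `bb` -/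

theorem d5_bb_diff : DifferentiableOn ℂ SP.bb {s | 0 < s.re} := by
  have h1 : ∀ s ∈ {s : ℂ | 0 < s.re}, SP.bb s = Gamma s * Gamma s / Gamma (s + s) := by
    intro s hs
    have hs0 : 0 < s.re := hs
    rw [SP.bb_eq, eq_div_iff (Complex.Gamma_ne_zero_of_re_pos (by simp; linarith)), mul_comm]
    exact (Complex.Gamma_mul_Gamma_eq_betaIntegral hs0 hs0).symm
  refine DifferentiableOn.congr ?_ h1
  intro s hs
  have hs0 : 0 < s.re := hs
  have hG : DifferentiableAt ℂ Gamma s := by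
    refine Complex.differentiableAt_Gamma s (fun m hm => ?_)
    rw [hm] at hs0
    simp at hs0
    linarith [Nat.cast_nonneg (α := ℝ) m]
  have hG2 : DifferentiableAt ℂ Gamma (s + s) := by
    refine Complex.differentiableAt_Gamma (s + s) (fun m hm => ?_)
    have h2 := congrArg Complex.re hm
    simp at h2
    linarith [Nat.cast_nonneg (α := ℝ) m]
  have hG3 : DifferentiableAt ℂ (fun s => Gamma (s + s)) s := by
    have h3 : DifferentiableAt ℂ (fun s : ℂ => s + s) s := by fun_prop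
    exact DifferentiableAt.comp (g := Gamma) (f := fun s : ℂ => s + s) s hG2 h3
  exact ((hG.mul hG).div hG3
    (Complex.Gamma_ne_zero_of_re_pos (by simp; linarith))).differentiableWithinAt

/-! ### the theorem -/

/-- D5: `D_χ` -/
theorem Dt_chi_pr (F : Frame0 ν ε a f) (hL : LFun ν ε a f L) {θ₀ : ℝ} (hθ₀ : θ₀ ∈ SP.II) :
    ∃ H : ℂ → ℂ, DifferentiableOn ℂ H {s | 1 / 4 < s.re ∧ 0 < s.im} ∧
      ∀ s : ℂ, 2 < s.re → 0 < s.im → Dt (ray (chi f)) θ₀ s = -(s * SP.bb s * kap ν (s + 1)) *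
        (∫ t in Ioi (1 : ℝ), ((‖L (ha t)‖ ^ 2 - ‖L (ha (-t))‖ ^ 2 : ℝ) : ℂ) * (t : ℂ) ^ (-s)) +
          H s := by
  obtain ⟨e, B, C, hec, he, hJ⟩ := J_asymp F hL hθ₀
  have hν := F.nu
  have hC0 : 0 ≤ C := by
    have h := he 1 le_rfl
    rw [div_one] at h
    exact (abs_nonneg _).trans h
  have hetail : ∀ t : ℝ, 1 ≤ t → |e t| ≤ C := fun t ht =>
    (he t ht).trans (div_le_self hC0 ht)
  set g : ℝ → ℝ := fun t => d5o L t * (1 + e t) with hgdef
  have hgc : ContinuousOn g (Ici 1) :=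
    (d5_o_cont hL).continuousOn.mul (continuousOn_const.add hec)
  have hgb : ∀ t, 1 ≤ t → |g t| ≤ (1 + C) * (d5e L t * t ^ (-(0 : ℝ))) := by
    intro t ht
    have h1 := d5_o_le L t
    have h2 : |1 + e t| ≤ 1 + C := by
      calc |1 + e t| ≤ |(1 : ℝ)| + |e t| := abs_add_le _ _
        _ ≤ 1 + C := by
          rw [abs_one]
          linarith [hetail t ht]
    rw [neg_zero, Real.rpow_zero, mul_one, hgdef]
    simp only [abs_mul]
    rw [mul_comm]
    exact mul_le_mul h2 h1 (abs_nonneg _) (by linarith)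
  have hgi : ∀ α : ℝ, 9 / 8 < α → IntegrableOn (fun t : ℝ => g t * t ^ (-α)) (Ici 1) :=
    fun α hα => d5_int F hL hgc hgb (by linarith)
  have hob : ∀ t, 1 ≤ t → |d5o L t| ≤ 1 * (d5e L t * t ^ (-(0 : ℝ))) := by
    intro t ht
    rw [neg_zero, Real.rpow_zero, mul_one, one_mul]
    exact d5_o_le L t
  have hoi : ∀ α : ℝ, 9 / 8 < α → IntegrableOn (fun t : ℝ => d5o L t * t ^ (-α)) (Ici 1) :=
    fun α hα => d5_int F hL (d5_o_cont hL).continuousOn hob (by linarith)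
  -- the correction
  set g2 : ℝ → ℝ := fun t => d5o L t * e t with hg2def
  have hg2c : ContinuousOn g2 (Ici 1) := (d5_o_cont hL).continuousOn.mul hec
  have hg2b : ∀ t, 1 ≤ t → |g2 t| ≤ C * (d5e L t * t ^ (-(1 : ℝ))) := by
    intro t ht
    have ht0 : 0 < t := by linarith
    have h1 := d5_o_le L t
    have h2 := he t ht
    rw [hg2def, Real.rpow_neg_one]
    simp only [abs_mul]
    calc |d5o L t| * |e t| ≤ d5e L t * (C / t) :=
          mul_le_mul h1 h2 (abs_nonneg _) (d5_e_nonneg L t)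
      _ = _ := by rw [div_eq_mul_inv]; ring
  have hg2i : IntegrableOn (fun t : ℝ => g2 t * t ^ (-(1 / 4) : ℝ)) (Ici 1) :=
    d5_int F hL hg2c hg2b (by norm_num)
  have hH5 := d5_hol hg2c hg2i
  set H5 : ℂ → ℂ := fun s => ∫ t in Ioi (1 : ℝ), (g2 t : ℂ) * (t : ℂ) ^ (-s) with hH5def
  -- the bound of `K`
  obtain ⟨CM, hCM0, hM⟩ := d5_M_le hν (hgi (5 / 4) (by norm_num))
  obtain ⟨CW, hCW0, hW⟩ := d5_WW hν
  set v0 : ℝ := Real.tan θ₀ with hv0
  have hv0p : 0 < v0 := d5_tan_pos hθ₀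
  have htan : ∀ θ : ℝ, 0 < θ → θ ≤ θ₀ → θ ∈ SP.II ∧ Real.tan θ ≤ v0 := by
    intro θ h1 h2
    refine ⟨⟨h1, lt_of_le_of_lt h2 hθ₀.2⟩, ?_⟩
    rcases eq_or_lt_of_le h2 with h | h
    · rw [h]
    · exact (Real.tan_lt_tan_of_lt_of_lt_pi_div_two (by linarith [Real.pi_pos]) hθ₀.2 h).le
  -- the error `y`
  have hy1 : ∀ θ : ℝ, 0 < θ → θ ≤ θ₀ → |d5K ν ε L θ - d5M ν g θ| ≤
      (C + |B| * CW * v0 ^ (1 / 8 : ℝ)) * Real.tan θ ^ (-(1 / 8) : ℝ) := by
    intro θ h1 h2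
    obtain ⟨hII, hv⟩ := htan θ h1 h2
    have hvp := d5_tan_pos hII
    have h3 := hJ θ h1 h2
    have h4 := (hW (Real.tan θ) hvp).1
    have h5 : |B * ‖WW ν (Real.tan θ)‖ ^ 2| ≤ |B| * CW := by
      rw [abs_mul, abs_of_nonneg (by positivity : 0 ≤ ‖WW ν (Real.tan θ)‖ ^ 2)]
      gcongr
    have h6 : (1 : ℝ) ≤ v0 ^ (1 / 8 : ℝ) * Real.tan θ ^ (-(1 / 8) : ℝ) := by
      rw [Real.rpow_neg hvp.le, ← div_eq_mul_inv, one_le_div (by positivity)]
      exact Real.rpow_le_rpow hvp.le hv (by norm_num)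
    have h7 : d5K ν ε L θ - d5M ν g θ = (d5K ν ε L θ - (d5M ν g θ + B * ‖WW ν (Real.tan θ)‖ ^ 2)) +
        B * ‖WW ν (Real.tan θ)‖ ^ 2 := by ring
    have h8 : |d5K ν ε L θ - (d5M ν g θ + B * ‖WW ν (Real.tan θ)‖ ^ 2)| ≤
        C * Real.tan θ ^ (-(1 / 8) : ℝ) := h3
    rw [h7]
    refine (abs_add_le _ _).trans ?_
    have h9 : |B| * CW ≤ |B| * CW * (v0 ^ (1 / 8 : ℝ) * Real.tan θ ^ (-(1 / 8) : ℝ)) :=
      le_mul_of_one_le_right (by positivity) h6
    nlinarith [h8, h5, h9]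
  set CY : ℝ := C + |B| * CW * v0 ^ (1 / 8 : ℝ) with hCY
  have hCY0 : 0 ≤ CY := by positivity
  have hK : ∀ θ : ℝ, 0 < θ → θ ≤ θ₀ → |d5K ν ε L θ| ≤
      (CM + CY * v0 ^ (9 / 8 : ℝ)) * Real.tan θ ^ (-(5 / 4) : ℝ) := by
    intro θ h1 h2
    obtain ⟨hII, hv⟩ := htan θ h1 h2
    have hvp := d5_tan_pos hII
    have h3 := hy1 θ h1 h2
    have h4 := hM θ hII
    have h5 : Real.tan θ ^ (-(1 / 8) : ℝ) ≤ v0 ^ (9 / 8 : ℝ) * Real.tan θ ^ (-(5 / 4) : ℝ) := by
      have h6 : Real.tan θ ^ (-(1 / 8) : ℝ) = Real.tan θ ^ (9 / 8 : ℝ) *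
          Real.tan θ ^ (-(5 / 4) : ℝ) := by
        rw [← Real.rpow_add hvp]
        norm_num
      rw [h6]
      gcongr
    have h7 : d5K ν ε L θ = d5M ν g θ + (d5K ν ε L θ - d5M ν g θ) := by ring
    rw [h7]
    refine (abs_add_le _ _).trans ?_
    have h8 := mul_le_mul_of_nonneg_left h5 hCY0
    nlinarith [h3, h4, h8]
  have hCK0 : 0 ≤ CM + CY * v0 ^ (9 / 8 : ℝ) := by positivity
  -- the error term
  set y : ℝ → ℂ := fun θ => ((d5K ν ε L θ - d5M ν g θ : ℝ) : ℂ) with hydef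
  have hsub : ∀ θ ∈ Ioo 0 θ₀, θ ∈ Ioo 0 Real.pi := fun θ hθ =>
    ⟨hθ.1, by linarith [hθ.2, hθ₀.2, Real.pi_pos]⟩
  have hsubII : Ioo 0 θ₀ ⊆ SP.II := fun θ hθ => SP.sub_II hθ₀ hθ
  have hKm : AEStronglyMeasurable (fun θ : ℝ => (d5K ν ε L θ : ℂ)) (volume.restrict (Ioo 0 θ₀)) := by
    apply ContinuousOn.aestronglyMeasurable _ measurableSet_Ioo
    exact fun θ hθ => (d5_K_deriv F hL (hsub θ hθ)).continuousAt.continuousWithinAt
  have hMm : AEStronglyMeasurable (fun θ : ℝ => (d5M ν g θ : ℂ)) (volume.restrict (Ioo 0 θ₀)) :=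
    Complex.continuous_ofReal.comp_aestronglyMeasurable (d5_M_meas ν hgc hθ₀)
  have hym : AEStronglyMeasurable y (volume.restrict (Ioo 0 θ₀)) := by
    have h := hKm.sub hMm
    refine h.congr (Eventually.of_forall fun θ => ?_)
    simp only [hydef, Pi.sub_apply, Complex.ofReal_sub]
  have hyb : ∀ θ : ℝ, 0 < θ → θ < θ₀ → ‖y θ‖ ≤ CY * Real.tan θ ^ (-(1 / 8) : ℝ) := by
    intro θ h1 h2
    rw [hydef]
    simp only [Complex.norm_real, Real.norm_eq_abs]
    exact hy1 θ h1 h2.le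
  have hH4 := Dt_err' hθ₀ hym (C := CY) (α := -(1 / 8)) (by norm_num) hyb
  obtain ⟨H1, hH1, hmain⟩ := Dt_main' hν hθ₀ hgi
  refine ⟨fun s => SP.ff s θ₀ * (d5K ν ε L θ₀ : ℂ) - (∫ θ in Ioo 0 θ₀, SP.fp s θ * y θ) - H1 s -
    s * SP.bb s * kap ν (s + 1) * H5 s, ?_, ?_⟩
  · have hsb : {s : ℂ | 1 / 4 < s.re ∧ 0 < s.im} ⊆ {s : ℂ | 0 < s.re} := fun s hs => by
      have := hs.1
      show 0 < s.re
      linarith
    have d1 : DifferentiableOn ℂ (fun s => SP.ff s θ₀ * (d5K ν ε L θ₀ : ℂ))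
        {s | 1 / 4 < s.re ∧ 0 < s.im} := ((SP.ff_diff hθ₀).mono hsb).mul_const _
    have d2 : DifferentiableOn ℂ (fun s => ∫ θ in Ioo 0 θ₀, SP.fp s θ * y θ)
        {s | 1 / 4 < s.re ∧ 0 < s.im} := hH4.mono (fun s hs => ⟨by
          have h1 := hs.1
          rw [max_lt_iff]
          constructor <;> linarith, hs.2⟩)
    have d3 : DifferentiableOn ℂ (fun s => kap ν (s + 1)) {s | 1 / 4 < s.re ∧ 0 < s.im} := by
      refine (kap_diff hν).comp (differentiableOn_id.add_const _) (fun s hs => ?_)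
      have h1 := hs.1
      have h2 := hs.2
      refine ⟨?_, ?_⟩
      · simp; linarith
      · simp; exact h2
    have d4 : DifferentiableOn ℂ H5 {s | 1 / 4 < s.re ∧ 0 < s.im} := hH5.mono (fun s hs => hs.1)
    have d5 : DifferentiableOn ℂ SP.bb {s | 1 / 4 < s.re ∧ 0 < s.im} := d5_bb_diff.mono hsb
    exact ((d1.sub d2).sub hH1).sub (((differentiableOn_id.mul d5).mul d3).mul d4)
  · intro s hs hs'
    have hs0 : 0 < s.re := by linarith
    obtain ⟨hi1, hDt⟩ := d5_ibp F hL hθ₀ hCK0 hK hs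
    have hfpc : ContinuousOn (fun θ => SP.fp s θ) SP.II := fun θ hθ =>
      (SP.fp_hasDeriv hθ hs0).continuousAt.continuousWithinAt
    -- integrability of the main term
    have hiM : IntegrableOn (fun θ => SP.fp s θ * (d5M ν g θ : ℂ)) (Ioo 0 θ₀) := by
      have h1 := (d5_dom hθ₀ (p := s.re - 1 - 5 / 4) (by linarith)).const_mul
        (‖s‖ * (2 / s.re) * CM)
      refine Integrable.mono' h1 ?_ ?_
      · exact ((hfpc.mono hsubII).aestronglyMeasurable measurableSet_Ioo).mul hMm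
      · refine (ae_restrict_iff' measurableSet_Ioo).2 (Eventually.of_forall fun θ hθ => ?_)
        have hII := hsubII hθ
        have hsin := SP.sin_pos' hII
        have h2 := SP.fp_norm_le hII hs0
        have h3 := (hM θ hII).trans (mul_le_mul_of_nonneg_left (d5_tan_sin hII) hCM0)
        rw [norm_mul, Complex.norm_real, Real.norm_eq_abs]
        calc ‖SP.fp s θ‖ * |d5M ν g θ|
            ≤ (‖s‖ * (2 / s.re) * (Real.sin θ ^ s.re / Real.sin θ)) *
              (CM * Real.sin θ ^ (-(5 / 4) : ℝ)) := by gcongr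
          _ = ‖s‖ * (2 / s.re) * CM * (Real.sin θ ^ s.re / Real.sin θ *
              Real.sin θ ^ (-(5 / 4) : ℝ)) := by ring
          _ = _ := by
            rw [← Real.rpow_sub_one hsin.ne', ← Real.rpow_add hsin]
            congr 2
    have hiy : IntegrableOn (fun θ => SP.fp s θ * y θ) (Ioo 0 θ₀) := by
      refine (hi1.sub hiM).congr (Eventually.of_forall fun θ => ?_)
      simp only [hydef, Pi.sub_apply, Complex.ofReal_sub]
      ring
    have hsplit : ∫ θ in Ioo 0 θ₀, SP.fp s θ * (d5K ν ε L θ : ℂ) =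
        (∫ θ in Ioo 0 θ₀, SP.fp s θ * (d5M ν g θ : ℂ)) + ∫ θ in Ioo 0 θ₀, SP.fp s θ * y θ := by
      rw [← integral_add hiM hiy]
      refine integral_congr_ae (Eventually.of_forall fun θ => ?_)
      simp only [hydef, Complex.ofReal_sub]
      ring
    have hm := hmain s hs hs'
    have hm' : ∫ θ in Ioo 0 θ₀, SP.fp s θ * (d5M ν g θ : ℂ) =
        s * SP.bb s * kap ν (s + 1) * (∫ t in Ioi (1 : ℝ), (g t : ℂ) * (t : ℂ) ^ (-s)) + H1 s := hm
    -- the Dirichlet integrals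
    have hint : ∀ h : ℝ → ℝ, ContinuousOn h (Ici 1) →
        IntegrableOn (fun t : ℝ => h t * t ^ (-s.re)) (Ici 1) →
        IntegrableOn (fun t : ℝ => (h t : ℂ) * (t : ℂ) ^ (-s)) (Ioi 1) := by
      intro h hc hi
      refine Integrable.mono' (g := fun t => |h t * t ^ (-s.re)|) ?_ ?_ ?_
      · exact (hi.mono_set Ioi_subset_Ici_self).abs
      · apply ContinuousOn.aestronglyMeasurable _ measurableSet_Ioi
        refine ContinuousOn.mul ?_ ?_
        · exact Complex.continuous_ofReal.comp_continuousOn (hc.mono Ioi_subset_Ici_self)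
        · refine ContinuousOn.cpow_const (Complex.continuous_ofReal.continuousOn) (fun t ht => ?_)
          rw [Complex.ofReal_mem_slitPlane]
          exact lt_trans one_pos ht
      · refine (ae_restrict_iff' measurableSet_Ioi).2 (Eventually.of_forall fun t ht => ?_)
        have ht0 : (0 : ℝ) < t := lt_trans one_pos ht
        rw [norm_mul, Complex.norm_real, Real.norm_eq_abs, abs_mul,
          Complex.norm_cpow_eq_rpow_re_of_pos ht0, abs_of_nonneg (by positivity : 0 ≤ t ^ (-s.re)),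
          Complex.neg_re]
    have hg2s : IntegrableOn (fun t : ℝ => g2 t * t ^ (-s.re)) (Ici 1) :=
      d5_int F hL hg2c hg2b (by linarith)
    have hgs : ∫ t in Ioi (1 : ℝ), (g t : ℂ) * (t : ℂ) ^ (-s) =
        (∫ t in Ioi (1 : ℝ), (d5o L t : ℂ) * (t : ℂ) ^ (-s)) + H5 s := by
      rw [hH5def]
      simp only
      rw [← integral_add (hint _ (d5_o_cont hL).continuousOn (hoi _ (by linarith)))
        (hint _ hg2c hg2s)]
      refine integral_congr_ae (Eventually.of_forall fun t => ?_)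
      simp only [hgdef, hg2def]
      push_cast
      ring
    have hoo : (∫ t in Ioi (1 : ℝ), ((‖L (ha t)‖ ^ 2 - ‖L (ha (-t))‖ ^ 2 : ℝ) : ℂ) *
        (t : ℂ) ^ (-s)) = ∫ t in Ioi (1 : ℝ), (d5o L t : ℂ) * (t : ℂ) ^ (-s) := rfl
    rw [hDt, hsplit, hm', hgs, hoo]
    simp only
    ring

end Pool.Agent.JO.FM

namespace Pool.Agent.JO.FM

theorem Dt_chi : type_of% @Dt_chi_pr := @Dt_chi_pr

end Pool.Agent.JO.FM
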