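import Pool.Agent.Lib_helper45.JO.Defs2
import Pool.Agent.Lib_helper45.JOM.D1
import Pool.Agent.Lib_helper45.JOM.D2
import Pool.Agent.Lib_helper45.JOM.D4
import Pool.Agent.Lib_helper45.JOM.D5
import Pool.Agent.Lib_helper45.JOM.P6

/-! JO, Maass frame, block D6 -/

set_option autoImplicit false

namespace Pool.Agent.JO.FM

open Complex Filter Topology MeasureTheory Set
open UpperHalfPlane hiding I
open scoped MatrixGroups ComplexConjugate

theorem d6_gam {s : ℂ} (hs : 0 < s.re) : DifferentiableAt ℂ Gamma s := by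
  refine Complex.differentiableAt_Gamma s fun m h => ?_
  rw [h] at hs
  simp only [neg_re, natCast_re] at hs
  have : (0 : ℝ) ≤ m := Nat.cast_nonneg m
  linarith

theorem d6_bb : DifferentiableOn ℂ SP.bb {s | 0 < s.re} := by
  intro s hs
  have hs' : 0 < s.re := hs
  have h1 : DifferentiableAt ℂ (fun s : ℂ => Gamma s * Gamma s / Gamma (s + s)) s := by
    have h2 : 0 < (s + s).re := by rw [add_re]; linarith
    refine DifferentiableAt.div ((d6_gam hs').mul (d6_gam hs')) ?_ (Gamma_ne_zero_of_re_pos h2)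
    exact DifferentiableAt.comp s (d6_gam h2) (differentiableAt_id.add differentiableAt_id)
  refine (h1.congr_of_eventuallyEq ?_).differentiableWithinAt
  have ho : IsOpen {s : ℂ | 0 < s.re} := isOpen_lt continuous_const Complex.continuous_re
  filter_upwards [ho.mem_nhds hs] with z hz
  have hz' : 0 < z.re := hz
  have h2 : 0 < (z + z).re := by rw [add_re]; linarith
  rw [SP.bb_eq, Complex.Gamma_mul_Gamma_eq_betaIntegral hz' hz',
    mul_div_cancel_left₀ _ (Gamma_ne_zero_of_re_pos h2)]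

section

variable {ν : ℂ} {ε : ℝ} {a : ℕ → ℂ} {f : ℍ → ℂ} {L : ℂ → ℂ}

theorem d6_int (F : Frame0 ν ε a f) (hL : LFun ν ε a f L) {s : ℂ} (hs : 2 < s.re) (σ : ℝ)
    (hσ : σ = 1 ∨ σ = -1) :
    IntegrableOn (fun t : ℝ => ((‖L (ha (σ * t))‖ ^ 2 : ℝ) : ℂ) * (t : ℂ) ^ (-s)) (Ioi 1) := by
  have hg := (growth_int F hL (α := s.re) (by linarith)).mono_set Ioi_subset_Ici_self
  refine Integrable.mono' hg ?_ ?_
  · refine ContinuousOn.aestronglyMeasurable ?_ measurableSet_Ioi
    have hc : Continuous fun t : ℝ => ((‖L (ha (σ * t))‖ ^ 2 : ℝ) : ℂ) := by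
      have hLc := hL.diff.continuous
      unfold ha
      fun_prop
    refine hc.continuousOn.mul ?_
    intro t ht
    have ht0 : (0 : ℝ) < t := lt_trans one_pos ht
    refine ContinuousAt.continuousWithinAt ?_
    have h1 : ContinuousAt (fun x : ℂ => x ^ (-s)) (t : ℂ) :=
      continuousAt_cpow_const (Or.inl (by simpa using ht0))
    exact ContinuousAt.comp (f := fun x : ℝ => (x : ℂ)) h1 Complex.continuous_ofReal.continuousAt
  · refine (ae_restrict_iff' measurableSet_Ioi).mpr (Eventually.of_forall fun t ht => ?_)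
    have ht0 : (0 : ℝ) < t := lt_trans one_pos ht
    rw [norm_mul, Complex.norm_cpow_eq_rpow_re_of_pos ht0, neg_re, Complex.norm_real,
      Real.norm_eq_abs, abs_of_nonneg (by positivity)]
    refine mul_le_mul_of_nonneg_right ?_ (by positivity)
    rcases hσ with h | h
    · rw [h, one_mul]
      have : 0 ≤ ‖L (ha (-t))‖ ^ 2 := by positivity
      linarith
    · rw [h, neg_one_mul]
      have : 0 ≤ ‖L (ha t)‖ ^ 2 := by positivity
      linarith

theorem fm2a_pr (F : Frame0 ν ε a f) (hL : LFun ν ε a f L) {A B : ℝ}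
    (hE : errorTerm L A B =o[atTop] fun T : ℝ => √T) {θ₀ : ℝ} (hθ₀ : θ₀ ∈ SP.II) :
    ∃ M : ℂ → ℂ, DifferentiableOn ℂ M SP.QQ ∧
      (∀ κ : ℝ, 0 < κ → Tendsto (fun η : ℝ => (η : ℂ) * M (SP.pt κ η)) (𝓝[>] 0) (𝓝 0)) ∧
      ∀ s : ℂ, s ∈ SP.QQ → 2 < s.re →
        s * kap ν (s + 1) * Dt (ray (phi f)) θ₀ s - kap ν s * Dt (ray (chi f)) θ₀ s = M s := by
  obtain ⟨m, hm1, hm2, hm3⟩ := mp_cont hL hE (fun α hα => growth_int F hL hα)
  obtain ⟨H1, hH1, hD1⟩ := Dt_phi F hL hθ₀
  obtain ⟨H2, hH2, hD2⟩ := Dt_chi F hL hθ₀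
  have hν := F.nu
  set S : Set ℂ := {s | 1 / 4 < s.re ∧ 0 < s.im} with hS
  have hSo : IsOpen S :=
    (isOpen_lt continuous_const Complex.continuous_re).inter (isOpen_lt continuous_const Complex.continuous_im)
  have hQS : SP.QQ ⊆ S := fun s hs => ⟨by linarith [hs.1], hs.2⟩
  have hk0 : DifferentiableOn ℂ (kap ν) S :=
    (kap_diff hν).mono fun s hs => ⟨by linarith [hs.1], hs.2⟩
  have hk1 : DifferentiableOn ℂ (fun s => kap ν (s + 1)) S := by
    refine DifferentiableOn.comp (kap_diff hν) (differentiableOn_id.add (differentiableOn_const 1)) ?_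
    intro s hs
    have h1 : 0 < s.re := by linarith [hs.1]
    have h2 : 0 < s.im := hs.2
    constructor
    · change 0 < (s + 1).re
      simp only [add_re, one_re]
      linarith
    · change 0 < (s + 1).im
      simp only [add_im, one_im]
      linarith
  have hb : DifferentiableOn ℂ SP.bb S := d6_bb.mono fun s hs => by
    change 0 < s.re
    linarith [hs.1]
  set P : ℂ → ℂ := fun s => 2 * s * SP.bb s * kap ν s * kap ν (s + 1) with hP
  set Q : ℂ → ℂ := fun s => s * kap ν (s + 1) * H1 s - kap ν s * H2 s with hQ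
  have hPd : DifferentiableOn ℂ P S :=
    ((((differentiableOn_const 2).mul differentiableOn_id).mul hb).mul hk0).mul hk1
  have hQd : DifferentiableOn ℂ Q S :=
    ((differentiableOn_id.mul hk1).mul hH1).sub (hk0.mul hH2)
  refine ⟨fun s => P s * m s + Q s, ?_, ?_, ?_⟩
  · exact ((hPd.mono hQS).mul hm1).add (hQd.mono hQS)
  · intro κ hκ
    have hpt : SP.pt κ 0 ∈ S := by
      constructor
      · change 1 / 4 < (SP.pt κ 0).re
        simp [SP.pt]
        norm_num
      · change 0 < (SP.pt κ 0).im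
        simp [SP.pt]
        exact hκ
    have hc : Tendsto (SP.pt κ) (𝓝[>] 0) (𝓝 (SP.pt κ 0)) := by
      have h1 : Continuous (SP.pt κ) := by
        unfold SP.pt
        fun_prop
      exact (h1.tendsto 0).mono_left nhdsWithin_le_nhds
    have hPc : Tendsto (fun η => P (SP.pt κ η)) (𝓝[>] 0) (𝓝 (P (SP.pt κ 0))) :=
      ((hPd.differentiableAt (hSo.mem_nhds hpt)).continuousAt.tendsto).comp hc
    have hQc : Tendsto (fun η => Q (SP.pt κ η)) (𝓝[>] 0) (𝓝 (Q (SP.pt κ 0))) :=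
      ((hQd.differentiableAt (hSo.mem_nhds hpt)).continuousAt.tendsto).comp hc
    have hη : Tendsto (fun η : ℝ => (η : ℂ)) (𝓝[>] 0) (𝓝 0) := by
      have h1 : Tendsto (fun η : ℝ => (η : ℂ)) (𝓝 0) (𝓝 ((0 : ℝ) : ℂ)) :=
        Complex.continuous_ofReal.tendsto 0
      rw [Complex.ofReal_zero] at h1
      exact h1.mono_left nhdsWithin_le_nhds
    have h3 := (hPc.mul (hm2 κ hκ)).add (hη.mul hQc)
    rw [mul_zero, zero_mul, add_zero] at h3
    refine h3.congr fun η => ?_
    ring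
  · intro s hs hs2
    have e0 := hm3 s hs hs2
    have i1 := d6_int F hL hs2 1 (Or.inl rfl)
    have i2 := d6_int F hL hs2 (-1) (Or.inr rfl)
    simp only [one_mul, neg_one_mul] at i1 i2
    have e1 : ∫ t in Ioi (1 : ℝ), ((‖L (ha t)‖ ^ 2 + ‖L (ha (-t))‖ ^ 2 : ℝ) : ℂ) * (t : ℂ) ^ (-s) =
        m s + ∫ t in Ioi (1 : ℝ), ((‖L (ha (-t))‖ ^ 2 : ℝ) : ℂ) * (t : ℂ) ^ (-s) := by
      rw [← e0, ← integral_add i1 i2]
      refine integral_congr_ae (Eventually.of_forall fun t => ?_)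
      simp only
      rw [Complex.ofReal_add, add_mul]
    have e2 : ∫ t in Ioi (1 : ℝ), ((‖L (ha t)‖ ^ 2 - ‖L (ha (-t))‖ ^ 2 : ℝ) : ℂ) * (t : ℂ) ^ (-s) =
        m s - ∫ t in Ioi (1 : ℝ), ((‖L (ha (-t))‖ ^ 2 : ℝ) : ℂ) * (t : ℂ) ^ (-s) := by
      rw [← e0, ← integral_sub i1 i2]
      refine integral_congr_ae (Eventually.of_forall fun t => ?_)
      simp only
      rw [Complex.ofReal_sub, sub_mul]
    rw [hD1 s hs2 hs.2, hD2 s hs2 hs.2, e1, e2]
    simp only [hP, hQ]
    ring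

end


end Pool.Agent.JO.FM

namespace Pool.Agent.JO.FM

theorem fm2a : type_of% @fm2a_pr := @fm2a_pr

end Pool.Agent.JO.FM
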