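import Pool.Agent.Lib_helper45.JO.Defs2
import Pool.Agent.Lib_helper45.JO.Defs3
import Pool.Agent.Lib_helper45.JOM.A2
import Pool.Agent.Lib_helper45.JOM.A3
import Pool.Agent.Lib_helper45.JOM.A4
import Pool.Agent.Lib_helper45.JOM.A6

/-!
# Project JO, part FM, block FA: the form interface of Maass forms of weight `0`
-/

set_option autoImplicit false

namespace Pool.Agent.JO.FM

open Complex Filter Topology MeasureTheory Set
open UpperHalfPlane hiding I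
open scoped MatrixGroups ComplexConjugate

/-- the parameter -/
theorem fa_nu {ev : ℝ} (hev : 0 < ev) : ∃ ν : ℂ, GoodNu ν ∧ ν ^ 2 = 1 / 4 - ev := by
  rcases le_total ev (1 / 4) with h | h
  · refine ⟨((√(1 / 4 - ev) : ℝ) : ℂ), ⟨?_, ?_, ?_⟩, ?_⟩
    · rw [Complex.ofReal_re]; exact Real.sqrt_nonneg _
    · rw [Complex.ofReal_re]
      rw [Real.sqrt_lt' (by norm_num)]
      linarith
    · left; exact Complex.ofReal_im _
    · rw [← Complex.ofReal_pow, Real.sq_sqrt (by linarith)]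
      push_cast
      ring
  · refine ⟨((√(ev - 1 / 4) : ℝ) : ℂ) * I, ⟨?_, ?_, ?_⟩, ?_⟩
    · rw [Complex.re_ofReal_mul, Complex.I_re, mul_zero]
    · rw [Complex.re_ofReal_mul, Complex.I_re, mul_zero]; norm_num
    · right; rw [Complex.re_ofReal_mul, Complex.I_re, mul_zero]
    · rw [mul_pow, Complex.I_sq, ← Complex.ofReal_pow, Real.sq_sqrt (by linarith)]
      push_cast
      ring

/-- exponential decay at every cusp -/
theorem fa_exp {N : ℕ} [NeZero N] {χ : DirichletCharacter ℂ N} {ev : ℝ} {f : ℍ → ℂ}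
    (h : IsMaassForm N χ 0 ev f) (hev : 0 < ev) (σ : SL(2, ℤ)) :
    ∃ C c : ℝ, 0 < c ∧ ∀ z : ℍ, 1 / 2 ≤ z.im →
      ‖f (σ • z)‖ ≤ C * Real.exp (-(c * z.im)) ∧
      ‖dX (fun w => f (σ • w)) z‖ ≤ C * Real.exp (-(c * z.im)) ∧
      ‖dY (fun w => f (σ • w)) z‖ ≤ C * Real.exp (-(c * z.im)) := by
  obtain ⟨ν, hν, hν2⟩ := fa_nu hev
  obtain ⟨B, hB⟩ := maass_bdd h
  have hN : 0 < N := Nat.pos_of_ne_zero (NeZero.ne N)
  obtain ⟨β, hβ⟩ := expn_of_perEig hN hν hν2 hev (perEig_slash h σ) ⟨B, fun z => hB _⟩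
  exact expn_decay hN hν hβ

theorem fa_chi_norm {N : ℕ} [NeZero N] (χ : DirichletCharacter ℂ N) (γ : SL(2, ℤ))
    (hγ : (N : ℤ) ∣ γ 1 0) : ‖χ ((γ 1 1 : ℤ) : ZMod N)‖ = 1 := by
  have hdet : (γ 0 0 : ℤ) * γ 1 1 - γ 0 1 * γ 1 0 = 1 := by
    have := γ.det_coe
    rwa [Matrix.det_fin_two] at this
  have h0 : ((γ 1 0 : ℤ) : ZMod N) = 0 := by
    rw [ZMod.intCast_zmod_eq_zero_iff_dvd]; exact hγ
  have h1 : ((γ 0 0 : ℤ) : ZMod N) * ((γ 1 1 : ℤ) : ZMod N) = 1 := by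
    have h2 := congrArg (fun k : ℤ => (k : ZMod N)) hdet
    push_cast at h2
    rw [h0, mul_zero, sub_zero] at h2
    exact h2
  have hu : IsUnit ((γ 1 1 : ℤ) : ZMod N) := IsUnit.of_mul_eq_one _ (by rw [mul_comm]; exact h1)
  obtain ⟨u, hu⟩ := hu
  rw [← hu]
  exact DirichletCharacter.unit_norm_eq_one χ u

/-- finitely many representatives of `Γ₀(N) \ SL₂(ℤ)` -/
theorem fa_reps (N : ℕ) [NeZero N] :
    ∃ (ι : Type) (_ : Finite ι) (rp : ι → SL(2, ℤ)), ∀ γ : SL(2, ℤ), ∃ (i : ι) (δ : SL(2, ℤ)),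
      (N : ℤ) ∣ δ 1 0 ∧ γ = δ * rp i := by
  refine ⟨SL(2, ℤ) ⧸ CongruenceSubgroup.Gamma0 N, inferInstance,
    fun x => (Quotient.out x)⁻¹, fun γ => ?_⟩
  obtain ⟨δ, hδ⟩ := QuotientGroup.mk_out_eq_mul (CongruenceSubgroup.Gamma0 N) γ⁻¹
  refine ⟨QuotientGroup.mk γ⁻¹, (δ : SL(2, ℤ)), ?_, ?_⟩
  · have := CongruenceSubgroup.Gamma0_mem.1 δ.2
    rwa [ZMod.intCast_zmod_eq_zero_iff_dvd] at this
  · have h1 : (Quotient.out (QuotientGroup.mk γ⁻¹ : SL(2, ℤ) ⧸ CongruenceSubgroup.Gamma0 N)) =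
        γ⁻¹ * (δ : SL(2, ℤ)) := hδ
    change γ = (δ : SL(2, ℤ)) *
      (Quotient.out (QuotientGroup.mk γ⁻¹ : SL(2, ℤ) ⧸ CongruenceSubgroup.Gamma0 N))⁻¹
    rw [h1]
    group

/-- a uniform bound from a bound for every representative -/
theorem fa_unif {N : ℕ} [NeZero N] {G : ℍ → ℝ}
    (hinv : ∀ δ : SL(2, ℤ), (N : ℤ) ∣ δ 1 0 → ∀ z : ℍ, G (δ • z) = G z)
    (h : ∀ σ : SL(2, ℤ), ∃ C c : ℝ, 0 < c ∧ ∀ z : ℍ, 1 / 2 ≤ z.im →
      G (σ • z) ≤ C * Real.exp (-(c * z.im))) :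
    ∃ C c : ℝ, 0 < c ∧ ∀ (γ : SL(2, ℤ)) (z : ℍ), 1 / 2 ≤ z.im →
      G (γ • z) ≤ C * Real.exp (-c * z.im) := by
  obtain ⟨ι, hι, rp, hrp⟩ := fa_reps N
  choose C c hc hb using h
  have hne : Nonempty ι := by
    obtain ⟨i, -⟩ := hrp 1
    exact ⟨i⟩
  obtain ⟨i₁, h₁⟩ := Finite.exists_max (fun i => |C (rp i)|)
  obtain ⟨i₂, h₂⟩ := Finite.exists_min (fun i => c (rp i))
  refine ⟨|C (rp i₁)|, c (rp i₂), hc _, fun γ z hz => ?_⟩
  obtain ⟨i, δ, hδ, rfl⟩ := hrp γ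
  rw [mul_smul, hinv δ hδ]
  refine (hb (rp i) z hz).trans ?_
  have hz0 : 0 < z.im := z.im_pos
  calc C (rp i) * Real.exp (-(c (rp i) * z.im))
      ≤ |C (rp i₁)| * Real.exp (-(c (rp i) * z.im)) :=
        mul_le_mul_of_nonneg_right ((le_abs_self _).trans (h₁ i)) (Real.exp_pos _).le
    _ ≤ |C (rp i₁)| * Real.exp (-c (rp i₂) * z.im) := by
        apply mul_le_mul_of_nonneg_left _ (abs_nonneg _)
        apply Real.exp_le_exp.2
        have := mul_le_mul_of_nonneg_right (h₂ i) hz0.le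
        linarith

theorem wform_maass0_pr {N : ℕ} [NeZero N] {χ : DirichletCharacter ℂ N} {ev : ℝ} {f : ℍ → ℂ}
    {a : ℕ → ℂ} (h : IsHeckeMaass N χ 0 ev f a) : WForm N χ 0 a f := by
  have hev : 0 < ev := by
    rcases h.weight with h1 | h1
    · exact h1.2
    · exact absurd h1.1 (by norm_num)
  have hM := h.toIsMaassForm
  refine ⟨?_, ?_, ?_, ?_⟩
  · have h1 : ContinuousOn (fun z : ℂ => f (ofComplex z)) {z | 0 < z.im} :=
      hM.smooth.continuousOn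
    have h2 : Continuous fun z : ℍ => (fun z : ℂ => f (ofComplex z)) (z : ℂ) :=
      h1.comp_continuous UpperHalfPlane.continuous_coe (fun z => z.im_pos)
    have h3 : (fun z : ℍ => (fun z : ℂ => f (ofComplex z)) (z : ℂ)) = f := by
      funext z
      change f (ofComplex (z : ℂ)) = f z
      rw [ofComplex_apply]
    rwa [h3] at h2
  · exact hM.automorphic
  · refine fa_unif (G := fun z => ‖f z‖) (N := N) ?_ ?_
    · intro δ hδ z
      rw [hM.automorphic δ hδ z, pow_zero, mul_one, norm_mul, fa_chi_norm χ δ hδ, one_mul]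
    · intro σ
      obtain ⟨C, c, hc, h1⟩ := fa_exp hM hev σ
      exact ⟨C, c, hc, fun z hz => (h1 z hz).1⟩
  · intro p hp _ z
    exact h.hecke p hp.pos z

end Pool.Agent.JO.FM

namespace Pool.Agent.JO.FM

theorem wform_maass0 : type_of% @wform_maass0_pr := @wform_maass0_pr

end Pool.Agent.JO.FM
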