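import Pool.Agent.Lib_helper45.JO.Defs2
import Pool.Agent.Lib_helper45.JO.Defs3
import Pool.Agent.Lib_helper45.JOM.A2
import Pool.Agent.Lib_helper45.JOM.A3
import Pool.Agent.Lib_helper45.JOM.A4

/-! JO, Maass frame, block FB -/

set_option autoImplicit false

namespace Pool.Agent.JO.FM

open Complex Filter Topology MeasureTheory Set
open UpperHalfPlane hiding I
open scoped MatrixGroups ComplexConjugate

theorem fb_pz (z : ℍ) : pz z.re z.im = z := by
  unfold pz
  have h : (z.re : ℂ) + z.im * I = (z : ℂ) := Complex.re_add_im (z : ℂ)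
  rw [h, ofComplex_apply]

theorem fb_smul (γ : SL(2, ℤ)) (z : ℍ) : toR γ • z = γ • z := rfl

theorem fb_lift {N : ℕ} (f : ℍ → ℂ) (s : QN N) (z : ℍ) :
    liftK 0 f s (gg z 0) = f ((lft s)⁻¹ • z) := by
  unfold liftK
  have h1 : (toR (lft s))⁻¹ = toR (lft s)⁻¹ := (map_inv _ _).symm
  rw [pow_zero, inv_one, mul_one, mul_smul, gg_smul_I, h1, fb_smul]

theorem hasExp_maass0_pr {N : ℕ} [NeZero N] {χ : DirichletCharacter ℂ N} {ev : ℝ} {f : ℍ → ℂ}
    {a : ℕ → ℂ} (h : IsHeckeMaass N χ 0 ev f a) {ν : ℂ} (hν : GoodNu ν)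
    (hev : ν ^ 2 = 1 / 4 - ev) :
    HasExp (N := N) (fun y => WW ν (2 * Real.pi * y)) (fun y => WW ν (2 * Real.pi * y))
      (liftK 0 f) := by
  have h0 : 0 < ev := by
    rcases h.weight with hw | hw
    · exact hw.2
    · exact absurd hw.1 (by norm_num)
  intro s
  have hper := perEig_slash h.toIsMaassForm (lft s)⁻¹
  obtain ⟨C, hC⟩ := maass_bdd h.toIsMaassForm
  obtain ⟨β, hβ⟩ := expn_of_perEig (NeZero.pos N) hν hev h0 hper ⟨C, fun z => hC _⟩
  have harg : ∀ (n : ℤ) (y : ℝ), 2 * Real.pi * (|(n : ℝ)| * y / N) = 2 * Real.pi * |(n : ℝ)| * y / N :=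
    fun n y => by ring
  refine ⟨β, hβ.zero, fun y hy => ?_, fun z => ?_⟩
  · refine ((hβ.hasSum 0 y hy).summable.norm).congr fun n => ?_
    rw [ite_self]
    beta_reduce
    rw [harg, norm_mul, Complex.norm_exp_ofReal_mul_I, mul_one]
  · rw [fb_lift]
    have h1 := (hβ.hasSum z.re z.im z.im_pos).tsum_eq
    rw [fb_pz] at h1
    rw [← h1]
    refine tsum_congr fun n => ?_
    rw [ite_self]
    beta_reduce
    rw [harg]
    congr 2
    push_cast
    ring


end Pool.Agent.JO.FM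

namespace Pool.Agent.JO.FM

theorem hasExp_maass0 : type_of% @hasExp_maass0_pr := @hasExp_maass0_pr

end Pool.Agent.JO.FM
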