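import Pool.Agent.Lib_helper45.JO.Defs2
import Pool.Agent.Lib_helper45.JO.Defs3
import Pool.Agent.Lib_helper45.JOM.A2
import Pool.Agent.Lib_helper45.JOM.A3
import Pool.Agent.Lib_helper45.JOM.A4
import Pool.Agent.Lib_helper45.JOM.A6
import Pool.Agent.Lib_helper45.JOM.A7

/-!
# Project JO, part FM, block FC: the density `χ` of a Maass form of weight `0`
-/

set_option autoImplicit false

namespace Pool.Agent.JO.FM

open Complex Filter Topology MeasureTheory Set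
open UpperHalfPlane hiding I
open scoped MatrixGroups ComplexConjugate

/-- the parameter -/
theorem fc_nu {ev : ℝ} (hev : 0 < ev) : ∃ ν : ℂ, GoodNu ν ∧ ν ^ 2 = 1 / 4 - ev := by
  rcases le_total ev (1 / 4) with h | h
  · refine ⟨((√(1 / 4 - ev) : ℝ) : ℂ), ⟨?_, ?_, ?_⟩, ?_⟩
    · rw [Complex.ofReal_re]; exact Real.sqrt_nonneg _
    · rw [Complex.ofReal_re]
      rw [Real.sqrt_lt' (by norm_num)]
      linarith
    · left; exact Complex.ofReal_im _
    · rw [← Complex.ofReal_pow, Real.sq_sqrt (by linarith)]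
      push_cast
      ring
  · refine ⟨((√(ev - 1 / 4) : ℝ) : ℂ) * I, ⟨?_, ?_, ?_⟩, ?_⟩
    · rw [Complex.re_ofReal_mul, Complex.I_re, mul_zero]
    · rw [Complex.re_ofReal_mul, Complex.I_re, mul_zero]; norm_num
    · right; rw [Complex.re_ofReal_mul, Complex.I_re, mul_zero]
    · rw [mul_pow, Complex.I_sq, ← Complex.ofReal_pow, Real.sq_sqrt (by linarith)]
      push_cast
      ring

/-- exponential decay at every cusp -/
theorem fc_exp {N : ℕ} [NeZero N] {χ : DirichletCharacter ℂ N} {ev : ℝ} {f : ℍ → ℂ}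
    (h : IsMaassForm N χ 0 ev f) (hev : 0 < ev) (σ : SL(2, ℤ)) :
    ∃ C c : ℝ, 0 < c ∧ ∀ z : ℍ, 1 / 2 ≤ z.im →
      ‖f (σ • z)‖ ≤ C * Real.exp (-(c * z.im)) ∧
      ‖dX (fun w => f (σ • w)) z‖ ≤ C * Real.exp (-(c * z.im)) ∧
      ‖dY (fun w => f (σ • w)) z‖ ≤ C * Real.exp (-(c * z.im)) := by
  obtain ⟨ν, hν, hν2⟩ := fc_nu hev
  obtain ⟨B, hB⟩ := maass_bdd h
  have hN : 0 < N := Nat.pos_of_ne_zero (NeZero.ne N)
  obtain ⟨β, hβ⟩ := expn_of_perEig hN hν hν2 hev (perEig_slash h σ) ⟨B, fun z => hB _⟩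
  exact expn_decay hN hν hβ

theorem fc_chi_norm {N : ℕ} [NeZero N] (χ : DirichletCharacter ℂ N) (γ : SL(2, ℤ))
    (hγ : (N : ℤ) ∣ γ 1 0) : ‖χ ((γ 1 1 : ℤ) : ZMod N)‖ = 1 := by
  have hdet : (γ 0 0 : ℤ) * γ 1 1 - γ 0 1 * γ 1 0 = 1 := by
    have := γ.det_coe
    rwa [Matrix.det_fin_two] at this
  have h0 : ((γ 1 0 : ℤ) : ZMod N) = 0 := by
    rw [ZMod.intCast_zmod_eq_zero_iff_dvd]; exact hγ
  have h1 : ((γ 0 0 : ℤ) : ZMod N) * ((γ 1 1 : ℤ) : ZMod N) = 1 := by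
    have h2 := congrArg (fun k : ℤ => (k : ZMod N)) hdet
    push_cast at h2
    rw [h0, mul_zero, sub_zero] at h2
    exact h2
  have hu : IsUnit ((γ 1 1 : ℤ) : ZMod N) := IsUnit.of_mul_eq_one _ (by rw [mul_comm]; exact h1)
  obtain ⟨u, hu⟩ := hu
  rw [← hu]
  exact DirichletCharacter.unit_norm_eq_one χ u

/-- finitely many representatives of `Γ₀(N) \ SL₂(ℤ)` -/
theorem fc_reps (N : ℕ) [NeZero N] :
    ∃ (ι : Type) (_ : Finite ι) (rp : ι → SL(2, ℤ)), ∀ γ : SL(2, ℤ), ∃ (i : ι) (δ : SL(2, ℤ)),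
      (N : ℤ) ∣ δ 1 0 ∧ γ = δ * rp i := by
  refine ⟨SL(2, ℤ) ⧸ CongruenceSubgroup.Gamma0 N, inferInstance,
    fun x => (Quotient.out x)⁻¹, fun γ => ?_⟩
  obtain ⟨δ, hδ⟩ := QuotientGroup.mk_out_eq_mul (CongruenceSubgroup.Gamma0 N) γ⁻¹
  refine ⟨QuotientGroup.mk γ⁻¹, (δ : SL(2, ℤ)), ?_, ?_⟩
  · have := CongruenceSubgroup.Gamma0_mem.1 δ.2
    rwa [ZMod.intCast_zmod_eq_zero_iff_dvd] at this
  · have h1 : (Quotient.out (QuotientGroup.mk γ⁻¹ : SL(2, ℤ) ⧸ CongruenceSubgroup.Gamma0 N)) =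
        γ⁻¹ * (δ : SL(2, ℤ)) := hδ
    change γ = (δ : SL(2, ℤ)) *
      (Quotient.out (QuotientGroup.mk γ⁻¹ : SL(2, ℤ) ⧸ CongruenceSubgroup.Gamma0 N))⁻¹
    rw [h1]
    group

/-- a uniform bound from a bound for every representative -/
theorem fc_unif {N : ℕ} [NeZero N] {G : ℍ → ℝ}
    (hinv : ∀ δ : SL(2, ℤ), (N : ℤ) ∣ δ 1 0 → ∀ z : ℍ, G (δ • z) = G z)
    (h : ∀ σ : SL(2, ℤ), ∃ C c : ℝ, 0 < c ∧ ∀ z : ℍ, 1 / 2 ≤ z.im →
      G (σ • z) ≤ C * Real.exp (-(c * z.im))) :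
    ∃ C c : ℝ, 0 < c ∧ ∀ (γ : SL(2, ℤ)) (z : ℍ), 1 / 2 ≤ z.im →
      G (γ • z) ≤ C * Real.exp (-c * z.im) := by
  obtain ⟨ι, hι, rp, hrp⟩ := fc_reps N
  choose C c hc hb using h
  have hne : Nonempty ι := by
    obtain ⟨i, -⟩ := hrp 1
    exact ⟨i⟩
  obtain ⟨i₁, h₁⟩ := Finite.exists_max (fun i => |C (rp i)|)
  obtain ⟨i₂, h₂⟩ := Finite.exists_min (fun i => c (rp i))
  refine ⟨|C (rp i₁)|, c (rp i₂), hc _, fun γ z hz => ?_⟩
  obtain ⟨i, δ, hδ, rfl⟩ := hrp γ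
  rw [mul_smul, hinv δ hδ]
  refine (hb (rp i) z hz).trans ?_
  have hz0 : 0 < z.im := z.im_pos
  calc C (rp i) * Real.exp (-(c (rp i) * z.im))
      ≤ |C (rp i₁)| * Real.exp (-(c (rp i) * z.im)) :=
        mul_le_mul_of_nonneg_right ((le_abs_self _).trans (h₁ i)) (Real.exp_pos _).le
    _ ≤ |C (rp i₁)| * Real.exp (-c (rp i₂) * z.im) := by
        apply mul_le_mul_of_nonneg_left _ (abs_nonneg _)
        apply Real.exp_le_exp.2
        have := mul_le_mul_of_nonneg_right (h₂ i) hz0.le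
        linarith

/-! ### the partial derivatives -/

theorem fc_diffAt {f : ℍ → ℂ}
    (hf : ContDiffOn ℝ 2 (fun z : ℂ => f (ofComplex z)) {z | 0 < z.im}) (z : ℍ) :
    DifferentiableAt ℝ (fun z : ℂ => f (ofComplex z)) (z : ℂ) := by
  have ho : IsOpen {z : ℂ | 0 < z.im} := isOpen_lt continuous_const Complex.continuous_im
  exact ((hf.contDiffAt (ho.mem_nhds z.im_pos)).differentiableAt (by norm_num))

theorem fc_dX {f : ℍ → ℂ}
    (hf : ContDiffOn ℝ 2 (fun z : ℂ => f (ofComplex z)) {z | 0 < z.im}) (z : ℍ) :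
    dX f z = fderiv ℝ (fun z : ℂ => f (ofComplex z)) (z : ℂ) 1 := by
  have h1 : HasFDerivAt (fun z : ℂ => f (ofComplex z))
      (fderiv ℝ (fun z : ℂ => f (ofComplex z)) (z : ℂ)) ((z : ℂ) + ((0 : ℝ) : ℂ)) := by
    rw [Complex.ofReal_zero, add_zero]
    exact (fc_diffAt hf z).hasFDerivAt
  have h2 : HasDerivAt (fun t : ℝ => (z : ℂ) + (t : ℂ)) 1 0 :=
    (Complex.ofRealCLM.hasDerivAt (x := (0 : ℝ))).const_add (z : ℂ)
  exact (h1.comp_hasDerivAt (0 : ℝ) h2).deriv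

theorem fc_dY {f : ℍ → ℂ}
    (hf : ContDiffOn ℝ 2 (fun z : ℂ => f (ofComplex z)) {z | 0 < z.im}) (z : ℍ) :
    dY f z = fderiv ℝ (fun z : ℂ => f (ofComplex z)) (z : ℂ) I := by
  have h1 : HasFDerivAt (fun z : ℂ => f (ofComplex z))
      (fderiv ℝ (fun z : ℂ => f (ofComplex z)) (z : ℂ)) ((z : ℂ) + ((0 : ℝ) : ℂ) * I) := by
    rw [Complex.ofReal_zero, zero_mul, add_zero]
    exact (fc_diffAt hf z).hasFDerivAt
  have h2 : HasDerivAt (fun t : ℝ => (z : ℂ) + (t : ℂ) * I) (1 * I) 0 :=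
    ((Complex.ofRealCLM.hasDerivAt (x := (0 : ℝ))).mul_const I).const_add (z : ℂ)
  rw [one_mul] at h2
  exact (h1.comp_hasDerivAt (0 : ℝ) h2).deriv

theorem fc_cont_fderiv {f : ℍ → ℂ}
    (hf : ContDiffOn ℝ 2 (fun z : ℂ => f (ofComplex z)) {z | 0 < z.im}) (v : ℂ) :
    Continuous fun z : ℍ => fderiv ℝ (fun z : ℂ => f (ofComplex z)) (z : ℂ) v := by
  have ho : IsOpen {z : ℂ | 0 < z.im} := isOpen_lt continuous_const Complex.continuous_im
  have h1 : ContinuousOn (fun z : ℂ => fderiv ℝ (fun z : ℂ => f (ofComplex z)) z)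
      {z | 0 < z.im} := hf.continuousOn_fderiv_of_isOpen ho (by norm_num)
  have h2 : Continuous fun z : ℍ => fderiv ℝ (fun z : ℂ => f (ofComplex z)) (z : ℂ) :=
    h1.comp_continuous UpperHalfPlane.continuous_coe (fun z => z.im_pos)
  exact h2.clm_apply continuous_const

theorem fc_dX_mul (c : ℂ) (f : ℍ → ℂ) (z : ℍ) : dX (fun w => c * f w) z = c * dX f z := by
  unfold dX
  rw [deriv_const_mul_field]

theorem fc_dY_mul (c : ℂ) (f : ℍ → ℂ) (z : ℍ) : dY (fun w => c * f w) z = c * dY f z := by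
  unfold dY
  rw [deriv_const_mul_field]

theorem fc_chi_mul {c : ℂ} (hc : ‖c‖ = 1) (f : ℍ → ℂ) (z : ℍ) :
    chi (fun w => c * f w) z = chi f z := by
  unfold chi
  rw [fc_dX_mul, fc_dY_mul]
  have h1 : conj (c * dX f z) * (c * dY f z) = conj (dX f z) * dY f z := by
    have h2 : conj c * c = 1 := by
      rw [Complex.conj_mul', hc]; norm_num
    calc conj (c * dX f z) * (c * dY f z) = conj c * c * (conj (dX f z) * dY f z) := by
          rw [map_mul]; ring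
      _ = _ := by rw [h2, one_mul]
  rw [h1]

theorem fc_chi_inv {N : ℕ} [NeZero N] {χ : DirichletCharacter ℂ N} {ev : ℝ} {f : ℍ → ℂ}
    (h : IsMaassForm N χ 0 ev f) (γ : SL(2, ℤ)) (hγ : (N : ℤ) ∣ γ 1 0) (z : ℍ) :
    chi f (γ • z) = chi f z := by
  have h1 := (grad_inv h.smooth γ z).2
  have h2 : (fun w => f (γ • w)) = fun w => χ ((γ 1 1 : ℤ) : ZMod N) * f w := by
    funext w
    rw [h.automorphic γ hγ w, pow_zero, mul_one]
  rw [h2, fc_chi_mul (fc_chi_norm χ γ hγ)] at h1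
  exact h1.symm

theorem fc_chi_le (f : ℍ → ℂ) (z : ℍ) {D : ℝ} (h1 : ‖dX f z‖ ≤ D) (h2 : ‖dY f z‖ ≤ D) :
    ‖chi f z‖ ≤ 2 * z.im ^ 2 * D ^ 2 := by
  unfold chi
  rw [Complex.norm_real, Real.norm_eq_abs, abs_mul, abs_mul, abs_two, abs_pow,
    abs_of_pos z.im_pos]
  apply mul_le_mul_of_nonneg_left _ (by positivity)
  refine (Complex.abs_im_le_norm _).trans ?_
  rw [norm_mul, Complex.norm_conj, pow_two]
  exact mul_le_mul h1 h2 (norm_nonneg _) ((norm_nonneg _).trans h1)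

theorem chi_maass0_pr {N : ℕ} [NeZero N] {χ : DirichletCharacter ℂ N} {ev : ℝ} {f : ℍ → ℂ}
    (h : IsMaassForm N χ 0 ev f) (hev : 0 < ev) :
    Continuous (chi f) ∧
    (∀ γ : SL(2, ℤ), (N : ℤ) ∣ γ 1 0 → ∀ z : ℍ, chi f (γ • z) = chi f z) ∧
    ∃ C c : ℝ, 0 < c ∧ ∀ (γ : SL(2, ℤ)) (z : ℍ), 1 / 2 ≤ z.im →
      ‖chi f (γ • z)‖ ≤ C * Real.exp (-c * z.im) := by
  refine ⟨?_, fc_chi_inv h, ?_⟩
  · have hX : Continuous (dX f) := by
      have : dX f = fun z : ℍ => fderiv ℝ (fun z : ℂ => f (ofComplex z)) (z : ℂ) 1 := by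
        funext z; exact fc_dX h.smooth z
      rw [this]
      exact fc_cont_fderiv h.smooth 1
    have hY : Continuous (dY f) := by
      have : dY f = fun z : ℍ => fderiv ℝ (fun z : ℂ => f (ofComplex z)) (z : ℂ) I := by
        funext z; exact fc_dY h.smooth z
      rw [this]
      exact fc_cont_fderiv h.smooth I
    unfold chi
    refine Complex.continuous_ofReal.comp ?_
    refine (continuous_const.mul (UpperHalfPlane.continuous_im.pow 2)).mul ?_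
    exact Complex.continuous_im.comp ((Complex.continuous_conj.comp hX).mul hY)
  · refine fc_unif (G := fun z => ‖chi f z‖) (N := N) ?_ ?_
    · intro δ hδ z
      rw [fc_chi_inv h δ hδ z]
    · intro σ
      obtain ⟨C, c, hc, h1⟩ := fc_exp h hev σ
      refine ⟨2 * C ^ 2 * (2 / c) ^ 2, c, hc, fun z hz => ?_⟩
      obtain ⟨-, h2, h3⟩ := h1 z hz
      have hz0 := z.im_pos
      have h4 : ‖chi f (σ • z)‖ ≤ 2 * z.im ^ 2 * (C * Real.exp (-(c * z.im))) ^ 2 := by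
        rw [← (grad_inv h.smooth σ z).2]
        exact fc_chi_le _ z h2 h3
      have h5 : c / 2 * z.im * Real.exp (-(c / 2 * z.im)) ≤ 1 := by
        rw [Real.exp_neg, ← div_eq_mul_inv, div_le_one (Real.exp_pos _)]
        linarith [Real.add_one_le_exp (c / 2 * z.im)]
      have h5' : 0 ≤ c / 2 * z.im * Real.exp (-(c / 2 * z.im)) := by positivity
      have h6 : Real.exp (-(c * z.im)) =
          Real.exp (-(c / 2 * z.im)) * Real.exp (-(c / 2 * z.im)) := by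
        rw [← Real.exp_add]; congr 1; ring
      have h7 : z.im ^ 2 * Real.exp (-(c * z.im)) ≤ (2 / c) ^ 2 := by
        have h8 : (z.im * Real.exp (-(c / 2 * z.im))) ≤ 2 / c := by
          rw [le_div_iff₀ hc]
          nlinarith
        have h9 : 0 ≤ z.im * Real.exp (-(c / 2 * z.im)) := by positivity
        calc z.im ^ 2 * Real.exp (-(c * z.im)) = (z.im * Real.exp (-(c / 2 * z.im))) ^ 2 := by
              rw [h6]; ring
          _ ≤ (2 / c) ^ 2 := pow_le_pow_left₀ h9 h8 2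
      refine h4.trans ?_
      calc 2 * z.im ^ 2 * (C * Real.exp (-(c * z.im))) ^ 2
          = 2 * C ^ 2 * (z.im ^ 2 * Real.exp (-(c * z.im))) * Real.exp (-(c * z.im)) := by ring
        _ ≤ 2 * C ^ 2 * (2 / c) ^ 2 * Real.exp (-(c * z.im)) := by
            apply mul_le_mul_of_nonneg_right _ (Real.exp_pos _).le
            exact mul_le_mul_of_nonneg_left h7 (by positivity)

end Pool.Agent.JO.FM

namespace Pool.Agent.JO.FM

theorem chi_maass0 : type_of% @chi_maass0_pr := @chi_maass0_pr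

end Pool.Agent.JO.FM
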