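import Pool.Agent.Lib_helper45.JO.Defs2
import Pool.Agent.Lib_helper45.JO.Defs3

/-! Project JO, part FM, block FD (by helper14). -/

set_option autoImplicit false
set_option linter.unusedSectionVars false

namespace Pool.Agent.JO.FM

open Complex Filter Topology MeasureTheory Set
open UpperHalfPlane hiding I
open scoped MatrixGroups ComplexConjugate

theorem fd_coe {x y : ℝ} (hy : 0 < y) : ((pz x y : ℍ) : ℂ) = (x : ℂ) + y * I := by
  have h : 0 < ((x : ℂ) + y * I).im := by simpa using hy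
  rw [pz, ofComplex_apply_of_im_pos h]

theorem fd_im {x y : ℝ} (hy : 0 < y) : (pz x y).im = y := by
  have h := congrArg Complex.im (fd_coe (x := x) hy)
  simpa using h

theorem fd_pt (r θ : ℝ) : ofComplex ((r : ℂ) * cexp ((θ : ℂ) * I)) =
    pz (r * Real.cos θ) (r * Real.sin θ) := by
  rw [pz, Complex.exp_mul_I]
  congr 1
  push_cast
  ring

theorem fd_cf {ε : ℝ} (hε : ε = 1 ∨ ε = -1) (a : ℕ → ℂ) (n : ℤ) :
    cf ε a (-n) = ε * cf ε a n := by
  have h2 : (ε : ℂ) * ε = 1 := by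
    rcases hε with rfl | rfl <;> simp
  unfold cf
  rcases lt_trichotomy n 0 with h | h | h
  · rw [if_neg (by omega), if_neg (by omega : ¬ -n < 0), if_neg (by omega), if_pos h,
      Int.natAbs_neg]
    rw [← mul_assoc, ← mul_assoc, h2]
  · subst h
    simp
  · rw [if_neg (by omega), if_pos (by omega : -n < 0), if_neg (by omega),
      if_neg (by omega : ¬ n < 0), Int.natAbs_neg]
    ring

theorem fd_symm {ν : ℂ} {ε : ℝ} {a : ℕ → ℂ} {f : ℍ → ℂ} (F : Frame0 ν ε a f) (x : ℝ) {y : ℝ}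
    (hy : 0 < y) : f (pz (-x) y) = ε * f (pz x y) := by
  have h1 := F.expn.hasSum (-x) y hy
  have h2 := (F.expn.hasSum x y hy).mul_left (ε : ℂ)
  rw [← (Equiv.neg ℤ).hasSum_iff] at h1
  have h5 : ((fun m : ℤ => cf ε a m * WW ν (2 * Real.pi * |(m : ℝ)| * y / (1 : ℕ)) *
      cexp ((2 * Real.pi * m * -x / (1 : ℕ) : ℝ) * I)) ∘ (Equiv.neg ℤ)) = fun m : ℤ => (ε : ℂ) *
      (cf ε a m * WW ν (2 * Real.pi * |(m : ℝ)| * y / (1 : ℕ)) *
        cexp ((2 * Real.pi * m * x / (1 : ℕ) : ℝ) * I)) := by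
    funext m
    simp only [Function.comp_apply, Equiv.neg_apply]
    rw [fd_cf F.eps]
    have h3 : |((-m : ℤ) : ℝ)| = |(m : ℝ)| := by
      rw [Int.cast_neg, abs_neg]
    have h4 : (2 * Real.pi * ((-m : ℤ) : ℝ) * -x / ((1 : ℕ) : ℝ) : ℝ) =
        2 * Real.pi * (m : ℝ) * x / ((1 : ℕ) : ℝ) := by
      push_cast
      ring
    rw [h3, h4]
    ring
  rw [h5] at h1
  exact h1.unique h2

theorem fd_phi {ν : ℂ} {ε : ℝ} {a : ℕ → ℂ} {f : ℍ → ℂ} (F : Frame0 ν ε a f) (x : ℝ) {y : ℝ}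
    (hy : 0 < y) : phi f (pz (-x) y) = phi f (pz x y) := by
  unfold phi
  rw [fd_symm F x hy, norm_mul]
  have h : ‖(ε : ℂ)‖ = 1 := by
    rcases F.eps with h | h <;> simp [h]
  rw [h, one_mul]

theorem fd_dX {ν : ℂ} {ε : ℝ} {a : ℕ → ℂ} {f : ℍ → ℂ} (F : Frame0 ν ε a f) (x : ℝ) {y : ℝ}
    (hy : 0 < y) : dX f (pz (-x) y) = -(ε * dX f (pz x y)) := by
  unfold dX
  have h1 : (fun t : ℝ => f (ofComplex (((pz (-x) y : ℍ) : ℂ) + t))) =
      fun t : ℝ => (ε : ℂ) * (fun u : ℝ => f (ofComplex (((pz x y : ℍ) : ℂ) + u))) (-t) := by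
    funext t
    have h2 := fd_symm F (x - t) hy
    simp only [pz] at h2
    simp only
    rw [fd_coe hy, fd_coe hy]
    have h3 : ((-x : ℝ) : ℂ) + y * I + t = ((-(x - t) : ℝ) : ℂ) + y * I := by
      push_cast
      ring
    have h4 : (x : ℂ) + y * I + ((-t : ℝ) : ℂ) = ((x - t : ℝ) : ℂ) + y * I := by
      push_cast
      ring
    rw [h3, h4]
    exact h2
  have h5 := deriv_comp_neg (fun u : ℝ => f (ofComplex (((pz x y : ℍ) : ℂ) + u))) 0
  rw [neg_zero] at h5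
  rw [h1, deriv_const_mul_field, h5]
  ring

theorem fd_dY {ν : ℂ} {ε : ℝ} {a : ℕ → ℂ} {f : ℍ → ℂ} (F : Frame0 ν ε a f) (x : ℝ) {y : ℝ}
    (hy : 0 < y) : dY f (pz (-x) y) = ε * dY f (pz x y) := by
  unfold dY
  have h1 : (fun t : ℝ => f (ofComplex (((pz (-x) y : ℍ) : ℂ) + t * I))) =ᶠ[𝓝 0]
      fun t : ℝ => (ε : ℂ) * f (ofComplex (((pz x y : ℍ) : ℂ) + t * I)) := by
    have h0 : ∀ᶠ t : ℝ in 𝓝 0, -y < t := lt_mem_nhds (by linarith)
    filter_upwards [h0] with t ht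
    have h2 := fd_symm F x (y := y + t) (by linarith)
    simp only [pz] at h2
    rw [fd_coe hy, fd_coe hy]
    have h3 : ((-x : ℝ) : ℂ) + y * I + t * I = ((-x : ℝ) : ℂ) + ((y + t : ℝ) : ℂ) * I := by
      push_cast
      ring
    have h4 : (x : ℂ) + y * I + t * I = (x : ℂ) + ((y + t : ℝ) : ℂ) * I := by
      push_cast
      ring
    rw [h3, h4]
    exact h2
  rw [h1.deriv_eq, deriv_const_mul_field]

theorem fd_chi {ν : ℂ} {ε : ℝ} {a : ℕ → ℂ} {f : ℍ → ℂ} (F : Frame0 ν ε a f) (x : ℝ) {y : ℝ}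
    (hy : 0 < y) : chi f (pz (-x) y) = -chi f (pz x y) := by
  unfold chi
  rw [fd_dX F x hy, fd_dY F x hy, fd_im hy, fd_im hy, ← Complex.ofReal_neg]
  congr 1
  have h2 : (ε : ℂ) * ε = 1 := by
    rcases F.eps with h | h <;> simp [h]
  have h3 : conj (-((ε : ℂ) * dX f (pz x y))) * (ε * dY f (pz x y)) =
      -(conj (dX f (pz x y)) * dY f (pz x y)) := by
    rw [map_neg, map_mul, Complex.conj_ofReal]
    linear_combination (-(conj (dX f (pz x y)) * dY f (pz x y))) * h2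
  rw [h3, Complex.neg_im]
  ring

theorem fd_im_zero {g : ℍ → ℝ} (θ : ℝ) : (ray (fun z => ((g z : ℝ) : ℂ)) θ).im = 0 := by
  have h : ray (fun z => ((g z : ℝ) : ℂ)) θ =
      ((∫ r in Ioi (0 : ℝ), g (ofComplex (r * cexp (θ * Complex.I))) / r : ℝ) : ℂ) := by
    unfold ray
    rw [← integral_complex_ofReal]
    refine integral_congr_ae (ae_of_all _ fun r => ?_)
    push_cast
    rfl
  rw [h, Complex.ofReal_im]

/-- FD: symmetry of the ray functions -/
theorem ray_symm_pr {ν : ℂ} {ε : ℝ} {a : ℕ → ℂ} {f : ℍ → ℂ} (F : Frame0 ν ε a f) {θ : ℝ}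
    (hθ : θ ∈ Ioo 0 Real.pi) :
    ray (phi f) (Real.pi - θ) = ray (phi f) θ ∧ ray (chi f) (Real.pi - θ) = -ray (chi f) θ ∧
    (ray (phi f) θ).im = 0 ∧ (ray (chi f) θ).im = 0 := by
  have hs : 0 < Real.sin θ := Real.sin_pos_of_pos_of_lt_pi hθ.1 hθ.2
  have hpt : ∀ r : ℝ, ofComplex ((r : ℂ) * cexp (((Real.pi - θ : ℝ) : ℂ) * I)) =
      pz (-(r * Real.cos θ)) (r * Real.sin θ) := by
    intro r
    rw [fd_pt, Real.cos_pi_sub, Real.sin_pi_sub, mul_neg]
  refine ⟨?_, ?_, fd_im_zero θ, fd_im_zero θ⟩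
  · unfold ray
    refine setIntegral_congr_fun measurableSet_Ioi (fun r hr => ?_)
    have hr' : (0 : ℝ) < r := hr
    rw [hpt r, fd_pt, fd_phi F _ (by positivity)]
  · unfold ray
    rw [← integral_neg]
    refine setIntegral_congr_fun measurableSet_Ioi (fun r hr => ?_)
    have hr' : (0 : ℝ) < r := hr
    rw [hpt r, fd_pt, fd_chi F _ (by positivity)]
    ring

end Pool.Agent.JO.FM

namespace Pool.Agent.JO.FM

theorem ray_symm : type_of% @ray_symm_pr := @ray_symm_pr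

end Pool.Agent.JO.FM
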