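import Pool.Agent.Lib_helper45.JO.Defs2
import Pool.Agent.Lib_helper45.JOM.M1
import Pool.Agent.Lib_helper45.JOM.M2
import Pool.Agent.Lib_helper98.H4F.GG

set_option autoImplicit false

namespace Pool.Agent.JO.FM

open Complex Filter Topology MeasureTheory Set
open UpperHalfPlane hiding I
open scoped MatrixGroups ComplexConjugate

/-! block M4 -/

theorem m4_int_exp {c : ℝ} (hc : 0 < c) : Integrable (fun u : ℝ => Real.exp (-(c * |u|))) := by
  have h1 : IntegrableOn (fun u : ℝ => Real.exp (-(c * |u|))) (Ioi 0) := by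
    have h := integrableOn_exp_mul_Ioi (a := -c) (by linarith) 0
    refine h.congr_fun (fun u hu => ?_) measurableSet_Ioi
    have hu' : 0 < u := hu
    simp only [abs_of_pos hu']
    ring_nf
  have h2 : IntegrableOn (fun u : ℝ => Real.exp (-(c * |u|))) (Iic 0) := by
    have h := integrableOn_exp_mul_Iic (a := c) hc 0
    refine h.congr_fun (fun u hu => ?_) measurableSet_Iic
    have hu' : u ≤ 0 := hu
    simp only [abs_of_nonpos hu']
    ring_nf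
  have h3 := h2.union h1
  rwa [Iic_union_Ioi, integrableOn_univ] at h3

theorem m4_cosh_low (u : ℝ) : Real.exp |u| / 2 ≤ Real.cosh u := by
  rw [← Real.cosh_abs u, Real.cosh_eq]
  have := Real.exp_pos (-|u|)
  linarith

/-- the base -/
noncomputable def m4_A (θ τ u : ℝ) : ℂ :=
  Complex.sin θ * (Real.cosh u : ℝ) - τ * (I * Complex.cos θ)

theorem m4_A_re (θ τ u : ℝ) : (m4_A θ τ u).re = Real.sin θ * Real.cosh u := by
  unfold m4_A
  rw [← Complex.ofReal_sin, ← Complex.ofReal_cos, ← Complex.ofReal_mul, Complex.sub_re,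
    Complex.ofReal_re, Complex.re_ofReal_mul, Complex.mul_re]
  simp

theorem m4_A_pos {θ : ℝ} (hθ : θ ∈ Ioo 0 Real.pi) (τ u : ℝ) : 0 < (m4_A θ τ u).re := by
  rw [m4_A_re]
  exact mul_pos (Real.sin_pos_of_mem_Ioo hθ) (Real.cosh_pos u)

/-- the integrand of the double integral -/
noncomputable def m4_Phi (ν s : ℂ) (θ κ τ r u : ℝ) : ℂ :=
  (r : ℂ) ^ (s - 1) * cexp (-(((κ : ℂ) * m4_A θ τ u) * r)) * cexp (ν * u)

theorem m4_Phi_norm (ν s : ℂ) {θ κ τ r u : ℝ} (hr : 0 < r) :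
    ‖m4_Phi ν s θ κ τ r u‖ =
      r ^ (s.re - 1) * Real.exp (-((κ * (Real.sin θ * Real.cosh u)) * r)) * Real.exp (ν.re * u) := by
  unfold m4_Phi
  rw [norm_mul, norm_mul, norm_cpow_eq_rpow_re_of_pos hr, Complex.norm_exp, Complex.norm_exp]
  have e1 : (-(((κ : ℂ) * m4_A θ τ u) * r)).re = -((κ * (Real.sin θ * Real.cosh u)) * r) := by
    rw [Complex.neg_re, Complex.re_mul_ofReal, Complex.re_ofReal_mul, m4_A_re]
  have e2 : (ν * (u : ℂ)).re = ν.re * u := by simp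
  rw [e1, e2, Complex.sub_re, Complex.one_re]

theorem m4_gam {c x : ℝ} (hc : 0 < c) (hx : 0 < x) :
    ∫ r in Ioi (0 : ℝ), r ^ (x - 1) * Real.exp (-(c * r)) = c ^ (-x) * Real.Gamma x := by
  rw [Real.integral_rpow_mul_exp_neg_mul_Ioi hx hc, one_div, Real.inv_rpow hc.le, Real.rpow_neg hc.le]

theorem m4_norm_int (ν s : ℂ) {θ κ τ u : ℝ} (hθ : θ ∈ Ioo 0 Real.pi) (hκ : 0 < κ) (hs : 0 < s.re) :
    IntegrableOn (fun r : ℝ => ‖m4_Phi ν s θ κ τ r u‖) (Ioi 0) ∧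
    ∫ r in Ioi (0 : ℝ), ‖m4_Phi ν s θ κ τ r u‖ =
      κ ^ (-s.re) * (Real.Gamma s.re * ((Real.sin θ * Real.cosh u) ^ (-s.re) * Real.exp (ν.re * u))) := by
  have hsin : 0 < Real.sin θ := Real.sin_pos_of_mem_Ioo hθ
  have hch := Real.cosh_pos u
  have hc : 0 < κ * (Real.sin θ * Real.cosh u) := by positivity
  have e : EqOn (fun r : ℝ => ‖m4_Phi ν s θ κ τ r u‖) (fun r : ℝ =>
      r ^ (s.re - 1) * Real.exp (-((κ * (Real.sin θ * Real.cosh u)) * r)) * Real.exp (ν.re * u)) (Ioi 0) :=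
    fun r hr => m4_Phi_norm ν s hr
  refine ⟨?_, ?_⟩
  · rw [integrableOn_congr_fun e measurableSet_Ioi]
    exact (H4.gg_int hs hc).mul_const _
  · rw [setIntegral_congr_fun measurableSet_Ioi e, integral_mul_const, m4_gam hc hs,
      Real.mul_rpow hκ.le (by positivity)]
    ring

theorem m4_Phi_meas (ν s : ℂ) (θ κ τ : ℝ) :
    Measurable (fun p : ℝ × ℝ => m4_Phi ν s θ κ τ p.1 p.2) := by
  unfold m4_Phi m4_A
  have h1 : Measurable (fun p : ℝ × ℝ => ((p.1 : ℝ) : ℂ) ^ (s - 1)) :=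
    (Complex.measurable_ofReal.comp measurable_fst).pow_const _
  have h2 : Continuous (fun p : ℝ × ℝ => cexp (-(((κ : ℂ) * (Complex.sin θ * (Real.cosh p.2 : ℝ) -
      τ * (I * Complex.cos θ))) * p.1))) := by
    have : Continuous (fun p : ℝ × ℝ => ((Real.cosh p.2 : ℝ) : ℂ)) :=
      Complex.continuous_ofReal.comp (Real.continuous_cosh.comp continuous_snd)
    fun_prop
  have h3 : Continuous (fun p : ℝ × ℝ => cexp (ν * p.2)) := by fun_prop
  exact (h1.mul h2.measurable).mul h3.measurable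

theorem m4_u_int {ν s : ℂ} (hν : 0 ≤ ν.re) (hs : ν.re < s.re) {θ : ℝ} (hθ : θ ∈ Ioo 0 Real.pi) :
    Integrable (fun u : ℝ => (Real.sin θ * Real.cosh u) ^ (-s.re) * Real.exp (ν.re * u)) := by
  have hsin : 0 < Real.sin θ := Real.sin_pos_of_mem_Ioo hθ
  refine Integrable.mono' ((m4_int_exp (c := s.re - ν.re) (by linarith)).const_mul
    (Real.sin θ ^ (-s.re) * 2 ^ s.re)) ?_ (ae_of_all _ fun u => ?_)
  · refine Continuous.aestronglyMeasurable ?_
    refine Continuous.mul ?_ (by fun_prop)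
    refine Continuous.rpow_const (continuous_const.mul Real.continuous_cosh) fun u => Or.inl ?_
    have := Real.cosh_pos u
    positivity
  · have hch := Real.cosh_pos u
    rw [Real.norm_of_nonneg (by positivity), Real.mul_rpow hsin.le hch.le]
    have h6 : Real.cosh u ^ (-s.re) ≤ 2 ^ s.re * Real.exp (-(s.re * |u|)) := by
      have h7 : Real.cosh u ^ (-s.re) ≤ (Real.exp |u| / 2) ^ (-s.re) :=
        Real.rpow_le_rpow_of_nonpos (by positivity) (m4_cosh_low u) (by linarith)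
      refine h7.trans (le_of_eq ?_)
      rw [Real.div_rpow (Real.exp_pos _).le (by norm_num), ← Real.exp_mul,
        Real.rpow_neg (by norm_num : (0 : ℝ) ≤ 2), div_inv_eq_mul, mul_comm]
      congr 2
      ring
    have h8 : Real.exp (ν.re * u) ≤ Real.exp (ν.re * |u|) :=
      Real.exp_le_exp.mpr (mul_le_mul_of_nonneg_left (le_abs_self u) hν)
    calc Real.sin θ ^ (-s.re) * Real.cosh u ^ (-s.re) * Real.exp (ν.re * u)
        ≤ Real.sin θ ^ (-s.re) * (2 ^ s.re * Real.exp (-(s.re * |u|))) * Real.exp (ν.re * |u|) := by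
          gcongr
      _ = Real.sin θ ^ (-s.re) * 2 ^ s.re * (Real.exp (-(s.re * |u|)) * Real.exp (ν.re * |u|)) := by ring
      _ = _ := by
          rw [← Real.exp_add]
          congr 2
          ring

theorem m4_prod_int {ν s : ℂ} (hν : 0 ≤ ν.re) (hs : ν.re < s.re) {θ : ℝ} (hθ : θ ∈ Ioo 0 Real.pi)
    {κ : ℝ} (hκ : 0 < κ) (τ : ℝ) :
    Integrable (fun p : ℝ × ℝ => m4_Phi ν s θ κ τ p.1 p.2)
      ((volume.restrict (Ioi (0 : ℝ))).prod volume) := by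
  have hs0 : 0 < s.re := by linarith
  rw [integrable_prod_iff' (m4_Phi_meas ν s θ κ τ).aestronglyMeasurable]
  refine ⟨ae_of_all _ fun u => ?_, ?_⟩
  · rw [← integrable_norm_iff]
    · exact (m4_norm_int ν s hθ hκ hs0).1
    · exact ((m4_Phi_meas ν s θ κ τ).comp (measurable_id.prodMk measurable_const)).aestronglyMeasurable
  · have e : (fun u : ℝ => ∫ r in Ioi (0 : ℝ), ‖m4_Phi ν s θ κ τ r u‖) = fun u : ℝ =>
        κ ^ (-s.re) * (Real.Gamma s.re * ((Real.sin θ * Real.cosh u) ^ (-s.re) * Real.exp (ν.re * u))) :=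
      funext fun u => (m4_norm_int ν s hθ hκ hs0).2
    rw [e]
    exact ((m4_u_int hν hs hθ).const_mul _).const_mul _

/-- the constant -/
noncomputable def m4_D (ν s : ℂ) (θ : ℝ) : ℝ :=
  Real.Gamma s.re * ∫ u : ℝ, (Real.sin θ * Real.cosh u) ^ (-s.re) * Real.exp (ν.re * u)

theorem m4_norm_le {ν s : ℂ} (hν : 0 ≤ ν.re) (hs : ν.re < s.re) {θ : ℝ} (hθ : θ ∈ Ioo 0 Real.pi)
    {κ : ℝ} (hκ : 0 < κ) (τ : ℝ) :
    ∫ r in Ioi (0 : ℝ), ‖∫ u : ℝ, m4_Phi ν s θ κ τ r u‖ ≤ κ ^ (-s.re) * m4_D ν s θ := by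
  have hs0 : 0 < s.re := by linarith
  have hi := m4_prod_int hν hs hθ hκ τ
  have h1 : ∫ r in Ioi (0 : ℝ), ‖∫ u : ℝ, m4_Phi ν s θ κ τ r u‖ ≤
      ∫ r in Ioi (0 : ℝ), ∫ u : ℝ, ‖m4_Phi ν s θ κ τ r u‖ := by
    refine integral_mono_of_nonneg (ae_of_all _ fun r => norm_nonneg _) hi.norm.integral_prod_left
      (ae_of_all _ fun r => norm_integral_le_integral_norm _)
  refine h1.trans (le_of_eq ?_)
  have hn : Integrable (Function.uncurry fun r u : ℝ => ‖m4_Phi ν s θ κ τ r u‖)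
      ((volume.restrict (Ioi (0 : ℝ))).prod volume) := hi.norm
  rw [integral_integral_swap hn]
  have e : (fun u : ℝ => ∫ r in Ioi (0 : ℝ), ‖m4_Phi ν s θ κ τ r u‖) = fun u : ℝ =>
        κ ^ (-s.re) * (Real.Gamma s.re * ((Real.sin θ * Real.cosh u) ^ (-s.re) * Real.exp (ν.re * u))) :=
      funext fun u => (m4_norm_int ν s hθ hκ hs0).2
  rw [e, integral_const_mul, integral_const_mul]
  rfl

theorem m4_mul_cpow {κ : ℝ} (hκ : 0 < κ) {A : ℂ} (hA : A ≠ 0) (w : ℂ) :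
    ((κ : ℂ) * A) ^ w = (κ : ℂ) ^ w * A ^ w := by
  have hκc : (κ : ℂ) ≠ 0 := Complex.ofReal_ne_zero.mpr hκ.ne'
  rw [Complex.cpow_def_of_ne_zero (mul_ne_zero hκc hA), Complex.cpow_def_of_ne_zero hκc,
    Complex.cpow_def_of_ne_zero hA, Complex.log_ofReal_mul hκ hA, ← Complex.exp_add,
    ← Complex.ofReal_log hκ.le]
  congr 1
  ring

theorem m4_val {ν s : ℂ} (hν : 0 ≤ ν.re) (hs : ν.re < s.re) {θ : ℝ} (hθ : θ ∈ Ioo 0 Real.pi)
    {κ : ℝ} (hκ : 0 < κ) (τ : ℝ) :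
    ∫ r in Ioi (0 : ℝ), ∫ u : ℝ, m4_Phi ν s θ κ τ r u =
      Gamma s * (κ : ℂ) ^ (-s) * ∫ u : ℝ, cexp (ν * u) * m4_A θ τ u ^ (-s) := by
  have hs0 : 0 < s.re := by linarith
  have hi : Integrable (Function.uncurry fun r u : ℝ => m4_Phi ν s θ κ τ r u)
      ((volume.restrict (Ioi (0 : ℝ))).prod volume) := m4_prod_int hν hs hθ hκ τ
  rw [integral_integral_swap hi, ← integral_const_mul]
  congr 1
  funext u
  have hA := m4_A_pos hθ τ u
  have hA0 : m4_A θ τ u ≠ 0 := by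
    intro h
    rw [h] at hA
    simp at hA
  have hκA : 0 < ((κ : ℂ) * m4_A θ τ u).re := by
    rw [Complex.re_ofReal_mul]
    exact mul_pos hκ hA
  have h1 : ∫ r in Ioi (0 : ℝ), m4_Phi ν s θ κ τ r u =
      (∫ r : ℝ in Set.Ioi 0, (r : ℂ) ^ (s - 1) * cexp (-(((κ : ℂ) * m4_A θ τ u) * r))) * cexp (ν * u) := by
    rw [← integral_mul_const]
    rfl
  rw [h1, H4.gg_integral hs0 hκA, one_div, Complex.inv_cpow, ← Complex.cpow_neg,
    m4_mul_cpow hκ hA0]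
  · ring
  · intro harg
    have h2 : ((κ : ℂ) * m4_A θ τ u) ∈ Complex.slitPlane := Or.inl hκA
    exact (Complex.mem_slitPlane_iff_arg.mp h2).1 harg

theorem m4_WW (ν s : ℂ) {θ : ℝ} (hθ : θ ∈ Ioo 0 Real.pi) {κ : ℝ} (hκ : 0 < κ) (τ : ℝ) {r : ℝ}
    (hr : 0 < r) :
    WW ν (κ * (r * Real.sin θ)) * cexp ((τ * κ * (r * Real.cos θ) : ℝ) * I) * (r : ℂ) ^ (s - 3 / 2) =
      ((√(κ * Real.sin θ) : ℝ) : ℂ) * (1 / 2) * ∫ u : ℝ, m4_Phi ν s θ κ τ r u := by
  have hsin : 0 < Real.sin θ := Real.sin_pos_of_mem_Ioo hθ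
  have hrc : (r : ℂ) ≠ 0 := Complex.ofReal_ne_zero.mpr hr.ne'
  unfold WW KK
  have e1 : √(κ * (r * Real.sin θ)) = √(κ * Real.sin θ) * √r := by
    rw [← Real.sqrt_mul (by positivity)]
    congr 1
    ring
  have e2 : ((√r : ℝ) : ℂ) * (r : ℂ) ^ (s - 3 / 2) = (r : ℂ) ^ (s - 1) := by
    rw [Real.sqrt_eq_rpow, Complex.ofReal_cpow hr.le, ← Complex.cpow_add _ _ hrc]
    congr 1
    push_cast
    ring
  have e3 : ∫ u : ℝ, m4_Phi ν s θ κ τ r u = (r : ℂ) ^ (s - 1) *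
      (cexp ((τ * κ * (r * Real.cos θ) : ℝ) * I) *
        ∫ u : ℝ, cexp (-((κ * (r * Real.sin θ) : ℝ) : ℂ) * (Real.cosh u : ℝ) + ν * u)) := by
    rw [← integral_const_mul, ← integral_const_mul]
    congr 1
    funext u
    unfold m4_Phi m4_A
    rw [mul_assoc, ← Complex.exp_add, ← Complex.exp_add]
    congr 2
    push_cast
    ring
  rw [e1, e3, ← e2]
  push_cast
  ring

section

variable {ν : ℂ} {ε : ℝ} {a : ℕ → ℂ} {f : ℍ → ℂ} {L : ℂ → ℂ}

/-- the terms -/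
noncomputable def m4_T (ν : ℂ) (ε : ℝ) (a : ℕ → ℂ) (s : ℂ) (θ : ℝ) (m : ℤ) (r : ℝ) : ℂ :=
  cf ε a m * WW ν (2 * Real.pi * |(m : ℝ)| * (r * Real.sin θ) / (1 : ℕ)) *
    cexp ((2 * Real.pi * m * (r * Real.cos θ) / (1 : ℕ) : ℝ) * I) * (r : ℂ) ^ (s - 3 / 2)

theorem m4_pr {r θ : ℝ} : pr r θ = pz (r * Real.cos θ) (r * Real.sin θ) := by
  unfold pr pz
  congr 1
  rw [Complex.exp_mul_I]
  push_cast
  ring

theorem m4_T_eq (ν : ℂ) (ε : ℝ) (a : ℕ → ℂ) (s : ℂ) {θ : ℝ} (hθ : θ ∈ Ioo 0 Real.pi) {m : ℤ}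
    {τ n : ℝ} (hn : 0 < n) (hm : (m : ℝ) = τ * n) (habs : |(m : ℝ)| = n) {r : ℝ} (hr : 0 < r) :
    m4_T ν ε a s θ m r = cf ε a m * (((√((2 * Real.pi * n) * Real.sin θ) : ℝ) : ℂ) * (1 / 2) *
      ∫ u : ℝ, m4_Phi ν s θ (2 * Real.pi * n) τ r u) := by
  have h := m4_WW ν s hθ (κ := 2 * Real.pi * n) (by positivity) τ hr
  rw [← h]
  unfold m4_T
  rw [habs, Nat.cast_one, div_one, hm, div_one]
  have e : 2 * Real.pi * (τ * n) * (r * Real.cos θ) = τ * (2 * Real.pi * n) * (r * Real.cos θ) := by ring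
  rw [e]
  ring

/-- the values -/
noncomputable def m4_G (ν s : ℂ) (θ τ : ℝ) : ℂ :=
  ((2 * Real.pi : ℝ) : ℂ) ^ (1 / 2 - s) * Gamma s * Complex.sin θ ^ (1 / 2 : ℂ) * (1 / 2) *
    ∫ u : ℝ, cexp (ν * u) * m4_A θ τ u ^ (-s)

theorem m4_const {s : ℂ} {θ : ℝ} (hθ : θ ∈ Ioo 0 Real.pi) {n : ℕ} (hn : 0 < n) (x J : ℂ) :
    (x * ((√(n : ℝ) : ℝ) : ℂ)⁻¹) * (((√((2 * Real.pi * (n : ℝ)) * Real.sin θ) : ℝ) : ℂ) * (1 / 2) *
      (Gamma s * ((2 * Real.pi * (n : ℝ) : ℝ) : ℂ) ^ (-s) * J)) =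
    x / (n : ℂ) ^ s * (((2 * Real.pi : ℝ) : ℂ) ^ (1 / 2 - s) * Gamma s *
      Complex.sin θ ^ (1 / 2 : ℂ) * (1 / 2) * J) := by
  have hsin : 0 < Real.sin θ := Real.sin_pos_of_mem_Ioo hθ
  have hnr : (0 : ℝ) < n := by exact_mod_cast hn
  have h2pi : (0 : ℝ) < 2 * Real.pi := by positivity
  have h2pc : ((2 * Real.pi : ℝ) : ℂ) ≠ 0 := Complex.ofReal_ne_zero.mpr h2pi.ne'
  have hsn : ((√(n : ℝ) : ℝ) : ℂ) ≠ 0 :=
    Complex.ofReal_ne_zero.mpr (Real.sqrt_pos.mpr hnr).ne'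
  have e1 : √((2 * Real.pi * (n : ℝ)) * Real.sin θ) = √(2 * Real.pi) * √(n : ℝ) * √(Real.sin θ) := by
    rw [Real.sqrt_mul (by positivity), Real.sqrt_mul (by positivity)]
  have e2 : ((2 * Real.pi * (n : ℝ) : ℝ) : ℂ) ^ (-s) = ((2 * Real.pi : ℝ) : ℂ) ^ (-s) * ((n : ℂ) ^ s)⁻¹ := by
    rw [Complex.ofReal_mul, Complex.mul_cpow_ofReal_nonneg h2pi.le hnr.le, Complex.cpow_neg (((n : ℝ)) : ℂ)]
    push_cast
    rfl
  have e3 : Complex.sin θ ^ (1 / 2 : ℂ) = ((√(Real.sin θ) : ℝ) : ℂ) := by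
    rw [Real.sqrt_eq_rpow, Complex.ofReal_cpow hsin.le, Complex.ofReal_sin]
    norm_num
  have e4 : ((2 * Real.pi : ℝ) : ℂ) ^ (1 / 2 - s) = ((√(2 * Real.pi) : ℝ) : ℂ) * ((2 * Real.pi : ℝ) : ℂ) ^ (-s) := by
    rw [Real.sqrt_eq_rpow, Complex.ofReal_cpow h2pi.le, sub_eq_add_neg, Complex.cpow_add _ _ h2pc]
    norm_num
  rw [e1, e2, e3, e4]
  push_cast
  field_simp

theorem m4_intT {s : ℂ} (hν : GoodNu ν) (hs : ν.re < s.re) {θ : ℝ} (hθ : θ ∈ Ioo 0 Real.pi) (m : ℤ) :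
    IntegrableOn (m4_T ν ε a s θ m) (Ioi 0) := by
  by_cases hm : m = 0
  · have : EqOn (m4_T ν ε a s θ m) (fun _ => 0) (Ioi 0) := by
      intro r _
      unfold m4_T cf
      rw [if_pos hm]
      ring
    rw [integrableOn_congr_fun this measurableSet_Ioi]
    exact integrableOn_zero
  · have hm' : (m : ℝ) ≠ 0 := by exact_mod_cast hm
    have habs : 0 < |(m : ℝ)| := abs_pos.mpr hm'
    have hτ : (m : ℝ) = (m / |(m : ℝ)|) * |(m : ℝ)| := by field_simp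
    have e : EqOn (m4_T ν ε a s θ m) (fun r => cf ε a m *
        (((√((2 * Real.pi * |(m : ℝ)|) * Real.sin θ) : ℝ) : ℂ) * (1 / 2) *
      ∫ u : ℝ, m4_Phi ν s θ (2 * Real.pi * |(m : ℝ)|) (m / |(m : ℝ)|) r u)) (Ioi 0) :=
      fun r hr => m4_T_eq ν ε a s hθ habs hτ rfl hr
    rw [integrableOn_congr_fun e measurableSet_Ioi]
    have hi := (m4_prod_int hν.nonneg hs hθ (κ := 2 * Real.pi * |(m : ℝ)|) (by positivity)
      (m / |(m : ℝ)|)).integral_prod_left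
    exact (hi.const_mul _).const_mul _

theorem m4_cf_norm (hε : ε = 1 ∨ ε = -1) {m : ℤ} (hm : m ≠ 0) :
    ‖cf ε a m‖ = ‖a m.natAbs‖ * (√(m.natAbs : ℝ))⁻¹ := by
  unfold cf
  rw [if_neg hm, norm_mul, norm_mul, norm_inv, Complex.norm_real, Real.norm_of_nonneg (Real.sqrt_nonneg _)]
  have : ‖(if m < 0 then (ε : ℂ) else 1)‖ = 1 := by
    split_ifs
    · rcases hε with rfl | rfl <;> simp
    · simp
  rw [this, one_mul]

theorem m4_normT {s : ℂ} (hν : GoodNu ν) (hε : ε = 1 ∨ ε = -1) (hs : ν.re < s.re) {θ : ℝ}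
    (hθ : θ ∈ Ioo 0 Real.pi) (m : ℤ) :
    ∫ r in Ioi (0 : ℝ), ‖m4_T ν ε a s θ m r‖ ≤
      (√(2 * Real.pi * Real.sin θ) * (1 / 2) * (2 * Real.pi) ^ (-s.re) * m4_D ν s θ) *
        ‖LSeries.term a s m.natAbs‖ := by
  by_cases hm : m = 0
  · have : EqOn (fun r => ‖m4_T ν ε a s θ m r‖) (fun _ => 0) (Ioi 0) := by
      intro r _
      unfold m4_T cf
      simp [if_pos hm]
    rw [setIntegral_congr_fun measurableSet_Ioi this, hm]
    simp
  · have hm' : (m : ℝ) ≠ 0 := by exact_mod_cast hm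
    have habs : 0 < |(m : ℝ)| := abs_pos.mpr hm'
    have hτ : (m : ℝ) = (m / |(m : ℝ)|) * |(m : ℝ)| := by field_simp
    have hsin : 0 < Real.sin θ := Real.sin_pos_of_mem_Ioo hθ
    have hn0 : m.natAbs ≠ 0 := by simpa using hm
    have hnr : (0 : ℝ) < (m.natAbs : ℝ) := by
      exact_mod_cast Nat.pos_of_ne_zero hn0
    have hna : |(m : ℝ)| = (m.natAbs : ℝ) := by
      rw [Nat.cast_natAbs]
      push_cast
      rfl
    have e : EqOn (fun r => ‖m4_T ν ε a s θ m r‖) (fun r => (‖cf ε a m‖ *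
        (√((2 * Real.pi * |(m : ℝ)|) * Real.sin θ) * (1 / 2))) *
      ‖∫ u : ℝ, m4_Phi ν s θ (2 * Real.pi * |(m : ℝ)|) (m / |(m : ℝ)|) r u‖) (Ioi 0) := by
      intro r hr
      simp only
      rw [m4_T_eq ν ε a s hθ habs hτ rfl hr, norm_mul, norm_mul, norm_mul, Complex.norm_real,
        Real.norm_of_nonneg (Real.sqrt_nonneg _)]
      norm_num
      ring
    rw [setIntegral_congr_fun measurableSet_Ioi e, integral_const_mul]
    have hle := m4_norm_le hν.nonneg hs hθ (κ := 2 * Real.pi * |(m : ℝ)|) (by positivity)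
      (m / |(m : ℝ)|)
    refine (mul_le_mul_of_nonneg_left hle (by positivity)).trans (le_of_eq ?_)
    rw [m4_cf_norm hε hm, LSeries.norm_term_eq, if_neg hn0, hna]
    have e1 : √((2 * Real.pi * (m.natAbs : ℝ)) * Real.sin θ) = √(m.natAbs : ℝ) * √(2 * Real.pi * Real.sin θ) := by
      rw [← Real.sqrt_mul (by positivity)]
      congr 1
      ring
    have e2 : (2 * Real.pi * (m.natAbs : ℝ)) ^ (-s.re) = (2 * Real.pi) ^ (-s.re) * ((m.natAbs : ℝ) ^ s.re)⁻¹ := by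
      rw [Real.mul_rpow (by positivity) hnr.le, Real.rpow_neg hnr.le]
    have hsq : √(m.natAbs : ℝ) ≠ 0 := (Real.sqrt_pos.mpr hnr).ne'
    rw [e1, e2]
    field_simp

theorem m4_valT {s : ℂ} (hν : GoodNu ν) (hs : ν.re < s.re) {θ : ℝ} (hθ : θ ∈ Ioo 0 Real.pi)
    {n : ℕ} (hn : 0 < n) :
    ∫ r in Ioi (0 : ℝ), m4_T ν ε a s θ (n : ℤ) r = LSeries.term a s n * m4_G ν s θ 1 ∧
    ∫ r in Ioi (0 : ℝ), m4_T ν ε a s θ (-(n : ℤ)) r =
      LSeries.term a s n * (ε * m4_G ν s θ (-1)) := by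
  have hnr : (0 : ℝ) < n := by exact_mod_cast hn
  have hκ : 0 < 2 * Real.pi * (n : ℝ) := by positivity
  constructor
  · have e : EqOn (m4_T ν ε a s θ (n : ℤ)) (fun r => cf ε a (n : ℤ) *
        (((√((2 * Real.pi * (n : ℝ)) * Real.sin θ) : ℝ) : ℂ) * (1 / 2) *
      ∫ u : ℝ, m4_Phi ν s θ (2 * Real.pi * (n : ℝ)) 1 r u)) (Ioi 0) := by
      intro r hr
      refine m4_T_eq ν ε a s hθ hnr ?_ ?_ hr
      · push_cast; ring
      · push_cast; exact abs_of_pos hnr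
    rw [setIntegral_congr_fun measurableSet_Ioi e, integral_const_mul, integral_const_mul,
      m4_val hν.nonneg hs hθ hκ 1]
    have hcf : cf ε a (n : ℤ) = a n * ((√(n : ℝ) : ℝ) : ℂ)⁻¹ := by
      unfold cf
      rw [if_neg (by omega), if_neg (by omega), Int.natAbs_natCast]
      ring
    rw [hcf, LSeries.term_of_ne_zero hn.ne', m4_const hθ hn]
    rfl
  · have e : EqOn (m4_T ν ε a s θ (-(n : ℤ))) (fun r => cf ε a (-(n : ℤ)) *
        (((√((2 * Real.pi * (n : ℝ)) * Real.sin θ) : ℝ) : ℂ) * (1 / 2) *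
      ∫ u : ℝ, m4_Phi ν s θ (2 * Real.pi * (n : ℝ)) (-1) r u)) (Ioi 0) := by
      intro r hr
      refine m4_T_eq ν ε a s hθ hnr ?_ ?_ hr
      · push_cast; ring
      · push_cast; rw [abs_neg]; exact abs_of_pos hnr
    rw [setIntegral_congr_fun measurableSet_Ioi e, integral_const_mul, integral_const_mul,
      m4_val hν.nonneg hs hθ hκ (-1)]
    have hcf : cf ε a (-(n : ℤ)) = (ε * a n) * ((√(n : ℝ) : ℝ) : ℂ)⁻¹ := by
      unfold cf
      rw [if_neg (by omega), if_pos (by omega), Int.natAbs_neg, Int.natAbs_natCast]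
    rw [hcf, LSeries.term_of_ne_zero hn.ne', m4_const hθ hn]
    unfold m4_G
    ring

theorem m4_Gs {s : ℂ} (hν : GoodNu ν) (hs : ν.re < s.re) {θ : ℝ} (hθ : θ ∈ Ioo 0 Real.pi) :
    m4_G ν s θ 1 + ε * m4_G ν s θ (-1) = Gs ν ε s θ := by
  have h0 : 0 < ((θ : ℝ) : ℂ).re := by simpa using hθ.1
  have h1 : ((θ : ℝ) : ℂ).re < Real.pi := by simpa using hθ.2
  have i0 := Gs_int (ε := 0) hν hs h0 h1
  have i1 := Gs_int (ε := 1) hν hs h0 h1
  have eA : ∀ u : ℝ, m4_A θ 1 u = Complex.sin θ * (Real.cosh u : ℝ) - I * Complex.cos θ := by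
    intro u
    unfold m4_A
    push_cast
    ring
  have eB : ∀ u : ℝ, m4_A θ (-1) u = Complex.sin θ * (Real.cosh u : ℝ) + I * Complex.cos θ := by
    intro u
    unfold m4_A
    push_cast
    ring
  have j0 : Integrable (fun u : ℝ => cexp (ν * u) * m4_A θ 1 u ^ (-s)) := by
    refine i0.congr (ae_of_all _ fun u => ?_)
    simp only [eA]
    push_cast
    ring
  have j1 : Integrable (fun u : ℝ => cexp (ν * u) * m4_A θ (-1) u ^ (-s)) := by
    refine (i1.sub i0).congr (ae_of_all _ fun u => ?_)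
    simp only [eB, Pi.sub_apply]
    push_cast
    ring
  have e : ∫ u : ℝ, cexp (ν * u) *
      ((Complex.sin θ * (Real.cosh u : ℝ) - I * Complex.cos θ) ^ (-s) +
        ε * (Complex.sin θ * (Real.cosh u : ℝ) + I * Complex.cos θ) ^ (-s)) =
      (∫ u : ℝ, cexp (ν * u) * m4_A θ 1 u ^ (-s)) + ε * ∫ u : ℝ, cexp (ν * u) * m4_A θ (-1) u ^ (-s) := by
    rw [← integral_const_mul, ← integral_add j0 (j1.const_mul _)]
    congr 1
    funext u
    rw [eA, eB]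
    ring
  unfold Gs m4_G
  rw [e]
  ring

/-- M4: the ray transform for `Re s > 1` -/
theorem Mf_eq_pr (F : Frame0 ν ε a f) {s : ℂ} (hs : 1 < s.re) {θ : ℝ} (hθ : θ ∈ Ioo 0 Real.pi) :
    Mf f s θ = LSeries a s * Gs ν ε s θ := by
  have hν := F.nu
  have hνs : ν.re < s.re := by
    have := hν.lt_half
    linarith
  have hsum := lsummable F hs
  have hsin : 0 < Real.sin θ := Real.sin_pos_of_mem_Ioo hθ
  have hn : Summable (fun n : ℕ => ‖LSeries.term a s n‖) := hsum.norm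
  have hnZ : Summable (fun m : ℤ => ‖LSeries.term a s m.natAbs‖) := by
    rw [summable_int_iff_summable_nat_and_neg]
    constructor
    · simpa using hn
    · simpa using hn
  have hS : Summable (fun m : ℤ => ∫ r in Ioi (0 : ℝ), ‖m4_T ν ε a s θ m r‖) :=
    Summable.of_nonneg_of_le (fun m => integral_nonneg fun r => norm_nonneg _)
      (fun m => m4_normT hν F.eps hνs hθ m) (hnZ.mul_left _)
  have h1 := hasSum_integral_of_summable_integral_norm
    (fun m : ℤ => m4_intT (ε := ε) (a := a) hν hνs hθ m) hS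
  -- the sum of the terms
  have h2 : ∫ r in Ioi (0 : ℝ), ∑' m : ℤ, m4_T ν ε a s θ m r = Mf f s θ := by
    unfold Mf
    refine setIntegral_congr_fun measurableSet_Ioi fun r hr => ?_
    have hr' : 0 < r := hr
    have h3 := (F.expn.hasSum (r * Real.cos θ) (r * Real.sin θ) (by positivity)).mul_right
      ((r : ℂ) ^ (s - 3 / 2))
    rw [m4_pr]
    exact h3.tsum_eq
  rw [h2] at h1
  -- the values
  have hT : HasSum (LSeries.term a s) (LSeries a s) := hsum.hasSum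
  have hZ : HasSum (fun m : ℤ => ∫ r in Ioi (0 : ℝ), m4_T ν ε a s θ m r)
      (LSeries a s * m4_G ν s θ 1 + LSeries a s * (ε * m4_G ν s θ (-1))) := by
    refine HasSum.of_nat_of_neg_add_one ?_ ?_
    · have e : (fun n : ℕ => ∫ r in Ioi (0 : ℝ), m4_T ν ε a s θ (n : ℤ) r) =
          fun n : ℕ => LSeries.term a s n * m4_G ν s θ 1 := by
        funext n
        rcases Nat.eq_zero_or_pos n with rfl | hn0
        · have h0 : EqOn (m4_T ν ε a s θ ((0 : ℕ) : ℤ)) (fun _ => 0) (Ioi 0) := by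
            intro r _
            unfold m4_T cf
            simp
          rw [setIntegral_congr_fun measurableSet_Ioi h0]
          simp
        · exact (m4_valT (ε := ε) (a := a) hν hνs hθ hn0).1
      rw [e]
      exact hT.mul_right _
    · have e : (fun n : ℕ => ∫ r in Ioi (0 : ℝ), m4_T ν ε a s θ (-((n : ℤ) + 1)) r) =
          fun n : ℕ => LSeries.term a s (n + 1) * (ε * m4_G ν s θ (-1)) := by
        funext n
        have h3 := (m4_valT (ε := ε) (a := a) hν hνs hθ (Nat.succ_pos n)).2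
        have h4 : (-(((n.succ : ℕ)) : ℤ)) = -((n : ℤ) + 1) := by push_cast; rfl
        rw [h4] at h3
        exact h3
      rw [e]
      refine HasSum.mul_right _ ?_
      rw [hasSum_nat_add_iff (f := LSeries.term a s) 1, Finset.sum_range_one, LSeries.term_zero,
        add_zero]
      exact hT
  rw [h1.unique hZ, ← m4_Gs hν hνs hθ]
  ring

end

end Pool.Agent.JO.FM

namespace Pool.Agent.JO.FM

theorem Mf_eq : type_of% @Mf_eq_pr := @Mf_eq_pr

end Pool.Agent.JO.FM
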