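import Pool.Agent.Lib_helper45.JO.Defs2
import Pool.Agent.Lib_helper45.JOM.M1
import Pool.Agent.Lib_helper45.JOM.M2
import Pool.Agent.Lib_helper45.JOM.M3
import Pool.Agent.Lib_helper45.JOM.M4
import Pool.Agent.Lib_helper45.JOM.M5

/-! JO, block M6: the L-function -/

set_option autoImplicit false

namespace Pool.Agent.JO.FM

open Complex Filter Topology MeasureTheory Set
open UpperHalfPlane hiding I
open scoped MatrixGroups ComplexConjugate

variable {ν : ℂ} {ε : ℝ} {a : ℕ → ℂ} {f : ℍ → ℂ} {L : ℂ → ℂ}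

theorem m6_pow_ne {z w : ℂ} (hz : z ≠ 0) : z ^ w ≠ 0 := by
  rw [Ne, Complex.cpow_eq_zero_iff]
  tauto

theorem m6_diff_pow {z : ℂ} (hz : z ≠ 0) {g : ℂ → ℂ} (hg : Differentiable ℂ g) :
    Differentiable ℂ (fun s => z ^ (g s)) := fun s =>
  (hg s).const_cpow (Or.inl hz)

theorem m6_diff_inv_Gamma {g : ℂ → ℂ} (hg : Differentiable ℂ g) :
    Differentiable ℂ (fun s => (Gamma (g s))⁻¹) :=
  Complex.differentiable_one_div_Gamma.comp hg

/-- the identity theorem on the half plane -/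
theorem m6_ident {c : ℝ} (hc : c < 1) {u v : ℂ → ℂ} (hu : DifferentiableOn ℂ u {s | c < s.re})
    (hv : DifferentiableOn ℂ v {s | c < s.re}) (h : ∀ s : ℂ, 1 < s.re → u s = v s) :
    ∀ s : ℂ, c < s.re → u s = v s := by
  have ho : IsOpen {s : ℂ | c < s.re} := isOpen_lt continuous_const Complex.continuous_re
  have hu' : AnalyticOnNhd ℂ u {s | c < s.re} := hu.analyticOnNhd ho
  have hv' : AnalyticOnNhd ℂ v {s | c < s.re} := hv.analyticOnNhd ho
  have hpc : IsPreconnected {s : ℂ | c < s.re} := (convex_halfSpace_re_gt c).isPreconnected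
  have h2 : (2 : ℂ) ∈ {s : ℂ | c < s.re} := by
    show c < (2 : ℂ).re
    norm_num
    linarith
  have hev : u =ᶠ[𝓝 (2 : ℂ)] v := by
    have : {s : ℂ | 1 < s.re} ∈ 𝓝 (2 : ℂ) :=
      (isOpen_lt continuous_const Complex.continuous_re).mem_nhds (by norm_num)
    filter_upwards [this] with s hs
    exact h s hs
  intro s hs
  exact hu'.eqOn_of_preconnected_of_eventuallyEq hv' hpc h2 hev hs

/-- from a candidate to the `LFun` structure -/
theorem m6_of (F : Frame0 ν ε a f) {L : ℂ → ℂ} (hd : Differentiable ℂ L)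
    (h1 : ∀ s : ℂ, 1 < s.re → L s = LSeries a s) : LFun ν ε a f L := by
  refine ⟨hd, fun s hs => ⟨lsummable F hs, h1 s hs⟩, ?_⟩
  intro s θ hs hθ
  have hν := F.nu
  refine m6_ident (c := ν.re) (by have := hν.lt_half; linarith) (u := fun s => Mf f s θ)
    (v := fun s => L s * Gs ν ε s θ) ((Mf_entire F hθ).differentiableOn)
    (hd.differentiableOn.mul (Gs_diff_s hν (by simpa using hθ.1) (by simpa using hθ.2))) ?_ s hs
  intro s hs
  rw [Mf_eq F hs hθ, h1 s hs]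

theorem L_exists_pr (F : Frame0 ν ε a f) : ∃ L : ℂ → ℂ, LFun ν ε a f L := by
  have hν := F.nu
  have hpi : ((2 * Real.pi : ℝ) : ℂ) ≠ 0 := by
    exact_mod_cast (by positivity : (2 * Real.pi : ℝ) ≠ 0)
  have h2 : (2 : ℂ) ≠ 0 := two_ne_zero
  have hθ : Real.pi / 2 ∈ Ioo 0 Real.pi := ⟨by positivity, by linarith [Real.pi_pos]⟩
  have hν0 := hν.nonneg
  have hν1 := hν.lt_half
  rcases F.eps with rfl | rfl
  · refine ⟨fun s => Mf f s (Real.pi / 2) * (((2 * Real.pi : ℝ) : ℂ) ^ (1 / 2 - s) *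
      (2 : ℂ) ^ (s - 1))⁻¹ * (Gamma ((s + ν) / 2))⁻¹ * (Gamma ((s - ν) / 2))⁻¹, m6_of F ?_ ?_⟩
    · refine (((Mf_entire F hθ).mul (Differentiable.inv ?_ ?_)).mul
        (m6_diff_inv_Gamma (by fun_prop))).mul (m6_diff_inv_Gamma (by fun_prop))
      · exact (m6_diff_pow hpi (by fun_prop)).mul (m6_diff_pow h2 (by fun_prop))
      · exact fun s => mul_ne_zero (m6_pow_ne hpi) (m6_pow_ne h2)
    · intro s hs
      have e1 : Gamma ((s + ν) / 2) ≠ 0 := Complex.Gamma_ne_zero_of_re_pos (by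
        simp; linarith)
      have e2 : Gamma ((s - ν) / 2) ≠ 0 := Complex.Gamma_ne_zero_of_re_pos (by
        simp; linarith)
      have e3 : ((2 * Real.pi : ℝ) : ℂ) ^ (1 / 2 - s) ≠ 0 := m6_pow_ne hpi
      have e4 : (2 : ℂ) ^ (s - 1) ≠ 0 := m6_pow_ne h2
      show Mf f s (Real.pi / 2) * _ * _ * _ = _
      rw [Mf_eq F hs hθ, Gs_half_one hν (by linarith)]
      field_simp
  · have hD : ∀ s : ℂ, 1 < s.re →
        (∫ r in Ioi (0 : ℝ), (((pr r (Real.pi / 2)).re : ℂ) * dY f (pr r (Real.pi / 2)) -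
          ((pr r (Real.pi / 2)).im : ℂ) * dX f (pr r (Real.pi / 2))) * (r : ℂ) ^ (s - 3 / 2)) =
        LSeries a s * (-I * ((2 * Real.pi : ℝ) : ℂ) ^ (1 / 2 - s) * (2 : ℂ) ^ s *
        Gamma ((s + 1 + ν) / 2) * Gamma ((s + 1 - ν) / 2)) := by
      intro s hs
      have h3 := (Mf_deriv F s hθ).1
      have h4 := (Gs_half_neg hν (s := s) (by linarith)).comp_ofReal
      have h5 := h4.const_mul (LSeries a s)
      have h6 : HasDerivAt (fun θ : ℝ => Mf f s θ) (LSeries a s *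
          (-I * ((2 * Real.pi : ℝ) : ℂ) ^ (1 / 2 - s) * (2 : ℂ) ^ s *
        Gamma ((s + 1 + ν) / 2) * Gamma ((s + 1 - ν) / 2))) (Real.pi / 2) := by
        refine h5.congr_of_eventuallyEq ?_
        filter_upwards [isOpen_Ioo.mem_nhds hθ] with θ hθ'
        exact Mf_eq F hs hθ'
      exact h3.unique h6
    refine ⟨fun s => (∫ r in Ioi (0 : ℝ), (((pr r (Real.pi / 2)).re : ℂ) *
      dY f (pr r (Real.pi / 2)) - ((pr r (Real.pi / 2)).im : ℂ) * dX f (pr r (Real.pi / 2))) *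
        (r : ℂ) ^ (s - 3 / 2)) * (-I * ((2 * Real.pi : ℝ) : ℂ) ^ (1 / 2 - s) *
      (2 : ℂ) ^ s)⁻¹ * (Gamma ((s + 1 + ν) / 2))⁻¹ * (Gamma ((s + 1 - ν) / 2))⁻¹, m6_of F ?_ ?_⟩
    · refine (((Mf_deriv F 0 hθ).2.mul (Differentiable.inv ?_ ?_)).mul
        (m6_diff_inv_Gamma (by fun_prop))).mul (m6_diff_inv_Gamma (by fun_prop))
      · exact ((m6_diff_pow hpi (by fun_prop)).const_mul _).mul (m6_diff_pow h2 (by fun_prop))
      · exact fun s => mul_ne_zero (mul_ne_zero (neg_ne_zero.2 I_ne_zero) (m6_pow_ne hpi))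
          (m6_pow_ne h2)
    · intro s hs
      have e1 : Gamma ((s + 1 + ν) / 2) ≠ 0 := Complex.Gamma_ne_zero_of_re_pos (by
        simp; linarith)
      have e2 : Gamma ((s + 1 - ν) / 2) ≠ 0 := Complex.Gamma_ne_zero_of_re_pos (by
        simp; linarith)
      have e3 : ((2 * Real.pi : ℝ) : ℂ) ^ (1 / 2 - s) ≠ 0 := m6_pow_ne hpi
      have e4 : (2 : ℂ) ^ s ≠ 0 := m6_pow_ne h2
      show _ * _ * _ * _ = _
      rw [hD s hs]
      have hI : I ≠ 0 := I_ne_zero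
      field_simp


end Pool.Agent.JO.FM

namespace Pool.Agent.JO.FM

theorem L_exists : type_of% @L_exists_pr := @L_exists_pr

end Pool.Agent.JO.FM
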