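import Pool.Agent.Lib_helper45.JO.Defs2

/-!
# Project JO, part FM, block O1: decay of bounded solutions
-/

set_option autoImplicit false

namespace Pool.Agent.JO.FM

open Complex Filter Topology MeasureTheory Set
open UpperHalfPlane hiding I
open scoped MatrixGroups ComplexConjugate

theorem ode_decay_pr {b b' : ℝ → ℂ} {Q : ℝ → ℝ} {Y κ : ℝ} (hκ : 0 < κ)
    (h1 : ∀ y, Y ≤ y → HasDerivAt b (b' y) y)
    (h2 : ∀ y, Y ≤ y → HasDerivAt b' ((Q y : ℂ) * b y) y)
    (h3 : ∀ y, Y ≤ y → κ ^ 2 ≤ Q y) (h4 : ∃ C : ℝ, ∀ y, Y ≤ y → ‖b y‖ ≤ C) :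
    ∀ y, Y ≤ y → ‖b y‖ ≤ ‖b Y‖ * Real.exp (-(κ * (y - Y) / 2)) := by
  obtain ⟨C, hC⟩ := h4
  set u : ℝ → ℝ := fun y => (b y).re with hu
  set v : ℝ → ℝ := fun y => (b y).im with hv
  set u' : ℝ → ℝ := fun y => (b' y).re with hu'
  set v' : ℝ → ℝ := fun y => (b' y).im with hv'
  have du : ∀ y, Y ≤ y → HasDerivAt u (u' y) y := fun y hy =>
    Complex.reCLM.hasFDerivAt.comp_hasDerivAt y (h1 y hy)
  have dv : ∀ y, Y ≤ y → HasDerivAt v (v' y) y := fun y hy =>
    Complex.imCLM.hasFDerivAt.comp_hasDerivAt y (h1 y hy)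
  have du' : ∀ y, Y ≤ y → HasDerivAt u' (Q y * u y) y := fun y hy => by
    have h := Complex.reCLM.hasFDerivAt.comp_hasDerivAt y (h2 y hy)
    refine h.congr_deriv ?_
    simp [hu]
  have dv' : ∀ y, Y ≤ y → HasDerivAt v' (Q y * v y) y := fun y hy => by
    have h := Complex.imCLM.hasFDerivAt.comp_hasDerivAt y (h2 y hy)
    refine h.congr_deriv ?_
    simp [hv]
  set β : ℝ → ℝ := fun y => u y ^ 2 + v y ^ 2 with hβ
  set β1 : ℝ → ℝ := fun y => 2 * (u y * u' y + v y * v' y) with hβ1
  have hnb : ∀ y, ‖b y‖ ^ 2 = β y := by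
    intro y
    rw [← Complex.normSq_eq_norm_sq, Complex.normSq_apply]
    simp only [hβ, hu, hv]
    ring
  have dβ : ∀ y, Y ≤ y → HasDerivAt β (β1 y) y := fun y hy => by
    have h := ((du y hy).pow 2).add ((dv y hy).pow 2)
    refine h.congr_deriv ?_
    simp only [hβ1]
    ring
  have dβ1 : ∀ y, Y ≤ y → HasDerivAt β1 (2 * (u' y ^ 2 + v' y ^ 2 + Q y * β y)) y := fun y hy => by
    have h := (((du y hy).mul (du' y hy)).add ((dv y hy).mul (dv' y hy))).const_mul 2
    refine h.congr_deriv ?_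
    simp only [hβ]
    ring
  have hβ0 : ∀ y, 0 ≤ β y := fun y => by positivity
  have hβC : ∀ y, Y ≤ y → β y ≤ C ^ 2 := fun y hy => by
    rw [← hnb]
    exact pow_le_pow_left₀ (norm_nonneg _) (hC y hy) 2
  -- the exponential
  have dE : ∀ (c y : ℝ), HasDerivAt (fun y => Real.exp (c * y)) (Real.exp (c * y) * c) y := by
    intro c y
    have h := ((hasDerivAt_id y).const_mul c).exp
    simpa using h
  -- `p e^{-κ y}` is increasing
  have hmono : MonotoneOn (fun y => (β1 y + κ * β y) * Real.exp (-κ * y)) (Ici Y) := by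
    have hd : ∀ y, Y ≤ y → HasDerivAt (fun y => (β1 y + κ * β y) * Real.exp (-κ * y))
        ((2 * (u' y ^ 2 + v' y ^ 2 + Q y * β y) + κ * β1 y) * Real.exp (-κ * y) +
          (β1 y + κ * β y) * (Real.exp (-κ * y) * (-κ))) y := fun y hy =>
      ((dβ1 y hy).add ((dβ y hy).const_mul κ)).mul (dE (-κ) y)
    refine monotoneOn_of_deriv_nonneg (convex_Ici Y)
      (fun y hy => (hd y hy).continuousAt.continuousWithinAt) ?_ ?_
    · intro y hy
      rw [interior_Ici] at hy
      exact (hd y (le_of_lt hy)).differentiableAt.differentiableWithinAt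
    · intro y hy
      rw [interior_Ici] at hy
      rw [(hd y (le_of_lt hy)).deriv]
      have e : (2 * (u' y ^ 2 + v' y ^ 2 + Q y * β y) + κ * β1 y) * Real.exp (-κ * y) +
          (β1 y + κ * β y) * (Real.exp (-κ * y) * (-κ)) =
          (2 * (u' y ^ 2 + v' y ^ 2) + Q y * β y + (Q y - κ ^ 2) * β y) * Real.exp (-κ * y) := by
        ring
      rw [e]
      have h5 := h3 y (le_of_lt hy)
      have h6 := hβ0 y
      have h7 : 0 ≤ Q y := le_trans (sq_nonneg κ) h5
      have h8 : 0 ≤ Q y - κ ^ 2 := sub_nonneg.2 h5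
      positivity
  -- `p` is not positive
  have hp : ∀ y, Y ≤ y → β1 y + κ * β y ≤ 0 := by
    intro y1 hy1
    by_contra hcon
    push Not at hcon
    set δ := (β1 y1 + κ * β y1) * Real.exp (-κ * y1) with hδ
    have hδ0 : 0 < δ := mul_pos hcon (Real.exp_pos _)
    have hlow : ∀ y, y1 ≤ y → δ * Real.exp (κ * y) ≤ β1 y + κ * β y := by
      intro y hy
      have h5 := hmono (by exact hy1 : y1 ∈ Ici Y) (by exact hy1.trans hy : y ∈ Ici Y) hy
      simp only at h5
      have h6 : δ * Real.exp (κ * y) ≤ (β1 y + κ * β y) * Real.exp (-κ * y) * Real.exp (κ * y) :=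
        mul_le_mul_of_nonneg_right h5 (Real.exp_pos _).le
      have h7 : Real.exp (-κ * y) * Real.exp (κ * y) = 1 := by
        rw [← Real.exp_add, show -κ * y + κ * y = 0 by ring, Real.exp_zero]
      rwa [mul_assoc (β1 y + κ * β y), h7, mul_one] at h6
    have hr : MonotoneOn (fun y => β y * Real.exp (κ * y) -
        δ / (2 * κ) * Real.exp ((2 * κ) * y)) (Ici y1) := by
      have hd : ∀ y, y1 ≤ y → HasDerivAt (fun y => β y * Real.exp (κ * y) -
          δ / (2 * κ) * Real.exp ((2 * κ) * y))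
          ((β1 y * Real.exp (κ * y) + β y * (Real.exp (κ * y) * κ)) -
            δ / (2 * κ) * (Real.exp ((2 * κ) * y) * (2 * κ))) y := fun y hy =>
        ((dβ y (hy1.trans hy)).mul (dE κ y)).sub ((dE (2 * κ) y).const_mul (δ / (2 * κ)))
      refine monotoneOn_of_deriv_nonneg (convex_Ici y1)
        (fun y hy => (hd y hy).continuousAt.continuousWithinAt) ?_ ?_
      · intro y hy
        rw [interior_Ici] at hy
        exact (hd y (le_of_lt hy)).differentiableAt.differentiableWithinAt
      · intro y hy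
        rw [interior_Ici] at hy
        rw [(hd y (le_of_lt hy)).deriv]
        have h5 := hlow y (le_of_lt hy)
        have h6 : Real.exp ((2 * κ) * y) = Real.exp (κ * y) * Real.exp (κ * y) := by
          rw [← Real.exp_add]
          congr 1
          ring
        have h7 : (β1 y * Real.exp (κ * y) + β y * (Real.exp (κ * y) * κ)) -
            δ / (2 * κ) * (Real.exp ((2 * κ) * y) * (2 * κ)) =
            Real.exp (κ * y) * ((β1 y + κ * β y) - δ * Real.exp (κ * y)) := by
          rw [h6]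
          field_simp
        rw [h7]
        exact mul_nonneg (Real.exp_pos _).le (sub_nonneg.2 h5)
    -- unbounded
    set r1 := β y1 * Real.exp (κ * y1) - δ / (2 * κ) * Real.exp ((2 * κ) * y1) with hr1
    have hub : ∀ y, max y1 0 ≤ y → δ / (2 * κ) * Real.exp (κ * y) ≤ C ^ 2 + |r1| := by
      intro y hy
      have hy1' : y1 ≤ y := (le_max_left _ _).trans hy
      have hy0 : 0 ≤ y := (le_max_right _ _).trans hy
      have h5 := hr (self_mem_Ici : y1 ∈ Ici y1) (by exact hy1' : y ∈ Ici y1) hy1'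
      simp only at h5
      rw [← hr1] at h5
      have h6 : Real.exp ((2 * κ) * y) = Real.exp (κ * y) * Real.exp (κ * y) := by
        rw [← Real.exp_add]
        congr 1
        ring
      rw [h6] at h5
      have h7 : 1 ≤ Real.exp (κ * y) := Real.one_le_exp (by positivity)
      have h8 := hβC y (hy1.trans hy1')
      have h9 : -|r1| ≤ r1 := neg_abs_le r1
      have h10 : 0 ≤ |r1| := abs_nonneg _
      have h11 : Real.exp (κ * y) * (δ / (2 * κ) * Real.exp (κ * y)) ≤
          Real.exp (κ * y) * (C ^ 2 + |r1|) := by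
        nlinarith [hβ0 y]
      exact le_of_mul_le_mul_left h11 (Real.exp_pos _)
    have htend : Tendsto (fun y : ℝ => δ / (2 * κ) * Real.exp (κ * y)) atTop atTop := by
      refine Tendsto.const_mul_atTop (by positivity) ?_
      exact Real.tendsto_exp_atTop.comp (tendsto_id.const_mul_atTop hκ)
    obtain ⟨y, hy⟩ := ((htend.eventually_gt_atTop (C ^ 2 + |r1|)).and
      (eventually_ge_atTop (max y1 0))).exists
    exact absurd (hub y hy.2) (not_le.2 hy.1)
  -- `β e^{κ y}` is decreasing
  have hanti : AntitoneOn (fun y => β y * Real.exp (κ * y)) (Ici Y) := by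
    have hd : ∀ y, Y ≤ y → HasDerivAt (fun y => β y * Real.exp (κ * y))
        (β1 y * Real.exp (κ * y) + β y * (Real.exp (κ * y) * κ)) y := fun y hy =>
      (dβ y hy).mul (dE κ y)
    refine antitoneOn_of_deriv_nonpos (convex_Ici Y)
      (fun y hy => (hd y hy).continuousAt.continuousWithinAt) ?_ ?_
    · intro y hy
      rw [interior_Ici] at hy
      exact (hd y (le_of_lt hy)).differentiableAt.differentiableWithinAt
    · intro y hy
      rw [interior_Ici] at hy
      rw [(hd y (le_of_lt hy)).deriv]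
      have h5 := hp y (le_of_lt hy)
      have h6 : β1 y * Real.exp (κ * y) + β y * (Real.exp (κ * y) * κ) =
          (β1 y + κ * β y) * Real.exp (κ * y) := by ring
      rw [h6]
      exact mul_nonpos_of_nonpos_of_nonneg h5 (Real.exp_pos _).le
  intro y hy
  have h5 := hanti (self_mem_Ici : Y ∈ Ici Y) (by exact hy : y ∈ Ici Y) hy
  simp only at h5
  have h6 : β y ≤ β Y * Real.exp (-(κ * (y - Y))) := by
    have h7 : β y * Real.exp (κ * y) * Real.exp (-(κ * y)) ≤
        β Y * Real.exp (κ * Y) * Real.exp (-(κ * y)) :=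
      mul_le_mul_of_nonneg_right h5 (Real.exp_pos _).le
    rw [mul_assoc, ← Real.exp_add, mul_assoc, ← Real.exp_add] at h7
    rw [show κ * y + -(κ * y) = 0 by ring, Real.exp_zero, mul_one] at h7
    rwa [show κ * Y + -(κ * y) = -(κ * (y - Y)) by ring] at h7
  refine le_of_sq_le_sq ?_ (by positivity)
  rw [mul_pow, hnb, hnb, ← Real.exp_nat_mul]
  refine h6.trans (le_of_eq ?_)
  congr 2
  push_cast
  ring

end Pool.Agent.JO.FM

namespace Pool.Agent.JO.FM

theorem ode_decay : type_of% @ode_decay_pr := @ode_decay_pr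

end Pool.Agent.JO.FM
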