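import Pool.Agent.Lib_helper45.JO.Defs2
import Pool.Agent.Lib_helper45.JOM.K5

/-!
# Project JO, block PH1
-/

set_option autoImplicit false

namespace Pool.Agent.JO.FM

open Complex Filter Topology MeasureTheory Set
open UpperHalfPlane hiding I
open scoped MatrixGroups ComplexConjugate

/-- the normalised square of the Gamma ratio tends to `1` -/
theorem ph1_lim {w : ℝ → ℂ} (h1 : ∀ κ, -(1 / 2) ≤ (w κ).re) (h2 : ∀ κ, (w κ).re ≤ 2)
    (h3 : Tendsto (fun κ => (w κ).im) atTop atTop) :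
    Tendsto (fun κ => (Gamma (w κ + 1 / 2) / Gamma (w κ)) ^ 2 / w κ) atTop (𝓝 1) := by
  obtain ⟨C, hC⟩ := Gamma_ratio
  have h4 : Tendsto (fun κ => Gamma (w κ + 1 / 2) / (Gamma (w κ) * (w κ) ^ (1 / 2 : ℂ)) - 1)
      atTop (𝓝 0) := by
    refine squeeze_zero_norm' (a := fun κ => C * ((w κ).im) ^ (-(1 / 2 : ℝ))) ?_ ?_
    · filter_upwards [h3.eventually_ge_atTop 1] with κ hκ
      exact hC _ (h1 κ) (h2 κ) hκ
    · have h5 : Tendsto (fun x : ℝ => x ^ (-(1 / 2 : ℝ))) atTop (𝓝 0) :=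
        tendsto_rpow_neg_atTop (by norm_num)
      simpa using (h5.comp h3).const_mul C
  have h5 : Tendsto (fun κ => Gamma (w κ + 1 / 2) / (Gamma (w κ) * (w κ) ^ (1 / 2 : ℂ)))
      atTop (𝓝 1) := by
    simpa using h4.add_const 1
  have h6 := h5.pow 2
  rw [one_pow] at h6
  refine h6.congr' ?_
  filter_upwards [h3.eventually_ge_atTop 1] with κ hκ
  have h7 : w κ ≠ 0 := by
    intro h
    rw [h] at hκ
    simp at hκ
    linarith
  have h8 : ((w κ) ^ (1 / 2 : ℂ)) ^ 2 = w κ := by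
    have := Complex.cpow_nat_inv_pow (w κ) (n := 2) (by norm_num)
    convert this using 3
    norm_num
  rw [div_pow, mul_pow, h8, div_pow, div_div]

theorem ph1_ne {z : ℂ} (h : z.im ≠ 0) : Gamma z ≠ 0 := by
  refine Gamma_ne_zero (fun m hm => h ?_)
  rw [hm]
  simp

theorem kap_phase_pr {ν : ℂ} (hν : GoodNu ν) : ∃ κ₀ : ℝ, 0 < κ₀ ∧ ∀ κ : ℝ, κ₀ ≤ κ →
    (SP.pt κ 0 * kap ν (SP.pt κ 0 + 1) * fpH (SP.pt κ 0) *
      conj (kap ν (SP.pt κ 0) * ffH (SP.pt κ 0))).im ≠ 0 := by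
  set z : ℝ → ℂ := fun κ => SP.pt κ 0 / 2 with hz
  have hzre : ∀ κ, (z κ).re = 1 / 4 := by
    intro κ
    simp only [hz]
    rw [show (2 : ℂ) = ((2 : ℝ) : ℂ) by norm_num, Complex.div_ofReal_re, SP.pt_re]
    norm_num
  have hzim : ∀ κ, (z κ).im = κ / 2 := by
    intro κ
    simp only [hz]
    rw [show (2 : ℂ) = ((2 : ℝ) : ℂ) by norm_num, Complex.div_ofReal_im, SP.pt_im]
  have hn := hν.nonneg
  have hl := hν.lt_half
  -- the three limits
  have him : ∀ a : ℝ, Tendsto (fun κ : ℝ => κ / 2 + a) atTop atTop := by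
    intro a
    exact tendsto_atTop_add_const_right _ _ (tendsto_id.atTop_div_const (by norm_num))
  have g0 := ph1_lim (w := z) (fun κ => by rw [hzre]; norm_num) (fun κ => by rw [hzre]; norm_num)
    (by simpa [hzim] using him 0)
  have g1 := ph1_lim (w := fun κ => z κ + ν) (fun κ => by rw [add_re, hzre]; linarith)
    (fun κ => by rw [add_re, hzre]; linarith) (by simpa [hzim] using him ν.im)
  have g2 := ph1_lim (w := fun κ => z κ - ν) (fun κ => by rw [sub_re, hzre]; linarith)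
    (fun κ => by rw [sub_re, hzre]; linarith) (by simpa [hzim, sub_eq_add_neg] using him (-ν.im))
  -- the linear limits
  have hlin : ∀ a : ℂ, Tendsto (fun κ : ℝ => (z κ + a) / (κ : ℂ)) atTop (𝓝 (I / 2)) := by
    intro a
    have e1 : Tendsto (fun κ : ℝ => ((1 / 4 : ℂ) + a) * (κ : ℂ)⁻¹) atTop (𝓝 0) := by
      have : Tendsto (fun κ : ℝ => (κ : ℂ)⁻¹) atTop (𝓝 0) := by
        have h := (Complex.continuous_ofReal.tendsto 0).comp tendsto_inv_atTop_zero
        refine h.congr (fun κ => ?_) |>.trans ?_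
        · simp
        · simp
      simpa using this.const_mul ((1 / 4 : ℂ) + a)
    have e2 := e1.add_const (I / 2)
    rw [zero_add] at e2
    refine e2.congr' ?_
    filter_upwards [eventually_gt_atTop 0] with κ hκ
    have hκ' : (κ : ℂ) ≠ 0 := by exact_mod_cast hκ.ne'
    simp only [hz, SP.pt]
    push_cast
    field_simp
    ring
  have hl0 := hlin 0
  have hl1 := hlin ν
  have hl2 := hlin (-ν)
  -- the square of the ratio
  set Q : ℝ → ℂ := fun κ => SP.pt κ 0 * kap ν (SP.pt κ 0 + 1) * fpH (SP.pt κ 0) /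
    (kap ν (SP.pt κ 0) * ffH (SP.pt κ 0)) with hQ
  have hD : ∀ᶠ κ : ℝ in atTop, kap ν (SP.pt κ 0) * ffH (SP.pt κ 0) ≠ 0 := by
    filter_upwards [eventually_gt_atTop (2 * |ν.im|)] with κ hκ
    have ha : |ν.im| < κ / 2 := by linarith
    have hb := abs_lt.1 ha
    have hpos : 0 < κ := by
      have := abs_nonneg ν.im
      linarith
    have e1 : (SP.pt κ 0 / 2).im = κ / 2 := hzim κ
    unfold kap ffH
    refine mul_ne_zero (div_ne_zero (mul_ne_zero (mul_ne_zero (mul_ne_zero ?_ ?_) ?_) ?_) ?_)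
      (div_ne_zero ?_ ?_)
    · exact (cpow_ne_zero_iff_of_exponent_ne_zero (by
        intro h
        have := congrArg Complex.im h
        simp [SP.pt_im] at this
        linarith)).2 (by norm_num)
    · exact pow_ne_zero _ (ph1_ne (by rw [e1]; linarith))
    · exact ph1_ne (by rw [add_im, e1]; linarith)
    · exact ph1_ne (by rw [sub_im, e1]; linarith)
    · exact ph1_ne (by rw [SP.pt_im]; linarith)
    · exact pow_ne_zero _ (ph1_ne (by rw [e1]; linarith))
    · exact mul_ne_zero (by norm_num) (ph1_ne (by rw [SP.pt_im]; linarith))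
  have key : ∀ᶠ κ : ℝ in atTop, Q κ ^ 2 / (κ : ℂ) ^ 6 =
      16 * (((Gamma (z κ + 1 / 2) / Gamma (z κ)) ^ 2 / z κ) ^ 4 *
        ((Gamma (z κ + ν + 1 / 2) / Gamma (z κ + ν)) ^ 2 / (z κ + ν)) *
        ((Gamma (z κ - ν + 1 / 2) / Gamma (z κ - ν)) ^ 2 / (z κ - ν))) *
        (((z κ + 0) / (κ : ℂ)) ^ 4 * ((z κ + ν) / (κ : ℂ)) * ((z κ + -ν) / (κ : ℂ))) := by
    filter_upwards [eventually_gt_atTop (2 * |ν.im|)] with κ hκ
    have ha : |ν.im| < κ / 2 := by linarith
    have hb := abs_lt.1 ha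
    have hpos : 0 < κ := by
      have := abs_nonneg ν.im
      linarith
    have hκ' : (κ : ℂ) ≠ 0 := by exact_mod_cast hpos.ne'
    have n1 : Gamma (z κ) ≠ 0 := ph1_ne (by rw [hzim]; linarith)
    have n2 : Gamma (z κ + ν) ≠ 0 := ph1_ne (by rw [add_im, hzim]; linarith)
    have n3 : Gamma (z κ - ν) ≠ 0 := ph1_ne (by rw [sub_im, hzim]; linarith)
    have n4 : Gamma (SP.pt κ 0) ≠ 0 := ph1_ne (by rw [SP.pt_im]; linarith)
    have n5 : SP.pt κ 0 ≠ 0 := by
      intro h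
      have := congrArg Complex.im h
      rw [SP.pt_im] at this
      simp at this
      linarith
    have m1 : z κ ≠ 0 := by
      intro h
      have := congrArg Complex.im h
      rw [hzim] at this
      simp at this
      linarith
    have m2 : z κ + ν ≠ 0 := by
      intro h
      have := congrArg Complex.im h
      rw [add_im, hzim] at this
      simp at this
      linarith
    have m3 : z κ - ν ≠ 0 := by
      intro h
      have := congrArg Complex.im h
      rw [sub_im, hzim] at this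
      simp at this
      linarith
    have hq : Q κ = 4 * ((Gamma (z κ + 1 / 2) / Gamma (z κ)) ^ 4 *
        (Gamma (z κ + ν + 1 / 2) / Gamma (z κ + ν)) *
        (Gamma (z κ - ν + 1 / 2) / Gamma (z κ - ν))) := by
      simp only [hQ]
      unfold kap fpH ffH
      have e1 : (SP.pt κ 0 + 1) / 2 = z κ + 1 / 2 := by simp only [hz]; ring
      have e2 : SP.pt κ 0 / 2 = z κ := rfl
      have e3 : z κ + 1 / 2 + ν = z κ + ν + 1 / 2 := by ring
      have e4 : z κ + 1 / 2 - ν = z κ - ν + 1 / 2 := by ring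
      have e5 : Gamma (SP.pt κ 0 + 1) = SP.pt κ 0 * Gamma (SP.pt κ 0) := Gamma_add_one _ n5
      have e6 : (2 : ℂ) ^ (SP.pt κ 0 + 1 - 3) = 2 * (2 : ℂ) ^ (SP.pt κ 0 - 3) := by
        have : SP.pt κ 0 + 1 - 3 = 1 + (SP.pt κ 0 - 3) := by ring
        rw [this, cpow_add _ _ (by norm_num), cpow_one]
      have n6 : (2 : ℂ) ^ (SP.pt κ 0 - 3) ≠ 0 := by
        refine (cpow_ne_zero_iff_of_exponent_ne_zero ?_).2 (by norm_num)
        intro h
        have := congrArg Complex.im h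
        simp [SP.pt_im] at this
        linarith
      rw [e1, e2, e3, e4, e5, e6]
      field_simp
      ring
    rw [hq, add_zero, ← sub_eq_add_neg]
    field_simp
    ring
  have hlim : Tendsto (fun κ : ℝ => Q κ ^ 2 / (κ : ℂ) ^ 6) atTop (𝓝 (-(1 / 4))) := by
    have e1 := (((g0.pow 4).mul g1).mul g2).const_mul 16 |>.mul (((hl0.pow 4).mul hl1).mul hl2)
    have e2 : (16 : ℂ) * (1 ^ 4 * 1 * 1) * ((I / 2) ^ 4 * (I / 2) * (I / 2)) = -(1 / 4) := by
      have : (I / 2) ^ 4 * (I / 2) * (I / 2) = (I ^ 2) ^ 3 / 64 := by ring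
      rw [this, I_sq]
      norm_num
    rw [e2] at e1
    exact e1.congr' (key.mono (fun κ hκ => hκ.symm))
  have hre : ∀ᶠ κ : ℝ in atTop, (Q κ ^ 2 / (κ : ℂ) ^ 6).re < 0 := by
    have h1 := (Complex.continuous_re.tendsto _).comp hlim
    have h2 : (-(1 / 4) : ℂ).re < 0 := by norm_num
    exact h1.eventually_lt_const h2
  obtain ⟨κ₀, h0, hκ₀⟩ : ∃ κ₀ : ℝ, 0 < κ₀ ∧ ∀ κ, κ₀ ≤ κ → (Q κ ^ 2 / (κ : ℂ) ^ 6).re < 0 ∧
      kap ν (SP.pt κ 0) * ffH (SP.pt κ 0) ≠ 0 := by
    obtain ⟨a, ha⟩ := eventually_atTop.1 (hre.and hD)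
    exact ⟨max a 1, by positivity, fun κ hκ => ha κ (le_trans (le_max_left _ _) hκ)⟩
  refine ⟨κ₀, h0, fun κ hκ him0 => ?_⟩
  obtain ⟨h1, h2⟩ := hκ₀ κ hκ
  set D := kap ν (SP.pt κ 0) * ffH (SP.pt κ 0) with hDdef
  set N := SP.pt κ 0 * kap ν (SP.pt κ 0 + 1) * fpH (SP.pt κ 0) with hN
  have h3 : Q κ = N * conj D / ((normSq D : ℝ) : ℂ) := by
    have h4 : ((normSq D : ℝ) : ℂ) = D * conj D := (mul_conj D).symm
    have h5 : conj D ≠ 0 := by simpa using h2
    rw [h4]
    show N / D = _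
    field_simp
  have h4 : N * conj D = ((N * conj D).re : ℂ) := by
    apply Complex.ext
    · simp
    · simpa using him0
  have hQr : Q κ = (((N * conj D).re / normSq D : ℝ) : ℂ) := by
    rw [h3, h4]
    push_cast
    simp
  rw [hQr] at h1
  have h5 : ((((N * conj D).re / normSq D : ℝ) : ℂ) ^ 2 / (κ : ℂ) ^ 6).re =
      ((N * conj D).re / normSq D) ^ 2 / κ ^ 6 := by
    norm_cast
  rw [h5] at h1
  have h6 : 0 ≤ ((N * conj D).re / normSq D) ^ 2 / κ ^ 6 := by positivity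
  linarith

end Pool.Agent.JO.FM

namespace Pool.Agent.JO.FM

theorem kap_phase : type_of% @kap_phase_pr := @kap_phase_pr

end Pool.Agent.JO.FM
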