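import Pool.Agent.Lib_helper45.JO.Defs2
import Pool.Agent.Lib_helper45.JOM.D2
import Pool.Agent.Lib_helper45.JOM.PH1
import Pool.Agent.Lib_helper45.JOM.PH2
import Pool.Agent.Lib_helper45.JOM.PH3

/-!
# Block PH4: the phase step
-/

set_option autoImplicit false

namespace Pool.Agent.JO.FM

open Complex Filter Topology MeasureTheory Set
open UpperHalfPlane hiding I
open scoped MatrixGroups ComplexConjugate

theorem ph4_congr {ι : Type*} {lam : ι → ℝ} {c c' : ι → ℝ → ℂ} {G G' : ℝ → ℂ} {A C : ℝ}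
    (H : SP.SolFam lam c c' G A C) (h : ∀ θ ∈ SP.II, G' θ = G θ) :
    SP.SolFam lam c c' G' A C :=
  { H with
    hG := fun θ hθ => by rw [h θ hθ]; exact H.hG θ hθ
    cG := H.cG.congr h }

theorem ph4_neg {ι : Type*} {lam : ι → ℝ} {c c' : ι → ℝ → ℂ} {G : ℝ → ℂ} {A C : ℝ}
    (H : SP.SolFam lam c c' G A C) :
    SP.SolFam lam (fun i θ => -c i θ) (fun i θ => -c' i θ) (fun θ => -G θ) A C where
  A0 := H.A0
  d1 i θ h := (H.d1 i θ h).neg
  d2 i θ h := by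
    refine (H.d2 i θ h).neg.congr_deriv ?_
    ring
  s1 θ h := by simpa using H.s1 θ h
  b1 θ h := by simpa using H.b1 θ h
  s2 θ h := by simpa using H.s2 θ h
  b2 θ h := by simpa using H.b2 θ h
  hG θ h := (H.hG θ h).neg
  cG := H.cG.neg

/-- the limit at `π/2` from the left of a function continuous there -/
theorem ph4_left {f : ℝ → ℂ} (h : ContinuousAt f (Real.pi / 2)) :
    Tendsto f (𝓝[<] (Real.pi / 2)) (𝓝 (f (Real.pi / 2))) :=
  h.tendsto.mono_left nhdsWithin_le_nhds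

theorem ph4_refl {f : ℝ → ℂ} (h : ContinuousAt f (Real.pi / 2)) :
    Tendsto (fun θ => f (Real.pi - θ)) (𝓝[<] (Real.pi / 2)) (𝓝 (f (Real.pi / 2))) := by
  have h1 : Tendsto (fun θ : ℝ => Real.pi - θ) (𝓝 (Real.pi / 2)) (𝓝 (Real.pi / 2)) := by
    have : Continuous (fun θ : ℝ => Real.pi - θ) := by fun_prop
    have h2 := this.tendsto (Real.pi / 2)
    have h3 : Real.pi - Real.pi / 2 = Real.pi / 2 := by ring
    rwa [h3] at h2
  exact (h.tendsto.comp h1).mono_left nhdsWithin_le_nhds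

theorem ph4_ev : ∀ᶠ θ in 𝓝[<] (Real.pi / 2), θ ∈ SP.II :=
  Ioo_mem_nhdsLT (by positivity)

/-- even sums -/
theorem ph4_even {ι : Type*} [Countable ι] {lam : ι → ℝ} {c c' : ι → ℝ → ℂ} {G : ℝ → ℂ}
    {A C : ℝ} (hinj : Function.Injective lam) (H : SP.SolFam lam c c' G A C)
    (Hr : SP.SolFam lam (fun i θ => c i (Real.pi - θ)) (fun i θ => -c' i (Real.pi - θ))
      (fun θ => G (Real.pi - θ)) A C)
    (hG : ∀ θ ∈ SP.II, G (Real.pi - θ) = G θ) (i : ι) (hi : 1 / 4 < lam i)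
    (hc' : ContinuousAt (c' i) (Real.pi / 2)) : c' i (Real.pi / 2) = 0 := by
  have H2 := ph4_congr Hr (G' := G) (fun θ hθ => (hG θ hθ).symm)
  have h1 : ∀ θ ∈ SP.II, c' i θ = -c' i (Real.pi - θ) := fun θ hθ =>
    (sol_unique hinj H H2 i hi hθ).2
  have h2 := ph4_left hc'
  have h3 : Tendsto (c' i) (𝓝[<] (Real.pi / 2)) (𝓝 (-c' i (Real.pi / 2))) := by
    refine (ph4_refl hc').neg.congr' ?_
    filter_upwards [ph4_ev] with θ hθ
    exact (h1 θ hθ).symm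
  have h4 := tendsto_nhds_unique h2 h3
  have h5 : (2 : ℂ) * c' i (Real.pi / 2) = 0 := by linear_combination h4
  exact (mul_eq_zero.1 h5).resolve_left two_ne_zero

/-- odd sums -/
theorem ph4_odd {ι : Type*} [Countable ι] {lam : ι → ℝ} {c c' : ι → ℝ → ℂ} {G : ℝ → ℂ}
    {A C : ℝ} (hinj : Function.Injective lam) (H : SP.SolFam lam c c' G A C)
    (Hr : SP.SolFam lam (fun i θ => c i (Real.pi - θ)) (fun i θ => -c' i (Real.pi - θ))
      (fun θ => G (Real.pi - θ)) A C)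
    (hG : ∀ θ ∈ SP.II, G (Real.pi - θ) = -G θ) (i : ι) (hi : 1 / 4 < lam i)
    (hc : ContinuousAt (c i) (Real.pi / 2)) : c i (Real.pi / 2) = 0 := by
  have H2 := ph4_congr (ph4_neg Hr) (G' := G) (fun θ hθ => by
    rw [hG θ hθ, neg_neg])
  have h1 : ∀ θ ∈ SP.II, c i θ = -c i (Real.pi - θ) := fun θ hθ =>
    (sol_unique hinj H H2 i hi hθ).1
  have h2 := ph4_left hc
  have h3 : Tendsto (c i) (𝓝[<] (Real.pi / 2)) (𝓝 (-c i (Real.pi / 2))) := by
    refine (ph4_refl hc).neg.congr' ?_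
    filter_upwards [ph4_ev] with θ hθ
    exact (h1 θ hθ).symm
  have h4 := tendsto_nhds_unique h2 h3
  have h5 : (2 : ℂ) * c i (Real.pi / 2) = 0 := by linear_combination h4
  exact (mul_eq_zero.1 h5).resolve_left two_ne_zero

/-- real sums -/
theorem ph4_real {ι : Type*} [Countable ι] {lam : ι → ℝ} {c c' : ι → ℝ → ℂ} {G : ℝ → ℂ}
    {A C : ℝ} (hinj : Function.Injective lam) (H : SP.SolFam lam c c' G A C)
    (hG : ∀ θ ∈ SP.II, (G θ).im = 0) (i : ι) (hi : 1 / 4 < lam i) :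
    ∀ θ ∈ SP.II, conj (c i θ) = c i θ ∧ conj (c' i θ) = c' i θ := by
  intro θ hθ
  have H2 := ph4_congr H.conj (G' := G) (fun θ hθ => (Complex.conj_eq_iff_im.2 (hG θ hθ)).symm)
  have := sol_unique hinj H H2 i hi hθ
  exact ⟨this.1.symm, this.2.symm⟩

theorem ph4_real_lim {f : ℝ → ℂ} (h : ContinuousAt f (Real.pi / 2))
    (hf : ∀ θ ∈ SP.II, conj (f θ) = f θ) : (f (Real.pi / 2)).im = 0 := by
  have h1 := ph4_left h
  have h2 : Tendsto (fun θ => conj (f θ)) (𝓝[<] (Real.pi / 2)) (𝓝 (conj (f (Real.pi / 2)))) :=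
    (Complex.continuous_conj.tendsto _).comp h1
  have h3 : Tendsto f (𝓝[<] (Real.pi / 2)) (𝓝 (conj (f (Real.pi / 2)))) := by
    refine h2.congr' ?_
    filter_upwards [ph4_ev] with θ hθ
    exact hf θ hθ
  exact Complex.conj_eq_iff_im.1 (tendsto_nhds_unique h3 h1)

/-- the Wronskian is constant -/
theorem ph4_ww {ι : Type*} {lam : ι → ℝ} {c c' : ι → ℝ → ℂ} {G : ℝ → ℂ}
    {A C : ℝ} (H : SP.SolFam lam c c' G A C) (i : ι) {κ : ℝ} (hi : lam i = 1 / 4 + κ ^ 2)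
    (hc : ContinuousAt (c i) (Real.pi / 2)) (hc' : ContinuousAt (c' i) (Real.pi / 2)) {θ : ℝ}
    (hθ : θ ∈ SP.II) : SP.ww c c' i (SP.pt κ 0) θ =
      fpH (SP.pt κ 0) * c i (Real.pi / 2) - ffH (SP.pt κ 0) * c' i (Real.pi / 2) := by
  have hre : 0 < (SP.pt κ 0).re := by
    rw [SP.pt_re]
    norm_num
  have hz : (lam i : ℂ) - SP.pt κ 0 * (1 - SP.pt κ 0) = 0 := by
    rw [SP.den_pt, hi]
    push_cast
    ring
  have hd : ∀ t ∈ SP.II, HasDerivAt (SP.ww c c' i (SP.pt κ 0)) 0 t := by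
    intro t ht
    have := SP.ww_deriv H ht hre i
    rwa [hz, zero_mul] at this
  have hconst : ∀ t ∈ SP.II, SP.ww c c' i (SP.pt κ 0) t = SP.ww c c' i (SP.pt κ 0) θ := by
    intro t ht
    refine (convex_Ioo (0 : ℝ) (Real.pi / 2)).is_const_of_fderivWithin_eq_zero (𝕜 := ℝ)
      (fun u hu => (hd u hu).differentiableAt.differentiableWithinAt) (fun u hu => ?_) ht hθ
    have h1 : HasFDerivWithinAt (SP.ww c c' i (SP.pt κ 0)) (0 : ℝ →L[ℝ] ℂ)
        (Ioo (0 : ℝ) (Real.pi / 2)) u := by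
      have := (hd u hu).hasFDerivAt.hasFDerivWithinAt (s := Ioo (0 : ℝ) (Real.pi / 2))
      simpa using this
    exact h1.fderivWithin (isOpen_Ioo.uniqueDiffWithinAt hu)
  obtain ⟨f1, f2⟩ := ff_half hre
  have h3 : Tendsto (SP.ww c c' i (SP.pt κ 0)) (𝓝[<] (Real.pi / 2))
      (𝓝 (fpH (SP.pt κ 0) * c i (Real.pi / 2) - ffH (SP.pt κ 0) * c' i (Real.pi / 2))) :=
    (f2.mul (ph4_left hc)).sub (f1.mul (ph4_left hc'))
  have h4 : Tendsto (SP.ww c c' i (SP.pt κ 0)) (𝓝[<] (Real.pi / 2))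
      (𝓝 (SP.ww c c' i (SP.pt κ 0) θ)) := by
    refine tendsto_const_nhds.congr' ?_
    filter_upwards [ph4_ev] with t ht
    exact (hconst t ht).symm
  exact tendsto_nhds_unique h4 h3

/-- a real solution with vanishing Wronskian vanishes -/
theorem ph4_zero {ι : Type*} {c c' : ι → ℝ → ℂ} (i : ι) {κ : ℝ} (hκ : κ ≠ 0) {θ : ℝ}
    (hθ : θ ∈ SP.II) (h : SP.ww c c' i (SP.pt κ 0) θ = 0) (h1 : conj (c i θ) = c i θ)
    (h2 : conj (c' i θ) = c' i θ) : c i θ = 0 := by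
  have hpt : SP.pt κ 0 = 1 / 2 + Complex.I * κ := by unfold SP.pt; push_cast; ring
  rw [hpt] at h
  have h3 : conj (SP.fp (1 / 2 + Complex.I * κ) θ) * c i θ -
      conj (SP.ff (1 / 2 + Complex.I * κ) θ) * c' i θ = 0 := by
    have := congrArg conj h
    simpa only [SP.ww, map_sub, map_mul, h1, h2, map_zero] using this
  have h4 : SP.fp (1 / 2 + Complex.I * κ) θ * c i θ -
      SP.ff (1 / 2 + Complex.I * κ) θ * c' i θ = 0 := h
  have h5 : SP.wr (1 / 2 + Complex.I * κ) θ * c i θ = 0 := by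
    unfold SP.wr
    linear_combination (conj (SP.ff (1 / 2 + Complex.I * κ) θ)) * h4 -
      SP.ff (1 / 2 + Complex.I * κ) θ * h3
  exact (mul_eq_zero.mp h5).resolve_left (SP.wr_ne hκ hθ)

/-- the limit of `η` times the sum -/
theorem ph4_lim {ι : Type*} {lam : ι → ℝ} {c c' : ι → ℝ → ℂ} {G : ℝ → ℂ}
    {A C : ℝ} (hinj : Function.Injective lam) (H : SP.SolFam lam c c' G A C) {θ₀ : ℝ}
    (h0 : θ₀ ∈ SP.II) {κ : ℝ} (hκ : 0 < κ) (j : ι) (hj : lam j = 1 / 4 + κ ^ 2) :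
    Tendsto (fun η : ℝ => (η : ℂ) * ∑' i, SP.ww c c' i (SP.pt κ η) θ₀ /
      ((lam i : ℂ) - SP.pt κ η * (1 - SP.pt κ η))) (𝓝[>] 0)
      (𝓝 (SP.ww c c' j (SP.pt κ 0) θ₀ / (2 * κ * Complex.I))) := by
  have h := H.lim_L h0 hκ
  rw [tsum_eq_single j (fun i hi => if_neg fun h => hi (hinj (h.trans hj.symm))), if_pos hj] at h
  exact h

theorem phase_step_pr {ν : ℂ} (hν : GoodNu ν) : ∃ Λ₀ : ℝ, 1 / 4 ≤ Λ₀ ∧
    ∀ (ι : Type) [Countable ι] (lam : ι → ℝ) (c c' d d' : ι → ℝ → ℂ) (G₁ G₂ : ℝ → ℂ) (A C : ℝ)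
      (M : ℂ → ℂ) (θ₀ R : ℝ), Function.Injective lam →
    -- the two families on `(0, π/2)` and their reflections
    SP.SolFam lam c c' G₁ A C → SP.SolFam lam d d' G₂ A C →
    SP.SolFam lam (fun i θ => c i (Real.pi - θ)) (fun i θ => -c' i (Real.pi - θ))
      (fun θ => G₁ (Real.pi - θ)) A C →
    SP.SolFam lam (fun i θ => d i (Real.pi - θ)) (fun i θ => -d' i (Real.pi - θ))
      (fun θ => G₂ (Real.pi - θ)) A C →
    (∀ i, ContinuousAt (c i) (Real.pi / 2) ∧ ContinuousAt (c' i) (Real.pi / 2) ∧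
      ContinuousAt (d i) (Real.pi / 2) ∧ ContinuousAt (d' i) (Real.pi / 2)) →
    -- `G₁` even, `G₂` odd, both real
    (∀ θ ∈ SP.II, G₁ (Real.pi - θ) = G₁ θ ∧ G₂ (Real.pi - θ) = -G₂ θ ∧
      (G₁ θ).im = 0 ∧ (G₂ θ).im = 0) →
    -- the relation between the transforms
    θ₀ ∈ SP.II → DifferentiableOn ℂ M SP.QQ →
    (∀ κ : ℝ, 0 < κ → Tendsto (fun η : ℝ => (η : ℂ) * M (SP.pt κ η)) (𝓝[>] 0) (𝓝 0)) →
    (∀ s : ℂ, s ∈ SP.QQ → R < s.re →
      s * kap ν (s + 1) * Dt G₁ θ₀ s - kap ν s * Dt G₂ θ₀ s = M s) →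
    ∀ i, Λ₀ < lam i → ∀ θ ∈ SP.II, c i θ = 0 ∧ d i θ = 0 := by
  obtain ⟨κ₀, hκ₀, hph⟩ := kap_phase hν
  refine ⟨1 / 4 + κ₀ ^ 2, by nlinarith [sq_nonneg κ₀], ?_⟩
  intro ι _ lam c c' d d' G₁ G₂ A C M θ₀ R hinj H₁ H₂ H₁r H₂r hcont hG h0 hM hMlim hrel j hj θ hθ
  -- the spectral parameter
  have hj4 : 1 / 4 < lam j := by nlinarith [sq_nonneg κ₀]
  set κ : ℝ := Real.sqrt (lam j - 1 / 4) with hκ
  have hκ1 : κ₀ ≤ κ := by
    rw [hκ]
    apply Real.le_sqrt_of_sq_le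
    linarith
  have hκ0 : 0 < κ := hκ₀.trans_le hκ1
  have hj' : lam j = 1 / 4 + κ ^ 2 := by
    rw [hκ, Real.sq_sqrt (by linarith)]
    ring
  -- symmetry and reality
  have hc0 : c' j (Real.pi / 2) = 0 :=
    ph4_even hinj H₁ H₁r (fun θ hθ => (hG θ hθ).1) j hj4 (hcont j).2.1
  have hd0 : d j (Real.pi / 2) = 0 :=
    ph4_odd hinj H₂ H₂r (fun θ hθ => (hG θ hθ).2.1) j hj4 (hcont j).2.2.1
  have hcr := ph4_real hinj H₁ (fun θ hθ => (hG θ hθ).2.2.1) j hj4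
  have hdr := ph4_real hinj H₂ (fun θ hθ => (hG θ hθ).2.2.2) j hj4
  have hcim := ph4_real_lim (hcont j).1 (fun θ hθ => (hcr θ hθ).1)
  have hdim := ph4_real_lim (hcont j).2.2.2 (fun θ hθ => (hdr θ hθ).2)
  -- the identity on the quadrant
  set L₁ : ℂ → ℂ := fun s => ∑' i, SP.ww c c' i s θ₀ / ((lam i : ℂ) - s * (1 - s)) with hL₁
  set L₂ : ℂ → ℂ := fun s => ∑' i, SP.ww d d' i s θ₀ / ((lam i : ℂ) - s * (1 - s)) with hL₂
  have hk := kap_diff hν
  have hkQ : DifferentiableOn ℂ (kap ν) SP.QQ := hk.mono fun s hs => ⟨by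
    have := hs.1
    linarith, hs.2⟩
  have hkQ1 : DifferentiableOn ℂ (fun s => kap ν (s + 1)) SP.QQ := by
    refine hk.comp (by fun_prop) fun s hs => ⟨?_, ?_⟩
    · have := hs.1
      simp only [Complex.add_re, Complex.one_re]
      linarith
    · have := hs.2
      simp only [Complex.add_im, Complex.one_im]
      linarith
  have hid : ∀ s ∈ SP.QQ, s * kap ν (s + 1) * L₁ s - kap ν s * L₂ s = M s := by
    have hl : DifferentiableOn ℂ (fun s => s * kap ν (s + 1) * L₁ s - kap ν s * L₂ s) SP.QQ :=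
      ((differentiableOn_id.mul hkQ1).mul (H₁.diff_L h0)).sub (hkQ.mul (H₂.diff_L h0))
    have hl' := hl.analyticOnNhd SP.QQ_open
    have hM' := hM.analyticOnNhd SP.QQ_open
    set B : ℝ := max R (A + 2) with hB
    set z₀ : ℂ := ((|B| + 1 : ℝ) : ℂ) + Complex.I with hz₀
    have hz1 : z₀.re = |B| + 1 := by rw [hz₀]; simp
    have hz2 : z₀.im = 1 := by rw [hz₀]; simp
    have hzQ : z₀ ∈ SP.QQ := ⟨by rw [hz1]; linarith [abs_nonneg B], by rw [hz2]; norm_num⟩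
    have hopen : IsOpen ({s : ℂ | B < s.re} ∩ SP.QQ) :=
      (isOpen_lt continuous_const Complex.continuous_re).inter SP.QQ_open
    have hev : (fun s => s * kap ν (s + 1) * L₁ s - kap ν s * L₂ s) =ᶠ[𝓝 z₀] M := by
      filter_upwards [hopen.mem_nhds ⟨show B < z₀.re by
        rw [hz1]
        linarith [le_abs_self B], hzQ⟩] with s hs
      have hsB : B < s.re := hs.1
      have hs1 : R < s.re := (le_max_left _ _).trans_lt hsB
      have hs2 : A + 2 ≤ s.re := ((le_max_right _ _).trans_lt hsB).le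
      rw [← hrel s hs.2 hs1, hL₁, hL₂]
      simp only
      rw [H₁.sum_eq h0 hs2 hs.2.2, H₂.sum_eq h0 hs2 hs.2.2]
      rfl
    exact hl'.eqOn_of_preconnected_of_eventuallyEq hM' SP.QQ_conn hzQ hev
  -- the limit
  have hpt := SP.pt_tendsto κ
  have hkc : ∀ s : ℂ, 0 < s.re → 0 < s.im → ContinuousAt (kap ν) s := by
    intro s h1 h2
    have hopen : IsOpen {s : ℂ | 0 < s.re ∧ 0 < s.im} :=
      (isOpen_lt continuous_const Complex.continuous_re).inter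
        (isOpen_lt continuous_const Complex.continuous_im)
    exact (hk.differentiableAt (hopen.mem_nhds ⟨h1, h2⟩)).continuousAt
  have t1 : Tendsto (fun η : ℝ => kap ν (SP.pt κ η)) (𝓝[>] 0) (𝓝 (kap ν (SP.pt κ 0))) :=
    (hkc _ (by rw [SP.pt_re]; norm_num) (by rw [SP.pt_im]; exact hκ0)).tendsto.comp hpt
  have t2 : Tendsto (fun η : ℝ => kap ν (SP.pt κ η + 1)) (𝓝[>] 0)
      (𝓝 (kap ν (SP.pt κ 0 + 1))) :=
    (hkc (SP.pt κ 0 + 1) (by rw [Complex.add_re, SP.pt_re]; norm_num)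
      (by rw [Complex.add_im, SP.pt_im]; simpa using hκ0)).tendsto.comp (hpt.add_const 1)
  have t3 := ph4_lim hinj H₁ h0 hκ0 j hj'
  have t4 := ph4_lim hinj H₂ h0 hκ0 j hj'
  have t5 := ((hpt.mul t2).mul t3).sub (t1.mul t4)
  have t6 := hMlim κ hκ0
  have t7 : Tendsto (fun η : ℝ => (η : ℂ) * M (SP.pt κ η)) (𝓝[>] 0)
      (𝓝 (SP.pt κ 0 * kap ν (SP.pt κ 0 + 1) * (SP.ww c c' j (SP.pt κ 0) θ₀ / (2 * κ * Complex.I)) -
        kap ν (SP.pt κ 0) * (SP.ww d d' j (SP.pt κ 0) θ₀ / (2 * κ * Complex.I)))) := by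
    refine t5.congr' ?_
    filter_upwards [self_mem_nhdsWithin] with η hη
    have hη0 : (0 : ℝ) < η := hη
    rw [← hid (SP.pt κ η) ⟨by rw [SP.pt_re]; linarith, by rw [SP.pt_im]; exact hκ0⟩, hL₁, hL₂]
    ring
  have t8 := tendsto_nhds_unique t7 t6
  have hκc : (κ : ℂ) ≠ 0 := by exact_mod_cast hκ0.ne'
  have h5 : (2 * κ * Complex.I : ℂ) ≠ 0 := mul_ne_zero (mul_ne_zero two_ne_zero hκc) Complex.I_ne_zero
  rw [ph4_ww H₁ j hj' (hcont j).1 (hcont j).2.1 h0,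
    ph4_ww H₂ j hj' (hcont j).2.2.1 (hcont j).2.2.2 h0, hc0, hd0] at t8
  -- the phases
  set X : ℂ := SP.pt κ 0 * kap ν (SP.pt κ 0 + 1) * fpH (SP.pt κ 0) with hX
  set Y : ℂ := kap ν (SP.pt κ 0) * ffH (SP.pt κ 0) with hY
  set a : ℂ := c j (Real.pi / 2) with ha
  set b : ℂ := d' j (Real.pi / 2) with hb
  have hXY : X * a + Y * b = 0 := by
    have h6 : (X * a + Y * b) / (2 * κ * Complex.I) = 0 := by
      rw [← t8, hX, hY]
      ring
    exact (div_eq_zero_iff.1 h6).resolve_right h5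
  have hphκ : (X * conj Y).im ≠ 0 := hph κ hκ1
  have hare : a = ((a.re : ℝ) : ℂ) := by
    apply Complex.ext
    · simp
    · simpa using hcim
  have hbre : b = ((b.re : ℝ) : ℂ) := by
    apply Complex.ext
    · simp
    · simpa using hdim
  have h7 : (X * conj Y) * a + (Y * conj Y) * b = 0 := by linear_combination (conj Y) * hXY
  rw [Complex.mul_conj, hare, hbre] at h7
  have h8 := congrArg Complex.im h7
  rw [Complex.add_im, Complex.im_mul_ofReal, Complex.zero_im, ← Complex.ofReal_mul,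
    Complex.ofReal_im, add_zero] at h8
  have ha0 : a = 0 := by
    rw [hare, (mul_eq_zero.1 h8).resolve_left hphκ, Complex.ofReal_zero]
  have hYne : Y ≠ 0 := by
    intro h
    apply hphκ
    rw [h]
    simp
  have hb0 : b = 0 := by
    rw [ha0, mul_zero, zero_add] at hXY
    exact (mul_eq_zero.1 hXY).resolve_left hYne
  constructor
  · refine ph4_zero j hκ0.ne' hθ ?_ (hcr θ hθ).1 (hcr θ hθ).2
    rw [ph4_ww H₁ j hj' (hcont j).1 (hcont j).2.1 hθ, hc0, ← ha, ha0]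
    ring
  · refine ph4_zero j hκ0.ne' hθ ?_ (hdr θ hθ).1 (hdr θ hθ).2
    rw [ph4_ww H₂ j hj' (hcont j).2.2.1 (hcont j).2.2.2 hθ, hd0, ← hb, hb0]
    ring

end Pool.Agent.JO.FM

namespace Pool.Agent.JO.FM

theorem phase_step : type_of% @phase_step_pr := @phase_step_pr

end Pool.Agent.JO.FM
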