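import Pool.Agent.Lib_helper45.JO.Defs3
import Pool.Agent.Lib_helper45.JOM.A13
import Pool.Agent.Lib_helper45.JOM.C1
import Pool.Agent.Lib_helper45.JOM.C13
import Pool.Agent.Lib_helper45.JOM.D6
import Pool.Agent.Lib_helper45.JOM.FA
import Pool.Agent.Lib_helper45.JOM.FB
import Pool.Agent.Lib_helper45.JOM.FC
import Pool.Agent.Lib_helper45.JOM.FD
import Pool.Agent.Lib_helper45.JOM.M6
import Pool.Agent.Lib_helper45.JOM.O1
import Pool.Agent.Lib_helper45.JOM.PH4

/-!
# Project JO, part FM (Maass frame), weight 0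

All statements of the part: `frame0_exists`, `L_exists`, `FC_diff`, `fm2a`, `fm2b`, `phase_step`,
`wform_maass0`, `hasExp_maass0`, `chi_maass0`, `ray_symm`.
-/
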