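import Pool.Agent.Lib_helper45.JOM.FM
import Pool.Agent.Lib_helper84.JO.Contra

/-!
# Project JO: top level of the Maass half, weight 0
-/

set_option autoImplicit false

namespace Pool.Agent.JO.FM

open Complex Filter Topology MeasureTheory Set
open UpperHalfPlane hiding I
open Pool.Agent.Lib_helper37.JO (HJ HJ1 strip)
open scoped MatrixGroups ComplexConjugate

/-- **Reduction of the Maass half, weight 0.** -/
theorem maass_top0 (Zf : ∀ N : ℕ, ZMod N × ZMod N → ℝ → ℝ → ℂ)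
    (hSE : ∀ (N : ℕ) [NeZero N], SEMaass0 N (Zf N))
    (hdec : ∀ (N : ℕ) [NeZero N] (χ : DirichletCharacter ℂ N) (ev : ℝ) (f : ℍ → ℂ) (a : ℕ → ℂ),
      IsHeckeMaass N χ 0 ev f a → aMDec N f)
    (hB : ∀ (N : ℕ) [NeZero N] (χ : DirichletCharacter ℂ N) (ev : ℝ) (f : ℍ → ℂ) (a : ℕ → ℂ),
      IsHeckeMaass N χ 0 ev f a → BConcl (N := N) (Zf N) 0 f)
    (N : ℕ) [NeZero N] (χ : DirichletCharacter ℂ N) (ev : ℝ) (f : ℍ → ℂ) (a : ℕ → ℂ)
    (h : IsHeckeMaass N χ 0 ev f a) : OmegaConclusion a := by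
  obtain ⟨ν, ε, f₁, hev, h₁, F⟩ := frame0_exists h
  obtain ⟨L, hL⟩ := L_exists F
  refine ⟨L, hL.diff, hL.ser, fun A B => ?_⟩
  by_contra hno
  have hE := isLittleO_of_not_isOmegaSqrt hno
  obtain ⟨R, hR, hdecomp, hRb⟩ := hSE N χ ev f₁ a ν ε h₁ hev F (hdec N χ ev f₁ a h₁)
    (fun θ₀ hθ₀ => by
      obtain ⟨M, hM1, hM2, hM3⟩ := fm2a F hL hE hθ₀
      exact ⟨M, 2, hM1, hM2, hM3⟩)
  obtain ⟨hFd, hFb⟩ := hB N χ ev f₁ a h₁
  obtain ⟨hC1, hC2⟩ := FC_diff F hL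
  have hst : {θ : ℂ | 0 < θ.re ∧ θ.re < Real.pi} = strip := rfl
  rw [hst] at hC1
  have hall : Set.EqOn (FC ν ε L) (fun θ => Fct (N := N) (Zf N) f₁ θ + R θ) strip :=
    eqOn_strip hC1 (hFd.add hR) fun θ hθ => (hC2 θ hθ).trans (hdecomp θ hθ)
  obtain ⟨η, hη, hun⟩ := fm2b h₁ hev F hL
  set r : ℝ := min (η / 2) (1 / 2) with hr
  have hr0 : 0 < r := by
    rw [hr]
    exact lt_min (by linarith) (by norm_num)
  refine hun r hr0 ?_
  obtain ⟨C₁, hC₁⟩ := hFb (η / 2) (η + 1) (by linarith)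
  obtain ⟨C₂, hC₂⟩ := hRb (η / 2) (η + 1) (by linarith)
  refine ⟨C₁ + C₂, fun θ hθ0 hθ => ?_⟩
  have h1 : |θ.re| ≤ ‖θ - η * I‖ := by
    have := Complex.abs_re_le_norm (θ - η * I)
    simpa using this
  have h2 : |θ.im - η| ≤ ‖θ - η * I‖ := by
    have := Complex.abs_im_le_norm (θ - η * I)
    simpa using this
  have hre : θ.re < 1 := by
    have h3 : r ≤ 1 / 2 := min_le_right _ _
    have h4 := le_abs_self θ.re
    linarith
  have him1 : η / 2 ≤ θ.im := by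
    have h3 : r ≤ η / 2 := min_le_left _ _
    have h4 := (abs_le.1 (h2.trans hθ.le)).1
    linarith
  have him2 : θ.im ≤ η + 1 := by
    have h3 : r ≤ 1 / 2 := min_le_right _ _
    have h4 := (abs_le.1 (h2.trans hθ.le)).2
    linarith
  have hmem : θ ∈ strip := ⟨hθ0, by linarith [Real.pi_gt_three]⟩
  rw [hall hmem]
  have e : θ = (θ.re : ℂ) + (θ.im : ℂ) * I := (Complex.re_add_im θ).symm
  have h5 := hC₁ θ.re θ.im hθ0 hre.le him1 him2
  have h6 := hC₂ θ.re θ.im hθ0 hre.le him1 him2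
  rw [← e] at h5 h6
  rw [pow_zero, inv_one, mul_one] at h5
  exact (norm_add_le _ _).trans (add_le_add h5 h6)

end Pool.Agent.JO.FM
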